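import Pool.Agent.H292.TW.Chk3

/-!
Project TWELVE (helper221): certificate tree of one order pattern (helper146).
-/

set_option autoImplicit false
set_option maxRecDepth 100000

namespace Pool.Agent.H146.TW

open Pool.Agent.H292.TW.Chk

def C1188765432 : Tr :=
  .pr 5 2 (.pr 8 2 (.pr 7 2 (.pr 6 2 (.pr 2 2 (.leaf [(2, .rt 2 3 5 2 4 7), (2, .am 5 6 7 8 1 1), (2, .pl 2 5 8 9), (4, .rt 6 7 9 6 7 9), (1, .rt 5 6 8 4 6 8), (1, .rt 5 6 8 3 6 8), (2, .am 0 4 7 8 1 1), (12, .cf 8 9 1 8 1 5), (10, .rt 5 6 8 5 6 8), (1, .am 4 6 7 8 1 1), (4, .pl 0 8 5 2), (4, .am 0 5 7 8 1 1), (12, .rt 8 9 1 8 0 1), (12, .rt 2 3 5 2 5 6), (2, .pl 0 8 4 2), (6, .am 2 5 6 8 1 1), (2, .rt 2 3 5 2 3 7), (1, .am 3 6 7 8 1 1), (2, .am 2 3 7 8 1 1), (2, .am 5 6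 8 9 1 1), (2, .cf 8 9 1 8 1 3), (4, .rt 8 9 1 8 9 1), (12, .rt 7 8 0 7 8 0), (2, .cf 8 9 1 8 1 4)]) (.pr 4 2 (.leaf [(2, .am 3 6 7 8 1 1), (4, .rt 6 7 9 6 7 1), (1, .am 3 5 6 8 1 1), (3, .am 1 5 6 8 1 1), (4, .rt 5 6 8 5 6 8), (4, .rt 7 8 0 7 8 1), (4, .cf 8 9 1 8 1 6), (3, .pl 1 8 5 3), (2, .am 1 6 7 8 1 1), (4, .rt 4 5 7 3 5 7), (4, .cf 8 9 1 8 1 5)]) (.pr 3 2 (.leaf [(10, .am 1 5 7 8 1 1), (35, .rt 5 6 8 5 6 8), (12, .am 1 4 5 6 1 1), (36, .am 3 4 6 7 1 1), (18, .am 3 5 7 8 1 1), (18, .pl 1 8 4 3), (63, .rt 3 4 6 3 4 6), (6, .am 1 4 6 7 1 1), (28, .am 1 6 7 8 1 1), (56, .cf 8 9 1 8 1 6), (9, .am 3 4 5 6 1 1), (14, .am 1 5 6 7 1 1), (84, .lf 4 6 7 7 4 6), (56, .rt 7 8 0 7 8 1), (21, .lf 2 4 5 5 2 4), (21, .ce 2 4 5 2 5 8)]) (.ch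 3 (.leaf [(18, .pl 1 8 4 3), (21, .ce 2 4 5 2 5 8), (21, .lf 2 4 5 5 2 4), (14, .am 1 5 6 7 1 1), (84, .lf 4 6 7 7 4 6), (56, .cf 8 9 1 8 1 6), (9, .am 3 4 5 6 1 1), (63, .rt 3 4 6 3 4 6), (36, .am 3 4 6 7 1 1), (35, .rt 5 6 8 5 6 8), (18, .am 3 5 7 8 1 1), (12, .am 1 4 5 6 1 1), (6, .am 1 4 6 7 1 1), (28, .am 1 6 7 8 1 1), (56, .rt 7 8 0 7 8 1), (10, .am 1 5 7 8 1 1)]) (.leaf [(16, .ce 2 4 5 2 5 7), (5, .pl 0 8 5 2), (3, .am 1 5 6 8 1 1), (16, .cf 8 9 1 8 1 6), (10, .lf 3 5 6 6 2 5), (3, .am 4 5 7 8 1 1), (12, .am 5 6 7 8 1 1), (6, .lf 2 4 5 5 2 4), (10, .rt 5 6 8 5 6 8), (10, .lf 5 7 8 8 5 7), (10, .rt 7 8 0 7 8 0), (3, .pl 1 8 5 4), (10, .rt 8 9 1 8 0 1), (5, .am 0 5 7 8 1 1), (6, .lf 4 6 7 7 4 6), (6, .rt 6 7 9 6 7 1), (5, .am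 2 5 6 8 1 1)]) (.leaf [(20, .lf 2 4 5 5 2 3), (24, .rt 6 7 9 6 7 1), (36, .lf 2 4 5 5 2 4), (32, .ce 2 4 5 2 5 6), (27, .pl 1 8 5 4), (20, .tb 3 1 2), (12, .am 5 6 7 8 1 1), (64, .cf 8 9 1 8 1 6), (30, .am 1 6 7 8 1 1), (60, .rt 7 8 0 7 8 1), (9, .am 4 5 6 8 1 1), (24, .ce 2 4 5 2 5 7), (27, .am 1 5 6 8 1 1), (36, .lf 4 6 7 7 4 6), (18, .am 4 6 7 8 1 1), (20, .cf 8 9 1 8 1 5)]) (.leaf [(8, .am 1 5 6 8 1 1), (18, .am 3 4 5 6 1 1), (8, .rt 7 8 0 7 8 1), (32, .am 4 6 7 8 1 1), (64, .lf 4 6 7 7 4 6), (40, .c4 3), (40, .lf 3 5 6 6 3 5), (32, .rt 6 7 9 6 7 1), (11, .am 1 4 6 8 1 1), (24, .am 3 5 6 7 1 1), (32, .ce 2 4 5 2 5 7), (12, .am 3 5 7 8 1 1), (4, .am 1 5 7 8 1 1), (17, .pl 1 8 4 3), (5, .am 3 4 6 8 1 1), (6, .am 1 4 5 6 1 1),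 (40, .cf 8 9 1 8 1 6), (64, .lf 2 4 5 5 2 4), (16, .rt 5 6 8 5 6 8), (32, .ce 2 4 5 2 5 8)]))))) (.leaf [(1, .lf 6 8 9 9 6 8), (1, .pl 1 7 8 2), (1, .pl 2 6 7 9), (1, .pl 4 8 6 5), (1, .pl 2 7 8 9), (1, .rt 5 6 8 5 6 8), (1, .pl 3 8 6 4), (1, .pl 2 7 6 3), (1, .pl 1 8 7 3)])) (.leaf [(1, .rt 5 6 8 4 7 8), (1, .lf 7 9 0 1 7 9), (1, .pl 4 9 8 5), (1, .pl 1 8 7 3), (2, .rt 5 6 8 5 6 9), (2, .pl 0 9 8 3), (1, .pl 1 9 8 5), (2, .pl 4 8 6 5), (1, .rt 5 6 8 3 8 9), (2, .pl 0 8 7 4), (2, .pl 0 7 6 2), (2, .pl 2 7 6 4), (1, .pl 3 9 7 4), (2, .lf 7 9 0 0 6 9)])) (.leaf [(1, .lf 8 0 1 1 6 9), (1, .pl 3 8 7 5), (1, .rt 5 6 8 3 8 9), (1, .lf 8 0 1 1 8 0), (1, .rt 5 6 8 5 7 0), (1, .lf 8 0 1 1 7 8), (1, .pl 1 9 7 3), (1, .rt 5 6 8 5 6 8), (1,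 .pl 0 1 5 6)])) (.pr 2 2 (.leaf [(5, .rt 2 3 5 2 4 7), (1, .lf 5 7 8 8 3 7), (1, .pl 6 9 8 7), (1, .rt 2 3 5 2 3 6), (3, .pl 0 4 7 9), (5, .lf 5 7 8 9 4 5), (1, .lf 5 7 8 0 5 6), (2, .pl 2 4 5 9), (1, .pl 0 5 3 2), (1, .pl 0 5 6 8), (2, .pl 2 6 7 9), (4, .lf 5 7 8 9 5 7), (1, .pl 3 9 8 5), (1, .pl 0 3 6 9), (3, .pl 0 7 5 2), (3, .pl 0 6 4 2)]) (.pr 4 2 (.leaf [(1, .pl 3 7 6 4), (1, .pl 0 6 5 4), (1, .lf 5 7 8 8 5 7), (1, .rt 4 5 7 4 5 7), (1, .pl 0 5 6 8), (1, .pl 3 6 7 8)]) (.pr 3 2 (.leaf [(2, .lf 5 7 8 8 5 7), (2, .rt 3 4 6 3 4 6), (1, .lf 2 4 5 6 2 4), (1, .pl 3 4 7 8), (1, .ce 2 4 5 2 6 7), (1, .lf 2 4 5 5 2 4), (2, .lf 4 6 7 7 4 5), (1, .am 3 4 6 7 1 1), (1, .ce 2 4 5 2 5 7), (2, .lf 4 6 7 7 4 6), (1, .am 4 5 7 8 1 1)]) (.pr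 8 2 (.pr 6 2 (.pr 7 2 (.ch 4 (.leaf [(8, .am 1 5 7 8 1 1), (12, .ce 2 4 5 2 5 8), (24, .cf 8 9 1 8 1 5), (12, .lf 3 5 6 6 2 5), (3, .pl 0 8 5 2), (4, .am 1 5 6 7 1 1), (24, .rt 4 5 7 4 5 7), (4, .rt 6 7 9 6 7 0), (1, .am 0 5 7 8 1 1), (6, .am 2 5 6 7 1 1), (4, .rt 8 9 1 8 0 1), (3, .am 2 5 7 8 1 1), (8, .rt 6 7 9 6 7 1), (12, .rt 7 8 0 7 8 1), (12, .lf 5 7 8 8 5 7), (2, .am 0 5 6 7 1 1), (12, .pl 1 8 5 4), (12, .am 4 5 7 8 1 1)]) (.leaf [(4, .lf 6 8 9 0 6 8), (2, .am 2 5 6 7 1 1), (1, .am 0 5 7 8 1 1), (4, .ce 2 4 5 2 5 8), (2, .am 0 5 6 7 1 1), (3, .am 2 5 7 8 1 1), (4, .lf 5 7 8 8 5 7), (4, .lf 4 6 7 7 2 6), (3, .pl 0 8 5 2), (4, .lf 3 5 6 6 2 5), (4, .ce 2 4 5 2 5 7)]) (.leaf [(16, .am 6 7 8 9 1 1), (96, .ce 2 4 5 2 5 7), (32,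 .cf 8 9 1 8 1 6), (10, .am 4 5 6 7 1 1), (64, .lf 3 5 6 6 2 5), (5, .am 5 7 8 9 1 1), (22, .am 5 6 7 9 1 1), (16, .am 2 5 7 8 1 1), (11, .pl 4 5 8 9), (16, .pl 2 5 8 9), (16, .cf 8 9 1 8 1 5), (14, .tb 4 1 2), (11, .am 4 5 7 8 1 1), (32, .lf 2 4 5 5 2 4), (48, .lf 5 7 8 8 5 7), (6, .ta 4 1 2), (48, .rt 8 9 1 8 9 1), (32, .am 2 5 6 7 1 1)]) (.leaf [(24, .ce 2 4 5 2 5 7), (6, .cf 8 9 1 8 1 5), (4, .rt 6 7 9 6 7 1), (6, .lf 4 6 7 7 4 6), (1, .am 1 5 7 8 1 1), (2, .rt 8 9 1 8 9 1), (24, .lf 3 5 6 6 2 5), (12, .am 2 5 6 7 1 1), (6, .pl 2 5 8 9), (2, .am 5 7 8 9 1 1), (6, .am 2 5 7 8 1 1), (4, .am 5 6 7 9 1 1), (3, .am 4 5 7 8 1 1), (3, .pl 1 8 5 4), (6, .c4 4), (2, .am 1 5 6 7 1 1), (8, .rt 6 7 9 6 7 9), (18, .lf 5 7 8 8 5 7)])) (.leaf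 [(28, .am 2 5 6 7 1 1), (12, .am 2 7 8 9 1 1), (56, .ce 2 4 5 2 5 7), (56, .lf 3 5 6 6 2 5), (35, .lf 5 7 8 8 5 7), (84, .rt 6 7 9 6 7 9), (18, .pl 0 9 5 2), (18, .am 0 5 6 8 1 1), (14, .am 2 6 7 8 1 1), (10, .am 2 5 6 8 1 1), (9, .am 0 7 8 9 1 1), (6, .am 2 6 7 9 1 1), (21, .cf 8 9 1 8 1 5), (63, .lf 7 9 0 0 7 9), (36, .am 0 6 7 9 1 1), (21, .rt 8 9 1 8 9 1)])) (.leaf [(2, .am 2 5 6 7 1 1), (3, .am 2 5 7 8 1 1), (3, .pl 0 8 5 2), (4, .ce 2 4 5 2 5 7), (2, .am 0 5 6 7 1 1), (4, .lf 4 6 7 7 2 6), (4, .lf 3 5 6 6 2 5), (4, .ce 2 4 5 2 5 8), (4, .lf 5 7 8 8 5 7), (4, .lf 6 8 9 0 6 8), (1, .am 0 5 7 8 1 1)])) (.leaf [(6, .lf 2 4 5 5 2 3), (3, .am 0 1 5 7 1 1), (3, .ce 2 4 5 2 5 0), (1, .lf 8 0 1 1 7 0), (3, .pl 1 9 5 3), (1, .am 4 5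 7 9 1 1), (5, .ce 2 4 5 2 5 9), (2, .lf 2 4 5 5 2 4), (2, .lf 4 6 7 7 4 6), (6, .lf 3 5 6 6 3 5), (3, .am 3 5 6 9 1 1), (3, .lf 5 7 8 9 5 7), (5, .lf 8 0 1 1 7 9), (2, .lf 8 0 1 1 6 0), (2, .am 5 6 7 9 1 1), (3, .lf 5 7 8 0 5 7), (1, .pl 1 9 5 4), (1, .am 1 5 6 9 1 1)])))))

theorem ok_1188765432 : chk C1188765432 ⟨4337328188659017326319898626, [], [], [], [], []⟩ = true := by decide +kernel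

end Pool.Agent.H146.TW
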