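import Pool.Agent.H292.TW.Chk3

/-!
Project TWELVE (helper221): certificate tree of one order pattern (helper146).
-/

set_option autoImplicit false
set_option maxRecDepth 100000

namespace Pool.Agent.H146.TW

open Pool.Agent.H292.TW.Chk

def C1287765432 : Tr :=
  .pr 6 2 (.pr 8 2 (.pr 7 2 (.pr 2 2 (.pr 3 2 (.leaf [(6, .rt 3 4 6 3 4 7), (4, .am 3 4 7 8 1 1), (1, .am 3 5 8 9 1 1), (1, .pl 2 3 8 9), (6, .cf 8 9 1 8 1 4), (6, .rt 2 3 5 2 3 5), (6, .cf 7 8 0 7 0 3), (2, .rt 6 7 9 5 7 9), (3, .am 2 3 5 8 1 1), (4, .rt 6 7 9 4 7 0), (2, .pl 0 8 3 2), (6, .rt 7 8 0 7 8 0), (2, .am 3 5 7 8 1 1), (4, .rt 8 9 1 8 0 1), (2, .rt 8 9 1 8 9 1), (6, .rt 3 4 6 3 5 8), (2, .am 0 3 4 8 1 1)]) (.leaf [(1, .pl 2 3 5 9), (1, .pl 0 1 4 7), (1, .pl 3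 7 6 4), (1, .pl 1 7 9 3), (2, .lf 3 5 6 6 3 5), (1, .pl 0 4 3 2), (1, .pl 0 3 1 8), (1, .pl 2 4 5 9), (2, .rt 2 3 5 2 3 5), (1, .pl 1 6 8 3), (1, .pl 1 9 6 4), (2, .pl 4 9 6 5)])) (.pr 3 2 (.pr 4 2 (.leaf [(10, .rt 4 5 7 4 6 7), (2, .am 0 4 6 8 1 1), (18, .cf 8 9 1 8 1 4), (10, .rt 3 4 6 2 4 6), (8, .rt 4 5 7 4 6 8), (10, .rt 6 7 9 6 7 9), (4, .am 3 4 6 7 1 1), (8, .rt 8 9 1 8 0 1), (2, .pl 0 8 4 2), (2, .pl 3 4 8 9), (3, .pl 2 4 8 9), (4, .am 0 6 7 8 1 1), (2, .am 4 6 7 8 1 1), (8, .rt 3 4 6 3 4 6), (5, .am 4 6 8 9 1 1), (5, .am 2 4 6 8 1 1), (8, .rt 7 8 0 7 8 0), (2, .am 3 4 7 8 1 1), (10, .rt 8 9 1 8 9 1)]) (.leaf [(6, .lf 4 6 7 7 4 6), (3, .rt 3 4 6 3 4 6), (3, .rt 8 9 1 8 0 1), (3, .rt 7 8 0 7 8 0), (3, .lf 2 4 5 6 2 4), (3,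 .ce 2 4 5 2 6 8), (2, .am 3 4 6 7 1 1), (1, .am 3 6 7 8 1 1), (1, .am 0 4 6 7 1 1), (2, .am 0 6 7 8 1 1), (1, .pl 0 8 4 3), (3, .cf 8 9 1 8 1 6)])) (.pr 5 2 (.pr 4 2 (.leaf [(4, .rt 4 5 7 4 5 7), (2, .am 1 6 7 8 1 1), (2, .am 4 6 7 8 1 1), (3, .am 1 5 6 8 1 1), (4, .rt 7 8 0 7 8 1), (4, .cf 8 9 1 8 1 5), (4, .rt 6 7 9 6 7 1), (4, .cf 8 9 1 8 1 6), (3, .pl 1 8 5 4), (4, .rt 5 6 8 5 6 8), (1, .am 4 5 6 8 1 1)]) (.ch 3 (.leaf [(36, .am 3 4 6 7 1 1), (56, .rt 8 9 1 8 0 1), (63, .rt 3 4 6 3 4 6), (21, .ce 2 4 5 2 5 8), (14, .am 0 5 6 7 1 1), (28, .am 0 6 7 8 1 1), (84, .lf 4 6 7 7 4 6), (9, .am 3 4 5 6 1 1), (21, .lf 2 4 5 5 2 4), (10, .am 0 5 7 8 1 1), (56, .cf 8 9 1 8 1 6), (6, .am 0 4 6 7 1 1), (18, .pl 0 8 4 3), (35, .rt 5 6 8 5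 6 8), (56, .rt 7 8 0 7 8 0), (18, .am 3 5 7 8 1 1), (12, .am 0 4 5 6 1 1)]) (.leaf [(3, .am 4 5 7 8 1 1), (10, .rt 7 8 0 7 8 0), (3, .am 1 5 6 8 1 1), (6, .rt 6 7 9 6 7 1), (16, .ce 2 4 5 2 5 7), (10, .rt 5 6 8 5 6 8), (5, .pl 0 8 5 2), (5, .am 2 5 6 8 1 1), (10, .rt 8 9 1 8 0 1), (16, .cf 8 9 1 8 1 6), (10, .lf 3 5 6 6 2 5), (6, .lf 4 6 7 7 4 6), (12, .am 5 6 7 8 1 1), (5, .am 0 5 7 8 1 1), (6, .lf 2 4 5 5 2 4), (10, .lf 5 7 8 8 5 7), (3, .pl 1 8 5 4)]) (.leaf [(27, .pl 1 8 5 4), (20, .tb 3 1 2), (20, .cf 8 9 1 8 1 5), (20, .lf 2 4 5 5 2 3), (18, .am 4 6 7 8 1 1), (12, .am 5 6 7 8 1 1), (36, .lf 4 6 7 7 4 6), (24, .rt 6 7 9 6 7 1), (24, .ce 2 4 5 2 5 7), (32, .ce 2 4 5 2 5 6), (60, .rt 7 8 0 7 8 1), (64, .cf 8 9 1 8 1 6), (30,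 .am 1 6 7 8 1 1), (36, .lf 2 4 5 5 2 4), (9, .am 4 5 6 8 1 1), (27, .am 1 5 6 8 1 1)]) (.leaf [(192, .lf 4 6 7 7 4 6), (54, .am 3 4 5 6 1 1), (10, .am 4 5 6 9 1 1), (8, .am 0 4 5 6 1 1), (36, .am 3 5 7 8 1 1), (8, .pl 0 8 4 3), (120, .c4 3), (15, .am 3 4 6 8 1 1), (24, .rt 8 9 1 8 0 1), (33, .am 4 6 8 9 1 1), (48, .rt 5 6 8 5 6 8), (96, .ce 2 4 5 2 5 7), (4, .am 0 5 6 8 1 1), (20, .am 5 6 8 9 1 1), (43, .pl 3 4 8 9), (120, .lf 3 5 6 6 3 5), (96, .rt 8 9 1 8 9 1), (72, .am 3 5 6 7 1 1), (192, .lf 2 4 5 5 2 4), (96, .rt 6 7 9 6 7 9), (96, .ce 2 4 5 2 5 8), (12, .am 0 5 7 8 1 1), (24, .rt 7 8 0 7 8 0), (96, .am 4 6 7 8 1 1), (120, .cf 8 9 1 8 1 6)]))) (.pr 4 2 (.leaf [(12, .rt 7 8 0 7 8 1), (6, .am 2 5 6 7 1 1), (4, .am 1 5 6 7 1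 1), (3, .am 2 5 7 8 1 1), (4, .rt 6 7 9 6 7 9), (12, .am 4 5 7 8 1 1), (1, .am 5 7 8 9 1 1), (8, .rt 6 7 9 6 7 1), (3, .pl 2 5 8 9), (4, .rt 8 9 1 8 9 1), (12, .lf 5 7 8 8 5 7), (2, .am 5 6 7 9 1 1), (12, .pl 1 8 5 4), (24, .cf 8 9 1 8 1 5), (24, .rt 4 5 7 4 5 7), (8, .am 1 5 7 8 1 1), (12, .ce 2 4 5 2 5 8), (12, .lf 3 5 6 6 2 5)]) (.ch 4 (.leaf [(12, .am 4 5 7 8 1 1), (4, .rt 8 9 1 8 0 1), (12, .pl 1 8 5 4), (6, .am 2 5 6 7 1 1), (8, .rt 6 7 9 6 7 1), (1, .am 0 5 7 8 1 1), (12, .ce 2 4 5 2 5 8), (12, .lf 3 5 6 6 2 5), (24, .cf 8 9 1 8 1 5), (12, .lf 5 7 8 8 5 7), (24, .rt 4 5 7 4 5 7), (3, .pl 0 8 5 2), (2, .am 0 5 6 7 1 1), (4, .am 1 5 6 7 1 1), (3, .am 2 5 7 8 1 1), (4, .rt 6 7 9 6 7 0), (8, .am 1 5 7 8 1 1), (12, .rt 7 8 0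 7 8 1)]) (.leaf [(4, .lf 3 5 6 6 2 5), (2, .am 2 5 6 7 1 1), (3, .am 2 5 7 8 1 1), (2, .am 5 6 7 9 1 1), (1, .am 5 7 8 9 1 1), (3, .pl 2 5 8 9), (4, .ce 2 4 5 2 5 8), (4, .lf 5 7 8 8 5 7), (4, .ce 2 4 5 2 5 7), (4, .lf 6 8 9 9 6 8), (4, .lf 4 6 7 7 2 6)]) (.leaf [(6, .ta 4 1 2), (14, .tb 4 1 2), (10, .am 4 5 6 7 1 1), (48, .lf 5 7 8 8 5 7), (96, .ce 2 4 5 2 5 7), (32, .am 2 5 6 7 1 1), (16, .am 2 5 7 8 1 1), (5, .am 5 7 8 9 1 1), (11, .am 4 5 7 8 1 1), (11, .lf 2 4 5 8 2 4), (64, .lf 3 5 6 6 2 5), (48, .rt 8 9 1 8 9 1), (16, .cf 8 9 1 8 1 5), (16, .am 6 7 8 9 1 1), (27, .pl 2 5 8 9), (22, .am 5 6 7 9 1 1), (32, .cf 8 9 1 8 1 6), (21, .lf 2 4 5 5 2 4)]) (.leaf [(8, .rt 6 7 9 6 7 1), (1, .am 0 5 7 8 1 1), (3, .am 5 7 8 9 1 1), (12,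 .lf 4 6 7 7 4 6), (6, .am 5 6 7 9 1 1), (3, .pl 0 8 5 2), (12, .c4 4), (4, .rt 8 9 1 8 0 1), (12, .cf 8 9 1 8 1 5), (12, .am 2 5 7 8 1 1), (6, .am 4 5 7 8 1 1), (2, .am 1 5 7 8 1 1), (6, .pl 1 8 5 4), (48, .lf 3 5 6 6 2 5), (4, .am 1 5 6 7 1 1), (36, .lf 5 7 8 8 5 7), (2, .am 0 5 6 7 1 1), (12, .rt 6 7 9 6 7 9), (48, .ce 2 4 5 2 5 7), (4, .rt 6 7 9 6 7 0), (9, .pl 2 5 8 9), (24, .am 2 5 6 7 1 1)])))))) (.leaf [(1, .pl 0 8 7 6), (1, .pl 1 7 8 2), (1, .pl 1 9 7 6), (2, .lf 7 9 0 0 7 9), (2, .rt 6 7 9 6 7 9), (1, .pl 0 9 7 2), (1, .pl 2 9 8 3), (1, .pl 3 9 8 6), (1, .pl 0 9 8 1)])) (.leaf [(1, .lf 8 0 1 1 8 9), (1, .lf 8 0 1 1 7 8), (1, .rt 6 7 9 5 7 9), (1, .pl 1 9 7 5)])) (.pr 2 2 (.leaf [(1, .lf 6 8 9 9 3 8), (1, .pl 0 5 8 9),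 (1, .rt 2 3 5 2 4 8), (1, .pl 0 8 4 2), (1, .rt 2 3 5 2 3 5), (1, .lf 6 8 9 0 4 5), (1, .pl 2 3 5 9)]) (.pr 4 2 (.leaf [(2, .pl 1 5 7 2), (3, .lf 6 8 9 0 5 7), (5, .rt 4 5 7 4 5 7), (1, .pl 3 6 5 4), (2, .rt 4 5 7 2 7 8), (1, .pl 0 8 5 3), (4, .pl 1 6 8 3), (2, .pl 0 8 5 2), (4, .pl 1 8 5 4), (3, .pl 1 6 7 9), (5, .pl 1 7 6 4), (6, .lf 6 8 9 9 6 8), (2, .lf 6 8 9 1 5 6), (3, .pl 0 6 8 9), (3, .pl 3 7 8 9), (4, .rt 4 5 7 4 6 8), (3, .pl 0 7 6 3)]) (.pr 3 2 (.leaf [(4, .lf 6 8 9 9 5 8), (8, .lf 4 6 7 8 4 6), (3, .am 2 4 6 8 1 1), (2, .ce 2 4 5 2 5 7), (1, .am 4 6 8 9 1 1), (4, .lf 4 6 7 7 4 5), (2, .am 4 5 7 9 1 1), (2, .lf 6 8 9 9 6 7), (6, .rt 3 4 6 2 4 6), (3, .pl 2 4 8 9), (2, .lf 2 4 5 5 2 4), (4, .lf 2 4 5 6 2 4), (4, .ce 2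 4 5 2 6 8)]) (.pr 5 2 (.leaf [(2, .lf 6 8 9 9 6 7), (1, .lf 4 6 7 8 2 6), (1, .pl 0 8 5 2), (1, .lf 4 6 7 7 2 6), (1, .am 5 6 7 9 1 1), (2, .lf 6 8 9 0 6 8), (2, .ce 2 4 5 2 5 7), (1, .am 0 5 6 8 1 1), (1, .pl 2 5 7 9), (2, .rt 5 6 8 5 6 8)]) (.leaf [(2, .am 5 6 7 9 1 1), (3, .am 2 5 7 8 1 1), (4, .ce 2 4 5 2 5 7), (1, .am 5 7 8 9 1 1), (4, .lf 4 6 7 7 2 6), (4, .ce 2 4 5 2 5 8), (2, .am 2 5 6 7 1 1), (4, .lf 5 7 8 8 5 7), (3, .pl 2 5 8 9), (4, .lf 3 5 6 6 2 5), (4, .lf 6 8 9 9 6 8)])))))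

theorem ok_1287765432 : chk C1287765432 ⟨4337328188659017324172423170, [], [], [], [], []⟩ = true := by decide +kernel

end Pool.Agent.H146.TW
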