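import Pool.Agent.H292.TW.Chk3

/-!
Project TWELVE (helper221): certificate tree of one order pattern (helper146).
-/

set_option autoImplicit false
set_option maxRecDepth 100000

namespace Pool.Agent.H146.TW

open Pool.Agent.H292.TW.Chk

def C1387665432 : Tr :=
  .pr 6 2 (.pr 8 2 (.pr 7 2 (.pr 3 2 (.pr 4 2 (.leaf [(6, .rt 4 5 7 4 5 8), (2, .am 0 4 5 8 1 1), (2, .am 4 6 7 8 1 1), (6, .rt 7 8 0 7 8 0), (2, .pl 0 8 4 2), (4, .rt 8 9 1 8 0 1), (2, .am 2 4 6 8 1 1), (4, .am 4 5 7 8 1 1), (2, .rt 8 9 1 8 9 1), (6, .cf 7 8 0 7 0 4), (6, .cf 8 9 1 8 1 5), (4, .rt 6 7 9 5 7 0), (1, .am 4 6 8 9 1 1), (1, .am 3 4 6 8 1 1), (2, .rt 6 7 9 6 7 9), (1, .pl 3 4 8 9), (6, .rt 4 5 7 4 6 7), (4, .rt 3 4 6 2 4 6), (2, .rt 3 4 6 3 4 6)]) (.leaf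 [(1, .pl 1 9 7 5), (2, .pl 1 2 3 4), (1, .pl 5 9 8 6), (1, .pl 1 7 2 4), (1, .pl 1 2 8 6), (1, .pl 0 6 4 2), (2, .rt 3 4 6 3 4 6), (1, .pl 0 5 6 9), (1, .lf 4 6 7 8 4 6), (1, .pl 0 4 1 8), (1, .lf 4 6 7 7 4 6), (2, .pl 1 3 2 6), (1, .pl 5 8 7 6), (1, .pl 0 1 5 9)])) (.pr 2 2 (.leaf [(1, .pl 1 7 2 3), (1, .pl 1 6 7 3), (1, .rt 2 3 5 2 3 5), (1, .pl 0 1 5 6), (1, .pl 0 5 1 2), (1, .lf 3 5 6 6 3 5)]) (.pr 5 2 (.pr 4 2 (.leaf [(1, .am 0 5 6 8 1 1), (4, .rt 8 9 1 8 9 1), (4, .cf 8 9 1 8 1 5), (2, .am 0 6 7 8 1 1), (2, .am 5 6 8 9 1 1), (4, .rt 4 5 7 4 5 7), (4, .cf 8 9 1 8 1 6), (4, .rt 7 8 0 7 8 0), (4, .rt 5 6 8 5 6 8), (2, .pl 4 5 8 9), (2, .am 4 6 7 8 1 1), (1, .am 4 5 6 8 1 1), (1, .pl 0 8 5 4), (4, .rt 8 9 1 8 0 1), (4, .rt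 6 7 9 6 7 9)]) (.pr 1 2 (.ch 3 (.leaf [(18, .am 2 5 7 8 1 1), (63, .rt 3 4 6 2 4 6), (84, .lf 4 6 7 7 4 6), (35, .rt 5 6 8 5 6 8), (56, .rt 8 9 1 8 0 1), (56, .cf 8 9 1 8 1 6), (12, .am 0 4 5 6 1 1), (9, .am 2 4 5 6 1 1), (18, .pl 0 8 4 2), (28, .am 0 6 7 8 1 1), (14, .am 0 5 6 7 1 1), (10, .am 0 5 7 8 1 1), (36, .am 2 4 6 7 1 1), (21, .lf 2 4 5 5 2 4), (6, .am 0 4 6 7 1 1), (56, .rt 7 8 0 7 8 0), (21, .ce 2 4 5 2 5 8)]) (.leaf [(5, .am 2 5 6 8 1 1), (10, .lf 3 5 6 6 2 5), (5, .am 0 5 7 8 1 1), (10, .rt 5 6 8 5 6 8), (6, .lf 4 6 7 7 2 6), (10, .rt 8 9 1 8 0 1), (3, .pl 2 5 8 9), (5, .pl 0 8 5 2), (10, .rt 7 8 0 7 8 0), (3, .am 2 5 7 8 1 1), (16, .cf 8 9 1 8 1 6), (16, .ce 2 4 5 2 5 7), (12, .am 5 6 7 8 1 1), (6, .rt 8 9 1 8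 9 1), (10, .lf 5 7 8 8 5 7), (3, .am 5 6 8 9 1 1), (6, .rt 6 7 9 6 7 9)]) (.leaf [(15, .am 0 5 6 8 1 1), (30, .am 0 6 7 8 1 1), (64, .cf 8 9 1 8 1 6), (24, .rt 6 7 9 6 7 9), (32, .ce 2 4 5 2 5 6), (18, .am 2 6 7 8 1 1), (12, .pl 2 5 8 9), (20, .cf 8 9 1 8 1 5), (20, .tb 3 1 2), (24, .ce 2 4 5 2 5 7), (60, .rt 8 9 1 8 0 1), (9, .am 2 5 6 8 1 1), (60, .rt 7 8 0 7 8 0), (12, .am 5 6 7 8 1 1), (36, .lf 4 6 7 7 2 6), (20, .lf 2 4 5 5 2 3), (12, .am 5 6 8 9 1 1), (15, .pl 0 8 5 2), (24, .rt 8 9 1 8 9 1)]) (.leaf [(4, .am 0 5 7 8 1 1), (4, .am 4 5 6 9 1 1), (5, .am 3 4 6 8 1 1), (24, .am 3 5 6 7 1 1), (32, .am 4 6 7 8 1 1), (32, .rt 6 7 9 6 7 9), (8, .rt 7 8 0 7 8 0), (64, .lf 2 4 5 5 2 4), (32, .ce 2 4 5 2 5 7), (40, .c4 3), (14,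 .pl 3 4 8 9), (10, .am 4 6 8 9 1 1), (8, .am 5 6 8 9 1 1), (8, .rt 8 9 1 8 0 1), (32, .ce 2 4 5 2 5 8), (18, .am 3 4 5 6 1 1), (3, .pl 0 8 4 3), (16, .rt 5 6 8 5 6 8), (32, .rt 8 9 1 8 9 1), (12, .am 3 5 7 8 1 1), (64, .lf 4 6 7 7 4 6), (2, .am 0 4 5 6 1 1), (40, .cf 8 9 1 8 1 6), (1, .am 0 4 6 8 1 1), (40, .lf 3 5 6 6 3 5)])) (.ch 3 (.leaf [(63, .rt 3 4 6 3 4 6), (18, .am 3 5 7 8 1 1), (10, .am 0 5 7 8 1 1), (12, .am 0 4 5 6 1 1), (21, .ce 2 4 5 2 5 8), (56, .rt 7 8 0 7 8 0), (56, .cf 8 9 1 8 1 6), (56, .rt 8 9 1 8 0 1), (35, .rt 5 6 8 5 6 8), (36, .am 3 4 6 7 1 1), (18, .pl 0 8 4 3), (6, .am 0 4 6 7 1 1), (84, .lf 4 6 7 7 4 6), (14, .am 0 5 6 7 1 1), (28, .am 0 6 7 8 1 1), (21, .lf 2 4 5 5 2 4), (9, .am 3 4 5 6 1 1)]) (.leaf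 [(10, .rt 8 9 1 8 0 1), (10, .lf 3 5 6 6 2 5), (5, .am 2 5 6 8 1 1), (6, .rt 6 7 9 6 7 9), (10, .rt 5 6 8 5 6 8), (16, .ce 2 4 5 2 5 7), (3, .am 5 6 8 9 1 1), (10, .lf 5 7 8 8 5 7), (5, .pl 0 8 5 2), (10, .rt 7 8 0 7 8 0), (5, .am 0 5 7 8 1 1), (6, .lf 4 6 7 7 2 6), (3, .pl 2 5 8 9), (16, .cf 8 9 1 8 1 6), (3, .am 2 5 7 8 1 1), (6, .rt 8 9 1 8 9 1), (12, .am 5 6 7 8 1 1)]) (.leaf [(15, .am 0 5 6 8 1 1), (36, .lf 4 6 7 7 2 6), (24, .ce 2 4 5 2 5 7), (60, .rt 8 9 1 8 0 1), (12, .am 5 6 7 8 1 1), (24, .rt 6 7 9 6 7 9), (64, .cf 8 9 1 8 1 6), (20, .lf 2 4 5 5 2 3), (60, .rt 7 8 0 7 8 0), (9, .am 2 5 6 8 1 1), (18, .am 2 6 7 8 1 1), (12, .pl 2 5 8 9), (20, .tb 3 1 2), (12, .am 5 6 8 9 1 1), (30, .am 0 6 7 8 1 1), (20, .cf 8 9 1 8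 1 5), (32, .ce 2 4 5 2 5 6), (15, .pl 0 8 5 2), (24, .rt 8 9 1 8 9 1)]) (.leaf [(64, .lf 4 6 7 7 4 6), (32, .am 4 6 7 8 1 1), (8, .am 5 6 8 9 1 1), (32, .ce 2 4 5 2 5 7), (8, .rt 7 8 0 7 8 0), (3, .pl 0 8 4 3), (40, .lf 3 5 6 6 3 5), (12, .am 3 5 7 8 1 1), (4, .am 4 5 6 9 1 1), (32, .ce 2 4 5 2 5 8), (10, .am 4 6 8 9 1 1), (40, .c4 3), (14, .pl 3 4 8 9), (1, .am 0 4 6 8 1 1), (8, .rt 8 9 1 8 0 1), (32, .rt 6 7 9 6 7 9), (16, .rt 5 6 8 5 6 8), (64, .lf 2 4 5 5 2 4), (18, .am 3 4 5 6 1 1), (2, .am 0 4 5 6 1 1), (5, .am 3 4 6 8 1 1), (24, .am 3 5 6 7 1 1), (4, .am 0 5 7 8 1 1), (40, .cf 8 9 1 8 1 6), (32, .rt 8 9 1 8 9 1)])))) (.pr 4 2 (.leaf [(4, .rt 8 9 1 8 9 1), (2, .am 5 6 7 9 1 1), (2, .am 3 5 7 8 1 1), (4, .rt 4 5 7 3 5 7),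 (4, .ce 2 4 5 2 5 7), (4, .lf 5 7 8 8 5 7), (1, .am 5 7 8 9 1 1), (2, .am 2 5 6 7 1 1), (4, .lf 3 5 6 6 2 5), (1, .pl 2 5 8 9), (2, .pl 3 5 8 9), (1, .am 2 5 7 8 1 1), (4, .cf 8 9 1 8 1 5), (4, .rt 6 7 9 6 7 9)]) (.pr 1 2 (.ch 4 (.leaf [(1, .am 5 7 8 9 1 1), (4, .rt 6 7 9 6 7 9), (1, .pl 2 5 8 9), (2, .am 5 6 7 9 1 1), (4, .ce 2 4 5 2 5 7), (2, .pl 4 5 8 9), (2, .am 4 5 7 8 1 1), (1, .am 2 5 7 8 1 1), (4, .cf 8 9 1 8 1 5), (4, .lf 5 7 8 8 5 7), (4, .rt 8 9 1 8 9 1), (2, .am 2 5 6 7 1 1), (4, .rt 4 5 7 4 5 7), (4, .lf 3 5 6 6 2 5)]) (.leaf [(4, .ce 2 4 5 2 5 7), (4, .lf 5 7 8 8 5 7), (4, .lf 4 6 7 7 2 6), (4, .lf 6 8 9 9 6 8), (2, .am 2 5 6 7 1 1), (3, .pl 2 5 8 9), (4, .lf 3 5 6 6 2 5), (1, .am 5 7 8 9 1 1), (3, .am 2 5 7 8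 1 1), (2, .am 5 6 7 9 1 1), (4, .ce 2 4 5 2 5 8)]) (.leaf [(11, .lf 3 5 6 8 2 4), (21, .lf 2 4 5 5 2 4), (22, .am 5 6 7 9 1 1), (14, .tb 4 1 2), (16, .am 2 5 7 8 1 1), (16, .am 6 7 8 9 1 1), (5, .am 5 7 8 9 1 1), (16, .cf 8 9 1 8 1 5), (6, .ta 4 1 2), (48, .lf 5 7 8 8 5 7), (10, .am 4 5 6 7 1 1), (64, .lf 3 5 6 6 2 5), (32, .am 2 5 6 7 1 1), (32, .cf 8 9 1 8 1 6), (11, .am 4 5 7 8 1 1), (96, .ce 2 4 5 2 5 7), (27, .pl 2 5 8 9), (48, .rt 8 9 1 8 9 1)]) (.leaf [(4, .am 2 5 6 7 1 1), (2, .cf 8 9 1 8 1 5), (1, .pl 4 5 8 9), (2, .am 2 5 7 8 1 1), (1, .am 5 7 8 9 1 1), (8, .lf 3 5 6 6 2 5), (1, .am 4 5 7 8 1 1), (6, .lf 5 7 8 8 5 7), (2, .am 5 6 7 9 1 1), (2, .pl 2 5 8 9), (2, .lf 4 6 7 7 4 6), (4, .rt 6 7 9 6 7 9), (2, .rt 8 9 1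 8 9 1), (2, .c4 4), (8, .ce 2 4 5 2 5 7)])) (.ch 4 (.leaf [(6, .am 2 5 6 7 1 1), (4, .rt 8 9 1 8 0 1), (8, .rt 6 7 9 6 7 9), (4, .am 5 6 7 9 1 1), (12, .lf 3 5 6 6 2 5), (1, .am 0 5 7 8 1 1), (3, .am 2 5 7 8 1 1), (12, .cf 8 9 1 8 1 5), (12, .ce 2 4 5 2 5 7), (2, .am 0 5 6 7 1 1), (6, .am 4 5 7 8 1 1), (6, .pl 4 5 8 9), (12, .lf 5 7 8 8 5 7), (2, .am 5 7 8 9 1 1), (4, .rt 6 7 9 6 7 0), (12, .rt 4 5 7 4 5 7), (3, .pl 0 8 5 2), (8, .rt 8 9 1 8 9 1)]) (.leaf [(4, .lf 6 8 9 9 6 8), (4, .lf 5 7 8 8 5 7), (3, .am 2 5 7 8 1 1), (2, .am 5 6 7 9 1 1), (4, .lf 4 6 7 7 2 6), (4, .ce 2 4 5 2 5 8), (1, .am 5 7 8 9 1 1), (2, .am 2 5 6 7 1 1), (4, .lf 3 5 6 6 2 5), (3, .pl 2 5 8 9), (4, .ce 2 4 5 2 5 7)]) (.leaf [(5, .am 5 7 8 9 1 1), (64,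 .lf 3 5 6 6 2 5), (16, .cf 8 9 1 8 1 5), (48, .rt 8 9 1 8 9 1), (21, .lf 2 4 5 5 2 4), (11, .lf 3 5 6 8 2 4), (6, .ta 4 1 2), (96, .ce 2 4 5 2 5 7), (22, .am 5 6 7 9 1 1), (10, .am 4 5 6 7 1 1), (32, .am 2 5 6 7 1 1), (32, .cf 8 9 1 8 1 6), (27, .pl 2 5 8 9), (16, .am 6 7 8 9 1 1), (14, .tb 4 1 2), (48, .lf 5 7 8 8 5 7), (16, .am 2 5 7 8 1 1), (11, .am 4 5 7 8 1 1)]) (.leaf [(1, .pl 4 5 8 9), (4, .rt 6 7 9 6 7 9), (8, .ce 2 4 5 2 5 7), (2, .rt 8 9 1 8 9 1), (8, .lf 3 5 6 6 2 5), (2, .am 5 6 7 9 1 1), (6, .lf 5 7 8 8 5 7), (1, .am 5 7 8 9 1 1), (2, .am 2 5 7 8 1 1), (2, .c4 4), (2, .lf 4 6 7 7 4 6), (1, .am 4 5 7 8 1 1), (2, .pl 2 5 8 9), (4, .am 2 5 6 7 1 1), (2, .cf 8 9 1 8 1 5)]))))))) (.leaf [(1, .pl 1 7 8 3), (1, .pl 1 9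 7 5), (1, .pl 0 8 7 3), (1, .pl 1 8 9 4), (1, .rt 6 7 9 5 7 9), (1, .pl 0 9 8 4), (1, .lf 7 9 0 0 7 9)])) (.leaf [(1, .lf 8 0 1 1 7 0), (1, .rt 6 7 9 5 7 0), (1, .pl 1 9 7 5), (1, .rt 6 7 9 5 8 9), (1, .lf 8 0 1 1 8 9), (1, .pl 0 1 5 8)])) (.pr 3 2 (.leaf [(1, .rt 3 4 6 2 5 6), (1, .lf 6 8 9 9 5 7), (2, .lf 6 8 9 9 4 6), (2, .pl 0 4 6 9), (2, .rt 3 4 6 2 4 7), (2, .pl 0 6 4 2), (1, .pl 2 6 7 9), (1, .lf 6 8 9 9 6 8), (1, .rt 3 4 6 2 7 8), (1, .pl 2 5 8 9)]) (.pr 2 2 (.leaf [(3, .pl 0 7 6 2), (1, .pl 1 9 2 3), (1, .pl 2 7 8 9), (2, .lf 6 8 9 9 5 8), (2, .pl 2 4 5 9), (2, .pl 4 7 6 5), (2, .lf 3 5 6 6 3 5), (2, .lf 6 8 9 9 4 5), (2, .rt 2 3 5 2 6 8), (2, .pl 3 9 7 5), (2, .rt 2 3 5 2 3 5), (1, .pl 0 6 8 9), (2, .lf 6 8 9 0 6 7),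 (2, .rt 2 3 5 2 4 7), (1, .pl 0 8 1 2), (1, .pl 2 3 6 9), (1, .pl 0 1 7 9), (2, .pl 3 7 6 4)]) (.pr 5 2 (.leaf [(1, .pl 0 6 8 9), (2, .lf 6 8 9 9 6 8), (2, .rt 5 6 8 5 6 8), (1, .pl 4 6 7 9), (1, .pl 0 7 6 5), (1, .pl 4 8 6 5), (1, .pl 5 7 8 9), (1, .pl 0 8 7 4)]) (.leaf [(1, .am 2 5 6 8 1 1), (2, .lf 5 7 8 8 5 6), (1, .pl 2 5 8 9), (2, .lf 3 5 6 6 2 5), (2, .lf 6 8 9 9 6 8), (1, .am 5 6 8 9 1 1), (2, .ce 2 4 5 2 5 8)]))))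

theorem ok_1387665432 : chk C1387665432 ⟨4337328188659015125149184002, [], [], [], [], []⟩ = true := by decide +kernel

end Pool.Agent.H146.TW
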