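import Pool.Agent.H292.TW.Chk3

/-!
Project TWELVE (helper221): certificate tree of one order pattern (helper146).
-/

set_option autoImplicit false
set_option maxRecDepth 100000

namespace Pool.Agent.H146.TW

open Pool.Agent.H292.TW.Chk

def C1487655432 : Tr :=
  .pr 6 2 (.pr 8 2 (.pr 7 2 (.pr 2 2 (.pr 3 2 (.leaf [(2, .rt 6 7 9 5 7 9), (2, .am 3 5 7 8 1 1), (6, .rt 3 4 6 3 6 7), (2, .pl 0 8 3 2), (4, .rt 8 9 1 8 0 1), (6, .cf 7 8 0 7 0 3), (6, .cf 8 9 1 8 1 6), (2, .am 0 3 6 8 1 1), (4, .rt 6 7 9 6 7 0), (6, .rt 3 4 6 3 5 8), (3, .am 2 3 5 8 1 1), (6, .rt 2 3 5 2 3 5), (1, .pl 2 3 8 9), (2, .rt 8 9 1 8 9 1), (1, .am 3 5 8 9 1 1), (6, .rt 7 8 0 7 8 0), (4, .am 3 6 7 8 1 1)]) (.leaf [(2, .pl 0 3 4 9), (2, .pl 0 4 3 2), (1, .lf 3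 5 6 6 3 5), (2, .rt 2 3 5 2 3 5), (2, .pl 0 5 4 2), (1, .pl 3 9 6 4), (1, .lf 3 5 6 7 3 5), (2, .pl 0 4 5 9), (1, .pl 3 8 7 4), (1, .pl 3 9 8 5), (1, .pl 4 9 7 5), (1, .pl 4 8 6 5)])) (.pr 1 2 (.leaf [(1, .pl 1 2 3 5), (1, .pl 1 3 4 5), (1, .rt 1 2 4 1 2 4), (1, .lf 2 4 5 5 2 4)]) (.pr 4 2 (.pr 5 2 (.leaf [(7, .pl 2 4 8 9), (14, .am 5 6 8 9 1 1), (1, .am 0 4 5 8 1 1), (16, .lf 2 4 5 5 2 4), (12, .cf 7 8 0 7 0 5), (28, .rt 8 9 1 8 9 1), (8, .am 5 6 7 8 1 1), (16, .cf 7 8 0 7 0 4), (8, .am 2 4 5 8 1 1), (32, .rt 5 6 8 5 6 8), (10, .am 4 5 6 8 1 1), (28, .rt 4 5 7 4 5 7), (32, .cf 8 9 1 8 1 6), (32, .rt 7 8 0 7 8 0), (1, .pl 0 8 4 2), (16, .ce 1 3 4 1 4 5), (2, .am 4 5 7 8 1 1), (20, .am 4 6 7 8 1 1), (7, .am 4 5 8 9 1 1), (28, .rt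 6 7 9 6 7 9), (4, .rt 8 9 1 8 0 1), (16, .lf 1 3 4 4 1 2), (2, .am 0 5 7 8 1 1)]) (.leaf [(2, .cf 6 7 9 4 9 2), (2, .lf 1 3 4 4 1 2), (1, .am 4 6 7 8 1 1), (2, .am 4 6 8 9 1 1), (8, .am 4 5 7 8 1 1), (4, .am 0 4 5 8 1 1), (8, .rt 6 7 9 5 7 0), (4, .rt 8 9 1 8 0 1), (4, .rt 6 7 9 6 7 9), (21, .rt 4 5 7 4 5 7), (3, .rt 4 5 7 4 6 7), (4, .lf 1 3 4 4 1 3), (3, .am 1 4 8 7 1 1), (4, .cf 6 7 9 4 0 3), (3, .cf 8 9 1 7 1 6), (2, .rt 8 9 1 8 9 1), (12, .lf 5 7 8 8 5 7), (9, .ce 1 3 4 1 4 5)])) (.pr 3 2 (.leaf [(3, .cf 8 9 1 8 1 6), (2, .am 2 4 6 7 1 1), (1, .am 2 6 7 8 1 1), (1, .pl 0 8 4 2), (2, .am 0 6 7 8 1 1), (1, .am 0 4 6 7 1 1), (3, .rt 7 8 0 7 8 0), (3, .lf 2 4 5 6 2 4), (3, .rt 3 4 6 2 4 6), (3, .ce 2 4 5 2 6 8), (3, .rt 8 9 1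 8 0 1), (6, .lf 4 6 7 7 4 6)]) (.pr 5 2 (.leaf [(24, .am 4 6 7 8 1 1), (4, .am 5 6 8 9 1 1), (18, .pl 1 8 4 5), (82, .cf 8 9 1 8 1 6), (2, .pl 2 4 8 9), (14, .am 0 5 6 8 1 1), (18, .lf 1 3 4 4 1 2), (12, .am 4 5 6 8 1 1), (2, .am 4 5 8 9 1 1), (48, .lf 4 6 7 7 4 6), (4, .am 5 6 7 8 1 1), (9, .am 2 4 5 8 1 1), (7, .pl 0 8 4 2), (8, .ce 2 4 5 2 5 7), (48, .lf 2 4 5 5 2 4), (34, .rt 5 6 8 5 6 8), (56, .rt 8 9 1 8 0 1), (28, .am 0 6 7 8 1 1), (8, .rt 6 7 9 6 7 9), (7, .am 0 4 5 8 1 1), (56, .rt 7 8 0 7 8 0), (8, .rt 8 9 1 8 9 1), (22, .ce 2 4 5 2 5 8)]) (.leaf [(14, .rt 6 7 9 6 7 9), (3, .am 3 4 6 8 1 1), (8, .am 2 5 6 7 1 1), (4, .lf 1 3 4 4 1 2), (5, .am 4 6 8 9 1 1), (36, .ce 2 4 5 2 5 7), (24, .lf 4 6 7 7 4 6), (6, .lf 3 5 6 6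 3 5), (4, .pl 2 4 8 9), (2, .am 5 6 7 9 1 1), (2, .am 4 5 7 9 1 1), (16, .am 4 6 7 8 1 1), (6, .lf 1 3 4 4 1 3), (24, .cf 8 9 1 8 1 6), (2, .am 5 7 8 9 1 1), (16, .lf 3 5 6 6 2 5), (22, .lf 5 7 8 8 5 7), (12, .am 4 5 6 7 1 1), (3, .pl 3 4 8 9), (24, .lf 2 4 5 5 2 4), (4, .am 2 5 7 8 1 1), (14, .rt 8 9 1 8 9 1), (10, .pl 1 8 4 5)])))))) (.leaf [(1, .rt 6 7 9 4 7 9), (1, .pl 0 9 8 4), (1, .lf 7 9 0 0 7 9), (1, .pl 0 8 7 4)])) (.leaf [(1, .lf 8 0 1 1 7 8), (1, .rt 6 7 9 6 7 0), (1, .pl 0 1 6 8), (1, .rt 6 7 9 6 8 9), (1, .pl 1 9 7 6), (1, .lf 8 0 1 1 8 0), (1, .lf 8 0 1 1 8 9)])) (.pr 2 2 (.leaf [(3, .pl 0 7 6 2), (2, .pl 0 6 4 2), (1, .rt 2 3 5 2 3 5), (3, .rt 2 3 5 2 5 7), (1, .pl 2 3 6 9), (2, .rt 2 3 5 2 4 8), (1, .lf 6 8 9 9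 5 6), (1, .lf 6 8 9 0 6 8), (2, .pl 0 8 5 2), (3, .lf 6 8 9 0 5 7), (2, .lf 6 8 9 0 4 5), (1, .lf 6 8 9 9 3 8), (1, .pl 0 5 8 9)]) (.pr 4 2 (.leaf [(1, .rt 4 5 7 2 6 8), (1, .pl 4 6 8 9), (1, .rt 4 5 7 3 5 8), (3, .lf 6 8 9 9 5 8), (2, .pl 2 5 8 9), (1, .lf 6 8 9 9 6 7), (1, .rt 4 5 7 4 5 7), (1, .pl 3 5 7 9), (1, .rt 4 5 7 2 5 7), (1, .pl 2 8 7 3), (1, .rt 4 5 7 4 7 8), (1, .pl 2 6 5 4)]) (.pr 3 2 (.leaf [(1, .am 2 4 5 7 1 1), (3, .lf 4 6 7 7 4 5), (3, .pl 2 4 8 9), (8, .rt 3 4 6 2 4 6), (9, .lf 4 6 7 8 4 6), (2, .ce 2 4 5 2 5 7), (3, .lf 4 6 7 8 4 5), (6, .lf 6 8 9 9 5 8), (2, .lf 6 8 9 0 6 7), (1, .lf 4 6 7 7 4 6), (4, .lf 2 4 5 5 2 4), (3, .am 2 4 6 8 1 1), (1, .am 0 4 6 7 1 1), (6, .ce 2 4 5 2 6 8), (4, .lf 2 4 5 6 2 4),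 (1, .pl 0 7 4 2), (3, .am 4 5 8 9 1 1)]) (.pr 5 2 (.leaf [(1, .pl 0 7 5 2), (1, .lf 4 6 7 7 2 6), (2, .lf 6 8 9 9 6 8), (1, .lf 4 6 7 8 2 6), (1, .am 5 6 8 9 1 1), (1, .am 0 5 6 7 1 1), (1, .pl 2 5 8 9), (2, .rt 5 6 8 5 6 8), (2, .ce 2 4 5 2 5 7), (2, .lf 6 8 9 0 6 7)]) (.leaf [(3, .am 2 5 7 8 1 1), (1, .am 5 7 8 9 1 1), (4, .lf 4 6 7 7 2 6), (3, .pl 2 5 8 9), (2, .am 2 5 6 7 1 1), (4, .lf 6 8 9 9 6 8), (4, .lf 5 7 8 8 5 7), (2, .am 5 6 7 9 1 1), (4, .ce 2 4 5 2 5 7), (4, .lf 3 5 6 6 2 5), (4, .ce 2 4 5 2 5 8)])))))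

theorem ok_1487655432 : chk C1487655432 ⟨4337328188656763325335531522, [], [], [], [], []⟩ = true := by decide +kernel

end Pool.Agent.H146.TW
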