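import Pool.Agent.H292.TW.Chk3

/-!
Project TWELVE (helper221): certificate tree of one order pattern (helper146).
-/

set_option autoImplicit false
set_option maxRecDepth 100000

namespace Pool.Agent.H146.TW

open Pool.Agent.H292.TW.Chk

def C2227776543 : Tr :=
  .pr 6 2 (.pr 9 2 (.pr 7 2 (.pr 8 2 (.pr 3 2 (.leaf [(8, .rt 6 7 9 4 7 9), (1, .am 3 4 8 9 1 1), (12, .rt 7 8 0 7 8 0), (4, .rt 6 7 9 5 7 9), (12, .rt 3 4 6 3 5 7), (3, .am 0 4 8 9 1 1), (12, .cf 8 9 1 8 1 4), (6, .am 0 4 7 8 1 1), (2, .am 3 4 7 8 1 1), (9, .pl 0 9 4 3), (12, .cf 9 0 2 9 2 5), (12, .rt 3 4 6 3 4 8), (4, .am 3 5 7 8 1 1), (12, .rt 8 9 1 8 9 1), (12, .rt 9 0 2 9 0 2), (8, .am 3 5 8 9 1 1)]) (.pr 5 2 (.leaf [(3, .pl 2 9 6 5), (4, .rt 8 9 1 8 9 2), (4, .cf 9 0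 2 9 2 6), (2, .am 2 7 8 9 1 1), (4, .cf 9 0 2 9 2 7), (2, .am 5 7 8 9 1 1), (1, .am 5 6 7 9 1 1), (4, .rt 6 7 9 6 7 9), (3, .am 2 6 7 9 1 1), (4, .rt 5 6 8 5 6 8), (4, .rt 7 8 0 7 8 2)]) (.pr 4 2 (.leaf [(14, .am 1 6 7 8 1 1), (10, .am 1 6 8 9 1 1), (35, .rt 6 7 9 6 7 9), (36, .am 4 5 7 8 1 1), (6, .am 1 5 7 8 1 1), (9, .am 4 5 6 7 1 1), (18, .pl 1 9 5 4), (56, .rt 9 0 2 9 1 2), (28, .am 1 7 8 9 1 1), (63, .rt 4 5 7 4 5 7), (84, .lf 5 7 8 8 5 7), (21, .lf 3 5 6 6 3 5), (56, .rt 8 9 1 8 9 1), (12, .am 1 5 6 7 1 1), (21, .ce 3 5 6 3 6 9), (56, .cf 9 0 2 9 2 7), (18, .am 4 6 8 9 1 1)]) (.ch 4 (.leaf [(6, .am 1 5 7 8 1 1), (84, .lf 5 7 8 8 5 7), (9, .am 4 5 6 7 1 1), (14, .am 1 6 7 8 1 1), (35, .rt 6 7 9 6 7 9), (18, .am 4 6 8 9 1 1),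 (10, .am 1 6 8 9 1 1), (21, .lf 3 5 6 6 3 5), (56, .rt 9 0 2 9 1 2), (18, .pl 1 9 5 4), (56, .rt 8 9 1 8 9 1), (12, .am 1 5 6 7 1 1), (56, .cf 9 0 2 9 2 7), (28, .am 1 7 8 9 1 1), (36, .am 4 5 7 8 1 1), (21, .ce 3 5 6 3 6 9), (63, .rt 4 5 7 4 5 7)]) (.leaf [(3, .pl 0 9 6 3), (4, .lf 3 5 6 6 3 4), (16, .cf 9 0 2 9 2 7), (6, .rt 8 9 1 8 9 2), (3, .am 2 6 8 9 1 1), (16, .ce 3 5 6 3 6 8), (6, .lf 4 6 7 7 3 6), (3, .am 0 6 7 9 1 1), (4, .lf 4 6 7 7 4 6), (3, .pl 2 9 6 5), (2, .am 4 6 7 9 1 1), (3, .am 5 6 8 9 1 1), (4, .rt 8 9 1 8 9 1), (10, .rt 6 7 9 6 7 9), (10, .lf 6 8 9 9 6 8), (3, .am 3 6 7 9 1 1), (6, .rt 9 0 2 9 0 2), (6, .lf 5 7 8 8 5 7), (4, .rt 9 0 2 9 1 2), (2, .pl 1 9 6 4), (12, .am 6 7 8 9 1 1), (2, .am 1 6 8 9 1 1), (6, .lf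 3 5 6 6 3 5), (6, .rt 7 8 0 7 8 0)]) (.leaf [(9, .am 5 6 7 9 1 1), (24, .ce 3 5 6 3 6 8), (27, .am 2 6 7 9 1 1), (27, .pl 2 9 6 5), (36, .lf 3 5 6 6 3 5), (64, .cf 9 0 2 9 2 7), (20, .tb 4 1 2), (24, .rt 7 8 0 7 8 2), (20, .lf 3 5 6 6 3 4), (60, .rt 8 9 1 8 9 2), (36, .lf 5 7 8 8 5 7), (18, .am 5 7 8 9 1 1), (20, .cf 9 0 2 9 2 6), (32, .ce 3 5 6 3 6 7), (12, .am 6 7 8 9 1 1), (30, .am 2 7 8 9 1 1)]) (.leaf [(10, .am 0 5 6 7 1 1), (120, .lf 4 6 7 7 4 6), (20, .am 0 6 7 9 1 1), (96, .rt 9 0 2 9 0 2), (48, .rt 6 7 9 6 7 9), (24, .rt 9 0 2 9 1 2), (120, .c4 4), (96, .ce 3 5 6 3 6 8), (43, .pl 0 9 5 4), (8, .am 1 5 6 7 1 1), (96, .am 5 7 8 9 1 1), (15, .am 4 5 7 9 1 1), (120, .cf 9 0 2 9 2 7), (33, .am 0 5 7 9 1 1), (4, .am 1 6 7 9 1 1),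 (8, .pl 1 9 5 4), (192, .lf 5 7 8 8 5 7), (54, .am 4 5 6 7 1 1), (72, .am 4 6 7 8 1 1), (96, .ce 3 5 6 3 6 9), (24, .rt 8 9 1 8 9 1), (192, .lf 3 5 6 6 3 5), (12, .am 1 6 8 9 1 1), (96, .rt 7 8 0 7 8 0), (36, .am 4 6 8 9 1 1)]))))) (.leaf [(1, .cf 9 0 2 9 2 7), (1, .am 0 6 7 9 1 1), (1, .am 0 1 7 8 1 1), (1, .rt 9 0 2 8 0 2), (1, .cf 9 0 2 8 2 7), (2, .rt 7 8 0 7 9 0), (2, .lf 8 0 1 1 8 0), (2, .rt 7 8 0 7 8 0), (1, .pl 0 1 6 7), (2, .rt 6 7 9 6 7 9), (1, .rt 9 0 2 9 0 2)])) (.leaf [(1, .pl 2 8 7 6), (1, .pl 5 9 7 6), (1, .pl 4 9 8 6), (2, .pl 3 9 8 4), (1, .pl 2 9 8 5), (2, .rt 6 7 9 6 7 9), (1, .pl 2 7 9 4), (2, .pl 3 8 7 4), (1, .pl 4 8 7 5), (2, .pl 0 9 7 3), (2, .lf 7 9 0 0 7 9)])) (.leaf [(1, .lf 9 1 2 2 8 0), (1, .pl 1 2 5 7),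 (1, .pl 0 2 6 9), (1, .rt 6 7 9 6 7 0), (1, .lf 9 1 2 2 7 8), (1, .rt 6 7 9 5 9 1), (1, .pl 5 9 7 6), (1, .lf 9 1 2 2 9 1)])) (.pr 3 2 (.leaf [(1, .lf 6 8 9 9 4 5), (1, .rt 3 4 6 3 4 7), (1, .rt 3 4 6 3 7 8), (1, .lf 6 8 9 9 5 8), (1, .pl 3 4 8 9)]) (.pr 5 2 (.leaf [(1, .pl 3 7 6 4), (1, .pl 2 8 7 5), (1, .rt 5 6 8 5 6 8), (1, .pl 2 7 8 9), (1, .pl 4 7 6 5), (1, .lf 6 8 9 9 6 8), (1, .pl 3 6 7 9)]) (.pr 4 2 (.leaf [(1, .pl 3 5 8 9), (2, .lf 5 7 8 8 5 6), (1, .am 3 5 6 8 1 1), (2, .lf 6 8 9 9 6 8), (2, .rt 4 5 7 3 5 7), (2, .ce 3 5 6 3 7 8), (2, .lf 5 7 8 8 5 7), (1, .am 5 6 8 9 1 1), (2, .lf 3 5 6 6 3 5)]) (.pr 9 2 (.pr 7 2 (.pr 8 2 (.ch 5 (.leaf [(1, .am 0 6 8 9 1 1), (12, .ce 3 5 6 3 6 9), (12, .lf 6 8 9 9 6 8), (2, .am 0 6 7 8 1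 1), (24, .rt 5 6 8 5 6 8), (4, .rt 9 0 2 9 0 2), (4, .am 2 6 7 8 1 1), (8, .rt 7 8 0 7 8 2), (12, .pl 2 9 6 5), (3, .am 3 6 8 9 1 1), (6, .am 3 6 7 8 1 1), (3, .pl 0 9 6 3), (8, .am 2 6 8 9 1 1), (12, .rt 8 9 1 8 9 2), (12, .am 5 6 8 9 1 1), (12, .lf 4 6 7 7 3 6), (4, .rt 7 8 0 7 8 0), (24, .cf 9 0 2 9 2 6)]) (.leaf [(2, .am 3 6 7 8 1 1), (4, .lf 5 7 8 8 3 7), (4, .lf 7 9 0 0 7 9), (4, .lf 6 8 9 9 6 8), (4, .lf 4 6 7 7 3 6), (4, .ce 3 5 6 3 6 8), (1, .am 0 6 8 9 1 1), (3, .am 3 6 8 9 1 1), (4, .ce 3 5 6 3 6 9), (3, .pl 0 9 6 3), (2, .am 0 6 7 8 1 1)]) (.leaf [(11, .pl 2 9 6 5), (32, .am 3 6 7 8 1 1), (64, .lf 4 6 7 7 3 6), (16, .cf 9 0 2 9 2 6), (22, .am 0 6 7 8 1 1), (37, .rt 9 0 2 9 0 2), (32, .cf 9 0 2 9 2 7), (14, .tb 5 1 2), (48,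 .lf 6 8 9 9 6 8), (16, .pl 0 9 6 3), (11, .rt 9 0 2 6 0 2), (11, .am 5 6 8 9 1 1), (5, .am 0 6 8 9 1 1), (10, .am 5 6 7 8 1 1), (32, .lf 3 5 6 6 3 5), (16, .am 0 7 8 9 1 1), (16, .am 3 6 8 9 1 1), (96, .ce 3 5 6 3 6 8), (6, .ta 5 1 2)]) (.leaf [(18, .lf 6 8 9 9 6 8), (3, .am 5 6 8 9 1 1), (6, .am 3 6 8 9 1 1), (12, .am 3 6 7 8 1 1), (1, .am 2 6 8 9 1 1), (8, .rt 7 8 0 7 8 0), (6, .cf 9 0 2 9 2 6), (24, .ce 3 5 6 3 6 8), (24, .lf 4 6 7 7 3 6), (2, .am 2 6 7 8 1 1), (2, .rt 9 0 2 9 0 2), (3, .pl 2 9 6 5), (2, .am 0 6 8 9 1 1), (4, .am 0 6 7 8 1 1), (4, .rt 7 8 0 7 8 2), (6, .c4 5), (6, .pl 0 9 6 3), (6, .lf 5 7 8 8 5 7)])) (.leaf [(56, .lf 3 5 6 6 3 4), (56, .lf 4 6 7 7 4 6), (18, .pl 0 1 4 6), (18, .am 1 6 7 9 1 1), (63, .lf 8 0 1 1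 8 0), (14, .am 4 7 8 9 1 1), (84, .rt 7 8 0 7 8 0), (35, .lf 6 8 9 9 6 8), (21, .cf 9 0 2 9 2 6), (6, .am 0 4 7 8 1 1), (10, .am 4 6 7 9 1 1), (28, .am 4 6 7 8 1 1), (56, .ce 3 5 6 3 6 8), (21, .rt 9 0 2 9 0 2), (12, .am 0 4 8 9 1 1), (36, .am 0 1 7 8 1 1), (9, .am 0 1 8 9 1 1)])) (.leaf [(2, .am 0 6 7 8 1 1), (1, .am 0 6 8 9 1 1), (4, .lf 4 6 7 7 3 6), (2, .am 3 6 7 8 1 1), (4, .lf 5 7 8 8 3 7), (4, .ce 3 5 6 3 6 9), (3, .pl 0 9 6 3), (4, .ce 3 5 6 3 6 8), (4, .lf 6 8 9 9 6 8), (4, .lf 7 9 0 0 7 9), (3, .am 3 6 8 9 1 1)])) (.leaf [(12, .lf 4 6 7 7 3 6), (6, .am 0 2 7 8 1 1), (12, .lf 9 1 2 2 7 0), (8, .lf 6 8 9 0 6 8), (7, .pl 2 9 6 5), (5, .am 2 6 7 9 1 1), (12, .ce 3 5 6 3 7 0), (12, .ce 3 5 6 3 6 9), (4, .am 0 2 6 7 1 1), (4, .am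 5 7 8 9 1 1), (3, .am 5 6 7 9 1 1), (2, .pl 0 2 5 6), (12, .lf 3 5 6 6 3 5), (12, .lf 5 7 8 8 5 7), (4, .lf 6 8 9 9 6 8), (12, .lf 9 1 2 2 8 9), (2, .am 0 5 7 8 1 1)])))))

theorem ok_2227776543 : chk C2227776543 ⟨9293928776061669427126480902, [], [], [], [], []⟩ = true := by decide +kernel

end Pool.Agent.H146.TW
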