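import Pool.Agent.H292.TW.Chk3

/-!
Project TWELVE (helper221): certificate tree of one order pattern (helper146).
-/

set_option autoImplicit false
set_option maxRecDepth 100000

namespace Pool.Agent.H146.TW

open Pool.Agent.H292.TW.Chk

def C2237766543 : Tr :=
  .pr 7 2 (.pr 9 2 (.pr 8 2 (.pr 4 2 (.pr 5 2 (.leaf [(2, .pl 1 9 5 4), (1, .pl 0 9 5 3), (1, .am 3 5 7 9 1 1), (4, .am 5 6 8 9 1 1), (6, .rt 5 6 8 5 6 8), (4, .rt 4 5 7 4 5 7), (2, .rt 4 5 7 3 5 7), (2, .rt 9 0 2 9 0 2), (2, .rt 7 8 0 7 8 0), (6, .cf 9 0 2 9 2 6), (2, .am 1 5 6 9 1 1), (2, .am 4 5 7 9 1 1), (4, .rt 7 8 0 6 8 1), (6, .rt 8 9 1 8 9 1), (6, .cf 8 9 1 8 1 5), (2, .am 5 7 8 9 1 1), (6, .rt 5 6 8 5 7 9), (4, .rt 9 0 2 9 1 2), (1, .am 0 5 7 9 1 1)]) (.leaf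 [(1, .pl 1 2 5 4), (1, .pl 2 9 3 5), (1, .pl 0 5 7 9), (2, .pl 0 7 6 3), (1, .pl 0 2 5 1), (1, .pl 0 6 7 8), (1, .pl 3 6 5 4), (1, .pl 2 4 9 6), (1, .pl 0 6 2 3), (2, .rt 4 5 7 4 5 7), (2, .pl 3 7 6 4), (1, .pl 6 9 8 7), (2, .lf 5 7 8 8 5 7), (2, .pl 5 9 8 6)])) (.pr 3 2 (.leaf [(2, .lf 4 6 7 7 4 6), (1, .pl 3 5 6 9), (1, .pl 2 7 8 5), (1, .pl 0 2 6 7), (1, .pl 3 4 5 7), (2, .rt 3 4 6 3 4 6), (1, .pl 4 8 7 6), (1, .pl 0 4 2 8), (1, .pl 0 6 4 3), (1, .pl 5 9 8 6)]) (.pr 6 2 (.pr 5 2 (.leaf [(1, .am 5 6 7 9 1 1), (2, .am 1 7 8 9 1 1), (4, .rt 6 7 9 6 7 9), (4, .rt 9 0 2 9 0 2), (4, .rt 9 0 2 9 1 2), (1, .am 1 6 7 9 1 1), (4, .rt 8 9 1 8 9 1), (4, .cf 9 0 2 9 2 7), (4, .rt 5 6 8 5 6 8), (2, .am 0 6 7 9 1 1), (4, .rt 7 8 0 7 8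 0), (1, .pl 1 9 6 5), (4, .cf 9 0 2 9 2 6), (2, .am 5 7 8 9 1 1), (2, .pl 0 9 6 5)]) (.pr 2 2 (.ch 4 (.leaf [(9, .am 4 5 6 7 1 1), (56, .rt 9 0 2 9 1 2), (12, .am 1 5 6 7 1 1), (35, .rt 6 7 9 6 7 9), (28, .am 1 7 8 9 1 1), (84, .lf 5 7 8 8 5 7), (56, .cf 9 0 2 9 2 7), (14, .am 1 6 7 8 1 1), (18, .pl 1 9 5 4), (10, .am 1 6 8 9 1 1), (18, .am 4 6 8 9 1 1), (63, .rt 4 5 7 4 5 7), (56, .rt 8 9 1 8 9 1), (21, .lf 3 5 6 6 3 5), (36, .am 4 5 7 8 1 1), (21, .ce 3 5 6 3 6 9), (6, .am 1 5 7 8 1 1)]) (.leaf [(6, .rt 7 8 0 7 8 0), (2, .pl 1 9 6 4), (10, .rt 8 9 1 8 9 1), (6, .lf 4 6 7 7 3 6), (2, .am 4 6 7 9 1 1), (3, .am 0 6 7 9 1 1), (4, .lf 4 6 7 7 4 6), (16, .ce 3 5 6 3 6 8), (3, .pl 0 9 6 3), (10, .lf 6 8 9 9 6 8), (3, .pl 1 9 6 5),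 (3, .am 5 6 8 9 1 1), (10, .rt 6 7 9 6 7 9), (12, .am 6 7 8 9 1 1), (3, .am 3 6 7 9 1 1), (16, .cf 9 0 2 9 2 7), (5, .am 1 6 8 9 1 1), (6, .lf 3 5 6 6 3 5), (6, .rt 9 0 2 9 0 2), (6, .lf 5 7 8 8 5 7), (4, .lf 3 5 6 6 3 4), (10, .rt 9 0 2 9 1 2)]) (.leaf [(4, .am 3 6 7 9 1 1), (20, .lf 3 5 6 6 3 4), (15, .pl 1 9 6 5), (10, .am 5 7 8 9 1 1), (60, .rt 9 0 2 9 1 2), (8, .am 3 7 8 9 1 1), (20, .tb 4 1 2), (60, .rt 8 9 1 8 9 1), (12, .am 0 6 7 9 1 1), (20, .cf 9 0 2 9 2 6), (12, .am 6 7 8 9 1 1), (20, .lf 5 7 8 8 5 7), (15, .am 1 6 7 9 1 1), (12, .pl 0 9 6 3), (24, .rt 7 8 0 7 8 0), (20, .lf 3 5 6 6 3 5), (30, .am 1 7 8 9 1 1), (32, .ce 3 5 6 3 6 7), (24, .ce 3 5 6 3 6 8), (16, .lf 5 7 8 8 3 7), (5, .am 5 6 7 9 1 1), (64, .cf 9 0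 2 9 2 7), (24, .rt 9 0 2 9 0 2)]) (.leaf [(64, .lf 5 7 8 8 5 7), (12, .am 4 6 8 9 1 1), (64, .lf 3 5 6 6 3 5), (32, .ce 3 5 6 3 6 9), (5, .am 4 5 7 9 1 1), (12, .rt 9 0 2 9 0 2), (40, .lf 4 6 7 7 4 6), (4, .am 0 5 6 7 1 1), (4, .pl 0 9 5 4), (8, .am 0 6 7 9 1 1), (32, .am 5 7 8 9 1 1), (16, .rt 6 7 9 6 7 9), (20, .rt 7 8 0 7 8 1), (32, .ce 3 5 6 3 6 8), (13, .pl 1 9 5 4), (18, .am 4 5 6 7 1 1), (24, .am 4 6 7 8 1 1), (8, .rt 8 9 1 8 9 1), (28, .rt 9 0 2 9 1 2), (4, .am 1 6 8 9 1 1), (40, .cf 9 0 2 9 2 7), (12, .rt 7 8 0 7 8 0), (2, .am 1 5 6 7 1 1), (40, .c4 4), (11, .am 1 5 7 9 1 1)])) (.ch 4 (.leaf [(28, .am 1 7 8 9 1 1), (56, .rt 9 0 2 9 1 2), (21, .lf 3 5 6 6 3 5), (10, .am 1 6 8 9 1 1), (9, .am 4 5 6 7 1 1), (35, .rt 6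 7 9 6 7 9), (18, .pl 1 9 5 4), (21, .ce 3 5 6 3 6 9), (18, .am 4 6 8 9 1 1), (6, .am 1 5 7 8 1 1), (14, .am 1 6 7 8 1 1), (56, .cf 9 0 2 9 2 7), (63, .rt 4 5 7 4 5 7), (84, .lf 5 7 8 8 5 7), (12, .am 1 5 6 7 1 1), (36, .am 4 5 7 8 1 1), (56, .rt 8 9 1 8 9 1)]) (.leaf [(3, .pl 0 9 6 3), (12, .am 6 7 8 9 1 1), (6, .rt 7 8 0 7 8 0), (16, .ce 3 5 6 3 6 8), (4, .lf 3 5 6 6 3 4), (3, .pl 1 9 6 5), (2, .am 4 6 7 9 1 1), (6, .lf 3 5 6 6 3 5), (3, .am 5 6 8 9 1 1), (6, .lf 5 7 8 8 5 7), (5, .am 1 6 8 9 1 1), (4, .lf 4 6 7 7 4 6), (10, .rt 8 9 1 8 9 1), (3, .am 0 6 7 9 1 1), (3, .am 3 6 7 9 1 1), (10, .rt 9 0 2 9 1 2), (2, .pl 1 9 6 4), (10, .rt 6 7 9 6 7 9), (6, .rt 9 0 2 9 0 2), (6, .lf 4 6 7 7 3 6), (10, .lf 6 8 9 9 6 8), (16, .cf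 9 0 2 9 2 7)]) (.leaf [(12, .am 0 6 7 9 1 1), (32, .ce 3 5 6 3 6 7), (15, .am 1 6 7 9 1 1), (24, .ce 3 5 6 3 6 8), (60, .rt 8 9 1 8 9 1), (20, .lf 3 5 6 6 3 5), (8, .am 3 7 8 9 1 1), (4, .am 3 6 7 9 1 1), (64, .cf 9 0 2 9 2 7), (20, .lf 3 5 6 6 3 4), (20, .tb 4 1 2), (16, .lf 5 7 8 8 3 7), (60, .rt 9 0 2 9 1 2), (5, .am 5 6 7 9 1 1), (24, .rt 7 8 0 7 8 0), (15, .pl 1 9 6 5), (24, .rt 9 0 2 9 0 2), (10, .am 5 7 8 9 1 1), (20, .lf 5 7 8 8 5 7), (20, .cf 9 0 2 9 2 6), (30, .am 1 7 8 9 1 1), (12, .pl 0 9 6 3), (12, .am 6 7 8 9 1 1)]) (.leaf [(6, .am 1 5 6 7 1 1), (5, .am 4 5 7 9 1 1), (40, .c4 4), (40, .rt 9 0 2 9 1 2), (4, .am 1 6 8 9 1 1), (32, .rt 7 8 0 7 8 1), (64, .lf 5 7 8 8 5 7), (24, .am 4 6 7 8 1 1), (17, .pl 1 9 5 4),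 (16, .rt 6 7 9 6 7 9), (32, .ce 3 5 6 3 6 9), (64, .lf 3 5 6 6 3 5), (40, .cf 9 0 2 9 2 7), (40, .lf 4 6 7 7 4 6), (8, .am 1 6 7 9 1 1), (18, .am 4 5 6 7 1 1), (32, .ce 3 5 6 3 6 8), (32, .am 5 7 8 9 1 1), (8, .rt 8 9 1 8 9 1), (12, .am 4 6 8 9 1 1), (11, .am 1 5 7 9 1 1)])))) (.pr 5 2 (.leaf [(1, .am 0 6 8 9 1 1), (4, .lf 6 8 9 9 6 8), (1, .pl 0 9 6 3), (4, .rt 5 6 8 5 6 8), (1, .am 3 6 8 9 1 1), (2, .am 5 6 8 9 1 1), (4, .ce 3 5 6 3 6 8), (2, .am 3 6 7 8 1 1), (4, .cf 9 0 2 9 2 6), (4, .rt 9 0 2 9 0 2), (2, .am 0 6 7 8 1 1), (4, .lf 4 6 7 7 3 6), (4, .rt 7 8 0 7 8 0), (2, .pl 0 9 6 5)]) (.pr 2 2 (.ch 5 (.leaf [(2, .am 3 6 7 8 1 1), (4, .cf 9 0 2 9 2 6), (4, .rt 9 0 2 9 0 2), (4, .lf 4 6 7 7 3 6), (2, .am 5 6 8 9 1 1), (4,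 .rt 7 8 0 7 8 0), (1, .am 0 6 8 9 1 1), (2, .am 0 6 7 8 1 1), (4, .rt 5 6 8 5 6 8), (1, .pl 0 9 6 3), (1, .am 3 6 8 9 1 1), (4, .ce 3 5 6 3 6 8), (4, .lf 6 8 9 9 6 8), (2, .pl 0 9 6 5)]) (.leaf [(3, .am 3 6 8 9 1 1), (1, .am 0 6 8 9 1 1), (3, .pl 0 9 6 3), (4, .ce 3 5 6 3 6 9), (4, .ce 3 5 6 3 6 8), (2, .am 0 6 7 8 1 1), (4, .lf 6 8 9 9 6 8), (4, .lf 5 7 8 8 3 7), (2, .am 3 6 7 8 1 1), (4, .lf 7 9 0 0 7 9), (4, .lf 4 6 7 7 3 6)]) (.leaf [(22, .am 0 6 7 8 1 1), (5, .am 0 6 8 9 1 1), (64, .lf 4 6 7 7 3 6), (96, .ce 3 5 6 3 6 8), (48, .lf 6 8 9 9 6 8), (16, .am 0 7 8 9 1 1), (16, .pl 0 9 6 3), (6, .ta 5 1 2), (32, .cf 9 0 2 9 2 7), (16, .cf 9 0 2 9 2 6), (32, .am 3 6 7 8 1 1), (32, .lf 3 5 6 6 3 5), (11, .pl 0 9 6 5), (48, .rt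 9 0 2 9 0 2), (10, .am 5 6 7 8 1 1), (16, .am 3 6 8 9 1 1), (11, .am 5 6 8 9 1 1), (14, .tb 5 1 2)]) (.leaf [(1, .pl 0 9 6 5), (1, .am 0 6 8 9 1 1), (4, .am 3 6 7 8 1 1), (2, .cf 9 0 2 9 2 6), (8, .lf 4 6 7 7 3 6), (2, .am 0 6 7 8 1 1), (2, .pl 0 9 6 3), (4, .rt 7 8 0 7 8 0), (8, .ce 3 5 6 3 6 8), (1, .am 5 6 8 9 1 1), (2, .lf 5 7 8 8 5 7), (2, .c4 5), (2, .rt 9 0 2 9 0 2), (6, .lf 6 8 9 9 6 8), (2, .am 3 6 8 9 1 1)])) (.ch 5 (.leaf [(4, .rt 7 8 0 7 8 0), (4, .ce 3 5 6 3 6 8), (4, .lf 4 6 7 7 3 6), (4, .rt 9 0 2 9 0 2), (2, .am 0 6 7 8 1 1), (4, .lf 6 8 9 9 6 8), (4, .cf 9 0 2 9 2 6), (4, .rt 5 6 8 5 6 8), (2, .am 3 6 7 8 1 1), (1, .am 3 6 8 9 1 1), (2, .pl 0 9 6 5), (1, .am 0 6 8 9 1 1), (1, .pl 0 9 6 3), (2, .am 5 6 8 9 1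 1)]) (.leaf [(1, .am 0 6 8 9 1 1), (4, .lf 4 6 7 7 3 6), (4, .lf 6 8 9 9 6 8), (2, .am 3 6 7 8 1 1), (3, .pl 0 9 6 3), (2, .am 0 6 7 8 1 1), (4, .lf 5 7 8 8 3 7), (4, .ce 3 5 6 3 6 9), (4, .lf 7 9 0 0 7 9), (4, .ce 3 5 6 3 6 8), (3, .am 3 6 8 9 1 1)]) (.leaf [(32, .am 3 6 7 8 1 1), (6, .ta 5 1 2), (11, .pl 0 9 6 5), (14, .tb 5 1 2), (32, .lf 3 5 6 6 3 5), (16, .cf 9 0 2 9 2 6), (96, .ce 3 5 6 3 6 8), (5, .am 0 6 8 9 1 1), (48, .lf 6 8 9 9 6 8), (16, .am 0 7 8 9 1 1), (48, .rt 9 0 2 9 0 2), (11, .am 5 6 8 9 1 1), (32, .cf 9 0 2 9 2 7), (16, .am 3 6 8 9 1 1), (64, .lf 4 6 7 7 3 6), (22, .am 0 6 7 8 1 1), (10, .am 5 6 7 8 1 1), (16, .pl 0 9 6 3)]) (.leaf [(4, .rt 7 8 0 7 8 0), (2, .lf 5 7 8 8 5 7), (2, .am 3 6 8 9 1 1), (4, .am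 3 6 7 8 1 1), (2, .pl 0 9 6 3), (2, .c4 5), (2, .cf 9 0 2 9 2 6), (8, .lf 4 6 7 7 3 6), (1, .pl 0 9 6 5), (8, .ce 3 5 6 3 6 8), (6, .lf 6 8 9 9 6 8), (1, .am 0 6 8 9 1 1), (1, .am 5 6 8 9 1 1), (2, .rt 9 0 2 9 0 2), (2, .am 0 6 7 8 1 1)]))))))) (.leaf [(1, .pl 0 1 4 8), (1, .lf 8 0 1 1 8 0), (1, .pl 5 9 8 6), (1, .pl 0 4 2 9), (1, .pl 0 2 6 9), (1, .rt 7 8 0 6 8 0), (1, .pl 4 9 8 5)])) (.leaf [(1, .pl 0 7 6 1), (1, .pl 2 9 8 6), (1, .pl 1 2 6 9), (1, .pl 0 6 7 8), (1, .lf 9 1 2 2 8 9), (1, .rt 7 8 0 7 8 0), (1, .rt 7 8 0 7 0 1), (1, .lf 9 1 2 2 9 1)])) (.pr 4 2 (.leaf [(2, .pl 0 9 8 1), (1, .lf 7 9 0 1 6 9), (2, .lf 7 9 0 0 5 7), (1, .pl 3 9 7 4), (2, .rt 4 5 7 4 7 8), (1, .pl 3 6 5 4), (3, .lf 7 9 0 0 7 9), (2, .pl 3 8 6 4),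 (3, .pl 1 7 5 4), (1, .pl 0 7 5 3), (1, .pl 0 2 5 1), (1, .rt 4 5 7 4 6 7), (3, .pl 1 9 7 4), (1, .pl 0 9 6 3), (1, .pl 0 6 2 1), (4, .rt 4 5 7 4 5 9), (2, .lf 7 9 0 1 5 8), (2, .pl 0 8 7 3)]) (.pr 3 2 (.leaf [(1, .lf 4 6 7 7 4 6), (4, .rt 3 4 6 3 4 6), (2, .lf 7 9 0 0 4 8), (2, .lf 7 9 0 0 7 9), (4, .pl 0 8 4 3), (2, .pl 0 9 8 3), (2, .lf 7 9 0 0 5 7), (1, .pl 2 7 9 5), (1, .pl 4 9 8 5), (2, .rt 3 4 6 3 5 8), (1, .lf 4 6 7 8 4 6), (1, .pl 0 5 6 8), (1, .pl 0 4 5 7), (2, .pl 0 6 5 3), (2, .rt 3 4 6 3 6 9), (1, .pl 2 9 7 6), (1, .pl 0 4 6 9)]) (.pr 6 2 (.leaf [(1, .pl 5 9 8 6), (2, .lf 7 9 0 0 7 9), (1, .pl 4 9 7 5), (1, .pl 0 8 7 4), (1, .pl 0 9 7 3), (1, .pl 3 8 7 6), (1, .pl 1 8 9 3), (1, .pl 5 9 7 6), (2, .rt 6 7 9 6 7 9),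 (1, .pl 1 9 8 4), (1, .pl 0 9 8 5)]) (.leaf [(1, .am 3 6 7 9 1 1), (2, .ce 3 5 6 3 6 9), (2, .lf 7 9 0 0 7 9), (2, .lf 6 8 9 9 6 7), (2, .lf 4 6 7 7 3 6), (1, .am 0 6 7 9 1 1), (1, .pl 0 9 6 3)]))))

theorem ok_2237766543 : chk C2237766543 ⟨9293928776057165827532664838, [], [], [], [], []⟩ = true := by decide +kernel

end Pool.Agent.H146.TW
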