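import Pool.Agent.H292.TW.Chk3

/-!
Project TWELVE (helper221): certificate tree of one order pattern (helper146).
-/

set_option autoImplicit false
set_option maxRecDepth 100000

namespace Pool.Agent.H146.TW

open Pool.Agent.H292.TW.Chk

def C2327676543 : Tr :=
  .pr 6 2 (.pr 9 2 (.pr 7 2 (.pr 3 2 (.leaf [(1, .am 3 6 7 9 1 1), (2, .rt 9 0 2 9 0 2), (1, .am 0 6 7 9 1 1), (1, .pl 0 9 6 3), (2, .rt 3 4 6 3 6 7), (2, .cf 9 0 2 9 2 6), (2, .rt 6 7 9 6 7 9), (2, .rt 7 8 0 7 9 0)]) (.pr 8 2 (.pr 5 2 (.leaf [(3, .am 2 6 7 9 1 1), (4, .rt 7 8 0 7 8 2), (2, .am 2 7 8 9 1 1), (4, .cf 9 0 2 9 2 6), (1, .am 5 6 7 9 1 1), (3, .pl 2 9 6 5), (2, .am 5 7 8 9 1 1), (4, .rt 5 6 8 5 6 8), (4, .cf 9 0 2 9 2 7), (4, .rt 6 7 9 6 7 9), (4, .rt 8 9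 1 8 9 2)]) (.pr 4 2 (.leaf [(10, .rt 8 9 1 8 9 1), (24, .rt 4 5 7 3 5 7), (5, .am 3 6 8 9 1 1), (10, .rt 9 0 2 9 0 2), (2, .am 0 7 8 9 1 1), (10, .cf 8 9 1 8 1 5), (16, .am 3 5 7 8 1 1), (3, .ce 3 5 6 3 6 8), (3, .am 0 5 6 7 1 1), (3, .rt 7 8 0 7 8 0), (5, .am 3 5 6 7 1 1), (10, .cf 9 0 2 9 2 7), (3, .pl 0 9 5 3), (5, .ce 3 5 6 3 9 0), (8, .lf 3 5 6 6 3 5), (2, .rt 6 7 9 6 7 0), (22, .lf 5 7 8 8 5 7), (3, .am 3 7 8 9 1 1), (10, .rt 6 7 9 6 7 9), (4, .am 0 6 7 8 1 1)]) (.pr 1 2 (.ch 4 (.leaf [(4, .am 0 7 8 9 1 1), (6, .am 4 6 8 9 1 1), (8, .am 0 6 7 8 1 1), (4, .rt 6 7 9 6 7 0), (44, .lf 5 7 8 8 5 7), (7, .am 3 5 6 7 1 1), (20, .rt 6 7 9 6 7 9), (20, .cf 8 9 1 8 1 5), (4, .am 3 6 8 9 1 1), (12, .am 4 5 7 8 1 1), (6, .pl 0 9 5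 4), (6, .rt 7 8 0 7 8 0), (3, .am 4 5 6 7 1 1), (6, .ce 3 5 6 3 6 8), (10, .ce 3 5 6 3 9 0), (6, .am 3 7 8 9 1 1), (16, .lf 3 5 6 6 3 5), (20, .rt 9 0 2 9 0 2), (27, .rt 4 5 7 3 5 7), (20, .rt 8 9 1 8 9 1), (20, .am 3 5 7 8 1 1), (20, .cf 9 0 2 9 2 7), (21, .rt 4 5 7 4 5 7), (6, .am 0 5 6 7 1 1)]) (.leaf [(6, .rt 9 0 2 9 0 2), (12, .ce 3 5 6 3 6 8), (8, .am 6 7 8 9 1 1), (6, .rt 7 8 0 7 8 0), (10, .rt 8 9 1 8 9 2), (1, .am 2 6 8 9 1 1), (10, .rt 6 7 9 6 7 9), (16, .cf 9 0 2 9 2 7), (3, .am 5 6 8 9 1 1), (3, .am 3 6 7 9 1 1), (3, .pl 0 9 6 3), (2, .am 2 6 7 9 1 1), (3, .am 0 6 7 9 1 1), (4, .am 2 7 8 9 1 1), (3, .pl 2 9 6 5), (6, .lf 4 6 7 7 3 6), (6, .lf 5 7 8 8 5 7), (6, .lf 6 8 9 9 6 8), (6, .lf 3 5 6 6 3 5)]) (.leaf [(36,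 .lf 3 5 6 6 3 5), (32, .ce 3 5 6 3 6 7), (12, .am 6 7 8 9 1 1), (24, .ce 3 5 6 3 6 8), (20, .tb 4 1 2), (20, .cf 9 0 2 9 2 6), (24, .rt 7 8 0 7 8 2), (36, .lf 5 7 8 8 5 7), (18, .am 5 7 8 9 1 1), (64, .cf 9 0 2 9 2 7), (60, .rt 8 9 1 8 9 2), (27, .pl 2 9 6 5), (27, .am 2 6 7 9 1 1), (9, .am 5 6 7 9 1 1), (30, .am 2 7 8 9 1 1), (20, .lf 3 5 6 6 3 4)]) (.leaf [(6, .am 0 5 6 7 1 1), (33, .pl 0 9 5 4), (88, .lf 4 6 7 7 4 6), (12, .am 4 5 7 8 1 1), (27, .am 0 5 7 9 1 1), (72, .rt 9 0 2 9 0 2), (72, .cf 9 0 2 9 2 7), (12, .am 0 6 7 9 1 1), (136, .lf 3 5 6 6 3 5), (88, .c4 4), (56, .am 5 7 8 9 1 1), (24, .rt 6 7 9 6 7 9), (52, .am 4 6 7 8 1 1), (64, .ce 3 5 6 3 6 9), (32, .am 4 6 8 9 1 1), (136, .lf 5 7 8 8 5 7), (42, .am 4 5 6 7 1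 1), (1, .am 4 5 7 9 1 1), (72, .ce 3 5 6 3 6 8), (72, .rt 7 8 0 7 8 0)])) (.ch 4 (.leaf [(10, .rt 8 9 1 8 9 1), (10, .cf 8 9 1 8 1 5), (3, .am 0 5 6 7 1 1), (8, .lf 3 5 6 6 3 5), (6, .am 4 5 7 8 1 1), (6, .cf 9 0 2 9 2 5), (3, .am 4 5 8 9 1 1), (5, .am 3 5 6 7 1 1), (15, .rt 4 5 7 3 5 7), (3, .pl 0 9 5 4), (5, .ce 3 5 6 3 9 0), (5, .am 3 6 8 9 1 1), (10, .rt 6 7 9 6 7 9), (4, .am 0 6 7 8 1 1), (12, .rt 4 5 7 4 5 7), (3, .rt 7 8 0 7 8 0), (2, .am 0 7 8 9 1 1), (19, .lf 5 7 8 8 5 7), (2, .rt 6 7 9 6 7 0), (3, .ce 3 5 6 3 6 8), (10, .am 3 5 7 8 1 1), (10, .rt 9 0 2 9 0 2), (4, .cf 9 0 2 9 2 7)]) (.leaf [(2, .am 2 6 7 9 1 1), (10, .rt 6 7 9 6 7 9), (1, .am 2 6 8 9 1 1), (6, .lf 6 8 9 9 6 8), (3, .am 3 6 7 9 1 1), (6, .lf 5 7 8 8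 5 7), (6, .lf 4 6 7 7 3 6), (8, .am 6 7 8 9 1 1), (6, .rt 7 8 0 7 8 0), (10, .rt 8 9 1 8 9 2), (16, .cf 9 0 2 9 2 7), (4, .am 2 7 8 9 1 1), (3, .pl 0 9 6 3), (3, .pl 2 9 6 5), (6, .lf 3 5 6 6 3 5), (6, .rt 9 0 2 9 0 2), (12, .ce 3 5 6 3 6 8), (3, .am 0 6 7 9 1 1), (3, .am 5 6 8 9 1 1)]) (.leaf [(27, .pl 2 9 6 5), (64, .cf 9 0 2 9 2 7), (18, .am 5 7 8 9 1 1), (20, .lf 3 5 6 6 3 4), (9, .am 5 6 7 9 1 1), (32, .ce 3 5 6 3 6 7), (27, .am 2 6 7 9 1 1), (24, .ce 3 5 6 3 6 8), (20, .cf 9 0 2 9 2 6), (36, .lf 5 7 8 8 5 7), (30, .am 2 7 8 9 1 1), (12, .am 6 7 8 9 1 1), (60, .rt 8 9 1 8 9 2), (20, .tb 4 1 2), (24, .rt 7 8 0 7 8 2), (36, .lf 3 5 6 6 3 5)]) (.leaf [(27, .am 0 5 7 9 1 1), (88, .lf 4 6 7 7 4 6), (42, .am 4 5 6 7 1 1), (72,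 .rt 9 0 2 9 0 2), (52, .am 4 6 7 8 1 1), (72, .rt 7 8 0 7 8 0), (72, .cf 9 0 2 9 2 7), (24, .rt 6 7 9 6 7 9), (72, .ce 3 5 6 3 6 8), (12, .am 0 6 7 9 1 1), (6, .am 0 5 6 7 1 1), (136, .lf 3 5 6 6 3 5), (56, .am 5 7 8 9 1 1), (64, .ce 3 5 6 3 6 9), (136, .lf 5 7 8 8 5 7), (32, .am 4 6 8 9 1 1), (12, .am 4 5 7 8 1 1), (1, .am 4 5 7 9 1 1), (33, .pl 0 9 5 4), (88, .c4 4)]))))) (.leaf [(1, .am 0 2 7 9 1 1), (1, .rt 9 0 2 9 0 2), (1, .ce 3 5 6 3 6 9), (1, .rt 6 7 9 6 7 9), (1, .am 2 6 7 9 1 1), (1, .lf 3 5 6 6 3 5), (1, .lf 8 0 1 2 7 0), (2, .rt 7 8 0 7 9 0), (1, .cf 6 7 9 6 2 5)]))) (.leaf [(1, .pl 2 8 7 6), (1, .pl 3 9 8 4), (1, .pl 0 9 8 6), (1, .pl 0 9 7 3), (2, .rt 6 7 9 6 7 9), (1, .pl 1 7 8 3), (1, .pl 1 8 7 2), (1, .pl 0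 8 7 4), (1, .pl 4 9 7 6), (2, .lf 7 9 0 0 7 9)])) (.leaf [(1, .rt 6 7 9 5 9 0), (1, .lf 9 1 2 2 7 8), (1, .rt 6 7 9 5 7 9), (1, .pl 1 2 5 7), (1, .rt 6 7 9 5 0 1), (1, .lf 9 1 2 2 8 1)])) (.pr 3 2 (.leaf [(2, .lf 6 8 9 0 6 7), (2, .rt 3 4 6 3 5 6), (2, .pl 0 7 5 3), (1, .pl 0 7 2 3), (2, .rt 3 4 6 3 6 8), (1, .pl 3 7 8 9), (2, .lf 6 8 9 9 4 8), (2, .rt 3 4 6 3 4 7), (2, .lf 6 8 9 0 5 6), (1, .pl 0 4 7 9), (1, .pl 2 9 3 4), (1, .pl 0 8 4 3), (1, .pl 0 2 8 9)]) (.pr 5 2 (.leaf [(1, .lf 6 8 9 9 6 8), (1, .pl 3 8 7 4), (1, .pl 0 8 7 3), (1, .rt 5 6 8 4 6 8), (1, .pl 0 7 6 4), (1, .pl 0 6 8 9)]) (.pr 9 2 (.pr 4 2 (.leaf [(3, .lf 6 8 9 9 5 8), (2, .lf 3 5 6 6 3 5), (5, .rt 4 5 7 3 5 8), (1, .am 3 5 6 8 1 1), (4, .ce 6 8 9 3 9 0),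 (2, .am 3 5 7 8 1 1), (2, .lf 3 5 6 7 3 5), (2, .lf 6 8 9 9 6 8), (4, .rt 9 0 2 9 0 2), (1, .am 5 6 8 9 1 1), (4, .cf 9 0 2 9 2 7), (2, .am 3 7 8 9 1 1), (2, .am 3 5 8 9 1 1), (4, .lf 5 7 8 8 5 7), (2, .lf 5 7 8 8 5 6)]) (.pr 7 2 (.pr 8 2 (.pr 1 2 (.ch 5 (.leaf [(12, .rt 8 9 1 8 9 2), (3, .pl 0 9 6 3), (4, .am 2 6 7 8 1 1), (8, .am 2 6 8 9 1 1), (3, .am 3 6 8 9 1 1), (8, .rt 7 8 0 7 8 2), (2, .am 0 6 7 8 1 1), (4, .rt 9 0 2 9 0 2), (24, .rt 5 6 8 5 6 8), (12, .am 5 6 8 9 1 1), (12, .lf 4 6 7 7 3 6), (24, .cf 9 0 2 9 2 6), (1, .am 0 6 8 9 1 1), (6, .am 3 6 7 8 1 1), (4, .rt 7 8 0 7 8 0), (12, .pl 2 9 6 5), (12, .lf 6 8 9 9 6 8), (12, .ce 3 5 6 3 6 9)]) (.leaf [(3, .am 3 6 8 9 1 1), (4, .ce 3 5 6 3 6 8), (4, .lf 4 6 7 7 3 6),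 (3, .pl 0 9 6 3), (2, .am 3 6 7 8 1 1), (1, .am 0 6 8 9 1 1), (2, .am 0 6 7 8 1 1), (4, .ce 3 5 6 3 6 9), (4, .lf 7 9 0 0 7 9), (4, .lf 6 8 9 9 6 8), (4, .lf 5 7 8 8 3 7)]) (.leaf [(48, .lf 6 8 9 9 6 8), (16, .am 3 6 8 9 1 1), (32, .am 3 6 7 8 1 1), (11, .lf 6 8 9 9 3 5), (10, .am 5 6 7 8 1 1), (48, .rt 9 0 2 9 0 2), (32, .cf 9 0 2 9 2 7), (27, .pl 0 9 6 3), (11, .am 5 6 8 9 1 1), (22, .am 0 6 7 8 1 1), (64, .lf 4 6 7 7 3 6), (5, .am 0 6 8 9 1 1), (14, .tb 5 1 2), (16, .am 0 7 8 9 1 1), (21, .lf 3 5 6 6 3 5), (96, .ce 3 5 6 3 6 8), (16, .cf 9 0 2 9 2 6), (6, .ta 5 1 2)]) (.leaf [(4, .am 0 6 7 8 1 1), (6, .cf 9 0 2 9 2 6), (2, .am 0 6 8 9 1 1), (2, .am 2 6 7 8 1 1), (18, .lf 6 8 9 9 6 8), (1, .am 2 6 8 9 1 1), (12, .am 3 6 7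 8 1 1), (6, .pl 0 9 6 3), (24, .lf 4 6 7 7 3 6), (24, .ce 3 5 6 3 6 8), (6, .lf 5 7 8 8 5 7), (6, .c4 5), (2, .rt 9 0 2 9 0 2), (8, .rt 7 8 0 7 8 0), (3, .pl 2 9 6 5), (6, .am 3 6 8 9 1 1), (3, .am 5 6 8 9 1 1), (4, .rt 7 8 0 7 8 2)])) (.ch 5 (.leaf [(3, .pl 0 9 6 3), (12, .lf 6 8 9 9 6 8), (12, .ce 3 5 6 3 6 9), (4, .rt 9 0 2 9 0 2), (3, .am 3 6 8 9 1 1), (2, .am 0 6 7 8 1 1), (12, .rt 8 9 1 8 9 2), (4, .am 2 6 7 8 1 1), (24, .rt 5 6 8 5 6 8), (8, .am 2 6 8 9 1 1), (24, .cf 9 0 2 9 2 6), (4, .rt 7 8 0 7 8 0), (1, .am 0 6 8 9 1 1), (12, .am 5 6 8 9 1 1), (8, .rt 7 8 0 7 8 2), (12, .lf 4 6 7 7 3 6), (6, .am 3 6 7 8 1 1), (12, .pl 2 9 6 5)]) (.leaf [(4, .lf 7 9 0 0 7 9), (3, .pl 0 9 6 3), (4, .lf 4 6 7 7 3 6), (4, .lf 6 8 9 9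 6 8), (4, .ce 3 5 6 3 6 9), (2, .am 3 6 7 8 1 1), (2, .am 0 6 7 8 1 1), (4, .lf 5 7 8 8 3 7), (3, .am 3 6 8 9 1 1), (1, .am 0 6 8 9 1 1), (4, .ce 3 5 6 3 6 8)]) (.leaf [(16, .cf 9 0 2 9 2 6), (14, .tb 5 1 2), (6, .ta 5 1 2), (48, .rt 9 0 2 9 0 2), (11, .pl 0 9 6 5), (22, .am 0 6 7 8 1 1), (32, .lf 3 5 6 6 3 5), (48, .lf 6 8 9 9 6 8), (16, .pl 0 9 6 3), (96, .ce 3 5 6 3 6 8), (64, .lf 4 6 7 7 3 6), (11, .am 5 6 8 9 1 1), (16, .am 0 7 8 9 1 1), (10, .am 5 6 7 8 1 1), (5, .am 0 6 8 9 1 1), (32, .cf 9 0 2 9 2 7), (16, .am 3 6 8 9 1 1), (32, .am 3 6 7 8 1 1)]) (.leaf [(4, .am 0 6 7 8 1 1), (6, .c4 5), (24, .ce 3 5 6 3 6 8), (6, .pl 0 9 6 3), (6, .am 3 6 8 9 1 1), (8, .rt 7 8 0 7 8 0), (2, .rt 9 0 2 9 0 2), (4, .rt 7 8 0 7 8 2), (3,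 .pl 2 9 6 5), (2, .am 2 6 7 8 1 1), (2, .am 0 6 8 9 1 1), (3, .am 5 6 8 9 1 1), (6, .lf 5 7 8 8 5 7), (24, .lf 4 6 7 7 3 6), (12, .am 3 6 7 8 1 1), (1, .am 2 6 8 9 1 1), (6, .cf 9 0 2 9 2 6), (18, .lf 6 8 9 9 6 8)]))) (.leaf [(3, .pl 0 2 5 6), (2, .am 5 6 7 8 1 1), (8, .rt 9 0 2 9 0 2), (3, .am 0 5 8 9 1 1), (5, .cf 9 0 2 6 2 5), (16, .am 0 2 7 8 1 1), (3, .cf 9 0 2 9 2 7), (5, .am 2 6 7 9 1 1), (5, .am 0 2 8 9 1 1), (22, .rt 7 8 0 7 8 0), (3, .am 2 6 7 8 1 1), (24, .lf 8 0 1 2 8 0), (10, .ce 4 6 7 4 7 0), (10, .ce 3 5 6 3 6 8), (2, .lf 6 8 9 9 5 8), (10, .lf 4 6 7 7 4 6), (10, .lf 3 5 6 6 3 5), (4, .am 5 7 8 9 1 1), (10, .lf 6 8 9 9 6 8), (3, .lf 5 7 8 8 5 7)])) (.leaf [(4, .ce 3 5 6 3 6 8), (4, .lf 4 6 7 7 3 6), (2, .am 0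 6 7 8 1 1), (1, .am 0 6 8 9 1 1), (3, .am 3 6 8 9 1 1), (4, .lf 6 8 9 9 6 8), (4, .lf 5 7 8 8 3 7), (3, .pl 0 9 6 3), (4, .lf 7 9 0 0 7 9), (2, .am 3 6 7 8 1 1), (4, .ce 3 5 6 3 6 9)]))) (.leaf [(2, .lf 6 8 9 9 6 8), (2, .lf 3 5 6 6 3 5), (2, .lf 5 7 8 8 5 6), (2, .lf 9 1 2 2 8 9), (1, .am 5 6 8 9 1 1), (2, .ce 3 5 6 3 6 9), (1, .am 2 6 8 9 1 1), (1, .pl 2 9 6 5)]))))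

theorem ok_2327676543 : chk C2327676543 ⟨9293928776061667228103241734, [], [], [], [], []⟩ = true := by decide +kernel

end Pool.Agent.H146.TW
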