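import Pool.Agent.H292.TW.Chk3

/-!
Project TWELVE (helper221): certificate tree of one order pattern (helper146).
-/

set_option autoImplicit false
set_option maxRecDepth 100000

namespace Pool.Agent.H146.TW

open Pool.Agent.H292.TW.Chk

def C2337666543 : Tr :=
  .pr 6 2 (.pr 9 2 (.pr 7 2 (.pr 8 2 (.pr 3 2 (.leaf [(6, .am 0 5 7 8 1 1), (12, .rt 9 0 2 9 0 2), (5, .am 3 6 8 9 1 1), (12, .rt 8 9 1 8 9 1), (8, .rt 6 7 9 5 7 9), (4, .rt 6 7 9 6 7 9), (6, .pl 0 9 5 3), (12, .rt 7 8 0 7 8 0), (12, .rt 3 4 6 3 6 7), (4, .am 3 6 7 8 1 1), (3, .pl 0 9 6 3), (3, .am 0 6 8 9 1 1), (12, .cf 9 0 2 9 2 6), (12, .rt 3 4 6 3 5 8), (12, .cf 8 9 1 8 1 5), (2, .am 3 5 7 8 1 1), (4, .am 3 5 8 9 1 1)]) (.pr 5 2 (.leaf [(8, .rt 5 6 8 3 6 8), (12,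 .rt 8 9 1 8 9 1), (4, .am 3 7 8 9 1 1), (4, .rt 5 6 8 5 6 8), (12, .rt 6 7 9 6 7 9), (12, .cf 9 0 2 9 2 6), (2, .am 3 6 7 9 1 1), (6, .am 0 6 7 9 1 1), (12, .rt 9 0 2 9 0 2), (12, .rt 7 8 0 7 8 0), (12, .rt 9 0 2 9 1 2), (6, .am 1 7 8 9 1 1), (6, .pl 0 9 6 3), (3, .am 1 6 7 9 1 1), (3, .pl 1 9 6 5), (2, .am 5 7 8 9 1 1), (12, .cf 9 0 2 9 2 7), (1, .am 5 6 7 9 1 1)]) (.pr 4 2 (.leaf [(1, .pl 0 9 5 4), (1, .am 4 7 8 9 1 1), (3, .am 3 5 6 7 1 1), (2, .am 0 6 7 8 1 1), (4, .lf 3 5 6 6 3 5), (5, .rt 9 0 2 9 0 2), (3, .rt 4 5 7 4 5 7), (11, .lf 5 7 8 8 5 7), (2, .am 4 5 7 8 1 1), (1, .ce 3 5 6 3 6 8), (5, .rt 8 9 1 8 9 1), (6, .rt 6 7 9 6 7 9), (3, .ce 3 5 6 3 9 0), (1, .rt 7 8 0 7 8 0), (5, .cf 9 0 2 9 2 7), (1, .rt 7 8 0 7 9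 0), (9, .rt 4 5 7 3 5 7), (3, .am 3 6 8 9 1 1), (6, .am 3 5 7 8 1 1), (5, .cf 8 9 1 8 1 5), (1, .am 0 7 8 9 1 1), (1, .am 0 5 6 7 1 1)]) (.pr 2 2 (.pr 1 2 (.ch 4 (.leaf [(5, .am 3 5 6 7 1 1), (3, .pl 0 9 5 3), (2, .am 0 7 8 9 1 1), (3, .rt 7 8 0 7 8 0), (10, .rt 8 9 1 8 9 1), (2, .rt 6 7 9 6 7 0), (3, .ce 3 5 6 3 6 8), (24, .rt 4 5 7 3 5 7), (10, .rt 9 0 2 9 0 2), (4, .am 0 6 7 8 1 1), (5, .ce 3 5 6 3 9 0), (3, .am 0 5 6 7 1 1), (3, .am 3 7 8 9 1 1), (16, .am 3 5 7 8 1 1), (10, .cf 8 9 1 8 1 5), (10, .cf 9 0 2 9 2 7), (8, .lf 3 5 6 6 3 5), (5, .am 3 6 8 9 1 1), (10, .rt 6 7 9 6 7 9), (22, .lf 5 7 8 8 5 7)]) (.leaf [(12, .cf 9 0 2 9 2 7), (3, .am 0 6 7 9 1 1), (2, .am 3 6 8 9 1 1), (6, .rt 9 0 2 9 1 2), (3, .am 5 6 8 9 1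 1), (3, .pl 1 9 6 5), (4, .am 3 6 7 8 1 1), (6, .rt 7 8 0 7 8 0), (10, .lf 6 8 9 9 6 8), (8, .am 6 7 8 9 1 1), (10, .lf 4 6 7 7 3 6), (6, .lf 3 5 6 6 3 5), (3, .pl 0 9 6 3), (3, .am 1 6 8 9 1 1), (6, .rt 6 7 9 6 7 9), (1, .am 3 6 7 9 1 1), (16, .ce 3 5 6 3 6 8), (6, .lf 5 7 8 8 5 7), (6, .rt 9 0 2 9 0 2), (6, .rt 8 9 1 8 9 1)]) (.leaf [(32, .ce 3 5 6 3 6 7), (5, .am 5 6 7 9 1 1), (10, .am 5 7 8 9 1 1), (8, .am 3 7 8 9 1 1), (4, .am 3 6 7 9 1 1), (20, .lf 5 7 8 8 5 7), (20, .cf 9 0 2 9 2 6), (15, .pl 1 9 6 5), (60, .rt 9 0 2 9 1 2), (20, .lf 3 5 6 6 3 4), (24, .rt 7 8 0 7 8 0), (24, .ce 3 5 6 3 6 8), (15, .am 1 6 7 9 1 1), (60, .rt 8 9 1 8 9 1), (24, .rt 9 0 2 9 0 2), (12, .pl 0 9 6 3), (20, .tb 4 1 2), (20, .lf 3 5 6 6 3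 5), (30, .am 1 7 8 9 1 1), (16, .lf 5 7 8 8 3 7), (12, .am 0 6 7 9 1 1), (64, .cf 9 0 2 9 2 7), (12, .am 6 7 8 9 1 1)]) (.leaf [(52, .am 4 6 7 8 1 1), (64, .ce 3 5 6 3 6 9), (56, .am 5 7 8 9 1 1), (1, .am 4 5 7 9 1 1), (72, .rt 9 0 2 9 0 2), (32, .am 4 6 8 9 1 1), (72, .cf 9 0 2 9 2 7), (24, .rt 6 7 9 6 7 9), (12, .am 0 6 7 9 1 1), (72, .ce 3 5 6 3 6 8), (136, .lf 5 7 8 8 5 7), (6, .am 0 5 6 7 1 1), (42, .am 4 5 6 7 1 1), (27, .am 0 5 7 9 1 1), (88, .c4 4), (12, .am 4 5 7 8 1 1), (33, .pl 0 9 5 4), (72, .rt 7 8 0 7 8 0), (88, .lf 4 6 7 7 4 6), (136, .lf 3 5 6 6 3 5)])) (.ch 4 (.leaf [(6, .am 4 5 7 8 1 1), (10, .rt 8 9 1 8 9 1), (8, .lf 3 5 6 6 3 5), (5, .am 3 6 8 9 1 1), (3, .am 4 7 8 9 1 1), (10, .cf 9 0 2 9 2 7), (10,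 .rt 9 0 2 9 0 2), (5, .am 3 5 6 7 1 1), (3, .am 0 5 6 7 1 1), (10, .rt 6 7 9 6 7 9), (4, .am 0 6 7 8 1 1), (15, .rt 4 5 7 3 5 7), (2, .rt 6 7 9 6 7 0), (9, .rt 4 5 7 4 5 7), (10, .cf 8 9 1 8 1 5), (3, .rt 7 8 0 7 8 0), (10, .am 3 5 7 8 1 1), (3, .pl 0 9 5 4), (3, .ce 3 5 6 3 6 8), (22, .lf 5 7 8 8 5 7), (5, .ce 3 5 6 3 9 0), (2, .am 0 7 8 9 1 1)]) (.leaf [(16, .ce 3 5 6 3 6 8), (6, .rt 7 8 0 7 8 0), (6, .rt 8 9 1 8 9 1), (6, .rt 6 7 9 6 7 9), (6, .rt 9 0 2 9 0 2), (3, .am 1 6 8 9 1 1), (6, .rt 9 0 2 9 1 2), (3, .am 0 6 7 9 1 1), (4, .am 3 6 7 8 1 1), (3, .am 5 6 8 9 1 1), (6, .lf 5 7 8 8 5 7), (12, .cf 9 0 2 9 2 7), (6, .lf 3 5 6 6 3 5), (10, .lf 4 6 7 7 3 6), (2, .am 3 6 8 9 1 1), (1, .am 3 6 7 9 1 1), (3, .pl 1 9 6 5),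 (10, .lf 6 8 9 9 6 8), (8, .am 6 7 8 9 1 1), (3, .pl 0 9 6 3)]) (.leaf [(12, .am 0 6 7 9 1 1), (12, .pl 0 9 6 3), (24, .ce 3 5 6 3 6 8), (8, .am 3 7 8 9 1 1), (20, .tb 4 1 2), (12, .am 6 7 8 9 1 1), (16, .lf 5 7 8 8 3 7), (20, .lf 3 5 6 6 3 4), (15, .pl 1 9 6 5), (30, .am 1 7 8 9 1 1), (20, .lf 3 5 6 6 3 5), (24, .rt 9 0 2 9 0 2), (20, .cf 9 0 2 9 2 6), (60, .rt 8 9 1 8 9 1), (15, .am 1 6 7 9 1 1), (20, .lf 5 7 8 8 5 7), (24, .rt 7 8 0 7 8 0), (60, .rt 9 0 2 9 1 2), (4, .am 3 6 7 9 1 1), (5, .am 5 6 7 9 1 1), (64, .cf 9 0 2 9 2 7), (32, .ce 3 5 6 3 6 7), (10, .am 5 7 8 9 1 1)]) (.leaf [(12, .am 4 5 7 8 1 1), (136, .lf 5 7 8 8 5 7), (27, .am 0 5 7 9 1 1), (6, .am 0 5 6 7 1 1), (1, .am 4 5 7 9 1 1), (72, .cf 9 0 2 9 2 7),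 (24, .rt 6 7 9 6 7 9), (72, .rt 7 8 0 7 8 0), (42, .am 4 5 6 7 1 1), (12, .am 0 6 7 9 1 1), (88, .lf 4 6 7 7 4 6), (56, .am 5 7 8 9 1 1), (32, .am 4 6 8 9 1 1), (88, .c4 4), (33, .pl 0 9 5 4), (72, .rt 9 0 2 9 0 2), (64, .ce 3 5 6 3 6 9), (72, .ce 3 5 6 3 6 8), (52, .am 4 6 7 8 1 1), (136, .lf 3 5 6 6 3 5)]))) (.pr 1 2 (.ch 4 (.leaf [(21, .rt 4 5 7 4 5 7), (10, .ce 3 5 6 3 9 0), (4, .rt 6 7 9 6 7 0), (20, .rt 8 9 1 8 9 1), (20, .cf 9 0 2 9 2 7), (6, .ce 3 5 6 3 6 8), (20, .rt 9 0 2 9 0 2), (20, .cf 8 9 1 8 1 5), (44, .lf 5 7 8 8 5 7), (20, .rt 6 7 9 6 7 9), (6, .rt 7 8 0 7 8 0), (4, .am 0 7 8 9 1 1), (6, .am 3 7 8 9 1 1), (7, .am 3 5 6 7 1 1), (20, .am 3 5 7 8 1 1), (3, .am 4 5 6 7 1 1), (6, .am 0 5 6 7 1 1), (6, .am 4 6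 8 9 1 1), (8, .am 0 6 7 8 1 1), (6, .pl 0 9 5 4), (12, .am 4 5 7 8 1 1), (4, .am 3 6 8 9 1 1), (16, .lf 3 5 6 6 3 5), (27, .rt 4 5 7 3 5 7)]) (.leaf [(3, .am 1 6 8 9 1 1), (6, .rt 8 9 1 8 9 1), (6, .rt 7 8 0 7 8 0), (6, .rt 6 7 9 6 7 9), (3, .am 0 6 7 9 1 1), (6, .rt 9 0 2 9 1 2), (10, .lf 4 6 7 7 3 6), (10, .lf 6 8 9 9 6 8), (6, .lf 5 7 8 8 5 7), (3, .pl 1 9 6 5), (16, .ce 3 5 6 3 6 8), (3, .am 5 6 8 9 1 1), (8, .am 6 7 8 9 1 1), (6, .rt 9 0 2 9 0 2), (6, .lf 3 5 6 6 3 5), (4, .am 3 6 7 8 1 1), (12, .cf 9 0 2 9 2 7), (3, .pl 0 9 6 3), (2, .am 3 6 8 9 1 1), (1, .am 3 6 7 9 1 1)]) (.leaf [(24, .rt 7 8 0 7 8 0), (60, .rt 9 0 2 9 1 2), (16, .lf 5 7 8 8 3 7), (20, .lf 3 5 6 6 3 4), (20, .lf 3 5 6 6 3 5), (15, .am 1 6 7 9 1 1),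 (4, .am 3 6 7 9 1 1), (12, .am 6 7 8 9 1 1), (15, .pl 1 9 6 5), (12, .am 0 6 7 9 1 1), (30, .am 1 7 8 9 1 1), (20, .lf 5 7 8 8 5 7), (64, .cf 9 0 2 9 2 7), (24, .ce 3 5 6 3 6 8), (5, .am 5 6 7 9 1 1), (32, .ce 3 5 6 3 6 7), (24, .rt 9 0 2 9 0 2), (20, .tb 4 1 2), (12, .pl 0 9 6 3), (10, .am 5 7 8 9 1 1), (8, .am 3 7 8 9 1 1), (20, .cf 9 0 2 9 2 6), (60, .rt 8 9 1 8 9 1)]) (.leaf [(33, .pl 0 9 5 4), (64, .ce 3 5 6 3 6 9), (72, .rt 9 0 2 9 0 2), (1, .am 4 5 7 9 1 1), (136, .lf 3 5 6 6 3 5), (27, .am 0 5 7 9 1 1), (24, .rt 6 7 9 6 7 9), (42, .am 4 5 6 7 1 1), (136, .lf 5 7 8 8 5 7), (32, .am 4 6 8 9 1 1), (88, .lf 4 6 7 7 4 6), (88, .c4 4), (52, .am 4 6 7 8 1 1), (72, .ce 3 5 6 3 6 8), (6, .am 0 5 6 7 1 1), (12, .am 0 6 7 9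 1 1), (56, .am 5 7 8 9 1 1), (12, .am 4 5 7 8 1 1), (72, .rt 7 8 0 7 8 0), (72, .cf 9 0 2 9 2 7)])) (.ch 4 (.leaf [(10, .rt 8 9 1 8 9 1), (3, .am 0 5 6 7 1 1), (5, .am 3 5 6 7 1 1), (5, .ce 3 5 6 3 9 0), (3, .ce 3 5 6 3 6 8), (2, .am 0 7 8 9 1 1), (10, .rt 6 7 9 6 7 9), (24, .rt 4 5 7 3 5 7), (16, .am 3 5 7 8 1 1), (8, .lf 3 5 6 6 3 5), (10, .cf 9 0 2 9 2 7), (10, .rt 9 0 2 9 0 2), (2, .rt 6 7 9 6 7 0), (22, .lf 5 7 8 8 5 7), (4, .am 0 6 7 8 1 1), (5, .am 3 6 8 9 1 1), (3, .rt 7 8 0 7 8 0), (3, .pl 0 9 5 3), (10, .cf 8 9 1 8 1 5), (3, .am 3 7 8 9 1 1)]) (.leaf [(6, .rt 6 7 9 6 7 9), (6, .rt 7 8 0 7 8 0), (3, .pl 0 9 6 3), (6, .lf 5 7 8 8 5 7), (3, .am 1 6 8 9 1 1), (6, .rt 8 9 1 8 9 1), (6, .rt 9 0 2 9 0 2), (10, .lf 4 6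 7 7 3 6), (4, .am 3 6 7 8 1 1), (6, .rt 9 0 2 9 1 2), (6, .lf 3 5 6 6 3 5), (3, .pl 1 9 6 5), (3, .am 5 6 8 9 1 1), (3, .am 0 6 7 9 1 1), (1, .am 3 6 7 9 1 1), (8, .am 6 7 8 9 1 1), (2, .am 3 6 8 9 1 1), (10, .lf 6 8 9 9 6 8), (16, .ce 3 5 6 3 6 8), (12, .cf 9 0 2 9 2 7)]) (.leaf [(12, .pl 0 9 6 3), (15, .pl 1 9 6 5), (24, .rt 7 8 0 7 8 0), (12, .am 0 6 7 9 1 1), (10, .am 5 7 8 9 1 1), (4, .am 3 6 7 9 1 1), (24, .rt 9 0 2 9 0 2), (20, .cf 9 0 2 9 2 6), (12, .am 6 7 8 9 1 1), (20, .lf 5 7 8 8 5 7), (24, .ce 3 5 6 3 6 8), (32, .ce 3 5 6 3 6 7), (30, .am 1 7 8 9 1 1), (15, .am 1 6 7 9 1 1), (16, .lf 5 7 8 8 3 7), (5, .am 5 6 7 9 1 1), (20, .tb 4 1 2), (60, .rt 8 9 1 8 9 1), (20, .lf 3 5 6 6 3 5), (20, .lf 3 5 6 6 3 4), (60,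 .rt 9 0 2 9 1 2), (8, .am 3 7 8 9 1 1), (64, .cf 9 0 2 9 2 7)]) (.leaf [(56, .am 5 7 8 9 1 1), (136, .lf 3 5 6 6 3 5), (136, .lf 5 7 8 8 5 7), (64, .ce 3 5 6 3 6 9), (27, .am 0 5 7 9 1 1), (72, .ce 3 5 6 3 6 8), (88, .c4 4), (88, .lf 4 6 7 7 4 6), (33, .pl 0 9 5 4), (52, .am 4 6 7 8 1 1), (1, .am 4 5 7 9 1 1), (42, .am 4 5 6 7 1 1), (72, .rt 7 8 0 7 8 0), (24, .rt 6 7 9 6 7 9), (32, .am 4 6 8 9 1 1), (72, .cf 9 0 2 9 2 7), (12, .am 0 6 7 9 1 1), (72, .rt 9 0 2 9 0 2), (6, .am 0 5 6 7 1 1), (12, .am 4 5 7 8 1 1)]))))))) (.leaf [(2, .cf 9 0 2 8 2 7), (2, .rt 9 0 2 9 0 2), (2, .lf 8 0 1 2 8 0), (1, .am 0 6 7 9 1 1), (2, .rt 7 8 0 7 8 0), (2, .rt 7 8 0 7 9 0), (2, .rt 6 7 9 6 7 9), (1, .pl 0 2 6 7), (1, .am 0 2 7 9 1 1)])) (.leaf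 [(1, .rt 6 7 9 6 7 9), (1, .pl 1 9 7 2), (1, .lf 7 9 0 1 7 9), (1, .pl 2 8 7 6), (1, .pl 2 9 8 6)])) (.leaf [(1, .lf 9 1 2 2 8 1), (1, .pl 2 9 8 6), (1, .rt 6 7 9 6 8 9), (1, .rt 6 7 9 6 7 1), (1, .lf 9 1 2 2 7 9), (1, .pl 1 2 6 7)])) (.pr 4 2 (.leaf [(1, .pl 0 5 7 9), (1, .lf 6 8 9 9 5 8), (2, .pl 3 7 8 9), (1, .lf 6 8 9 9 6 8), (1, .pl 0 7 6 4), (1, .pl 0 7 5 3), (1, .pl 3 6 5 4), (1, .rt 4 5 7 4 5 7), (1, .rt 4 5 7 3 6 7), (2, .rt 4 5 7 3 7 8), (1, .pl 0 6 7 9)]) (.pr 3 2 (.leaf [(3, .pl 3 5 6 7), (1, .pl 0 5 6 8), (1, .pl 1 8 9 4), (1, .lf 6 8 9 9 5 8), (3, .pl 1 7 3 4), (1, .lf 4 6 7 8 4 6), (1, .pl 3 4 5 9), (1, .rt 3 4 6 3 5 8), (1, .pl 0 8 1 3), (1, .pl 1 3 8 5), (4, .rt 3 4 6 3 4 6), (1, .pl 0 6 8 9), (3, .lf 4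 6 7 7 4 6), (1, .pl 1 3 9 6), (1, .pl 0 1 5 9), (3, .pl 1 9 7 5)]) (.pr 5 2 (.leaf [(1, .pl 1 6 8 3), (1, .pl 0 8 7 1), (2, .pl 1 8 6 5), (1, .lf 6 8 9 9 6 8), (2, .rt 5 6 8 5 6 8), (1, .pl 3 7 8 9), (1, .lf 6 8 9 0 6 8), (1, .pl 0 7 6 3), (1, .pl 1 6 7 9)]) (.pr 8 2 (.pr 9 2 (.pr 7 2 (.pr 1 2 (.pr 2 2 (.ch 5 (.leaf [(2, .am 0 6 7 8 1 1), (4, .ce 3 5 6 3 6 8), (4, .rt 9 0 2 9 0 2), (1, .am 3 6 8 9 1 1), (4, .rt 7 8 0 7 8 0), (2, .am 3 6 7 8 1 1), (2, .am 5 6 8 9 1 1), (2, .pl 0 9 6 5), (1, .am 0 6 8 9 1 1), (4, .lf 6 8 9 9 6 8), (4, .cf 9 0 2 9 2 6), (4, .lf 4 6 7 7 3 6), (1, .pl 0 9 6 3), (4, .rt 5 6 8 5 6 8)]) (.leaf [(4, .lf 6 8 9 9 6 8), (4, .ce 3 5 6 3 6 9), (4, .lf 5 7 8 8 3 7), (4, .lf 7 9 0 0 7 9), (4, .ce 3 5 6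 3 6 8), (3, .am 3 6 8 9 1 1), (4, .lf 4 6 7 7 3 6), (2, .am 0 6 7 8 1 1), (3, .pl 0 9 6 3), (1, .am 0 6 8 9 1 1), (2, .am 3 6 7 8 1 1)]) (.leaf [(96, .ce 3 5 6 3 6 8), (16, .cf 9 0 2 9 2 6), (11, .am 5 6 8 9 1 1), (6, .ta 5 1 2), (48, .rt 9 0 2 9 0 2), (16, .am 0 7 8 9 1 1), (64, .lf 4 6 7 7 3 6), (22, .am 0 6 7 8 1 1), (16, .am 3 6 8 9 1 1), (32, .am 3 6 7 8 1 1), (32, .lf 3 5 6 6 3 5), (14, .tb 5 1 2), (32, .cf 9 0 2 9 2 7), (11, .pl 0 9 6 5), (5, .am 0 6 8 9 1 1), (16, .pl 0 9 6 3), (10, .am 5 6 7 8 1 1), (48, .lf 6 8 9 9 6 8)]) (.leaf [(4, .rt 7 8 0 7 8 0), (2, .pl 0 9 6 3), (2, .am 3 6 8 9 1 1), (1, .am 0 6 8 9 1 1), (8, .ce 3 5 6 3 6 8), (1, .am 5 6 8 9 1 1), (6, .lf 6 8 9 9 6 8), (2, .c4 5), (4, .am 3 6 7 8 1 1),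 (2, .cf 9 0 2 9 2 6), (1, .pl 0 9 6 5), (2, .am 0 6 7 8 1 1), (2, .rt 9 0 2 9 0 2), (8, .lf 4 6 7 7 3 6), (2, .lf 5 7 8 8 5 7)])) (.ch 5 (.leaf [(2, .am 5 6 8 9 1 1), (2, .am 0 6 7 8 1 1), (2, .am 3 6 7 8 1 1), (4, .rt 7 8 0 7 8 0), (2, .pl 0 9 6 5), (4, .ce 3 5 6 3 6 8), (1, .pl 0 9 6 3), (1, .am 3 6 8 9 1 1), (1, .am 0 6 8 9 1 1), (4, .cf 9 0 2 9 2 6), (4, .lf 6 8 9 9 6 8), (4, .lf 4 6 7 7 3 6), (4, .rt 9 0 2 9 0 2), (4, .rt 5 6 8 5 6 8)]) (.leaf [(2, .am 3 6 7 8 1 1), (4, .lf 4 6 7 7 3 6), (2, .am 0 6 7 8 1 1), (1, .am 0 6 8 9 1 1), (4, .lf 6 8 9 9 6 8), (4, .lf 5 7 8 8 3 7), (3, .am 3 6 8 9 1 1), (4, .ce 3 5 6 3 6 8), (3, .pl 0 9 6 3), (4, .ce 3 5 6 3 6 9), (4, .lf 7 9 0 0 7 9)]) (.leaf [(32, .lf 3 5 6 6 3 5), (6, .ta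 5 1 2), (48, .rt 9 0 2 9 0 2), (64, .lf 4 6 7 7 3 6), (10, .am 5 6 7 8 1 1), (16, .cf 9 0 2 9 2 6), (32, .am 3 6 7 8 1 1), (11, .pl 0 9 6 5), (96, .ce 3 5 6 3 6 8), (16, .pl 0 9 6 3), (22, .am 0 6 7 8 1 1), (5, .am 0 6 8 9 1 1), (11, .am 5 6 8 9 1 1), (48, .lf 6 8 9 9 6 8), (14, .tb 5 1 2), (16, .am 0 7 8 9 1 1), (32, .cf 9 0 2 9 2 7), (16, .am 3 6 8 9 1 1)]) (.leaf [(6, .cf 9 0 2 9 2 6), (24, .ce 3 5 6 3 6 8), (1, .am 1 6 8 9 1 1), (6, .c4 5), (4, .am 0 6 7 8 1 1), (2, .am 0 6 8 9 1 1), (6, .am 3 6 8 9 1 1), (3, .am 5 6 8 9 1 1), (4, .rt 9 0 2 9 1 2), (2, .am 1 6 7 8 1 1), (12, .am 3 6 7 8 1 1), (2, .rt 9 0 2 9 0 2), (4, .rt 7 8 0 7 8 1), (6, .lf 5 7 8 8 5 7), (6, .pl 0 9 6 3), (24, .lf 4 6 7 7 3 6), (18, .lf 6 8 9 9 6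 8), (3, .pl 1 9 6 5), (8, .rt 7 8 0 7 8 0)]))) (.pr 2 2 (.ch 5 (.leaf [(3, .am 3 6 8 9 1 1), (4, .am 1 6 7 8 1 1), (8, .rt 7 8 0 7 8 1), (12, .ce 3 5 6 3 6 8), (12, .cf 9 0 2 9 2 6), (6, .am 5 6 8 9 1 1), (12, .rt 5 6 8 5 6 8), (2, .am 0 6 7 8 1 1), (6, .am 3 6 7 8 1 1), (4, .rt 7 8 0 7 8 0), (1, .am 0 6 8 9 1 1), (2, .am 1 6 8 9 1 1), (3, .pl 0 9 6 3), (6, .pl 1 9 6 5), (12, .lf 6 8 9 9 6 8), (12, .lf 4 6 7 7 3 6), (8, .rt 9 0 2 9 1 2), (4, .rt 9 0 2 9 0 2)]) (.leaf [(2, .am 3 6 7 8 1 1), (4, .ce 3 5 6 3 6 9), (4, .lf 5 7 8 8 3 7), (3, .pl 0 9 6 3), (2, .am 0 6 7 8 1 1), (4, .ce 3 5 6 3 6 8), (4, .lf 7 9 0 0 7 9), (3, .am 3 6 8 9 1 1), (4, .lf 6 8 9 9 6 8), (4, .lf 4 6 7 7 3 6), (1, .am 0 6 8 9 1 1)]) (.leaf [(16, .am 3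 6 8 9 1 1), (32, .am 3 6 7 8 1 1), (11, .am 5 6 8 9 1 1), (6, .ta 5 1 2), (48, .lf 6 8 9 9 6 8), (32, .lf 3 5 6 6 3 5), (32, .cf 9 0 2 9 2 7), (96, .ce 3 5 6 3 6 8), (16, .am 0 7 8 9 1 1), (22, .am 0 6 7 8 1 1), (48, .rt 9 0 2 9 0 2), (11, .pl 0 9 6 5), (5, .am 0 6 8 9 1 1), (14, .tb 5 1 2), (10, .am 5 6 7 8 1 1), (64, .lf 4 6 7 7 3 6), (16, .pl 0 9 6 3), (16, .cf 9 0 2 9 2 6)]) (.leaf [(4, .rt 7 8 0 7 8 0), (2, .c4 5), (2, .rt 9 0 2 9 0 2), (2, .lf 5 7 8 8 5 7), (8, .ce 3 5 6 3 6 8), (1, .am 0 6 8 9 1 1), (2, .pl 0 9 6 3), (8, .lf 4 6 7 7 3 6), (1, .pl 0 9 6 5), (4, .am 3 6 7 8 1 1), (6, .lf 6 8 9 9 6 8), (2, .cf 9 0 2 9 2 6), (2, .am 3 6 8 9 1 1), (2, .am 0 6 7 8 1 1), (1, .am 5 6 8 9 1 1)])) (.ch 5 (.leaf [(12, .rt 5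 6 8 5 6 8), (6, .am 5 6 8 9 1 1), (6, .am 3 6 7 8 1 1), (2, .am 1 6 8 9 1 1), (4, .rt 9 0 2 9 0 2), (8, .rt 9 0 2 9 1 2), (12, .cf 9 0 2 9 2 6), (3, .am 3 6 8 9 1 1), (2, .am 0 6 7 8 1 1), (4, .am 1 6 7 8 1 1), (8, .rt 7 8 0 7 8 1), (12, .lf 4 6 7 7 3 6), (12, .lf 6 8 9 9 6 8), (1, .am 0 6 8 9 1 1), (4, .rt 7 8 0 7 8 0), (12, .ce 3 5 6 3 6 8), (6, .pl 1 9 6 5), (3, .pl 0 9 6 3)]) (.leaf [(1, .am 0 6 8 9 1 1), (4, .ce 3 5 6 3 6 8), (4, .lf 7 9 0 0 7 9), (4, .ce 3 5 6 3 6 9), (2, .am 0 6 7 8 1 1), (3, .am 3 6 8 9 1 1), (4, .lf 5 7 8 8 3 7), (2, .am 3 6 7 8 1 1), (4, .lf 4 6 7 7 3 6), (4, .lf 6 8 9 9 6 8), (3, .pl 0 9 6 3)]) (.leaf [(32, .cf 9 0 2 9 2 7), (21, .lf 3 5 6 6 3 5), (16, .am 0 7 8 9 1 1), (48, .rt 9 0 2 9 0 2),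 (48, .lf 6 8 9 9 6 8), (6, .ta 5 1 2), (14, .tb 5 1 2), (5, .am 0 6 8 9 1 1), (22, .am 0 6 7 8 1 1), (32, .am 3 6 7 8 1 1), (11, .am 5 6 8 9 1 1), (27, .pl 0 9 6 3), (11, .lf 6 8 9 9 3 5), (16, .am 3 6 8 9 1 1), (16, .cf 9 0 2 9 2 6), (10, .am 5 6 7 8 1 1), (96, .ce 3 5 6 3 6 8), (64, .lf 4 6 7 7 3 6)]) (.leaf [(2, .pl 0 9 6 3), (8, .ce 3 5 6 3 6 8), (2, .c4 5), (6, .lf 6 8 9 9 6 8), (1, .am 5 6 8 9 1 1), (2, .am 0 6 7 8 1 1), (4, .am 3 6 7 8 1 1), (1, .am 0 6 8 9 1 1), (2, .lf 5 7 8 8 5 7), (8, .lf 4 6 7 7 3 6), (1, .pl 0 9 6 5), (2, .cf 9 0 2 9 2 6), (2, .rt 9 0 2 9 0 2), (2, .am 3 6 8 9 1 1), (4, .rt 7 8 0 7 8 0)])))) (.leaf [(1, .am 0 6 8 9 1 1), (4, .lf 5 7 8 8 3 7), (4, .ce 3 5 6 3 6 8), (4, .lf 4 6 7 7 3 6), (3, .pl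 0 9 6 3), (2, .am 0 6 7 8 1 1), (2, .am 3 6 7 8 1 1), (3, .am 3 6 8 9 1 1), (4, .ce 3 5 6 3 6 9), (4, .lf 6 8 9 9 6 8), (4, .lf 7 9 0 0 7 9)])) (.leaf [(1, .lf 9 1 2 2 9 1), (1, .pl 0 8 6 3), (1, .rt 8 9 1 8 9 1), (1, .pl 3 7 6 4), (1, .pl 0 6 2 3), (1, .pl 2 4 3 6), (1, .pl 0 2 7 9), (1, .pl 3 8 7 4), (1, .pl 1 2 8 4), (1, .pl 0 7 8 9)])) (.leaf [(4, .ce 3 5 6 3 6 9), (3, .am 1 6 7 9 1 1), (4, .lf 8 0 1 1 8 9), (1, .lf 8 0 1 1 7 9), (1, .ce 4 6 7 3 7 9), (4, .lf 5 7 8 8 5 7), (3, .lf 4 6 7 7 4 6), (2, .lf 6 8 9 9 6 8), (1, .lf 4 6 7 7 3 6), (1, .am 0 5 6 7 1 1), (2, .lf 6 8 9 0 6 8), (3, .pl 0 1 5 6), (3, .lf 8 0 1 1 7 0), (2, .am 0 5 7 8 1 1), (2, .am 1 7 8 9 1 1), (3, .ce 4 6 7 4 7 0), (4, .lf 3 5 6 6 3 5)])))))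

theorem ok_2337666543 : chk C2337666543 ⟨9293928776057163628509425670, [], [], [], [], []⟩ = true := by decide +kernel

end Pool.Agent.H146.TW
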