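import Pool.Agent.H292.TW.Chk3

/-!
Project TWELVE (helper221): certificate tree of one order pattern (helper146).
-/

set_option autoImplicit false
set_option maxRecDepth 100000

namespace Pool.Agent.H146.TW

open Pool.Agent.H292.TW.Chk

def C2357665443 : Tr :=
  .pr 6 2 (.pr 8 2 (.pr 9 2 (.pr 7 2 (.pr 3 2 (.pr 4 2 (.leaf [(12, .am 0 6 7 8 1 1), (30, .am 3 4 6 8 1 1), (52, .cf 8 9 1 8 1 6), (24, .rt 9 0 2 9 0 2), (15, .pl 0 9 4 3), (44, .am 4 6 7 9 1 1), (36, .rt 7 8 0 7 9 0), (88, .rt 6 7 9 6 7 9), (32, .am 4 6 7 8 1 1), (9, .am 0 4 8 9 1 1), (88, .rt 4 5 7 4 6 7), (48, .rt 7 8 0 7 8 0), (60, .rt 3 4 6 3 4 6), (15, .am 3 4 8 9 1 1), (24, .rt 4 5 7 4 6 8), (24, .cf 9 0 2 9 2 8), (52, .rt 8 9 1 8 9 1), (4, .am 4 7 8 9 1 1), (60, .cf 7 8 0 7 0 4),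 (6, .am 0 4 6 8 1 1)]) (.leaf [(1, .pl 0 5 4 3), (2, .pl 0 5 6 2), (1, .pl 1 7 3 4), (1, .pl 0 4 1 2), (1, .pl 1 3 2 5), (2, .pl 0 6 5 3), (1, .pl 2 4 6 7), (2, .rt 3 4 6 3 4 6), (1, .pl 0 1 5 7), (2, .lf 4 6 7 7 4 6), (1, .pl 2 5 6 7)])) (.pr 2 2 (.leaf [(1, .pl 1 2 6 5), (1, .lf 3 5 6 6 3 5), (1, .pl 1 6 2 4), (1, .pl 3 7 6 4), (1, .pl 2 3 4 7), (1, .rt 2 3 5 2 3 5)]) (.pr 5 2 (.leaf [(18, .rt 9 0 2 9 0 2), (4, .am 0 6 8 9 1 1), (20, .am 5 6 7 9 1 1), (20, .cf 8 9 1 8 1 6), (20, .rt 5 6 8 5 6 8), (8, .am 5 7 8 9 1 1), (2, .am 6 7 8 9 1 1), (14, .lf 2 4 5 5 2 3), (18, .pl 2 5 9 8), (2, .rt 8 9 1 8 0 1), (7, .pl 0 9 5 3), (10, .am 0 6 7 8 1 1), (20, .rt 7 8 0 7 8 0), (14, .cf 8 9 1 8 1 5), (7, .am 3 5 6 9 1 1), (32, .rt 8 9 1 8 9 1), (32, .rt 6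 7 9 6 7 9), (7, .am 0 5 6 9 1 1), (14, .lf 3 5 6 6 3 5), (32, .ce 2 4 5 2 5 7)]) (.leaf [(22, .am 3 5 7 8 1 1), (84, .rt 8 9 1 8 9 1), (16, .am 5 6 7 8 1 1), (36, .rt 7 8 0 7 9 0), (60, .am 5 6 7 9 1 1), (36, .rt 9 0 2 9 0 2), (27, .pl 0 9 5 3), (44, .am 3 5 6 7 1 1), (84, .cf 8 9 1 8 1 5), (188, .ce 2 4 5 2 5 7), (18, .am 0 5 7 8 1 1), (68, .lf 5 7 8 8 5 7), (12, .am 5 7 8 9 1 1), (120, .rt 6 7 9 6 7 9), (152, .lf 3 5 6 6 3 5), (36, .pl 2 5 9 8), (9, .am 0 5 8 9 1 1), (27, .am 3 5 8 9 1 1), (152, .lf 2 4 5 5 2 3), (32, .am 3 5 6 8 1 1)])))) (.leaf [(1, .pl 2 6 5 8), (1, .rt 6 7 9 6 7 9), (1, .pl 0 9 7 3), (1, .lf 7 9 0 0 7 9), (1, .pl 1 9 8 6), (1, .pl 1 7 9 4), (1, .pl 3 9 7 4), (1, .pl 1 2 7 6), (1, .pl 1 8 2 5)])) (.leaf [(1, .pl 0 8 2 3),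 (1, .pl 0 2 8 9), (1, .lf 9 1 2 2 9 1), (1, .rt 8 9 1 8 9 1), (1, .pl 1 2 8 3)])) (.leaf [(1, .rt 6 7 9 6 7 9), (1, .lf 8 0 1 1 7 9), (1, .pl 0 1 6 7), (1, .lf 8 0 1 1 8 0), (1, .pl 1 9 8 5), (1, .pl 5 9 8 6), (1, .rt 6 7 9 6 8 0)])) (.pr 3 2 (.leaf [(1, .pl 0 1 8 9), (1, .rt 3 4 6 3 4 8), (1, .pl 0 8 5 3), (1, .pl 0 5 1 3), (1, .lf 6 8 9 9 4 8), (1, .pl 1 9 3 4)]) (.pr 5 2 (.leaf [(1, .pl 3 7 6 5), (1, .pl 3 6 7 9), (1, .pl 5 7 8 9), (1, .rt 5 6 8 5 6 8), (1, .lf 6 8 9 9 6 8)]) (.pr 2 2 (.leaf [(1, .pl 4 7 6 5), (1, .pl 2 3 4 6), (1, .lf 3 5 6 6 3 5), (1, .rt 2 3 5 2 3 5), (1, .pl 2 4 5 7)]) (.pr 4 2 (.leaf [(1, .am 5 6 8 9 1 1), (1, .lf 3 5 6 7 3 5), (1, .ce 3 5 6 3 7 8), (1, .ce 3 5 6 3 6 8), (2, .lf 5 7 8 8 5 6), (1, .pl 3 5 8 9), (2, .lf 6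 8 9 9 6 8), (2, .rt 4 5 7 3 5 7), (1, .lf 3 5 6 6 3 5), (1, .am 3 5 7 8 1 1), (2, .lf 5 7 8 8 5 7)]) (.leaf [(16, .lf 5 7 8 8 5 7), (12, .lf 4 6 7 7 4 6), (12, .lf 2 4 5 5 2 4), (1, .am 5 7 8 9 1 1), (12, .ce 3 5 6 3 6 8), (16, .ce 2 4 5 2 5 7), (16, .lf 3 5 6 6 3 5), (4, .lf 2 4 5 5 2 3), (8, .am 5 6 7 8 1 1), (2, .am 5 6 7 9 1 1), (12, .lf 6 8 9 9 6 8), (1, .am 3 5 7 8 1 1), (6, .am 4 5 7 8 1 1), (4, .am 5 6 8 9 1 1), (1, .pl 3 5 8 9), (2, .am 3 5 6 7 1 1), (6, .pl 4 5 8 9)])))))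

theorem ok_2357665443 : chk C2357665443 ⟨9293924049078994740638150662, [], [], [], [], []⟩ = true := by decide +kernel

end Pool.Agent.H146.TW
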