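import Pool.Agent.H292.TW.Chk3

/-!
Project TWELVE (helper221): certificate tree of one order pattern (helper146).
-/

set_option autoImplicit false
set_option maxRecDepth 100000

namespace Pool.Agent.H146.TW

open Pool.Agent.H292.TW.Chk

def C2437656543_0 : Tr :=
  .pr 1 2 (.pr 2 2 (.ch 4 (.leaf [(30, .am 4 6 8 9 1 1), (2, .pl 0 9 5 3), (40, .pl 1 2 6 7), (160, .rt 1 2 4 1 2 4), (4, .am 3 6 7 8 1 1), (60, .am 2 4 8 7 1 1), (30, .pl 0 9 5 4), (8, .am 0 6 8 9 1 1), (16, .am 0 6 7 8 1 1), (32, .am 0 5 6 7 1 1), (80, .rt 6 7 9 6 7 9), (40, .rt 6 7 9 6 7 0), (2, .am 3 6 8 9 1 1), (80, .rt 9 0 2 9 0 2), (5, .rt 4 5 7 3 5 7), (3, .am 3 5 6 7 1 1), (40, .am 2 4 9 8 1 1), (80, .rt 8 9 1 8 9 2), (275, .rt 4 5 7 4 5 7), (160, .lf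 5 7 8 8 5 7), (120, .pl 1 2 4 5), (20, .pl 2 4 7 6), (80, .am 4 5 7 8 1 1), (40, .ce 4 6 7 4 9 0), (5, .am 4 5 6 7 1 1), (40, .pl 1 6 4 5), (120, .rt 2 3 5 2 4 5)]) (.ch 5 (.leaf [(4, .lf 6 8 9 9 6 8), (4, .rt 9 0 2 9 0 2), (1, .am 0 6 8 9 1 1), (3, .am 5 6 8 9 1 1), (2, .rt 7 8 0 7 9 0), (2, .cf 9 0 2 9 2 6), (3, .pl 0 9 6 5), (2, .am 0 6 7 8 1 1), (6, .rt 5 6 8 5 6 8), (2, .rt 6 7 9 6 7 9), (2, .cf 9 0 2 9 2 7), (2, .rt 7 8 0 7 8 0)]) (.leaf [(4, .lf 5 7 8 8 3 7), (5, .am 0 6 7 9 1 1), (4, .ce 3 5 6 3 6 9), (2, .am 6 7 8 9 1 1), (4, .lf 4 6 7 7 3 6), (2, .am 3 7 8 9 1 1), (5, .pl 0 9 6 3), (6, .rt 6 7 9 6 7 9), (3, .am 3 6 7 9 1 1), (4, .lf 6 8 9 9 6 8), (10, .lf 7 9 0 0 7 9), (4, .ce 3 5 6 3 6 8)]) (.leaf [(20, .lf 4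 6 7 7 3 6), (6, .am 5 6 8 9 1 1), (5, .pl 0 9 6 3), (36, .ce 3 5 6 3 6 8), (8, .am 0 7 8 9 1 1), (1, .am 0 6 8 9 1 1), (4, .rt 7 8 0 7 9 0), (6, .pl 0 9 6 5), (4, .tb 5 1 2), (4, .am 5 6 7 8 1 1), (16, .lf 3 5 6 6 3 5), (4, .ta 5 1 2), (5, .am 3 6 8 9 1 1), (20, .lf 6 8 9 9 6 8), (20, .cf 9 0 2 9 2 7), (20, .rt 9 0 2 9 0 2), (4, .rt 6 7 9 6 7 9), (10, .am 0 6 7 8 1 1), (10, .am 3 6 7 8 1 1)]) (.leaf [(2, .am 5 6 8 9 1 1), (2, .pl 0 9 6 5), (2, .lf 4 6 7 7 3 6), (4, .c4 5), (2, .rt 7 8 0 7 9 0), (1, .pl 0 9 6 3), (2, .rt 6 7 9 6 7 9), (6, .lf 6 8 9 9 6 8), (1, .am 3 6 7 9 1 1), (2, .ce 3 5 6 3 6 8), (1, .am 0 6 7 9 1 1), (4, .lf 5 7 8 8 5 6), (2, .rt 6 7 9 6 7 0)])) (.ch 5 (.leaf [(8, .am 5 7 8 9 1 1), (3, .ce 3 5 6 3 6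 8), (3, .tb 4 1 2), (9, .cf 8 9 1 8 1 6), (2, .am 0 6 7 8 1 1), (15, .rt 9 0 2 9 0 2), (6, .am 0 6 7 9 1 1), (15, .rt 7 8 0 7 8 0), (9, .cf 9 0 2 9 2 7), (6, .cf 9 0 2 9 2 6), (9, .rt 8 9 1 8 9 1), (4, .am 5 6 7 8 1 1), (1, .am 0 7 8 9 1 1), (12, .rt 5 6 8 5 6 8), (8, .pl 0 9 6 5), (3, .lf 3 5 6 6 3 4)]) (.leaf [(4, .cf 9 0 2 7 2 6), (3, .am 0 6 7 9 1 1), (2, .am 3 7 8 9 1 1), (8, .ce 3 5 6 3 6 7), (4, .tb 4 1 2), (1, .am 3 6 7 9 1 1), (2, .lf 7 9 0 2 7 9), (2, .am 2 7 8 9 1 1), (6, .lf 7 9 0 0 7 9), (4, .rt 8 9 1 8 9 2), (4, .lf 5 7 8 8 3 7), (3, .pl 0 9 6 3), (4, .lf 3 5 6 6 3 4)]) (.leaf [(186, .ce 3 5 6 3 6 8), (50, .ce 3 5 6 3 6 7), (78, .am 5 6 7 8 1 1), (186, .rt 9 0 2 9 0 2), (42, .am 0 7 8 9 1 1), (86, .cf 9 0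 2 7 2 6), (72, .pl 0 9 6 5), (72, .am 0 6 7 9 1 1), (150, .lf 3 5 6 6 3 5), (72, .am 5 7 8 9 1 1), (358, .cf 9 0 2 9 2 7), (258, .rt 8 9 1 8 9 2), (33, .ta 5 1 2), (51, .tb 5 1 2), (86, .tb 4 1 2), (43, .pl 2 9 7 6), (15, .am 6 7 8 9 1 1), (86, .lf 3 5 6 6 3 4), (129, .am 2 7 8 9 1 1)]) (.leaf [(1, .am 0 7 8 9 1 1), (2, .rt 8 9 1 8 9 1), (4, .cf 9 0 2 9 2 7), (3, .lf 5 7 8 8 5 7), (3, .c4 5), (2, .am 0 6 7 8 1 1), (2, .ce 3 5 6 3 6 7), (3, .rt 7 8 0 7 8 0), (1, .am 5 6 7 8 1 1), (4, .pl 2 9 8 6), (2, .tb 4 1 2), (2, .pl 0 9 6 5), (4, .rt 8 9 1 8 9 2), (2, .lf 3 5 6 6 3 4), (2, .cf 8 9 1 8 1 6), (2, .am 5 7 8 9 1 1)])) (.leaf [(168, .rt 7 8 0 7 8 0), (19, .am 0 5 2 8 1 1), (154, .c4 4), (168, .rt 9 0 2 9 0 2), (70, .rt 1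 2 4 1 2 4), (84, .lf 4 6 7 7 4 6), (98, .cf 9 0 2 9 2 7), (168, .lf 3 5 6 6 3 5), (70, .pl 1 2 4 5), (44, .pl 2 5 7 6), (7, .am 2 5 4 8 1 1), (78, .am 6 7 8 9 1 1), (42, .am 4 6 7 9 1 1), (98, .lf 5 7 8 8 5 7), (56, .pl 0 9 5 4), (10, .am 0 2 7 9 1 1), (154, .rt 6 7 9 6 7 9), (28, .am 0 2 8 9 1 1), (14, .am 2 4 9 8 1 1), (37, .am 0 5 6 8 1 1), (168, .ce 3 5 6 3 6 8), (34, .am 2 7 8 9 1 1), (70, .lf 5 7 8 8 5 6), (21, .am 4 5 6 8 1 1), (74, .am 0 6 7 9 1 1)])) (.leaf [(1, .pl 1 2 6 5), (1, .rt 1 2 4 1 2 4), (1, .pl 1 6 9 5), (1, .lf 2 4 5 5 2 4), (1, .pl 1 9 4 5)])) (.pr 2 2 (.ch 4 (.leaf [(153, .rt 4 5 7 4 5 7), (4, .am 3 7 8 9 1 1), (16, .pl 0 9 4 3), (39, .am 5 6 7 8 1 1), (24, .rt 6 7 9 6 7 9), (153, .lf 5 7 8 8 5 7),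 (12, .am 0 4 6 8 1 1), (48, .lf 1 3 4 4 1 3), (24, .rt 4 5 7 4 6 7), (30, .am 3 4 6 8 1 1), (9, .am 4 5 6 7 1 1), (8, .am 0 7 8 9 1 1), (48, .lf 3 5 6 6 3 5), (24, .rt 8 9 1 8 9 2), (24, .rt 6 7 9 6 7 0), (48, .ce 1 3 4 1 4 5), (24, .cf 9 0 2 9 2 7), (24, .cf 9 0 2 8 2 6), (4, .am 0 4 7 8 1 1), (2, .am 3 4 7 8 1 1), (96, .am 4 5 7 8 1 1), (12, .am 3 6 8 9 1 1), (24, .rt 9 0 2 9 0 2)]) (.ch 5 (.leaf [(4, .rt 9 0 2 9 0 2), (4, .lf 6 8 9 9 6 8), (2, .rt 6 7 9 6 7 9), (6, .rt 5 6 8 4 6 8), (2, .am 0 6 7 8 1 1), (2, .rt 7 8 0 7 9 0), (1, .am 0 6 8 9 1 1), (2, .rt 7 8 0 7 8 0), (3, .am 4 6 8 9 1 1), (2, .cf 9 0 2 9 2 7), (2, .cf 9 0 2 9 2 6), (3, .pl 0 9 6 4)]) (.leaf [(2, .am 3 7 8 9 1 1), (4, .lf 5 7 8 8 3 7), (4, .ce 3 5 6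 3 6 9), (5, .pl 0 9 6 3), (5, .am 0 6 7 9 1 1), (10, .lf 7 9 0 0 7 9), (6, .rt 6 7 9 6 7 9), (3, .am 3 6 7 9 1 1), (4, .lf 4 6 7 7 3 6), (4, .ce 3 5 6 3 6 8), (4, .lf 6 8 9 9 6 8), (2, .am 6 7 8 9 1 1)]) (.leaf [(10, .am 3 6 7 8 1 1), (20, .cf 9 0 2 9 2 7), (36, .ce 3 5 6 3 6 8), (4, .tb 5 1 2), (20, .lf 4 6 7 7 3 6), (4, .am 5 6 7 8 1 1), (5, .am 3 6 8 9 1 1), (6, .pl 0 9 6 5), (4, .ta 5 1 2), (8, .am 0 7 8 9 1 1), (16, .lf 3 5 6 6 3 5), (6, .am 5 6 8 9 1 1), (5, .pl 0 9 6 3), (20, .lf 6 8 9 9 6 8), (4, .rt 6 7 9 6 7 9), (20, .rt 9 0 2 9 0 2), (4, .rt 7 8 0 7 9 0), (1, .am 0 6 8 9 1 1), (10, .am 0 6 7 8 1 1)]) (.leaf [(2, .rt 6 7 9 6 7 0), (2, .lf 4 6 7 7 3 6), (1, .am 3 6 7 9 1 1), (4, .lf 5 7 8 8 5 6), (2, .rt 7 8 0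 7 9 0), (2, .rt 6 7 9 6 7 9), (1, .am 0 6 7 9 1 1), (2, .am 5 6 8 9 1 1), (4, .c4 5), (2, .ce 3 5 6 3 6 8), (6, .lf 6 8 9 9 6 8), (1, .pl 0 9 6 3), (2, .pl 0 9 6 5)])) (.ch 5 (.leaf [(6, .am 0 6 7 9 1 1), (8, .am 4 7 8 9 1 1), (15, .rt 9 0 2 9 0 2), (3, .lf 4 6 7 9 3 4), (3, .ce 3 5 6 3 6 8), (9, .rt 8 9 1 8 9 2), (12, .rt 5 6 8 4 6 8), (4, .am 4 6 7 8 1 1), (9, .cf 9 0 2 9 2 7), (9, .cf 9 0 2 8 2 6), (3, .tb 4 1 2), (6, .cf 9 0 2 9 2 6), (2, .am 0 6 7 8 1 1), (15, .rt 7 8 0 7 8 0), (1, .am 0 7 8 9 1 1), (3, .pl 0 9 6 3), (5, .pl 0 9 6 4)]) (.leaf [(3, .am 0 6 7 9 1 1), (1, .am 3 6 7 9 1 1), (6, .lf 7 9 0 0 7 9), (3, .pl 0 9 6 3), (4, .rt 8 9 1 8 9 2), (4, .tb 4 1 2), (2, .am 3 7 8 9 1 1), (4, .lf 5 7 8 8 3 7), (4, .cf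 9 0 2 7 2 6), (8, .ce 3 5 6 3 6 7), (2, .lf 7 9 0 2 7 9), (2, .am 2 7 8 9 1 1), (4, .lf 3 5 6 6 3 4)]) (.leaf [(186, .rt 9 0 2 9 0 2), (86, .lf 3 5 6 6 3 4), (72, .pl 0 9 6 5), (258, .rt 8 9 1 8 9 2), (72, .am 0 6 7 9 1 1), (72, .am 5 7 8 9 1 1), (358, .cf 9 0 2 9 2 7), (86, .tb 4 1 2), (78, .am 5 6 7 8 1 1), (150, .lf 3 5 6 6 3 5), (86, .cf 9 0 2 7 2 6), (129, .am 2 7 8 9 1 1), (51, .tb 5 1 2), (186, .ce 3 5 6 3 6 8), (43, .pl 2 9 7 6), (33, .ta 5 1 2), (42, .am 0 7 8 9 1 1), (50, .ce 3 5 6 3 6 7), (15, .am 6 7 8 9 1 1)]) (.leaf [(2, .cf 9 0 2 8 2 6), (2, .am 5 7 8 9 1 1), (3, .lf 5 7 8 8 5 7), (6, .rt 8 9 1 8 9 2), (2, .tb 4 1 2), (2, .lf 3 5 6 6 3 4), (4, .pl 2 9 8 6), (3, .c4 5), (4, .cf 9 0 2 9 2 7), (1, .am 0 7 8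 9 1 1), (3, .rt 7 8 0 7 8 0), (1, .am 5 6 7 8 1 1), (2, .pl 0 9 6 5), (2, .ce 3 5 6 3 6 7), (2, .am 0 6 7 8 1 1)])) (.leaf [(2, .am 0 4 5 8 1 1), (44, .lf 5 7 8 8 5 7), (2, .am 0 5 8 9 1 1), (11, .am 4 5 6 7 1 1), (16, .ce 3 5 6 3 6 9), (2, .am 0 6 8 9 1 1), (20, .am 5 7 8 9 1 1), (5, .am 6 7 8 9 1 1), (6, .am 0 6 7 8 1 1), (4, .am 4 5 6 8 1 1), (13, .rt 6 7 9 6 7 9), (6, .am 3 4 6 9 1 1), (12, .lf 1 3 4 4 1 3), (28, .cf 9 0 2 9 2 7), (12, .rt 9 0 2 9 1 2), (20, .am 4 6 7 9 1 1), (12, .pl 1 9 4 5), (2, .am 0 5 7 9 1 1), (16, .rt 9 0 2 9 0 2), (29, .c4 4), (4, .am 0 4 6 9 1 1), (44, .lf 3 5 6 6 3 5), (29, .lf 4 6 7 7 4 6), (16, .ce 3 5 6 3 6 8), (16, .rt 7 8 0 7 8 0), (6, .pl 0 9 4 3)])) (.ch 4 (.leaf [(3, .am 0 4 5 8 1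 1), (24, .am 3 4 6 8 1 1), (6, .am 4 5 6 7 1 1), (24, .rt 9 0 2 9 0 2), (24, .rt 4 5 7 4 6 7), (153, .lf 5 7 8 8 5 7), (24, .cf 8 9 1 8 1 6), (96, .am 4 5 7 8 1 1), (24, .rt 6 7 9 6 7 0), (8, .am 3 4 7 8 1 1), (16, .am 3 7 8 9 1 1), (24, .rt 6 7 9 6 7 9), (6, .am 0 5 8 9 1 1), (48, .ce 1 3 4 1 4 5), (16, .pl 0 9 4 3), (1, .am 0 4 7 8 1 1), (48, .lf 1 3 4 4 1 3), (12, .am 0 4 6 8 1 1), (48, .lf 3 5 6 6 3 5), (24, .cf 9 0 2 9 2 7), (2, .am 0 7 8 9 1 1), (30, .am 5 6 7 8 1 1), (153, .rt 4 5 7 4 5 7), (12, .am 5 6 7 9 1 1), (24, .rt 8 9 1 8 9 1)]) (.ch 5 (.leaf [(2, .cf 9 0 2 9 2 7), (2, .rt 7 8 0 7 8 0), (2, .rt 6 7 9 6 7 9), (2, .am 0 6 7 8 1 1), (2, .rt 7 8 0 7 9 0), (4, .rt 9 0 2 9 0 2), (3, .pl 0 9 6 5), (6, .rt 5 6 8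 5 6 8), (4, .lf 6 8 9 9 6 8), (3, .am 5 6 8 9 1 1), (2, .cf 9 0 2 9 2 6), (1, .am 0 6 8 9 1 1)]) (.leaf [(4, .lf 6 8 9 9 6 8), (10, .lf 7 9 0 0 7 9), (5, .am 0 6 7 9 1 1), (4, .ce 3 5 6 3 6 8), (5, .pl 0 9 6 3), (4, .lf 5 7 8 8 3 7), (4, .ce 3 5 6 3 6 9), (2, .am 6 7 8 9 1 1), (2, .am 3 7 8 9 1 1), (6, .rt 6 7 9 6 7 9), (4, .lf 4 6 7 7 3 6), (3, .am 3 6 7 9 1 1)]) (.leaf [(1, .am 0 6 8 9 1 1), (10, .lf 3 5 6 6 3 5), (4, .rt 7 8 0 7 9 0), (20, .lf 4 6 7 7 3 6), (11, .pl 0 9 6 3), (10, .am 0 6 7 8 1 1), (4, .rt 6 7 9 6 7 9), (10, .am 3 6 7 8 1 1), (20, .lf 6 8 9 9 6 8), (20, .rt 9 0 2 9 0 2), (6, .lf 4 6 7 9 3 5), (4, .ta 5 1 2), (36, .ce 3 5 6 3 6 8), (6, .am 5 6 8 9 1 1), (5, .am 3 6 8 9 1 1), (20, .cf 9 0 2 9 2 7), (8,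 .am 0 7 8 9 1 1), (4, .am 5 6 7 8 1 1), (4, .tb 5 1 2)]) (.leaf [(4, .lf 5 7 8 8 5 6), (1, .am 3 6 7 9 1 1), (6, .lf 6 8 9 9 6 8), (2, .rt 7 8 0 7 9 0), (2, .rt 6 7 9 6 7 9), (2, .rt 6 7 9 6 7 0), (1, .am 0 6 7 9 1 1), (1, .pl 0 9 6 3), (2, .lf 4 6 7 7 3 6), (2, .am 5 6 8 9 1 1), (2, .pl 0 9 6 5), (2, .ce 3 5 6 3 6 8), (4, .c4 5)])) (.ch 5 (.leaf [(1, .am 0 7 8 9 1 1), (6, .pl 0 9 6 5), (15, .rt 7 8 0 7 8 0), (1, .am 3 6 7 8 1 1), (3, .ce 3 5 6 3 6 8), (3, .am 5 6 7 8 1 1), (9, .cf 9 0 2 8 2 6), (2, .am 3 7 8 9 1 1), (6, .am 5 7 8 9 1 1), (9, .rt 8 9 1 8 9 2), (9, .cf 9 0 2 9 2 7), (3, .lf 4 6 7 8 3 4), (9, .rt 5 6 8 5 6 8), (6, .am 0 6 7 9 1 1), (3, .rt 5 6 8 4 6 8), (2, .pl 0 9 6 3), (15, .rt 9 0 2 9 0 2), (3, .tb 4 1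 2), (2, .am 0 6 7 8 1 1), (6, .cf 9 0 2 9 2 6)]) (.leaf [(6, .lf 7 9 0 0 7 9), (2, .am 3 7 8 9 1 1), (3, .am 0 6 7 9 1 1), (4, .lf 3 5 6 6 3 4), (4, .lf 5 7 8 8 3 7), (2, .am 1 7 8 9 1 1), (8, .ce 3 5 6 3 6 7), (3, .pl 0 9 6 3), (4, .rt 8 9 1 8 9 1), (4, .cf 7 8 0 7 1 6), (4, .tb 4 1 2), (1, .am 3 6 7 9 1 1), (2, .lf 7 9 0 1 7 9)]) (.leaf [(129, .am 2 7 8 9 1 1), (33, .ta 5 1 2), (358, .cf 9 0 2 9 2 7), (186, .rt 9 0 2 9 0 2), (150, .lf 3 5 6 6 3 5), (86, .lf 3 5 6 6 3 4), (15, .am 6 7 8 9 1 1), (72, .am 5 7 8 9 1 1), (42, .am 0 7 8 9 1 1), (72, .am 0 6 7 9 1 1), (78, .am 5 6 7 8 1 1), (72, .pl 0 9 6 5), (50, .ce 3 5 6 3 6 7), (51, .tb 5 1 2), (86, .tb 4 1 2), (258, .rt 8 9 1 8 9 2), (186, .ce 3 5 6 3 6 8), (86, .cf 9 0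 2 7 2 6), (43, .pl 2 9 7 6)]) (.leaf [(4, .rt 8 9 1 8 9 2), (1, .am 5 6 7 8 1 1), (2, .am 5 7 8 9 1 1), (2, .pl 0 9 6 5), (4, .pl 2 9 8 6), (3, .c4 5), (2, .lf 3 5 6 6 3 4), (2, .rt 8 9 1 8 9 1), (2, .am 0 6 7 8 1 1), (2, .cf 8 9 1 8 1 6), (2, .ce 3 5 6 3 6 7), (3, .rt 7 8 0 7 8 0), (2, .tb 4 1 2), (4, .cf 9 0 2 9 2 7), (3, .lf 5 7 8 8 5 7), (1, .am 0 7 8 9 1 1)])) (.leaf [(2, .am 0 6 8 9 1 1), (6, .am 3 4 6 9 1 1), (13, .rt 6 7 9 6 7 9), (6, .am 0 6 7 8 1 1), (16, .rt 9 0 2 9 0 2), (6, .pl 0 9 4 3), (28, .cf 9 0 2 9 2 7), (2, .am 0 4 5 8 1 1), (12, .lf 1 3 4 4 1 3), (2, .am 0 5 7 9 1 1), (16, .ce 3 5 6 3 6 8), (20, .am 5 7 8 9 1 1), (5, .am 6 7 8 9 1 1), (29, .lf 4 6 7 7 4 6), (4, .am 4 5 6 8 1 1), (29, .c4 4), (11, .am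 4 5 6 7 1 1), (12, .pl 1 9 4 5), (2, .am 0 5 8 9 1 1), (16, .ce 3 5 6 3 6 9), (44, .lf 3 5 6 6 3 5), (44, .lf 5 7 8 8 5 7), (12, .rt 9 0 2 9 1 2), (4, .am 0 4 6 9 1 1), (20, .am 4 6 7 9 1 1), (16, .rt 7 8 0 7 8 0)])))

def C2437656543 : Tr :=
  .pr 6 2 (.pr 9 2 (.pr 7 2 (.pr 4 2 (.leaf [(2, .rt 9 0 2 9 0 2), (2, .rt 6 7 9 6 7 9), (2, .rt 7 8 0 7 9 0), (2, .rt 4 5 7 4 6 7), (2, .cf 9 0 2 9 2 6), (1, .am 4 6 7 9 1 1), (1, .am 0 6 7 9 1 1), (1, .pl 0 9 6 4)]) (.pr 3 2 (.leaf [(1, .am 0 6 7 9 1 1), (2, .rt 7 8 0 7 9 0), (2, .rt 9 0 2 9 0 2), (2, .rt 6 7 9 6 7 9), (1, .pl 0 9 6 3), (2, .rt 3 4 6 3 6 7), (2, .cf 9 0 2 9 2 6), (1, .am 3 6 7 9 1 1)]) (.pr 8 2 (.pr 5 2 (.leaf [(7, .pl 0 9 6 5), (12, .rt 7 8 0 7 8 0), (3, .cf 9 0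 2 9 2 6), (4, .am 5 7 8 9 1 1), (2, .am 5 6 7 8 1 1), (12, .rt 5 6 8 5 6 8), (9, .rt 8 9 1 8 9 1), (3, .am 0 6 7 9 1 1), (9, .cf 8 9 1 8 1 6), (9, .rt 6 7 9 6 7 9), (3, .am 5 6 8 9 1 1), (4, .am 0 6 7 8 1 1), (9, .cf 9 0 2 9 2 7), (2, .am 0 7 8 9 1 1), (12, .rt 9 0 2 9 0 2)]) C2437656543_0) (.leaf [(1, .rt 9 0 2 9 0 2), (1, .cf 9 0 2 9 2 7), (1, .cf 9 0 2 8 2 7), (2, .lf 8 0 1 1 8 0), (1, .am 0 1 7 8 1 1), (1, .am 0 6 7 9 1 1), (2, .rt 7 8 0 7 8 0), (1, .rt 9 0 2 8 0 2), (2, .rt 7 8 0 7 9 0), (2, .rt 6 7 9 6 7 9), (1, .pl 0 1 6 7)])))) (.leaf [(1, .pl 0 9 8 4), (1, .pl 5 9 8 6), (1, .pl 2 8 7 6), (1, .pl 4 9 8 5), (1, .pl 0 8 7 2), (1, .rt 6 7 9 6 7 9), (1, .lf 7 9 0 0 7 9)])) (.leaf [(1, .pl 1 2 6 7), (1, .rt 6 7 9 6 0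 1), (1, .rt 6 7 9 6 7 0), (1, .lf 9 1 2 2 9 1), (1, .lf 9 1 2 2 7 9)])) (.pr 4 2 (.leaf [(1, .lf 6 8 9 9 5 8), (1, .rt 4 5 7 3 7 8), (1, .pl 0 5 1 9), (1, .pl 0 2 5 3), (1, .rt 4 5 7 3 5 7), (1, .pl 0 1 8 9), (1, .pl 0 8 2 3)]) (.pr 3 2 (.leaf [(1, .pl 0 8 6 3), (1, .pl 4 9 8 5), (1, .pl 2 3 8 6), (1, .lf 6 8 9 9 5 7), (1, .pl 0 7 5 3), (1, .pl 1 9 3 4), (2, .rt 3 4 6 3 6 7), (2, .rt 3 4 6 3 4 6), (1, .pl 0 2 1 3), (1, .pl 0 1 4 3), (1, .lf 6 8 9 0 6 8), (1, .lf 4 6 7 8 4 6), (1, .lf 6 8 9 0 4 7), (1, .rt 3 4 6 3 5 8), (1, .pl 0 5 2 8), (1, .pl 1 3 9 7)]) (.pr 5 2 (.leaf [(1, .lf 6 8 9 9 6 8), (1, .rt 5 6 8 5 6 8), (1, .pl 3 6 7 9), (1, .pl 3 7 6 4), (1, .pl 3 8 7 4), (1, .pl 3 7 8 9), (1, .pl 4 8 7 5), (1, .pl 4 7 6 5)])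 (.pr 7 2 (.pr 9 2 (.pr 8 2 (.pr 1 2 (.pr 2 2 (.ch 5 (.leaf [(2, .am 5 6 8 9 1 1), (4, .rt 9 0 2 9 0 2), (4, .rt 7 8 0 7 8 0), (4, .lf 4 6 7 7 3 6), (4, .ce 3 5 6 3 6 8), (1, .am 0 6 8 9 1 1), (4, .rt 5 6 8 5 6 8), (1, .am 3 6 8 9 1 1), (2, .pl 0 9 6 5), (1, .pl 0 9 6 3), (2, .am 0 6 7 8 1 1), (2, .am 3 6 7 8 1 1), (4, .lf 6 8 9 9 6 8), (4, .cf 9 0 2 9 2 6)]) (.leaf [(4, .lf 5 7 8 8 3 7), (4, .ce 3 5 6 3 6 9), (3, .am 3 6 8 9 1 1), (4, .ce 3 5 6 3 6 8), (1, .am 0 6 8 9 1 1), (2, .am 3 6 7 8 1 1), (3, .pl 0 9 6 3), (4, .lf 6 8 9 9 6 8), (4, .lf 4 6 7 7 3 6), (2, .am 0 6 7 8 1 1), (4, .lf 7 9 0 0 7 9)]) (.leaf [(16, .pl 0 9 6 3), (64, .lf 4 6 7 7 3 6), (48, .rt 9 0 2 9 0 2), (32, .am 3 6 7 8 1 1), (16, .am 3 6 8 9 1 1), (6,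 .ta 5 1 2), (11, .pl 0 9 6 5), (11, .am 5 6 8 9 1 1), (14, .tb 5 1 2), (22, .am 0 6 7 8 1 1), (48, .lf 6 8 9 9 6 8), (32, .cf 9 0 2 9 2 7), (5, .am 0 6 8 9 1 1), (96, .ce 3 5 6 3 6 8), (32, .lf 3 5 6 6 3 5), (10, .am 5 6 7 8 1 1), (16, .am 0 7 8 9 1 1), (16, .cf 9 0 2 9 2 6)]) (.leaf [(2, .cf 9 0 2 9 2 6), (1, .am 5 6 8 9 1 1), (2, .am 0 6 7 8 1 1), (4, .am 3 6 7 8 1 1), (4, .rt 7 8 0 7 8 0), (2, .am 3 6 8 9 1 1), (1, .am 0 6 8 9 1 1), (6, .lf 6 8 9 9 6 8), (8, .lf 4 6 7 7 3 6), (8, .ce 3 5 6 3 6 8), (2, .pl 0 9 6 3), (2, .c4 5), (2, .lf 5 7 8 8 5 7), (2, .rt 9 0 2 9 0 2), (1, .pl 0 9 6 5)])) (.leaf [(1, .pl 1 3 4 5), (1, .pl 1 2 6 5), (1, .lf 2 4 5 5 2 4), (1, .pl 1 7 3 5), (1, .rt 1 2 4 1 2 4), (1, .pl 1 6 7 5)])) (.pr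 2 2 (.ch 5 (.leaf [(1, .am 3 6 8 9 1 1), (1, .pl 0 9 6 3), (4, .ce 3 5 6 3 6 8), (4, .rt 9 0 2 9 0 2), (1, .am 0 6 8 9 1 1), (4, .cf 9 0 2 9 2 6), (4, .lf 4 6 7 7 3 6), (4, .lf 6 8 9 9 6 8), (2, .am 5 6 8 9 1 1), (2, .am 0 6 7 8 1 1), (2, .am 3 6 7 8 1 1), (4, .rt 7 8 0 7 8 0), (2, .pl 0 9 6 5), (4, .rt 5 6 8 5 6 8)]) (.leaf [(4, .lf 7 9 0 0 7 9), (2, .am 0 6 7 8 1 1), (4, .lf 6 8 9 9 6 8), (3, .pl 0 9 6 3), (1, .am 0 6 8 9 1 1), (3, .am 3 6 8 9 1 1), (4, .ce 3 5 6 3 6 8), (4, .lf 4 6 7 7 3 6), (4, .lf 5 7 8 8 3 7), (4, .ce 3 5 6 3 6 9), (2, .am 3 6 7 8 1 1)]) (.leaf [(11, .am 5 6 8 9 1 1), (22, .am 0 6 7 8 1 1), (16, .am 3 6 8 9 1 1), (32, .lf 3 5 6 6 3 5), (10, .am 5 6 7 8 1 1), (32, .cf 9 0 2 9 2 7), (48, .lf 6 8 9 9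 6 8), (5, .am 0 6 8 9 1 1), (64, .lf 4 6 7 7 3 6), (96, .ce 3 5 6 3 6 8), (11, .pl 0 9 6 5), (48, .rt 9 0 2 9 0 2), (16, .pl 0 9 6 3), (14, .tb 5 1 2), (16, .cf 9 0 2 9 2 6), (32, .am 3 6 7 8 1 1), (16, .am 0 7 8 9 1 1), (6, .ta 5 1 2)]) (.leaf [(2, .am 3 6 8 9 1 1), (4, .am 3 6 7 8 1 1), (2, .lf 5 7 8 8 5 7), (1, .am 5 6 8 9 1 1), (4, .rt 7 8 0 7 8 0), (2, .pl 0 9 6 3), (8, .lf 4 6 7 7 3 6), (1, .pl 0 9 6 5), (8, .ce 3 5 6 3 6 8), (6, .lf 6 8 9 9 6 8), (2, .rt 9 0 2 9 0 2), (2, .c4 5), (2, .am 0 6 7 8 1 1), (1, .am 0 6 8 9 1 1), (2, .cf 9 0 2 9 2 6)])) (.ch 5 (.leaf [(4, .ce 3 5 6 3 6 8), (4, .lf 4 6 7 7 3 6), (4, .lf 6 8 9 9 6 8), (4, .rt 7 8 0 7 8 0), (4, .cf 9 0 2 9 2 6), (4, .rt 9 0 2 9 0 2), (2, .am 5 6 8 9 1 1),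 (2, .am 0 6 7 8 1 1), (2, .am 3 6 7 8 1 1), (1, .am 3 6 8 9 1 1), (4, .rt 5 6 8 5 6 8), (1, .pl 0 9 6 3), (2, .pl 0 9 6 5), (1, .am 0 6 8 9 1 1)]) (.leaf [(4, .lf 4 6 7 7 3 6), (2, .am 0 6 7 8 1 1), (4, .lf 7 9 0 0 7 9), (3, .pl 0 9 6 3), (2, .am 3 6 7 8 1 1), (4, .lf 5 7 8 8 3 7), (4, .lf 6 8 9 9 6 8), (3, .am 3 6 8 9 1 1), (1, .am 0 6 8 9 1 1), (4, .ce 3 5 6 3 6 9), (4, .ce 3 5 6 3 6 8)]) (.leaf [(96, .ce 3 5 6 3 6 8), (32, .am 3 6 7 8 1 1), (14, .tb 5 1 2), (16, .pl 0 9 6 3), (10, .am 5 6 7 8 1 1), (16, .am 0 7 8 9 1 1), (48, .lf 6 8 9 9 6 8), (16, .cf 9 0 2 9 2 6), (64, .lf 4 6 7 7 3 6), (32, .cf 9 0 2 9 2 7), (11, .am 5 6 8 9 1 1), (11, .pl 0 9 6 5), (32, .lf 3 5 6 6 3 5), (22, .am 0 6 7 8 1 1), (6, .ta 5 1 2), (48,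 .rt 9 0 2 9 0 2), (5, .am 0 6 8 9 1 1), (16, .am 3 6 8 9 1 1)]) (.leaf [(2, .c4 5), (1, .am 5 6 8 9 1 1), (1, .pl 0 9 6 5), (2, .rt 9 0 2 9 0 2), (2, .am 0 6 7 8 1 1), (6, .lf 6 8 9 9 6 8), (2, .cf 9 0 2 9 2 6), (2, .pl 0 9 6 3), (4, .am 3 6 7 8 1 1), (2, .lf 5 7 8 8 5 7), (1, .am 0 6 8 9 1 1), (8, .lf 4 6 7 7 3 6), (4, .rt 7 8 0 7 8 0), (8, .ce 3 5 6 3 6 8), (2, .am 3 6 8 9 1 1)])))) (.leaf [(2, .lf 8 0 1 2 8 0), (1, .pl 0 9 6 3), (2, .am 3 6 7 8 1 1), (2, .rt 9 0 2 9 0 2), (4, .ce 3 5 6 3 6 8), (1, .cf 9 0 2 8 2 6), (1, .cf 7 8 0 7 2 6), (4, .rt 7 8 0 7 8 0), (1, .am 0 2 8 9 1 1), (1, .am 0 2 7 8 1 1), (2, .lf 6 8 9 9 6 8), (1, .am 3 6 8 9 1 1), (4, .lf 4 6 7 7 3 6), (1, .am 0 6 7 8 1 1)])) (.leaf [(1, .lf 6 8 9 0 6 8),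 (1, .am 3 6 7 8 1 1), (1, .pl 3 6 8 9), (2, .rt 7 8 0 7 8 0), (1, .pl 0 2 6 7), (2, .ce 3 5 6 3 6 8), (2, .lf 4 6 7 7 3 6), (1, .am 0 2 7 8 1 1), (1, .lf 6 8 9 9 6 8), (2, .lf 9 1 2 2 8 0)])) (.leaf [(3, .am 3 6 8 9 1 1), (4, .lf 5 7 8 8 3 7), (4, .lf 4 6 7 7 3 6), (4, .lf 7 9 0 0 7 9), (3, .pl 0 9 6 3), (1, .am 0 6 8 9 1 1), (2, .am 3 6 7 8 1 1), (2, .am 0 6 7 8 1 1), (4, .ce 3 5 6 3 6 9), (4, .lf 6 8 9 9 6 8), (4, .ce 3 5 6 3 6 8)])))))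

theorem ok_2437656543 : chk C2437656543 ⟨9293928776054911828695773190, [], [], [], [], []⟩ = true := by decide +kernel

end Pool.Agent.H146.TW
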