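import Pool.Agent.H292.TW.Chk3

/-!
Project TWELVE (helper221): certificate tree of one order pattern (helper146).
-/

set_option autoImplicit false
set_option maxRecDepth 100000

namespace Pool.Agent.H146.TW

open Pool.Agent.H292.TW.Chk

def C2447655543 : Tr :=
  .pr 7 2 (.pr 9 2 (.pr 8 2 (.pr 5 2 (.pr 6 2 (.leaf [(5, .pl 0 9 6 5), (9, .rt 7 8 0 7 8 0), (3, .am 5 6 8 9 1 1), (9, .rt 9 0 2 9 0 2), (1, .am 5 6 7 8 1 1), (3, .am 6 7 8 9 1 1), (9, .cf 8 9 1 8 1 6), (2, .am 0 6 7 8 1 1), (9, .cf 9 0 2 9 2 7), (2, .am 5 7 8 9 1 1), (1, .am 0 7 8 9 1 1), (3, .am 0 6 7 9 1 1), (9, .rt 6 7 9 6 7 9), (9, .rt 5 6 8 5 6 8), (9, .rt 8 9 1 8 9 1)]) (.leaf [(2, .rt 5 6 8 5 7 8), (2, .cf 9 0 2 9 2 7), (2, .lf 6 8 9 9 6 8), (2, .rt 5 6 8 3 6 8), (1,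 .rt 7 8 0 6 8 0), (2, .rt 9 0 2 9 0 2), (1, .pl 0 9 6 3), (1, .pl 0 9 7 5), (1, .rt 7 8 0 7 8 0), (1, .am 5 7 8 9 1 1), (1, .am 3 6 8 9 1 1)])) (.pr 3 2 (.leaf [(3, .rt 3 4 6 3 4 6), (1, .pl 0 6 7 9), (1, .pl 0 5 2 9), (1, .pl 0 2 7 8), (2, .pl 0 7 2 3), (2, .lf 5 7 8 8 4 7), (1, .lf 5 7 8 0 4 6), (3, .pl 3 5 6 9), (2, .rt 3 4 6 3 5 7), (2, .lf 5 7 8 9 5 6), (1, .pl 0 4 5 8), (1, .pl 5 9 8 7), (1, .pl 3 4 5 9), (2, .pl 0 2 4 3), (1, .pl 2 8 9 4)]) (.pr 2 2 (.leaf [(1, .pl 2 4 5 6), (1, .lf 3 5 6 6 3 5), (1, .pl 2 3 4 6), (1, .rt 2 3 5 2 3 5)]) (.pr 4 2 (.leaf [(1, .pl 1 3 4 5), (1, .lf 5 7 8 8 5 7), (1, .pl 0 1 5 3), (1, .pl 1 4 9 7), (1, .rt 4 5 7 4 5 7), (1, .pl 1 9 8 7), (1, .pl 0 5 1 8)]) (.pr 6 2 (.pr 1 2 (.leaf [(26, .am 1 7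 8 9 1 1), (10, .pl 2 9 5 6), (18, .ce 3 5 6 3 6 9), (5, .am 3 5 6 9 1 1), (10, .lf 2 4 5 5 2 3), (26, .rt 1 2 4 1 2 4), (2, .am 0 6 7 9 1 1), (16, .ce 3 5 6 3 6 8), (52, .rt 9 0 2 9 1 2), (24, .am 5 6 7 9 1 1), (78, .cf 9 0 2 9 2 7), (52, .rt 8 9 1 8 9 1), (44, .lf 5 7 8 8 5 7), (5, .am 0 5 6 9 1 1), (44, .lf 3 5 6 6 3 5), (26, .lf 2 4 5 5 2 4), (22, .am 5 7 8 9 1 1), (26, .pl 1 9 4 5), (34, .rt 6 7 9 6 7 9), (16, .rt 7 8 0 7 8 0), (26, .pl 1 2 7 5), (8, .am 0 6 7 8 1 1), (4, .am 0 7 8 9 1 1), (5, .pl 0 9 5 3), (16, .rt 9 0 2 9 0 2)]) (.leaf [(20, .ce 3 5 6 3 6 8), (6, .am 3 5 6 8 1 1), (40, .rt 6 7 9 6 7 9), (20, .rt 9 0 2 9 0 2), (8, .pl 1 9 4 5), (4, .ce 3 5 6 3 6 9), (5, .am 3 7 8 9 1 1), (10, .am 0 5 6 8 1 1), (16, .pl 1 9 7 6),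 (5, .am 0 4 5 7 1 1), (20, .am 0 6 7 8 1 1), (3, .am 3 4 5 7 1 1), (8, .lf 1 3 4 4 1 3), (15, .am 0 7 8 9 1 1), (88, .cf 9 0 2 9 2 7), (52, .rt 9 0 2 9 1 2), (5, .pl 0 9 4 3), (16, .am 1 7 8 9 1 1), (4, .am 3 6 7 8 1 1), (20, .rt 7 8 0 7 8 0), (12, .pl 1 9 8 6), (16, .pl 2 9 5 6), (16, .lf 4 6 7 7 4 5), (32, .lf 3 5 6 6 3 5), (16, .lf 2 4 5 5 2 4), (48, .lf 5 7 8 8 5 7), (8, .am 5 7 8 9 1 1), (44, .rt 8 9 1 8 9 1)])) (.leaf [(22, .lf 6 8 9 9 6 8), (36, .ce 3 5 6 3 6 8), (24, .lf 3 5 6 6 3 5), (16, .am 5 7 8 9 1 1), (3, .pl 0 9 5 4), (2, .am 0 6 8 9 1 1), (6, .lf 4 6 7 7 4 6), (2, .am 0 6 7 8 1 1), (14, .rt 9 0 2 9 0 2), (12, .am 5 6 7 8 1 1), (4, .pl 0 9 5 3), (5, .am 0 5 7 9 1 1), (6, .lf 2 4 5 5 2 4), (14, .rt 7 8 0 7 8 0), (2, .am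 0 5 6 8 1 1), (8, .am 3 6 7 8 1 1), (16, .lf 4 6 7 7 3 6), (3, .am 4 5 7 9 1 1), (10, .pl 2 9 5 6), (4, .lf 2 4 5 5 2 3), (4, .am 3 6 8 9 1 1), (24, .cf 9 0 2 9 2 7), (24, .lf 5 7 8 8 5 7)])))))) (.leaf [(1, .rt 7 8 0 7 8 0), (1, .pl 0 1 2 9), (1, .lf 8 0 1 1 8 0), (1, .pl 0 2 7 9), (1, .pl 1 9 8 7)])) (.leaf [(1, .lf 9 1 2 2 9 1), (1, .pl 1 2 7 9), (1, .lf 9 1 2 2 8 9), (1, .rt 7 8 0 7 8 1), (1, .pl 2 9 8 7)])) (.pr 3 2 (.leaf [(1, .lf 7 9 0 0 5 7), (1, .pl 0 7 2 3), (1, .rt 3 4 6 3 5 8), (1, .pl 0 2 4 3), (1, .pl 0 9 5 3), (1, .rt 3 4 6 3 6 7), (1, .lf 7 9 0 0 4 9), (1, .rt 3 4 6 3 8 9), (1, .rt 3 4 6 3 4 6)]) (.pr 5 2 (.leaf [(1, .rt 5 6 8 5 6 9), (1, .lf 7 9 0 0 6 7), (1, .lf 7 9 0 0 7 9), (1, .pl 0 9 6 5)]) (.pr 4 2 (.leaf [(4,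 .lf 5 7 8 9 5 6), (3, .pl 0 8 5 4), (2, .lf 3 5 6 6 3 5), (4, .lf 7 9 0 0 6 8), (8, .lf 5 7 8 8 5 7), (1, .am 0 5 7 8 1 1), (2, .lf 7 9 0 0 7 9), (2, .am 0 5 6 9 1 1), (4, .ce 3 5 6 3 7 8), (3, .am 4 5 7 8 1 1), (6, .rt 4 5 7 4 5 7), (4, .lf 3 5 6 7 3 5), (2, .ce 3 5 6 3 6 9)]) (.pr 6 2 (.leaf [(1, .am 0 6 7 8 1 1), (1, .lf 5 7 8 9 3 7), (1, .am 0 6 7 9 1 1), (2, .lf 7 9 0 0 7 9), (1, .pl 0 9 6 3), (2, .rt 6 7 9 6 7 9), (1, .pl 0 8 6 3), (2, .ce 3 5 6 3 6 8), (2, .lf 7 9 0 0 7 8), (1, .lf 5 7 8 8 3 7)]) (.leaf [(4, .ce 3 5 6 3 6 9), (2, .am 0 6 7 8 1 1), (1, .am 0 6 8 9 1 1), (4, .lf 6 8 9 9 6 8), (4, .lf 5 7 8 8 3 7), (3, .am 3 6 8 9 1 1), (4, .lf 7 9 0 0 7 9), (4, .lf 4 6 7 7 3 6), (3, .pl 0 9 6 3), (2, .am 3 6 7 8 1 1), (4, .ce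 3 5 6 3 6 8)])))))

theorem ok_2447655543 : chk C2447655543 ⟨9293928771443225810335494150, [], [], [], [], []⟩ = true := by decide +kernel

end Pool.Agent.H146.TW
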