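import Pool.Agent.H292.TW.Chk3

/-!
Project TWELVE (helper221): certificate tree of one order pattern (helper146).
-/

set_option autoImplicit false
set_option maxRecDepth 100000

namespace Pool.Agent.H146.TW

open Pool.Agent.H292.TW.Chk

def C2547654543 : Tr :=
  .pr 7 2 (.pr 9 2 (.pr 8 2 (.pr 3 2 (.pr 5 2 (.pr 4 2 (.leaf [(1, .am 3 5 7 8 1 1), (27, .rt 7 8 0 7 8 0), (10, .am 0 5 7 8 1 1), (10, .cf 7 8 0 7 0 4), (5, .pl 0 9 4 3), (8, .rt 8 9 1 8 9 2), (5, .am 3 5 6 8 1 1), (3, .am 3 7 8 9 1 1), (10, .cf 9 0 2 9 2 7), (5, .cf 7 8 0 6 0 5), (10, .rt 9 0 2 9 0 2), (7, .cf 7 8 0 7 0 5), (8, .cf 9 0 2 8 2 7), (4, .am 4 5 7 9 1 1), (30, .rt 5 6 8 5 7 8), (8, .rt 5 6 8 5 6 9), (5, .am 0 7 8 9 1 1), (5, .rt 7 8 0 6 8 0), (12, .rt 4 5 7 4 5 7),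 (5, .am 0 4 5 7 1 1), (3, .am 3 4 5 7 1 1), (2, .am 3 4 7 9 1 1), (2, .rt 5 6 8 5 6 8), (10, .rt 3 4 6 3 4 6)]) (.leaf [(6, .cf 9 0 2 9 2 7), (3, .am 3 4 8 9 1 1), (1, .am 3 7 8 9 1 1), (7, .rt 5 6 8 4 6 8), (6, .rt 5 6 8 5 7 8), (15, .cf 7 8 0 7 0 5), (15, .rt 3 4 6 3 4 6), (6, .rt 9 0 2 9 0 2), (5, .am 3 4 7 8 1 1), (6, .cf 9 0 2 8 2 7), (15, .rt 3 4 6 3 5 6), (3, .am 3 5 7 8 1 1), (4, .am 0 5 7 8 1 1), (8, .am 3 5 6 7 1 1), (21, .rt 7 8 0 7 8 0), (15, .lf 4 6 7 7 4 6), (6, .rt 8 9 1 8 9 2), (2, .am 0 7 8 9 1 1), (6, .rt 5 6 8 4 7 9), (7, .am 3 4 6 7 1 1), (8, .rt 5 6 8 5 6 8), (4, .pl 0 9 5 3)])) (.leaf [(1, .pl 3 4 5 9), (1, .lf 5 7 8 0 4 6), (1, .lf 5 7 8 8 4 7), (1, .pl 0 6 1 8), (1, .pl 4 9 8 6), (1, .pl 1 9 8 7), (1, .pl 0 1 4 3),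 (2, .rt 3 4 6 3 4 7), (1, .lf 5 7 8 8 5 7), (1, .pl 0 7 1 3), (1, .pl 0 6 5 3), (1, .pl 0 1 7 9), (1, .pl 3 5 7 8), (1, .rt 3 4 6 3 5 6), (1, .pl 0 5 6 9)])) (.pr 2 2 (.leaf [(1, .pl 1 5 3 2), (1, .pl 1 3 5 6), (1, .lf 3 5 6 6 3 5), (1, .rt 2 3 5 2 3 5)]) (.pr 1 2 (.leaf [(10, .pl 1 7 5 6), (24, .pl 1 2 7 8), (3, .am 0 2 1 5 1 1), (4, .pl 0 9 6 4), (24, .lf 3 5 6 6 3 4), (12, .ce 3 5 6 3 6 9), (12, .rt 9 0 2 9 0 2), (6, .am 4 6 7 8 1 1), (4, .am 0 1 2 8 1 1), (6, .pl 1 2 4 6), (3, .pl 0 9 5 4), (36, .rt 7 8 0 7 8 0), (7, .am 2 4 9 8 1 1), (12, .rt 9 0 2 9 1 2), (4, .am 0 6 7 8 1 1), (12, .pl 1 9 5 6), (24, .lf 2 4 5 5 2 4), (24, .cf 7 8 0 7 0 5), (9, .am 1 2 4 5 1 1), (2, .am 0 1 7 8 1 1), (8, .am 2 6 4 8 1 1), (48, .rt 1 2 4 1 2 4), (24,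 .lf 3 5 6 6 3 5), (5, .am 0 2 8 9 1 1), (12, .rt 8 9 1 8 9 1), (36, .ce 3 5 6 3 6 8), (2, .pl 1 2 5 6), (12, .am 1 5 4 7 1 1)]) (.pr 5 2 (.pr 6 2 (.leaf [(297, .rt 7 8 0 7 9 0), (748, .am 5 6 7 9 1 1), (968, .lf 3 5 6 6 3 5), (2200, .ce 1 3 4 1 4 6), (1100, .lf 2 4 5 5 2 4), (99, .rt 8 9 1 8 9 2), (702, .am 3 5 6 8 1 1), (1100, .ce 2 4 5 2 5 6), (488, .pl 0 9 4 3), (275, .cf 9 0 2 8 2 7), (436, .am 3 4 5 6 1 1), (1496, .rt 6 7 9 6 7 9), (748, .am 0 6 7 8 1 1), (683, .am 0 7 8 9 1 1), (968, .cf 7 8 0 7 0 5), (3300, .rt 5 6 8 5 6 8), (488, .am 0 4 5 6 1 1), (154, .am 3 5 7 8 1 1), (88, .am 2 3 9 8 1 1), (1100, .pl 1 4 8 7), (968, .lf 1 3 4 4 1 3), (16, .am 3 5 7 9 1 1), (1100, .rt 8 9 1 8 9 1), (176, .am 4 5 6 8 1 1), (1221, .cf 9 0 2 9 2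 7), (132, .lf 1 3 4 4 1 2), (358, .am 0 5 7 9 1 1), (618, .am 0 5 6 8 1 1), (88, .am 2 4 9 8 1 1), (1529, .rt 9 0 2 9 0 2), (44, .am 2 4 3 9 1 1), (3300, .rt 7 8 0 7 8 0), (340, .am 3 7 8 9 1 1), (1100, .cf 7 8 0 7 0 4)]) (.leaf [(5, .rt 7 8 0 6 8 0), (6, .lf 6 8 9 9 5 8), (15, .rt 5 6 8 5 6 8), (2, .am 3 4 5 6 1 1), (3, .lf 6 8 9 9 6 8), (15, .rt 5 6 8 5 7 8), (6, .lf 1 3 4 4 1 3), (5, .am 0 5 7 9 1 1), (1, .am 0 4 5 6 1 1), (6, .ce 2 4 5 1 5 6), (15, .rt 9 0 2 9 0 2), (5, .am 5 6 8 9 1 1), (4, .am 3 5 6 9 1 1), (4, .pl 0 9 4 3), (6, .lf 6 8 9 9 4 8), (6, .lf 2 4 5 5 1 4), (15, .cf 9 0 2 9 2 7), (3, .am 0 5 6 9 1 1), (10, .am 5 7 8 9 1 1), (6, .lf 3 5 6 6 3 5), (6, .ce 1 3 4 1 4 6), (10, .rt 7 8 0 7 8 0), (3, .am 0 4 5 9 1 1)])) (.pr 4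 2 (.leaf [(21, .cf 9 0 2 8 2 7), (26, .am 3 4 6 8 1 1), (8, .am 0 2 8 9 1 1), (87, .lf 5 7 8 8 5 7), (60, .lf 1 3 4 4 1 3), (30, .am 1 5 4 8 1 1), (12, .am 0 4 6 8 1 1), (24, .rt 9 0 2 9 0 2), (24, .rt 8 9 1 8 9 1), (12, .am 3 4 8 9 1 1), (4, .am 0 4 2 8 1 1), (3, .am 2 5 4 8 1 1), (12, .rt 4 5 7 4 5 7), (2, .am 2 4 3 8 1 1), (24, .rt 4 5 7 4 5 9), (33, .lf 5 7 8 8 5 6), (30, .ce 2 4 5 1 5 6), (4, .am 3 4 7 8 1 1), (8, .lf 3 5 6 7 3 5), (24, .rt 4 5 7 4 5 8), (52, .lf 3 5 6 6 3 5), (3, .ce 2 4 5 2 5 6), (8, .am 4 5 7 8 1 1), (19, .am 4 5 6 8 1 1), (4, .am 2 3 9 8 1 1), (16, .pl 0 9 4 3), (24, .rt 7 8 0 6 8 0), (54, .cf 8 9 1 8 1 7)]) (.leaf [(358, .am 3 4 6 8 1 1), (488, .pl 0 9 4 3), (1496, .lf 4 6 7 7 4 6), (33, .rt 9 0 2 9 1 2), (2200,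 .cf 9 0 2 9 2 7), (968, .rt 9 0 2 9 0 2), (683, .am 3 4 5 6 1 1), (297, .lf 3 5 6 6 3 4), (154, .am 0 5 6 8 1 1), (33, .ce 2 4 5 1 5 6), (748, .am 4 6 7 8 1 1), (16, .am 0 4 6 8 1 1), (1100, .cf 8 9 1 8 1 7), (1463, .ce 1 3 4 1 4 6), (1100, .ce 3 5 6 3 6 9), (618, .am 3 5 7 8 1 1), (44, .am 0 4 6 9 1 1), (968, .ce 3 5 6 3 6 8), (3300, .lf 5 7 8 8 5 7), (436, .am 0 7 8 9 1 1), (1529, .lf 1 3 4 4 1 3), (1199, .pl 2 9 5 6), (1199, .lf 2 4 5 5 2 4), (428, .am 0 4 5 6 1 1), (702, .am 0 5 7 8 1 1), (968, .rt 7 8 0 7 8 0), (748, .am 3 5 6 7 1 1), (488, .am 3 7 8 9 1 1), (176, .am 5 7 8 9 1 1), (33, .am 1 5 4 9 1 1), (55, .am 4 5 6 9 1 1), (1100, .rt 8 9 1 8 9 1), (3300, .lf 3 5 6 6 3 5)])))))) (.leaf [(1, .pl 1 9 8 7), (1, .pl 0 2 7 9), (1, .lf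 8 0 1 1 8 0), (1, .rt 7 8 0 7 8 0), (1, .pl 0 1 2 9)])) (.leaf [(1, .rt 7 8 0 7 0 1), (1, .pl 2 9 8 7), (1, .pl 0 7 2 1), (1, .pl 0 2 7 9), (1, .lf 9 1 2 2 8 9), (1, .lf 9 1 2 2 9 1), (1, .rt 7 8 0 7 8 0)])) (.pr 3 2 (.leaf [(1, .pl 0 7 5 3), (1, .lf 7 9 0 0 4 9), (1, .pl 0 9 8 3), (1, .pl 0 6 4 3), (1, .lf 7 9 0 0 5 6), (1, .rt 3 4 6 3 5 8), (1, .rt 3 4 6 3 4 6), (1, .pl 0 8 7 3), (1, .rt 3 4 6 3 8 9)]) (.pr 5 2 (.leaf [(1, .pl 0 8 2 3), (1, .pl 3 9 8 4), (1, .pl 0 7 6 3), (1, .pl 2 3 4 6), (1, .pl 4 9 7 5), (2, .rt 5 6 8 5 6 9), (2, .lf 7 9 0 0 6 9), (1, .pl 0 2 1 3), (2, .pl 1 4 5 6), (1, .pl 0 8 7 4), (1, .pl 1 5 4 2), (1, .pl 2 5 3 9), (1, .pl 0 1 6 4), (2, .pl 0 9 8 3), (1, .pl 1 5 3 7)]) (.pr 6 2 (.leaf [(1, .pl 0 9 6 3), (1, .pl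 0 8 6 3), (2, .ce 3 5 6 3 6 8), (1, .lf 5 7 8 8 3 7), (1, .am 0 6 7 9 1 1), (1, .am 0 6 7 8 1 1), (1, .lf 5 7 8 9 3 7), (2, .lf 7 9 0 0 7 9), (2, .lf 7 9 0 0 7 8), (2, .rt 6 7 9 6 7 9)]) (.pr 4 2 (.leaf [(12, .rt 4 5 7 3 5 7), (36, .lf 5 7 8 8 5 7), (24, .rt 4 5 7 4 5 8), (24, .ce 3 5 6 3 7 9), (3, .pl 0 9 5 3), (24, .lf 6 8 9 9 5 8), (24, .lf 3 5 6 7 3 5), (9, .am 4 5 8 9 1 1), (4, .am 4 7 8 9 1 1), (8, .am 0 7 8 9 1 1), (3, .am 3 5 8 9 1 1), (24, .lf 7 9 0 0 7 9), (6, .am 3 5 7 8 1 1), (16, .am 0 5 7 8 1 1), (13, .pl 0 9 5 4), (2, .am 4 5 7 8 1 1)]) (.leaf [(4, .lf 5 7 8 8 3 7), (1, .am 0 6 8 9 1 1), (3, .pl 0 9 6 3), (4, .lf 7 9 0 0 7 9), (4, .lf 4 6 7 7 3 6), (4, .ce 3 5 6 3 6 8), (2, .am 0 6 7 8 1 1), (4, .lf 6 8 9 9 6 8), (4, .ce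 3 5 6 3 6 9), (2, .am 3 6 7 8 1 1), (3, .am 3 6 8 9 1 1)])))))

theorem ok_2547654543 : chk C2547654543 ⟨9293928769137382801121865734, [], [], [], [], []⟩ = true := by decide +kernel

end Pool.Agent.H146.TW
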