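import Pool.Agent.H292.TW.Chk3

/-!
Project TWELVE (helper221): certificate tree of one order pattern (helper146).
-/

set_option autoImplicit false
set_option maxRecDepth 100000

namespace Pool.Agent.H146.TW

open Pool.Agent.H292.TW.Chk

def C3323676654_0 : Tr :=
  .pr 3 2 (.pr 1 2 (.ch 5 (.leaf [(21, .ce 4 6 7 4 7 0), (56, .cf 0 1 3 0 3 8), (84, .lf 6 8 9 9 6 8), (14, .am 2 7 8 9 1 1), (56, .rt 0 1 3 0 2 3), (18, .pl 0 2 5 6), (35, .rt 7 8 0 7 8 0), (12, .am 2 6 7 8 1 1), (21, .lf 4 6 7 7 4 6), (9, .am 5 6 7 8 1 1), (28, .am 0 2 8 9 1 1), (63, .rt 5 6 8 5 6 8), (18, .am 0 5 7 9 1 1), (56, .rt 9 0 2 9 0 2), (36, .am 5 6 8 9 1 1), (10, .am 0 2 7 9 1 1), (6, .am 2 6 8 9 1 1)]) (.leaf [(3, .am 0 1 7 8 1 1), (6, .rt 8 9 1 8 9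 1), (6, .rt 0 1 3 0 1 3), (6, .lf 6 8 9 9 6 8), (3, .am 0 6 7 9 1 1), (5, .am 0 5 7 8 1 1), (10, .rt 0 1 3 0 2 3), (10, .lf 7 9 0 0 7 9), (12, .am 0 7 8 9 1 1), (16, .cf 0 1 3 0 3 8), (10, .rt 7 8 0 7 8 0), (10, .lf 5 7 8 8 5 7), (5, .pl 0 2 5 7), (3, .pl 0 1 6 7), (10, .lf 4 6 7 7 4 5), (5, .am 0 2 7 9 1 1), (6, .lf 4 6 7 7 4 6), (10, .rt 9 0 2 9 0 2), (16, .ce 4 6 7 4 7 9)]) (.leaf [(12, .am 0 1 7 8 1 1), (15, .pl 0 2 6 7), (12, .am 0 7 8 9 1 1), (36, .lf 6 8 9 9 6 8), (20, .lf 4 6 7 7 4 5), (24, .ce 4 6 7 4 7 9), (30, .am 0 2 8 9 1 1), (60, .rt 9 0 2 9 0 2), (36, .lf 4 6 7 7 4 6), (64, .cf 0 1 3 0 3 8), (12, .pl 0 1 6 7), (9, .am 0 6 7 8 1 1), (20, .tb 5 1 2), (15, .am 0 2 7 8 1 1), (60, .rt 0 1 3 0 2 3), (20, .cf 0 1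 3 0 3 7), (24, .rt 0 1 3 0 1 3), (32, .ce 4 6 7 4 7 8), (24, .rt 8 9 1 8 9 1), (18, .am 0 6 8 9 1 1)]) (.leaf [(96, .ce 4 6 7 4 7 9), (8, .am 2 6 7 8 1 1), (120, .c4 5), (43, .pl 0 1 5 6), (120, .lf 5 7 8 8 5 7), (54, .am 5 6 7 8 1 1), (15, .am 0 5 6 8 1 1), (24, .rt 9 0 2 9 0 2), (20, .am 0 1 7 8 1 1), (8, .pl 0 2 5 6), (72, .am 5 7 8 9 1 1), (96, .ce 4 6 7 4 7 0), (48, .rt 7 8 0 7 8 0), (96, .rt 8 9 1 8 9 1), (33, .am 0 1 6 8 1 1), (120, .cf 0 1 3 0 3 8), (10, .am 1 6 7 8 1 1), (96, .am 0 6 8 9 1 1), (4, .am 0 2 7 8 1 1), (192, .lf 6 8 9 9 6 8), (96, .rt 0 1 3 0 1 3), (12, .am 0 2 7 9 1 1), (192, .lf 4 6 7 7 4 6), (36, .am 0 5 7 9 1 1), (24, .rt 0 1 3 0 2 3)])) (.ch 1 (.ch 5 (.leaf [(36, .am 5 6 8 9 1 1), (28, .am 0 2 8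 9 1 1), (21, .lf 4 6 7 7 4 6), (63, .rt 5 6 8 5 6 8), (56, .rt 9 0 2 9 0 2), (9, .am 5 6 7 8 1 1), (56, .rt 0 1 3 0 2 3), (6, .am 2 6 8 9 1 1), (10, .am 0 2 7 9 1 1), (35, .rt 7 8 0 7 8 0), (84, .lf 6 8 9 9 6 8), (21, .ce 4 6 7 4 7 0), (18, .pl 0 2 5 6), (56, .cf 0 1 3 0 3 8), (18, .am 0 5 7 9 1 1), (14, .am 2 7 8 9 1 1), (12, .am 2 6 7 8 1 1)]) (.leaf [(16, .rt 0 1 3 0 2 3), (6, .lf 6 8 9 9 6 8), (3, .am 0 6 7 9 1 1), (6, .rt 8 9 1 8 9 2), (5, .am 0 2 7 9 1 1), (10, .rt 7 8 0 7 8 0), (10, .lf 7 9 0 0 7 9), (16, .ce 4 6 7 4 7 9), (16, .cf 0 1 3 0 3 8), (10, .lf 5 7 8 8 5 7), (10, .lf 4 6 7 7 4 5), (3, .pl 0 2 6 7), (3, .am 0 2 7 8 1 1), (6, .lf 4 6 7 7 4 6), (12, .am 0 7 8 9 1 1), (5, .pl 0 2 5 7), (10, .rt 9 0 2 9 0 2),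 (5, .am 0 5 7 8 1 1)]) (.leaf [(30, .am 0 2 8 9 1 1), (60, .rt 0 1 3 0 2 3), (15, .pl 0 2 6 7), (12, .pl 0 1 6 7), (36, .lf 4 6 7 7 4 6), (24, .rt 0 1 3 0 1 3), (18, .am 0 6 8 9 1 1), (15, .am 0 2 7 8 1 1), (20, .cf 0 1 3 0 3 7), (24, .ce 4 6 7 4 7 9), (32, .ce 4 6 7 4 7 8), (20, .lf 4 6 7 7 4 5), (36, .lf 6 8 9 9 6 8), (20, .tb 5 1 2), (60, .rt 9 0 2 9 0 2), (24, .rt 8 9 1 8 9 1), (64, .cf 0 1 3 0 3 8), (9, .am 0 6 7 8 1 1), (12, .am 0 1 7 8 1 1), (12, .am 0 7 8 9 1 1)]) (.leaf [(32, .rt 0 1 3 0 1 3), (4, .am 0 2 7 9 1 1), (64, .lf 4 6 7 7 4 6), (14, .pl 0 1 5 6), (40, .cf 0 1 3 0 3 8), (32, .rt 8 9 1 8 9 1), (40, .c4 5), (1, .am 0 2 6 8 1 1), (24, .am 5 7 8 9 1 1), (64, .lf 6 8 9 9 6 8), (16, .rt 7 8 0 7 8 0), (40, .lf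 5 7 8 8 5 7), (10, .am 0 1 6 8 1 1), (32, .am 0 6 8 9 1 1), (2, .am 2 6 7 8 1 1), (5, .am 0 5 6 8 1 1), (32, .ce 4 6 7 4 7 0), (8, .rt 0 1 3 0 2 3), (12, .am 0 5 7 9 1 1), (18, .am 5 6 7 8 1 1), (8, .am 0 1 7 8 1 1), (8, .rt 9 0 2 9 0 2), (4, .am 1 6 7 8 1 1), (32, .ce 4 6 7 4 7 9), (3, .pl 0 2 5 6)])) (.ch 5 (.leaf [(56, .rt 9 0 2 9 0 2), (28, .am 0 2 8 9 1 1), (6, .am 2 6 8 9 1 1), (56, .cf 0 1 3 0 3 8), (10, .am 0 2 7 9 1 1), (63, .rt 5 6 8 5 6 8), (21, .lf 4 6 7 7 4 6), (36, .am 5 6 8 9 1 1), (35, .rt 7 8 0 7 8 0), (84, .lf 6 8 9 9 6 8), (18, .pl 0 2 5 6), (18, .am 0 5 7 9 1 1), (12, .am 2 6 7 8 1 1), (9, .am 5 6 7 8 1 1), (56, .rt 0 1 3 0 2 3), (14, .am 2 7 8 9 1 1), (21, .ce 4 6 7 4 7 0)]) (.leaf [(5, .pl 0 2 5 7),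 (6, .lf 6 8 9 9 6 8), (5, .am 0 2 7 9 1 1), (6, .rt 0 1 3 0 1 3), (16, .ce 4 6 7 4 7 9), (3, .am 0 6 7 9 1 1), (5, .am 0 5 7 8 1 1), (3, .am 0 1 7 8 1 1), (16, .cf 0 1 3 0 3 8), (10, .lf 7 9 0 0 7 9), (10, .rt 9 0 2 9 0 2), (12, .am 0 7 8 9 1 1), (3, .pl 0 1 6 7), (6, .lf 4 6 7 7 4 6), (10, .lf 4 6 7 7 4 5), (10, .lf 5 7 8 8 5 7), (10, .rt 7 8 0 7 8 0), (6, .rt 8 9 1 8 9 1), (10, .rt 0 1 3 0 2 3)]) (.leaf [(12, .pl 0 1 5 7), (24, .rt 8 9 1 8 9 1), (20, .cf 0 1 3 0 3 7), (12, .am 0 7 8 9 1 1), (60, .rt 0 1 3 0 2 3), (18, .am 0 5 8 9 1 1), (64, .cf 0 1 3 0 3 8), (9, .am 0 5 7 8 1 1), (24, .rt 0 1 3 0 1 3), (36, .lf 6 8 9 9 5 8), (15, .am 0 2 7 8 1 1), (32, .ce 4 6 7 4 7 8), (56, .lf 4 6 7 7 4 5), (12, .am 0 1 7 8 1 1), (20,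 .tb 5 1 2), (60, .rt 9 0 2 9 0 2), (30, .am 0 2 8 9 1 1), (24, .ce 4 6 7 4 7 9), (15, .pl 0 2 5 7)]) (.leaf [(3, .pl 0 2 5 6), (32, .rt 0 1 3 0 1 3), (40, .cf 0 1 3 0 3 8), (14, .pl 0 1 5 6), (32, .ce 4 6 7 4 7 0), (32, .am 0 6 8 9 1 1), (8, .rt 9 0 2 9 0 2), (8, .am 0 1 7 8 1 1), (40, .c4 5), (4, .am 0 2 7 9 1 1), (64, .lf 6 8 9 9 6 8), (5, .am 0 5 6 8 1 1), (10, .am 0 1 6 8 1 1), (32, .rt 8 9 1 8 9 1), (16, .rt 7 8 0 7 8 0), (1, .am 0 2 6 8 1 1), (8, .rt 0 1 3 0 2 3), (2, .am 2 6 7 8 1 1), (4, .am 1 6 7 8 1 1), (40, .lf 5 7 8 8 5 7), (12, .am 0 5 7 9 1 1), (32, .ce 4 6 7 4 7 9), (18, .am 5 6 7 8 1 1), (64, .lf 4 6 7 7 4 6), (24, .am 5 7 8 9 1 1)])) (.ch 5 (.leaf [(2, .am 0 6 7 8 1 1), (2, .rt 9 0 2 9 0 2), (5, .lf 6 8 9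 9 6 8), (2, .rt 0 1 3 0 1 3), (1, .am 0 5 6 9 1 1), (2, .pl 0 1 5 6), (7, .rt 5 6 8 5 6 8), (4, .am 5 6 8 9 1 1), (2, .rt 7 8 0 7 8 0), (2, .cf 9 0 2 9 2 6), (2, .lf 4 6 7 7 4 6), (1, .am 0 5 8 9 1 1), (2, .c3 1 0 0 1), (2, .pl 0 7 3 4)]) (.leaf [(3, .am 0 6 7 9 1 1), (10, .rt 7 8 0 7 8 0), (3, .am 0 1 7 8 1 1), (16, .ce 4 6 7 4 7 9), (5, .am 0 5 7 8 1 1), (5, .am 0 2 7 9 1 1), (16, .cf 0 1 3 0 3 8), (6, .lf 6 8 9 9 6 8), (6, .rt 8 9 1 8 9 1), (5, .pl 0 2 5 7), (10, .lf 5 7 8 8 5 7), (10, .lf 4 6 7 7 4 5), (6, .rt 0 1 3 0 1 3), (10, .lf 7 9 0 0 7 9), (6, .lf 4 6 7 7 4 6), (3, .pl 0 1 6 7), (10, .rt 0 1 3 0 2 3), (12, .am 0 7 8 9 1 1), (10, .rt 9 0 2 9 0 2)]) (.leaf [(60, .rt 0 1 3 0 2 3), (30, .am 0 2 8 9 1 1), (60, .rt 9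 0 2 9 0 2), (15, .pl 0 2 6 7), (12, .pl 0 1 6 7), (9, .am 0 6 7 8 1 1), (12, .am 0 7 8 9 1 1), (20, .lf 4 6 7 7 4 5), (36, .lf 6 8 9 9 6 8), (24, .rt 0 1 3 0 1 3), (12, .am 0 1 7 8 1 1), (36, .lf 4 6 7 7 4 6), (64, .cf 0 1 3 0 3 8), (20, .tb 5 1 2), (18, .am 0 6 8 9 1 1), (20, .cf 0 1 3 0 3 7), (24, .ce 4 6 7 4 7 9), (24, .rt 8 9 1 8 9 1), (15, .am 0 2 7 8 1 1), (32, .ce 4 6 7 4 7 8)]) (.leaf [(42, .ce 4 6 7 4 7 9), (102, .lf 4 6 7 7 4 6), (30, .rt 0 1 3 0 1 3), (22, .am 5 6 7 9 1 1), (21, .am 0 2 7 8 1 1), (42, .rt 8 9 1 8 9 2), (11, .am 0 5 7 9 1 1), (48, .am 0 7 8 9 1 1), (36, .rt 7 8 0 7 8 0), (30, .pl 0 7 3 4), (7, .am 0 2 7 9 1 1), (30, .c3 1 0 0 1), (30, .ce 4 6 7 4 7 0), (66, .lf 5 7 8 8 5 7), (72, .lf 6 8 9 9 6 8),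 (14, .am 2 6 7 9 1 1), (33, .am 0 5 7 8 1 1), (30, .pl 0 1 5 6), (66, .c4 5), (42, .cf 0 1 3 0 3 8), (42, .rt 0 1 3 0 2 3), (14, .pl 0 2 5 6)])) (.ch 5 (.leaf [(6, .am 2 6 8 9 1 1), (18, .am 0 5 7 9 1 1), (63, .rt 5 6 8 5 6 8), (84, .lf 6 8 9 9 6 8), (21, .ce 4 6 7 4 7 0), (56, .rt 0 1 3 0 2 3), (18, .pl 0 2 5 6), (56, .rt 9 0 2 9 0 2), (56, .cf 0 1 3 0 3 8), (12, .am 2 6 7 8 1 1), (28, .am 0 2 8 9 1 1), (14, .am 2 7 8 9 1 1), (21, .lf 4 6 7 7 4 6), (9, .am 5 6 7 8 1 1), (10, .am 0 2 7 9 1 1), (35, .rt 7 8 0 7 8 0), (36, .am 5 6 8 9 1 1)]) (.leaf [(10, .rt 9 0 2 9 0 2), (10, .rt 7 8 0 7 8 0), (5, .am 0 2 7 9 1 1), (5, .am 0 5 7 8 1 1), (6, .rt 0 1 3 0 1 3), (6, .lf 6 8 9 9 6 8), (10, .rt 0 1 3 0 2 3), (3, .am 0 6 7 9 1 1),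 (3, .pl 0 1 6 7), (6, .rt 8 9 1 8 9 1), (16, .ce 4 6 7 4 7 9), (10, .lf 4 6 7 7 4 5), (6, .lf 4 6 7 7 4 6), (3, .am 0 1 7 8 1 1), (10, .lf 5 7 8 8 5 7), (12, .am 0 7 8 9 1 1), (5, .pl 0 2 5 7), (10, .lf 7 9 0 0 7 9), (16, .cf 0 1 3 0 3 8)]) (.leaf [(24, .rt 0 1 3 0 1 3), (36, .lf 6 8 9 9 6 8), (20, .tb 5 1 2), (12, .pl 0 1 6 7), (30, .am 0 2 8 9 1 1), (9, .am 0 6 7 8 1 1), (12, .am 0 7 8 9 1 1), (12, .am 0 1 7 8 1 1), (32, .ce 4 6 7 4 7 8), (60, .rt 9 0 2 9 0 2), (36, .lf 4 6 7 7 4 6), (64, .cf 0 1 3 0 3 8), (20, .lf 4 6 7 7 4 5), (15, .am 0 2 7 8 1 1), (24, .ce 4 6 7 4 7 9), (18, .am 0 6 8 9 1 1), (20, .cf 0 1 3 0 3 7), (60, .rt 0 1 3 0 2 3), (24, .rt 8 9 1 8 9 1), (15, .pl 0 2 6 7)]) (.leaf [(12, .am 0 5 7 9 1 1), (16,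 .rt 7 8 0 7 8 0), (18, .am 5 6 7 8 1 1), (24, .am 5 7 8 9 1 1), (4, .am 0 2 7 9 1 1), (40, .c4 5), (8, .am 0 1 7 8 1 1), (8, .rt 9 0 2 9 0 2), (11, .am 0 2 6 8 1 1), (13, .pl 0 2 5 6), (5, .am 0 5 6 8 1 1), (32, .am 0 6 8 9 1 1), (32, .ce 4 6 7 4 7 0), (2, .am 2 6 7 8 1 1), (64, .lf 6 8 9 9 6 8), (64, .lf 4 6 7 7 4 6), (40, .lf 5 7 8 8 5 7), (32, .ce 4 6 7 4 7 9), (4, .pl 0 1 5 6), (20, .rt 8 9 1 8 9 2), (12, .rt 0 1 3 0 1 3), (4, .am 1 6 7 8 1 1), (40, .cf 0 1 3 0 3 8), (28, .rt 0 1 3 0 2 3), (12, .rt 8 9 1 8 9 1)])))) (.pr 1 2 (.ch 5 (.leaf [(56, .rt 0 1 3 0 2 3), (10, .am 0 2 7 9 1 1), (63, .rt 5 6 8 5 6 8), (21, .lf 4 6 7 7 4 6), (18, .am 0 5 7 9 1 1), (9, .am 5 6 7 8 1 1), (35, .rt 7 8 0 7 8 0), (36, .am 5 6 8 9 1 1),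 (28, .am 0 2 8 9 1 1), (21, .ce 4 6 7 4 7 0), (56, .cf 0 1 3 0 3 8), (84, .lf 6 8 9 9 6 8), (6, .am 2 6 8 9 1 1), (14, .am 2 7 8 9 1 1), (12, .am 2 6 7 8 1 1), (18, .pl 0 2 5 6), (56, .rt 9 0 2 9 0 2)]) (.leaf [(10, .rt 0 1 3 0 2 3), (3, .pl 0 2 6 7), (6, .rt 8 9 1 8 9 1), (10, .lf 4 6 7 7 4 5), (10, .lf 7 9 0 0 7 9), (10, .rt 7 8 0 7 8 0), (3, .am 0 1 7 8 1 1), (5, .am 0 5 7 8 1 1), (10, .rt 9 0 2 9 0 2), (5, .am 0 2 7 9 1 1), (16, .ce 4 6 7 4 7 9), (6, .lf 4 6 7 7 4 6), (16, .cf 0 1 3 0 3 8), (12, .am 0 7 8 9 1 1), (2, .pl 0 2 5 7), (3, .pl 0 1 5 7), (3, .am 0 6 7 9 1 1), (6, .lf 6 8 9 9 6 8), (10, .lf 5 7 8 8 5 7), (6, .rt 0 1 3 0 1 3)]) (.leaf [(20, .cf 0 1 3 0 3 7), (12, .am 0 7 8 9 1 1), (24, .rt 0 1 3 0 1 3), (12,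 .am 0 1 7 8 1 1), (12, .pl 0 1 6 7), (32, .ce 4 6 7 4 7 8), (24, .ce 4 6 7 4 7 9), (30, .am 0 2 8 9 1 1), (60, .rt 0 1 3 0 2 3), (36, .lf 6 8 9 9 6 8), (20, .tb 5 1 2), (18, .am 0 6 8 9 1 1), (60, .rt 9 0 2 9 0 2), (9, .am 0 6 7 8 1 1), (36, .lf 4 6 7 7 4 6), (64, .cf 0 1 3 0 3 8), (24, .rt 8 9 1 8 9 1), (20, .lf 4 6 7 7 4 5), (15, .am 0 2 7 8 1 1), (15, .pl 0 2 6 7)]) (.leaf [(8, .rt 9 0 2 9 0 2), (18, .am 5 6 7 8 1 1), (22, .rt 8 9 1 8 9 1), (24, .am 5 7 8 9 1 1), (10, .rt 8 9 1 8 9 2), (8, .am 0 2 7 8 1 1), (40, .cf 0 1 3 0 3 8), (6, .pl 0 2 5 6), (40, .c4 5), (11, .am 0 1 6 8 1 1), (11, .pl 0 1 5 6), (40, .lf 5 7 8 8 5 7), (32, .ce 4 6 7 4 7 0), (22, .rt 0 1 3 0 1 3), (32, .am 0 6 8 9 1 1), (18, .rt 0 1 3 0 2 3), (12,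 .am 0 5 7 9 1 1), (6, .am 2 6 7 8 1 1), (4, .am 0 2 7 9 1 1), (64, .lf 6 8 9 9 6 8), (5, .am 0 5 6 8 1 1), (32, .ce 4 6 7 4 7 9), (16, .rt 7 8 0 7 8 0), (64, .lf 4 6 7 7 4 6)])) (.ch 5 (.leaf [(28, .am 0 2 8 9 1 1), (56, .cf 0 1 3 0 3 8), (6, .am 2 6 8 9 1 1), (36, .am 5 6 8 9 1 1), (84, .lf 6 8 9 9 6 8), (21, .lf 4 6 7 7 4 6), (12, .am 2 6 7 8 1 1), (63, .rt 5 6 8 5 6 8), (9, .am 5 6 7 8 1 1), (18, .pl 0 2 5 6), (35, .rt 7 8 0 7 8 0), (21, .ce 4 6 7 4 7 0), (14, .am 2 7 8 9 1 1), (18, .am 0 5 7 9 1 1), (10, .am 0 2 7 9 1 1), (56, .rt 9 0 2 9 0 2), (56, .rt 0 1 3 0 2 3)]) (.leaf [(10, .lf 5 7 8 8 5 7), (6, .lf 6 8 9 9 6 8), (5, .am 0 2 7 9 1 1), (5, .am 0 5 7 8 1 1), (10, .lf 7 9 0 0 7 9), (6, .rt 8 9 1 8 9 1), (12, .am 0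 7 8 9 1 1), (16, .ce 4 6 7 4 7 9), (16, .cf 0 1 3 0 3 8), (3, .am 0 6 7 9 1 1), (6, .rt 0 1 3 0 1 3), (3, .pl 0 1 6 7), (10, .lf 4 6 7 7 4 5), (10, .rt 0 1 3 0 2 3), (10, .rt 7 8 0 7 8 0), (3, .am 0 1 7 8 1 1), (5, .pl 0 2 5 7), (10, .rt 9 0 2 9 0 2), (6, .lf 4 6 7 7 4 6)]) (.leaf [(32, .ce 4 6 7 4 7 8), (12, .pl 0 1 6 7), (36, .lf 6 8 9 9 6 8), (15, .pl 0 2 6 7), (20, .tb 5 1 2), (15, .am 0 2 7 8 1 1), (60, .rt 0 1 3 0 2 3), (24, .rt 8 9 1 8 9 1), (64, .cf 0 1 3 0 3 8), (60, .rt 9 0 2 9 0 2), (18, .am 0 6 8 9 1 1), (30, .am 0 2 8 9 1 1), (36, .lf 4 6 7 7 4 6), (24, .ce 4 6 7 4 7 9), (9, .am 0 6 7 8 1 1), (12, .am 0 1 7 8 1 1), (20, .cf 0 1 3 0 3 7), (24, .rt 0 1 3 0 1 3), (12, .am 0 7 8 9 1 1), (20, .lf 4 6 7 7 4 5)]) (.leaf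 [(32, .ce 4 6 7 4 7 0), (3, .pl 0 2 5 6), (8, .rt 0 1 3 0 2 3), (8, .rt 9 0 2 9 0 2), (18, .am 5 6 7 8 1 1), (64, .lf 6 8 9 9 6 8), (1, .am 0 2 6 8 1 1), (2, .am 2 6 7 8 1 1), (24, .am 5 7 8 9 1 1), (10, .am 0 1 6 8 1 1), (8, .am 0 1 7 8 1 1), (16, .rt 7 8 0 7 8 0), (4, .am 0 2 7 9 1 1), (5, .am 0 5 6 8 1 1), (32, .am 0 6 8 9 1 1), (32, .ce 4 6 7 4 7 9), (40, .cf 0 1 3 0 3 8), (40, .lf 5 7 8 8 5 7), (12, .am 0 5 7 9 1 1), (40, .c4 5), (14, .pl 0 1 5 6), (32, .rt 8 9 1 8 9 1), (32, .rt 0 1 3 0 1 3), (4, .am 1 6 7 8 1 1), (64, .lf 4 6 7 7 4 6)])))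

def C3323676654_1 : Tr :=
  .pr 3 2 (.pr 1 2 (.ch 6 (.leaf [(4, .rt 8 9 1 8 9 1), (1, .am 0 1 7 9 1 1), (4, .am 0 5 7 9 1 1), (4, .lf 5 7 8 8 5 7), (2, .am 1 7 8 9 1 1), (8, .cf 0 1 3 0 3 7), (6, .rt 6 7 9 6 7 9), (4, .rt 0 1 3 0 2 3), (4, .rt 0 1 3 0 1 3), (4, .ce 7 9 0 5 0 2), (2, .am 5 7 8 9 1 1), (3, .am 0 6 7 9 1 1), (3, .pl 0 1 6 7), (6, .rt 6 7 9 5 7 9), (8, .lf 7 9 0 0 7 9)]) (.leaf [(3, .am 0 5 7 9 1 1), (2, .am 5 7 8 9 1 1), (2, .am 2 7 8 9 1 1), (1, .am 0 2 7 9 1 1), (4, .lf 5 7 8 8 5 7), (3, .pl 0 2 5 7), (4, .lf 8 0 1 2 8 0), (4, .lf 6 8 9 9 5 8), (8, .lf 4 6 7 7 4 5), (4, .ce 4 6 7 4 7 9), (4, .ce 4 6 7 4 7 0), (4, .lf 7 9 0 0 7 9)]) (.leaf [(10, .am 6 7 8 9 1 1), (48, .lf 7 9 0 0 7 9), (96, .ce 4 6 7 4 7 9),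 (32, .lf 4 6 7 7 4 6), (11, .pl 0 1 6 7), (14, .tb 6 1 2), (11, .am 0 6 7 9 1 1), (16, .am 0 5 7 9 1 1), (16, .cf 0 1 3 0 3 7), (64, .lf 4 6 7 7 4 5), (48, .rt 0 1 3 0 1 3), (5, .am 0 1 7 9 1 1), (32, .am 5 7 8 9 1 1), (22, .am 1 7 8 9 1 1), (6, .ta 6 1 2), (16, .pl 0 1 5 7), (64, .lf 5 7 8 8 5 7), (32, .cf 0 1 3 0 3 8), (16, .am 0 1 8 9 1 1)]) (.leaf [(1, .pl 0 1 6 7), (2, .am 0 5 7 9 1 1), (1, .am 0 1 7 9 1 1), (2, .am 1 7 8 9 1 1), (2, .c4 6), (6, .lf 7 9 0 0 7 9), (1, .am 0 6 7 9 1 1), (2, .lf 6 8 9 9 6 8), (2, .rt 0 1 3 0 1 3), (8, .lf 5 7 8 8 5 7), (4, .am 5 7 8 9 1 1), (8, .lf 4 6 7 7 4 5), (4, .rt 8 9 1 8 9 1), (8, .ce 4 6 7 4 7 9), (2, .cf 0 1 3 0 3 7), (2, .pl 0 1 5 7)])) (.ch 1 (.ch 6 (.leaf [(1, .am 0 1 7 9 1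 1), (3, .pl 0 1 6 7), (3, .am 0 6 7 9 1 1), (2, .am 1 7 8 9 1 1), (8, .cf 0 1 3 0 3 7), (2, .am 5 7 8 9 1 1), (4, .am 0 5 7 9 1 1), (6, .rt 6 7 9 6 7 9), (4, .ce 7 9 0 5 0 1), (6, .rt 6 7 9 5 7 9), (4, .lf 5 7 8 8 5 7), (8, .lf 7 9 0 0 7 9), (4, .rt 8 9 1 8 9 1), (8, .rt 0 1 3 0 1 3)]) (.leaf [(4, .lf 5 7 8 8 5 7), (4, .lf 8 0 1 2 8 0), (3, .am 0 5 7 9 1 1), (4, .lf 7 9 0 0 7 9), (8, .lf 4 6 7 7 4 5), (2, .am 2 7 8 9 1 1), (4, .ce 4 6 7 4 7 0), (2, .am 5 7 8 9 1 1), (1, .am 0 2 7 9 1 1), (3, .pl 0 2 5 7), (4, .lf 6 8 9 9 5 8), (4, .ce 4 6 7 4 7 9)]) (.leaf [(96, .ce 4 6 7 4 7 9), (16, .am 0 1 8 9 1 1), (11, .pl 0 1 6 7), (48, .lf 7 9 0 0 7 9), (22, .am 1 7 8 9 1 1), (14, .tb 6 1 2), (32, .cf 0 1 3 0 3 8), (64, .lf 5 7 8 8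 5 7), (16, .am 0 5 7 9 1 1), (5, .am 0 1 7 9 1 1), (48, .rt 0 1 3 0 1 3), (6, .ta 6 1 2), (16, .cf 0 1 3 0 3 7), (64, .lf 4 6 7 7 4 5), (10, .am 6 7 8 9 1 1), (32, .lf 4 6 7 7 4 6), (32, .am 5 7 8 9 1 1), (11, .am 0 6 7 9 1 1), (16, .pl 0 1 5 7)]) (.leaf [(2, .c4 6), (4, .rt 8 9 1 8 9 1), (2, .lf 6 8 9 9 6 8), (2, .am 1 7 8 9 1 1), (6, .lf 7 9 0 0 7 9), (1, .am 0 1 7 9 1 1), (8, .lf 4 6 7 7 4 5), (1, .am 0 6 7 9 1 1), (1, .pl 0 1 6 7), (2, .rt 0 1 3 0 1 3), (2, .pl 0 1 5 7), (8, .lf 5 7 8 8 5 7), (8, .ce 4 6 7 4 7 9), (2, .cf 0 1 3 0 3 7), (2, .am 0 5 7 9 1 1), (4, .am 5 7 8 9 1 1)])) (.ch 6 (.leaf [(2, .am 2 7 8 9 1 1), (2, .am 5 7 8 9 1 1), (3, .pl 0 2 6 7), (6, .rt 6 7 9 6 7 9), (4, .rt 0 1 3 0 2 3), (4, .ce 7 9 0 5 0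 1), (4, .rt 0 1 3 0 1 3), (3, .am 0 6 7 9 1 1), (4, .am 0 5 7 9 1 1), (8, .lf 7 9 0 0 7 9), (6, .rt 6 7 9 5 7 9), (4, .rt 8 9 1 8 9 2), (1, .am 0 2 7 9 1 1), (8, .cf 0 1 3 0 3 7), (4, .lf 5 7 8 8 5 7)]) (.leaf [(4, .lf 4 6 7 7 4 6), (2, .pl 0 2 6 7), (4, .lf 5 7 8 8 5 7), (1, .am 0 2 7 9 1 1), (1, .pl 0 2 5 7), (4, .ce 4 6 7 4 7 0), (4, .ce 4 6 7 4 7 9), (2, .am 5 7 8 9 1 1), (2, .am 2 7 8 9 1 1), (1, .am 0 5 7 9 1 1), (2, .am 0 6 7 9 1 1), (4, .lf 7 9 0 0 7 9), (4, .lf 4 6 7 7 4 5), (4, .lf 6 8 9 9 6 8), (4, .lf 8 0 1 2 8 0)]) (.leaf [(16, .am 0 1 8 9 1 1), (16, .pl 0 1 5 7), (5, .am 0 1 7 9 1 1), (22, .am 1 7 8 9 1 1), (6, .ta 6 1 2), (10, .am 6 7 8 9 1 1), (96, .ce 4 6 7 4 7 9), (14, .tb 6 1 2), (64, .lf 5 7 8 8 5 7),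 (16, .cf 0 1 3 0 3 7), (16, .am 0 5 7 9 1 1), (48, .lf 7 9 0 0 7 9), (64, .lf 4 6 7 7 4 5), (32, .cf 0 1 3 0 3 8), (32, .lf 4 6 7 7 4 6), (48, .rt 0 1 3 0 1 3), (11, .pl 0 1 6 7), (11, .am 0 6 7 9 1 1), (32, .am 5 7 8 9 1 1)]) (.leaf [(2, .am 2 7 8 9 1 1), (4, .rt 8 9 1 8 9 2), (2, .am 0 6 7 9 1 1), (4, .c4 6), (1, .pl 0 2 5 7), (12, .lf 7 9 0 0 7 9), (3, .pl 0 1 5 7), (16, .lf 4 6 7 7 4 5), (1, .am 0 1 7 9 1 1), (4, .cf 0 1 3 0 3 7), (16, .lf 5 7 8 8 5 7), (2, .pl 0 2 6 7), (4, .rt 8 9 1 8 9 1), (4, .am 0 5 7 9 1 1), (2, .am 1 7 8 9 1 1), (16, .ce 4 6 7 4 7 9), (4, .rt 0 1 3 0 2 3), (1, .am 0 2 7 9 1 1), (4, .lf 6 8 9 9 6 8), (8, .am 5 7 8 9 1 1)])) (.ch 6 (.leaf [(8, .lf 7 9 0 0 7 9), (3, .pl 0 1 5 7), (7, .am 0 5 7 9 1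 1), (8, .rt 0 1 3 0 1 3), (4, .ce 7 9 0 5 0 1), (4, .lf 5 7 8 8 5 7), (4, .rt 8 9 1 8 9 1), (8, .cf 0 1 3 0 3 7), (1, .am 0 1 7 9 1 1), (2, .am 5 7 8 9 1 1), (12, .rt 6 7 9 5 7 9), (2, .am 1 7 8 9 1 1)]) (.leaf [(4, .am 1 7 8 9 1 1), (6, .am 0 6 7 9 1 1), (12, .lf 6 8 9 9 6 8), (6, .am 5 7 8 9 1 1), (8, .lf 8 0 1 1 8 0), (2, .am 2 7 8 9 1 1), (12, .lf 4 6 7 7 4 5), (4, .lf 8 0 1 2 8 0), (12, .ce 4 6 7 4 7 0), (6, .pl 0 1 6 7), (12, .ce 4 6 7 4 7 9), (3, .am 0 5 7 9 1 1), (12, .lf 5 7 8 8 5 7), (12, .lf 7 9 0 0 7 9), (12, .lf 4 6 7 7 4 6), (2, .am 0 1 7 9 1 1), (3, .pl 0 2 5 7), (1, .am 0 2 7 9 1 1)]) (.leaf [(11, .am 0 6 7 9 1 1), (22, .am 1 7 8 9 1 1), (5, .am 0 1 7 9 1 1), (6, .ta 6 1 2), (64, .lf 5 7 8 8 5 7), (16, .am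 0 1 8 9 1 1), (14, .tb 6 1 2), (32, .lf 4 6 7 7 4 6), (10, .am 6 7 8 9 1 1), (16, .pl 0 1 5 7), (96, .ce 4 6 7 4 7 9), (32, .am 5 7 8 9 1 1), (48, .rt 0 1 3 0 1 3), (16, .am 0 5 7 9 1 1), (64, .lf 4 6 7 7 4 5), (16, .cf 0 1 3 0 3 7), (32, .cf 0 1 3 0 3 8), (48, .lf 7 9 0 0 7 9), (11, .pl 0 1 6 7)]) (.leaf [(8, .lf 5 7 8 8 5 7), (1, .am 0 6 7 9 1 1), (4, .rt 8 9 1 8 9 1), (1, .pl 0 1 6 7), (4, .am 5 7 8 9 1 1), (1, .am 0 1 7 9 1 1), (2, .am 1 7 8 9 1 1), (6, .lf 7 9 0 0 7 9), (8, .lf 4 6 7 7 4 5), (2, .pl 0 1 5 7), (2, .c4 6), (2, .am 0 5 7 9 1 1), (2, .rt 0 1 3 0 1 3), (2, .cf 0 1 3 0 3 7), (2, .lf 6 8 9 9 6 8), (8, .ce 4 6 7 4 7 9)])) (.ch 6 (.leaf [(2, .am 5 7 8 9 1 1), (6, .rt 6 7 9 6 7 9), (1, .am 0 2 7 9 1 1), (4, .ce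 7 9 0 5 0 2), (6, .rt 6 7 9 5 7 9), (8, .cf 0 1 3 0 3 7), (8, .rt 0 1 3 0 2 3), (3, .pl 0 2 6 7), (2, .am 2 7 8 9 1 1), (3, .am 0 6 7 9 1 1), (4, .rt 8 9 1 8 9 2), (4, .lf 5 7 8 8 5 7), (8, .lf 7 9 0 0 7 9), (4, .am 0 5 7 9 1 1)]) (.leaf [(2, .pl 0 1 6 7), (2, .am 0 6 7 9 1 1), (2, .am 5 7 8 9 1 1), (4, .ce 4 6 7 4 7 9), (2, .am 1 7 8 9 1 1), (1, .pl 0 1 5 7), (4, .lf 8 0 1 1 8 0), (1, .am 0 5 7 9 1 1), (4, .ce 4 6 7 4 7 0), (1, .am 0 1 7 9 1 1), (4, .lf 4 6 7 7 4 5), (4, .lf 7 9 0 0 7 9), (4, .lf 6 8 9 9 6 8), (4, .lf 5 7 8 8 5 7), (4, .lf 4 6 7 7 4 6)]) (.leaf [(48, .lf 7 9 0 0 7 9), (16, .cf 0 1 3 0 3 7), (32, .cf 0 1 3 0 3 8), (16, .am 0 1 8 9 1 1), (6, .ta 6 1 2), (48, .rt 0 1 3 0 1 3), (14, .tb 6 1 2), (64, .lf 5 7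 8 8 5 7), (96, .ce 4 6 7 4 7 9), (11, .am 0 6 7 9 1 1), (16, .pl 0 1 5 7), (32, .lf 4 6 7 7 4 6), (64, .lf 4 6 7 7 4 5), (11, .pl 0 1 6 7), (10, .am 6 7 8 9 1 1), (22, .am 1 7 8 9 1 1), (32, .am 5 7 8 9 1 1), (16, .am 0 5 7 9 1 1), (5, .am 0 1 7 9 1 1)]) (.leaf [(2, .c4 6), (2, .am 1 7 8 9 1 1), (1, .am 0 6 7 9 1 1), (2, .lf 6 8 9 9 6 8), (8, .lf 4 6 7 7 4 5), (2, .cf 0 1 3 0 3 7), (1, .pl 0 1 6 7), (6, .lf 7 9 0 0 7 9), (2, .rt 0 1 3 0 1 3), (4, .am 5 7 8 9 1 1), (2, .pl 0 1 5 7), (1, .am 0 1 7 9 1 1), (8, .lf 5 7 8 8 5 7), (4, .rt 8 9 1 8 9 1), (8, .ce 4 6 7 4 7 9), (2, .am 0 5 7 9 1 1)])))) (.pr 1 2 (.ch 6 (.leaf [(1, .am 0 2 7 9 1 1), (8, .cf 0 1 3 0 3 7), (6, .rt 6 7 9 6 7 9), (2, .am 2 7 8 9 1 1), (6, .rt 6 7 9 5 7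 9), (3, .am 0 6 7 9 1 1), (4, .lf 5 7 8 8 5 7), (2, .am 5 7 8 9 1 1), (3, .pl 0 2 6 7), (4, .am 0 5 7 9 1 1), (4, .ce 7 9 0 5 0 2), (4, .rt 8 9 1 8 9 2), (8, .lf 7 9 0 0 7 9), (8, .rt 0 1 3 0 2 3)]) (.leaf [(1, .am 0 1 7 9 1 1), (4, .lf 8 0 1 1 8 0), (4, .lf 6 8 9 9 6 8), (1, .pl 0 1 5 7), (2, .pl 0 1 6 7), (2, .am 1 7 8 9 1 1), (4, .lf 4 6 7 7 4 6), (4, .ce 4 6 7 4 7 0), (4, .lf 7 9 0 0 7 9), (2, .am 0 6 7 9 1 1), (2, .am 5 7 8 9 1 1), (1, .am 0 5 7 9 1 1), (4, .lf 5 7 8 8 5 7), (4, .ce 4 6 7 4 7 9), (4, .lf 4 6 7 7 4 5)]) (.leaf [(64, .lf 4 6 7 7 4 5), (16, .cf 0 1 3 0 3 7), (5, .am 0 1 7 9 1 1), (16, .am 0 1 8 9 1 1), (22, .am 1 7 8 9 1 1), (64, .lf 5 7 8 8 5 7), (10, .am 6 7 8 9 1 1), (96, .ce 4 6 7 4 7 9), (48, .lf 7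 9 0 0 7 9), (16, .am 0 5 7 9 1 1), (14, .tb 6 1 2), (32, .cf 0 1 3 0 3 8), (32, .am 5 7 8 9 1 1), (48, .rt 0 1 3 0 1 3), (11, .am 0 6 7 9 1 1), (16, .pl 0 1 5 7), (32, .lf 4 6 7 7 4 6), (6, .ta 6 1 2), (11, .pl 0 1 6 7)]) (.leaf [(8, .lf 5 7 8 8 5 7), (2, .c4 6), (2, .lf 6 8 9 9 6 8), (2, .pl 0 1 5 7), (1, .pl 0 1 6 7), (8, .ce 4 6 7 4 7 9), (6, .lf 7 9 0 0 7 9), (4, .rt 8 9 1 8 9 1), (2, .am 1 7 8 9 1 1), (1, .am 0 6 7 9 1 1), (2, .rt 0 1 3 0 1 3), (1, .am 0 1 7 9 1 1), (2, .am 0 5 7 9 1 1), (4, .am 5 7 8 9 1 1), (8, .lf 4 6 7 7 4 5), (2, .cf 0 1 3 0 3 7)])) (.ch 6 (.leaf [(1, .am 0 1 7 9 1 1), (4, .lf 5 7 8 8 5 7), (3, .pl 0 1 5 7), (8, .lf 7 9 0 0 7 9), (2, .am 5 7 8 9 1 1), (8, .cf 0 1 3 0 3 7), (12, .rt 6 7 9 5 7 9),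 (4, .rt 8 9 1 8 9 1), (4, .ce 7 9 0 5 0 1), (2, .am 1 7 8 9 1 1), (7, .am 0 5 7 9 1 1), (8, .rt 0 1 3 0 1 3)]) (.leaf [(12, .lf 5 7 8 8 5 7), (12, .lf 6 8 9 9 6 8), (12, .lf 7 9 0 0 7 9), (2, .am 1 7 8 9 1 1), (3, .pl 0 1 5 7), (12, .ce 4 6 7 4 7 0), (6, .pl 0 2 6 7), (6, .am 0 6 7 9 1 1), (4, .lf 8 0 1 1 8 0), (2, .am 0 2 7 9 1 1), (12, .lf 4 6 7 7 4 6), (12, .ce 4 6 7 4 7 9), (3, .am 0 5 7 9 1 1), (8, .lf 8 0 1 2 8 0), (6, .am 5 7 8 9 1 1), (4, .am 2 7 8 9 1 1), (1, .am 0 1 7 9 1 1), (12, .lf 4 6 7 7 4 5)]) (.leaf [(32, .am 5 7 8 9 1 1), (48, .rt 0 1 3 0 1 3), (96, .ce 4 6 7 4 7 9), (5, .am 0 1 7 9 1 1), (16, .am 0 1 8 9 1 1), (64, .lf 5 7 8 8 5 7), (10, .am 6 7 8 9 1 1), (14, .tb 6 1 2), (64, .lf 4 6 7 7 4 5), (32, .lf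 4 6 7 7 4 6), (11, .am 0 6 7 9 1 1), (16, .am 0 5 7 9 1 1), (16, .cf 0 1 3 0 3 7), (32, .cf 0 1 3 0 3 8), (48, .lf 7 9 0 0 7 9), (22, .am 1 7 8 9 1 1), (6, .ta 6 1 2), (16, .pl 0 1 5 7), (11, .pl 0 1 6 7)]) (.leaf [(2, .am 1 7 8 9 1 1), (4, .cf 0 1 3 0 3 7), (4, .lf 6 8 9 9 6 8), (1, .pl 0 1 5 7), (3, .pl 0 2 5 7), (4, .rt 8 9 1 8 9 1), (4, .rt 0 1 3 0 2 3), (16, .lf 5 7 8 8 5 7), (8, .am 5 7 8 9 1 1), (1, .am 0 2 7 9 1 1), (2, .am 2 7 8 9 1 1), (4, .c4 6), (4, .am 0 5 7 9 1 1), (12, .lf 7 9 0 0 7 9), (16, .ce 4 6 7 4 7 9), (16, .lf 4 6 7 7 4 5), (1, .am 0 1 7 9 1 1), (4, .rt 8 9 1 8 9 2), (2, .am 0 6 7 9 1 1), (2, .pl 0 1 6 7)])))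

def C3323676654 : Tr :=
  .pr 7 2 (.pr 9 2 (.pr 0 2 (.pr 8 2 (.pr 5 2 (.leaf [(1, .am 0 5 7 9 1 1), (3, .am 0 5 7 8 1 1), (2, .rt 0 1 3 0 1 3), (2, .rt 5 6 8 5 7 9), (6, .rt 7 8 0 7 8 0), (6, .rt 5 6 8 5 7 8), (6, .rt 9 0 2 9 0 2), (3, .am 0 2 7 9 1 1), (2, .rt 8 9 1 8 9 1), (6, .rt 0 1 3 0 2 3), (8, .cf 0 1 3 0 3 7), (1, .pl 0 1 5 7), (2, .am 0 7 8 9 1 1), (1, .am 0 1 7 8 1 1), (3, .pl 0 2 5 7)]) (.pr 4 2 (.leaf [(1, .pl 0 3 7 8), (1, .pl 0 5 7 9), (2, .pl 4 5 6 8), (2, .pl 0 7 6 4), (2, .pl 0 6 3 9), (2, .pl 6 9 8 7), (1, .pl 3 4 9 7), (3, .rt 4 5 7 4 5 7), (1, .pl 0 3 5 4), (3, .lf 5 7 8 8 5 7), (1, .pl 3 8 9 5)]) (.pr 6 2 (.leaf [(2, .am 0 2 8 9 1 1), (4, .rt 0 1 3 0 1 3), (4, .rt 8 9 1 8 9 1), (2, .am 0 5 8 9 1 1),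 (2, .pl 0 1 5 7), (1, .am 0 5 7 8 1 1), (4, .rt 0 1 3 0 2 3), (4, .cf 0 1 3 0 3 7), (2, .am 0 1 7 8 1 1), (1, .pl 0 2 5 7), (4, .cf 0 1 3 0 3 8), (4, .rt 9 0 2 9 0 2), (4, .rt 6 7 9 5 7 9), (1, .am 0 2 7 8 1 1), (4, .rt 7 8 0 7 8 0)]) C3323676654_0))) (.leaf [(1, .pl 0 1 2 9), (1, .lf 8 0 1 1 8 0), (1, .rt 7 8 0 5 8 0), (1, .pl 0 2 5 9), (1, .pl 1 9 8 5)])) (.leaf [(1, .pl 1 3 7 9), (1, .pl 2 3 8 4), (1, .pl 0 8 7 4), (1, .pl 0 9 8 4), (1, .lf 0 2 3 3 9 2), (1, .rt 7 8 0 7 8 1), (1, .pl 2 8 9 4), (1, .lf 0 2 3 3 0 1), (1, .rt 7 8 0 7 9 0), (2, .rt 9 0 2 9 0 2), (1, .lf 0 2 3 3 8 2), (1, .pl 0 9 3 2), (1, .pl 3 4 8 7)])) (.leaf [(1, .pl 0 7 3 4), (1, .rt 7 8 0 7 8 1), (1, .pl 1 5 7 4), (1, .pl 3 8 9 6), (2, .lf 9 1 2 2 9 1),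 (2, .lf 9 1 2 2 8 9), (1, .pl 0 3 5 4), (1, .lf 9 1 2 3 9 0), (1, .pl 0 2 5 8), (1, .rt 7 8 0 5 9 1), (1, .pl 5 9 8 6), (2, .pl 0 5 2 1), (1, .pl 0 2 6 8), (1, .rt 7 8 0 6 8 0), (1, .pl 0 3 7 8)])) (.pr 5 2 (.leaf [(1, .rt 5 6 8 5 7 9), (1, .lf 7 9 0 0 7 8), (1, .pl 0 8 6 4), (1, .pl 4 8 7 5), (1, .pl 0 9 7 4), (1, .rt 5 6 8 4 6 8), (1, .pl 4 9 8 5), (1, .lf 7 9 0 0 6 9)]) (.pr 4 2 (.leaf [(1, .lf 5 7 8 8 5 7), (1, .pl 4 5 7 9), (1, .rt 4 5 7 4 5 7), (1, .pl 3 8 9 5), (1, .pl 3 9 8 7)]) (.pr 6 2 (.leaf [(1, .pl 1 9 8 6), (2, .pl 0 8 7 4), (1, .pl 2 9 8 5), (1, .pl 5 9 7 6), (2, .pl 0 9 8 4), (2, .pl 1 7 9 4), (1, .pl 1 8 7 5), (2, .rt 6 7 9 6 7 9), (1, .pl 1 9 7 2), (2, .lf 7 9 0 0 7 9), (1, .pl 2 8 7 6)]) (.pr 9 2 (.pr 0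 2 (.pr 8 2 C3323676654_1 (.leaf [(1, .am 0 2 7 9 1 1), (4, .ce 4 6 7 4 7 9), (4, .ce 4 6 7 4 7 0), (4, .lf 5 7 8 8 5 7), (4, .lf 7 9 0 0 7 9), (3, .pl 0 2 5 7), (3, .am 0 5 7 9 1 1), (2, .am 5 7 8 9 1 1), (4, .lf 6 8 9 9 5 8), (2, .am 2 7 8 9 1 1), (4, .lf 8 0 1 2 8 0), (8, .lf 4 6 7 7 4 5)])) (.leaf [(1, .pl 1 7 9 4), (1, .lf 0 2 3 3 0 2), (1, .pl 1 9 3 2), (1, .pl 1 3 7 4), (1, .pl 0 9 3 4), (1, .rt 9 0 2 9 0 2)])) (.leaf [(2, .am 0 7 8 9 1 1), (6, .lf 4 6 7 7 4 5), (1, .pl 0 2 6 7), (6, .lf 5 7 8 8 5 7), (8, .ce 4 6 7 4 7 0), (3, .am 0 2 7 9 1 1), (2, .lf 6 8 9 9 6 8), (3, .am 0 5 7 8 1 1), (3, .pl 0 2 5 7), (2, .lf 9 1 2 2 8 0), (6, .lf 9 1 2 2 9 0), (1, .am 0 6 7 9 1 1), (1, .am 0 2 7 8 1 1), (2, .lf 4 6 7 7 4 6), (6,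 .lf 7 9 0 0 7 9)])))))

theorem ok_3323676654 : chk C3323676654 ⟨19207129941634591236837896206, [], [], [], [], []⟩ = true := by decide +kernel

end Pool.Agent.H146.TW
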