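import Pool.Agent.H292.TW.Chk3

/-!
Project TWELVE (helper221): certificate tree of one order pattern (helper146).
-/

set_option autoImplicit false
set_option maxRecDepth 100000

namespace Pool.Agent.H146.TW

open Pool.Agent.H292.TW.Chk

def C3333666654_0 : Tr :=
  .pr 2 2 (.pr 1 2 (.ch 5 (.leaf [(37, .pl 0 1 5 6), (60, .cf 9 0 2 9 2 6), (126, .rt 5 6 8 5 6 8), (23, .am 0 1 8 9 1 1), (108, .lf 6 8 9 9 6 8), (10, .am 1 6 8 9 1 1), (60, .rt 7 8 0 7 8 0), (15, .am 5 6 7 8 1 1), (74, .am 5 6 8 9 1 1), (60, .rt 0 1 3 0 1 3), (42, .ce 4 6 7 4 7 9), (36, .am 1 7 8 9 1 1), (60, .cf 0 1 3 0 3 8), (30, .am 0 5 7 9 1 1), (7, .am 0 5 8 9 1 1), (42, .rt 8 9 1 8 9 1), (42, .lf 4 6 7 7 4 6), (18, .rt 7 8 0 7 8 1), (27, .am 1 6 7 8 1 1),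 (60, .rt 9 0 2 9 0 2)]) (.leaf [(3, .pl 0 2 6 7), (10, .lf 4 6 7 7 4 5), (4, .am 5 7 8 9 1 1), (6, .rt 7 8 0 7 8 0), (6, .lf 6 8 9 9 6 8), (6, .rt 0 1 3 0 2 3), (6, .rt 8 9 1 8 9 1), (6, .rt 9 0 2 9 0 2), (16, .ce 4 6 7 4 7 9), (2, .am 0 5 7 9 1 1), (10, .lf 7 9 0 0 7 9), (1, .am 0 5 7 8 1 1), (12, .cf 0 1 3 0 3 8), (3, .am 0 2 7 9 1 1), (6, .lf 4 6 7 7 4 6), (3, .am 0 1 7 8 1 1), (8, .am 0 7 8 9 1 1), (10, .lf 5 7 8 8 5 7), (3, .am 0 6 7 9 1 1), (6, .rt 0 1 3 0 1 3), (3, .pl 0 1 5 7)]) (.leaf [(24, .rt 0 1 3 0 1 3), (12, .pl 0 1 6 7), (15, .am 0 2 7 8 1 1), (32, .ce 4 6 7 4 7 8), (24, .ce 4 6 7 4 7 9), (24, .rt 8 9 1 8 9 1), (60, .rt 9 0 2 9 0 2), (30, .am 0 2 8 9 1 1), (12, .am 0 1 7 8 1 1), (64, .cf 0 1 3 0 3 8), (15,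 .pl 0 2 6 7), (36, .lf 4 6 7 7 4 6), (60, .rt 0 1 3 0 2 3), (18, .am 0 6 8 9 1 1), (20, .lf 4 6 7 7 4 5), (20, .tb 5 1 2), (9, .am 0 6 7 8 1 1), (12, .am 0 7 8 9 1 1), (20, .cf 0 1 3 0 3 7), (36, .lf 6 8 9 9 6 8)]) (.leaf [(24, .rt 7 8 0 7 8 0), (42, .am 5 6 7 8 1 1), (27, .am 0 1 6 8 1 1), (72, .rt 8 9 1 8 9 1), (72, .cf 0 1 3 0 3 8), (56, .am 0 6 8 9 1 1), (6, .am 1 6 7 8 1 1), (88, .lf 5 7 8 8 5 7), (88, .c4 5), (72, .ce 4 6 7 4 7 9), (136, .lf 4 6 7 7 4 6), (12, .am 0 1 7 8 1 1), (33, .pl 0 1 5 6), (32, .am 0 5 7 9 1 1), (12, .am 5 6 8 9 1 1), (52, .am 5 7 8 9 1 1), (1, .am 0 5 6 8 1 1), (72, .rt 0 1 3 0 1 3), (136, .lf 6 8 9 9 6 8), (64, .ce 4 6 7 4 7 0)])) (.ch 1 (.ch 5 (.leaf [(15, .am 5 6 7 8 1 1), (42, .ce 4 6 7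 4 7 9), (7, .am 0 5 8 9 1 1), (74, .am 5 6 8 9 1 1), (23, .am 0 1 8 9 1 1), (126, .rt 5 6 8 5 6 8), (60, .rt 0 1 3 0 1 3), (37, .pl 0 1 5 6), (27, .am 1 6 7 8 1 1), (108, .lf 6 8 9 9 6 8), (60, .cf 0 1 3 0 3 8), (18, .rt 7 8 0 7 8 1), (60, .rt 9 0 2 9 0 2), (10, .am 1 6 8 9 1 1), (42, .lf 4 6 7 7 4 6), (42, .rt 8 9 1 8 9 1), (36, .am 1 7 8 9 1 1), (60, .cf 9 0 2 9 2 6), (30, .am 0 5 7 9 1 1), (60, .rt 7 8 0 7 8 0)]) (.leaf [(12, .cf 0 1 3 0 3 8), (4, .am 5 7 8 9 1 1), (8, .am 0 7 8 9 1 1), (2, .am 0 5 7 9 1 1), (6, .lf 6 8 9 9 6 8), (3, .am 0 1 7 8 1 1), (6, .rt 7 8 0 7 8 0), (6, .rt 9 0 2 9 0 2), (1, .am 0 5 7 8 1 1), (6, .rt 8 9 1 8 9 1), (3, .pl 0 2 6 7), (10, .lf 5 7 8 8 5 7), (16, .ce 4 6 7 4 7 9), (3, .am 0 2 7 9 1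 1), (6, .rt 0 1 3 0 1 3), (3, .pl 0 1 5 7), (3, .am 0 6 7 9 1 1), (6, .rt 0 1 3 0 2 3), (10, .lf 7 9 0 0 7 9), (6, .lf 4 6 7 7 4 6), (10, .lf 4 6 7 7 4 5)]) (.leaf [(18, .am 0 6 8 9 1 1), (60, .rt 0 1 3 0 2 3), (24, .rt 8 9 1 8 9 1), (9, .am 0 6 7 8 1 1), (12, .am 0 7 8 9 1 1), (24, .rt 0 1 3 0 1 3), (36, .lf 4 6 7 7 4 6), (36, .lf 6 8 9 9 6 8), (60, .rt 9 0 2 9 0 2), (20, .cf 0 1 3 0 3 7), (20, .tb 5 1 2), (15, .pl 0 2 6 7), (30, .am 0 2 8 9 1 1), (20, .lf 4 6 7 7 4 5), (15, .am 0 2 7 8 1 1), (32, .ce 4 6 7 4 7 8), (12, .am 0 1 7 8 1 1), (24, .ce 4 6 7 4 7 9), (12, .pl 0 1 6 7), (64, .cf 0 1 3 0 3 8)]) (.leaf [(64, .ce 4 6 7 4 7 0), (6, .am 1 6 7 8 1 1), (42, .am 5 6 7 8 1 1), (32, .am 0 5 7 9 1 1), (72, .rt 8 9 1 8 9 1),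 (136, .lf 6 8 9 9 6 8), (72, .cf 0 1 3 0 3 8), (136, .lf 4 6 7 7 4 6), (72, .rt 0 1 3 0 1 3), (88, .lf 5 7 8 8 5 7), (27, .am 0 1 6 8 1 1), (88, .c4 5), (72, .ce 4 6 7 4 7 9), (33, .pl 0 1 5 6), (24, .rt 7 8 0 7 8 0), (1, .am 0 5 6 8 1 1), (56, .am 0 6 8 9 1 1), (12, .am 5 6 8 9 1 1), (12, .am 0 1 7 8 1 1), (52, .am 5 7 8 9 1 1)])) (.ch 5 (.leaf [(42, .ce 4 6 7 4 7 9), (30, .am 0 5 7 9 1 1), (42, .rt 8 9 1 8 9 1), (36, .am 1 7 8 9 1 1), (60, .rt 0 1 3 0 1 3), (15, .am 5 6 7 8 1 1), (18, .rt 7 8 0 7 8 1), (42, .lf 4 6 7 7 4 6), (74, .am 5 6 8 9 1 1), (60, .rt 7 8 0 7 8 0), (126, .rt 5 6 8 5 6 8), (10, .am 1 6 8 9 1 1), (60, .cf 0 1 3 0 3 8), (23, .am 0 1 8 9 1 1), (27, .am 1 6 7 8 1 1), (60, .cf 9 0 2 9 2 6), (37, .pl 0 1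 5 6), (108, .lf 6 8 9 9 6 8), (60, .rt 9 0 2 9 0 2), (7, .am 0 5 8 9 1 1)]) (.leaf [(1, .am 0 5 7 8 1 1), (3, .am 0 6 7 9 1 1), (10, .lf 7 9 0 0 7 9), (6, .rt 0 1 3 0 2 3), (6, .lf 6 8 9 9 6 8), (6, .rt 0 1 3 0 1 3), (6, .rt 9 0 2 9 0 2), (3, .pl 0 1 5 7), (2, .am 0 5 7 9 1 1), (3, .am 0 2 7 9 1 1), (6, .lf 4 6 7 7 4 6), (3, .am 0 1 7 8 1 1), (4, .am 5 7 8 9 1 1), (6, .rt 7 8 0 7 8 0), (10, .lf 5 7 8 8 5 7), (12, .cf 0 1 3 0 3 8), (6, .rt 8 9 1 8 9 1), (8, .am 0 7 8 9 1 1), (16, .ce 4 6 7 4 7 9), (10, .lf 4 6 7 7 4 5), (3, .pl 0 2 6 7)]) (.leaf [(15, .am 0 2 7 8 1 1), (12, .pl 0 1 6 7), (60, .rt 0 1 3 0 2 3), (36, .lf 6 8 9 9 6 8), (24, .rt 8 9 1 8 9 1), (30, .am 0 2 8 9 1 1), (60, .rt 9 0 2 9 0 2), (15, .pl 0 2 6 7), (20,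 .cf 0 1 3 0 3 7), (12, .am 0 1 7 8 1 1), (9, .am 0 6 7 8 1 1), (24, .ce 4 6 7 4 7 9), (20, .lf 4 6 7 7 4 5), (64, .cf 0 1 3 0 3 8), (32, .ce 4 6 7 4 7 8), (18, .am 0 6 8 9 1 1), (20, .tb 5 1 2), (24, .rt 0 1 3 0 1 3), (36, .lf 4 6 7 7 4 6), (12, .am 0 7 8 9 1 1)]) (.leaf [(33, .pl 0 1 5 6), (72, .rt 8 9 1 8 9 1), (12, .am 5 6 8 9 1 1), (52, .am 5 7 8 9 1 1), (88, .c4 5), (42, .am 5 6 7 8 1 1), (72, .ce 4 6 7 4 7 9), (88, .lf 5 7 8 8 5 7), (6, .am 1 6 7 8 1 1), (27, .am 0 1 6 8 1 1), (136, .lf 4 6 7 7 4 6), (24, .rt 7 8 0 7 8 0), (72, .cf 0 1 3 0 3 8), (136, .lf 6 8 9 9 6 8), (1, .am 0 5 6 8 1 1), (56, .am 0 6 8 9 1 1), (72, .rt 0 1 3 0 1 3), (32, .am 0 5 7 9 1 1), (12, .am 0 1 7 8 1 1), (64, .ce 4 6 7 4 7 0)])) (.ch 5 (.leaf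 [(5, .lf 6 8 9 9 6 8), (2, .rt 0 1 3 0 1 3), (2, .pl 0 1 5 6), (2, .c3 1 0 0 1), (2, .cf 9 0 2 9 2 6), (2, .rt 7 8 0 7 8 0), (2, .lf 4 6 7 7 4 6), (1, .am 5 6 7 8 1 1), (2, .pl 0 7 3 4), (7, .rt 5 6 8 5 6 8), (1, .am 6 7 8 9 1 1), (2, .am 0 5 7 9 1 1), (2, .rt 9 0 2 9 0 2), (4, .am 5 6 8 9 1 1)]) (.leaf [(3, .am 0 6 7 9 1 1), (6, .rt 8 9 1 8 9 1), (3, .pl 0 2 6 7), (1, .am 0 5 7 8 1 1), (6, .lf 4 6 7 7 4 6), (6, .lf 6 8 9 9 6 8), (8, .am 0 7 8 9 1 1), (2, .am 0 5 7 9 1 1), (10, .lf 7 9 0 0 7 9), (6, .rt 0 1 3 0 1 3), (3, .pl 0 1 5 7), (3, .am 0 2 7 9 1 1), (10, .lf 5 7 8 8 5 7), (10, .lf 4 6 7 7 4 5), (6, .rt 7 8 0 7 8 0), (6, .rt 9 0 2 9 0 2), (3, .am 0 1 7 8 1 1), (12, .cf 0 1 3 0 3 8), (16, .ce 4 6 7 4 7 9), (6, .rt 0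 1 3 0 2 3), (4, .am 5 7 8 9 1 1)]) (.leaf [(20, .cf 0 1 3 0 3 7), (15, .pl 0 2 6 7), (20, .lf 4 6 7 7 4 5), (24, .rt 0 1 3 0 1 3), (9, .am 0 6 7 8 1 1), (36, .lf 6 8 9 9 6 8), (12, .am 0 7 8 9 1 1), (30, .am 0 2 8 9 1 1), (60, .rt 9 0 2 9 0 2), (12, .pl 0 1 6 7), (24, .ce 4 6 7 4 7 9), (32, .ce 4 6 7 4 7 8), (18, .am 0 6 8 9 1 1), (12, .am 0 1 7 8 1 1), (64, .cf 0 1 3 0 3 8), (15, .am 0 2 7 8 1 1), (60, .rt 0 1 3 0 2 3), (36, .lf 4 6 7 7 4 6), (20, .tb 5 1 2), (24, .rt 8 9 1 8 9 1)]) (.leaf [(66, .lf 5 7 8 8 5 7), (30, .c3 1 0 0 1), (42, .cf 0 1 3 0 3 8), (72, .rt 0 1 3 0 1 3), (48, .am 0 7 8 9 1 1), (14, .am 1 6 7 9 1 1), (33, .am 0 5 7 8 1 1), (30, .pl 0 7 3 4), (44, .pl 0 1 5 6), (7, .am 0 1 7 9 1 1), (42, .rt 8 9 1 8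 9 1), (11, .am 0 5 7 9 1 1), (22, .am 5 6 7 9 1 1), (42, .ce 4 6 7 4 7 9), (36, .rt 7 8 0 7 8 0), (30, .ce 4 6 7 4 7 0), (102, .lf 4 6 7 7 4 6), (21, .am 0 1 7 8 1 1), (66, .c4 5), (72, .lf 6 8 9 9 6 8)])) (.ch 5 (.leaf [(7, .am 0 5 8 9 1 1), (42, .ce 4 6 7 4 7 9), (18, .rt 7 8 0 7 8 1), (60, .cf 9 0 2 9 2 6), (60, .rt 0 1 3 0 1 3), (108, .lf 6 8 9 9 6 8), (60, .rt 7 8 0 7 8 0), (15, .am 5 6 7 8 1 1), (10, .am 1 6 8 9 1 1), (60, .cf 0 1 3 0 3 8), (37, .pl 0 1 5 6), (36, .am 1 7 8 9 1 1), (42, .rt 8 9 1 8 9 1), (30, .am 0 5 7 9 1 1), (74, .am 5 6 8 9 1 1), (23, .am 0 1 8 9 1 1), (126, .rt 5 6 8 5 6 8), (42, .lf 4 6 7 7 4 6), (27, .am 1 6 7 8 1 1), (60, .rt 9 0 2 9 0 2)]) (.leaf [(6, .rt 8 9 1 8 9 1), (6, .rt 7 8 0 7 8 0),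 (6, .lf 6 8 9 9 6 8), (3, .am 0 2 7 9 1 1), (12, .cf 0 1 3 0 3 8), (3, .am 0 6 7 9 1 1), (8, .am 0 7 8 9 1 1), (6, .lf 4 6 7 7 4 6), (3, .am 0 1 7 8 1 1), (6, .rt 0 1 3 0 2 3), (3, .pl 0 2 6 7), (4, .am 5 7 8 9 1 1), (1, .am 0 5 7 8 1 1), (16, .ce 4 6 7 4 7 9), (10, .lf 4 6 7 7 4 5), (10, .lf 7 9 0 0 7 9), (3, .pl 0 1 5 7), (10, .lf 5 7 8 8 5 7), (2, .am 0 5 7 9 1 1), (6, .rt 9 0 2 9 0 2), (6, .rt 0 1 3 0 1 3)]) (.leaf [(24, .rt 8 9 1 8 9 1), (20, .tb 5 1 2), (20, .lf 4 6 7 7 4 5), (36, .lf 6 8 9 9 6 8), (32, .ce 4 6 7 4 7 8), (30, .am 0 2 8 9 1 1), (12, .am 0 1 7 8 1 1), (18, .am 0 6 8 9 1 1), (15, .pl 0 2 6 7), (12, .am 0 7 8 9 1 1), (24, .rt 0 1 3 0 1 3), (24, .ce 4 6 7 4 7 9), (36, .lf 4 6 7 7 4 6), (64, .cf 0 1 3 0 3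 8), (20, .cf 0 1 3 0 3 7), (60, .rt 9 0 2 9 0 2), (9, .am 0 6 7 8 1 1), (15, .am 0 2 7 8 1 1), (12, .pl 0 1 6 7), (60, .rt 0 1 3 0 2 3)]) (.leaf [(72, .ce 4 6 7 4 7 9), (56, .am 0 6 8 9 1 1), (6, .am 1 6 7 8 1 1), (64, .ce 4 6 7 4 7 0), (72, .rt 0 1 3 0 1 3), (27, .am 0 1 6 8 1 1), (24, .rt 7 8 0 7 8 0), (32, .am 0 5 7 9 1 1), (88, .lf 5 7 8 8 5 7), (52, .am 5 7 8 9 1 1), (136, .lf 4 6 7 7 4 6), (72, .cf 0 1 3 0 3 8), (42, .am 5 6 7 8 1 1), (12, .am 5 6 8 9 1 1), (88, .c4 5), (33, .pl 0 1 5 6), (72, .rt 8 9 1 8 9 1), (12, .am 0 1 7 8 1 1), (1, .am 0 5 6 8 1 1), (136, .lf 6 8 9 9 6 8)])))) (.pr 1 2 (.ch 5 (.leaf [(30, .am 0 5 7 9 1 1), (42, .lf 4 6 7 7 4 6), (60, .rt 7 8 0 7 8 0), (7, .am 0 5 8 9 1 1), (60, .cf 0 1 3 0 3 8),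 (60, .rt 0 1 3 0 1 3), (18, .rt 7 8 0 7 8 1), (42, .rt 8 9 1 8 9 1), (60, .cf 9 0 2 9 2 6), (10, .am 1 6 8 9 1 1), (108, .lf 6 8 9 9 6 8), (60, .rt 9 0 2 9 0 2), (42, .ce 4 6 7 4 7 9), (74, .am 5 6 8 9 1 1), (27, .am 1 6 7 8 1 1), (126, .rt 5 6 8 5 6 8), (36, .am 1 7 8 9 1 1), (23, .am 0 1 8 9 1 1), (15, .am 5 6 7 8 1 1), (37, .pl 0 1 5 6)]) (.leaf [(3, .pl 0 1 5 7), (12, .ce 4 6 7 4 7 9), (3, .am 0 5 7 8 1 1), (16, .cf 0 1 3 0 3 8), (3, .am 0 1 7 8 1 1), (6, .lf 4 6 7 7 4 6), (3, .am 0 6 7 9 1 1), (6, .lf 5 7 8 8 5 7), (6, .lf 7 9 0 0 7 9), (6, .rt 0 1 3 0 1 3), (10, .rt 7 8 0 7 8 0), (2, .am 0 2 7 8 1 1), (8, .am 0 7 8 9 1 1), (4, .am 0 2 8 9 1 1), (6, .lf 4 6 7 7 4 5), (6, .lf 6 8 9 9 6 8), (1, .am 0 2 7 9 1 1), (10, .rt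 0 1 3 0 2 3), (6, .rt 8 9 1 8 9 1), (3, .pl 0 2 6 7), (10, .rt 9 0 2 9 0 2)]) (.leaf [(32, .ce 4 6 7 4 7 8), (20, .tb 5 1 2), (24, .ce 4 6 7 4 7 9), (30, .am 0 2 8 9 1 1), (64, .cf 0 1 3 0 3 8), (27, .pl 0 2 6 7), (27, .am 0 2 7 8 1 1), (9, .am 0 6 7 8 1 1), (36, .lf 6 8 9 9 6 8), (18, .am 0 6 8 9 1 1), (20, .cf 0 1 3 0 3 7), (84, .rt 0 1 3 0 2 3), (12, .am 0 7 8 9 1 1), (20, .lf 4 6 7 7 4 5), (36, .lf 4 6 7 7 4 6), (60, .rt 9 0 2 9 0 2), (24, .rt 8 9 1 8 9 2)]) (.leaf [(72, .rt 0 1 3 0 1 3), (1, .am 0 5 6 8 1 1), (72, .ce 4 6 7 4 7 9), (6, .am 1 6 7 8 1 1), (64, .ce 4 6 7 4 7 0), (88, .lf 5 7 8 8 5 7), (24, .rt 7 8 0 7 8 0), (12, .am 0 1 7 8 1 1), (88, .c4 5), (136, .lf 6 8 9 9 6 8), (42, .am 5 6 7 8 1 1), (52, .am 5 7 8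 9 1 1), (72, .cf 0 1 3 0 3 8), (56, .am 0 6 8 9 1 1), (33, .pl 0 1 5 6), (12, .am 5 6 8 9 1 1), (136, .lf 4 6 7 7 4 6), (72, .rt 8 9 1 8 9 1), (32, .am 0 5 7 9 1 1), (27, .am 0 1 6 8 1 1)])) (.ch 1 (.ch 5 (.leaf [(36, .am 1 7 8 9 1 1), (18, .rt 7 8 0 7 8 1), (60, .rt 9 0 2 9 0 2), (37, .pl 0 1 5 6), (60, .cf 9 0 2 9 2 6), (7, .am 0 5 8 9 1 1), (108, .lf 6 8 9 9 6 8), (23, .am 0 1 8 9 1 1), (30, .am 0 5 7 9 1 1), (27, .am 1 6 7 8 1 1), (15, .am 5 6 7 8 1 1), (74, .am 5 6 8 9 1 1), (42, .lf 4 6 7 7 4 6), (42, .ce 4 6 7 4 7 9), (126, .rt 5 6 8 5 6 8), (60, .rt 7 8 0 7 8 0), (60, .rt 0 1 3 0 1 3), (10, .am 1 6 8 9 1 1), (60, .cf 0 1 3 0 3 8), (42, .rt 8 9 1 8 9 1)]) (.leaf [(3, .pl 0 2 6 7), (6, .rt 0 1 3 0 2 3), (4, .am 5 7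 8 9 1 1), (12, .cf 0 1 3 0 3 8), (1, .am 0 5 7 8 1 1), (6, .rt 9 0 2 9 0 2), (6, .rt 7 8 0 7 8 0), (10, .lf 7 9 0 0 7 9), (8, .am 0 7 8 9 1 1), (10, .lf 4 6 7 7 4 5), (10, .lf 5 7 8 8 5 7), (3, .am 0 2 7 9 1 1), (2, .am 0 5 7 9 1 1), (16, .ce 4 6 7 4 7 9), (6, .rt 0 1 3 0 1 3), (3, .am 0 6 7 9 1 1), (6, .lf 4 6 7 7 4 6), (6, .lf 6 8 9 9 6 8), (3, .am 0 1 7 8 1 1), (6, .rt 8 9 1 8 9 1), (3, .pl 0 1 5 7)]) (.leaf [(12, .am 0 1 7 8 1 1), (12, .am 0 7 8 9 1 1), (32, .ce 4 6 7 4 7 8), (15, .pl 0 2 6 7), (12, .pl 0 1 6 7), (24, .ce 4 6 7 4 7 9), (60, .rt 9 0 2 9 0 2), (15, .am 0 2 7 8 1 1), (64, .cf 0 1 3 0 3 8), (20, .tb 5 1 2), (36, .lf 4 6 7 7 4 6), (30, .am 0 2 8 9 1 1), (18, .am 0 6 8 9 1 1), (36, .lf 6 8 9 9 6 8), (24, .rt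 8 9 1 8 9 1), (9, .am 0 6 7 8 1 1), (20, .lf 4 6 7 7 4 5), (60, .rt 0 1 3 0 2 3), (24, .rt 0 1 3 0 1 3), (20, .cf 0 1 3 0 3 7)]) (.leaf [(52, .am 5 7 8 9 1 1), (42, .am 5 6 7 8 1 1), (27, .am 0 1 6 8 1 1), (136, .lf 6 8 9 9 6 8), (24, .rt 7 8 0 7 8 0), (72, .rt 8 9 1 8 9 1), (88, .lf 5 7 8 8 5 7), (88, .c4 5), (72, .ce 4 6 7 4 7 9), (33, .pl 0 1 5 6), (6, .am 1 6 7 8 1 1), (72, .cf 0 1 3 0 3 8), (72, .rt 0 1 3 0 1 3), (56, .am 0 6 8 9 1 1), (136, .lf 4 6 7 7 4 6), (1, .am 0 5 6 8 1 1), (12, .am 5 6 8 9 1 1), (32, .am 0 5 7 9 1 1), (12, .am 0 1 7 8 1 1), (64, .ce 4 6 7 4 7 0)])) (.ch 5 (.leaf [(42, .ce 4 6 7 4 7 9), (74, .am 5 6 8 9 1 1), (7, .am 0 5 8 9 1 1), (60, .rt 7 8 0 7 8 0), (36, .am 1 7 8 9 1 1), (42, .rt 8 9 1 8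 9 1), (10, .am 1 6 8 9 1 1), (60, .cf 9 0 2 9 2 6), (60, .rt 0 1 3 0 1 3), (23, .am 0 1 8 9 1 1), (126, .rt 5 6 8 5 6 8), (27, .am 1 6 7 8 1 1), (60, .cf 0 1 3 0 3 8), (18, .rt 7 8 0 7 8 1), (42, .lf 4 6 7 7 4 6), (37, .pl 0 1 5 6), (108, .lf 6 8 9 9 6 8), (15, .am 5 6 7 8 1 1), (60, .rt 9 0 2 9 0 2), (30, .am 0 5 7 9 1 1)]) (.leaf [(3, .pl 0 2 6 7), (3, .am 0 6 7 9 1 1), (16, .ce 4 6 7 4 7 9), (1, .am 0 5 7 8 1 1), (2, .am 0 5 7 9 1 1), (6, .lf 6 8 9 9 6 8), (3, .am 0 1 7 8 1 1), (6, .rt 0 1 3 0 1 3), (10, .lf 7 9 0 0 7 9), (12, .cf 0 1 3 0 3 8), (8, .am 0 7 8 9 1 1), (6, .rt 8 9 1 8 9 1), (10, .lf 5 7 8 8 5 7), (6, .rt 0 1 3 0 2 3), (3, .am 0 2 7 9 1 1), (10, .lf 4 6 7 7 4 5), (4, .am 5 7 8 9 1 1), (3, .pl 0 1 5 7), (6,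 .lf 4 6 7 7 4 6), (6, .rt 7 8 0 7 8 0), (6, .rt 9 0 2 9 0 2)]) (.leaf [(20, .cf 0 1 3 0 3 7), (24, .ce 4 6 7 4 7 9), (60, .rt 0 1 3 0 2 3), (18, .am 0 6 8 9 1 1), (36, .lf 4 6 7 7 4 6), (12, .am 0 1 7 8 1 1), (60, .rt 9 0 2 9 0 2), (24, .rt 0 1 3 0 1 3), (12, .am 0 7 8 9 1 1), (32, .ce 4 6 7 4 7 8), (24, .rt 8 9 1 8 9 1), (15, .am 0 2 7 8 1 1), (15, .pl 0 2 6 7), (20, .tb 5 1 2), (64, .cf 0 1 3 0 3 8), (30, .am 0 2 8 9 1 1), (9, .am 0 6 7 8 1 1), (12, .pl 0 1 6 7), (36, .lf 6 8 9 9 6 8), (20, .lf 4 6 7 7 4 5)]) (.leaf [(32, .am 0 5 7 9 1 1), (72, .cf 0 1 3 0 3 8), (24, .rt 7 8 0 7 8 0), (1, .am 0 5 6 8 1 1), (64, .ce 4 6 7 4 7 0), (6, .am 1 6 7 8 1 1), (42, .am 5 6 7 8 1 1), (12, .am 0 1 7 8 1 1), (52, .am 5 7 8 9 1 1), (12,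 .am 5 6 8 9 1 1), (136, .lf 4 6 7 7 4 6), (88, .lf 5 7 8 8 5 7), (27, .am 0 1 6 8 1 1), (72, .rt 8 9 1 8 9 1), (72, .ce 4 6 7 4 7 9), (33, .pl 0 1 5 6), (72, .rt 0 1 3 0 1 3), (136, .lf 6 8 9 9 6 8), (88, .c4 5), (56, .am 0 6 8 9 1 1)])) (.ch 5 (.leaf [(7, .rt 5 6 8 5 6 8), (2, .cf 9 0 2 9 2 6), (1, .am 6 7 8 9 1 1), (1, .am 5 6 7 8 1 1), (2, .rt 9 0 2 9 0 2), (2, .lf 4 6 7 7 4 6), (2, .rt 0 1 3 0 1 3), (2, .am 0 5 7 9 1 1), (2, .pl 0 1 5 6), (2, .pl 0 7 3 4), (2, .c3 1 0 0 1), (5, .lf 6 8 9 9 6 8), (4, .am 5 6 8 9 1 1), (2, .rt 7 8 0 7 8 0)]) (.leaf [(12, .ce 4 6 7 4 7 9), (16, .cf 0 1 3 0 3 8), (10, .rt 0 1 3 0 2 3), (10, .rt 9 0 2 9 0 2), (2, .am 0 2 7 8 1 1), (6, .lf 5 7 8 8 5 7), (10, .rt 7 8 0 7 8 0), (6, .lf 4 6 7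 7 4 5), (6, .rt 0 1 3 0 1 3), (3, .am 0 1 7 8 1 1), (3, .pl 0 2 6 7), (6, .lf 6 8 9 9 6 8), (3, .am 0 6 7 9 1 1), (8, .am 0 7 8 9 1 1), (1, .am 0 2 7 9 1 1), (6, .lf 7 9 0 0 7 9), (6, .rt 8 9 1 8 9 1), (6, .lf 4 6 7 7 4 6), (3, .pl 0 1 5 7), (4, .am 0 2 8 9 1 1), (3, .am 0 5 7 8 1 1)]) (.leaf [(12, .am 0 7 8 9 1 1), (15, .am 0 2 7 8 1 1), (20, .lf 4 6 7 7 4 5), (24, .ce 4 6 7 4 7 9), (12, .pl 0 1 6 7), (60, .rt 9 0 2 9 0 2), (30, .am 0 2 8 9 1 1), (24, .rt 8 9 1 8 9 1), (20, .cf 0 1 3 0 3 7), (60, .rt 0 1 3 0 2 3), (64, .cf 0 1 3 0 3 8), (9, .am 0 6 7 8 1 1), (32, .ce 4 6 7 4 7 8), (36, .lf 6 8 9 9 6 8), (20, .tb 5 1 2), (24, .rt 0 1 3 0 1 3), (15, .pl 0 2 6 7), (36, .lf 4 6 7 7 4 6), (12, .am 0 1 7 8 1 1), (18, .am 0 6 8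 9 1 1)]) (.leaf [(11, .am 0 5 7 9 1 1), (42, .ce 4 6 7 4 7 9), (102, .lf 4 6 7 7 4 6), (14, .am 1 6 7 9 1 1), (21, .am 0 1 7 8 1 1), (22, .am 5 6 7 9 1 1), (7, .am 0 1 7 9 1 1), (66, .c4 5), (66, .lf 5 7 8 8 5 7), (42, .cf 0 1 3 0 3 8), (48, .am 0 7 8 9 1 1), (33, .am 0 5 7 8 1 1), (44, .pl 0 1 5 6), (30, .pl 0 7 3 4), (36, .rt 7 8 0 7 8 0), (72, .rt 0 1 3 0 1 3), (42, .rt 8 9 1 8 9 1), (30, .c3 1 0 0 1), (30, .ce 4 6 7 4 7 0), (72, .lf 6 8 9 9 6 8)])) (.ch 5 (.leaf [(74, .am 5 6 8 9 1 1), (36, .am 1 7 8 9 1 1), (60, .rt 7 8 0 7 8 0), (60, .cf 0 1 3 0 3 8), (108, .lf 6 8 9 9 6 8), (60, .cf 9 0 2 9 2 6), (30, .am 0 5 7 9 1 1), (10, .am 1 6 8 9 1 1), (60, .rt 0 1 3 0 1 3), (15, .am 5 6 7 8 1 1), (27, .am 1 6 7 8 1 1), (18,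 .rt 7 8 0 7 8 1), (42, .rt 8 9 1 8 9 1), (42, .ce 4 6 7 4 7 9), (23, .am 0 1 8 9 1 1), (7, .am 0 5 8 9 1 1), (126, .rt 5 6 8 5 6 8), (60, .rt 9 0 2 9 0 2), (42, .lf 4 6 7 7 4 6), (37, .pl 0 1 5 6)]) (.leaf [(1, .am 0 5 7 8 1 1), (6, .rt 7 8 0 7 8 0), (3, .am 0 2 7 9 1 1), (10, .lf 5 7 8 8 5 7), (3, .pl 0 1 5 7), (6, .rt 0 1 3 0 2 3), (3, .am 0 6 7 9 1 1), (3, .pl 0 2 6 7), (12, .cf 0 1 3 0 3 8), (6, .rt 8 9 1 8 9 1), (6, .lf 6 8 9 9 6 8), (6, .rt 9 0 2 9 0 2), (6, .rt 0 1 3 0 1 3), (2, .am 0 5 7 9 1 1), (6, .lf 4 6 7 7 4 6), (3, .am 0 1 7 8 1 1), (4, .am 5 7 8 9 1 1), (16, .ce 4 6 7 4 7 9), (10, .lf 4 6 7 7 4 5), (10, .lf 7 9 0 0 7 9), (8, .am 0 7 8 9 1 1)]) (.leaf [(15, .pl 0 2 6 7), (24, .ce 4 6 7 4 7 9), (12, .am 0 1 7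 8 1 1), (30, .am 0 2 8 9 1 1), (24, .rt 0 1 3 0 1 3), (36, .lf 4 6 7 7 4 6), (12, .pl 0 1 6 7), (36, .lf 6 8 9 9 6 8), (20, .lf 4 6 7 7 4 5), (12, .am 0 7 8 9 1 1), (15, .am 0 2 7 8 1 1), (20, .tb 5 1 2), (24, .rt 8 9 1 8 9 1), (20, .cf 0 1 3 0 3 7), (18, .am 0 6 8 9 1 1), (32, .ce 4 6 7 4 7 8), (60, .rt 9 0 2 9 0 2), (64, .cf 0 1 3 0 3 8), (60, .rt 0 1 3 0 2 3), (9, .am 0 6 7 8 1 1)]) (.leaf [(6, .am 1 6 7 8 1 1), (27, .am 0 1 6 8 1 1), (33, .pl 0 1 5 6), (32, .am 0 5 7 9 1 1), (42, .am 5 6 7 8 1 1), (72, .rt 0 1 3 0 1 3), (72, .rt 8 9 1 8 9 1), (136, .lf 6 8 9 9 6 8), (12, .am 0 1 7 8 1 1), (12, .am 5 6 8 9 1 1), (52, .am 5 7 8 9 1 1), (72, .cf 0 1 3 0 3 8), (24, .rt 7 8 0 7 8 0), (1, .am 0 5 6 8 1 1), (72, .ce 4 6 7 4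 7 9), (64, .ce 4 6 7 4 7 0), (88, .lf 5 7 8 8 5 7), (56, .am 0 6 8 9 1 1), (88, .c4 5), (136, .lf 4 6 7 7 4 6)]))))

def C3333666654_1 : Tr :=
  .pr 3 2 (.pr 1 2 (.ch 6 (.leaf [(3, .pl 0 1 5 7), (12, .rt 6 7 9 5 7 9), (8, .cf 0 1 3 0 3 7), (2, .am 5 7 8 9 1 1), (2, .am 1 7 8 9 1 1), (1, .am 0 1 7 9 1 1), (8, .lf 7 9 0 0 7 9), (4, .ce 7 9 0 5 0 1), (4, .rt 8 9 1 8 9 1), (7, .am 0 5 7 9 1 1), (4, .lf 5 7 8 8 5 7), (8, .rt 0 1 3 0 1 3)]) (.leaf [(4, .lf 4 6 7 7 4 6), (4, .lf 6 8 9 9 6 8), (2, .pl 0 1 6 7), (1, .pl 0 1 5 7), (2, .am 0 6 7 9 1 1), (4, .ce 4 6 7 4 7 0), (1, .am 0 5 7 9 1 1), (4, .lf 8 0 1 1 8 0), (4, .lf 4 6 7 7 4 5), (4, .ce 4 6 7 4 7 9), (1, .am 0 1 7 9 1 1), (4, .lf 5 7 8 8 5 7), (2, .am 5 7 8 9 1 1), (2, .am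 1 7 8 9 1 1), (4, .lf 7 9 0 0 7 9)]) (.leaf [(32, .cf 0 1 3 0 3 8), (14, .tb 6 1 2), (16, .pl 0 1 5 7), (16, .am 0 1 8 9 1 1), (16, .cf 0 1 3 0 3 7), (48, .rt 0 1 3 0 1 3), (16, .am 0 5 7 9 1 1), (48, .lf 7 9 0 0 7 9), (32, .am 5 7 8 9 1 1), (5, .am 0 1 7 9 1 1), (64, .lf 5 7 8 8 5 7), (64, .lf 4 6 7 7 4 5), (10, .am 6 7 8 9 1 1), (96, .ce 4 6 7 4 7 9), (32, .lf 4 6 7 7 4 6), (11, .am 0 6 7 9 1 1), (6, .ta 6 1 2), (22, .am 1 7 8 9 1 1), (11, .pl 0 1 6 7)]) (.leaf [(2, .c4 6), (1, .am 0 6 7 9 1 1), (8, .lf 4 6 7 7 4 5), (4, .rt 8 9 1 8 9 1), (2, .rt 0 1 3 0 1 3), (4, .am 5 7 8 9 1 1), (8, .ce 4 6 7 4 7 9), (2, .lf 6 8 9 9 6 8), (2, .cf 0 1 3 0 3 7), (2, .am 0 5 7 9 1 1), (2, .am 1 7 8 9 1 1), (1, .am 0 1 7 9 1 1), (2, .pl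 0 1 5 7), (8, .lf 5 7 8 8 5 7), (1, .pl 0 1 6 7), (6, .lf 7 9 0 0 7 9)])) (.ch 1 (.ch 6 (.leaf [(2, .am 2 7 8 9 1 1), (4, .rt 0 1 3 0 1 3), (6, .rt 6 7 9 6 7 9), (4, .am 0 5 7 9 1 1), (3, .pl 0 2 6 7), (4, .rt 0 1 3 0 2 3), (6, .rt 6 7 9 5 7 9), (8, .cf 0 1 3 0 3 7), (3, .am 0 6 7 9 1 1), (1, .am 0 2 7 9 1 1), (4, .ce 7 9 0 5 0 1), (8, .lf 7 9 0 0 7 9), (4, .rt 8 9 1 8 9 2), (4, .lf 5 7 8 8 5 7), (2, .am 5 7 8 9 1 1)]) (.leaf [(4, .lf 4 6 7 7 4 6), (4, .lf 7 9 0 0 7 9), (2, .pl 0 1 6 7), (1, .am 0 5 7 9 1 1), (1, .pl 0 1 5 7), (4, .lf 6 8 9 9 6 8), (2, .am 1 7 8 9 1 1), (4, .lf 4 6 7 7 4 5), (4, .lf 5 7 8 8 5 7), (2, .am 5 7 8 9 1 1), (4, .ce 4 6 7 4 7 9), (4, .lf 8 0 1 1 8 0), (2, .am 0 6 7 9 1 1), (1, .am 0 1 7 9 1 1),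 (4, .ce 4 6 7 4 7 0)]) (.leaf [(16, .cf 0 1 3 0 3 7), (32, .cf 0 1 3 0 3 8), (10, .am 6 7 8 9 1 1), (16, .am 0 1 8 9 1 1), (5, .am 0 1 7 9 1 1), (64, .lf 4 6 7 7 4 5), (32, .lf 4 6 7 7 4 6), (96, .ce 4 6 7 4 7 9), (48, .rt 0 1 3 0 1 3), (14, .tb 6 1 2), (11, .pl 0 1 6 7), (64, .lf 5 7 8 8 5 7), (22, .am 1 7 8 9 1 1), (16, .pl 0 1 5 7), (32, .am 5 7 8 9 1 1), (48, .lf 7 9 0 0 7 9), (16, .am 0 5 7 9 1 1), (6, .ta 6 1 2), (11, .am 0 6 7 9 1 1)]) (.leaf [(8, .lf 5 7 8 8 5 7), (2, .lf 6 8 9 9 6 8), (6, .lf 7 9 0 0 7 9), (2, .am 1 7 8 9 1 1), (2, .c4 6), (1, .am 0 1 7 9 1 1), (4, .am 5 7 8 9 1 1), (8, .ce 4 6 7 4 7 9), (1, .pl 0 1 6 7), (1, .am 0 6 7 9 1 1), (2, .am 0 5 7 9 1 1), (2, .pl 0 1 5 7), (4, .rt 8 9 1 8 9 1), (2, .rt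 0 1 3 0 1 3), (2, .cf 0 1 3 0 3 7), (8, .lf 4 6 7 7 4 5)])) (.ch 6 (.leaf [(12, .rt 6 7 9 5 7 9), (1, .am 0 1 7 9 1 1), (2, .am 1 7 8 9 1 1), (2, .am 5 7 8 9 1 1), (8, .cf 0 1 3 0 3 7), (3, .pl 0 1 5 7), (4, .rt 8 9 1 8 9 1), (7, .am 0 5 7 9 1 1), (4, .ce 7 9 0 5 0 1), (4, .lf 5 7 8 8 5 7), (8, .rt 0 1 3 0 1 3), (8, .lf 7 9 0 0 7 9)]) (.leaf [(2, .am 0 6 7 9 1 1), (4, .lf 5 7 8 8 5 7), (4, .lf 7 9 0 0 7 9), (1, .pl 0 1 5 7), (2, .pl 0 1 6 7), (1, .am 0 5 7 9 1 1), (1, .am 0 1 7 9 1 1), (4, .lf 4 6 7 7 4 5), (2, .am 1 7 8 9 1 1), (4, .lf 8 0 1 1 8 0), (4, .ce 4 6 7 4 7 9), (4, .lf 4 6 7 7 4 6), (4, .lf 6 8 9 9 6 8), (2, .am 5 7 8 9 1 1), (4, .ce 4 6 7 4 7 0)]) (.leaf [(64, .lf 4 6 7 7 4 5), (32, .cf 0 1 3 0 3 8), (6, .ta 6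 1 2), (96, .ce 4 6 7 4 7 9), (14, .tb 6 1 2), (64, .lf 5 7 8 8 5 7), (22, .am 1 7 8 9 1 1), (11, .pl 0 1 6 7), (10, .am 6 7 8 9 1 1), (16, .am 0 1 8 9 1 1), (48, .lf 7 9 0 0 7 9), (16, .pl 0 1 5 7), (32, .lf 4 6 7 7 4 6), (32, .am 5 7 8 9 1 1), (48, .rt 0 1 3 0 1 3), (16, .cf 0 1 3 0 3 7), (16, .am 0 5 7 9 1 1), (11, .am 0 6 7 9 1 1), (5, .am 0 1 7 9 1 1)]) (.leaf [(4, .am 5 7 8 9 1 1), (8, .ce 4 6 7 4 7 9), (2, .lf 6 8 9 9 6 8), (2, .rt 0 1 3 0 1 3), (8, .lf 4 6 7 7 4 5), (2, .am 0 5 7 9 1 1), (6, .lf 7 9 0 0 7 9), (1, .am 0 1 7 9 1 1), (2, .c4 6), (8, .lf 5 7 8 8 5 7), (1, .am 0 6 7 9 1 1), (2, .pl 0 1 5 7), (2, .am 1 7 8 9 1 1), (1, .pl 0 1 6 7), (2, .cf 0 1 3 0 3 7), (4, .rt 8 9 1 8 9 1)])) (.ch 6 (.leaf [(3, .pl 0 1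 5 7), (8, .cf 0 1 3 0 3 7), (12, .rt 6 7 9 5 7 9), (7, .am 0 5 7 9 1 1), (8, .rt 0 1 3 0 1 3), (1, .am 0 1 7 9 1 1), (2, .am 1 7 8 9 1 1), (8, .lf 7 9 0 0 7 9), (2, .am 5 7 8 9 1 1), (4, .rt 8 9 1 8 9 1), (4, .ce 7 9 0 5 0 1), (4, .lf 5 7 8 8 5 7)]) (.leaf [(2, .am 0 6 7 9 1 1), (2, .am 5 7 8 9 1 1), (4, .lf 4 6 7 7 4 5), (2, .am 1 7 8 9 1 1), (1, .am 0 1 7 9 1 1), (1, .am 0 5 7 9 1 1), (4, .lf 4 6 7 7 4 6), (4, .lf 5 7 8 8 5 7), (4, .ce 4 6 7 4 7 9), (2, .pl 0 1 6 7), (4, .lf 7 9 0 0 7 9), (4, .lf 6 8 9 9 6 8), (4, .lf 8 0 1 1 8 0), (1, .pl 0 1 5 7), (4, .ce 4 6 7 4 7 0)]) (.leaf [(16, .cf 0 1 3 0 3 7), (5, .am 0 1 7 9 1 1), (48, .rt 0 1 3 0 1 3), (32, .am 5 7 8 9 1 1), (22, .am 1 7 8 9 1 1), (14, .tb 6 1 2), (32, .cf 0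 1 3 0 3 8), (32, .lf 4 6 7 7 4 6), (64, .lf 5 7 8 8 5 7), (64, .lf 4 6 7 7 4 5), (6, .ta 6 1 2), (10, .am 6 7 8 9 1 1), (16, .am 0 1 8 9 1 1), (11, .pl 0 1 6 7), (11, .am 0 6 7 9 1 1), (48, .lf 7 9 0 0 7 9), (16, .pl 0 1 5 7), (96, .ce 4 6 7 4 7 9), (16, .am 0 5 7 9 1 1)]) (.leaf [(8, .ce 4 6 7 4 7 9), (4, .am 5 7 8 9 1 1), (2, .cf 0 1 3 0 3 7), (2, .lf 6 8 9 9 6 8), (2, .c4 6), (2, .rt 0 1 3 0 1 3), (2, .pl 0 1 5 7), (8, .lf 5 7 8 8 5 7), (2, .am 0 5 7 9 1 1), (1, .pl 0 1 6 7), (1, .am 0 6 7 9 1 1), (1, .am 0 1 7 9 1 1), (8, .lf 4 6 7 7 4 5), (2, .am 1 7 8 9 1 1), (6, .lf 7 9 0 0 7 9), (4, .rt 8 9 1 8 9 1)])) (.ch 6 (.leaf [(6, .rt 6 7 9 6 7 9), (8, .cf 0 1 3 0 3 7), (2, .am 5 7 8 9 1 1), (4, .ce 7 9 0 5 0 1), (8, .lf 7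 9 0 0 7 9), (4, .am 0 5 7 9 1 1), (1, .am 0 1 7 9 1 1), (3, .am 0 6 7 9 1 1), (4, .rt 8 9 1 8 9 1), (3, .pl 0 1 6 7), (8, .rt 0 1 3 0 1 3), (2, .am 1 7 8 9 1 1), (6, .rt 6 7 9 5 7 9), (4, .lf 5 7 8 8 5 7)]) (.leaf [(4, .lf 4 6 7 7 4 5), (4, .ce 4 6 7 4 7 0), (2, .am 1 7 8 9 1 1), (2, .am 0 6 7 9 1 1), (4, .lf 4 6 7 7 4 6), (4, .ce 4 6 7 4 7 9), (1, .am 0 1 7 9 1 1), (4, .lf 6 8 9 9 6 8), (4, .lf 8 0 1 1 8 0), (2, .pl 0 1 6 7), (1, .am 0 5 7 9 1 1), (2, .am 5 7 8 9 1 1), (4, .lf 5 7 8 8 5 7), (1, .pl 0 1 5 7), (4, .lf 7 9 0 0 7 9)]) (.leaf [(32, .cf 0 1 3 0 3 8), (11, .pl 0 1 6 7), (32, .am 5 7 8 9 1 1), (6, .ta 6 1 2), (48, .lf 7 9 0 0 7 9), (16, .pl 0 1 5 7), (22, .am 1 7 8 9 1 1), (96, .ce 4 6 7 4 7 9), (16, .cf 0 1 3 0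 3 7), (10, .am 6 7 8 9 1 1), (5, .am 0 1 7 9 1 1), (64, .lf 4 6 7 7 4 5), (16, .am 0 5 7 9 1 1), (14, .tb 6 1 2), (48, .rt 0 1 3 0 1 3), (11, .am 0 6 7 9 1 1), (64, .lf 5 7 8 8 5 7), (16, .am 0 1 8 9 1 1), (32, .lf 4 6 7 7 4 6)]) (.leaf [(4, .rt 8 9 1 8 9 1), (2, .lf 6 8 9 9 6 8), (4, .am 5 7 8 9 1 1), (1, .am 0 1 7 9 1 1), (8, .lf 4 6 7 7 4 5), (2, .cf 0 1 3 0 3 7), (2, .pl 0 1 5 7), (2, .c4 6), (8, .lf 5 7 8 8 5 7), (2, .rt 0 1 3 0 1 3), (6, .lf 7 9 0 0 7 9), (1, .am 0 6 7 9 1 1), (8, .ce 4 6 7 4 7 9), (1, .pl 0 1 6 7), (2, .am 1 7 8 9 1 1), (2, .am 0 5 7 9 1 1)])))) (.pr 1 2 (.ch 6 (.leaf [(6, .rt 6 7 9 5 7 9), (8, .lf 7 9 0 0 7 9), (4, .rt 8 9 1 8 9 1), (4, .lf 5 7 8 8 5 7), (6, .rt 6 7 9 6 7 9), (1, .am 0 1 7 9 1 1),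 (3, .am 0 6 7 9 1 1), (8, .cf 0 1 3 0 3 7), (8, .rt 0 1 3 0 1 3), (2, .am 5 7 8 9 1 1), (2, .am 1 7 8 9 1 1), (4, .am 0 5 7 9 1 1), (4, .ce 7 9 0 5 0 1), (3, .pl 0 1 6 7)]) (.leaf [(4, .lf 4 6 7 7 4 6), (2, .am 0 6 7 9 1 1), (4, .lf 5 7 8 8 5 7), (4, .ce 4 6 7 4 7 9), (4, .lf 7 9 0 0 7 9), (2, .am 5 7 8 9 1 1), (4, .lf 6 8 9 9 6 8), (4, .lf 8 0 1 1 8 0), (2, .am 1 7 8 9 1 1), (1, .am 0 5 7 9 1 1), (1, .pl 0 1 5 7), (1, .am 0 1 7 9 1 1), (4, .lf 4 6 7 7 4 5), (4, .ce 4 6 7 4 7 0), (2, .pl 0 1 6 7)]) (.leaf [(64, .lf 5 7 8 8 5 7), (64, .lf 4 6 7 7 4 5), (11, .am 0 6 7 9 1 1), (32, .lf 4 6 7 7 4 6), (22, .am 1 7 8 9 1 1), (16, .am 0 1 8 9 1 1), (6, .ta 6 1 2), (32, .am 5 7 8 9 1 1), (48, .rt 0 1 3 0 1 3), (16, .am 0 5 7 9 1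 1), (5, .am 0 1 7 9 1 1), (16, .pl 0 1 5 7), (14, .tb 6 1 2), (32, .cf 0 1 3 0 3 8), (10, .am 6 7 8 9 1 1), (16, .cf 0 1 3 0 3 7), (96, .ce 4 6 7 4 7 9), (48, .lf 7 9 0 0 7 9), (11, .pl 0 1 6 7)]) (.leaf [(2, .lf 6 8 9 9 6 8), (2, .am 1 7 8 9 1 1), (1, .pl 0 1 6 7), (4, .rt 8 9 1 8 9 1), (2, .cf 0 1 3 0 3 7), (8, .lf 4 6 7 7 4 5), (1, .am 0 6 7 9 1 1), (8, .lf 5 7 8 8 5 7), (2, .am 0 5 7 9 1 1), (8, .ce 4 6 7 4 7 9), (1, .am 0 1 7 9 1 1), (2, .c4 6), (4, .am 5 7 8 9 1 1), (2, .pl 0 1 5 7), (2, .rt 0 1 3 0 1 3), (6, .lf 7 9 0 0 7 9)])) (.ch 6 (.leaf [(4, .rt 8 9 1 8 9 1), (3, .pl 0 1 6 7), (4, .am 0 5 7 9 1 1), (4, .lf 5 7 8 8 5 7), (1, .am 0 1 7 9 1 1), (6, .rt 6 7 9 6 7 9), (8, .rt 0 1 3 0 1 3), (3, .am 0 6 7 9 1 1), (6,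 .rt 6 7 9 5 7 9), (8, .lf 7 9 0 0 7 9), (8, .cf 0 1 3 0 3 7), (4, .ce 7 9 0 5 0 1), (2, .am 5 7 8 9 1 1), (2, .am 1 7 8 9 1 1)]) (.leaf [(4, .ce 4 6 7 4 7 9), (2, .am 1 7 8 9 1 1), (4, .ce 4 6 7 4 7 0), (4, .lf 5 7 8 8 5 7), (4, .lf 6 8 9 9 5 8), (2, .am 5 7 8 9 1 1), (1, .am 0 1 7 9 1 1), (3, .am 0 5 7 9 1 1), (3, .pl 0 1 5 7), (8, .lf 4 6 7 7 4 5), (4, .lf 7 9 0 0 7 9), (4, .lf 8 0 1 1 8 0)]) (.leaf [(11, .am 0 6 7 9 1 1), (6, .ta 6 1 2), (14, .tb 6 1 2), (16, .am 0 1 8 9 1 1), (16, .pl 0 1 5 7), (11, .pl 0 1 6 7), (10, .am 6 7 8 9 1 1), (5, .am 0 1 7 9 1 1), (96, .ce 4 6 7 4 7 9), (22, .am 1 7 8 9 1 1), (64, .lf 5 7 8 8 5 7), (16, .am 0 5 7 9 1 1), (48, .lf 7 9 0 0 7 9), (16, .cf 0 1 3 0 3 7), (64, .lf 4 6 7 7 4 5), (48,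 .rt 0 1 3 0 1 3), (32, .lf 4 6 7 7 4 6), (32, .am 5 7 8 9 1 1), (32, .cf 0 1 3 0 3 8)]) (.leaf [(12, .am 5 7 8 9 1 1), (2, .rt 0 1 3 0 1 3), (24, .lf 5 7 8 8 5 7), (3, .am 0 6 7 9 1 1), (8, .rt 8 9 1 8 9 1), (6, .lf 6 8 9 9 6 8), (4, .rt 0 1 3 0 2 3), (6, .cf 0 1 3 0 3 7), (6, .c4 6), (2, .am 2 7 8 9 1 1), (2, .am 0 1 7 9 1 1), (6, .am 0 5 7 9 1 1), (6, .pl 0 1 5 7), (4, .am 1 7 8 9 1 1), (1, .am 0 2 7 9 1 1), (4, .rt 8 9 1 8 9 2), (24, .lf 4 6 7 7 4 5), (3, .pl 0 2 6 7), (18, .lf 7 9 0 0 7 9), (24, .ce 4 6 7 4 7 9)])))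

def C3333666654_2 : Tr :=
  .pr 3 2 (.pr 1 2 (.ch 6 (.leaf [(3, .am 0 6 7 9 1 1), (6, .rt 6 7 9 6 7 9), (8, .rt 0 1 3 0 1 3), (4, .am 0 5 7 9 1 1), (2, .am 1 7 8 9 1 1), (8, .lf 7 9 0 0 7 9), (4, .rt 8 9 1 8 9 1), (4, .lf 5 7 8 8 5 7), (4, .ce 7 9 0 5 0 1), (1, .am 0 1 7 9 1 1), (6, .rt 6 7 9 5 7 9), (8, .cf 0 1 3 0 3 7), (3, .pl 0 1 6 7), (2, .am 5 7 8 9 1 1)]) (.leaf [(4, .am 2 7 8 9 1 1), (12, .lf 4 6 7 7 4 5), (6, .am 5 7 8 9 1 1), (3, .am 0 5 7 9 1 1), (12, .lf 5 7 8 8 5 7), (12, .ce 4 6 7 4 7 9), (6, .pl 0 2 6 7), (2, .am 0 2 7 9 1 1), (12, .ce 4 6 7 4 7 0), (3, .pl 0 1 5 7), (12, .lf 7 9 0 0 7 9), (2, .am 1 7 8 9 1 1), (6, .am 0 6 7 9 1 1), (12, .lf 6 8 9 9 6 8), (12, .lf 4 6 7 7 4 6), (1, .am 0 1 7 9 1 1), (4, .lf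 8 0 1 1 8 0), (8, .lf 8 0 1 2 8 0)]) (.leaf [(11, .am 0 6 7 9 1 1), (16, .cf 0 1 3 0 3 7), (32, .am 5 7 8 9 1 1), (64, .lf 5 7 8 8 5 7), (16, .am 0 1 8 9 1 1), (14, .tb 6 1 2), (10, .am 6 7 8 9 1 1), (16, .am 0 5 7 9 1 1), (5, .am 0 1 7 9 1 1), (32, .cf 0 1 3 0 3 8), (11, .pl 0 1 6 7), (32, .lf 4 6 7 7 4 6), (6, .ta 6 1 2), (16, .pl 0 1 5 7), (64, .lf 4 6 7 7 4 5), (48, .lf 7 9 0 0 7 9), (48, .rt 0 1 3 0 1 3), (96, .ce 4 6 7 4 7 9), (22, .am 1 7 8 9 1 1)]) (.leaf [(2, .lf 6 8 9 9 6 8), (8, .ce 4 6 7 4 7 9), (1, .am 0 6 7 9 1 1), (2, .am 0 5 7 9 1 1), (4, .rt 8 9 1 8 9 1), (2, .cf 0 1 3 0 3 7), (2, .rt 0 1 3 0 1 3), (8, .lf 5 7 8 8 5 7), (8, .lf 4 6 7 7 4 5), (1, .am 0 1 7 9 1 1), (6, .lf 7 9 0 0 7 9), (2, .pl 0 1 5 7), (4,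 .am 5 7 8 9 1 1), (2, .c4 6), (2, .am 1 7 8 9 1 1), (1, .pl 0 1 6 7)])) (.ch 1 (.ch 6 (.leaf [(4, .lf 5 7 8 8 5 7), (8, .lf 7 9 0 0 7 9), (4, .ce 7 9 0 5 0 1), (4, .rt 8 9 1 8 9 1), (3, .pl 0 1 5 7), (2, .am 1 7 8 9 1 1), (2, .am 5 7 8 9 1 1), (8, .rt 0 1 3 0 1 3), (7, .am 0 5 7 9 1 1), (1, .am 0 1 7 9 1 1), (8, .cf 0 1 3 0 3 7), (12, .rt 6 7 9 5 7 9)]) (.leaf [(4, .lf 4 6 7 7 4 5), (2, .pl 0 1 6 7), (4, .lf 4 6 7 7 4 6), (4, .lf 7 9 0 0 7 9), (4, .lf 6 8 9 9 6 8), (2, .am 0 6 7 9 1 1), (4, .ce 4 6 7 4 7 9), (2, .am 1 7 8 9 1 1), (4, .lf 5 7 8 8 5 7), (4, .lf 8 0 1 1 8 0), (4, .ce 4 6 7 4 7 0), (1, .pl 0 1 5 7), (2, .am 5 7 8 9 1 1), (1, .am 0 5 7 9 1 1), (1, .am 0 1 7 9 1 1)]) (.leaf [(64, .lf 4 6 7 7 4 5), (16, .am 0 5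 7 9 1 1), (22, .am 1 7 8 9 1 1), (32, .am 5 7 8 9 1 1), (16, .cf 0 1 3 0 3 7), (48, .rt 0 1 3 0 1 3), (32, .lf 4 6 7 7 4 6), (10, .am 6 7 8 9 1 1), (16, .pl 0 1 5 7), (6, .ta 6 1 2), (48, .lf 7 9 0 0 7 9), (5, .am 0 1 7 9 1 1), (96, .ce 4 6 7 4 7 9), (11, .pl 0 1 6 7), (14, .tb 6 1 2), (32, .cf 0 1 3 0 3 8), (64, .lf 5 7 8 8 5 7), (11, .am 0 6 7 9 1 1), (16, .am 0 1 8 9 1 1)]) (.leaf [(4, .am 1 7 8 9 1 1), (8, .rt 8 9 1 8 9 1), (4, .rt 8 9 1 8 9 2), (2, .rt 0 1 3 0 1 3), (6, .lf 6 8 9 9 6 8), (1, .am 0 2 7 9 1 1), (6, .c4 6), (12, .am 5 7 8 9 1 1), (6, .pl 0 1 5 7), (6, .am 0 5 7 9 1 1), (4, .rt 0 1 3 0 2 3), (24, .ce 4 6 7 4 7 9), (6, .cf 0 1 3 0 3 7), (3, .am 0 6 7 9 1 1), (3, .pl 0 2 6 7), (2, .am 0 1 7 9 1 1), (2, .am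 2 7 8 9 1 1), (24, .lf 5 7 8 8 5 7), (18, .lf 7 9 0 0 7 9), (24, .lf 4 6 7 7 4 5)])) (.ch 6 (.leaf [(4, .ce 7 9 0 5 0 1), (4, .rt 0 1 3 0 2 3), (6, .rt 6 7 9 5 7 9), (8, .cf 0 1 3 0 3 7), (6, .rt 6 7 9 6 7 9), (4, .rt 0 1 3 0 1 3), (1, .am 0 2 7 9 1 1), (4, .lf 5 7 8 8 5 7), (4, .rt 8 9 1 8 9 2), (2, .am 2 7 8 9 1 1), (8, .lf 7 9 0 0 7 9), (2, .am 5 7 8 9 1 1), (3, .pl 0 2 6 7), (4, .am 0 5 7 9 1 1), (3, .am 0 6 7 9 1 1)]) (.leaf [(4, .lf 5 7 8 8 5 7), (4, .lf 4 6 7 7 4 6), (4, .lf 7 9 0 0 7 9), (4, .lf 4 6 7 7 4 5), (4, .lf 8 0 1 1 8 0), (2, .am 5 7 8 9 1 1), (1, .am 0 1 7 9 1 1), (2, .pl 0 1 6 7), (2, .am 0 6 7 9 1 1), (1, .pl 0 1 5 7), (4, .lf 6 8 9 9 6 8), (4, .ce 4 6 7 4 7 0), (4, .ce 4 6 7 4 7 9), (1, .am 0 5 7 9 1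 1), (2, .am 1 7 8 9 1 1)]) (.leaf [(11, .am 0 6 7 9 1 1), (48, .rt 0 1 3 0 1 3), (16, .pl 0 1 5 7), (16, .am 0 1 8 9 1 1), (6, .ta 6 1 2), (32, .am 5 7 8 9 1 1), (96, .ce 4 6 7 4 7 9), (14, .tb 6 1 2), (64, .lf 5 7 8 8 5 7), (22, .am 1 7 8 9 1 1), (5, .am 0 1 7 9 1 1), (32, .lf 4 6 7 7 4 6), (64, .lf 4 6 7 7 4 5), (16, .cf 0 1 3 0 3 7), (16, .am 0 5 7 9 1 1), (10, .am 6 7 8 9 1 1), (48, .lf 7 9 0 0 7 9), (32, .cf 0 1 3 0 3 8), (11, .pl 0 1 6 7)]) (.leaf [(24, .lf 5 7 8 8 5 7), (8, .rt 8 9 1 8 9 1), (6, .pl 0 1 5 7), (2, .am 2 7 8 9 1 1), (2, .rt 0 1 3 0 1 3), (3, .am 0 6 7 9 1 1), (6, .lf 6 8 9 9 6 8), (4, .rt 8 9 1 8 9 2), (6, .cf 0 1 3 0 3 7), (18, .lf 7 9 0 0 7 9), (6, .c4 6), (3, .pl 0 2 6 7), (4, .rt 0 1 3 0 2 3), (12,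 .am 5 7 8 9 1 1), (1, .am 0 2 7 9 1 1), (24, .ce 4 6 7 4 7 9), (24, .lf 4 6 7 7 4 5), (2, .am 0 1 7 9 1 1), (6, .am 0 5 7 9 1 1), (4, .am 1 7 8 9 1 1)])) (.ch 6 (.leaf [(2, .am 1 7 8 9 1 1), (4, .rt 8 9 1 8 9 1), (4, .ce 7 9 0 5 0 1), (6, .rt 6 7 9 6 7 9), (8, .lf 7 9 0 0 7 9), (4, .lf 5 7 8 8 5 7), (2, .am 5 7 8 9 1 1), (3, .am 0 6 7 9 1 1), (1, .am 0 1 7 9 1 1), (3, .pl 0 1 6 7), (4, .am 0 5 7 9 1 1), (8, .cf 0 1 3 0 3 7), (6, .rt 6 7 9 5 7 9), (8, .rt 0 1 3 0 1 3)]) (.leaf [(6, .am 5 7 8 9 1 1), (2, .am 1 7 8 9 1 1), (12, .lf 7 9 0 0 7 9), (6, .pl 0 2 6 7), (4, .lf 8 0 1 1 8 0), (8, .lf 8 0 1 2 8 0), (6, .am 0 6 7 9 1 1), (12, .ce 4 6 7 4 7 0), (12, .lf 4 6 7 7 4 6), (12, .ce 4 6 7 4 7 9), (3, .am 0 5 7 9 1 1), (2, .am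 0 2 7 9 1 1), (12, .lf 5 7 8 8 5 7), (1, .am 0 1 7 9 1 1), (12, .lf 6 8 9 9 6 8), (12, .lf 4 6 7 7 4 5), (4, .am 2 7 8 9 1 1), (3, .pl 0 1 5 7)]) (.leaf [(6, .ta 6 1 2), (16, .cf 0 1 3 0 3 7), (32, .lf 4 6 7 7 4 6), (16, .am 0 1 8 9 1 1), (11, .am 0 6 7 9 1 1), (48, .lf 7 9 0 0 7 9), (22, .am 1 7 8 9 1 1), (11, .pl 0 1 6 7), (5, .am 0 1 7 9 1 1), (32, .am 5 7 8 9 1 1), (64, .lf 5 7 8 8 5 7), (64, .lf 4 6 7 7 4 5), (96, .ce 4 6 7 4 7 9), (14, .tb 6 1 2), (16, .am 0 5 7 9 1 1), (32, .cf 0 1 3 0 3 8), (10, .am 6 7 8 9 1 1), (16, .pl 0 1 5 7), (48, .rt 0 1 3 0 1 3)]) (.leaf [(6, .lf 7 9 0 0 7 9), (2, .lf 6 8 9 9 6 8), (2, .c4 6), (8, .lf 5 7 8 8 5 7), (1, .am 0 1 7 9 1 1), (2, .rt 0 1 3 0 1 3), (4, .rt 8 9 1 8 9 1), (4, .am 5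 7 8 9 1 1), (8, .lf 4 6 7 7 4 5), (2, .am 0 5 7 9 1 1), (2, .am 1 7 8 9 1 1), (1, .am 0 6 7 9 1 1), (2, .pl 0 1 5 7), (2, .cf 0 1 3 0 3 7), (8, .ce 4 6 7 4 7 9), (1, .pl 0 1 6 7)])) (.ch 6 (.leaf [(4, .lf 5 7 8 8 5 7), (8, .rt 0 1 3 0 1 3), (8, .cf 0 1 3 0 3 7), (1, .am 0 1 7 9 1 1), (12, .rt 6 7 9 5 7 9), (4, .ce 7 9 0 5 0 1), (2, .am 1 7 8 9 1 1), (8, .lf 7 9 0 0 7 9), (3, .pl 0 1 5 7), (4, .rt 8 9 1 8 9 1), (2, .am 5 7 8 9 1 1), (7, .am 0 5 7 9 1 1)]) (.leaf [(4, .lf 8 0 1 1 8 0), (1, .am 0 1 7 9 1 1), (2, .am 1 7 8 9 1 1), (4, .ce 4 6 7 4 7 0), (1, .pl 0 1 5 7), (2, .am 5 7 8 9 1 1), (1, .am 0 5 7 9 1 1), (4, .lf 4 6 7 7 4 5), (4, .lf 6 8 9 9 6 8), (4, .lf 7 9 0 0 7 9), (2, .pl 0 1 6 7), (4, .lf 4 6 7 7 4 6), (4, .ce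 4 6 7 4 7 9), (2, .am 0 6 7 9 1 1), (4, .lf 5 7 8 8 5 7)]) (.leaf [(64, .lf 5 7 8 8 5 7), (5, .am 0 1 7 9 1 1), (16, .am 0 1 8 9 1 1), (16, .cf 0 1 3 0 3 7), (16, .pl 0 1 5 7), (48, .lf 7 9 0 0 7 9), (10, .am 6 7 8 9 1 1), (6, .ta 6 1 2), (16, .am 0 5 7 9 1 1), (96, .ce 4 6 7 4 7 9), (22, .am 1 7 8 9 1 1), (32, .lf 4 6 7 7 4 6), (48, .rt 0 1 3 0 1 3), (11, .am 0 6 7 9 1 1), (32, .am 5 7 8 9 1 1), (11, .pl 0 1 6 7), (32, .cf 0 1 3 0 3 8), (14, .tb 6 1 2), (64, .lf 4 6 7 7 4 5)]) (.leaf [(4, .rt 0 1 3 0 2 3), (12, .am 5 7 8 9 1 1), (24, .lf 4 6 7 7 4 5), (6, .lf 6 8 9 9 6 8), (3, .am 0 6 7 9 1 1), (24, .ce 4 6 7 4 7 9), (18, .lf 7 9 0 0 7 9), (6, .cf 0 1 3 0 3 7), (2, .am 2 7 8 9 1 1), (2, .am 0 1 7 9 1 1), (8, .rt 8 9 1 8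 9 1), (6, .c4 6), (4, .rt 8 9 1 8 9 2), (3, .pl 0 2 6 7), (1, .am 0 2 7 9 1 1), (2, .rt 0 1 3 0 1 3), (24, .lf 5 7 8 8 5 7), (6, .am 0 5 7 9 1 1), (4, .am 1 7 8 9 1 1), (6, .pl 0 1 5 7)])))) (.pr 1 2 (.ch 6 (.leaf [(8, .cf 0 1 3 0 3 7), (2, .am 1 7 8 9 1 1), (4, .rt 8 9 1 8 9 1), (3, .am 0 6 7 9 1 1), (6, .rt 6 7 9 5 7 9), (2, .am 5 7 8 9 1 1), (4, .am 0 5 7 9 1 1), (8, .lf 7 9 0 0 7 9), (4, .ce 7 9 0 5 0 1), (6, .rt 6 7 9 6 7 9), (4, .lf 5 7 8 8 5 7), (3, .pl 0 1 6 7), (1, .am 0 1 7 9 1 1), (8, .rt 0 1 3 0 1 3)]) (.leaf [(2, .am 0 6 7 9 1 1), (2, .am 1 7 8 9 1 1), (1, .am 0 5 7 9 1 1), (4, .ce 4 6 7 4 7 9), (1, .pl 0 1 5 7), (4, .lf 7 9 0 0 7 9), (4, .lf 8 0 1 1 8 0), (4, .lf 5 7 8 8 5 7), (4, .lf 4 6 7 7 4 6), (4, .lf 4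 6 7 7 4 5), (2, .pl 0 1 6 7), (2, .am 5 7 8 9 1 1), (1, .am 0 1 7 9 1 1), (4, .lf 6 8 9 9 6 8), (4, .ce 4 6 7 4 7 0)]) (.leaf [(64, .lf 5 7 8 8 5 7), (16, .am 0 5 7 9 1 1), (32, .cf 0 1 3 0 3 8), (10, .am 6 7 8 9 1 1), (14, .tb 6 1 2), (48, .lf 7 9 0 0 7 9), (11, .am 0 6 7 9 1 1), (5, .am 0 1 7 9 1 1), (16, .am 0 1 8 9 1 1), (16, .cf 0 1 3 0 3 7), (32, .lf 4 6 7 7 4 6), (96, .ce 4 6 7 4 7 9), (64, .lf 4 6 7 7 4 5), (22, .am 1 7 8 9 1 1), (6, .ta 6 1 2), (11, .pl 0 1 6 7), (32, .am 5 7 8 9 1 1), (48, .rt 0 1 3 0 1 3), (16, .pl 0 1 5 7)]) (.leaf [(2, .cf 0 1 3 0 3 7), (1, .am 0 1 7 9 1 1), (2, .am 1 7 8 9 1 1), (2, .pl 0 1 5 7), (1, .am 0 6 7 9 1 1), (8, .lf 4 6 7 7 4 5), (8, .ce 4 6 7 4 7 9), (2, .am 0 5 7 9 1 1), (6, .lf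 7 9 0 0 7 9), (4, .rt 8 9 1 8 9 1), (2, .c4 6), (1, .pl 0 1 6 7), (2, .rt 0 1 3 0 1 3), (2, .lf 6 8 9 9 6 8), (8, .lf 5 7 8 8 5 7), (4, .am 5 7 8 9 1 1)])) (.ch 6 (.leaf [(6, .rt 6 7 9 5 7 9), (4, .am 0 5 7 9 1 1), (3, .pl 0 1 6 7), (1, .am 0 1 7 9 1 1), (2, .am 1 7 8 9 1 1), (6, .rt 6 7 9 6 7 9), (8, .rt 0 1 3 0 1 3), (8, .lf 7 9 0 0 7 9), (2, .am 5 7 8 9 1 1), (8, .cf 0 1 3 0 3 7), (4, .ce 7 9 0 5 0 1), (4, .lf 5 7 8 8 5 7), (4, .rt 8 9 1 8 9 1), (3, .am 0 6 7 9 1 1)]) (.leaf [(2, .am 1 7 8 9 1 1), (4, .lf 8 0 1 1 8 0), (4, .lf 4 6 7 7 4 5), (2, .am 0 6 7 9 1 1), (1, .pl 0 1 5 7), (4, .lf 5 7 8 8 5 7), (4, .ce 4 6 7 4 7 0), (2, .pl 0 1 6 7), (4, .ce 4 6 7 4 7 9), (4, .lf 6 8 9 9 6 8), (1, .am 0 5 7 9 1 1), (4, .lf 7 9 0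 0 7 9), (1, .am 0 1 7 9 1 1), (4, .lf 4 6 7 7 4 6), (2, .am 5 7 8 9 1 1)]) (.leaf [(64, .lf 4 6 7 7 4 5), (32, .cf 0 1 3 0 3 8), (96, .ce 4 6 7 4 7 9), (14, .tb 6 1 2), (11, .pl 0 1 6 7), (10, .am 6 7 8 9 1 1), (22, .am 1 7 8 9 1 1), (16, .am 0 5 7 9 1 1), (48, .lf 7 9 0 0 7 9), (64, .lf 5 7 8 8 5 7), (5, .am 0 1 7 9 1 1), (32, .am 5 7 8 9 1 1), (16, .cf 0 1 3 0 3 7), (32, .lf 4 6 7 7 4 6), (16, .pl 0 1 5 7), (48, .rt 0 1 3 0 1 3), (16, .am 0 1 8 9 1 1), (6, .ta 6 1 2), (11, .am 0 6 7 9 1 1)]) (.leaf [(24, .ce 4 6 7 4 7 9), (3, .am 0 6 7 9 1 1), (2, .am 0 1 7 9 1 1), (4, .am 1 7 8 9 1 1), (6, .lf 6 8 9 9 6 8), (6, .pl 0 1 5 7), (18, .lf 7 9 0 0 7 9), (8, .rt 8 9 1 8 9 1), (1, .am 0 2 7 9 1 1), (6, .am 0 5 7 9 1 1), (2, .am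 2 7 8 9 1 1), (4, .rt 8 9 1 8 9 2), (12, .am 5 7 8 9 1 1), (2, .rt 0 1 3 0 1 3), (4, .rt 0 1 3 0 2 3), (3, .pl 0 2 6 7), (24, .lf 4 6 7 7 4 5), (24, .lf 5 7 8 8 5 7), (6, .c4 6), (6, .cf 0 1 3 0 3 7)])))

def C3333666654 : Tr :=
  .pr 7 2 (.pr 9 2 (.pr 0 2 (.pr 8 2 (.pr 5 2 (.leaf [(4, .am 5 7 8 9 1 1), (8, .am 0 5 7 9 1 1), (6, .am 1 6 8 9 1 1), (12, .rt 5 6 8 5 7 9), (12, .rt 5 6 8 5 6 8), (1, .am 0 5 6 9 1 1), (12, .cf 0 1 3 0 3 7), (9, .pl 0 1 5 6), (12, .cf 9 0 2 9 2 6), (12, .rt 9 0 2 9 0 2), (12, .rt 8 9 1 8 9 1), (4, .rt 7 8 0 7 8 0), (8, .rt 7 8 0 6 8 0), (12, .rt 0 1 3 0 1 3), (2, .am 5 6 8 9 1 1), (3, .am 0 1 6 9 1 1)]) (.pr 4 2 (.leaf [(2, .lf 5 7 8 8 5 7), (2, .pl 3 4 9 7), (1, .pl 3 9 8 7), (1, .pl 0 6 3 8),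 (1, .pl 4 5 6 8), (1, .pl 0 3 5 4), (1, .pl 5 9 8 7), (1, .pl 0 5 6 9), (2, .rt 4 5 7 4 5 7), (1, .pl 3 9 4 6)]) (.pr 6 2 (.leaf [(2, .am 0 6 8 9 1 1), (1, .am 0 6 7 8 1 1), (4, .rt 0 1 3 0 1 3), (4, .rt 0 1 3 0 2 3), (4, .cf 0 1 3 0 3 7), (2, .am 0 1 7 8 1 1), (4, .rt 7 8 0 7 8 0), (4, .rt 9 0 2 9 0 2), (1, .pl 0 2 6 7), (4, .rt 8 9 1 8 9 1), (2, .am 0 2 8 9 1 1), (1, .am 0 2 7 8 1 1), (4, .rt 6 7 9 6 7 9), (4, .cf 0 1 3 0 3 8), (2, .pl 0 1 6 7)]) (.pr 3 2 C3333666654_0 (.pr 1 2 (.pr 2 2 (.ch 5 (.leaf [(37, .pl 0 1 5 6), (42, .rt 8 9 1 8 9 1), (42, .ce 4 6 7 4 7 9), (60, .rt 0 1 3 0 1 3), (10, .am 1 6 8 9 1 1), (60, .cf 9 0 2 9 2 6), (30, .am 0 5 7 9 1 1), (7, .am 0 5 8 9 1 1), (60, .rt 7 8 0 7 8 0), (15, .am 5 6 7 8 1 1),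 (18, .rt 7 8 0 7 8 1), (36, .am 1 7 8 9 1 1), (42, .lf 4 6 7 7 4 6), (126, .rt 5 6 8 5 6 8), (23, .am 0 1 8 9 1 1), (60, .cf 0 1 3 0 3 8), (74, .am 5 6 8 9 1 1), (27, .am 1 6 7 8 1 1), (108, .lf 6 8 9 9 6 8), (60, .rt 9 0 2 9 0 2)]) (.leaf [(10, .rt 9 0 2 9 0 2), (1, .am 0 2 7 9 1 1), (4, .am 0 2 8 9 1 1), (3, .am 0 1 7 8 1 1), (6, .lf 4 6 7 7 4 5), (6, .lf 7 9 0 0 7 9), (6, .lf 4 6 7 7 4 6), (10, .rt 0 1 3 0 2 3), (2, .am 0 2 7 8 1 1), (8, .am 0 7 8 9 1 1), (3, .am 0 6 7 9 1 1), (6, .lf 5 7 8 8 5 7), (6, .rt 0 1 3 0 1 3), (3, .pl 0 1 5 7), (6, .lf 6 8 9 9 6 8), (3, .am 0 5 7 8 1 1), (12, .ce 4 6 7 4 7 9), (6, .rt 8 9 1 8 9 1), (10, .rt 7 8 0 7 8 0), (3, .pl 0 2 6 7), (16, .cf 0 1 3 0 3 8)]) (.leaf [(20, .tb 5 1 2), (30,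 .am 0 2 8 9 1 1), (36, .lf 4 6 7 7 4 6), (12, .am 0 1 7 8 1 1), (15, .pl 0 2 6 7), (60, .rt 0 1 3 0 2 3), (12, .pl 0 1 6 7), (64, .cf 0 1 3 0 3 8), (24, .ce 4 6 7 4 7 9), (24, .rt 0 1 3 0 1 3), (20, .cf 0 1 3 0 3 7), (24, .rt 8 9 1 8 9 1), (36, .lf 6 8 9 9 6 8), (9, .am 0 6 7 8 1 1), (15, .am 0 2 7 8 1 1), (60, .rt 9 0 2 9 0 2), (18, .am 0 6 8 9 1 1), (32, .ce 4 6 7 4 7 8), (12, .am 0 7 8 9 1 1), (20, .lf 4 6 7 7 4 5)]) (.leaf [(27, .am 0 1 6 8 1 1), (88, .lf 5 7 8 8 5 7), (6, .am 1 6 7 8 1 1), (32, .am 0 5 7 9 1 1), (24, .rt 7 8 0 7 8 0), (33, .pl 0 1 5 6), (72, .cf 0 1 3 0 3 8), (12, .am 5 6 8 9 1 1), (88, .c4 5), (52, .am 5 7 8 9 1 1), (1, .am 0 5 6 8 1 1), (64, .ce 4 6 7 4 7 0), (42, .am 5 6 7 8 1 1), (72, .rt 0 1 3 0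 1 3), (136, .lf 6 8 9 9 6 8), (72, .rt 8 9 1 8 9 1), (136, .lf 4 6 7 7 4 6), (56, .am 0 6 8 9 1 1), (12, .am 0 1 7 8 1 1), (72, .ce 4 6 7 4 7 9)])) (.ch 5 (.leaf [(74, .am 5 6 8 9 1 1), (42, .ce 4 6 7 4 7 9), (36, .am 1 7 8 9 1 1), (10, .am 1 6 8 9 1 1), (60, .rt 9 0 2 9 0 2), (37, .pl 0 1 5 6), (60, .rt 7 8 0 7 8 0), (126, .rt 5 6 8 5 6 8), (15, .am 5 6 7 8 1 1), (7, .am 0 5 8 9 1 1), (27, .am 1 6 7 8 1 1), (60, .rt 0 1 3 0 1 3), (108, .lf 6 8 9 9 6 8), (18, .rt 7 8 0 7 8 1), (60, .cf 0 1 3 0 3 8), (60, .cf 9 0 2 9 2 6), (23, .am 0 1 8 9 1 1), (30, .am 0 5 7 9 1 1), (42, .rt 8 9 1 8 9 1), (42, .lf 4 6 7 7 4 6)]) (.leaf [(3, .am 0 6 7 9 1 1), (3, .pl 0 1 5 7), (6, .lf 6 8 9 9 6 8), (12, .cf 0 1 3 0 3 8), (6, .rt 0 1 3 0 2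 3), (6, .rt 8 9 1 8 9 1), (4, .am 5 7 8 9 1 1), (10, .lf 4 6 7 7 4 5), (3, .am 0 1 7 8 1 1), (10, .lf 7 9 0 0 7 9), (8, .am 0 7 8 9 1 1), (3, .pl 0 2 6 7), (16, .ce 4 6 7 4 7 9), (6, .lf 4 6 7 7 4 6), (6, .rt 0 1 3 0 1 3), (1, .am 0 5 7 8 1 1), (3, .am 0 2 7 9 1 1), (10, .lf 5 7 8 8 5 7), (2, .am 0 5 7 9 1 1), (6, .rt 9 0 2 9 0 2), (6, .rt 7 8 0 7 8 0)]) (.leaf [(36, .lf 4 6 7 7 4 6), (24, .rt 0 1 3 0 1 3), (60, .rt 9 0 2 9 0 2), (64, .cf 0 1 3 0 3 8), (9, .am 0 6 7 8 1 1), (15, .pl 0 2 6 7), (15, .am 0 2 7 8 1 1), (12, .am 0 1 7 8 1 1), (18, .am 0 6 8 9 1 1), (24, .rt 8 9 1 8 9 1), (20, .tb 5 1 2), (36, .lf 6 8 9 9 6 8), (32, .ce 4 6 7 4 7 8), (30, .am 0 2 8 9 1 1), (20, .lf 4 6 7 7 4 5), (12, .pl 0 1 6 7), (60, .rt 0 1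 3 0 2 3), (20, .cf 0 1 3 0 3 7), (24, .ce 4 6 7 4 7 9), (12, .am 0 7 8 9 1 1)]) (.leaf [(136, .lf 4 6 7 7 4 6), (64, .ce 4 6 7 4 7 0), (27, .am 0 1 6 8 1 1), (6, .am 1 6 7 8 1 1), (12, .am 0 1 7 8 1 1), (72, .cf 0 1 3 0 3 8), (72, .rt 0 1 3 0 1 3), (88, .c4 5), (32, .am 0 5 7 9 1 1), (72, .ce 4 6 7 4 7 9), (136, .lf 6 8 9 9 6 8), (56, .am 0 6 8 9 1 1), (72, .rt 8 9 1 8 9 1), (1, .am 0 5 6 8 1 1), (33, .pl 0 1 5 6), (24, .rt 7 8 0 7 8 0), (12, .am 5 6 8 9 1 1), (52, .am 5 7 8 9 1 1), (42, .am 5 6 7 8 1 1), (88, .lf 5 7 8 8 5 7)]))) (.pr 2 2 (.ch 5 (.leaf [(108, .lf 6 8 9 9 6 8), (7, .am 0 5 8 9 1 1), (42, .rt 8 9 1 8 9 1), (126, .rt 5 6 8 5 6 8), (36, .am 1 7 8 9 1 1), (42, .ce 4 6 7 4 7 9), (60, .cf 0 1 3 0 3 8), (30, .am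 0 5 7 9 1 1), (60, .rt 9 0 2 9 0 2), (23, .am 0 1 8 9 1 1), (60, .rt 0 1 3 0 1 3), (15, .am 5 6 7 8 1 1), (60, .rt 7 8 0 7 8 0), (74, .am 5 6 8 9 1 1), (27, .am 1 6 7 8 1 1), (37, .pl 0 1 5 6), (18, .rt 7 8 0 7 8 1), (60, .cf 9 0 2 9 2 6), (42, .lf 4 6 7 7 4 6), (10, .am 1 6 8 9 1 1)]) (.leaf [(10, .lf 7 9 0 0 7 9), (6, .lf 4 6 7 7 4 6), (3, .am 0 1 7 8 1 1), (6, .lf 6 8 9 9 6 8), (6, .rt 9 0 2 9 0 2), (6, .rt 7 8 0 7 8 0), (4, .am 5 7 8 9 1 1), (1, .am 0 5 7 8 1 1), (10, .lf 5 7 8 8 5 7), (3, .am 0 6 7 9 1 1), (16, .ce 4 6 7 4 7 9), (6, .rt 0 1 3 0 2 3), (3, .pl 0 1 5 7), (6, .rt 0 1 3 0 1 3), (2, .am 0 5 7 9 1 1), (3, .pl 0 2 6 7), (10, .lf 4 6 7 7 4 5), (3, .am 0 2 7 9 1 1), (6, .rt 8 9 1 8 9 1), (8, .am 0 7 8 9 1 1),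 (12, .cf 0 1 3 0 3 8)]) (.leaf [(15, .am 0 2 7 8 1 1), (24, .rt 8 9 1 8 9 1), (15, .pl 0 2 6 7), (36, .lf 4 6 7 7 4 6), (12, .am 0 1 7 8 1 1), (20, .tb 5 1 2), (36, .lf 6 8 9 9 6 8), (9, .am 0 6 7 8 1 1), (18, .am 0 6 8 9 1 1), (24, .ce 4 6 7 4 7 9), (20, .lf 4 6 7 7 4 5), (64, .cf 0 1 3 0 3 8), (24, .rt 0 1 3 0 1 3), (12, .pl 0 1 6 7), (12, .am 0 7 8 9 1 1), (60, .rt 9 0 2 9 0 2), (30, .am 0 2 8 9 1 1), (20, .cf 0 1 3 0 3 7), (60, .rt 0 1 3 0 2 3), (32, .ce 4 6 7 4 7 8)]) (.leaf [(72, .rt 8 9 1 8 9 1), (52, .am 5 7 8 9 1 1), (88, .c4 5), (42, .am 5 6 7 8 1 1), (12, .am 0 1 7 8 1 1), (72, .rt 0 1 3 0 1 3), (72, .cf 0 1 3 0 3 8), (56, .am 0 6 8 9 1 1), (12, .am 5 6 8 9 1 1), (1, .am 0 5 6 8 1 1), (72, .ce 4 6 7 4 7 9), (136,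 .lf 6 8 9 9 6 8), (27, .am 0 1 6 8 1 1), (24, .rt 7 8 0 7 8 0), (32, .am 0 5 7 9 1 1), (64, .ce 4 6 7 4 7 0), (6, .am 1 6 7 8 1 1), (136, .lf 4 6 7 7 4 6), (88, .lf 5 7 8 8 5 7), (33, .pl 0 1 5 6)])) (.ch 5 (.leaf [(42, .ce 4 6 7 4 7 9), (60, .cf 0 1 3 0 3 8), (36, .am 1 7 8 9 1 1), (42, .lf 4 6 7 7 4 6), (60, .rt 0 1 3 0 1 3), (18, .rt 7 8 0 7 8 1), (126, .rt 5 6 8 5 6 8), (60, .rt 9 0 2 9 0 2), (60, .cf 9 0 2 9 2 6), (27, .am 1 6 7 8 1 1), (15, .am 5 6 7 8 1 1), (42, .rt 8 9 1 8 9 1), (74, .am 5 6 8 9 1 1), (30, .am 0 5 7 9 1 1), (10, .am 1 6 8 9 1 1), (37, .pl 0 1 5 6), (60, .rt 7 8 0 7 8 0), (7, .am 0 5 8 9 1 1), (108, .lf 6 8 9 9 6 8), (23, .am 0 1 8 9 1 1)]) (.leaf [(3, .am 0 6 7 9 1 1), (16, .cf 0 1 3 0 3 8), (2, .am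 0 2 7 8 1 1), (3, .am 0 5 7 8 1 1), (3, .am 0 1 7 8 1 1), (8, .am 0 7 8 9 1 1), (10, .rt 7 8 0 7 8 0), (6, .rt 0 1 3 0 1 3), (4, .am 0 2 8 9 1 1), (10, .rt 9 0 2 9 0 2), (6, .lf 4 6 7 7 4 5), (6, .lf 5 7 8 8 5 7), (6, .lf 7 9 0 0 7 9), (6, .rt 8 9 1 8 9 1), (3, .pl 0 2 6 7), (10, .rt 0 1 3 0 2 3), (3, .pl 0 1 5 7), (6, .lf 6 8 9 9 6 8), (1, .am 0 2 7 9 1 1), (12, .ce 4 6 7 4 7 9), (6, .lf 4 6 7 7 4 6)]) (.leaf [(20, .lf 6 8 9 9 6 8), (15, .am 0 2 7 8 1 1), (15, .pl 0 2 6 7), (24, .ce 4 6 7 4 7 9), (16, .lf 6 8 9 9 5 8), (60, .rt 0 1 3 0 2 3), (12, .am 0 7 8 9 1 1), (24, .rt 0 1 3 0 1 3), (12, .am 0 1 7 8 1 1), (20, .tb 5 1 2), (32, .ce 4 6 7 4 7 8), (8, .am 0 5 8 9 1 1), (30, .am 0 2 8 9 1 1), (5, .am 0 6 7 8 1 1), (20, .lf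 4 6 7 7 4 6), (4, .am 0 5 7 8 1 1), (64, .cf 0 1 3 0 3 8), (60, .rt 9 0 2 9 0 2), (10, .am 0 6 8 9 1 1), (12, .pl 0 1 5 7), (20, .cf 0 1 3 0 3 7), (36, .lf 4 6 7 7 4 5), (24, .rt 8 9 1 8 9 1)]) (.leaf [(72, .rt 0 1 3 0 1 3), (52, .am 5 7 8 9 1 1), (32, .am 0 5 7 9 1 1), (136, .lf 6 8 9 9 6 8), (72, .ce 4 6 7 4 7 9), (42, .am 5 6 7 8 1 1), (1, .am 0 5 6 8 1 1), (6, .am 1 6 7 8 1 1), (12, .am 0 1 7 8 1 1), (12, .am 5 6 8 9 1 1), (33, .pl 0 1 5 6), (24, .rt 7 8 0 7 8 0), (72, .cf 0 1 3 0 3 8), (88, .lf 5 7 8 8 5 7), (27, .am 0 1 6 8 1 1), (56, .am 0 6 8 9 1 1), (72, .rt 8 9 1 8 9 1), (88, .c4 5), (64, .ce 4 6 7 4 7 0), (136, .lf 4 6 7 7 4 6)])))))))) (.leaf [(1, .pl 0 5 3 8), (1, .pl 1 9 8 5), (1, .rt 7 8 0 7 8 0), (1, .lf 8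 0 1 1 8 0), (1, .pl 0 3 7 8), (1, .pl 0 1 5 9)])) (.leaf [(1, .rt 7 8 0 7 0 2), (1, .lf 0 2 3 3 9 0), (1, .pl 2 3 7 9), (1, .rt 7 8 0 7 8 0), (1, .lf 0 2 3 3 8 9), (1, .lf 0 2 3 3 0 2), (1, .pl 3 9 8 7)])) (.leaf [(1, .lf 9 1 2 2 9 1), (1, .lf 9 1 2 3 8 9), (1, .pl 3 9 8 7), (1, .rt 7 8 0 7 8 0), (1, .rt 7 8 0 7 0 1), (1, .pl 1 2 7 9)])) (.pr 5 2 (.leaf [(1, .lf 7 9 0 0 6 7), (1, .pl 1 8 6 5), (1, .rt 5 6 8 4 8 9), (1, .rt 5 6 8 5 6 8), (1, .lf 7 9 0 0 7 9), (1, .pl 1 6 8 4), (1, .pl 0 9 6 4)]) (.pr 4 2 (.leaf [(1, .pl 0 5 6 9), (2, .rt 4 5 7 4 6 9), (3, .rt 4 5 7 4 5 7), (2, .rt 4 5 7 4 7 8), (2, .lf 7 9 0 0 5 9), (1, .pl 0 7 6 4), (2, .pl 0 9 5 4), (2, .lf 7 9 0 0 6 8), (1, .pl 0 3 5 4), (2, .pl 0 8 3 4), (1, .pl 0 3 7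 9), (1, .lf 5 7 8 9 5 7), (1, .pl 3 9 4 6)]) (.pr 6 2 (.leaf [(1, .pl 1 7 8 4), (2, .pl 0 8 7 6), (1, .pl 4 9 8 5), (1, .pl 1 9 7 5), (1, .pl 0 9 7 4), (2, .pl 0 9 8 1), (3, .rt 6 7 9 6 7 9), (3, .lf 7 9 0 0 7 9), (1, .pl 2 7 8 5), (1, .pl 2 9 7 6), (1, .pl 1 9 8 2), (2, .pl 5 9 8 6)]) (.pr 9 2 (.pr 0 2 (.pr 8 2 (.pr 2 2 C3333666654_1 C3333666654_2) (.leaf [(4, .lf 4 6 7 7 4 5), (4, .lf 4 6 7 7 4 6), (2, .pl 0 1 6 7), (1, .am 0 5 7 9 1 1), (4, .lf 6 8 9 9 6 8), (1, .am 0 1 7 9 1 1), (4, .ce 4 6 7 4 7 9), (4, .ce 4 6 7 4 7 0), (4, .lf 8 0 1 1 8 0), (2, .am 5 7 8 9 1 1), (2, .am 1 7 8 9 1 1), (2, .am 0 6 7 9 1 1), (4, .lf 5 7 8 8 5 7), (1, .pl 0 1 5 7), (4, .lf 7 9 0 0 7 9)])) (.leaf [(1, .rt 9 0 2 9 0 2), (1, .pl 0 7 3 1),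 (1, .lf 0 2 3 3 0 2), (1, .pl 1 7 3 5), (1, .pl 0 9 8 2), (1, .pl 1 8 7 5), (1, .pl 0 8 7 1), (1, .pl 2 3 8 5)])) (.leaf [(4, .lf 7 9 0 0 7 9), (1, .am 1 2 7 8 1 1), (12, .lf 9 1 2 2 8 1), (6, .am 1 6 8 9 1 1), (2, .am 1 2 8 9 1 1), (12, .lf 6 8 9 9 6 8), (8, .lf 7 9 0 1 7 9), (12, .ce 5 7 8 5 8 1), (12, .lf 4 6 7 7 4 6), (4, .am 0 2 8 9 1 1), (8, .am 0 2 7 8 1 1), (12, .lf 9 1 2 2 9 0), (12, .ce 4 6 7 4 7 0), (9, .pl 1 2 6 7), (12, .lf 5 7 8 8 5 7), (3, .am 1 6 7 8 1 1)])))))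

theorem ok_3333666654 : chk C3333666654 ⟨19207129941630087637244080142, [], [], [], [], []⟩ = true := by decide +kernel

end Pool.Agent.H146.TW
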