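import Pool.Agent.H292.TW.Chk3

/-!
Project TWELVE (helper221): certificate tree of one order pattern (helper146).
-/

set_option autoImplicit false
set_option maxRecDepth 100000

namespace Pool.Agent.H146.TW

open Pool.Agent.H292.TW.Chk

def C3334666554 : Tr :=
  .pr 6 2 (.pr 9 2 (.pr 7 2 (.pr 0 2 (.pr 8 2 (.leaf [(48, .rt 7 8 0 7 8 0), (36, .cf 9 0 2 9 2 7), (3, .pl 0 2 6 7), (3, .am 0 2 7 8 1 1), (48, .cf 0 1 3 0 3 8), (12, .am 0 5 7 9 1 1), (48, .rt 9 0 2 9 0 2), (2, .am 0 6 8 9 1 1), (4, .am 0 5 8 9 1 1), (32, .rt 6 7 9 5 7 9), (2, .am 0 5 7 8 1 1), (1, .am 0 6 7 8 1 1), (36, .rt 0 1 3 0 1 3), (6, .am 0 2 8 9 1 1), (18, .am 0 1 7 8 1 1), (18, .pl 0 1 5 7), (12, .rt 0 1 3 0 2 3), (24, .am 0 7 8 9 1 1), (4, .rt 6 7 9 6 7 9), (36, .rt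 8 9 1 8 9 1)]) (.leaf [(2, .rt 7 8 0 7 9 0), (1, .cf 9 0 2 9 2 7), (1, .rt 9 0 2 9 0 2), (1, .pl 0 1 6 7), (1, .am 0 6 7 9 1 1), (1, .am 0 1 7 8 1 1), (2, .rt 7 8 0 7 8 0), (2, .lf 8 0 1 1 8 0), (2, .rt 6 7 9 6 7 9), (1, .rt 9 0 2 8 0 2), (1, .cf 9 0 2 8 2 7)])) (.leaf [(1, .lf 0 2 3 3 0 2), (1, .rt 9 0 2 9 0 2), (1, .pl 0 8 3 5), (1, .pl 0 9 8 2), (1, .pl 2 3 8 5)])) (.leaf [(1, .rt 6 7 9 6 7 9), (1, .lf 7 9 0 0 7 9), (1, .pl 2 9 8 6), (1, .pl 1 8 7 6), (1, .pl 0 9 7 1), (1, .pl 1 9 8 2)])) (.leaf [(1, .pl 2 9 8 6), (1, .pl 1 2 6 9), (1, .pl 0 2 6 7), (1, .rt 6 7 9 6 7 9), (1, .lf 9 1 2 2 8 0), (1, .rt 6 7 9 6 0 1), (2, .rt 6 7 9 6 9 0), (1, .rt 6 7 9 6 8 9), (1, .lf 9 1 2 2 7 1)])) (.pr 4 2 (.leaf [(1, .lf 6 8 9 9 5 8), (1, .rt 4 5 7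 4 7 8), (1, .lf 6 8 9 0 6 7), (1, .pl 4 5 7 9), (2, .rt 4 5 7 4 5 7), (1, .pl 0 7 8 9), (1, .lf 6 8 9 0 5 6), (1, .pl 0 8 5 4)]) (.pr 3 2 (.leaf [(1, .lf 4 6 7 7 4 6), (1, .pl 2 3 7 6), (1, .pl 1 7 3 4), (1, .pl 1 3 7 2), (1, .rt 3 4 6 3 4 6)]) (.pr 5 2 (.leaf [(1, .pl 4 8 7 5), (1, .pl 1 8 6 5), (3, .rt 5 6 8 5 6 8), (1, .pl 1 7 6 5), (1, .lf 6 8 9 9 6 8), (1, .pl 0 3 6 1), (1, .pl 3 9 4 7), (1, .pl 0 8 6 4), (1, .pl 1 6 7 9), (2, .lf 6 8 9 0 6 8), (1, .pl 3 4 5 6), (1, .pl 0 8 3 5), (1, .pl 1 3 8 9)]) (.pr 9 2 (.pr 0 2 (.pr 8 2 (.pr 7 2 (.leaf [(76, .rt 0 1 3 0 2 3), (6, .pl 0 1 5 6), (24, .rt 8 9 1 8 9 1), (76, .rt 9 0 2 9 0 2), (44, .lf 4 6 7 7 4 6), (19, .am 0 2 7 8 1 1), (56, .rt 7 8 0 7 8 0), (26, .am 0 6 8 9 1 1), (8, .lf 5 7 8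 8 5 6), (52, .lf 6 8 9 9 6 8), (12, .am 0 7 8 9 1 1), (6, .am 0 1 6 7 1 1), (8, .lf 3 5 6 6 3 5), (2, .am 0 5 6 7 1 1), (108, .cf 0 1 3 0 3 8), (24, .rt 0 1 3 0 1 3), (4, .am 0 5 7 8 1 1), (12, .am 0 1 7 8 1 1), (38, .am 0 2 8 9 1 1), (9, .am 0 6 7 8 1 1), (20, .ce 4 6 7 4 7 0), (24, .ce 4 6 7 4 7 9), (8, .pl 0 3 7 6), (19, .pl 0 2 6 7)]) (.leaf [(4, .am 0 5 7 9 1 1), (24, .cf 0 1 3 0 3 8), (16, .am 0 6 8 9 1 1), (12, .lf 4 6 7 7 4 5), (24, .lf 4 6 7 7 4 6), (2, .am 1 7 8 9 1 1), (14, .rt 0 1 3 0 1 3), (22, .lf 7 9 0 0 7 9), (2, .am 1 6 7 9 1 1), (2, .am 0 1 7 9 1 1), (36, .ce 4 6 7 4 7 9), (8, .am 5 7 8 9 1 1), (10, .pl 0 3 7 6), (5, .am 0 1 6 8 1 1), (22, .lf 5 7 8 8 5 7), (24, .lf 6 8 9 9 6 8), (7, .pl 0 1 5 6), (14, .rt 8 9 1 8 9 1),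 (3, .am 0 5 6 8 1 1), (12, .am 6 7 8 9 1 1), (10, .lf 3 5 6 6 3 5)])) (.leaf [(6, .am 5 6 8 9 1 1), (6, .am 5 7 8 9 1 1), (4, .am 0 6 7 8 1 1), (28, .ce 4 6 7 4 7 0), (8, .rt 9 0 2 9 0 2), (2, .am 0 1 8 9 1 1), (1, .am 0 5 6 8 1 1), (4, .am 1 6 7 9 1 1), (12, .lf 3 5 6 6 3 5), (8, .lf 4 6 7 7 4 5), (8, .cf 9 0 2 9 2 7), (10, .am 0 1 7 8 1 1), (6, .am 0 5 8 9 1 1), (20, .lf 5 7 8 8 5 7), (20, .lf 6 8 9 9 6 8), (20, .lf 8 0 1 1 8 0), (1, .am 0 1 6 8 1 1), (20, .lf 4 6 7 7 4 6), (12, .ce 3 5 6 3 6 7), (2, .pl 0 1 5 7), (5, .pl 0 1 5 6)])) (.leaf [(1, .pl 0 9 3 4), (1, .pl 1 9 8 5), (1, .lf 0 2 3 3 0 2), (1, .pl 1 3 8 4), (1, .pl 2 3 9 5), (1, .pl 1 8 9 4), (1, .pl 1 8 3 5), (1, .rt 9 0 2 9 0 2)])) (.pr 7 2 (.leaf [(1, .pl 2 9 7 6), (2, .rt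 7 8 0 7 8 1), (1, .am 1 2 7 8 1 1), (2, .ce 4 6 7 4 7 9), (1, .lf 6 8 9 1 6 8), (1, .pl 1 2 6 7), (2, .lf 4 6 7 7 4 6), (1, .lf 6 8 9 9 6 8), (2, .lf 9 1 2 2 8 9), (2, .lf 9 1 2 2 8 1), (1, .am 2 7 8 9 1 1)]) (.leaf [(2, .pl 1 2 6 7), (12, .ce 5 7 8 5 8 1), (12, .ce 4 6 7 4 7 0), (12, .lf 9 1 2 2 9 1), (5, .am 0 2 7 8 1 1), (8, .lf 7 9 0 1 7 9), (4, .am 1 2 7 8 1 1), (3, .am 0 6 7 8 1 1), (12, .lf 9 1 2 2 8 0), (4, .lf 7 9 0 0 7 9), (2, .am 1 6 8 9 1 1), (12, .lf 6 8 9 9 6 8), (4, .am 0 6 8 9 1 1), (6, .am 1 2 8 9 1 1), (12, .lf 4 6 7 7 4 6), (12, .lf 5 7 8 8 5 7), (7, .pl 0 2 6 7)]))))))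

theorem ok_3334666554 : chk C3334666554 ⟨19207120496897122035392606222, [], [], [], [], []⟩ = true := by decide +kernel

end Pool.Agent.H146.TW
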