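import Pool.Agent.H292.TW.Chk3

/-!
Project TWELVE (helper221): certificate tree of one order pattern (helper146).
-/

set_option autoImplicit false
set_option maxRecDepth 100000

namespace Pool.Agent.H146.TW

open Pool.Agent.H292.TW.Chk

def C3344665554 : Tr :=
  .pr 7 2 (.pr 9 2 (.pr 0 2 (.pr 8 2 (.pr 5 2 (.leaf [(12, .rt 5 6 8 5 7 9), (12, .rt 8 9 1 8 9 1), (4, .am 0 1 7 8 1 1), (7, .pl 0 1 5 7), (2, .am 1 7 8 9 1 1), (12, .rt 0 1 3 0 1 3), (16, .rt 9 0 2 9 0 2), (7, .am 0 5 7 9 1 1), (4, .rt 5 6 8 5 7 8), (1, .am 0 1 7 9 1 1), (8, .am 0 7 8 9 1 1), (16, .cf 9 0 2 9 2 7), (12, .cf 0 1 3 0 3 8), (16, .rt 7 8 0 7 8 0), (2, .am 5 7 8 9 1 1)]) (.pr 4 2 (.leaf [(1, .pl 0 5 6 8), (1, .pl 0 7 2 4), (1, .pl 5 9 8 7), (1, .pl 2 8 4 6),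 (1, .pl 2 9 8 7), (1, .pl 0 6 2 9), (2, .lf 5 7 8 8 5 7), (2, .rt 4 5 7 4 5 7), (1, .pl 4 5 6 9), (2, .pl 0 2 7 9), (1, .pl 0 7 5 4)]) (.pr 6 2 (.leaf [(9, .rt 6 7 9 5 7 9), (1, .am 5 7 8 9 1 1), (2, .am 1 7 8 9 1 1), (2, .am 0 5 8 9 1 1), (9, .rt 9 0 2 9 0 2), (5, .pl 0 1 5 7), (9, .cf 0 1 3 0 3 8), (3, .am 0 5 7 9 1 1), (9, .cf 9 0 2 9 2 7), (3, .am 0 1 7 8 1 1), (1, .am 0 1 8 9 1 1), (3, .am 0 7 8 9 1 1), (9, .rt 7 8 0 7 8 0), (9, .rt 0 1 3 0 1 3), (9, .rt 8 9 1 8 9 1)]) (.pr 3 2 (.leaf [(1, .rt 3 4 6 3 4 6), (1, .pl 3 4 5 7), (1, .lf 4 6 7 7 4 6), (1, .pl 3 5 6 7)]) (.pr 2 2 (.leaf [(3, .am 0 1 6 7 1 1), (19, .pl 0 2 6 5), (10, .ce 4 6 7 4 7 0), (3, .pl 0 1 5 6), (22, .lf 4 6 7 7 4 6), (12, .rt 8 9 1 8 9 1), (38, .rt 9 0 2 9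 0 2), (54, .cf 0 1 3 0 3 8), (19, .pl 2 3 8 6), (4, .lf 5 7 8 8 5 6), (4, .pl 0 3 7 6), (2, .am 0 5 7 8 1 1), (12, .ce 4 6 7 4 7 9), (28, .rt 7 8 0 7 8 0), (6, .am 0 1 7 8 1 1), (13, .am 0 6 8 9 1 1), (26, .lf 6 8 9 9 6 8), (23, .lf 3 5 6 6 3 5), (38, .rt 0 1 3 0 2 3), (14, .am 0 6 7 8 1 1), (19, .rt 2 3 5 2 3 5), (1, .am 0 5 6 7 1 1), (6, .am 0 7 8 9 1 1), (12, .rt 0 1 3 0 1 3), (19, .am 0 2 8 9 1 1)]) (.pr 1 2 (.ch 5 (.leaf [(2, .am 0 5 7 9 1 1), (4, .lf 2 4 5 5 2 4), (4, .rt 7 8 0 7 8 0), (2, .pl 0 9 5 4), (2, .rt 5 6 8 5 7 8), (13, .lf 6 8 9 9 6 8), (2, .am 6 7 8 9 1 1), (8, .am 5 6 8 9 1 1), (1, .am 4 5 6 9 1 1), (2, .am 4 6 7 8 1 1), (4, .lf 4 6 7 7 4 6), (1, .am 4 5 8 9 1 1), (2, .cf 9 0 2 9 2 8), (2, .cf 9 0 2 9 2 7), (4,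 .rt 9 0 2 9 0 2), (4, .ce 2 4 5 2 5 6), (13, .rt 5 6 8 5 6 8)]) (.leaf [(24, .pl 0 3 7 6), (64, .lf 6 8 9 9 6 8), (8, .am 0 7 8 9 1 1), (36, .am 5 7 8 9 1 1), (32, .am 0 6 8 9 1 1), (48, .lf 4 6 7 7 4 5), (18, .am 0 5 7 9 1 1), (72, .lf 7 9 0 0 7 9), (72, .lf 5 7 8 8 5 7), (16, .rt 7 8 0 7 8 0), (21, .pl 0 1 5 6), (28, .am 1 7 8 9 1 1), (21, .am 0 1 6 7 1 1), (16, .rt 8 9 1 8 0 1), (16, .am 0 6 7 8 1 1), (56, .rt 0 1 3 0 1 3), (24, .lf 3 5 6 6 3 5), (80, .cf 0 1 3 0 3 8), (3, .am 0 5 6 7 1 1), (112, .ce 4 6 7 4 7 9), (64, .lf 4 6 7 7 4 6), (14, .am 0 1 7 9 1 1), (40, .rt 8 9 1 8 9 1)]) (.leaf [(9, .am 0 5 6 7 1 1), (28, .cf 9 0 2 8 2 7), (48, .lf 4 6 7 7 4 6), (10, .lf 4 6 7 7 4 5), (36, .ce 4 6 7 4 7 9), (56, .rt 0 1 3 0 2 3),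 (18, .am 0 7 8 9 1 1), (14, .pl 0 2 7 8), (12, .am 0 6 7 8 1 1), (36, .rt 0 1 3 0 1 3), (48, .lf 6 8 9 9 6 8), (28, .tb 5 1 2), (9, .am 0 1 6 7 1 1), (36, .rt 8 9 1 8 9 1), (84, .rt 9 0 2 9 0 2), (42, .am 0 2 8 9 1 1), (22, .ce 4 6 7 4 7 8), (18, .lf 3 5 6 6 3 5), (9, .pl 0 1 5 6), (24, .am 0 6 8 9 1 1), (18, .am 0 1 7 8 1 1), (110, .cf 0 1 3 0 3 8), (18, .pl 0 3 7 6)]) (.leaf [(12, .am 0 1 7 8 1 1), (34, .lf 5 7 8 8 5 7), (16, .am 5 7 8 9 1 1), (16, .ce 4 6 7 4 7 0), (6, .pl 0 2 6 5), (24, .rt 8 9 1 8 9 1), (6, .lf 2 4 5 5 2 4), (24, .rt 0 1 3 0 1 3), (2, .am 0 5 7 9 1 1), (9, .pl 0 1 5 6), (6, .am 1 6 7 8 1 1), (6, .rt 0 1 3 0 2 3), (6, .am 4 5 7 9 1 1), (52, .lf 6 8 9 9 6 8), (24, .ce 4 6 7 4 7 9), (7, .am 0 5 6 8 1 1), (12,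 .rt 7 8 0 7 8 0), (6, .ce 5 7 8 4 9 0), (3, .am 0 1 6 8 1 1), (12, .am 5 6 7 8 1 1), (26, .am 0 6 8 9 1 1), (52, .lf 4 6 7 7 4 6), (30, .cf 0 1 3 0 3 8), (34, .c4 5)])) (.ch 5 (.leaf [(2, .pl 0 9 5 4), (8, .am 5 6 8 9 1 1), (4, .rt 7 8 0 7 8 0), (4, .lf 2 4 5 5 2 4), (14, .lf 6 8 9 9 6 8), (2, .am 0 6 7 8 1 1), (1, .am 0 5 6 9 1 1), (2, .am 4 5 7 9 1 1), (14, .rt 5 6 8 5 6 8), (1, .am 5 6 7 8 1 1), (4, .lf 4 6 7 7 4 6), (4, .cf 9 0 2 9 2 8), (1, .am 0 5 8 9 1 1), (4, .rt 9 0 2 9 0 2), (1, .am 6 7 8 9 1 1), (4, .ce 2 4 5 2 5 6)]) (.leaf [(21, .pl 0 1 5 6), (56, .rt 0 1 3 0 1 3), (48, .lf 4 6 7 7 4 5), (40, .rt 8 9 1 8 9 1), (32, .am 0 6 8 9 1 1), (24, .pl 0 3 7 6), (8, .am 0 7 8 9 1 1), (72, .lf 5 7 8 8 5 7), (16, .rt 8 9 1 8 0 1),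 (16, .rt 7 8 0 7 8 0), (3, .am 0 5 6 7 1 1), (24, .lf 3 5 6 6 3 5), (18, .am 0 5 7 9 1 1), (16, .am 0 6 7 8 1 1), (21, .am 0 1 6 7 1 1), (64, .lf 6 8 9 9 6 8), (14, .am 0 1 7 9 1 1), (28, .am 1 7 8 9 1 1), (64, .lf 4 6 7 7 4 6), (72, .lf 7 9 0 0 7 9), (112, .ce 4 6 7 4 7 9), (36, .am 5 7 8 9 1 1), (80, .cf 0 1 3 0 3 8)]) (.leaf [(10, .lf 4 6 7 7 4 5), (28, .tb 5 1 2), (24, .am 0 6 8 9 1 1), (18, .am 0 1 7 8 1 1), (42, .am 0 2 8 9 1 1), (12, .am 0 6 7 8 1 1), (22, .ce 4 6 7 4 7 8), (18, .am 0 7 8 9 1 1), (48, .lf 4 6 7 7 4 6), (56, .rt 0 1 3 0 2 3), (110, .cf 0 1 3 0 3 8), (36, .rt 0 1 3 0 1 3), (48, .lf 6 8 9 9 6 8), (18, .pl 0 3 7 6), (18, .lf 3 5 6 6 3 5), (28, .cf 9 0 2 8 2 7), (36, .ce 4 6 7 4 7 9), (14, .pl 0 2 7 8), (84, .rt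 9 0 2 9 0 2), (36, .rt 8 9 1 8 9 1), (9, .pl 0 1 5 6), (9, .am 0 5 6 7 1 1), (9, .am 0 1 6 7 1 1)]) (.leaf [(34, .c4 5), (6, .rt 0 1 3 0 2 3), (12, .am 5 6 7 8 1 1), (52, .lf 6 8 9 9 6 8), (26, .am 0 6 8 9 1 1), (24, .rt 8 9 1 8 9 1), (16, .am 5 7 8 9 1 1), (6, .ce 5 7 8 4 9 0), (7, .am 0 5 6 8 1 1), (6, .am 4 5 7 9 1 1), (16, .ce 4 6 7 4 7 0), (34, .lf 5 7 8 8 5 7), (24, .ce 4 6 7 4 7 9), (12, .am 0 1 7 8 1 1), (6, .lf 2 4 5 5 2 4), (30, .cf 0 1 3 0 3 8), (6, .am 1 6 7 8 1 1), (2, .am 0 5 7 9 1 1), (3, .am 0 1 6 8 1 1), (12, .rt 7 8 0 7 8 0), (6, .pl 0 2 6 5), (24, .rt 0 1 3 0 1 3), (9, .pl 0 1 5 6), (52, .lf 4 6 7 7 4 6)])))))))) (.leaf [(1, .pl 1 9 8 6), (1, .pl 6 9 8 7), (1, .pl 0 2 7 9), (1, .rt 7 8 0 7 8 0), (1, .lf 8 0 1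 1 8 0), (1, .pl 0 1 5 9), (1, .pl 0 5 2 9)])) (.leaf [(1, .pl 2 3 8 5), (1, .rt 9 0 2 9 0 2), (1, .pl 1 3 9 4), (1, .pl 2 8 9 5), (1, .pl 0 8 3 4), (1, .pl 1 9 3 5), (1, .lf 0 2 3 3 0 2), (1, .pl 0 9 8 4)])) (.leaf [(1, .lf 9 1 2 2 8 1), (2, .pl 0 2 7 9), (1, .lf 9 1 2 2 9 0), (1, .pl 0 7 2 1), (1, .rt 7 8 0 7 9 1), (1, .rt 7 8 0 7 8 0), (1, .pl 2 9 8 7)])) (.pr 4 2 (.leaf [(1, .pl 0 9 8 4), (1, .rt 4 5 7 4 8 9), (1, .pl 0 8 5 4), (1, .lf 7 9 0 0 5 6), (1, .rt 4 5 7 4 5 8), (1, .lf 7 9 0 0 7 9), (1, .lf 7 9 0 0 6 7)]) (.pr 6 2 (.leaf [(1, .pl 0 3 7 1), (1, .lf 7 9 0 0 7 9), (1, .pl 1 3 7 5), (1, .pl 1 3 8 4), (1, .pl 1 8 9 4), (1, .pl 0 8 3 4), (1, .pl 1 9 3 5), (1, .pl 0 9 8 4), (1, .rt 6 7 9 5 7 9)]) (.pr 5 2 (.leaf [(1, .lf 4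 6 7 7 4 6), (1, .ce 4 6 7 4 8 9), (1, .lf 4 6 7 8 4 6), (1, .am 0 6 7 9 1 1), (1, .am 5 6 8 9 1 1), (2, .lf 6 8 9 9 6 8), (2, .lf 6 8 9 9 6 7), (1, .ce 4 6 7 4 7 9), (1, .pl 0 9 6 5), (2, .lf 7 9 0 0 7 9), (2, .rt 5 6 8 5 6 8)]) (.pr 3 2 (.leaf [(1, .pl 3 4 6 7), (1, .lf 4 6 7 7 4 6), (1, .rt 3 4 6 3 4 6)]) (.pr 2 2 (.leaf [(1, .lf 3 5 6 6 3 5), (1, .rt 2 3 5 2 3 5), (1, .pl 0 6 2 8), (1, .pl 0 2 6 5), (1, .pl 2 3 8 6)]) (.pr 0 2 (.leaf [(2, .lf 6 8 9 9 6 7), (9, .am 0 5 7 9 1 1), (32, .lf 3 5 6 6 3 5), (46, .ce 4 6 7 4 7 9), (50, .cf 0 1 3 0 3 8), (9, .pl 0 9 5 4), (12, .lf 4 6 7 7 4 5), (44, .lf 5 7 8 8 5 7), (13, .am 5 7 8 9 1 1), (50, .lf 6 8 9 9 6 8), (12, .am 0 6 8 9 1 1), (9, .am 4 6 8 9 1 1), (32, .pl 0 3 7 6), (9, .am 4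 6 7 8 1 1), (18, .rt 0 1 3 0 2 3), (18, .lf 2 4 5 5 2 4), (9, .am 4 5 6 8 1 1), (18, .pl 0 2 6 5), (52, .lf 4 6 7 7 4 6), (46, .lf 7 9 0 0 7 9), (16, .am 0 7 8 9 1 1), (6, .am 0 6 7 8 1 1), (5, .am 5 6 7 9 1 1)]) (.pr 8 2 (.leaf [(1, .lf 0 2 3 3 9 2), (1, .pl 1 8 3 6), (1, .pl 2 3 8 6), (1, .lf 0 2 3 3 0 1), (2, .pl 0 8 3 4), (1, .pl 0 3 8 9), (1, .rt 8 9 1 8 0 2), (1, .rt 8 9 1 8 9 1), (2, .pl 1 3 8 4)]) (.leaf [(32, .lf 7 9 0 0 7 9), (36, .lf 2 4 5 5 2 3), (2, .am 0 5 7 8 1 1), (9, .am 0 1 6 7 1 1), (36, .pl 2 3 5 6), (16, .am 0 6 8 9 1 1), (3, .am 0 5 6 7 1 1), (32, .lf 4 6 7 7 4 6), (32, .lf 6 8 9 9 6 8), (44, .lf 5 7 8 8 5 7), (8, .am 0 6 7 8 1 1), (36, .lf 0 2 3 3 0 2), (9, .pl 0 1 5 6), (4, .am 0 5 3 9 1 1), (12, .ce 3 5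 6 3 6 7), (12, .am 0 7 8 9 1 1), (48, .lf 3 5 6 6 3 5), (36, .lf 8 0 1 1 8 0), (4, .lf 6 8 9 9 5 8), (18, .am 0 1 7 8 1 1), (4, .am 5 7 8 9 1 1), (32, .ce 4 6 7 4 7 9), (28, .pl 0 8 3 5), (4, .pl 3 5 9 8)]))))))))

theorem ok_3344665554 : chk C3344665554 ⟨19207120492285436017032327182, [], [], [], [], []⟩ = true := by decide +kernel

end Pool.Agent.H146.TW
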