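import Pool.Agent.H292.TW.Chk3

/-!
Project TWELVE (helper221): certificate tree of one order pattern (helper146).
-/

set_option autoImplicit false
set_option maxRecDepth 100000

namespace Pool.Agent.H146.TW

open Pool.Agent.H292.TW.Chk

def C3345665544 : Tr :=
  .pr 7 2 (.pr 9 2 (.pr 0 2 (.pr 8 2 (.pr 5 2 (.pr 6 2 (.leaf [(11, .pl 0 1 5 6), (4, .am 1 6 8 9 1 1), (10, .am 0 6 8 9 1 1), (20, .am 6 7 8 9 1 1), (16, .rt 0 1 3 0 1 3), (44, .rt 5 6 8 5 6 8), (5, .am 0 1 6 9 1 1), (22, .am 5 6 8 9 1 1), (16, .cf 0 1 3 0 3 9), (11, .am 0 5 6 9 1 1), (60, .rt 8 9 1 8 9 1), (44, .rt 9 0 2 9 0 2), (44, .cf 9 0 2 9 2 7), (4, .am 1 7 8 9 1 1), (44, .cf 8 9 1 8 1 6), (2, .am 0 6 7 9 1 1), (2, .am 1 6 7 9 1 1), (44, .rt 6 7 9 6 7 9), (44, .rt 7 8 0 7 8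 0), (20, .am 0 6 7 8 1 1)]) (.leaf [(16, .am 5 7 8 9 1 1), (9, .pl 0 1 5 6), (2, .am 5 6 8 9 1 1), (3, .am 0 1 6 9 1 1), (12, .rt 8 9 1 8 9 1), (6, .am 1 6 8 9 1 1), (12, .rt 5 6 8 5 6 8), (24, .rt 5 6 8 5 7 8), (24, .cf 9 0 2 9 2 7), (24, .rt 9 0 2 9 0 2), (1, .am 0 5 6 9 1 1), (8, .rt 7 8 0 6 8 0), (12, .rt 0 1 3 0 1 3), (12, .cf 0 1 3 0 3 9), (16, .rt 7 8 0 7 8 0), (12, .lf 6 8 9 9 6 8), (8, .am 0 5 7 9 1 1)])) (.pr 3 2 (.leaf [(1, .rt 3 4 6 3 4 7), (1, .pl 2 8 3 4), (1, .lf 5 7 8 8 4 7), (1, .pl 2 3 8 7)]) (.pr 6 2 (.leaf [(24, .rt 7 8 0 7 8 0), (10, .pl 0 9 3 6), (10, .rt 0 1 3 0 1 3), (8, .am 1 7 8 9 1 1), (24, .rt 9 0 2 9 0 2), (36, .cf 9 0 2 9 2 7), (2, .am 0 5 7 9 1 1), (2, .am 5 7 8 9 1 1), (4, .am 1 6 7 9 1 1), (22, .rt 8 9 1 8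 9 1), (14, .lf 5 7 8 8 5 7), (5, .am 0 5 6 8 1 1), (2, .am 5 6 7 9 1 1), (12, .am 0 7 8 9 1 1), (12, .rt 9 0 2 9 1 2), (3, .am 0 1 6 8 1 1), (14, .lf 3 5 6 6 3 5), (22, .rt 6 7 9 6 7 9), (16, .am 0 6 7 8 1 1), (24, .ce 3 5 6 3 6 8), (7, .pl 0 1 5 6)]) (.pr 4 2 (.leaf [(15, .rt 4 5 7 4 5 8), (1, .am 4 5 7 8 1 1), (6, .am 0 5 6 8 1 1), (6, .ce 3 5 6 3 6 8), (3, .ce 3 5 6 3 7 8), (12, .rt 9 0 2 9 0 2), (12, .cf 9 0 2 9 2 7), (2, .am 0 5 7 8 1 1), (12, .lf 5 7 8 8 5 7), (6, .am 4 5 8 9 1 1), (2, .am 4 7 8 9 1 1), (6, .lf 3 5 6 6 3 5), (12, .lf 6 8 9 9 5 8), (4, .am 0 7 8 9 1 1), (3, .lf 3 5 6 7 3 5), (8, .pl 0 9 5 4), (12, .rt 7 8 0 6 8 0)]) (.leaf [(24, .lf 5 7 8 8 5 7), (44, .rt 9 0 2 9 0 2), (76, .lf 6 8 9 9 6 8), (8, .rt 8 9 1 8 0 1), (76,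 .lf 3 5 6 6 3 4), (12, .am 5 6 8 9 1 1), (19, .pl 0 9 6 4), (24, .cf 9 0 2 9 2 7), (20, .cf 9 0 2 9 2 8), (2, .am 0 1 6 9 1 1), (108, .ce 3 5 6 3 6 8), (8, .rt 0 1 3 0 1 3), (4, .am 1 6 8 9 1 1), (26, .am 0 6 7 8 1 1), (8, .pl 0 9 3 6), (6, .pl 0 1 5 6), (12, .am 6 7 8 9 1 1), (9, .am 0 6 8 9 1 1), (24, .lf 3 5 6 6 3 5), (6, .am 0 5 6 9 1 1), (76, .lf 4 6 7 7 4 6), (52, .rt 7 8 0 7 8 0), (38, .am 4 6 7 8 1 1), (19, .am 4 6 8 9 1 1)]))))) (.leaf [(1, .pl 0 2 7 3), (2, .rt 7 8 0 7 8 0), (1, .pl 2 3 9 6), (1, .pl 2 9 8 7), (1, .pl 0 1 7 9), (1, .pl 0 1 2 8), (2, .lf 8 0 1 1 8 0), (1, .pl 1 3 8 7), (1, .pl 1 9 3 6)])) (.leaf [(1, .pl 2 3 9 5), (1, .pl 0 9 3 4), (1, .pl 1 9 3 5), (1, .pl 1 3 9 4), (1, .rt 9 0 2 9 0 2), (1, .lf 0 2 3 3 0 2)]))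 (.leaf [(1, .lf 9 1 2 2 8 1), (1, .rt 7 8 0 7 8 0), (1, .rt 7 8 0 7 0 1), (1, .pl 1 2 7 8)])) (.pr 5 2 (.leaf [(1, .rt 5 6 8 5 6 9), (1, .lf 7 9 0 0 6 9), (1, .pl 4 9 6 5), (1, .pl 0 9 8 4), (1, .pl 0 8 6 4)]) (.pr 3 2 (.leaf [(1, .lf 5 7 8 8 5 7), (1, .rt 3 4 6 3 6 7), (1, .lf 5 7 8 8 4 5), (1, .pl 3 4 6 8), (1, .rt 3 4 6 3 4 6), (1, .pl 3 6 7 8)]) (.pr 4 2 (.leaf [(2, .lf 7 9 0 0 7 8), (2, .rt 4 5 7 4 5 7), (1, .pl 0 8 5 4), (2, .ce 3 5 6 3 7 8), (2, .lf 3 5 6 7 3 5), (1, .am 0 5 7 8 1 1), (4, .lf 5 7 8 8 5 7), (1, .am 4 5 7 8 1 1)]) (.pr 6 2 (.leaf [(1, .lf 5 7 8 8 5 7), (1, .lf 5 7 8 9 4 7), (2, .rt 6 7 9 6 7 9), (2, .lf 7 9 0 1 7 8), (1, .pl 0 9 6 4), (1, .pl 1 8 6 5), (2, .lf 7 9 0 0 7 9), (1, .lf 3 5 6 6 3 5), (2, .ce 3 5 6 3 6 8),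 (1, .am 0 6 7 9 1 1), (1, .lf 3 5 6 6 3 4), (1, .am 1 6 7 8 1 1)]) (.leaf [(4, .am 0 6 7 9 1 1), (8, .am 6 7 8 9 1 1), (12, .lf 7 9 0 0 7 9), (12, .lf 5 7 8 8 4 7), (2, .am 4 6 7 8 1 1), (16, .lf 6 8 9 9 6 8), (7, .am 4 6 8 9 1 1), (12, .ce 4 6 7 4 7 9), (16, .lf 4 6 7 7 4 6), (16, .lf 3 5 6 6 3 4), (7, .pl 0 9 6 4), (2, .am 0 6 7 8 1 1), (16, .ce 3 5 6 3 6 8), (1, .am 0 6 8 9 1 1)])))))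

theorem ok_3345665544 : chk C3345665544 ⟨19197449085728519258512584718, [], [], [], [], []⟩ = true := by decide +kernel

end Pool.Agent.H146.TW
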