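import Pool.Agent.H292.TW.Chk3

/-!
Project TWELVE (helper221): certificate tree of one order pattern (helper146).
-/

set_option autoImplicit false
set_option maxRecDepth 100000

namespace Pool.Agent.H146.TW

open Pool.Agent.H292.TW.Chk

def C3433656654_0 : Tr :=
  .ch 1 (.ch 5 (.leaf [(4, .lf 6 8 9 9 6 8), (4, .rt 9 0 2 9 0 2), (2, .rt 7 8 0 7 8 0), (2, .am 4 6 8 9 1 1), (3, .rt 5 6 8 4 6 8), (2, .lf 4 6 7 7 4 6), (1, .cf 7 8 0 7 2 6), (1, .am 4 6 7 8 1 1), (2, .ce 6 8 9 4 9 0), (3, .cf 0 1 3 0 3 8), (1, .am 0 2 7 8 1 1), (3, .rt 0 1 3 0 2 3), (2, .am 0 2 8 9 1 1)]) (.ch 6 (.leaf [(4, .cf 0 1 3 0 3 7), (8, .rt 0 1 3 0 2 3), (4, .rt 8 9 1 8 9 2), (4, .cf 0 1 3 0 3 8), (10, .rt 6 7 9 6 7 9), (5, .am 0 6 7 9 1 1),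 (2, .am 0 7 8 9 1 1), (6, .lf 7 9 0 0 7 9), (4, .rt 9 0 2 9 0 2), (3, .am 0 2 7 9 1 1), (2, .am 2 7 8 9 1 1), (4, .rt 7 8 0 7 8 0), (5, .pl 0 2 6 7)]) (.leaf [(6, .lf 8 0 1 1 8 0), (2, .lf 6 8 9 9 6 7), (2, .ce 4 6 7 4 7 0), (2, .lf 6 8 9 9 6 8), (2, .ce 4 6 7 4 7 9), (2, .am 0 6 8 9 1 1), (2, .lf 7 9 0 0 7 9), (4, .rt 7 8 0 7 8 0), (3, .am 0 1 7 8 1 1), (1, .am 0 6 7 8 1 1), (4, .lf 4 6 7 7 4 6), (3, .pl 0 1 6 7)]) (.leaf [(20, .rt 7 8 0 7 8 0), (4, .tb 6 1 2), (10, .am 0 2 8 9 1 1), (36, .cf 0 1 3 0 3 8), (4, .lf 7 9 0 0 7 9), (16, .rt 0 1 3 0 1 3), (8, .am 6 7 8 9 1 1), (10, .am 0 6 8 9 1 1), (5, .am 0 2 7 8 1 1), (20, .ce 4 6 7 4 7 9), (4, .ta 6 1 2), (20, .lf 4 6 7 7 4 6), (20, .rt 0 1 3 0 2 3), (20, .rt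 9 0 2 9 0 2), (6, .am 0 1 7 8 1 1), (4, .am 0 1 8 9 1 1), (1, .am 0 6 7 8 1 1), (5, .pl 0 2 6 7), (4, .lf 6 8 9 9 6 7), (6, .pl 0 1 6 7)]) (.leaf [(2, .lf 6 8 9 9 6 7), (1, .am 0 2 7 9 1 1), (4, .c4 6), (1, .am 0 6 7 9 1 1), (4, .rt 8 9 1 8 0 1), (2, .cf 0 1 3 0 3 8), (2, .pl 0 1 6 7), (2, .lf 7 9 0 0 6 9), (2, .rt 9 0 2 9 0 2), (2, .am 0 1 7 8 1 1), (2, .rt 0 1 3 0 2 3), (1, .pl 0 2 6 7), (6, .rt 7 8 0 7 8 0), (2, .lf 7 9 0 0 7 9)])) (.leaf [(60, .rt 0 1 3 0 2 3), (36, .lf 4 6 7 7 4 6), (36, .lf 6 8 9 9 6 8), (12, .am 0 7 8 9 1 1), (18, .am 0 6 8 9 1 1), (15, .pl 0 2 6 7), (64, .cf 0 1 3 0 3 8), (24, .rt 0 1 3 0 1 3), (12, .am 0 1 7 8 1 1), (24, .ce 4 6 7 4 7 9), (32, .ce 4 6 7 4 7 8), (30, .am 0 2 8 9 1 1),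 (20, .lf 4 6 7 7 4 5), (60, .rt 9 0 2 9 0 2), (24, .rt 8 9 1 8 9 1), (9, .am 0 6 7 8 1 1), (20, .tb 5 1 2), (15, .am 0 2 7 8 1 1), (12, .pl 0 1 6 7), (20, .cf 0 1 3 0 3 7)]) (.ch 6 (.leaf [(1, .am 5 6 8 9 1 1), (2, .c4 5), (1, .rt 6 7 9 6 7 0), (2, .lf 5 7 8 8 5 6), (1, .pl 0 9 6 5), (1, .am 0 6 7 9 1 1), (1, .cf 0 1 3 0 3 7), (1, .rt 0 1 3 0 1 3), (1, .pl 0 1 6 8), (2, .lf 6 8 9 9 6 8), (1, .rt 8 9 1 8 9 1), (2, .rt 6 7 9 6 7 9), (1, .rt 7 8 0 7 9 0)]) (.leaf [(4, .rt 9 0 2 9 0 2), (1, .am 0 6 7 8 1 1), (8, .lf 4 6 7 7 4 6), (3, .pl 0 2 6 7), (8, .ce 4 6 7 4 7 0), (2, .am 0 6 8 9 1 1), (4, .lf 6 8 9 9 6 8), (4, .cf 7 8 0 7 2 6), (12, .lf 8 0 1 2 8 0), (2, .am 0 2 8 9 1 1), (8, .rt 7 8 0 7 8 0), (7, .am 0 2 7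 8 1 1)]) (.leaf [(2, .rt 9 0 2 9 0 3), (26, .lf 5 7 8 8 5 7), (16, .cf 0 1 3 0 3 8), (2, .cf 9 0 2 9 3 8), (7, .am 0 6 8 9 1 1), (48, .lf 4 6 7 7 4 6), (8, .am 6 7 8 9 1 1), (26, .c4 5), (10, .am 0 6 7 8 1 1), (4, .pl 0 1 6 7), (16, .ce 4 6 7 4 7 9), (28, .ce 4 6 7 4 7 0), (13, .am 5 6 8 9 1 1), (4, .ce 4 6 7 4 7 8), (16, .rt 0 1 3 0 1 3), (4, .am 0 1 7 8 1 1), (16, .ta 6 1 2), (8, .am 0 1 8 9 1 1), (13, .pl 0 9 6 5)]) (.leaf [(8, .rt 9 0 2 9 0 2), (8, .rt 0 1 3 0 2 3), (2, .am 0 6 8 9 1 1), (4, .am 0 2 8 9 1 1), (2, .am 0 2 7 8 1 1), (2, .pl 0 2 6 7), (1, .am 0 1 7 8 1 1), (2, .ce 4 6 7 4 7 0), (1, .pl 0 1 6 7), (2, .rt 8 9 1 8 9 1), (8, .cf 0 1 3 0 3 8), (6, .rt 7 8 0 7 8 0), (1, .am 0 6 7 8 1 1), (4, .lf 6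 8 9 9 6 8), (2, .lf 4 6 7 7 4 6), (2, .c4 6)]))) (.ch 5 (.leaf [(2, .lf 4 6 7 7 4 6), (3, .cf 0 1 3 0 3 8), (1, .cf 7 8 0 7 2 6), (2, .rt 7 8 0 7 8 0), (3, .rt 0 1 3 0 2 3), (3, .rt 5 6 8 4 6 8), (1, .am 0 2 7 8 1 1), (4, .rt 9 0 2 9 0 2), (1, .am 4 6 7 8 1 1), (4, .lf 6 8 9 9 6 8), (2, .am 0 2 8 9 1 1), (2, .am 4 6 8 9 1 1), (2, .ce 6 8 9 4 9 0)]) (.ch 6 (.leaf [(2, .pl 0 2 6 7), (10, .rt 6 7 9 6 7 9), (4, .rt 8 9 1 8 9 1), (1, .am 0 1 7 9 1 1), (4, .cf 0 1 3 0 3 7), (2, .am 0 7 8 9 1 1), (4, .cf 0 1 3 0 3 8), (2, .am 0 2 7 9 1 1), (3, .pl 0 1 6 7), (4, .rt 0 1 3 0 2 3), (4, .rt 0 1 3 0 1 3), (5, .am 0 6 7 9 1 1), (4, .rt 7 8 0 7 8 0), (6, .lf 7 9 0 0 7 9), (4, .rt 9 0 2 9 0 2), (2, .am 1 7 8 9 1 1)]) (.leaf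 [(3, .pl 0 1 6 7), (4, .lf 4 6 7 7 4 6), (2, .ce 4 6 7 4 7 9), (2, .am 0 6 8 9 1 1), (2, .lf 6 8 9 9 6 7), (2, .ce 4 6 7 4 7 0), (2, .lf 6 8 9 9 6 8), (2, .lf 7 9 0 0 7 9), (3, .am 0 1 7 8 1 1), (4, .rt 7 8 0 7 8 0), (1, .am 0 6 7 8 1 1), (6, .lf 8 0 1 1 8 0)]) (.leaf [(20, .rt 0 1 3 0 2 3), (20, .lf 4 6 7 7 4 6), (1, .am 0 6 7 8 1 1), (4, .am 0 1 8 9 1 1), (16, .rt 0 1 3 0 1 3), (4, .ta 6 1 2), (6, .am 0 1 7 8 1 1), (8, .am 6 7 8 9 1 1), (10, .am 0 6 8 9 1 1), (20, .rt 9 0 2 9 0 2), (10, .am 0 2 8 9 1 1), (4, .lf 6 8 9 9 6 7), (4, .lf 7 9 0 0 7 9), (20, .ce 4 6 7 4 7 9), (20, .rt 7 8 0 7 8 0), (5, .pl 0 2 6 7), (36, .cf 0 1 3 0 3 8), (4, .tb 6 1 2), (6, .pl 0 1 6 7), (5, .am 0 2 7 8 1 1)]) (.leaf [(4, .rt 8 9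 1 8 0 1), (1, .pl 0 2 6 7), (2, .am 0 1 7 8 1 1), (2, .lf 6 8 9 9 6 7), (2, .pl 0 1 6 7), (6, .rt 7 8 0 7 8 0), (2, .lf 7 9 0 0 6 9), (2, .rt 0 1 3 0 2 3), (2, .cf 0 1 3 0 3 8), (1, .am 0 2 7 9 1 1), (1, .am 0 6 7 9 1 1), (2, .lf 7 9 0 0 7 9), (4, .c4 6), (2, .rt 9 0 2 9 0 2)])) (.leaf [(60, .rt 0 1 3 0 2 3), (15, .am 0 2 7 8 1 1), (24, .rt 0 1 3 0 1 3), (20, .tb 5 1 2), (20, .cf 0 1 3 0 3 7), (12, .am 0 1 7 8 1 1), (18, .am 0 6 8 9 1 1), (36, .lf 4 6 7 7 4 6), (60, .rt 9 0 2 9 0 2), (32, .ce 4 6 7 4 7 8), (24, .rt 8 9 1 8 9 1), (9, .am 0 6 7 8 1 1), (20, .lf 4 6 7 7 4 5), (30, .am 0 2 8 9 1 1), (15, .pl 0 2 6 7), (24, .ce 4 6 7 4 7 9), (64, .cf 0 1 3 0 3 8), (12, .am 0 7 8 9 1 1), (36, .lf 6 8 9 9 6 8), (12,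 .pl 0 1 6 7)]) (.ch 6 (.leaf [(1, .am 5 6 8 9 1 1), (2, .lf 6 8 9 9 6 8), (1, .am 0 6 7 9 1 1), (2, .c4 5), (1, .rt 7 8 0 7 9 0), (1, .cf 0 1 3 0 3 7), (1, .pl 0 9 6 5), (1, .rt 8 9 1 8 9 1), (1, .rt 0 1 3 0 1 3), (1, .rt 6 7 9 6 7 0), (2, .rt 6 7 9 6 7 9), (1, .pl 0 1 6 8), (2, .lf 5 7 8 8 5 6)]) (.leaf [(2, .am 0 2 8 9 1 1), (1, .am 0 6 7 8 1 1), (8, .rt 7 8 0 7 8 0), (3, .pl 0 1 6 7), (8, .ce 4 6 7 4 7 0), (3, .am 0 1 7 8 1 1), (2, .am 0 6 8 9 1 1), (8, .lf 4 6 7 7 4 6), (4, .cf 7 8 0 7 2 6), (6, .lf 8 0 1 2 8 0), (4, .am 0 2 7 8 1 1), (4, .rt 9 0 2 9 0 2), (6, .lf 8 0 1 1 8 0), (4, .lf 6 8 9 9 6 8)]) (.leaf [(13, .am 4 6 8 9 1 1), (52, .ce 6 8 9 4 9 0), (78, .lf 5 7 8 8 5 7), (12, .ce 4 6 7 4 7 8), (24, .am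 0 1 8 9 1 1), (48, .rt 0 1 3 0 1 3), (48, .ta 6 1 2), (4, .am 0 6 7 8 1 1), (39, .pl 4 9 6 5), (12, .am 0 1 7 8 1 1), (6, .cf 9 0 2 9 2 8), (8, .am 0 6 8 9 1 1), (78, .c4 5), (26, .am 4 6 7 8 1 1), (24, .am 6 7 8 9 1 1), (144, .lf 4 6 7 7 4 6), (48, .ce 4 6 7 4 7 9), (12, .pl 0 1 6 7), (32, .ce 4 6 7 4 7 0), (39, .am 5 6 8 9 1 1), (48, .cf 0 1 3 0 3 8), (6, .rt 9 0 2 9 0 2)]) (.leaf [(1, .pl 0 1 6 7), (2, .am 0 6 8 9 1 1), (2, .pl 0 2 6 7), (4, .lf 6 8 9 9 6 8), (6, .rt 7 8 0 7 8 0), (2, .am 0 2 7 8 1 1), (8, .rt 9 0 2 9 0 2), (1, .am 0 6 7 8 1 1), (4, .am 0 2 8 9 1 1), (8, .cf 0 1 3 0 3 8), (2, .ce 4 6 7 4 7 0), (2, .c4 6), (2, .rt 8 9 1 8 9 1), (1, .am 0 1 7 8 1 1), (8, .rt 0 1 3 0 2 3), (2, .lf 4 6 7 7 4 6)])))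 (.ch 5 (.leaf [(1, .cf 7 8 0 7 2 6), (1, .am 0 2 7 8 1 1), (4, .lf 6 8 9 9 6 8), (2, .rt 7 8 0 7 8 0), (2, .am 4 6 8 9 1 1), (2, .ce 6 8 9 4 9 0), (3, .rt 5 6 8 4 6 8), (4, .rt 9 0 2 9 0 2), (3, .rt 0 1 3 0 2 3), (3, .cf 0 1 3 0 3 8), (2, .am 0 2 8 9 1 1), (1, .am 4 6 7 8 1 1), (2, .lf 4 6 7 7 4 6)]) (.ch 6 (.leaf [(2, .am 0 7 8 9 1 1), (6, .lf 7 9 0 0 7 9), (5, .am 0 6 7 9 1 1), (1, .am 0 1 7 9 1 1), (2, .am 1 7 8 9 1 1), (4, .rt 8 9 1 8 9 1), (2, .am 0 2 7 9 1 1), (4, .rt 0 1 3 0 2 3), (4, .cf 0 1 3 0 3 7), (2, .pl 0 2 6 7), (4, .cf 0 1 3 0 3 8), (3, .pl 0 1 6 7), (10, .rt 6 7 9 6 7 9), (4, .rt 9 0 2 9 0 2), (4, .rt 7 8 0 7 8 0), (4, .rt 0 1 3 0 1 3)]) (.leaf [(2, .lf 7 9 0 0 7 9), (4, .rt 7 8 0 7 8 0), (2,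 .ce 4 6 7 4 7 9), (2, .lf 6 8 9 9 6 8), (3, .am 0 1 7 8 1 1), (2, .ce 4 6 7 4 7 0), (2, .am 0 6 8 9 1 1), (1, .am 0 6 7 8 1 1), (2, .lf 6 8 9 9 6 7), (6, .lf 8 0 1 1 8 0), (4, .lf 4 6 7 7 4 6), (3, .pl 0 1 6 7)]) (.leaf [(20, .lf 4 6 7 7 4 6), (4, .lf 6 8 9 9 6 7), (10, .am 0 2 8 9 1 1), (4, .ta 6 1 2), (20, .rt 7 8 0 7 8 0), (20, .rt 0 1 3 0 2 3), (10, .am 0 6 8 9 1 1), (16, .rt 0 1 3 0 1 3), (20, .rt 9 0 2 9 0 2), (5, .am 0 2 7 8 1 1), (4, .am 0 1 8 9 1 1), (1, .am 0 6 7 8 1 1), (4, .lf 7 9 0 0 7 9), (6, .pl 0 1 6 7), (36, .cf 0 1 3 0 3 8), (20, .ce 4 6 7 4 7 9), (5, .pl 0 2 6 7), (6, .am 0 1 7 8 1 1), (4, .tb 6 1 2), (8, .am 6 7 8 9 1 1)]) (.leaf [(2, .rt 0 1 3 0 2 3), (2, .lf 6 8 9 9 6 7), (2, .am 0 1 7 8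 1 1), (2, .lf 7 9 0 0 7 9), (1, .am 0 2 7 9 1 1), (2, .cf 0 1 3 0 3 8), (2, .pl 0 1 6 7), (2, .lf 7 9 0 0 6 9), (4, .rt 8 9 1 8 0 1), (6, .rt 7 8 0 7 8 0), (1, .am 0 6 7 9 1 1), (4, .c4 6), (1, .pl 0 2 6 7), (2, .rt 9 0 2 9 0 2)])) (.leaf [(24, .rt 0 1 3 0 1 3), (60, .rt 0 1 3 0 2 3), (9, .am 0 6 7 8 1 1), (64, .cf 0 1 3 0 3 8), (12, .pl 0 1 6 7), (30, .am 0 2 8 9 1 1), (15, .am 0 2 7 8 1 1), (18, .am 0 6 8 9 1 1), (36, .lf 6 8 9 9 6 8), (15, .pl 0 2 6 7), (12, .am 0 7 8 9 1 1), (24, .ce 4 6 7 4 7 9), (20, .tb 5 1 2), (60, .rt 9 0 2 9 0 2), (20, .lf 4 6 7 7 4 5), (12, .am 0 1 7 8 1 1), (36, .lf 4 6 7 7 4 6), (24, .rt 8 9 1 8 9 1), (20, .cf 0 1 3 0 3 7), (32, .ce 4 6 7 4 7 8)]) (.ch 6 (.leaf [(1, .am 5 6 8 9 1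 1), (2, .lf 6 8 9 9 6 8), (3, .rt 6 7 9 6 7 9), (2, .c4 5), (1, .rt 8 9 1 8 9 2), (1, .am 0 6 7 9 1 1), (1, .pl 2 9 8 6), (2, .lf 5 7 8 8 5 6), (1, .cf 9 0 2 9 2 7), (1, .pl 0 9 6 5), (2, .rt 7 8 0 7 9 0)]) (.leaf [(4, .rt 9 0 2 9 0 2), (8, .ce 4 6 7 4 7 0), (1, .am 0 6 7 8 1 1), (3, .pl 0 1 6 7), (4, .lf 6 8 9 9 6 8), (4, .am 0 2 7 8 1 1), (6, .lf 8 0 1 1 8 0), (8, .rt 7 8 0 7 8 0), (2, .am 0 2 8 9 1 1), (2, .am 0 6 8 9 1 1), (8, .lf 4 6 7 7 4 6), (3, .am 0 1 7 8 1 1), (6, .lf 8 0 1 2 8 0), (4, .cf 7 8 0 7 2 6)]) (.leaf [(26, .lf 5 7 8 8 5 7), (26, .c4 5), (4, .ce 4 6 7 4 7 8), (2, .rt 9 0 2 9 0 2), (16, .ta 6 1 2), (16, .ce 4 6 7 4 7 9), (2, .cf 9 0 2 9 2 8), (8, .am 6 7 8 9 1 1), (13, .am 5 6 8 9 1 1), (28,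 .ce 4 6 7 4 7 0), (16, .rt 0 1 3 0 1 3), (48, .lf 4 6 7 7 4 6), (16, .cf 0 1 3 0 3 8), (4, .pl 0 1 6 7), (13, .pl 0 9 6 5), (4, .am 0 1 7 8 1 1), (10, .am 0 6 7 8 1 1), (7, .am 0 6 8 9 1 1), (8, .am 0 1 8 9 1 1)]) (.leaf [(2, .c4 6), (1, .am 0 6 7 8 1 1), (6, .rt 7 8 0 7 8 0), (8, .cf 0 1 3 0 3 8), (2, .am 0 2 7 8 1 1), (2, .pl 0 2 6 7), (2, .ce 4 6 7 4 7 0), (8, .rt 9 0 2 9 0 2), (2, .am 0 6 8 9 1 1), (4, .lf 6 8 9 9 6 8), (1, .pl 0 1 6 7), (8, .rt 0 1 3 0 2 3), (1, .am 0 1 7 8 1 1), (4, .am 0 2 8 9 1 1), (2, .rt 8 9 1 8 9 1), (2, .lf 4 6 7 7 4 6)]))) (.ch 5 (.leaf [(3, .rt 0 1 3 0 2 3), (1, .am 4 6 7 8 1 1), (4, .lf 6 8 9 9 6 8), (2, .am 4 6 8 9 1 1), (1, .cf 7 8 0 7 2 6), (3, .cf 0 1 3 0 3 8), (1, .am 0 2 7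 8 1 1), (3, .rt 5 6 8 4 6 8), (2, .ce 6 8 9 4 9 0), (2, .am 0 2 8 9 1 1), (2, .rt 7 8 0 7 8 0), (4, .rt 9 0 2 9 0 2), (2, .lf 4 6 7 7 4 6)]) (.ch 6 (.leaf [(4, .rt 0 1 3 0 1 3), (10, .rt 6 7 9 6 7 9), (4, .rt 8 9 1 8 9 1), (2, .am 0 2 7 9 1 1), (2, .pl 0 2 6 7), (4, .rt 7 8 0 7 8 0), (4, .cf 0 1 3 0 3 7), (2, .am 0 7 8 9 1 1), (1, .am 0 1 7 9 1 1), (5, .am 0 6 7 9 1 1), (6, .lf 7 9 0 0 7 9), (3, .pl 0 1 6 7), (2, .am 1 7 8 9 1 1), (4, .cf 0 1 3 0 3 8), (4, .rt 9 0 2 9 0 2), (4, .rt 0 1 3 0 2 3)]) (.leaf [(4, .rt 7 8 0 7 8 0), (2, .am 0 6 8 9 1 1), (2, .ce 4 6 7 4 7 9), (6, .lf 8 0 1 1 8 0), (1, .am 0 6 7 8 1 1), (2, .lf 7 9 0 0 7 9), (3, .am 0 1 7 8 1 1), (3, .pl 0 1 6 7), (2, .ce 4 6 7 4 7 0), (2, .lf 6 8 9 9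 6 8), (2, .lf 6 8 9 9 6 7), (4, .lf 4 6 7 7 4 6)]) (.leaf [(5, .pl 0 2 6 7), (4, .ta 6 1 2), (6, .am 0 1 7 8 1 1), (4, .lf 6 8 9 9 6 7), (20, .rt 7 8 0 7 8 0), (20, .rt 0 1 3 0 2 3), (20, .lf 4 6 7 7 4 6), (4, .tb 6 1 2), (20, .rt 9 0 2 9 0 2), (8, .am 6 7 8 9 1 1), (6, .pl 0 1 6 7), (5, .am 0 2 7 8 1 1), (4, .am 0 1 8 9 1 1), (10, .am 0 6 8 9 1 1), (4, .lf 7 9 0 0 7 9), (20, .ce 4 6 7 4 7 9), (16, .rt 0 1 3 0 1 3), (36, .cf 0 1 3 0 3 8), (10, .am 0 2 8 9 1 1), (1, .am 0 6 7 8 1 1)]) (.leaf [(1, .am 0 6 7 9 1 1), (2, .lf 7 9 0 0 6 9), (2, .lf 7 9 0 0 7 9), (2, .rt 9 0 2 9 0 2), (4, .c4 6), (1, .am 0 2 7 9 1 1), (1, .pl 0 2 6 7), (2, .pl 0 1 6 7), (6, .rt 7 8 0 7 8 0), (2, .lf 6 8 9 9 6 7), (4, .rt 8 9 1 8 0 1),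 (2, .cf 0 1 3 0 3 8), (2, .am 0 1 7 8 1 1), (2, .rt 0 1 3 0 2 3)])) (.leaf [(36, .lf 4 6 7 7 4 6), (12, .am 0 7 8 9 1 1), (15, .pl 0 2 6 7), (24, .ce 4 6 7 4 7 9), (24, .rt 0 1 3 0 1 3), (64, .cf 0 1 3 0 3 8), (20, .lf 4 6 7 7 4 5), (9, .am 0 6 7 8 1 1), (32, .ce 4 6 7 4 7 8), (36, .lf 6 8 9 9 6 8), (30, .am 0 2 8 9 1 1), (12, .pl 0 1 6 7), (15, .am 0 2 7 8 1 1), (12, .am 0 1 7 8 1 1), (24, .rt 8 9 1 8 9 1), (60, .rt 0 1 3 0 2 3), (20, .cf 0 1 3 0 3 7), (18, .am 0 6 8 9 1 1), (60, .rt 9 0 2 9 0 2), (20, .tb 5 1 2)]) (.ch 6 (.leaf [(1, .pl 0 9 6 5), (1, .rt 7 8 0 7 9 0), (1, .cf 0 1 3 0 3 7), (2, .rt 6 7 9 6 7 9), (1, .am 5 6 8 9 1 1), (1, .am 0 6 7 9 1 1), (1, .rt 6 7 9 6 7 0), (1, .rt 8 9 1 8 9 1), (2, .c4 5),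 (1, .pl 0 1 6 8), (2, .lf 6 8 9 9 6 8), (2, .lf 5 7 8 8 5 6), (1, .rt 0 1 3 0 1 3)]) (.leaf [(4, .lf 6 8 9 9 6 8), (4, .cf 7 8 0 7 2 6), (3, .pl 0 1 6 7), (2, .am 0 2 8 9 1 1), (8, .rt 7 8 0 7 8 0), (2, .am 0 6 8 9 1 1), (4, .rt 9 0 2 9 0 2), (8, .lf 4 6 7 7 4 6), (6, .lf 8 0 1 1 8 0), (3, .am 0 1 7 8 1 1), (1, .am 0 6 7 8 1 1), (4, .am 0 2 7 8 1 1), (8, .ce 4 6 7 4 7 0), (6, .lf 8 0 1 2 8 0)]) (.leaf [(16, .rt 0 1 3 0 1 3), (26, .c4 5), (13, .pl 0 9 6 5), (4, .am 0 1 7 8 1 1), (13, .am 5 6 8 9 1 1), (4, .pl 0 1 6 7), (7, .am 0 6 8 9 1 1), (48, .lf 4 6 7 7 4 6), (16, .cf 0 1 3 0 3 8), (2, .rt 9 0 2 9 0 3), (28, .ce 4 6 7 4 7 0), (10, .am 0 6 7 8 1 1), (16, .ce 4 6 7 4 7 9), (4, .ce 4 6 7 4 7 8), (8, .am 6 7 8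 9 1 1), (26, .lf 5 7 8 8 5 7), (2, .cf 9 0 2 9 3 8), (16, .ta 6 1 2), (8, .am 0 1 8 9 1 1)]) (.leaf [(1, .pl 0 1 6 7), (8, .rt 9 0 2 9 0 2), (4, .lf 6 8 9 9 6 8), (1, .am 0 1 7 8 1 1), (2, .am 0 2 7 8 1 1), (2, .rt 8 9 1 8 9 1), (2, .pl 0 2 6 7), (8, .cf 0 1 3 0 3 8), (1, .am 0 6 7 8 1 1), (2, .lf 4 6 7 7 4 6), (2, .c4 6), (2, .ce 4 6 7 4 7 0), (6, .rt 7 8 0 7 8 0), (8, .rt 0 1 3 0 2 3), (4, .am 0 2 8 9 1 1), (2, .am 0 6 8 9 1 1)])))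

def C3433656654_1 : Tr :=
  .ch 1 (.leaf [(1, .pl 1 2 6 5), (1, .pl 1 6 3 5), (1, .rt 1 2 4 1 2 4), (1, .pl 0 1 5 4), (1, .lf 2 4 5 5 2 4), (1, .pl 0 5 1 3)]) (.ch 5 (.leaf [(3, .rt 5 6 8 4 6 8), (2, .ce 6 8 9 4 9 0), (4, .lf 6 8 9 9 6 8), (3, .cf 0 1 3 0 3 8), (3, .rt 0 1 3 0 2 3), (2, .rt 7 8 0 7 8 0), (2, .am 0 2 8 9 1 1), (2, .lf 4 6 7 7 4 6), (4, .rt 9 0 2 9 0 2), (1, .am 4 6 7 8 1 1), (1, .cf 7 8 0 7 2 6), (1, .am 0 2 7 8 1 1), (2, .am 4 6 8 9 1 1)]) (.ch 6 (.leaf [(2, .pl 0 2 6 7), (4, .rt 7 8 0 7 8 0), (4, .rt 9 0 2 9 0 2), (2, .am 0 2 7 9 1 1), (4, .cf 0 1 3 0 3 8), (3, .pl 0 1 6 7), (4, .rt 0 1 3 0 1 3), (4, .cf 0 1 3 0 3 7), (2, .am 0 7 8 9 1 1), (1, .am 0 1 7 9 1 1), (4, .rt 0 1 3 0 2 3), (2, .am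 1 7 8 9 1 1), (5, .am 0 6 7 9 1 1), (6, .lf 7 9 0 0 7 9), (4, .rt 8 9 1 8 9 1), (10, .rt 6 7 9 6 7 9)]) (.leaf [(2, .lf 6 8 9 9 6 7), (2, .ce 4 6 7 4 7 9), (1, .am 0 6 7 8 1 1), (2, .ce 4 6 7 4 7 0), (4, .lf 4 6 7 7 4 6), (2, .am 0 6 8 9 1 1), (3, .am 0 1 7 8 1 1), (2, .lf 7 9 0 0 7 9), (4, .rt 7 8 0 7 8 0), (6, .lf 8 0 1 1 8 0), (3, .pl 0 1 6 7), (2, .lf 6 8 9 9 6 8)]) (.leaf [(5, .pl 0 2 6 7), (20, .rt 0 1 3 0 2 3), (6, .am 0 1 7 8 1 1), (36, .cf 0 1 3 0 3 8), (20, .rt 7 8 0 7 8 0), (16, .rt 0 1 3 0 1 3), (20, .rt 9 0 2 9 0 2), (1, .am 0 6 7 8 1 1), (5, .am 0 2 7 8 1 1), (20, .lf 4 6 7 7 4 6), (4, .tb 6 1 2), (4, .lf 6 8 9 9 6 7), (10, .am 0 6 8 9 1 1), (4, .lf 7 9 0 0 7 9), (8, .am 6 7 8 9 1 1), (20, .ce 4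 6 7 4 7 9), (6, .pl 0 1 6 7), (4, .am 0 1 8 9 1 1), (4, .ta 6 1 2), (10, .am 0 2 8 9 1 1)]) (.leaf [(6, .rt 7 8 0 7 8 0), (1, .pl 0 2 6 7), (4, .rt 8 9 1 8 0 1), (2, .lf 6 8 9 9 6 7), (2, .lf 7 9 0 0 6 9), (2, .am 0 1 7 8 1 1), (2, .lf 7 9 0 0 7 9), (1, .am 0 2 7 9 1 1), (4, .c4 6), (2, .pl 0 1 6 7), (1, .am 0 6 7 9 1 1), (2, .rt 0 1 3 0 2 3), (2, .rt 9 0 2 9 0 2), (2, .cf 0 1 3 0 3 8)])) (.leaf [(18, .am 0 6 8 9 1 1), (64, .cf 0 1 3 0 3 8), (15, .pl 0 2 6 7), (12, .pl 0 1 6 7), (24, .rt 8 9 1 8 9 1), (12, .am 0 7 8 9 1 1), (20, .cf 0 1 3 0 3 7), (36, .lf 4 6 7 7 4 6), (24, .ce 4 6 7 4 7 9), (15, .am 0 2 7 8 1 1), (12, .am 0 1 7 8 1 1), (9, .am 0 6 7 8 1 1), (60, .rt 0 1 3 0 2 3), (20, .lf 4 6 7 7 4 5), (30, .am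 0 2 8 9 1 1), (24, .rt 0 1 3 0 1 3), (20, .tb 5 1 2), (32, .ce 4 6 7 4 7 8), (36, .lf 6 8 9 9 6 8), (60, .rt 9 0 2 9 0 2)]) (.ch 6 (.leaf [(1, .pl 0 1 6 8), (1, .rt 0 1 3 0 1 3), (1, .rt 7 8 0 7 9 0), (1, .rt 6 7 9 6 7 0), (1, .rt 8 9 1 8 9 1), (2, .lf 5 7 8 8 5 6), (2, .c4 5), (2, .rt 6 7 9 6 7 9), (1, .pl 0 9 6 5), (1, .am 0 6 7 9 1 1), (2, .lf 6 8 9 9 6 8), (1, .am 5 6 8 9 1 1), (1, .cf 0 1 3 0 3 7)]) (.leaf [(4, .rt 9 0 2 9 0 2), (1, .am 0 6 7 8 1 1), (3, .am 0 1 7 8 1 1), (3, .pl 0 1 6 7), (8, .ce 4 6 7 4 7 0), (6, .lf 8 0 1 1 8 0), (8, .rt 7 8 0 7 8 0), (4, .lf 6 8 9 9 6 8), (2, .am 0 6 8 9 1 1), (4, .cf 7 8 0 7 2 6), (4, .am 0 2 7 8 1 1), (2, .am 0 2 8 9 1 1), (6, .lf 8 0 1 2 8 0), (8, .lf 4 6 7 7 4 6)])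 (.leaf [(12, .am 0 1 7 8 1 1), (4, .am 0 6 7 8 1 1), (39, .am 5 6 8 9 1 1), (12, .ce 4 6 7 4 7 8), (24, .am 0 1 8 9 1 1), (26, .am 4 6 7 8 1 1), (48, .ce 4 6 7 4 7 9), (39, .pl 4 9 6 5), (24, .am 6 7 8 9 1 1), (78, .lf 5 7 8 8 5 7), (48, .rt 0 1 3 0 1 3), (6, .rt 9 0 2 9 0 2), (13, .am 4 6 8 9 1 1), (78, .c4 5), (144, .lf 4 6 7 7 4 6), (48, .ta 6 1 2), (32, .ce 4 6 7 4 7 0), (48, .cf 0 1 3 0 3 8), (6, .cf 9 0 2 9 2 8), (8, .am 0 6 8 9 1 1), (52, .ce 6 8 9 4 9 0), (12, .pl 0 1 6 7)]) (.leaf [(2, .am 0 2 7 8 1 1), (8, .rt 0 1 3 0 2 3), (2, .ce 4 6 7 4 7 0), (4, .am 0 2 8 9 1 1), (2, .am 0 6 8 9 1 1), (2, .lf 4 6 7 7 4 6), (1, .pl 0 1 6 7), (1, .am 0 6 7 8 1 1), (1, .am 0 1 7 8 1 1), (2, .rt 8 9 1 8 9 1), (2, .c4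 6), (6, .rt 7 8 0 7 8 0), (8, .cf 0 1 3 0 3 8), (4, .lf 6 8 9 9 6 8), (8, .rt 9 0 2 9 0 2), (2, .pl 0 2 6 7)]))) (.ch 5 (.leaf [(2, .ce 6 8 9 4 9 0), (1, .am 4 6 7 8 1 1), (1, .am 0 2 7 8 1 1), (3, .rt 0 1 3 0 2 3), (2, .am 0 2 8 9 1 1), (4, .rt 9 0 2 9 0 2), (3, .cf 0 1 3 0 3 8), (2, .lf 4 6 7 7 4 6), (3, .rt 5 6 8 4 6 8), (1, .cf 7 8 0 7 2 6), (2, .am 4 6 8 9 1 1), (2, .rt 7 8 0 7 8 0), (4, .lf 6 8 9 9 6 8)]) (.ch 6 (.leaf [(4, .cf 0 1 3 0 3 8), (5, .am 0 6 7 9 1 1), (4, .rt 0 1 3 0 1 3), (6, .lf 7 9 0 0 7 9), (4, .rt 9 0 2 9 0 2), (4, .rt 8 9 1 8 9 1), (4, .rt 0 1 3 0 2 3), (2, .pl 0 2 6 7), (2, .am 0 2 7 9 1 1), (4, .rt 7 8 0 7 8 0), (3, .pl 0 1 6 7), (2, .am 1 7 8 9 1 1), (1, .am 0 1 7 9 1 1), (2, .am 0 7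 8 9 1 1), (4, .cf 0 1 3 0 3 7), (10, .rt 6 7 9 6 7 9)]) (.leaf [(6, .lf 8 0 1 1 8 0), (2, .am 0 6 8 9 1 1), (4, .rt 7 8 0 7 8 0), (2, .lf 6 8 9 9 6 8), (2, .lf 7 9 0 0 7 9), (2, .ce 4 6 7 4 7 9), (3, .am 0 1 7 8 1 1), (1, .am 0 6 7 8 1 1), (4, .lf 4 6 7 7 4 6), (2, .ce 4 6 7 4 7 0), (2, .lf 6 8 9 9 6 7), (3, .pl 0 1 6 7)]) (.leaf [(1, .am 0 6 7 8 1 1), (8, .am 6 7 8 9 1 1), (4, .am 0 1 8 9 1 1), (10, .am 0 2 8 9 1 1), (20, .rt 7 8 0 7 8 0), (20, .ce 4 6 7 4 7 9), (6, .am 0 1 7 8 1 1), (4, .tb 6 1 2), (20, .rt 0 1 3 0 2 3), (36, .cf 0 1 3 0 3 8), (16, .rt 0 1 3 0 1 3), (10, .am 0 6 8 9 1 1), (5, .pl 0 2 6 7), (4, .lf 7 9 0 0 7 9), (20, .lf 4 6 7 7 4 6), (4, .lf 6 8 9 9 6 7), (4, .ta 6 1 2), (20, .rt 9 0 2 9 0 2),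 (6, .pl 0 1 6 7), (5, .am 0 2 7 8 1 1)]) (.leaf [(2, .pl 0 1 6 7), (2, .lf 6 8 9 9 6 7), (1, .pl 0 2 6 7), (2, .cf 0 1 3 0 3 8), (4, .rt 8 9 1 8 0 1), (1, .am 0 6 7 9 1 1), (2, .lf 7 9 0 0 6 9), (6, .rt 7 8 0 7 8 0), (2, .lf 7 9 0 0 7 9), (2, .am 0 1 7 8 1 1), (2, .rt 9 0 2 9 0 2), (2, .rt 0 1 3 0 2 3), (1, .am 0 2 7 9 1 1), (4, .c4 6)])) (.leaf [(60, .rt 9 0 2 9 0 2), (24, .rt 8 9 1 8 9 2), (20, .cf 0 1 3 0 3 7), (27, .am 0 2 7 8 1 1), (32, .ce 4 6 7 4 7 8), (36, .lf 6 8 9 9 6 8), (27, .pl 0 2 6 7), (18, .am 0 6 8 9 1 1), (30, .am 0 2 8 9 1 1), (20, .lf 4 6 7 7 4 5), (9, .am 0 6 7 8 1 1), (20, .tb 5 1 2), (24, .ce 4 6 7 4 7 9), (12, .am 0 7 8 9 1 1), (36, .lf 4 6 7 7 4 6), (64, .cf 0 1 3 0 3 8), (84, .rt 0 1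 3 0 2 3)]) (.ch 6 (.leaf [(1, .cf 9 0 2 9 2 7), (2, .lf 5 7 8 8 5 6), (2, .c4 5), (2, .lf 6 8 9 9 6 8), (2, .rt 7 8 0 7 9 0), (1, .am 0 6 7 9 1 1), (3, .rt 6 7 9 6 7 9), (1, .pl 2 9 8 6), (1, .rt 8 9 1 8 9 2), (1, .pl 0 9 6 5), (1, .am 5 6 8 9 1 1)]) (.leaf [(2, .am 0 6 8 9 1 1), (1, .am 0 6 7 8 1 1), (4, .lf 6 8 9 9 6 8), (4, .rt 9 0 2 9 0 2), (7, .am 0 2 7 8 1 1), (8, .rt 7 8 0 7 8 0), (8, .ce 4 6 7 4 7 0), (3, .pl 0 2 6 7), (2, .am 0 2 8 9 1 1), (12, .lf 8 0 1 2 8 0), (8, .lf 4 6 7 7 4 6), (4, .cf 7 8 0 7 2 6)]) (.leaf [(26, .am 4 6 7 8 1 1), (48, .rt 0 1 3 0 1 3), (24, .am 6 7 8 9 1 1), (39, .pl 4 9 6 5), (78, .c4 5), (12, .ce 4 6 7 4 7 8), (78, .lf 5 7 8 8 5 7), (48, .cf 0 1 3 0 3 8), (52, .ce 6 8 9 4 9 0),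 (32, .ce 4 6 7 4 7 0), (39, .am 5 6 8 9 1 1), (6, .rt 9 0 2 9 0 3), (8, .am 0 6 8 9 1 1), (12, .am 0 1 7 8 1 1), (13, .am 4 6 8 9 1 1), (4, .am 0 6 7 8 1 1), (48, .ce 4 6 7 4 7 9), (144, .lf 4 6 7 7 4 6), (24, .am 0 1 8 9 1 1), (12, .pl 0 1 6 7), (6, .cf 9 0 2 9 3 8), (48, .ta 6 1 2)]) (.leaf [(1, .am 0 6 7 8 1 1), (6, .rt 7 8 0 7 8 0), (8, .cf 0 1 3 0 3 8), (4, .am 0 2 8 9 1 1), (2, .pl 0 2 6 7), (8, .rt 9 0 2 9 0 2), (2, .ce 4 6 7 4 7 0), (2, .c4 6), (4, .lf 6 8 9 9 6 8), (1, .pl 0 1 6 7), (2, .am 0 6 8 9 1 1), (8, .rt 0 1 3 0 2 3), (2, .rt 8 9 1 8 9 1), (2, .lf 4 6 7 7 4 6), (2, .am 0 2 7 8 1 1), (1, .am 0 1 7 8 1 1)]))) (.ch 5 (.leaf [(2, .lf 4 6 7 7 4 6), (1, .am 0 2 7 8 1 1), (2, .am 0 2 8 9 1 1), (3, .cf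 0 1 3 0 3 8), (2, .rt 7 8 0 7 8 0), (1, .cf 7 8 0 7 2 6), (3, .rt 0 1 3 0 2 3), (4, .lf 6 8 9 9 6 8), (1, .am 4 6 7 8 1 1), (4, .rt 9 0 2 9 0 2), (2, .am 4 6 8 9 1 1), (2, .ce 6 8 9 4 9 0), (3, .rt 5 6 8 4 6 8)]) (.ch 6 (.leaf [(6, .lf 7 9 0 0 7 9), (4, .rt 7 8 0 7 8 0), (2, .pl 0 2 6 7), (1, .am 0 1 7 9 1 1), (4, .rt 8 9 1 8 9 1), (4, .rt 9 0 2 9 0 2), (4, .rt 0 1 3 0 2 3), (2, .am 1 7 8 9 1 1), (10, .rt 6 7 9 6 7 9), (5, .am 0 6 7 9 1 1), (4, .rt 0 1 3 0 1 3), (4, .cf 0 1 3 0 3 7), (3, .pl 0 1 6 7), (2, .am 0 7 8 9 1 1), (2, .am 0 2 7 9 1 1), (4, .cf 0 1 3 0 3 8)]) (.leaf [(6, .lf 8 0 1 1 8 0), (4, .rt 7 8 0 7 8 0), (3, .pl 0 1 6 7), (1, .am 0 6 7 8 1 1), (2, .am 0 6 8 9 1 1), (2, .ce 4 6 7 4 7 9), (4, .lf 4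 6 7 7 4 6), (2, .lf 7 9 0 0 7 9), (2, .lf 6 8 9 9 6 7), (3, .am 0 1 7 8 1 1), (2, .lf 6 8 9 9 6 8), (2, .ce 4 6 7 4 7 0)]) (.leaf [(8, .am 6 7 8 9 1 1), (10, .am 0 6 8 9 1 1), (20, .rt 7 8 0 7 8 0), (1, .am 0 6 7 8 1 1), (5, .pl 0 2 6 7), (5, .am 0 2 7 8 1 1), (20, .rt 0 1 3 0 2 3), (36, .cf 0 1 3 0 3 8), (4, .am 0 1 8 9 1 1), (10, .am 0 2 8 9 1 1), (20, .lf 4 6 7 7 4 6), (20, .rt 9 0 2 9 0 2), (6, .am 0 1 7 8 1 1), (4, .tb 6 1 2), (20, .ce 4 6 7 4 7 9), (4, .lf 7 9 0 0 7 9), (4, .lf 6 8 9 9 6 7), (6, .pl 0 1 6 7), (4, .ta 6 1 2), (16, .rt 0 1 3 0 1 3)]) (.leaf [(2, .cf 0 1 3 0 3 8), (2, .pl 0 1 6 7), (6, .rt 7 8 0 7 8 0), (2, .rt 9 0 2 9 0 2), (1, .am 0 6 7 9 1 1), (2, .lf 7 9 0 0 6 9), (1, .pl 0 2 6 7), (2,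 .am 0 1 7 8 1 1), (1, .am 0 2 7 9 1 1), (2, .rt 0 1 3 0 2 3), (2, .lf 6 8 9 9 6 7), (2, .lf 7 9 0 0 7 9), (4, .c4 6), (4, .rt 8 9 1 8 0 1)])) (.leaf [(27, .pl 0 2 6 7), (36, .lf 6 8 9 9 6 8), (64, .cf 0 1 3 0 3 8), (9, .am 0 6 7 8 1 1), (84, .rt 0 1 3 0 2 3), (27, .am 0 2 7 8 1 1), (36, .lf 4 6 7 7 4 6), (30, .am 0 2 8 9 1 1), (32, .ce 4 6 7 4 7 8), (20, .cf 0 1 3 0 3 7), (18, .am 0 6 8 9 1 1), (12, .am 0 7 8 9 1 1), (20, .lf 4 6 7 7 4 5), (20, .tb 5 1 2), (60, .rt 9 0 2 9 0 2), (24, .rt 8 9 1 8 9 2), (24, .ce 4 6 7 4 7 9)]) (.ch 6 (.leaf [(1, .am 0 6 7 9 1 1), (1, .pl 0 1 6 8), (1, .cf 0 1 3 0 3 7), (1, .rt 7 8 0 7 9 0), (1, .rt 6 7 9 6 7 0), (1, .am 5 6 8 9 1 1), (2, .lf 6 8 9 9 6 8), (2, .c4 5), (2, .rt 6 7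 9 6 7 9), (1, .pl 0 9 6 5), (2, .lf 5 7 8 8 5 6), (1, .rt 8 9 1 8 9 1), (1, .rt 0 1 3 0 1 3)]) (.leaf [(4, .rt 9 0 2 9 0 2), (4, .lf 6 8 9 9 6 8), (4, .cf 7 8 0 7 2 6), (8, .ce 4 6 7 4 7 0), (8, .lf 4 6 7 7 4 6), (1, .am 0 6 7 8 1 1), (3, .pl 0 1 6 7), (3, .am 0 1 7 8 1 1), (2, .am 0 6 8 9 1 1), (6, .lf 8 0 1 1 8 0), (2, .am 0 2 8 9 1 1), (4, .am 0 2 7 8 1 1), (6, .lf 8 0 1 2 8 0), (8, .rt 7 8 0 7 8 0)]) (.leaf [(2, .cf 9 0 2 9 2 8), (10, .am 0 6 7 8 1 1), (26, .c4 5), (16, .ce 4 6 7 4 7 9), (4, .ce 4 6 7 4 7 8), (8, .am 0 1 8 9 1 1), (4, .am 0 1 7 8 1 1), (16, .ta 6 1 2), (2, .rt 9 0 2 9 0 2), (8, .am 6 7 8 9 1 1), (7, .am 0 6 8 9 1 1), (26, .lf 5 7 8 8 5 7), (16, .cf 0 1 3 0 3 8), (4, .pl 0 1 6 7), (48, .lf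 4 6 7 7 4 6), (16, .rt 0 1 3 0 1 3), (13, .pl 0 9 6 5), (13, .am 5 6 8 9 1 1), (28, .ce 4 6 7 4 7 0)]) (.leaf [(8, .rt 9 0 2 9 0 2), (2, .lf 4 6 7 7 4 6), (8, .rt 0 1 3 0 2 3), (4, .lf 6 8 9 9 6 8), (2, .pl 0 2 6 7), (1, .pl 0 1 6 7), (2, .ce 4 6 7 4 7 0), (2, .c4 6), (2, .rt 8 9 1 8 9 1), (1, .am 0 6 7 8 1 1), (4, .am 0 2 8 9 1 1), (1, .am 0 1 7 8 1 1), (2, .am 0 2 7 8 1 1), (2, .am 0 6 8 9 1 1), (8, .cf 0 1 3 0 3 8), (6, .rt 7 8 0 7 8 0)])))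

def C3433656654_2 : Tr :=
  .pr 2 2 (.pr 1 2 (.ch 5 (.leaf [(1, .am 0 2 7 8 1 1), (2, .am 4 6 8 9 1 1), (2, .rt 7 8 0 7 8 0), (2, .ce 6 8 9 4 9 0), (1, .cf 7 8 0 7 2 6), (3, .rt 5 6 8 4 6 8), (1, .am 4 6 7 8 1 1), (3, .rt 0 1 3 0 2 3), (3, .cf 0 1 3 0 3 8), (4, .lf 6 8 9 9 6 8), (2, .am 0 2 8 9 1 1), (2, .lf 4 6 7 7 4 6), (4, .rt 9 0 2 9 0 2)]) (.ch 6 (.leaf [(4, .cf 0 1 3 0 3 7), (10, .rt 6 7 9 6 7 9), (5, .am 0 6 7 9 1 1), (2, .am 0 2 7 9 1 1), (4, .rt 0 1 3 0 2 3), (2, .pl 0 2 6 7), (4, .rt 0 1 3 0 1 3), (4, .rt 8 9 1 8 9 1), (4, .cf 0 1 3 0 3 8), (2, .am 1 7 8 9 1 1), (4, .rt 9 0 2 9 0 2), (6, .lf 7 9 0 0 7 9), (3, .pl 0 1 6 7), (4, .rt 7 8 0 7 8 0), (1, .am 0 1 7 9 1 1), (2, .am 0 7 8 9 1 1)]) (.leaf [(4,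 .lf 4 6 7 7 4 6), (6, .lf 8 0 1 2 8 0), (3, .am 0 2 7 8 1 1), (4, .rt 7 8 0 7 8 0), (2, .ce 4 6 7 4 7 0), (2, .lf 6 8 9 9 6 8), (2, .am 0 6 8 9 1 1), (2, .lf 7 9 0 0 7 9), (2, .lf 6 8 9 9 6 7), (2, .ce 4 6 7 4 7 9), (1, .am 0 6 7 8 1 1), (3, .pl 0 2 6 7)]) (.leaf [(20, .rt 0 1 3 0 2 3), (4, .ta 6 1 2), (8, .am 6 7 8 9 1 1), (1, .am 0 6 7 8 1 1), (20, .ce 4 6 7 4 7 9), (20, .rt 9 0 2 9 0 2), (4, .am 0 1 8 9 1 1), (4, .lf 6 8 9 9 6 7), (20, .rt 7 8 0 7 8 0), (4, .tb 6 1 2), (10, .am 0 6 8 9 1 1), (4, .lf 7 9 0 0 7 9), (6, .pl 0 1 6 7), (5, .pl 0 2 6 7), (36, .cf 0 1 3 0 3 8), (16, .rt 0 1 3 0 1 3), (20, .lf 4 6 7 7 4 6), (10, .am 0 2 8 9 1 1), (6, .am 0 1 7 8 1 1), (5, .am 0 2 7 8 1 1)]) (.leaf [(2, .lf 7 9 0 0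 6 9), (2, .lf 6 8 9 9 6 7), (2, .cf 0 1 3 0 3 8), (4, .c4 6), (2, .pl 0 1 6 7), (6, .rt 7 8 0 7 8 0), (2, .rt 0 1 3 0 2 3), (2, .rt 9 0 2 9 0 2), (2, .lf 7 9 0 0 7 9), (4, .rt 8 9 1 8 0 1), (1, .am 0 2 7 9 1 1), (2, .am 0 1 7 8 1 1), (1, .pl 0 2 6 7), (1, .am 0 6 7 9 1 1)])) (.leaf [(9, .am 0 6 7 8 1 1), (36, .lf 4 6 7 7 4 6), (20, .tb 5 1 2), (20, .lf 4 6 7 7 4 5), (18, .am 0 6 8 9 1 1), (27, .am 0 2 7 8 1 1), (24, .ce 4 6 7 4 7 9), (84, .rt 0 1 3 0 2 3), (36, .lf 6 8 9 9 6 8), (24, .rt 8 9 1 8 9 2), (27, .pl 0 2 6 7), (64, .cf 0 1 3 0 3 8), (32, .ce 4 6 7 4 7 8), (20, .cf 0 1 3 0 3 7), (30, .am 0 2 8 9 1 1), (60, .rt 9 0 2 9 0 2), (12, .am 0 7 8 9 1 1)]) (.ch 6 (.leaf [(1, .pl 0 9 6 5), (2, .lf 6 8 9 9 6 8),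 (1, .rt 6 7 9 6 7 0), (1, .rt 7 8 0 7 9 0), (1, .am 0 6 7 9 1 1), (2, .lf 5 7 8 8 5 6), (2, .c4 5), (1, .rt 0 1 3 0 1 3), (2, .rt 6 7 9 6 7 9), (1, .am 5 6 8 9 1 1), (1, .rt 8 9 1 8 9 1), (1, .pl 0 1 6 8), (1, .cf 0 1 3 0 3 7)]) (.leaf [(8, .lf 4 6 7 7 4 6), (3, .pl 0 2 6 7), (2, .am 0 2 8 9 1 1), (4, .rt 9 0 2 9 0 2), (4, .lf 6 8 9 9 6 8), (1, .am 0 6 7 8 1 1), (2, .am 0 6 8 9 1 1), (7, .am 0 2 7 8 1 1), (12, .lf 8 0 1 2 8 0), (4, .cf 7 8 0 7 2 6), (8, .rt 7 8 0 7 8 0), (8, .ce 4 6 7 4 7 0)]) (.leaf [(2, .rt 9 0 2 9 0 2), (13, .am 5 6 8 9 1 1), (8, .am 0 1 8 9 1 1), (16, .rt 0 1 3 0 1 3), (4, .am 0 6 8 9 1 1), (16, .cf 0 1 3 0 3 8), (4, .pl 0 1 6 7), (26, .lf 5 7 8 8 5 7), (10, .am 4 6 7 8 1 1), (4, .am 0 1 7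 8 1 1), (48, .lf 4 6 7 7 4 6), (2, .cf 9 0 2 9 2 8), (16, .ce 4 6 7 4 7 9), (26, .c4 5), (13, .pl 4 9 6 5), (16, .ce 6 8 9 4 9 0), (8, .am 6 7 8 9 1 1), (8, .ce 4 6 7 4 7 0), (4, .ce 4 6 7 4 8 0), (3, .am 4 6 8 9 1 1), (4, .ce 4 6 7 4 7 8), (16, .ta 6 1 2)]) (.leaf [(1, .pl 0 1 6 7), (2, .pl 0 2 6 7), (2, .ce 4 6 7 4 7 0), (6, .rt 7 8 0 7 8 0), (8, .rt 9 0 2 9 0 2), (2, .am 0 2 7 8 1 1), (2, .am 0 6 8 9 1 1), (1, .am 0 6 7 8 1 1), (8, .cf 0 1 3 0 3 8), (8, .rt 0 1 3 0 2 3), (4, .lf 6 8 9 9 6 8), (4, .am 0 2 8 9 1 1), (1, .am 0 1 7 8 1 1), (2, .rt 8 9 1 8 9 1), (2, .c4 6), (2, .lf 4 6 7 7 4 6)]))) (.ch 5 (.leaf [(2, .ce 6 8 9 4 9 0), (4, .lf 6 8 9 9 6 8), (2, .am 4 6 8 9 1 1), (3, .rt 5 6 8 4 6 8), (3, .cf 0 1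 3 0 3 8), (1, .am 0 2 7 8 1 1), (4, .rt 9 0 2 9 0 2), (2, .lf 4 6 7 7 4 6), (2, .rt 7 8 0 7 8 0), (3, .rt 0 1 3 0 2 3), (1, .am 4 6 7 8 1 1), (2, .am 0 2 8 9 1 1), (1, .cf 7 8 0 7 2 6)]) (.ch 6 (.leaf [(2, .am 0 2 7 9 1 1), (2, .am 0 7 8 9 1 1), (6, .lf 7 9 0 0 7 9), (10, .rt 6 7 9 6 7 9), (4, .rt 0 1 3 0 2 3), (4, .rt 9 0 2 9 0 2), (5, .am 0 6 7 9 1 1), (1, .am 0 1 7 9 1 1), (2, .pl 0 2 6 7), (3, .pl 0 1 6 7), (2, .am 1 7 8 9 1 1), (4, .cf 0 1 3 0 3 7), (4, .cf 0 1 3 0 3 8), (4, .rt 7 8 0 7 8 0), (4, .rt 8 9 1 8 9 1), (4, .rt 0 1 3 0 1 3)]) (.leaf [(6, .lf 8 0 1 1 8 0), (4, .lf 4 6 7 7 4 6), (2, .lf 6 8 9 9 6 7), (3, .pl 0 1 6 7), (2, .am 0 6 8 9 1 1), (4, .rt 7 8 0 7 8 0), (3, .am 0 1 7 8 1 1), (2, .ce 4 6 7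 4 7 9), (2, .lf 6 8 9 9 6 8), (2, .lf 7 9 0 0 7 9), (1, .am 0 6 7 8 1 1), (2, .ce 4 6 7 4 7 0)]) (.leaf [(10, .am 0 2 8 9 1 1), (5, .pl 0 2 6 7), (20, .ce 4 6 7 4 7 9), (36, .cf 0 1 3 0 3 8), (16, .rt 0 1 3 0 1 3), (4, .lf 7 9 0 0 7 9), (20, .lf 4 6 7 7 4 6), (4, .lf 6 8 9 9 6 7), (20, .rt 9 0 2 9 0 2), (6, .pl 0 1 6 7), (4, .ta 6 1 2), (5, .am 0 2 7 8 1 1), (1, .am 0 6 7 8 1 1), (4, .tb 6 1 2), (10, .am 0 6 8 9 1 1), (8, .am 6 7 8 9 1 1), (6, .am 0 1 7 8 1 1), (20, .rt 0 1 3 0 2 3), (20, .rt 7 8 0 7 8 0), (4, .am 0 1 8 9 1 1)]) (.leaf [(2, .lf 7 9 0 0 7 9), (2, .pl 0 1 6 7), (2, .lf 6 8 9 9 6 7), (2, .cf 0 1 3 0 3 8), (2, .am 0 1 7 8 1 1), (1, .pl 0 2 6 7), (1, .am 0 2 7 9 1 1), (1, .am 0 6 7 9 1 1), (2, .rt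 0 1 3 0 2 3), (6, .rt 7 8 0 7 8 0), (4, .c4 6), (4, .rt 8 9 1 8 0 1), (2, .lf 7 9 0 0 6 9), (2, .rt 9 0 2 9 0 2)])) (.leaf [(9, .am 0 6 7 8 1 1), (20, .lf 4 6 7 7 4 5), (30, .am 0 2 8 9 1 1), (32, .ce 4 6 7 4 7 8), (20, .cf 0 1 3 0 3 7), (12, .am 0 7 8 9 1 1), (12, .pl 0 1 6 7), (15, .am 0 2 7 8 1 1), (60, .rt 0 1 3 0 2 3), (24, .rt 0 1 3 0 1 3), (20, .tb 5 1 2), (24, .ce 4 6 7 4 7 9), (15, .pl 0 2 6 7), (36, .lf 6 8 9 9 6 8), (18, .am 0 6 8 9 1 1), (24, .rt 8 9 1 8 9 1), (12, .am 0 1 7 8 1 1), (64, .cf 0 1 3 0 3 8), (60, .rt 9 0 2 9 0 2), (36, .lf 4 6 7 7 4 6)]) (.ch 6 (.leaf [(2, .rt 6 7 9 6 7 9), (1, .rt 7 8 0 7 9 0), (1, .rt 0 1 3 0 1 3), (1, .pl 0 1 6 8), (1, .cf 0 1 3 0 3 7), (2, .c4 5), (2, .lf 6 8 9 9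 6 8), (1, .rt 8 9 1 8 9 1), (1, .pl 0 9 6 5), (1, .rt 6 7 9 6 7 0), (1, .am 0 6 7 9 1 1), (2, .lf 5 7 8 8 5 6), (1, .am 5 6 8 9 1 1)]) (.leaf [(4, .cf 7 8 0 7 2 6), (4, .rt 9 0 2 9 0 2), (6, .lf 8 0 1 1 8 0), (1, .am 0 6 7 8 1 1), (8, .lf 4 6 7 7 4 6), (8, .rt 7 8 0 7 8 0), (4, .am 0 2 7 8 1 1), (8, .ce 4 6 7 4 7 0), (3, .pl 0 1 6 7), (6, .lf 8 0 1 2 8 0), (2, .am 0 6 8 9 1 1), (4, .lf 6 8 9 9 6 8), (3, .am 0 1 7 8 1 1), (2, .am 0 2 8 9 1 1)]) (.leaf [(52, .ce 6 8 9 4 9 0), (48, .rt 0 1 3 0 1 3), (24, .am 0 1 8 9 1 1), (78, .lf 5 7 8 8 5 7), (32, .ce 4 6 7 4 7 0), (6, .cf 9 0 2 9 3 8), (12, .ce 4 6 7 4 7 8), (39, .pl 4 9 6 5), (48, .ta 6 1 2), (12, .pl 0 1 6 7), (78, .c4 5), (26, .am 4 6 7 8 1 1), (24, .am 6 7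 8 9 1 1), (6, .rt 9 0 2 9 0 3), (4, .am 0 6 7 8 1 1), (8, .am 0 6 8 9 1 1), (39, .am 5 6 8 9 1 1), (144, .lf 4 6 7 7 4 6), (12, .am 0 1 7 8 1 1), (48, .cf 0 1 3 0 3 8), (48, .ce 4 6 7 4 7 9), (13, .am 4 6 8 9 1 1)]) (.leaf [(2, .am 0 6 8 9 1 1), (8, .rt 0 1 3 0 2 3), (2, .rt 8 9 1 8 9 1), (2, .ce 4 6 7 4 7 0), (1, .pl 0 1 6 7), (2, .am 0 2 7 8 1 1), (6, .rt 7 8 0 7 8 0), (1, .am 0 6 7 8 1 1), (4, .lf 6 8 9 9 6 8), (2, .pl 0 2 6 7), (4, .am 0 2 8 9 1 1), (8, .cf 0 1 3 0 3 8), (8, .rt 9 0 2 9 0 2), (2, .lf 4 6 7 7 4 6), (2, .c4 6), (1, .am 0 1 7 8 1 1)])))) (.pr 1 2 (.leaf [(1, .rt 1 2 4 1 2 4), (1, .pl 0 1 5 4), (1, .pl 1 2 9 5), (1, .lf 2 4 5 5 2 4), (1, .pl 0 5 1 9)]) (.ch 5 (.leaf [(4, .lf 6 8 9 9 6 8), (3,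 .cf 0 1 3 0 3 8), (3, .rt 0 1 3 0 2 3), (4, .rt 9 0 2 9 0 2), (2, .rt 7 8 0 7 8 0), (2, .ce 6 8 9 4 9 0), (1, .am 4 6 7 8 1 1), (1, .am 0 2 7 8 1 1), (2, .lf 4 6 7 7 4 6), (3, .rt 5 6 8 4 6 8), (1, .cf 7 8 0 7 2 6), (2, .am 4 6 8 9 1 1), (2, .am 0 2 8 9 1 1)]) (.ch 6 (.leaf [(4, .rt 0 1 3 0 2 3), (4, .rt 7 8 0 7 8 0), (4, .cf 0 1 3 0 3 7), (6, .lf 7 9 0 0 7 9), (5, .am 0 6 7 9 1 1), (2, .pl 0 2 6 7), (4, .rt 0 1 3 0 1 3), (2, .am 1 7 8 9 1 1), (4, .cf 0 1 3 0 3 8), (10, .rt 6 7 9 6 7 9), (2, .am 0 7 8 9 1 1), (1, .am 0 1 7 9 1 1), (4, .rt 9 0 2 9 0 2), (4, .rt 8 9 1 8 9 1), (2, .am 0 2 7 9 1 1), (3, .pl 0 1 6 7)]) (.leaf [(6, .lf 8 0 1 1 8 0), (2, .ce 4 6 7 4 7 0), (3, .am 0 1 7 8 1 1), (4, .rt 7 8 0 7 8 0), (4,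 .lf 4 6 7 7 4 6), (2, .ce 4 6 7 4 7 9), (2, .lf 6 8 9 9 6 7), (2, .lf 6 8 9 9 6 8), (2, .am 0 6 8 9 1 1), (1, .am 0 6 7 8 1 1), (2, .lf 7 9 0 0 7 9), (3, .pl 0 1 6 7)]) (.leaf [(4, .ta 6 1 2), (20, .lf 4 6 7 7 4 6), (36, .cf 0 1 3 0 3 8), (10, .am 0 2 8 9 1 1), (4, .lf 6 8 9 9 6 7), (6, .am 0 1 7 8 1 1), (6, .pl 0 1 6 7), (20, .rt 0 1 3 0 2 3), (5, .am 0 2 7 8 1 1), (4, .am 0 1 8 9 1 1), (4, .tb 6 1 2), (8, .am 6 7 8 9 1 1), (5, .pl 0 2 6 7), (4, .lf 7 9 0 0 7 9), (20, .rt 7 8 0 7 8 0), (10, .am 0 6 8 9 1 1), (20, .rt 9 0 2 9 0 2), (16, .rt 0 1 3 0 1 3), (20, .ce 4 6 7 4 7 9), (1, .am 0 6 7 8 1 1)]) (.leaf [(2, .pl 0 1 6 7), (2, .cf 0 1 3 0 3 8), (2, .lf 7 9 0 0 6 9), (2, .am 0 1 7 8 1 1), (4, .c4 6), (2, .rt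 9 0 2 9 0 2), (2, .lf 7 9 0 0 7 9), (1, .pl 0 2 6 7), (2, .lf 6 8 9 9 6 7), (1, .am 0 2 7 9 1 1), (2, .rt 0 1 3 0 2 3), (1, .am 0 6 7 9 1 1), (6, .rt 7 8 0 7 8 0), (4, .rt 8 9 1 8 0 1)])) (.leaf [(15, .pl 0 2 6 7), (9, .am 0 6 7 8 1 1), (20, .tb 5 1 2), (36, .lf 6 8 9 9 6 8), (24, .ce 4 6 7 4 7 9), (60, .rt 0 1 3 0 2 3), (20, .cf 0 1 3 0 3 7), (64, .cf 0 1 3 0 3 8), (60, .rt 9 0 2 9 0 2), (24, .rt 0 1 3 0 1 3), (32, .ce 4 6 7 4 7 8), (24, .rt 8 9 1 8 9 1), (12, .am 0 1 7 8 1 1), (20, .lf 4 6 7 7 4 5), (18, .am 0 6 8 9 1 1), (30, .am 0 2 8 9 1 1), (12, .pl 0 1 6 7), (12, .am 0 7 8 9 1 1), (15, .am 0 2 7 8 1 1), (36, .lf 4 6 7 7 4 6)]) (.ch 6 (.leaf [(1, .rt 0 1 3 0 1 3), (1, .rt 8 9 1 8 9 1), (1, .am 5 6 8 9 1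 1), (2, .lf 6 8 9 9 6 8), (1, .rt 7 8 0 7 9 0), (1, .pl 0 9 6 5), (1, .cf 0 1 3 0 3 7), (2, .rt 6 7 9 6 7 9), (2, .lf 5 7 8 8 5 6), (1, .am 0 6 7 9 1 1), (1, .pl 0 1 6 8), (1, .rt 6 7 9 6 7 0), (2, .c4 5)]) (.leaf [(4, .cf 7 8 0 7 2 6), (3, .pl 0 2 6 7), (4, .lf 6 8 9 9 6 8), (2, .am 0 2 8 9 1 1), (7, .am 0 2 7 8 1 1), (8, .lf 4 6 7 7 4 6), (1, .am 0 6 7 8 1 1), (8, .ce 4 6 7 4 7 0), (2, .am 0 6 8 9 1 1), (4, .rt 9 0 2 9 0 2), (8, .rt 7 8 0 7 8 0), (12, .lf 8 0 1 2 8 0)]) (.leaf [(8, .am 0 6 8 9 1 1), (39, .am 5 6 8 9 1 1), (24, .am 0 1 8 9 1 1), (13, .am 4 6 8 9 1 1), (78, .c4 5), (48, .ce 4 6 7 4 7 9), (6, .cf 9 0 2 9 3 8), (39, .pl 4 9 6 5), (144, .lf 4 6 7 7 4 6), (4, .am 0 6 7 8 1 1), (52, .ce 6 8 9 4 9 0),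 (48, .rt 0 1 3 0 1 3), (48, .cf 0 1 3 0 3 8), (24, .am 6 7 8 9 1 1), (12, .am 0 1 7 8 1 1), (78, .lf 5 7 8 8 5 7), (32, .ce 4 6 7 4 7 0), (12, .ce 4 6 7 4 7 8), (48, .ta 6 1 2), (26, .am 4 6 7 8 1 1), (12, .pl 0 1 6 7), (6, .rt 9 0 2 9 0 3)]) (.leaf [(8, .rt 9 0 2 9 0 2), (2, .lf 4 6 7 7 4 6), (6, .rt 7 8 0 7 8 0), (1, .am 0 1 7 8 1 1), (2, .c4 6), (4, .am 0 2 8 9 1 1), (2, .ce 4 6 7 4 7 0), (2, .pl 0 2 6 7), (4, .lf 6 8 9 9 6 8), (1, .am 0 6 7 8 1 1), (2, .am 0 6 8 9 1 1), (2, .am 0 2 7 8 1 1), (2, .rt 8 9 1 8 9 1), (1, .pl 0 1 6 7), (8, .cf 0 1 3 0 3 8), (8, .rt 0 1 3 0 2 3)]))))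

def C3433656654_3 : Tr :=
  .pr 3 2 (.pr 1 2 (.ch 6 (.leaf [(2, .ce 4 6 7 4 7 9), (6, .cf 0 1 3 0 3 7), (1, .pl 0 2 6 7), (2, .rt 9 0 2 9 0 2), (3, .pl 0 1 6 7), (2, .rt 0 1 3 0 2 3), (2, .ce 5 7 8 4 9 0), (4, .am 0 6 7 9 1 1), (4, .rt 8 9 1 8 9 1), (4, .lf 5 7 8 8 4 7), (2, .am 1 7 8 9 1 1), (1, .am 0 1 7 9 1 1), (4, .rt 0 1 3 0 1 3), (2, .am 4 7 8 9 1 1), (8, .rt 6 7 9 6 7 9), (6, .lf 7 9 0 0 7 9), (1, .am 0 2 7 9 1 1)]) (.leaf [(4, .am 0 6 8 9 1 1), (9, .ce 5 7 8 5 8 0), (7, .pl 0 1 6 7), (3, .ce 4 6 7 4 7 0), (9, .lf 5 7 8 8 5 7), (4, .am 1 7 8 9 1 1), (3, .am 0 1 7 8 1 1), (12, .lf 6 8 9 9 6 8), (9, .lf 7 9 0 0 7 9), (2, .am 0 1 8 9 1 1), (3, .am 0 6 7 9 1 1), (2, .am 6 7 8 9 1 1), (12, .lf 4 6 7 7 4 6),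 (12, .lf 8 0 1 1 8 0), (9, .ce 4 6 7 4 7 9)]) (.leaf [(1, .tb 6 1 2), (4, .lf 4 6 7 7 4 6), (2, .am 0 1 8 9 1 1), (1, .ta 6 1 2), (4, .lf 7 9 0 0 7 9), (4, .lf 5 7 8 8 4 7), (8, .ce 4 6 7 4 7 9), (4, .cf 0 1 3 0 3 8), (4, .pl 0 8 7 4), (4, .rt 0 1 3 0 1 3), (2, .pl 0 1 6 7), (2, .am 0 6 8 9 1 1), (2, .am 6 7 8 9 1 1), (2, .am 1 7 8 9 1 1)]) (.leaf [(1, .am 0 1 8 9 1 1), (1, .am 6 7 8 9 1 1), (3, .rt 8 9 1 8 9 1), (6, .ce 4 6 7 4 7 9), (6, .lf 7 9 0 0 7 9), (3, .lf 6 8 9 9 6 8), (6, .pl 0 8 7 4), (2, .am 1 7 8 9 1 1), (2, .pl 0 1 6 7), (3, .c4 6), (2, .am 0 6 8 9 1 1), (6, .lf 5 7 8 8 4 7)])) (.ch 1 (.ch 6 (.leaf [(2, .ce 5 7 8 4 9 0), (2, .rt 9 0 2 9 0 2), (1, .am 0 2 7 9 1 1), (4, .lf 5 7 8 8 4 7), (4, .rt 0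 1 3 0 1 3), (4, .rt 8 9 1 8 9 1), (3, .pl 0 1 6 7), (2, .rt 0 1 3 0 2 3), (2, .am 1 7 8 9 1 1), (4, .am 0 6 7 9 1 1), (1, .pl 0 2 6 7), (1, .am 0 1 7 9 1 1), (2, .ce 4 6 7 4 7 9), (8, .rt 6 7 9 6 7 9), (6, .cf 0 1 3 0 3 7), (6, .lf 7 9 0 0 7 9), (2, .am 4 7 8 9 1 1)]) (.leaf [(2, .am 0 1 8 9 1 1), (9, .lf 5 7 8 8 5 7), (12, .lf 8 0 1 1 8 0), (4, .am 1 7 8 9 1 1), (7, .pl 0 1 6 7), (3, .ce 4 6 7 4 7 0), (9, .ce 4 6 7 4 7 9), (4, .am 0 6 8 9 1 1), (2, .am 6 7 8 9 1 1), (3, .am 0 1 7 8 1 1), (9, .lf 7 9 0 0 7 9), (12, .lf 4 6 7 7 4 6), (12, .lf 6 8 9 9 6 8), (9, .ce 5 7 8 5 8 0), (3, .am 0 6 7 9 1 1)]) (.leaf [(4, .pl 0 8 7 4), (2, .am 6 7 8 9 1 1), (1, .tb 6 1 2), (4, .lf 5 7 8 8 4 7), (2, .am 0 1 8 9 1 1), (4,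 .lf 4 6 7 7 4 6), (2, .am 0 6 8 9 1 1), (4, .rt 0 1 3 0 1 3), (2, .am 1 7 8 9 1 1), (4, .lf 7 9 0 0 7 9), (8, .ce 4 6 7 4 7 9), (4, .cf 0 1 3 0 3 8), (1, .ta 6 1 2), (2, .pl 0 1 6 7)]) (.leaf [(3, .c4 6), (6, .ce 4 6 7 4 7 9), (3, .rt 8 9 1 8 9 1), (1, .am 0 1 8 9 1 1), (1, .am 6 7 8 9 1 1), (2, .am 0 6 8 9 1 1), (2, .pl 0 1 6 7), (6, .lf 7 9 0 0 7 9), (6, .pl 0 8 7 4), (2, .am 1 7 8 9 1 1), (3, .lf 6 8 9 9 6 8), (6, .lf 5 7 8 8 4 7)])) (.ch 6 (.leaf [(1, .am 4 7 8 9 1 1), (3, .lf 7 9 0 0 7 9), (2, .lf 5 7 8 8 4 7), (1, .ce 5 7 8 4 9 0), (1, .am 2 7 8 9 1 1), (3, .rt 0 1 3 0 2 3), (2, .pl 0 2 6 7), (3, .cf 0 1 3 0 3 7), (2, .rt 8 9 1 8 9 2), (1, .am 0 2 7 9 1 1), (1, .ce 4 6 7 4 7 9), (1, .rt 9 0 2 9 0 2), (4,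 .rt 6 7 9 6 7 9), (2, .am 0 6 7 9 1 1)]) (.leaf [(12, .lf 8 0 1 1 8 0), (12, .lf 4 6 7 7 4 6), (2, .am 6 7 8 9 1 1), (4, .am 1 7 8 9 1 1), (2, .am 0 1 8 9 1 1), (9, .ce 5 7 8 4 8 0), (9, .lf 7 9 0 0 7 9), (4, .am 0 6 8 9 1 1), (9, .lf 5 7 8 8 4 7), (3, .am 0 1 7 8 1 1), (7, .pl 0 1 6 7), (12, .lf 6 8 9 9 6 8), (3, .ce 4 6 7 4 7 0), (3, .am 0 6 7 9 1 1), (9, .ce 4 6 7 4 7 9)]) (.leaf [(4, .lf 5 7 8 8 4 7), (2, .am 0 6 8 9 1 1), (8, .ce 4 6 7 4 7 9), (4, .lf 7 9 0 0 7 9), (2, .am 0 1 8 9 1 1), (2, .pl 0 1 6 7), (4, .rt 0 1 3 0 1 3), (2, .am 1 7 8 9 1 1), (4, .pl 0 8 7 4), (2, .am 6 7 8 9 1 1), (1, .ta 6 1 2), (4, .lf 4 6 7 7 4 6), (4, .cf 0 1 3 0 3 8), (1, .tb 6 1 2)]) (.leaf [(3, .rt 8 9 1 8 9 1), (6, .ce 4 6 7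 4 7 9), (2, .am 1 7 8 9 1 1), (6, .lf 5 7 8 8 4 7), (3, .c4 6), (1, .am 6 7 8 9 1 1), (6, .pl 0 8 7 4), (3, .lf 6 8 9 9 6 8), (2, .pl 0 1 6 7), (2, .am 0 6 8 9 1 1), (6, .lf 7 9 0 0 7 9), (1, .am 0 1 8 9 1 1)])) (.ch 6 (.leaf [(3, .pl 0 1 6 7), (2, .rt 0 1 3 0 2 3), (1, .pl 0 2 6 7), (2, .ce 4 6 7 4 7 9), (4, .am 0 6 7 9 1 1), (2, .am 1 7 8 9 1 1), (6, .lf 7 9 0 0 7 9), (2, .ce 5 7 8 4 9 0), (6, .cf 0 1 3 0 3 7), (1, .am 0 2 7 9 1 1), (2, .am 4 7 8 9 1 1), (2, .rt 9 0 2 9 0 2), (1, .am 0 1 7 9 1 1), (4, .rt 0 1 3 0 1 3), (8, .rt 6 7 9 6 7 9), (4, .lf 5 7 8 8 4 7), (4, .rt 8 9 1 8 9 1)]) (.leaf [(12, .lf 8 0 1 1 8 0), (7, .pl 0 1 6 7), (9, .lf 5 7 8 8 5 7), (9, .ce 4 6 7 4 7 9), (3, .am 0 1 7 8 1 1), (4, .am 0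 6 8 9 1 1), (3, .ce 4 6 7 4 7 0), (9, .ce 5 7 8 5 8 0), (4, .am 1 7 8 9 1 1), (9, .lf 7 9 0 0 7 9), (2, .am 0 1 8 9 1 1), (2, .am 6 7 8 9 1 1), (12, .lf 6 8 9 9 6 8), (12, .lf 4 6 7 7 4 6), (3, .am 0 6 7 9 1 1)]) (.leaf [(4, .lf 4 6 7 7 4 6), (4, .lf 5 7 8 8 4 7), (4, .cf 0 1 3 0 3 8), (4, .lf 7 9 0 0 7 9), (4, .pl 0 8 7 4), (2, .am 0 1 8 9 1 1), (1, .tb 6 1 2), (2, .am 6 7 8 9 1 1), (2, .pl 0 1 6 7), (8, .ce 4 6 7 4 7 9), (4, .rt 0 1 3 0 1 3), (1, .ta 6 1 2), (2, .am 1 7 8 9 1 1), (2, .am 0 6 8 9 1 1)]) (.leaf [(2, .am 0 6 8 9 1 1), (2, .am 1 7 8 9 1 1), (6, .lf 7 9 0 0 7 9), (6, .lf 5 7 8 8 4 7), (3, .rt 8 9 1 8 9 1), (3, .lf 6 8 9 9 6 8), (3, .c4 6), (6, .ce 4 6 7 4 7 9), (6, .pl 0 8 7 4), (1, .am 6 7 8 9 1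 1), (1, .am 0 1 8 9 1 1), (2, .pl 0 1 6 7)])) (.ch 6 (.leaf [(1, .ce 4 6 7 4 7 9), (3, .cf 0 1 3 0 3 7), (1, .am 2 7 8 9 1 1), (4, .rt 6 7 9 6 7 9), (2, .lf 5 7 8 8 4 7), (2, .pl 0 2 6 7), (1, .am 4 7 8 9 1 1), (2, .rt 8 9 1 8 9 2), (3, .lf 7 9 0 0 7 9), (2, .am 0 6 7 9 1 1), (1, .ce 5 7 8 4 9 0), (3, .rt 0 1 3 0 2 3), (1, .rt 9 0 2 9 0 2), (1, .am 0 2 7 9 1 1)]) (.leaf [(3, .am 0 6 7 9 1 1), (9, .lf 5 7 8 8 5 7), (4, .am 0 6 8 9 1 1), (12, .lf 6 8 9 9 6 8), (12, .lf 8 0 1 1 8 0), (7, .pl 0 1 6 7), (3, .ce 4 6 7 4 7 0), (2, .am 6 7 8 9 1 1), (9, .lf 7 9 0 0 7 9), (3, .am 0 1 7 8 1 1), (2, .am 0 1 8 9 1 1), (9, .ce 5 7 8 5 8 0), (4, .am 1 7 8 9 1 1), (9, .ce 4 6 7 4 7 9), (12, .lf 4 6 7 7 4 6)]) (.leaf [(2, .am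 6 7 8 9 1 1), (4, .rt 0 1 3 0 1 3), (4, .pl 0 8 7 4), (8, .ce 4 6 7 4 7 9), (2, .pl 0 1 6 7), (1, .tb 6 1 2), (2, .am 0 1 8 9 1 1), (4, .lf 5 7 8 8 4 7), (1, .ta 6 1 2), (4, .lf 4 6 7 7 4 6), (4, .lf 7 9 0 0 7 9), (2, .am 1 7 8 9 1 1), (2, .am 0 6 8 9 1 1), (4, .cf 0 1 3 0 3 8)]) (.leaf [(1, .am 0 1 8 9 1 1), (1, .am 6 7 8 9 1 1), (3, .c4 6), (6, .pl 0 8 7 4), (2, .am 0 6 8 9 1 1), (6, .lf 5 7 8 8 4 7), (6, .lf 7 9 0 0 7 9), (3, .rt 8 9 1 8 9 1), (6, .ce 4 6 7 4 7 9), (2, .am 1 7 8 9 1 1), (3, .lf 6 8 9 9 6 8), (2, .pl 0 1 6 7)])))) (.pr 1 2 (.ch 6 (.leaf [(2, .lf 5 7 8 8 4 7), (1, .ce 5 7 8 4 9 0), (2, .am 0 6 7 9 1 1), (1, .am 0 2 7 9 1 1), (3, .cf 0 1 3 0 3 7), (2, .pl 0 2 6 7), (3, .rt 0 1 3 0 2 3), (1, .rt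 9 0 2 9 0 2), (1, .am 2 7 8 9 1 1), (4, .rt 6 7 9 6 7 9), (3, .lf 7 9 0 0 7 9), (2, .rt 8 9 1 8 9 2), (1, .ce 4 6 7 4 7 9), (1, .am 4 7 8 9 1 1)]) (.leaf [(2, .am 0 1 8 9 1 1), (12, .lf 6 8 9 9 6 8), (3, .am 0 6 7 9 1 1), (3, .ce 4 6 7 4 7 0), (9, .lf 5 7 8 8 5 7), (12, .lf 8 0 1 1 8 0), (4, .am 0 6 8 9 1 1), (7, .pl 0 1 6 7), (3, .am 0 1 7 8 1 1), (9, .ce 5 7 8 5 8 0), (9, .lf 7 9 0 0 7 9), (4, .am 1 7 8 9 1 1), (12, .lf 4 6 7 7 4 6), (9, .ce 4 6 7 4 7 9), (2, .am 6 7 8 9 1 1)]) (.leaf [(4, .rt 0 1 3 0 1 3), (2, .am 0 1 8 9 1 1), (2, .am 0 6 8 9 1 1), (8, .ce 4 6 7 4 7 9), (4, .cf 0 1 3 0 3 8), (4, .lf 7 9 0 0 7 9), (2, .am 6 7 8 9 1 1), (2, .am 1 7 8 9 1 1), (2, .pl 0 1 6 7), (4, .pl 0 8 7 4), (4, .lf 5 7 8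 8 4 7), (1, .tb 6 1 2), (1, .ta 6 1 2), (4, .lf 4 6 7 7 4 6)]) (.leaf [(6, .lf 7 9 0 0 7 9), (6, .lf 5 7 8 8 4 7), (6, .ce 4 6 7 4 7 9), (1, .am 0 1 8 9 1 1), (2, .pl 0 1 6 7), (2, .am 1 7 8 9 1 1), (1, .am 6 7 8 9 1 1), (3, .lf 6 8 9 9 6 8), (3, .c4 6), (2, .am 0 6 8 9 1 1), (3, .rt 8 9 1 8 9 1), (6, .pl 0 8 7 4)])) (.ch 6 (.leaf [(2, .am 4 7 8 9 1 1), (4, .rt 0 1 3 0 1 3), (8, .rt 6 7 9 6 7 9), (2, .am 1 7 8 9 1 1), (3, .pl 0 1 6 7), (2, .rt 9 0 2 9 0 2), (1, .pl 0 2 6 7), (4, .lf 5 7 8 8 4 7), (1, .am 0 2 7 9 1 1), (2, .ce 5 7 8 4 9 0), (2, .rt 0 1 3 0 2 3), (6, .cf 0 1 3 0 3 7), (4, .rt 8 9 1 8 9 1), (1, .am 0 1 7 9 1 1), (6, .lf 7 9 0 0 7 9), (4, .am 0 6 7 9 1 1), (2, .ce 4 6 7 4 7 9)]) (.leaf [(4, .am 0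 6 8 9 1 1), (2, .am 6 7 8 9 1 1), (9, .lf 5 7 8 8 5 7), (12, .lf 6 8 9 9 6 8), (9, .ce 5 7 8 5 8 0), (4, .am 1 7 8 9 1 1), (12, .lf 8 0 1 1 8 0), (9, .lf 7 9 0 0 7 9), (2, .am 0 1 8 9 1 1), (3, .ce 4 6 7 4 7 0), (3, .am 0 6 7 9 1 1), (7, .pl 0 1 6 7), (3, .am 0 1 7 8 1 1), (12, .lf 4 6 7 7 4 6), (9, .ce 4 6 7 4 7 9)]) (.leaf [(8, .ce 4 6 7 4 7 9), (1, .tb 6 1 2), (4, .pl 0 8 7 4), (4, .lf 5 7 8 8 4 7), (2, .am 6 7 8 9 1 1), (2, .am 0 1 8 9 1 1), (4, .rt 0 1 3 0 1 3), (2, .am 0 6 8 9 1 1), (2, .pl 0 1 6 7), (2, .am 1 7 8 9 1 1), (1, .ta 6 1 2), (4, .lf 7 9 0 0 7 9), (4, .lf 4 6 7 7 4 6), (4, .cf 0 1 3 0 3 8)]) (.leaf [(6, .pl 0 8 7 4), (6, .ce 4 6 7 4 7 9), (6, .lf 5 7 8 8 4 7), (1, .am 6 7 8 9 1 1), (3, .rt 8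 9 1 8 9 1), (6, .lf 7 9 0 0 7 9), (3, .lf 6 8 9 9 6 8), (2, .pl 0 1 6 7), (2, .am 1 7 8 9 1 1), (1, .am 0 1 8 9 1 1), (2, .am 0 6 8 9 1 1), (3, .c4 6)])))

def C3433656654 : Tr :=
  .pr 7 2 (.pr 9 2 (.pr 0 2 (.pr 8 2 (.pr 6 2 (.leaf [(1, .pl 0 2 6 7), (2, .am 0 6 8 9 1 1), (2, .am 0 2 8 9 1 1), (1, .am 0 2 7 8 1 1), (4, .rt 7 8 0 7 8 0), (2, .am 0 1 7 8 1 1), (4, .cf 0 1 3 0 3 8), (4, .rt 0 1 3 0 1 3), (2, .pl 0 1 6 7), (4, .rt 9 0 2 9 0 2), (4, .cf 0 1 3 0 3 7), (1, .am 0 6 7 8 1 1), (4, .rt 8 9 1 8 9 1), (4, .rt 6 7 9 6 7 9), (4, .rt 0 1 3 0 2 3)]) (.pr 4 2 (.leaf [(2, .rt 4 5 7 4 6 8), (2, .lf 6 8 9 9 6 8), (1, .rt 7 8 0 7 8 0), (1, .am 4 6 8 9 1 1), (1, .rt 7 8 0 6 8 0), (1, .pl 0 9 6 4), (1, .pl 0 3 7 8),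 (2, .cf 0 1 3 0 3 8), (2, .rt 9 0 2 9 0 3), (1, .am 0 3 8 9 1 1)]) (.pr 5 2 (.leaf [(1, .am 4 6 7 8 1 1), (1, .am 0 2 7 8 1 1), (1, .cf 7 8 0 7 2 6), (2, .ce 6 8 9 4 9 0), (3, .rt 0 1 3 0 2 3), (3, .rt 5 6 8 4 6 8), (4, .lf 6 8 9 9 6 8), (2, .lf 4 6 7 7 4 6), (2, .am 0 2 8 9 1 1), (4, .rt 9 0 2 9 0 2), (3, .cf 0 1 3 0 3 8), (2, .rt 7 8 0 7 8 0), (2, .am 4 6 8 9 1 1)]) (.pr 3 2 (.pr 1 2 (.pr 2 2 (.ch 5 (.leaf [(2, .rt 7 8 0 7 8 0), (2, .ce 6 8 9 4 9 0), (1, .cf 7 8 0 7 2 6), (1, .am 4 6 7 8 1 1), (3, .rt 5 6 8 4 6 8), (3, .cf 0 1 3 0 3 8), (4, .rt 9 0 2 9 0 2), (2, .am 0 2 8 9 1 1), (2, .lf 4 6 7 7 4 6), (2, .am 4 6 8 9 1 1), (1, .am 0 2 7 8 1 1), (4, .lf 6 8 9 9 6 8), (3, .rt 0 1 3 0 2 3)]) (.ch 6 (.leaf [(3,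 .pl 0 1 6 7), (4, .rt 7 8 0 7 8 0), (4, .rt 0 1 3 0 1 3), (1, .am 0 1 7 9 1 1), (4, .rt 8 9 1 8 9 1), (4, .rt 9 0 2 9 0 2), (5, .am 0 6 7 9 1 1), (2, .pl 0 2 6 7), (4, .cf 0 1 3 0 3 7), (2, .am 0 7 8 9 1 1), (2, .am 0 2 7 9 1 1), (4, .rt 0 1 3 0 2 3), (4, .cf 0 1 3 0 3 8), (10, .rt 6 7 9 6 7 9), (6, .lf 7 9 0 0 7 9), (2, .am 1 7 8 9 1 1)]) (.leaf [(2, .ce 4 6 7 4 7 0), (3, .am 0 1 7 8 1 1), (1, .am 0 6 7 8 1 1), (3, .pl 0 1 6 7), (2, .ce 4 6 7 4 7 9), (2, .lf 7 9 0 0 7 9), (4, .lf 4 6 7 7 4 6), (4, .rt 7 8 0 7 8 0), (2, .lf 6 8 9 9 6 8), (2, .am 0 6 8 9 1 1), (6, .lf 8 0 1 1 8 0), (2, .lf 6 8 9 9 6 7)]) (.leaf [(16, .rt 0 1 3 0 1 3), (4, .lf 6 8 9 9 6 7), (4, .am 0 1 8 9 1 1), (4, .lf 7 9 0 0 7 9), (6, .am 0 1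 7 8 1 1), (20, .rt 9 0 2 9 0 2), (10, .am 0 2 8 9 1 1), (20, .ce 4 6 7 4 7 9), (5, .am 0 2 7 8 1 1), (6, .pl 0 1 6 7), (20, .lf 4 6 7 7 4 6), (8, .am 6 7 8 9 1 1), (36, .cf 0 1 3 0 3 8), (4, .tb 6 1 2), (20, .rt 0 1 3 0 2 3), (1, .am 0 6 7 8 1 1), (10, .am 0 6 8 9 1 1), (20, .rt 7 8 0 7 8 0), (5, .pl 0 2 6 7), (4, .ta 6 1 2)]) (.leaf [(2, .am 0 1 7 8 1 1), (1, .am 0 2 7 9 1 1), (1, .am 0 6 7 9 1 1), (2, .lf 7 9 0 0 6 9), (2, .lf 6 8 9 9 6 7), (2, .rt 9 0 2 9 0 2), (2, .lf 7 9 0 0 7 9), (4, .c4 6), (4, .rt 8 9 1 8 0 1), (2, .pl 0 1 6 7), (1, .pl 0 2 6 7), (6, .rt 7 8 0 7 8 0), (2, .cf 0 1 3 0 3 8), (2, .rt 0 1 3 0 2 3)])) (.leaf [(60, .rt 0 1 3 0 2 3), (24, .ce 4 6 7 4 7 9), (12, .am 0 1 7 8 1 1), (12, .am 0 7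 8 9 1 1), (60, .rt 9 0 2 9 0 2), (24, .rt 0 1 3 0 1 3), (20, .tb 5 1 2), (24, .rt 8 9 1 8 9 1), (20, .lf 4 6 7 7 4 5), (18, .am 0 6 8 9 1 1), (30, .am 0 2 8 9 1 1), (32, .ce 4 6 7 4 7 8), (36, .lf 4 6 7 7 4 6), (64, .cf 0 1 3 0 3 8), (15, .am 0 2 7 8 1 1), (9, .am 0 6 7 8 1 1), (20, .cf 0 1 3 0 3 7), (12, .pl 0 1 6 7), (15, .pl 0 2 6 7), (36, .lf 6 8 9 9 6 8)]) (.ch 6 (.leaf [(1, .am 5 6 8 9 1 1), (2, .lf 5 7 8 8 5 6), (1, .rt 8 9 1 8 9 2), (1, .pl 0 9 6 5), (3, .rt 6 7 9 6 7 9), (2, .rt 7 8 0 7 9 0), (2, .c4 5), (1, .am 0 6 7 9 1 1), (1, .cf 9 0 2 9 2 7), (1, .pl 2 9 8 6), (2, .lf 6 8 9 9 6 8)]) (.leaf [(2, .am 0 2 8 9 1 1), (4, .rt 9 0 2 9 0 2), (8, .lf 4 6 7 7 4 6), (3, .pl 0 2 6 7), (2, .am 0 6 8 9 1 1), (8,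 .rt 7 8 0 7 8 0), (12, .lf 8 0 1 2 8 0), (4, .cf 7 8 0 7 2 6), (8, .ce 4 6 7 4 7 0), (7, .am 0 2 7 8 1 1), (4, .lf 6 8 9 9 6 8), (1, .am 0 6 7 8 1 1)]) (.leaf [(2, .cf 9 0 2 9 2 8), (16, .ce 4 6 7 4 7 9), (13, .am 5 6 8 9 1 1), (10, .ce 6 8 9 4 9 0), (8, .am 0 1 8 9 1 1), (8, .am 6 7 8 9 1 1), (4, .ce 4 6 7 4 7 8), (2, .rt 9 0 2 9 0 2), (48, .lf 4 6 7 7 4 6), (10, .ce 4 6 7 4 8 0), (26, .c4 5), (16, .rt 0 1 3 0 1 3), (10, .am 4 6 7 8 1 1), (8, .ce 4 6 7 4 7 0), (3, .pl 0 9 6 5), (7, .am 0 6 8 9 1 1), (16, .ta 6 1 2), (16, .cf 0 1 3 0 3 8), (26, .lf 5 7 8 8 5 7), (10, .pl 4 9 6 5), (4, .am 0 1 7 8 1 1), (4, .pl 0 1 6 7)]) (.leaf [(4, .lf 6 8 9 9 6 8), (6, .rt 7 8 0 7 8 0), (8, .rt 9 0 2 9 0 2), (2, .am 0 2 7 8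 1 1), (1, .pl 0 1 6 7), (1, .am 0 1 7 8 1 1), (4, .am 0 2 8 9 1 1), (2, .am 0 6 8 9 1 1), (1, .am 0 6 7 8 1 1), (2, .ce 4 6 7 4 7 0), (2, .pl 0 2 6 7), (2, .rt 8 9 1 8 9 1), (2, .c4 6), (2, .lf 4 6 7 7 4 6), (8, .cf 0 1 3 0 3 8), (8, .rt 0 1 3 0 2 3)]))) (.leaf [(1, .pl 1 6 3 5), (1, .pl 0 5 1 3), (1, .rt 1 2 4 1 2 4), (1, .lf 2 4 5 5 2 4), (1, .pl 1 2 6 5), (1, .pl 0 1 5 4)])) (.pr 2 2 C3433656654_0 C3433656654_1)) C3433656654_2)))) (.leaf [(1, .pl 0 1 7 9), (1, .rt 7 8 0 7 8 0), (1, .lf 8 0 1 1 8 0), (1, .pl 1 9 8 6), (1, .pl 6 9 8 7)])) (.leaf [(1, .pl 1 3 7 9), (1, .rt 7 8 0 7 0 1), (1, .rt 7 8 0 7 9 0), (1, .lf 0 2 3 3 9 1)])) (.leaf [(1, .pl 2 4 9 7), (1, .pl 1 3 7 4), (2, .lf 9 1 2 2 8 1), (1, .pl 1 6 7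 5), (1, .pl 0 3 7 9), (2, .pl 0 2 7 8), (2, .lf 9 1 2 3 8 9), (1, .pl 1 2 6 4), (1, .pl 0 7 3 5), (1, .pl 1 2 3 9), (1, .pl 3 4 5 6), (2, .rt 7 8 0 7 8 1), (2, .pl 3 9 8 7), (2, .lf 9 1 2 2 9 0), (2, .rt 7 8 0 7 8 0)])) (.pr 5 2 (.leaf [(1, .rt 5 6 8 5 6 8), (1, .lf 7 9 0 0 7 8), (1, .lf 7 9 0 0 6 7), (1, .pl 0 8 6 5)]) (.pr 4 2 (.leaf [(1, .lf 7 9 0 0 7 9), (1, .lf 5 7 8 8 5 7), (1, .pl 1 9 8 7), (1, .pl 1 8 9 5), (1, .pl 0 8 5 4), (1, .rt 4 5 7 4 8 9), (1, .pl 0 5 3 9), (1, .rt 4 5 7 4 7 8), (1, .pl 0 9 8 4), (1, .pl 0 3 7 9), (1, .rt 4 5 7 4 5 7)]) (.pr 6 2 (.leaf [(1, .lf 7 9 0 1 7 9), (2, .rt 6 7 9 6 7 9), (1, .pl 0 9 8 6), (1, .lf 7 9 0 0 7 9), (1, .pl 2 7 8 4), (1, .pl 1 8 7 6), (1, .pl 0 8 7 4), (1, .pl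 2 9 7 6), (1, .pl 1 9 8 2)]) (.pr 8 2 (.pr 0 2 (.pr 9 2 (.pr 2 2 C3433656654_3 (.pr 1 2 (.leaf [(1, .rt 1 2 4 1 2 4), (1, .pl 0 5 1 9), (1, .pl 1 3 8 5), (1, .pl 0 1 5 4), (1, .pl 1 6 3 5), (1, .pl 1 8 9 5), (1, .pl 1 2 6 5), (1, .lf 2 4 5 5 2 4)]) (.pr 3 2 (.ch 1 (.leaf [(1, .rt 1 2 4 1 2 4), (1, .lf 2 4 5 5 2 4), (1, .pl 1 2 3 5), (1, .pl 0 5 1 3), (1, .pl 0 1 5 4)]) (.ch 6 (.leaf [(2, .ce 5 7 8 4 9 0), (1, .am 0 2 7 9 1 1), (4, .rt 8 9 1 8 9 1), (1, .am 0 1 7 9 1 1), (4, .lf 5 7 8 8 4 7), (2, .ce 4 6 7 4 7 9), (8, .rt 6 7 9 6 7 9), (2, .am 4 7 8 9 1 1), (6, .cf 0 1 3 0 3 7), (2, .am 1 7 8 9 1 1), (3, .pl 0 1 6 7), (2, .rt 0 1 3 0 2 3), (4, .am 0 6 7 9 1 1), (2, .rt 9 0 2 9 0 2), (4, .rt 0 1 3 0 1 3), (6, .lf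 7 9 0 0 7 9), (1, .pl 0 2 6 7)]) (.leaf [(3, .am 0 6 7 9 1 1), (12, .lf 4 6 7 7 4 6), (9, .lf 5 7 8 8 5 7), (9, .ce 4 6 7 4 7 9), (2, .am 6 7 8 9 1 1), (12, .lf 6 8 9 9 6 8), (3, .am 0 1 7 8 1 1), (4, .am 2 7 8 9 1 1), (2, .am 0 2 8 9 1 1), (6, .lf 8 0 1 1 8 0), (3, .pl 0 1 6 7), (4, .pl 0 2 6 7), (4, .am 0 6 8 9 1 1), (9, .ce 5 7 8 5 8 0), (3, .ce 4 6 7 4 7 0), (6, .lf 8 0 1 2 8 0), (9, .lf 7 9 0 0 7 9)]) (.leaf [(4, .lf 7 9 0 0 7 9), (2, .am 0 6 8 9 1 1), (4, .cf 0 1 3 0 3 8), (2, .am 6 7 8 9 1 1), (4, .pl 0 8 7 4), (8, .ce 4 6 7 4 7 9), (2, .am 1 7 8 9 1 1), (1, .tb 6 1 2), (2, .pl 0 1 6 7), (4, .lf 5 7 8 8 4 7), (4, .lf 4 6 7 7 4 6), (4, .rt 0 1 3 0 1 3), (2, .am 0 1 8 9 1 1), (1, .ta 6 1 2)]) (.leaf [(6,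 .lf 5 7 8 8 4 7), (3, .rt 8 9 1 8 9 1), (3, .c4 6), (2, .am 0 6 8 9 1 1), (1, .am 6 7 8 9 1 1), (6, .ce 4 6 7 4 7 9), (2, .pl 0 1 6 7), (3, .lf 6 8 9 9 6 8), (6, .pl 0 8 7 4), (1, .am 0 1 8 9 1 1), (2, .am 1 7 8 9 1 1), (6, .lf 7 9 0 0 7 9)])) (.ch 6 (.leaf [(2, .rt 0 1 3 0 2 3), (2, .ce 5 7 8 4 9 0), (4, .lf 5 7 8 8 4 7), (1, .am 0 1 7 9 1 1), (1, .pl 0 2 6 7), (4, .am 0 6 7 9 1 1), (8, .rt 6 7 9 6 7 9), (2, .rt 9 0 2 9 0 2), (1, .am 0 2 7 9 1 1), (4, .rt 8 9 1 8 9 1), (6, .cf 0 1 3 0 3 7), (4, .rt 0 1 3 0 1 3), (3, .pl 0 1 6 7), (2, .am 4 7 8 9 1 1), (6, .lf 7 9 0 0 7 9), (2, .ce 4 6 7 4 7 9), (2, .am 1 7 8 9 1 1)]) (.leaf [(4, .am 0 6 8 9 1 1), (9, .lf 5 7 8 8 5 7), (3, .ce 4 6 7 4 7 0), (3, .am 0 2 7 8 1 1),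 (4, .am 2 7 8 9 1 1), (7, .pl 0 2 6 7), (2, .am 6 7 8 9 1 1), (9, .lf 7 9 0 0 7 9), (2, .am 0 2 8 9 1 1), (12, .lf 8 0 1 2 8 0), (9, .ce 4 6 7 4 7 9), (12, .lf 6 8 9 9 6 8), (3, .am 0 6 7 9 1 1), (12, .lf 4 6 7 7 4 6), (9, .ce 5 7 8 5 8 0)]) (.leaf [(1, .ta 6 1 2), (2, .am 1 7 8 9 1 1), (4, .rt 0 1 3 0 1 3), (2, .am 6 7 8 9 1 1), (2, .am 0 1 8 9 1 1), (2, .pl 0 1 6 7), (4, .lf 5 7 8 8 4 7), (1, .tb 6 1 2), (4, .pl 0 8 7 4), (2, .am 0 6 8 9 1 1), (4, .lf 4 6 7 7 4 6), (4, .lf 7 9 0 0 7 9), (8, .ce 4 6 7 4 7 9), (4, .cf 0 1 3 0 3 8)]) (.leaf [(1, .am 0 1 8 9 1 1), (1, .am 6 7 8 9 1 1), (3, .rt 8 9 1 8 9 1), (6, .lf 7 9 0 0 7 9), (6, .lf 5 7 8 8 4 7), (2, .am 0 6 8 9 1 1), (3, .lf 6 8 9 9 6 8), (2, .pl 0 1 6 7),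 (2, .am 1 7 8 9 1 1), (6, .pl 0 8 7 4), (3, .c4 6), (6, .ce 4 6 7 4 7 9)])) (.ch 6 (.leaf [(2, .ce 5 7 8 4 9 0), (2, .rt 9 0 2 9 0 2), (3, .pl 0 1 6 7), (4, .am 0 6 7 9 1 1), (6, .lf 7 9 0 0 7 9), (2, .am 4 7 8 9 1 1), (1, .am 0 1 7 9 1 1), (4, .rt 8 9 1 8 9 1), (2, .am 1 7 8 9 1 1), (4, .lf 5 7 8 8 4 7), (1, .pl 0 2 6 7), (1, .am 0 2 7 9 1 1), (2, .rt 0 1 3 0 2 3), (8, .rt 6 7 9 6 7 9), (4, .rt 0 1 3 0 1 3), (6, .cf 0 1 3 0 3 7), (2, .ce 4 6 7 4 7 9)]) (.leaf [(9, .lf 5 7 8 8 5 7), (4, .am 0 6 8 9 1 1), (7, .pl 0 2 6 7), (12, .lf 4 6 7 7 4 6), (3, .am 0 6 7 9 1 1), (12, .lf 8 0 1 2 8 0), (9, .ce 5 7 8 5 8 0), (4, .am 2 7 8 9 1 1), (3, .am 0 2 7 8 1 1), (2, .am 6 7 8 9 1 1), (3, .ce 4 6 7 4 7 0), (9, .lf 7 9 0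 0 7 9), (9, .ce 4 6 7 4 7 9), (2, .am 0 2 8 9 1 1), (12, .lf 6 8 9 9 6 8)]) (.leaf [(4, .rt 0 1 3 0 1 3), (8, .ce 4 6 7 4 7 9), (2, .pl 0 1 6 7), (2, .am 0 6 8 9 1 1), (1, .tb 6 1 2), (4, .cf 0 1 3 0 3 8), (4, .lf 4 6 7 7 4 6), (4, .pl 0 8 7 4), (2, .am 0 1 8 9 1 1), (2, .am 1 7 8 9 1 1), (4, .lf 7 9 0 0 7 9), (2, .am 6 7 8 9 1 1), (4, .lf 5 7 8 8 4 7), (1, .ta 6 1 2)]) (.leaf [(2, .am 1 7 8 9 1 1), (2, .am 0 6 8 9 1 1), (6, .ce 4 6 7 4 7 9), (6, .lf 7 9 0 0 7 9), (2, .pl 0 1 6 7), (3, .c4 6), (1, .am 6 7 8 9 1 1), (6, .pl 0 8 7 4), (3, .rt 8 9 1 8 9 1), (3, .lf 6 8 9 9 6 8), (6, .lf 5 7 8 8 4 7), (1, .am 0 1 8 9 1 1)]))) (.ch 6 (.leaf [(1, .am 0 2 7 9 1 1), (2, .rt 9 0 2 9 0 2), (1, .am 0 1 7 9 1 1), (2, .ce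 5 7 8 4 9 0), (2, .rt 0 1 3 0 2 3), (2, .am 1 7 8 9 1 1), (3, .pl 0 1 6 7), (2, .ce 4 6 7 4 7 9), (6, .cf 0 1 3 0 3 7), (4, .rt 0 1 3 0 1 3), (4, .am 0 6 7 9 1 1), (2, .am 4 7 8 9 1 1), (8, .rt 6 7 9 6 7 9), (6, .lf 7 9 0 0 7 9), (4, .rt 8 9 1 8 9 1), (1, .pl 0 2 6 7), (4, .lf 5 7 8 8 4 7)]) (.leaf [(7, .pl 0 1 6 7), (12, .lf 6 8 9 9 6 8), (12, .lf 8 0 1 1 8 0), (9, .ce 5 7 8 4 8 0), (3, .ce 4 6 7 4 7 0), (4, .am 0 6 8 9 1 1), (9, .lf 7 9 0 0 7 9), (3, .am 0 1 7 8 1 1), (4, .am 1 7 8 9 1 1), (2, .am 6 7 8 9 1 1), (2, .am 0 1 8 9 1 1), (12, .lf 4 6 7 7 4 6), (3, .am 0 6 7 9 1 1), (9, .ce 4 6 7 4 7 9), (9, .lf 5 7 8 8 4 7)]) (.leaf [(4, .lf 7 9 0 0 7 9), (2, .am 6 7 8 9 1 1), (2, .am 0 1 8 9 1 1), (4, .cf 0 1 3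 0 3 8), (4, .rt 0 1 3 0 1 3), (2, .pl 0 1 6 7), (4, .pl 0 8 7 4), (2, .am 0 6 8 9 1 1), (2, .am 1 7 8 9 1 1), (4, .lf 5 7 8 8 4 7), (4, .lf 4 6 7 7 4 6), (8, .ce 4 6 7 4 7 9), (1, .ta 6 1 2), (1, .tb 6 1 2)]) (.leaf [(2, .pl 0 1 6 7), (2, .am 1 7 8 9 1 1), (2, .am 0 6 8 9 1 1), (3, .c4 6), (6, .pl 0 8 7 4), (6, .lf 5 7 8 8 4 7), (1, .am 0 1 8 9 1 1), (3, .lf 6 8 9 9 6 8), (6, .lf 7 9 0 0 7 9), (3, .rt 8 9 1 8 9 1), (6, .ce 4 6 7 4 7 9), (1, .am 6 7 8 9 1 1)]))))) (.leaf [(23, .ce 5 7 8 4 8 0), (14, .am 0 2 7 8 1 1), (23, .lf 9 1 2 2 9 0), (23, .lf 4 6 7 7 4 6), (11, .pl 1 2 6 7), (23, .lf 5 7 8 8 4 7), (11, .lf 6 8 9 9 6 8), (23, .ce 4 6 7 4 7 9), (11, .am 0 1 6 9 1 1), (7, .lf 7 9 0 0 6 9), (22, .am 1 2 8 9 1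 1), (11, .cf 0 1 3 0 3 8), (11, .rt 0 1 3 0 1 3), (6, .am 0 2 8 9 1 1), (33, .lf 9 1 2 2 9 1), (44, .rt 8 9 1 8 9 1), (18, .am 0 6 8 9 1 1), (9, .am 6 7 8 9 1 1), (5, .lf 6 8 9 9 6 7), (28, .lf 7 9 0 0 7 9), (3, .pl 0 2 6 7)])) (.leaf [(1, .am 4 7 8 9 1 1), (2, .lf 5 7 8 8 4 7), (1, .pl 0 9 7 4), (1, .lf 7 9 0 1 7 9), (2, .lf 0 2 3 3 9 1), (1, .pl 1 3 7 8), (1, .am 1 3 8 9 1 1), (2, .ce 4 6 7 4 7 9), (2, .rt 8 9 1 8 9 1), (1, .lf 7 9 0 0 7 9)])) (.leaf [(12, .lf 8 0 1 1 8 0), (3, .ce 4 6 7 4 7 0), (12, .lf 6 8 9 9 6 8), (9, .lf 5 7 8 8 5 7), (3, .am 0 6 7 9 1 1), (4, .am 0 6 8 9 1 1), (7, .pl 0 1 6 7), (12, .lf 4 6 7 7 4 6), (9, .lf 7 9 0 0 7 9), (2, .am 6 7 8 9 1 1), (9, .ce 5 7 8 5 8 0), (3, .am 0 1 7 8 1 1),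 (2, .am 0 1 8 9 1 1), (9, .ce 4 6 7 4 7 9), (4, .am 1 7 8 9 1 1)])))))

theorem ok_3433656654 : chk C3433656654 ⟨19207129941627835837430427662, [], [], [], [], []⟩ = true := by decide +kernel

end Pool.Agent.H146.TW
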