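import Pool.Agent.H292.TW.Chk3

/-!
Project TWELVE (helper221): certificate tree of one order pattern (helper146).
-/

set_option autoImplicit false
set_option maxRecDepth 100000

namespace Pool.Agent.H146.TW

open Pool.Agent.H292.TW.Chk

def C3434656554_0 : Tr :=
  .pr 1 2 (.pr 2 2 (.ch 5 (.leaf [(1, .am 4 6 7 8 1 1), (2, .am 0 2 8 9 1 1), (2, .rt 7 8 0 7 8 0), (1, .am 0 2 7 8 1 1), (3, .rt 5 6 8 4 6 8), (4, .rt 9 0 2 9 0 2), (4, .lf 6 8 9 9 6 8), (3, .cf 0 1 3 0 3 8), (1, .cf 9 0 2 7 2 6), (3, .rt 0 1 3 0 2 3), (2, .lf 4 6 7 7 4 6), (2, .am 4 6 8 9 1 1), (2, .ce 6 8 9 4 9 0)]) (.ch 6 (.leaf [(2, .pl 0 9 6 4), (2, .am 1 7 8 9 1 1), (12, .cf 0 1 3 0 3 8), (4, .lf 3 5 6 6 3 4), (1, .am 0 1 7 9 1 1), (8, .rt 9 0 2 9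 0 2), (4, .am 0 2 7 9 1 1), (6, .am 0 7 8 9 1 1), (4, .lf 6 8 9 9 6 8), (3, .pl 0 1 6 7), (4, .ce 3 5 6 3 6 7), (8, .rt 7 8 0 7 8 0), (4, .pl 0 2 6 7), (9, .am 0 6 7 9 1 1), (4, .lf 4 6 7 7 4 6), (18, .rt 6 7 9 6 7 9), (8, .rt 0 1 3 0 2 3), (4, .rt 0 1 3 0 1 3), (2, .am 4 6 7 9 1 1), (14, .lf 7 9 0 0 7 9), (4, .rt 8 9 1 8 9 1)]) (.leaf [(2, .ce 4 6 7 4 7 0), (6, .lf 8 0 1 1 8 0), (4, .lf 4 6 7 7 4 6), (3, .am 0 1 7 8 1 1), (2, .am 0 6 8 9 1 1), (4, .rt 7 8 0 7 8 0), (3, .pl 0 1 6 7), (2, .ce 4 6 7 4 7 9), (1, .am 0 6 7 8 1 1), (2, .lf 6 8 9 9 6 8), (2, .lf 6 8 9 9 6 7), (2, .lf 7 9 0 0 7 9)]) (.leaf [(20, .lf 4 6 7 7 4 6), (10, .am 0 2 8 9 1 1), (1, .am 0 6 7 8 1 1), (5, .am 0 2 7 8 1 1), (6, .pl 0 1 6 7), (4, .lf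 7 9 0 0 7 9), (16, .rt 0 1 3 0 1 3), (4, .am 0 1 8 9 1 1), (20, .rt 0 1 3 0 2 3), (20, .rt 7 8 0 7 8 0), (8, .am 6 7 8 9 1 1), (4, .tb 6 1 2), (20, .rt 9 0 2 9 0 2), (20, .ce 4 6 7 4 7 9), (36, .cf 0 1 3 0 3 8), (10, .am 0 6 8 9 1 1), (4, .lf 6 8 9 9 6 7), (4, .ta 6 1 2), (5, .pl 0 2 6 7), (6, .am 0 1 7 8 1 1)]) (.leaf [(2, .rt 0 1 3 0 2 3), (4, .c4 6), (2, .lf 6 8 9 9 6 7), (2, .am 0 1 7 8 1 1), (4, .rt 8 9 1 8 0 1), (2, .lf 7 9 0 0 7 9), (1, .pl 0 2 6 7), (1, .am 0 2 7 9 1 1), (6, .rt 7 8 0 7 8 0), (2, .lf 7 9 0 0 6 9), (2, .pl 0 1 6 7), (2, .cf 0 1 3 0 3 8), (1, .am 0 6 7 9 1 1), (2, .rt 9 0 2 9 0 2)])) (.leaf [(16, .lf 4 6 7 7 4 6), (10, .lf 4 6 7 7 4 5), (14, .rt 0 1 3 0 1 3), (8, .am 0 6 8 9 1 1), (16, .lf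 6 8 9 9 6 8), (7, .pl 0 1 6 7), (4, .am 0 6 7 8 1 1), (30, .rt 9 0 2 9 0 2), (10, .cf 9 0 2 9 2 7), (12, .ce 4 6 7 4 7 8), (34, .cf 0 1 3 0 3 8), (5, .pl 0 2 6 7), (5, .am 0 2 7 8 1 1), (14, .ce 4 6 7 4 7 9), (7, .am 0 1 7 8 1 1), (10, .tb 5 1 2), (20, .rt 0 1 3 0 2 3), (10, .am 0 2 8 9 1 1), (14, .rt 8 9 1 8 9 1), (12, .am 0 7 8 9 1 1)]) (.ch 6 (.leaf [(1, .am 0 6 7 9 1 1), (1, .am 5 6 8 9 1 1), (3, .rt 6 7 9 6 7 9), (2, .c4 5), (1, .rt 8 9 1 8 9 2), (2, .lf 5 7 8 8 5 6), (1, .cf 9 0 2 9 2 7), (1, .pl 2 9 8 6), (1, .pl 0 9 6 5), (2, .rt 7 8 0 7 9 0), (2, .lf 6 8 9 9 6 8)]) (.leaf [(3, .am 0 1 7 8 1 1), (8, .lf 4 6 7 7 4 6), (3, .pl 0 1 6 7), (4, .rt 9 0 2 9 0 2), (8, .rt 7 8 0 7 8 0), (2, .am 0 2 8 9 1 1), (8, .ce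 4 6 7 4 7 0), (6, .lf 8 0 1 2 8 0), (4, .lf 6 8 9 9 6 8), (6, .lf 8 0 1 1 8 0), (2, .am 0 6 8 9 1 1), (4, .cf 9 0 2 7 2 6), (4, .am 0 2 7 8 1 1), (1, .am 0 6 7 8 1 1)]) (.leaf [(48, .ta 6 1 2), (6, .rt 9 0 2 9 0 3), (39, .pl 4 9 6 5), (48, .rt 0 1 3 0 1 3), (78, .lf 5 7 8 8 5 7), (39, .am 5 6 8 9 1 1), (13, .am 4 6 8 9 1 1), (24, .am 0 1 8 9 1 1), (24, .am 6 7 8 9 1 1), (8, .am 0 6 8 9 1 1), (144, .lf 4 6 7 7 4 6), (48, .ce 4 6 7 4 7 9), (4, .am 0 6 7 8 1 1), (32, .ce 4 6 7 4 7 0), (78, .c4 5), (48, .cf 0 1 3 0 3 8), (12, .pl 0 1 6 7), (26, .am 4 6 7 8 1 1), (52, .ce 6 8 9 4 9 0), (6, .cf 9 0 2 9 3 8), (12, .am 0 1 7 8 1 1), (12, .ce 4 6 7 4 7 8)]) (.leaf [(8, .cf 0 1 3 0 3 8), (2, .c4 6), (2, .rt 8 9 1 8 9 1), (2,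 .ce 4 6 7 4 7 0), (2, .am 0 6 8 9 1 1), (6, .rt 7 8 0 7 8 0), (1, .am 0 6 7 8 1 1), (8, .rt 0 1 3 0 2 3), (4, .am 0 2 8 9 1 1), (2, .am 0 2 7 8 1 1), (8, .rt 9 0 2 9 0 2), (2, .lf 4 6 7 7 4 6), (1, .am 0 1 7 8 1 1), (2, .pl 0 2 6 7), (1, .pl 0 1 6 7), (4, .lf 6 8 9 9 6 8)]))) (.leaf [(24, .rt 0 1 3 0 1 3), (19, .pl 0 2 6 7), (20, .ce 4 6 7 4 7 0), (2, .am 0 5 6 7 1 1), (44, .lf 4 6 7 7 4 6), (19, .am 0 2 7 8 1 1), (8, .lf 3 5 6 6 3 5), (6, .am 0 1 6 7 1 1), (76, .rt 0 1 3 0 2 3), (52, .lf 6 8 9 9 6 8), (76, .rt 9 0 2 9 0 2), (26, .am 0 6 8 9 1 1), (38, .am 0 2 8 9 1 1), (12, .am 0 7 8 9 1 1), (6, .pl 0 1 5 4), (12, .am 0 1 7 8 1 1), (6, .pl 1 2 6 5), (4, .am 0 5 7 8 1 1), (8, .lf 5 7 8 8 5 6), (6, .rt 1 2 4 1 2 4),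 (24, .rt 8 9 1 8 9 1), (8, .pl 0 3 7 6), (9, .am 0 6 7 8 1 1), (56, .rt 7 8 0 7 8 0), (6, .lf 2 4 5 5 2 4), (108, .cf 0 1 3 0 3 8), (24, .ce 4 6 7 4 7 9)])) (.pr 2 2 (.ch 5 (.leaf [(3, .cf 0 1 3 0 3 8), (3, .rt 5 6 8 4 6 8), (2, .am 0 2 8 9 1 1), (1, .am 4 6 7 8 1 1), (4, .rt 9 0 2 9 0 2), (4, .lf 6 8 9 9 6 8), (2, .am 4 6 8 9 1 1), (2, .ce 6 8 9 4 9 0), (1, .am 0 2 7 8 1 1), (2, .rt 7 8 0 7 8 0), (1, .cf 9 0 2 7 2 6), (2, .lf 4 6 7 7 4 6), (3, .rt 0 1 3 0 2 3)]) (.ch 6 (.leaf [(8, .rt 9 0 2 9 0 2), (14, .lf 7 9 0 0 7 9), (1, .am 0 1 7 9 1 1), (4, .lf 3 5 6 6 3 4), (9, .am 0 6 7 9 1 1), (4, .ce 3 5 6 3 6 7), (4, .lf 6 8 9 9 6 8), (18, .rt 6 7 9 6 7 9), (4, .lf 4 6 7 7 4 6), (8, .rt 7 8 0 7 8 0), (4, .am 0 2 7 9 1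 1), (4, .pl 0 2 6 7), (4, .rt 0 1 3 0 1 3), (2, .am 4 6 7 9 1 1), (4, .rt 8 9 1 8 9 1), (2, .am 1 7 8 9 1 1), (8, .rt 0 1 3 0 2 3), (12, .cf 0 1 3 0 3 8), (6, .am 0 7 8 9 1 1), (3, .pl 0 1 6 7), (2, .pl 0 9 6 4)]) (.leaf [(2, .ce 4 6 7 4 7 9), (2, .am 0 6 8 9 1 1), (4, .rt 7 8 0 7 8 0), (3, .am 0 1 7 8 1 1), (2, .ce 4 6 7 4 7 0), (6, .lf 8 0 1 1 8 0), (2, .lf 6 8 9 9 6 8), (4, .lf 4 6 7 7 4 6), (3, .pl 0 1 6 7), (2, .lf 7 9 0 0 7 9), (1, .am 0 6 7 8 1 1), (2, .lf 6 8 9 9 6 7)]) (.leaf [(10, .am 0 2 8 9 1 1), (1, .am 0 6 7 8 1 1), (10, .am 0 6 8 9 1 1), (4, .ta 6 1 2), (4, .am 0 1 8 9 1 1), (36, .cf 0 1 3 0 3 8), (20, .rt 7 8 0 7 8 0), (4, .lf 6 8 9 9 6 7), (20, .rt 9 0 2 9 0 2), (20, .rt 0 1 3 0 2 3), (5, .pl 0 2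 6 7), (20, .lf 4 6 7 7 4 6), (5, .am 0 2 7 8 1 1), (6, .am 0 1 7 8 1 1), (20, .ce 4 6 7 4 7 9), (4, .tb 6 1 2), (8, .am 6 7 8 9 1 1), (16, .rt 0 1 3 0 1 3), (4, .lf 7 9 0 0 7 9), (6, .pl 0 1 6 7)]) (.leaf [(2, .lf 6 8 9 9 6 7), (2, .rt 9 0 2 9 0 2), (1, .am 0 2 7 9 1 1), (2, .lf 7 9 0 0 7 9), (2, .pl 0 1 6 7), (2, .lf 7 9 0 0 6 9), (1, .pl 0 2 6 7), (4, .c4 6), (2, .am 0 1 7 8 1 1), (4, .rt 8 9 1 8 0 1), (2, .cf 0 1 3 0 3 8), (2, .rt 0 1 3 0 2 3), (6, .rt 7 8 0 7 8 0), (1, .am 0 6 7 9 1 1)])) (.leaf [(4, .am 0 6 7 8 1 1), (7, .am 0 1 7 8 1 1), (5, .pl 0 2 6 7), (10, .lf 4 6 7 7 4 5), (7, .pl 0 1 6 7), (10, .cf 9 0 2 9 2 7), (8, .am 0 6 8 9 1 1), (14, .rt 0 1 3 0 1 3), (12, .ce 4 6 7 4 7 8), (20, .rt 0 1 3 0 2 3),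 (30, .rt 9 0 2 9 0 2), (12, .am 0 7 8 9 1 1), (14, .rt 8 9 1 8 9 1), (10, .am 0 2 8 9 1 1), (16, .lf 6 8 9 9 6 8), (14, .ce 4 6 7 4 7 9), (16, .lf 4 6 7 7 4 6), (34, .cf 0 1 3 0 3 8), (5, .am 0 2 7 8 1 1), (10, .tb 5 1 2)]) (.ch 6 (.leaf [(1, .pl 2 9 8 6), (3, .rt 6 7 9 6 7 9), (2, .c4 5), (2, .lf 6 8 9 9 6 8), (2, .lf 5 7 8 8 5 6), (2, .rt 7 8 0 7 9 0), (1, .pl 0 9 6 5), (1, .rt 8 9 1 8 9 2), (1, .cf 9 0 2 9 2 7), (1, .am 0 6 7 9 1 1), (1, .am 5 6 8 9 1 1)]) (.leaf [(2, .am 0 6 8 9 1 1), (1, .am 0 6 7 8 1 1), (12, .lf 8 0 1 2 8 0), (7, .am 0 2 7 8 1 1), (2, .am 0 2 8 9 1 1), (8, .rt 7 8 0 7 8 0), (4, .cf 9 0 2 7 2 6), (4, .lf 6 8 9 9 6 8), (4, .rt 9 0 2 9 0 2), (3, .pl 0 2 6 7), (8, .lf 4 6 7 7 4 6), (8, .ce 4 6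 7 4 7 0)]) (.leaf [(39, .am 5 6 8 9 1 1), (6, .rt 9 0 2 9 0 3), (4, .am 0 6 7 8 1 1), (24, .am 0 1 8 9 1 1), (52, .ce 6 8 9 4 9 0), (48, .cf 0 1 3 0 3 8), (26, .am 4 6 7 8 1 1), (12, .pl 0 1 6 7), (32, .ce 4 6 7 4 7 0), (144, .lf 4 6 7 7 4 6), (39, .pl 4 9 6 5), (48, .ce 4 6 7 4 7 9), (13, .am 4 6 8 9 1 1), (8, .am 0 6 8 9 1 1), (48, .ta 6 1 2), (12, .am 0 1 7 8 1 1), (6, .cf 9 0 2 9 3 8), (24, .am 6 7 8 9 1 1), (48, .rt 0 1 3 0 1 3), (78, .c4 5), (78, .lf 5 7 8 8 5 7), (12, .ce 4 6 7 4 7 8)]) (.leaf [(8, .cf 0 1 3 0 3 8), (4, .lf 6 8 9 9 6 8), (2, .lf 4 6 7 7 4 6), (8, .rt 0 1 3 0 2 3), (2, .am 0 6 8 9 1 1), (6, .rt 7 8 0 7 8 0), (1, .am 0 1 7 8 1 1), (2, .ce 4 6 7 4 7 0), (2, .rt 8 9 1 8 9 1), (2, .c4 6), (1, .pl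 0 1 6 7), (4, .am 0 2 8 9 1 1), (8, .rt 9 0 2 9 0 2), (2, .am 0 2 7 8 1 1), (1, .am 0 6 7 8 1 1), (2, .pl 0 2 6 7)]))) (.ch 5 (.leaf [(3, .rt 5 6 8 4 6 8), (2, .ce 6 8 9 4 9 0), (1, .am 4 6 7 8 1 1), (4, .rt 9 0 2 9 0 2), (2, .am 0 2 8 9 1 1), (2, .am 4 6 8 9 1 1), (3, .rt 0 1 3 0 2 3), (4, .lf 6 8 9 9 6 8), (1, .am 0 2 7 8 1 1), (1, .cf 9 0 2 7 2 6), (2, .rt 7 8 0 7 8 0), (2, .lf 4 6 7 7 4 6), (3, .cf 0 1 3 0 3 8)]) (.ch 6 (.leaf [(2, .am 1 7 8 9 1 1), (9, .am 0 6 7 9 1 1), (4, .rt 0 1 3 0 1 3), (12, .cf 0 1 3 0 3 8), (4, .ce 3 5 6 3 6 7), (14, .lf 7 9 0 0 7 9), (8, .rt 0 1 3 0 2 3), (4, .am 0 2 7 9 1 1), (4, .pl 0 2 6 7), (8, .rt 9 0 2 9 0 2), (1, .am 0 1 7 9 1 1), (8, .rt 7 8 0 7 8 0), (3, .pl 0 1 6 7), (2, .pl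 0 9 6 4), (6, .am 0 7 8 9 1 1), (18, .rt 6 7 9 6 7 9), (2, .am 4 6 7 9 1 1), (4, .lf 4 6 7 7 4 6), (4, .lf 6 8 9 9 6 8), (4, .lf 3 5 6 6 3 4), (4, .rt 8 9 1 8 9 1)]) (.leaf [(2, .lf 7 9 0 0 7 9), (2, .lf 6 8 9 9 6 8), (2, .lf 6 8 9 9 6 7), (2, .ce 4 6 7 4 7 0), (6, .lf 8 0 1 1 8 0), (3, .am 0 1 7 8 1 1), (4, .rt 7 8 0 7 8 0), (4, .lf 4 6 7 7 4 6), (1, .am 0 6 7 8 1 1), (2, .ce 4 6 7 4 7 9), (2, .am 0 6 8 9 1 1), (3, .pl 0 1 6 7)]) (.leaf [(20, .ce 4 6 7 4 7 9), (20, .rt 0 1 3 0 2 3), (10, .am 0 6 8 9 1 1), (10, .am 0 2 8 9 1 1), (20, .lf 4 6 7 7 4 6), (16, .rt 0 1 3 0 1 3), (20, .rt 9 0 2 9 0 2), (5, .am 0 2 7 8 1 1), (4, .lf 6 8 9 9 6 7), (4, .lf 7 9 0 0 7 9), (4, .am 0 1 8 9 1 1), (5, .pl 0 2 6 7), (4, .tb 6 1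 2), (1, .am 0 6 7 8 1 1), (8, .am 6 7 8 9 1 1), (20, .rt 7 8 0 7 8 0), (6, .pl 0 1 6 7), (4, .ta 6 1 2), (36, .cf 0 1 3 0 3 8), (6, .am 0 1 7 8 1 1)]) (.leaf [(1, .am 0 2 7 9 1 1), (2, .lf 7 9 0 0 7 9), (2, .lf 7 9 0 0 6 9), (4, .rt 8 9 1 8 0 1), (2, .cf 0 1 3 0 3 8), (4, .c4 6), (2, .pl 0 1 6 7), (1, .am 0 6 7 9 1 1), (2, .rt 0 1 3 0 2 3), (6, .rt 7 8 0 7 8 0), (1, .pl 0 2 6 7), (2, .rt 9 0 2 9 0 2), (2, .lf 6 8 9 9 6 7), (2, .am 0 1 7 8 1 1)])) (.leaf [(7, .rt 8 9 1 8 9 2), (15, .rt 9 0 2 9 0 2), (17, .rt 0 1 3 0 2 3), (6, .am 0 7 8 9 1 1), (6, .pl 0 2 6 7), (6, .am 0 2 7 8 1 1), (5, .lf 4 6 7 7 4 5), (6, .ce 4 6 7 4 7 8), (17, .cf 0 1 3 0 3 8), (7, .ce 4 6 7 4 7 9), (8, .lf 6 8 9 9 6 8), (5, .tb 5 1 2), (5, .cf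 9 0 2 9 2 7), (2, .am 0 6 7 8 1 1), (4, .am 0 6 8 9 1 1), (8, .lf 4 6 7 7 4 6), (5, .am 0 2 8 9 1 1)]) (.ch 6 (.leaf [(2, .lf 6 8 9 9 6 8), (2, .rt 7 8 0 7 9 0), (3, .rt 6 7 9 6 7 9), (2, .lf 5 7 8 8 5 6), (2, .c4 5), (1, .cf 9 0 2 9 2 7), (1, .rt 8 9 1 8 9 2), (1, .pl 0 9 6 5), (1, .am 0 6 7 9 1 1), (1, .am 5 6 8 9 1 1), (1, .pl 2 9 8 6)]) (.leaf [(8, .lf 4 6 7 7 4 6), (4, .cf 9 0 2 7 2 6), (2, .am 0 6 8 9 1 1), (8, .ce 4 6 7 4 7 0), (7, .am 0 2 7 8 1 1), (3, .pl 0 2 6 7), (1, .am 0 6 7 8 1 1), (4, .lf 6 8 9 9 6 8), (12, .lf 8 0 1 2 8 0), (8, .rt 7 8 0 7 8 0), (4, .rt 9 0 2 9 0 2), (2, .am 0 2 8 9 1 1)]) (.leaf [(4, .am 0 1 7 8 1 1), (48, .lf 4 6 7 7 4 6), (4, .ce 4 6 7 4 7 8), (8, .am 0 1 8 9 1 1), (2, .cf 9 0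 2 9 2 8), (16, .rt 0 1 3 0 1 3), (13, .am 5 6 8 9 1 1), (26, .lf 5 7 8 8 5 7), (26, .c4 5), (28, .ce 4 6 7 4 7 0), (13, .pl 0 9 6 5), (16, .ce 4 6 7 4 7 9), (2, .rt 9 0 2 9 0 2), (4, .pl 0 1 6 7), (10, .am 0 6 7 8 1 1), (16, .cf 0 1 3 0 3 8), (16, .ta 6 1 2), (8, .am 6 7 8 9 1 1), (7, .am 0 6 8 9 1 1)]) (.leaf [(2, .am 0 6 8 9 1 1), (2, .c4 6), (2, .pl 0 2 6 7), (1, .pl 0 1 6 7), (2, .am 0 2 7 8 1 1), (6, .rt 7 8 0 7 8 0), (8, .cf 0 1 3 0 3 8), (4, .lf 6 8 9 9 6 8), (2, .lf 4 6 7 7 4 6), (8, .rt 0 1 3 0 2 3), (1, .am 0 1 7 8 1 1), (1, .am 0 6 7 8 1 1), (2, .ce 4 6 7 4 7 0), (4, .am 0 2 8 9 1 1), (8, .rt 9 0 2 9 0 2), (2, .rt 8 9 1 8 9 1)]))))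

def C3434656554 : Tr :=
  .pr 6 2 (.pr 9 2 (.pr 7 2 (.pr 0 2 (.pr 8 2 (.leaf [(1, .am 0 2 7 8 1 1), (4, .am 0 6 7 9 1 1), (12, .rt 0 1 3 0 1 3), (6, .am 0 1 7 8 1 1), (2, .am 0 2 8 9 1 1), (4, .rt 0 1 3 0 2 3), (16, .rt 7 8 0 7 8 0), (8, .am 0 7 8 9 1 1), (16, .rt 9 0 2 9 0 2), (2, .am 0 6 8 9 1 1), (1, .pl 0 2 6 7), (6, .pl 0 1 6 7), (12, .rt 6 7 9 6 7 9), (16, .cf 0 1 3 0 3 8), (12, .cf 9 0 2 9 2 7), (1, .am 0 6 7 8 1 1), (12, .rt 8 9 1 8 9 1)]) (.leaf [(1, .cf 9 0 2 9 2 7), (1, .pl 0 1 6 7), (2, .rt 7 8 0 7 9 0), (2, .rt 7 8 0 7 8 0), (1, .am 0 6 7 9 1 1), (1, .rt 9 0 2 9 0 2), (1, .am 0 1 7 8 1 1), (1, .rt 9 0 2 8 0 2), (1, .cf 9 0 2 8 2 7), (2, .lf 8 0 1 1 8 0), (2, .rt 6 7 9 6 7 9)])) (.leaf [(1, .lf 0 2 3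 3 0 2), (1, .pl 0 9 8 4), (1, .rt 9 0 2 9 0 2), (1, .pl 2 8 9 4), (1, .pl 0 8 3 2)])) (.leaf [(1, .pl 3 6 4 8), (1, .rt 6 7 9 5 7 9), (2, .pl 0 3 7 5), (1, .pl 0 8 3 5), (2, .lf 7 9 0 0 7 9), (1, .pl 4 9 8 5), (1, .rt 6 7 9 6 7 9), (1, .pl 1 3 7 6), (1, .pl 0 9 8 6), (1, .pl 1 7 3 5), (1, .pl 0 9 3 4)])) (.leaf [(1, .lf 9 1 2 2 9 1), (1, .rt 6 7 9 6 7 1), (1, .lf 9 1 2 2 7 9), (1, .pl 1 2 6 7)])) (.pr 4 2 (.leaf [(1, .pl 0 8 7 4), (1, .lf 6 8 9 0 5 7), (2, .pl 0 7 6 4), (1, .rt 4 5 7 4 6 7), (1, .lf 6 8 9 0 6 8), (1, .rt 4 5 7 4 5 8), (1, .pl 0 6 5 4)]) (.pr 3 2 (.leaf [(1, .rt 3 4 6 3 4 6), (1, .pl 2 3 7 6), (1, .pl 3 4 5 7), (1, .lf 4 6 7 7 4 6), (1, .pl 2 7 3 5)]) (.pr 5 2 (.leaf [(1, .pl 4 8 7 5), (1, .pl 4 6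 7 9), (1, .pl 0 8 3 4), (1, .pl 0 3 7 4), (1, .rt 5 6 8 5 6 8), (1, .pl 4 7 6 5), (1, .pl 0 7 8 9), (1, .lf 6 8 9 9 6 8)]) (.pr 9 2 (.pr 0 2 (.pr 7 2 (.pr 8 2 C3434656554_0 (.leaf [(2, .am 0 2 8 9 1 1), (1, .am 0 6 7 8 1 1), (4, .rt 9 0 2 9 0 2), (3, .pl 0 1 6 7), (4, .cf 9 0 2 7 2 6), (6, .lf 8 0 1 1 8 0), (4, .lf 6 8 9 9 6 8), (2, .am 0 6 8 9 1 1), (3, .am 0 1 7 8 1 1), (4, .am 0 2 7 8 1 1), (6, .lf 8 0 1 2 8 0), (8, .rt 7 8 0 7 8 0), (8, .ce 4 6 7 4 7 0), (8, .lf 4 6 7 7 4 6)])) (.pr 8 2 (.pr 2 2 (.pr 1 2 (.ch 6 (.leaf [(8, .pl 0 9 6 4), (4, .lf 6 8 9 9 6 8), (2, .am 2 7 8 9 1 1), (4, .lf 4 6 7 7 4 6), (8, .lf 5 7 8 8 4 7), (26, .rt 6 7 9 6 7 9), (12, .lf 3 5 6 6 3 4), (11, .am 0 6 7 9 1 1), (4, .rt 8 9 1 8 9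 2), (1, .am 0 2 7 9 1 1), (4, .am 4 7 8 9 1 1), (4, .am 4 6 7 9 1 1), (12, .ce 3 5 6 3 6 7), (2, .am 0 7 8 9 1 1), (3, .pl 0 2 6 7), (22, .lf 7 9 0 0 7 9), (4, .rt 0 1 3 0 2 3), (4, .cf 0 1 3 0 3 8)]) (.leaf [(3, .am 0 6 7 9 1 1), (3, .am 0 2 7 8 1 1), (4, .am 1 7 8 9 1 1), (9, .lf 7 9 0 0 7 9), (12, .lf 6 8 9 9 6 8), (4, .pl 0 1 6 7), (9, .lf 5 7 8 8 5 7), (2, .am 0 1 8 9 1 1), (3, .ce 4 6 7 4 7 0), (3, .pl 0 2 6 7), (12, .lf 4 6 7 7 4 6), (6, .lf 8 0 1 2 8 0), (2, .am 6 7 8 9 1 1), (9, .ce 5 7 8 5 8 0), (4, .am 0 6 8 9 1 1), (9, .ce 4 6 7 4 7 9), (6, .lf 8 0 1 1 8 0)]) (.leaf [(2, .am 1 7 8 9 1 1), (2, .am 0 1 8 9 1 1), (2, .pl 0 1 6 7), (4, .lf 5 7 8 8 4 7), (4, .rt 0 1 3 0 1 3), (4, .pl 0 8 7 4), (1, .tb 6 1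 2), (4, .lf 4 6 7 7 4 6), (2, .am 0 6 8 9 1 1), (4, .lf 7 9 0 0 7 9), (8, .ce 4 6 7 4 7 9), (2, .am 6 7 8 9 1 1), (4, .cf 0 1 3 0 3 8), (1, .ta 6 1 2)]) (.leaf [(1, .am 6 7 8 9 1 1), (1, .am 0 1 8 9 1 1), (2, .pl 0 1 6 7), (3, .lf 6 8 9 9 6 8), (6, .ce 4 6 7 4 7 9), (6, .lf 5 7 8 8 4 7), (2, .am 1 7 8 9 1 1), (3, .c4 6), (2, .am 0 6 8 9 1 1), (3, .rt 8 9 1 8 9 1), (6, .lf 7 9 0 0 7 9), (6, .pl 0 8 7 4)])) (.ch 6 (.leaf [(8, .lf 3 5 6 6 3 5), (4, .cf 0 1 3 0 3 8), (2, .am 0 7 8 9 1 1), (4, .lf 4 6 7 7 4 6), (2, .am 1 7 8 9 1 1), (2, .pl 0 9 6 4), (4, .rt 8 9 1 8 9 1), (6, .pl 0 9 6 5), (3, .pl 0 1 6 7), (4, .am 5 7 8 9 1 1), (2, .am 4 6 7 9 1 1), (1, .am 0 1 7 9 1 1), (12, .ce 3 5 6 3 6 7), (4, .lf 3 5 6 6 3 4), (4,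 .lf 6 8 9 9 6 8), (26, .rt 6 7 9 6 7 9), (11, .am 0 6 7 9 1 1), (2, .am 5 6 7 9 1 1), (22, .lf 7 9 0 0 7 9), (8, .lf 5 7 8 8 5 7), (4, .rt 0 1 3 0 1 3)]) (.leaf [(7, .pl 0 1 6 7), (9, .ce 5 7 8 5 8 0), (4, .am 1 7 8 9 1 1), (3, .ce 4 6 7 4 7 0), (12, .lf 4 6 7 7 4 6), (12, .lf 8 0 1 1 8 0), (9, .lf 5 7 8 8 5 7), (3, .am 0 1 7 8 1 1), (4, .am 0 6 8 9 1 1), (2, .am 0 1 8 9 1 1), (3, .am 0 6 7 9 1 1), (9, .lf 7 9 0 0 7 9), (12, .lf 6 8 9 9 6 8), (2, .am 6 7 8 9 1 1), (9, .ce 4 6 7 4 7 9)]) (.leaf [(2, .am 0 6 8 9 1 1), (2, .am 0 1 8 9 1 1), (4, .lf 4 6 7 7 4 6), (4, .cf 0 1 3 0 3 8), (1, .tb 6 1 2), (1, .ta 6 1 2), (2, .am 1 7 8 9 1 1), (4, .pl 0 8 7 4), (2, .pl 0 1 6 7), (8, .ce 4 6 7 4 7 9), (4, .lf 7 9 0 0 7 9),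 (4, .lf 5 7 8 8 4 7), (4, .rt 0 1 3 0 1 3), (2, .am 6 7 8 9 1 1)]) (.leaf [(1, .am 6 7 8 9 1 1), (2, .am 1 7 8 9 1 1), (3, .c4 6), (3, .lf 6 8 9 9 6 8), (3, .rt 8 9 1 8 9 1), (6, .pl 0 8 7 4), (6, .ce 4 6 7 4 7 9), (2, .pl 0 1 6 7), (6, .lf 5 7 8 8 4 7), (1, .am 0 1 8 9 1 1), (2, .am 0 6 8 9 1 1), (6, .lf 7 9 0 0 7 9)]))) (.pr 1 2 (.leaf [(2, .lf 3 5 6 6 3 5), (1, .am 6 7 8 9 1 1), (2, .rt 0 1 3 0 1 3), (4, .lf 4 6 7 7 4 6), (2, .am 5 7 8 9 1 1), (1, .lf 2 4 5 5 2 4), (4, .lf 7 9 0 0 7 9), (1, .rt 1 2 4 1 2 4), (1, .pl 0 1 5 4), (1, .am 1 6 7 9 1 1), (4, .lf 6 8 9 9 6 8), (2, .rt 8 9 1 8 9 1), (1, .pl 1 2 6 5), (2, .lf 4 6 7 7 4 5), (2, .pl 0 3 7 6), (1, .am 0 5 6 9 1 1), (1, .am 0 1 7 9 1 1), (1, .am 1 7 8 9 1 1),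 (6, .ce 4 6 7 4 7 9), (4, .lf 5 7 8 8 5 7), (2, .am 0 6 8 9 1 1), (4, .cf 0 1 3 0 3 8)]) (.ch 6 (.leaf [(3, .pl 0 1 6 7), (4, .rt 8 9 1 8 9 1), (4, .am 4 7 8 9 1 1), (8, .lf 5 7 8 8 4 7), (4, .rt 0 1 3 0 1 3), (4, .lf 4 6 7 7 4 6), (2, .am 0 7 8 9 1 1), (4, .cf 0 1 3 0 3 8), (12, .lf 3 5 6 6 3 4), (2, .am 1 7 8 9 1 1), (22, .lf 7 9 0 0 7 9), (4, .lf 6 8 9 9 6 8), (26, .rt 6 7 9 6 7 9), (4, .am 4 6 7 9 1 1), (1, .am 0 1 7 9 1 1), (8, .pl 0 9 6 4), (11, .am 0 6 7 9 1 1), (12, .ce 3 5 6 3 6 7)]) (.leaf [(9, .ce 5 7 8 5 8 0), (3, .am 0 6 7 9 1 1), (3, .ce 4 6 7 4 7 0), (4, .am 0 6 8 9 1 1), (9, .lf 7 9 0 0 7 9), (9, .ce 4 6 7 4 7 9), (12, .lf 8 0 1 1 8 0), (2, .am 6 7 8 9 1 1), (9, .lf 5 7 8 8 5 7), (2, .am 0 1 8 9 1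 1), (4, .am 1 7 8 9 1 1), (7, .pl 0 1 6 7), (12, .lf 4 6 7 7 4 6), (3, .am 0 1 7 8 1 1), (12, .lf 6 8 9 9 6 8)]) (.leaf [(2, .am 0 6 8 9 1 1), (4, .cf 0 1 3 0 3 8), (2, .am 1 7 8 9 1 1), (2, .am 0 1 8 9 1 1), (8, .ce 4 6 7 4 7 9), (2, .pl 0 1 6 7), (4, .lf 4 6 7 7 4 6), (4, .pl 0 8 7 4), (4, .rt 0 1 3 0 1 3), (4, .lf 7 9 0 0 7 9), (2, .am 6 7 8 9 1 1), (1, .ta 6 1 2), (4, .lf 5 7 8 8 4 7), (1, .tb 6 1 2)]) (.leaf [(1, .am 6 7 8 9 1 1), (6, .lf 5 7 8 8 4 7), (2, .am 1 7 8 9 1 1), (3, .lf 6 8 9 9 6 8), (3, .rt 8 9 1 8 9 1), (6, .lf 7 9 0 0 7 9), (6, .ce 4 6 7 4 7 9), (2, .am 0 6 8 9 1 1), (2, .pl 0 1 6 7), (1, .am 0 1 8 9 1 1), (3, .c4 6), (6, .pl 0 8 7 4)])))) (.leaf [(9, .lf 7 9 0 0 7 9), (12, .lf 4 6 7 7 4 6), (2,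 .am 6 7 8 9 1 1), (9, .ce 5 7 8 5 8 0), (3, .am 0 6 7 9 1 1), (9, .ce 4 6 7 4 7 9), (3, .am 0 2 7 8 1 1), (4, .am 0 6 8 9 1 1), (4, .am 2 7 8 9 1 1), (9, .lf 5 7 8 8 5 7), (7, .pl 0 2 6 7), (12, .lf 8 0 1 2 8 0), (12, .lf 6 8 9 9 6 8), (3, .ce 4 6 7 4 7 0), (2, .am 0 2 8 9 1 1)]))) (.leaf [(1, .pl 1 9 8 2), (1, .pl 0 9 8 1), (1, .pl 2 3 8 5), (1, .lf 0 2 3 3 0 2), (1, .pl 0 8 3 4), (1, .pl 3 5 4 8), (1, .rt 9 0 2 9 0 2)])) (.pr 7 2 (.leaf [(1, .lf 6 8 9 9 6 8), (2, .lf 4 6 7 7 4 6), (1, .am 2 7 8 9 1 1), (2, .lf 9 1 2 2 8 0), (2, .lf 9 1 2 2 8 9), (2, .rt 7 8 0 7 8 0), (1, .lf 6 8 9 0 6 8), (1, .am 0 2 7 8 1 1), (1, .pl 0 2 6 7), (2, .ce 4 6 7 4 7 9), (1, .pl 2 9 7 6)]) (.leaf [(4, .lf 5 7 8 8 5 7), (2, .am 0 2 8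 9 1 1), (4, .ce 4 6 7 4 7 0), (2, .am 0 6 8 9 1 1), (4, .lf 9 1 2 2 9 0), (4, .lf 9 1 2 2 8 0), (3, .am 0 2 7 8 1 1), (4, .ce 5 7 8 5 8 0), (4, .lf 4 6 7 7 4 6), (4, .lf 7 9 0 0 7 9), (4, .lf 6 8 9 9 6 8), (1, .am 0 6 7 8 1 1), (3, .pl 0 2 6 7)]))))))

theorem ok_3434656554 : chk C3434656554 ⟨19207120496894870235578953742, [], [], [], [], []⟩ = true := by decide +kernel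

end Pool.Agent.H146.TW
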