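import Pool.Agent.H292.TW.Chk3

/-!
Project TWELVE (helper221): certificate tree of one order pattern (helper146).
-/

set_option autoImplicit false
set_option maxRecDepth 100000

namespace Pool.Agent.H146.TW

open Pool.Agent.H292.TW.Chk

def C3443655654_0 : Tr :=
  .ch 1 (.ch 5 (.leaf [(8, .rt 7 8 0 7 8 0), (3, .am 0 6 7 8 1 1), (8, .rt 3 4 6 3 5 6), (4, .rt 9 0 2 9 0 2), (1, .pl 0 2 6 5), (1, .pl 2 3 7 8), (3, .pl 3 6 8 7), (2, .pl 0 9 6 5), (2, .am 0 2 8 9 1 1), (4, .ce 6 8 9 5 9 0), (12, .lf 6 8 9 9 6 8), (11, .pl 2 3 5 6), (6, .am 5 6 8 9 1 1), (8, .rt 9 0 2 9 0 3), (4, .pl 0 9 3 5), (4, .am 3 5 9 8 1 1), (20, .rt 5 6 8 5 6 8), (12, .rt 2 3 5 2 3 5), (4, .rt 0 1 3 0 2 3), (1, .am 0 2 7 8 1 1)]) (.ch 6 (.leaf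 [(4, .rt 0 1 3 0 1 3), (2, .cf 0 1 3 0 3 7), (2, .rt 8 9 1 8 9 1), (2, .rt 8 9 1 8 0 1), (3, .pl 0 1 6 7), (6, .rt 6 7 9 6 7 9), (2, .cf 0 1 3 0 3 8), (3, .am 0 6 7 9 1 1), (4, .lf 7 9 0 0 7 9), (1, .am 0 1 7 9 1 1), (2, .am 1 7 8 9 1 1), (2, .rt 7 8 0 7 8 0)]) (.leaf [(2, .am 0 6 8 9 1 1), (4, .lf 4 6 7 7 4 6), (1, .am 0 6 7 8 1 1), (2, .ce 4 6 7 4 7 9), (3, .pl 0 1 6 7), (3, .am 0 1 7 8 1 1), (2, .lf 7 9 0 0 7 9), (6, .lf 8 0 1 1 8 0), (4, .rt 7 8 0 7 8 0), (2, .lf 6 8 9 9 6 8), (2, .lf 6 8 9 9 6 7), (2, .ce 4 6 7 4 7 0)]) (.leaf [(4, .lf 4 6 7 7 4 6), (2, .am 0 6 8 9 1 1), (2, .pl 0 1 6 7), (4, .pl 0 8 7 4), (2, .am 0 1 8 9 1 1), (4, .lf 5 7 8 8 4 7), (2, .am 1 7 8 9 1 1), (4, .rt 0 1 3 0 1 3), (4, .lf 7 9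 0 0 7 9), (8, .ce 4 6 7 4 7 9), (2, .am 6 7 8 9 1 1), (1, .tb 6 1 2), (1, .ta 6 1 2), (4, .cf 0 1 3 0 3 8)]) (.leaf [(2, .c4 6), (3, .rt 7 8 0 7 8 0), (1, .rt 9 0 2 9 0 3), (2, .lf 7 9 0 0 7 9), (1, .cf 0 1 3 0 3 8), (1, .am 0 1 7 8 1 1), (1, .pl 0 3 7 9), (2, .lf 6 8 9 9 6 7), (1, .am 0 6 7 9 1 1), (2, .rt 8 9 1 8 0 1), (1, .pl 0 1 6 7)])) (.ch 6 (.leaf [(8, .pl 0 1 6 7), (4, .am 6 7 8 9 1 1), (3, .ce 4 6 7 4 7 9), (6, .am 0 1 7 8 1 1), (6, .cf 0 1 3 0 3 7), (12, .rt 6 7 9 6 7 9), (8, .am 0 6 8 9 1 1), (3, .lf 4 6 7 7 4 5), (2, .am 1 7 8 9 1 1), (9, .cf 0 1 3 0 3 8), (9, .cf 9 0 2 9 2 7), (3, .tb 5 1 2), (15, .rt 0 1 3 0 1 3), (9, .rt 9 0 2 9 0 2), (1, .am 0 1 8 9 1 1), (15, .rt 8 9 1 8 9 1)]) (.leaf [(1, .am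 0 6 7 8 1 1), (4, .lf 4 6 7 7 4 6), (6, .lf 8 0 1 1 8 0), (4, .cf 9 0 2 8 2 7), (4, .lf 6 8 9 9 6 8), (3, .pl 0 1 6 7), (4, .tb 5 1 2), (4, .lf 4 6 7 7 4 5), (2, .lf 8 0 1 2 8 0), (3, .am 0 1 7 8 1 1), (4, .rt 9 0 2 9 0 2), (8, .ce 4 6 7 4 7 8), (2, .am 0 2 8 9 1 1), (2, .am 0 6 8 9 1 1)]) (.leaf [(78, .am 6 7 8 9 1 1), (258, .rt 9 0 2 9 0 3), (86, .lf 4 6 7 7 4 5), (72, .am 0 1 7 8 1 1), (42, .am 0 1 8 9 1 1), (86, .cf 9 0 2 8 3 7), (86, .tb 5 1 2), (129, .am 0 3 8 9 1 1), (43, .pl 0 3 7 8), (186, .rt 0 1 3 0 1 3), (72, .am 0 6 8 9 1 1), (50, .ce 4 6 7 4 7 8), (15, .am 0 7 8 9 1 1), (72, .pl 0 1 6 7), (33, .ta 6 1 2), (358, .cf 0 1 3 0 3 8), (150, .lf 4 6 7 7 4 6), (51, .tb 6 1 2), (186, .ce 4 6 7 4 7 9)]) (.leaf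 [(2, .tb 5 1 2), (1, .am 0 1 8 9 1 1), (2, .cf 9 0 2 9 3 7), (4, .pl 0 3 7 9), (3, .lf 6 8 9 9 6 8), (3, .rt 8 9 1 8 9 1), (1, .am 6 7 8 9 1 1), (2, .pl 0 1 6 7), (4, .cf 0 1 3 0 3 8), (2, .lf 4 6 7 7 4 5), (2, .ce 4 6 7 4 7 8), (6, .rt 9 0 2 9 0 3), (3, .c4 6), (2, .am 0 6 8 9 1 1), (2, .am 1 7 8 9 1 1)])) (.leaf [(2, .pl 2 3 7 8), (6, .ce 4 6 7 4 7 9), (5, .c4 5), (1, .am 0 2 3 8 1 1), (6, .rt 0 1 3 0 2 3), (6, .rt 8 9 1 8 9 2), (1, .cf 0 1 3 0 3 8), (3, .pl 0 2 6 5), (5, .rt 7 8 0 7 8 0), (1, .am 0 3 8 9 1 1), (2, .am 0 2 7 8 1 1), (2, .am 0 6 3 9 1 1), (1, .am 0 7 8 9 1 1), (6, .lf 4 6 7 7 4 6), (5, .lf 6 8 9 9 6 7), (1, .lf 6 8 9 9 6 8), (5, .rt 2 3 5 2 3 5), (1, .am 0 6 7 9 1 1), (2, .pl 2 3 5 6)])) (.leaf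 [(1, .pl 0 2 6 5), (1, .pl 0 6 2 7), (1, .pl 2 3 7 6), (1, .lf 3 5 6 6 3 5), (1, .rt 2 3 5 2 3 5)]) (.ch 5 (.leaf [(6, .am 0 6 7 8 1 1), (1, .am 0 3 8 9 1 1), (2, .am 0 6 8 9 1 1), (11, .am 3 4 9 8 1 1), (6, .pl 0 3 7 8), (10, .am 5 6 8 9 1 1), (8, .pl 0 1 2 3), (8, .pl 0 2 6 5), (8, .rt 0 1 3 0 1 3), (34, .rt 5 6 8 5 6 8), (8, .rt 5 6 8 4 6 8), (4, .lf 6 8 9 9 4 5), (14, .lf 4 6 7 8 4 5), (6, .ce 6 8 9 5 9 0), (18, .rt 7 8 0 7 8 0), (16, .pl 2 3 5 6), (8, .tb 1 1 2), (6, .pl 3 4 8 7), (6, .lf 4 6 7 7 4 6), (24, .rt 2 3 5 2 3 5), (24, .rt 9 0 2 9 0 3), (24, .lf 6 8 9 9 6 8), (15, .pl 0 9 3 4)]) (.ch 6 (.leaf [(4, .lf 7 9 0 0 7 9), (2, .rt 8 9 1 8 9 1), (6, .rt 6 7 9 6 7 9), (2, .rt 7 8 0 7 8 0), (1, .am 0 1 7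 9 1 1), (2, .cf 0 1 3 0 3 8), (2, .am 1 7 8 9 1 1), (2, .rt 8 9 1 8 0 1), (3, .am 0 6 7 9 1 1), (3, .pl 0 1 6 7), (2, .cf 0 1 3 0 3 7), (4, .rt 0 1 3 0 1 3)]) (.leaf [(4, .rt 7 8 0 7 8 0), (2, .lf 6 8 9 9 6 7), (6, .lf 8 0 1 1 8 0), (1, .am 0 6 7 8 1 1), (2, .ce 4 6 7 4 7 0), (2, .am 0 6 8 9 1 1), (3, .am 0 1 7 8 1 1), (2, .lf 7 9 0 0 7 9), (2, .ce 4 6 7 4 7 9), (3, .pl 0 1 6 7), (4, .lf 4 6 7 7 4 6), (2, .lf 6 8 9 9 6 8)]) (.leaf [(2, .am 0 6 8 9 1 1), (4, .pl 0 3 7 9), (4, .rt 0 1 3 0 1 3), (2, .pl 0 1 6 7), (4, .rt 9 0 2 9 0 3), (2, .am 6 7 8 9 1 1), (8, .cf 0 1 3 0 3 8), (1, .tb 6 1 2), (4, .ce 4 6 7 4 7 9), (1, .ta 6 1 2), (2, .am 0 1 8 9 1 1), (4, .lf 4 6 7 7 4 6), (4, .rt 7 8 0 7 8 0), (2, .am 1 7 8 9 1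 1)]) (.leaf [(1, .am 0 6 7 9 1 1), (2, .c4 6), (2, .lf 6 8 9 9 6 7), (2, .rt 7 8 0 7 8 0), (3, .lf 7 9 0 0 7 9), (1, .am 0 1 7 8 1 1), (2, .rt 8 9 1 8 0 1), (1, .lf 5 7 8 8 4 7), (1, .ce 4 6 7 4 7 9), (1, .pl 0 8 7 4), (1, .pl 0 1 6 7)])) (.ch 6 (.leaf [(3, .ce 4 6 7 4 7 9), (2, .am 1 7 8 9 1 1), (12, .rt 6 7 9 6 7 9), (15, .rt 8 9 1 8 9 1), (6, .cf 0 1 3 0 3 7), (3, .tb 5 1 2), (9, .rt 9 0 2 9 0 2), (4, .am 6 7 8 9 1 1), (9, .cf 0 1 3 0 3 8), (1, .am 0 1 8 9 1 1), (15, .rt 0 1 3 0 1 3), (9, .cf 9 0 2 9 2 7), (6, .am 0 1 7 8 1 1), (8, .am 0 6 8 9 1 1), (8, .pl 0 1 6 7), (3, .lf 4 6 7 7 4 5)]) (.leaf [(4, .cf 9 0 2 8 3 7), (4, .lf 4 6 7 7 4 6), (2, .am 0 6 8 9 1 1), (4, .tb 5 1 2), (3, .pl 0 1 6 7), (2, .am 0 3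 8 9 1 1), (4, .lf 6 8 9 9 6 8), (6, .lf 8 0 1 1 8 0), (8, .ce 4 6 7 4 7 8), (4, .rt 9 0 2 9 0 3), (3, .am 0 1 7 8 1 1), (1, .am 0 6 7 8 1 1), (2, .lf 8 0 1 3 8 0), (4, .lf 4 6 7 7 4 5)]) (.leaf [(33, .ta 6 1 2), (86, .lf 4 6 7 7 4 5), (78, .am 6 7 8 9 1 1), (42, .am 0 1 8 9 1 1), (186, .rt 0 1 3 0 1 3), (15, .am 0 7 8 9 1 1), (72, .am 0 6 8 9 1 1), (72, .pl 0 1 6 7), (72, .am 0 1 7 8 1 1), (50, .ce 4 6 7 4 7 8), (86, .tb 5 1 2), (51, .tb 6 1 2), (129, .am 0 3 8 9 1 1), (43, .pl 0 3 7 8), (258, .rt 9 0 2 9 0 3), (86, .cf 9 0 2 8 3 7), (186, .ce 4 6 7 4 7 9), (358, .cf 0 1 3 0 3 8), (150, .lf 4 6 7 7 4 6)]) (.leaf [(2, .am 1 7 8 9 1 1), (1, .am 6 7 8 9 1 1), (2, .am 0 6 8 9 1 1), (3, .c4 6), (2, .cf 9 0 2 9 3 7),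 (4, .pl 0 3 7 9), (6, .rt 9 0 2 9 0 3), (3, .lf 6 8 9 9 6 8), (2, .ce 4 6 7 4 7 8), (2, .pl 0 1 6 7), (1, .am 0 1 8 9 1 1), (3, .rt 8 9 1 8 9 1), (2, .lf 4 6 7 7 4 5), (2, .tb 5 1 2), (4, .cf 0 1 3 0 3 8)])) (.leaf [(5, .pl 2 4 5 6), (5, .ce 4 6 7 4 7 0), (8, .lf 6 8 9 9 6 8), (3, .cf 0 1 3 0 3 8), (20, .lf 6 8 9 9 6 7), (15, .rt 2 3 5 2 3 5), (5, .rt 2 3 5 2 4 5), (43, .lf 4 6 7 7 4 6), (5, .tb 1 1 2), (23, .rt 0 1 3 0 1 3), (9, .pl 0 1 6 7), (5, .pl 0 1 6 3), (15, .pl 2 3 5 6), (14, .am 0 6 7 9 1 1), (20, .c4 5), (6, .am 0 7 8 9 1 1), (9, .am 0 1 7 8 1 1), (18, .ce 4 6 7 4 7 9), (18, .rt 8 9 1 8 9 1), (15, .rt 7 8 0 7 8 0), (20, .pl 0 7 3 4)])) (.ch 5 (.leaf [(4, .rt 0 1 3 0 2 3), (3, .am 0 6 7 8 1 1), (1, .pl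 0 2 6 5), (20, .rt 5 6 8 5 6 8), (8, .pl 2 3 5 6), (4, .rt 9 0 2 9 0 2), (4, .ce 6 8 9 5 9 0), (2, .am 0 2 8 9 1 1), (8, .rt 3 4 6 3 5 6), (4, .pl 0 9 3 5), (2, .pl 0 9 6 5), (3, .pl 2 7 5 6), (6, .am 5 6 8 9 1 1), (12, .lf 6 8 9 9 6 8), (8, .rt 9 0 2 9 0 3), (8, .rt 7 8 0 7 8 0), (4, .am 3 5 9 8 1 1), (4, .pl 2 3 7 8), (1, .am 0 2 7 8 1 1), (12, .rt 2 3 5 2 3 5)]) (.ch 6 (.leaf [(3, .pl 0 1 6 7), (2, .cf 0 1 3 0 3 7), (4, .rt 0 1 3 0 1 3), (2, .rt 7 8 0 7 8 0), (2, .rt 8 9 1 8 0 1), (3, .am 0 6 7 9 1 1), (6, .rt 6 7 9 6 7 9), (2, .am 1 7 8 9 1 1), (4, .lf 7 9 0 0 7 9), (2, .rt 8 9 1 8 9 1), (1, .am 0 1 7 9 1 1), (2, .cf 0 1 3 0 3 8)]) (.leaf [(2, .ce 4 6 7 4 7 9), (6, .lf 8 0 1 1 8 0), (2, .lf 6 8 9 9 6 7), (4,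 .lf 4 6 7 7 4 6), (4, .rt 7 8 0 7 8 0), (2, .lf 7 9 0 0 7 9), (2, .lf 6 8 9 9 6 8), (3, .am 0 1 7 8 1 1), (2, .am 0 6 8 9 1 1), (2, .ce 4 6 7 4 7 0), (3, .pl 0 1 6 7), (1, .am 0 6 7 8 1 1)]) (.leaf [(4, .rt 0 1 3 0 1 3), (4, .rt 9 0 2 9 0 3), (2, .am 0 6 8 9 1 1), (2, .am 1 7 8 9 1 1), (2, .pl 0 1 6 7), (1, .tb 6 1 2), (4, .ce 4 6 7 4 7 9), (1, .ta 6 1 2), (4, .lf 4 6 7 7 4 6), (4, .rt 7 8 0 7 8 0), (2, .am 0 1 8 9 1 1), (8, .cf 0 1 3 0 3 8), (4, .pl 0 3 7 9), (2, .am 6 7 8 9 1 1)]) (.leaf [(1, .rt 9 0 2 9 0 3), (2, .lf 6 8 9 9 6 7), (3, .rt 7 8 0 7 8 0), (2, .lf 7 9 0 0 7 9), (1, .pl 0 3 7 9), (1, .cf 0 1 3 0 3 8), (1, .am 0 6 7 9 1 1), (2, .rt 8 9 1 8 0 1), (2, .c4 6), (1, .am 0 1 7 8 1 1), (1, .pl 0 1 6 7)]))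 (.ch 6 (.leaf [(12, .rt 6 7 9 6 7 9), (6, .cf 0 1 3 0 3 7), (6, .am 0 1 7 8 1 1), (3, .ce 4 6 7 4 7 9), (1, .am 0 1 8 9 1 1), (3, .lf 4 6 7 7 4 5), (15, .rt 0 1 3 0 1 3), (9, .cf 9 0 2 9 2 7), (9, .cf 0 1 3 0 3 8), (8, .am 0 6 8 9 1 1), (15, .rt 8 9 1 8 9 1), (2, .am 1 7 8 9 1 1), (3, .tb 5 1 2), (8, .pl 0 1 6 7), (4, .am 6 7 8 9 1 1), (9, .rt 9 0 2 9 0 2)]) (.leaf [(4, .lf 4 6 7 7 4 5), (4, .cf 9 0 2 8 2 7), (4, .lf 4 6 7 7 4 6), (4, .rt 9 0 2 9 0 2), (4, .lf 6 8 9 9 6 8), (4, .tb 5 1 2), (1, .am 0 6 7 8 1 1), (3, .am 0 1 7 8 1 1), (2, .am 0 6 8 9 1 1), (2, .am 0 2 8 9 1 1), (6, .lf 8 0 1 1 8 0), (8, .ce 4 6 7 4 7 8), (2, .lf 8 0 1 2 8 0), (3, .pl 0 1 6 7)]) (.leaf [(86, .tb 5 1 2), (43, .pl 0 3 7 8), (51, .tb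 6 1 2), (78, .am 6 7 8 9 1 1), (33, .ta 6 1 2), (186, .ce 4 6 7 4 7 9), (72, .am 0 1 7 8 1 1), (15, .am 0 7 8 9 1 1), (150, .lf 4 6 7 7 4 6), (72, .pl 0 1 6 7), (358, .cf 0 1 3 0 3 8), (129, .am 0 3 8 9 1 1), (258, .rt 9 0 2 9 0 3), (86, .cf 9 0 2 8 3 7), (86, .lf 4 6 7 7 4 5), (186, .rt 0 1 3 0 1 3), (50, .ce 4 6 7 4 7 8), (42, .am 0 1 8 9 1 1), (72, .am 0 6 8 9 1 1)]) (.leaf [(2, .am 0 6 8 9 1 1), (1, .am 0 1 8 9 1 1), (2, .cf 9 0 2 9 2 7), (3, .lf 6 8 9 9 6 8), (4, .cf 0 1 3 0 3 8), (3, .rt 8 9 1 8 9 1), (2, .am 1 7 8 9 1 1), (3, .c4 6), (2, .lf 4 6 7 7 4 5), (2, .rt 9 0 2 9 0 2), (2, .tb 5 1 2), (2, .pl 0 1 6 7), (4, .rt 9 0 2 9 0 3), (1, .am 6 7 8 9 1 1), (4, .pl 0 3 7 9), (2, .ce 4 6 7 4 7 8)])) (.leaf [(1,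 .am 0 7 8 9 1 1), (6, .rt 0 1 3 0 2 3), (6, .lf 4 6 7 7 4 6), (1, .am 0 6 7 9 1 1), (1, .cf 0 1 3 0 3 8), (6, .rt 8 9 1 8 9 2), (1, .am 0 3 8 9 1 1), (2, .pl 2 3 5 6), (1, .lf 6 8 9 9 6 8), (2, .pl 2 3 7 8), (1, .am 0 2 3 8 1 1), (5, .c4 5), (5, .rt 2 3 5 2 3 5), (3, .pl 0 2 6 5), (2, .am 0 6 3 9 1 1), (6, .ce 4 6 7 4 7 9), (5, .rt 7 8 0 7 8 0), (2, .am 0 2 7 8 1 1), (5, .lf 6 8 9 9 6 7)]))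

def C3443655654_1 : Tr :=
  .ch 1 (.leaf [(1, .pl 0 1 5 4), (1, .rt 1 2 4 1 2 4), (1, .pl 1 7 8 5), (1, .lf 2 4 5 5 2 4), (1, .pl 1 2 7 5), (1, .pl 0 5 1 8)]) (.ch 5 (.leaf [(4, .lf 4 6 7 7 4 6), (14, .rt 5 6 8 5 6 8), (2, .pl 0 9 5 4), (1, .am 6 7 8 9 1 1), (1, .am 0 5 8 9 1 1), (4, .rt 9 0 2 9 0 2), (1, .am 5 6 7 8 1 1), (4, .lf 2 4 5 5 2 4), (2, .am 4 5 7 9 1 1), (4, .rt 7 8 0 7 8 0), (14, .lf 6 8 9 9 6 8), (4, .cf 9 0 2 9 2 8), (8, .am 5 6 8 9 1 1), (1, .am 0 5 6 9 1 1), (4, .ce 2 4 5 2 5 6), (2, .am 0 6 7 8 1 1)]) (.ch 6 (.leaf [(2, .rt 7 8 0 7 8 0), (2, .cf 0 1 3 0 3 7), (4, .lf 7 9 0 0 7 9), (6, .rt 6 7 9 6 7 9), (2, .rt 8 9 1 8 9 1), (1, .am 0 1 7 9 1 1), (2, .am 1 7 8 9 1 1), (4, .rt 0 1 3 0 1 3), (2,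 .rt 8 9 1 8 0 1), (3, .pl 0 1 6 7), (2, .cf 0 1 3 0 3 8), (3, .am 0 6 7 9 1 1)]) (.leaf [(2, .lf 6 8 9 9 6 7), (6, .lf 8 0 1 1 8 0), (3, .pl 0 1 6 7), (2, .lf 6 8 9 9 6 8), (3, .am 0 1 7 8 1 1), (2, .lf 7 9 0 0 7 9), (2, .ce 4 6 7 4 7 0), (2, .am 0 6 8 9 1 1), (4, .lf 4 6 7 7 4 6), (1, .am 0 6 7 8 1 1), (4, .rt 7 8 0 7 8 0), (2, .ce 4 6 7 4 7 9)]) (.leaf [(1, .tb 6 1 2), (4, .cf 0 1 3 0 3 8), (4, .pl 0 8 7 4), (4, .rt 0 1 3 0 1 3), (4, .lf 7 9 0 0 7 9), (1, .ta 6 1 2), (2, .am 0 6 8 9 1 1), (4, .lf 4 6 7 7 4 6), (2, .am 6 7 8 9 1 1), (2, .pl 0 1 6 7), (2, .am 1 7 8 9 1 1), (4, .lf 5 7 8 8 4 7), (8, .ce 4 6 7 4 7 9), (2, .am 0 1 8 9 1 1)]) (.leaf [(2, .c4 6), (3, .rt 7 8 0 7 8 0), (1, .am 0 1 7 8 1 1), (2, .lf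 7 9 0 0 7 9), (2, .lf 6 8 9 9 6 7), (1, .pl 0 3 7 9), (1, .rt 9 0 2 9 0 3), (2, .rt 8 9 1 8 0 1), (1, .cf 0 1 3 0 3 8), (1, .am 0 6 7 9 1 1), (1, .pl 0 1 6 7)])) (.ch 6 (.leaf [(3, .ce 4 6 7 4 7 9), (9, .cf 9 0 2 9 2 7), (15, .rt 8 9 1 8 9 1), (4, .am 6 7 8 9 1 1), (2, .am 1 7 8 9 1 1), (15, .rt 0 1 3 0 1 3), (8, .am 0 6 8 9 1 1), (8, .pl 0 1 6 7), (3, .tb 5 1 2), (9, .rt 9 0 2 9 0 2), (1, .am 0 1 8 9 1 1), (3, .lf 4 6 7 7 4 5), (6, .am 0 1 7 8 1 1), (9, .cf 0 1 3 0 3 8), (6, .cf 0 1 3 0 3 7), (12, .rt 6 7 9 6 7 9)]) (.leaf [(2, .am 0 2 8 9 1 1), (4, .lf 4 6 7 7 4 6), (4, .tb 5 1 2), (8, .ce 4 6 7 4 7 8), (4, .cf 9 0 2 8 2 7), (4, .lf 6 8 9 9 6 8), (3, .am 0 1 7 8 1 1), (1, .am 0 6 7 8 1 1), (4, .lf 4 6 7 7 4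 5), (6, .lf 8 0 1 1 8 0), (4, .rt 9 0 2 9 0 2), (3, .pl 0 1 6 7), (2, .am 0 6 8 9 1 1), (2, .lf 8 0 1 2 8 0)]) (.leaf [(129, .am 0 3 8 9 1 1), (50, .ce 4 6 7 4 7 8), (86, .lf 4 6 7 7 4 5), (51, .tb 6 1 2), (86, .cf 9 0 2 8 3 7), (78, .am 6 7 8 9 1 1), (72, .am 0 1 7 8 1 1), (42, .am 0 1 8 9 1 1), (15, .am 0 7 8 9 1 1), (150, .lf 4 6 7 7 4 6), (43, .pl 0 3 7 8), (258, .rt 9 0 2 9 0 3), (72, .am 0 6 8 9 1 1), (186, .rt 0 1 3 0 1 3), (33, .ta 6 1 2), (86, .tb 5 1 2), (186, .ce 4 6 7 4 7 9), (72, .pl 0 1 6 7), (358, .cf 0 1 3 0 3 8)]) (.leaf [(2, .pl 0 1 6 7), (3, .rt 8 9 1 8 9 1), (4, .cf 0 1 3 0 3 8), (4, .pl 0 3 7 9), (1, .am 0 1 8 9 1 1), (3, .lf 6 8 9 9 6 8), (2, .ce 4 6 7 4 7 8), (3, .c4 6), (2, .am 0 6 8 9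 1 1), (2, .am 1 7 8 9 1 1), (2, .rt 9 0 2 9 0 2), (4, .rt 9 0 2 9 0 3), (2, .cf 9 0 2 9 2 7), (2, .tb 5 1 2), (2, .lf 4 6 7 7 4 5), (1, .am 6 7 8 9 1 1)])) (.leaf [(8, .lf 2 4 5 5 2 4), (5, .ce 6 8 9 4 9 0), (20, .lf 4 6 7 7 4 6), (20, .lf 6 8 9 9 6 8), (7, .ce 4 6 7 4 7 0), (6, .am 4 5 7 8 1 1), (1, .am 0 7 8 9 1 1), (2, .am 4 5 7 9 1 1), (8, .cf 0 1 3 0 3 8), (2, .am 0 6 7 9 1 1), (4, .am 0 6 8 9 1 1), (12, .c4 5), (8, .pl 0 2 6 5), (3, .am 4 7 8 9 1 1), (12, .lf 5 7 8 8 5 7), (2, .am 0 6 7 8 1 1), (8, .rt 0 1 3 0 2 3), (4, .am 5 6 7 9 1 1)])) (.ch 5 (.leaf [(14, .rt 5 6 8 5 6 8), (1, .am 4 5 6 9 1 1), (4, .rt 9 0 2 9 0 3), (8, .am 5 6 8 9 1 1), (1, .am 6 7 8 9 1 1), (14, .lf 6 8 9 9 6 8), (1, .am 4 5 8 9 1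 1), (4, .lf 2 4 5 5 2 4), (4, .ce 2 4 5 2 5 6), (4, .rt 7 8 0 7 8 0), (4, .cf 9 0 2 9 3 8), (2, .pl 0 9 5 4), (2, .am 0 5 7 9 1 1), (2, .am 4 6 7 8 1 1), (1, .am 5 6 7 8 1 1), (4, .lf 4 6 7 7 4 6)]) (.ch 6 (.leaf [(4, .rt 0 1 3 0 1 3), (6, .rt 6 7 9 6 7 9), (3, .pl 0 1 6 7), (3, .am 0 6 7 9 1 1), (2, .cf 0 1 3 0 3 8), (4, .lf 7 9 0 0 7 9), (2, .rt 7 8 0 7 8 0), (2, .rt 8 9 1 8 0 1), (1, .am 0 1 7 9 1 1), (2, .cf 0 1 3 0 3 7), (2, .am 1 7 8 9 1 1), (2, .rt 8 9 1 8 9 1)]) (.leaf [(4, .rt 7 8 0 7 8 0), (4, .lf 4 6 7 7 4 6), (2, .am 0 6 8 9 1 1), (3, .am 0 1 7 8 1 1), (2, .ce 4 6 7 4 7 9), (1, .am 0 6 7 8 1 1), (2, .lf 7 9 0 0 7 9), (6, .lf 8 0 1 1 8 0), (2, .lf 6 8 9 9 6 8), (2, .ce 4 6 7 4 7 0), (3, .pl 0 1 6 7),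 (2, .lf 6 8 9 9 6 7)]) (.leaf [(4, .lf 5 7 8 8 4 7), (2, .am 0 1 8 9 1 1), (1, .ta 6 1 2), (4, .pl 0 8 7 4), (2, .am 1 7 8 9 1 1), (4, .rt 0 1 3 0 1 3), (4, .cf 0 1 3 0 3 8), (8, .ce 4 6 7 4 7 9), (2, .am 6 7 8 9 1 1), (4, .lf 7 9 0 0 7 9), (1, .tb 6 1 2), (4, .lf 4 6 7 7 4 6), (2, .am 0 6 8 9 1 1), (2, .pl 0 1 6 7)]) (.leaf [(1, .ce 4 6 7 4 7 9), (1, .pl 0 1 6 7), (2, .rt 7 8 0 7 8 0), (2, .lf 6 8 9 9 6 7), (1, .am 0 1 7 8 1 1), (1, .am 0 6 7 9 1 1), (2, .rt 8 9 1 8 0 1), (2, .c4 6), (1, .pl 0 8 7 4), (1, .lf 5 7 8 8 4 7), (3, .lf 7 9 0 0 7 9)])) (.ch 6 (.leaf [(9, .cf 9 0 2 9 2 7), (6, .am 0 1 7 8 1 1), (15, .rt 0 1 3 0 1 3), (12, .rt 6 7 9 6 7 9), (4, .am 6 7 8 9 1 1), (3, .tb 5 1 2), (8, .am 0 6 8 9 1 1),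 (1, .am 0 1 8 9 1 1), (3, .lf 4 6 7 7 4 5), (15, .rt 8 9 1 8 9 1), (6, .cf 0 1 3 0 3 7), (9, .rt 9 0 2 9 0 2), (9, .cf 0 1 3 0 3 8), (8, .pl 0 1 6 7), (2, .am 1 7 8 9 1 1), (3, .ce 4 6 7 4 7 9)]) (.leaf [(1, .am 0 6 7 8 1 1), (4, .tb 5 1 2), (4, .lf 6 8 9 9 6 8), (4, .lf 4 6 7 7 4 6), (4, .lf 4 6 7 7 4 5), (2, .am 0 6 8 9 1 1), (6, .lf 8 0 1 1 8 0), (8, .ce 4 6 7 4 7 8), (4, .cf 9 0 2 8 2 7), (2, .lf 8 0 1 2 8 0), (3, .am 0 1 7 8 1 1), (2, .am 0 2 8 9 1 1), (4, .rt 9 0 2 9 0 2), (3, .pl 0 1 6 7)]) (.leaf [(72, .am 0 6 8 9 1 1), (50, .ce 4 6 7 4 7 8), (186, .ce 4 6 7 4 7 9), (15, .am 0 7 8 9 1 1), (129, .am 0 3 8 9 1 1), (150, .lf 4 6 7 7 4 6), (43, .pl 0 3 7 8), (86, .lf 4 6 7 7 4 5), (186, .rt 0 1 3 0 1 3), (78,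 .am 6 7 8 9 1 1), (51, .tb 6 1 2), (42, .am 0 1 8 9 1 1), (258, .rt 9 0 2 9 0 3), (86, .cf 9 0 2 8 3 7), (86, .tb 5 1 2), (72, .pl 0 1 6 7), (72, .am 0 1 7 8 1 1), (358, .cf 0 1 3 0 3 8), (33, .ta 6 1 2)]) (.leaf [(2, .pl 0 1 6 7), (1, .am 0 1 8 9 1 1), (1, .am 6 7 8 9 1 1), (2, .am 1 7 8 9 1 1), (4, .cf 0 1 3 0 3 8), (2, .tb 5 1 2), (2, .cf 9 0 2 9 2 7), (3, .rt 8 9 1 8 9 1), (2, .lf 4 6 7 7 4 5), (3, .c4 6), (2, .rt 9 0 2 9 0 2), (4, .rt 9 0 2 9 0 3), (2, .ce 4 6 7 4 7 8), (2, .am 0 6 8 9 1 1), (4, .pl 0 3 7 9), (3, .lf 6 8 9 9 6 8)])) (.leaf [(2, .am 0 6 7 8 1 1), (12, .c4 5), (8, .pl 0 2 6 5), (5, .ce 6 8 9 4 9 0), (8, .lf 2 4 5 5 2 4), (12, .lf 5 7 8 8 5 7), (1, .am 0 7 8 9 1 1), (8, .cf 0 1 3 0 3 8), (2,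 .am 0 6 7 9 1 1), (4, .am 5 6 7 9 1 1), (3, .am 4 7 8 9 1 1), (8, .rt 0 1 3 0 2 3), (20, .lf 6 8 9 9 6 8), (7, .ce 4 6 7 4 7 0), (20, .lf 4 6 7 7 4 6), (2, .am 4 5 7 9 1 1), (4, .am 0 6 8 9 1 1), (6, .am 4 5 7 8 1 1)])) (.ch 5 (.leaf [(1, .am 4 5 8 9 1 1), (1, .am 0 5 6 9 1 1), (1, .am 0 5 8 9 1 1), (2, .am 4 6 7 8 1 1), (2, .am 0 6 7 8 1 1), (4, .ce 2 4 5 2 5 6), (4, .lf 4 6 7 7 4 6), (4, .rt 9 0 2 9 0 2), (2, .pl 0 9 5 4), (4, .rt 7 8 0 7 8 0), (4, .lf 2 4 5 5 2 4), (14, .lf 6 8 9 9 6 8), (8, .am 5 6 8 9 1 1), (1, .am 4 5 6 9 1 1), (14, .rt 5 6 8 5 6 8), (4, .cf 9 0 2 9 2 8)]) (.ch 6 (.leaf [(2, .rt 8 9 1 8 0 1), (2, .cf 0 1 3 0 3 8), (2, .am 1 7 8 9 1 1), (4, .lf 7 9 0 0 7 9), (2, .cf 0 1 3 0 3 7), (2, .rt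 7 8 0 7 8 0), (6, .rt 6 7 9 6 7 9), (3, .am 0 6 7 9 1 1), (2, .rt 8 9 1 8 9 1), (1, .am 0 1 7 9 1 1), (3, .pl 0 1 6 7), (4, .rt 0 1 3 0 1 3)]) (.leaf [(3, .pl 0 1 6 7), (4, .lf 4 6 7 7 4 6), (1, .am 0 6 7 8 1 1), (3, .am 0 1 7 8 1 1), (2, .lf 7 9 0 0 7 9), (2, .ce 4 6 7 4 7 0), (2, .lf 6 8 9 9 6 7), (2, .lf 6 8 9 9 6 8), (4, .rt 7 8 0 7 8 0), (2, .am 0 6 8 9 1 1), (2, .ce 4 6 7 4 7 9), (6, .lf 8 0 1 1 8 0)]) (.leaf [(4, .lf 5 7 8 8 4 7), (2, .pl 0 1 6 7), (4, .lf 7 9 0 0 7 9), (4, .rt 0 1 3 0 1 3), (2, .am 0 1 8 9 1 1), (2, .am 0 6 8 9 1 1), (1, .tb 6 1 2), (4, .cf 0 1 3 0 3 8), (2, .am 6 7 8 9 1 1), (4, .lf 4 6 7 7 4 6), (2, .am 1 7 8 9 1 1), (1, .ta 6 1 2), (8, .ce 4 6 7 4 7 9), (4, .pl 0 8 7 4)]) (.leaf [(2,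 .rt 8 9 1 8 0 1), (1, .pl 0 1 6 7), (1, .ce 4 6 7 4 7 9), (2, .lf 6 8 9 9 6 7), (1, .am 0 1 7 8 1 1), (3, .lf 7 9 0 0 7 9), (1, .pl 0 8 7 4), (2, .c4 6), (2, .rt 7 8 0 7 8 0), (1, .am 0 6 7 9 1 1), (1, .lf 5 7 8 8 4 7)])) (.ch 6 (.leaf [(3, .lf 4 6 7 7 4 5), (9, .cf 0 1 3 0 3 8), (3, .ce 4 6 7 4 7 9), (9, .rt 9 0 2 9 0 2), (15, .rt 8 9 1 8 9 1), (6, .am 0 1 7 8 1 1), (3, .tb 5 1 2), (6, .cf 0 1 3 0 3 7), (8, .pl 0 1 6 7), (15, .rt 0 1 3 0 1 3), (8, .am 0 6 8 9 1 1), (2, .am 1 7 8 9 1 1), (12, .rt 6 7 9 6 7 9), (4, .am 6 7 8 9 1 1), (9, .cf 9 0 2 9 2 7), (1, .am 0 1 8 9 1 1)]) (.leaf [(2, .lf 8 0 1 2 8 0), (3, .am 0 1 7 8 1 1), (4, .tb 5 1 2), (2, .am 0 6 8 9 1 1), (4, .rt 9 0 2 9 0 2), (4, .cf 9 0 2 8 2 7), (4,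 .lf 4 6 7 7 4 5), (4, .lf 4 6 7 7 4 6), (3, .pl 0 1 6 7), (8, .ce 4 6 7 4 7 8), (6, .lf 8 0 1 1 8 0), (2, .am 0 2 8 9 1 1), (1, .am 0 6 7 8 1 1), (4, .lf 6 8 9 9 6 8)]) (.leaf [(78, .am 6 7 8 9 1 1), (358, .cf 0 1 3 0 3 8), (33, .ta 6 1 2), (186, .ce 4 6 7 4 7 9), (51, .tb 6 1 2), (86, .cf 9 0 2 8 3 7), (86, .lf 4 6 7 7 4 5), (50, .ce 4 6 7 4 7 8), (72, .am 0 1 7 8 1 1), (15, .am 0 7 8 9 1 1), (150, .lf 4 6 7 7 4 6), (129, .am 0 3 8 9 1 1), (42, .am 0 1 8 9 1 1), (72, .pl 0 1 6 7), (43, .pl 0 3 7 8), (258, .rt 9 0 2 9 0 3), (72, .am 0 6 8 9 1 1), (86, .tb 5 1 2), (186, .rt 0 1 3 0 1 3)]) (.leaf [(2, .ce 4 6 7 4 7 8), (2, .rt 9 0 2 9 0 2), (3, .c4 6), (2, .pl 0 1 6 7), (3, .lf 6 8 9 9 6 8), (4, .rt 9 0 2 9 0 3),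 (2, .tb 5 1 2), (2, .am 0 6 8 9 1 1), (3, .rt 8 9 1 8 9 1), (1, .am 6 7 8 9 1 1), (2, .cf 9 0 2 9 2 7), (2, .am 1 7 8 9 1 1), (4, .cf 0 1 3 0 3 8), (4, .pl 0 3 7 9), (2, .lf 4 6 7 7 4 5), (1, .am 0 1 8 9 1 1)])) (.leaf [(6, .lf 5 7 8 8 5 7), (1, .am 0 6 7 9 1 1), (6, .c4 5), (3, .am 4 5 7 8 1 1), (2, .am 0 7 8 9 1 1), (4, .pl 0 2 6 5), (3, .ce 4 6 7 4 8 0), (10, .lf 4 6 7 7 4 6), (4, .cf 0 1 3 0 3 8), (4, .lf 2 4 5 5 2 4), (10, .lf 6 8 9 9 6 8), (1, .am 0 6 7 8 1 1), (4, .rt 0 1 3 0 2 3), (2, .am 5 6 7 9 1 1), (1, .am 4 5 7 9 1 1), (2, .am 0 6 8 9 1 1), (2, .ce 4 6 7 4 7 0), (1, .ce 6 8 9 4 9 0)]))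

def C3443655654_2 : Tr :=
  .pr 6 2 (.leaf [(2, .am 0 1 8 9 1 1), (7, .pl 0 1 6 7), (12, .rt 0 1 3 0 1 3), (9, .rt 7 8 0 7 8 0), (9, .cf 0 1 3 0 3 8), (3, .am 0 6 7 9 1 1), (2, .am 6 7 8 9 1 1), (12, .rt 8 9 1 8 9 1), (12, .rt 6 7 9 6 7 9), (3, .cf 0 1 3 0 3 7), (4, .am 1 7 8 9 1 1), (3, .am 0 1 7 8 1 1), (9, .rt 9 0 2 9 0 3), (9, .cf 9 0 2 9 3 7), (4, .am 0 6 8 9 1 1)]) (.pr 4 2 (.leaf [(1, .rt 7 8 0 7 8 0), (2, .rt 9 0 2 9 0 3), (1, .am 0 3 8 9 1 1), (2, .cf 0 1 3 0 3 8), (1, .pl 0 3 7 8), (2, .lf 6 8 9 9 5 8), (2, .rt 4 5 7 4 5 8), (1, .pl 0 9 5 4), (1, .rt 7 8 0 5 8 0), (1, .am 4 5 8 9 1 1)]) (.pr 5 2 (.leaf [(3, .am 5 6 8 9 1 1), (16, .cf 0 1 3 0 3 8), (2, .am 0 6 7 8 1 1), (4, .lf 4 6 7 7 4 6), (4, .ce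 6 8 9 4 9 0), (6, .rt 5 6 8 4 6 8), (1, .am 0 6 8 9 1 1), (16, .rt 9 0 2 9 0 3), (16, .lf 6 8 9 9 6 8), (8, .pl 0 3 7 8), (4, .am 4 6 8 9 1 1), (2, .am 4 6 7 8 1 1), (8, .am 0 3 8 9 1 1), (12, .rt 7 8 0 7 8 0), (3, .pl 0 9 6 5), (6, .rt 5 6 8 5 6 8)]) (.pr 3 2 (.pr 1 2 (.pr 2 2 (.ch 5 (.leaf [(1, .pl 2 3 7 8), (3, .pl 3 6 8 7), (8, .rt 9 0 2 9 0 3), (6, .am 5 6 8 9 1 1), (2, .am 0 2 8 9 1 1), (8, .rt 7 8 0 7 8 0), (1, .am 0 2 7 8 1 1), (4, .rt 0 1 3 0 2 3), (12, .rt 2 3 5 2 3 5), (4, .ce 6 8 9 5 9 0), (12, .lf 6 8 9 9 6 8), (2, .pl 0 9 6 5), (8, .rt 3 4 6 3 5 6), (4, .am 3 5 9 8 1 1), (4, .rt 9 0 2 9 0 2), (3, .am 0 6 7 8 1 1), (20, .rt 5 6 8 5 6 8), (1, .pl 0 2 6 5), (11, .pl 2 3 5 6), (4, .pl 0 9 3 5)]) (.ch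 6 (.leaf [(1, .am 0 1 7 9 1 1), (2, .rt 8 9 1 8 0 1), (2, .am 1 7 8 9 1 1), (4, .rt 0 1 3 0 1 3), (6, .rt 6 7 9 6 7 9), (3, .pl 0 1 6 7), (2, .rt 7 8 0 7 8 0), (3, .am 0 6 7 9 1 1), (4, .lf 7 9 0 0 7 9), (2, .cf 0 1 3 0 3 8), (2, .cf 0 1 3 0 3 7), (2, .rt 8 9 1 8 9 1)]) (.leaf [(3, .pl 0 1 6 7), (6, .lf 8 0 1 1 8 0), (2, .lf 6 8 9 9 6 7), (2, .lf 6 8 9 9 6 8), (4, .rt 7 8 0 7 8 0), (2, .lf 7 9 0 0 7 9), (3, .am 0 1 7 8 1 1), (2, .ce 4 6 7 4 7 9), (2, .am 0 6 8 9 1 1), (1, .am 0 6 7 8 1 1), (2, .ce 4 6 7 4 7 0), (4, .lf 4 6 7 7 4 6)]) (.leaf [(1, .ta 6 1 2), (4, .cf 0 1 3 0 3 8), (2, .am 0 6 8 9 1 1), (2, .am 1 7 8 9 1 1), (2, .pl 0 1 6 7), (8, .ce 4 6 7 4 7 9), (4, .lf 5 7 8 8 4 7), (2, .am 0 1 8 9 1 1), (4, .lf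 4 6 7 7 4 6), (2, .am 6 7 8 9 1 1), (4, .lf 7 9 0 0 7 9), (4, .rt 0 1 3 0 1 3), (1, .tb 6 1 2), (4, .pl 0 8 7 4)]) (.leaf [(2, .c4 6), (1, .pl 0 1 6 7), (3, .lf 7 9 0 0 7 9), (2, .lf 6 8 9 9 6 7), (2, .rt 8 9 1 8 0 1), (1, .ce 4 6 7 4 7 9), (1, .pl 0 8 7 4), (1, .lf 5 7 8 8 4 7), (2, .rt 7 8 0 7 8 0), (1, .am 0 1 7 8 1 1), (1, .am 0 6 7 9 1 1)])) (.ch 6 (.leaf [(3, .tb 5 1 2), (6, .cf 0 1 3 0 3 7), (3, .lf 4 6 7 7 4 5), (6, .am 0 1 7 8 1 1), (1, .am 0 1 8 9 1 1), (9, .cf 9 0 2 9 2 7), (8, .am 0 6 8 9 1 1), (9, .rt 9 0 2 9 0 2), (9, .cf 0 1 3 0 3 8), (15, .rt 8 9 1 8 9 1), (8, .pl 0 1 6 7), (15, .rt 0 1 3 0 1 3), (2, .am 1 7 8 9 1 1), (12, .rt 6 7 9 6 7 9), (3, .ce 4 6 7 4 7 9), (4, .am 6 7 8 9 1 1)]) (.leaf [(3,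 .pl 0 1 6 7), (2, .lf 8 0 1 2 8 0), (2, .am 0 2 8 9 1 1), (8, .ce 4 6 7 4 7 8), (4, .lf 6 8 9 9 6 8), (1, .am 0 6 7 8 1 1), (4, .lf 4 6 7 7 4 5), (2, .am 0 6 8 9 1 1), (4, .tb 5 1 2), (4, .cf 9 0 2 8 2 7), (4, .lf 4 6 7 7 4 6), (3, .am 0 1 7 8 1 1), (4, .rt 9 0 2 9 0 2), (6, .lf 8 0 1 1 8 0)]) (.leaf [(186, .ce 4 6 7 4 7 9), (50, .ce 4 6 7 4 7 8), (78, .am 6 7 8 9 1 1), (86, .cf 9 0 2 8 3 7), (51, .tb 6 1 2), (258, .rt 9 0 2 9 0 3), (86, .tb 5 1 2), (86, .lf 4 6 7 7 4 5), (72, .pl 0 1 6 7), (42, .am 0 1 8 9 1 1), (72, .am 0 1 7 8 1 1), (129, .am 0 3 8 9 1 1), (186, .rt 0 1 3 0 1 3), (43, .pl 0 3 7 8), (33, .ta 6 1 2), (72, .am 0 6 8 9 1 1), (150, .lf 4 6 7 7 4 6), (15, .am 0 7 8 9 1 1), (358, .cf 0 1 3 0 3 8)])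 (.leaf [(2, .ce 4 6 7 4 7 8), (1, .am 6 7 8 9 1 1), (3, .lf 6 8 9 9 6 8), (4, .cf 0 1 3 0 3 8), (2, .am 0 6 8 9 1 1), (1, .am 0 1 8 9 1 1), (3, .c4 6), (2, .lf 4 6 7 7 4 5), (4, .rt 9 0 2 9 0 3), (2, .tb 5 1 2), (2, .rt 9 0 2 9 0 2), (3, .rt 8 9 1 8 9 1), (2, .pl 0 1 6 7), (2, .cf 9 0 2 9 2 7), (4, .pl 0 3 7 9), (2, .am 1 7 8 9 1 1)])) (.leaf [(6, .rt 0 1 3 0 2 3), (1, .lf 6 8 9 9 6 8), (2, .am 0 2 3 9 1 1), (1, .pl 0 2 6 5), (5, .rt 2 3 5 2 3 5), (6, .ce 4 6 7 4 7 9), (6, .lf 4 6 7 7 4 6), (2, .pl 2 3 7 8), (1, .am 0 6 7 9 1 1), (5, .lf 6 8 9 9 6 7), (1, .am 0 3 8 9 1 1), (1, .am 0 2 3 8 1 1), (1, .am 0 7 8 9 1 1), (1, .cf 0 1 3 0 3 8), (4, .pl 2 9 5 6), (5, .rt 7 8 0 7 8 0), (2, .am 0 2 7 8 1 1), (5, .c4 5),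 (6, .rt 8 9 1 8 9 2)])) (.leaf [(1, .pl 1 3 9 5), (1, .rt 1 2 4 1 2 4), (1, .pl 0 1 5 4), (1, .pl 1 2 3 5), (1, .lf 2 4 5 5 2 4), (1, .pl 0 5 1 9)])) (.pr 2 2 C3443655654_0 C3443655654_1)) (.pr 2 2 (.leaf [(1, .pl 0 6 2 7), (1, .pl 2 3 7 6), (1, .rt 2 3 5 2 3 5), (1, .lf 3 5 6 6 3 5), (1, .pl 0 2 6 5)]) (.pr 1 2 (.leaf [(1, .lf 2 4 5 5 2 4), (1, .pl 0 5 1 7), (1, .pl 0 1 5 4), (1, .rt 1 2 4 1 2 4), (1, .pl 1 3 7 5), (1, .pl 1 2 3 5)]) (.ch 5 (.leaf [(14, .rt 5 6 8 5 6 8), (8, .am 5 6 8 9 1 1), (4, .rt 9 0 2 9 0 3), (1, .am 6 7 8 9 1 1), (2, .am 0 6 7 8 1 1), (2, .am 4 5 7 9 1 1), (1, .am 0 5 8 9 1 1), (1, .am 5 6 7 8 1 1), (4, .lf 2 4 5 5 2 4), (1, .am 0 5 6 9 1 1), (4, .ce 2 4 5 2 5 6), (4, .cf 9 0 2 9 3 8),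 (14, .lf 6 8 9 9 6 8), (4, .rt 7 8 0 7 8 0), (4, .lf 4 6 7 7 4 6), (2, .pl 0 9 5 4)]) (.ch 6 (.leaf [(6, .rt 6 7 9 6 7 9), (2, .rt 7 8 0 7 8 0), (2, .cf 0 1 3 0 3 7), (2, .am 1 7 8 9 1 1), (2, .rt 8 9 1 8 0 1), (4, .lf 7 9 0 0 7 9), (2, .rt 8 9 1 8 9 1), (3, .pl 0 1 6 7), (1, .am 0 1 7 9 1 1), (2, .cf 0 1 3 0 3 8), (3, .am 0 6 7 9 1 1), (4, .rt 0 1 3 0 1 3)]) (.leaf [(2, .am 0 6 8 9 1 1), (1, .am 0 6 7 8 1 1), (2, .lf 6 8 9 9 6 7), (2, .lf 7 9 0 0 7 9), (4, .lf 4 6 7 7 4 6), (6, .lf 8 0 1 1 8 0), (2, .ce 4 6 7 4 7 9), (3, .am 0 1 7 8 1 1), (3, .pl 0 1 6 7), (2, .ce 4 6 7 4 7 0), (4, .rt 7 8 0 7 8 0), (2, .lf 6 8 9 9 6 8)]) (.leaf [(4, .lf 7 9 0 0 7 9), (4, .lf 5 7 8 8 4 7), (8, .ce 4 6 7 4 7 9), (4, .cf 0 1 3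 0 3 8), (1, .ta 6 1 2), (4, .lf 4 6 7 7 4 6), (2, .am 0 1 8 9 1 1), (2, .am 1 7 8 9 1 1), (4, .pl 0 8 7 4), (2, .am 0 6 8 9 1 1), (4, .rt 0 1 3 0 1 3), (1, .tb 6 1 2), (2, .am 6 7 8 9 1 1), (2, .pl 0 1 6 7)]) (.leaf [(1, .am 0 6 7 9 1 1), (1, .rt 9 0 2 9 0 3), (2, .lf 7 9 0 0 7 9), (3, .rt 7 8 0 7 8 0), (1, .am 0 1 7 8 1 1), (2, .rt 8 9 1 8 0 1), (2, .lf 6 8 9 9 6 7), (1, .pl 0 1 6 7), (2, .c4 6), (1, .cf 0 1 3 0 3 8), (1, .pl 0 3 7 9)])) (.ch 6 (.leaf [(6, .cf 0 1 3 0 3 7), (3, .lf 4 6 7 7 4 5), (8, .pl 0 1 6 7), (12, .rt 6 7 9 6 7 9), (9, .rt 9 0 2 9 0 2), (9, .cf 9 0 2 9 2 7), (8, .am 0 6 8 9 1 1), (3, .tb 5 1 2), (2, .am 1 7 8 9 1 1), (9, .cf 0 1 3 0 3 8), (4, .am 6 7 8 9 1 1), (15, .rt 8 9 1 8 9 1), (6, .am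 0 1 7 8 1 1), (1, .am 0 1 8 9 1 1), (15, .rt 0 1 3 0 1 3), (3, .ce 4 6 7 4 7 9)]) (.leaf [(2, .am 0 6 8 9 1 1), (1, .am 0 6 7 8 1 1), (4, .cf 9 0 2 8 2 7), (3, .pl 0 1 6 7), (6, .lf 8 0 1 1 8 0), (2, .am 0 2 8 9 1 1), (4, .lf 4 6 7 7 4 6), (4, .tb 5 1 2), (4, .lf 6 8 9 9 6 8), (8, .ce 4 6 7 4 7 8), (4, .lf 4 6 7 7 4 5), (4, .rt 9 0 2 9 0 2), (3, .am 0 1 7 8 1 1), (2, .lf 8 0 1 2 8 0)]) (.leaf [(33, .ta 6 1 2), (72, .am 0 1 7 8 1 1), (129, .am 0 3 8 9 1 1), (51, .tb 6 1 2), (72, .am 0 6 8 9 1 1), (72, .pl 0 1 6 7), (358, .cf 0 1 3 0 3 8), (15, .am 0 7 8 9 1 1), (50, .ce 4 6 7 4 7 8), (86, .lf 4 6 7 7 4 5), (258, .rt 9 0 2 9 0 3), (186, .ce 4 6 7 4 7 9), (86, .tb 5 1 2), (43, .pl 0 3 7 8), (86, .cf 9 0 2 8 3 7),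 (78, .am 6 7 8 9 1 1), (42, .am 0 1 8 9 1 1), (186, .rt 0 1 3 0 1 3), (150, .lf 4 6 7 7 4 6)]) (.leaf [(2, .cf 9 0 2 9 2 7), (3, .c4 6), (1, .am 6 7 8 9 1 1), (3, .lf 6 8 9 9 6 8), (4, .pl 0 3 7 9), (2, .tb 5 1 2), (2, .rt 9 0 2 9 0 2), (4, .rt 9 0 2 9 0 3), (2, .pl 0 1 6 7), (2, .ce 4 6 7 4 7 8), (3, .rt 8 9 1 8 9 1), (2, .am 0 6 8 9 1 1), (2, .am 1 7 8 9 1 1), (4, .cf 0 1 3 0 3 8), (1, .am 0 1 8 9 1 1), (2, .lf 4 6 7 7 4 5)])) (.leaf [(8, .rt 0 1 3 0 2 3), (5, .ce 6 8 9 4 9 0), (12, .c4 5), (3, .am 4 7 8 9 1 1), (8, .pl 0 2 6 5), (6, .am 4 5 7 8 1 1), (2, .am 0 6 7 9 1 1), (4, .am 5 6 7 9 1 1), (20, .lf 6 8 9 9 6 8), (2, .am 0 6 7 8 1 1), (12, .lf 5 7 8 8 5 7), (4, .am 0 6 8 9 1 1), (20, .lf 4 6 7 7 4 6), (8,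 .cf 0 1 3 0 3 8), (7, .ce 4 6 7 4 7 0), (8, .lf 2 4 5 5 2 4), (1, .am 0 7 8 9 1 1), (2, .am 4 5 7 9 1 1)])))))))

def C3443655654_3 : Tr :=
  .pr 2 2 (.pr 3 2 (.pr 1 2 (.ch 6 (.leaf [(4, .cf 0 1 3 0 3 7), (2, .pl 0 9 7 4), (6, .lf 7 9 0 0 7 9), (4, .lf 5 7 8 8 4 7), (2, .am 1 7 8 9 1 1), (3, .pl 0 1 6 7), (4, .rt 0 1 3 0 1 3), (4, .ce 4 6 7 4 7 9), (6, .rt 6 7 9 6 7 9), (3, .am 0 6 7 9 1 1), (1, .am 0 1 7 9 1 1), (4, .rt 8 9 1 8 9 1), (2, .am 4 7 8 9 1 1)]) (.leaf [(12, .lf 6 8 9 9 6 8), (3, .ce 4 6 7 4 7 0), (7, .pl 0 1 6 7), (3, .am 0 6 7 9 1 1), (4, .am 1 7 8 9 1 1), (2, .am 0 1 8 9 1 1), (9, .ce 4 6 7 4 7 9), (4, .am 0 6 8 9 1 1), (9, .lf 7 9 0 0 7 9), (2, .am 6 7 8 9 1 1), (9, .lf 5 7 8 8 5 7), (12, .lf 4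 6 7 7 4 6), (12, .lf 8 0 1 1 8 0), (3, .am 0 1 7 8 1 1), (9, .ce 5 7 8 5 8 0)]) (.leaf [(4, .pl 0 8 7 4), (4, .lf 7 9 0 0 7 9), (2, .am 1 7 8 9 1 1), (2, .am 0 1 8 9 1 1), (1, .tb 6 1 2), (4, .cf 0 1 3 0 3 8), (4, .lf 4 6 7 7 4 6), (4, .rt 0 1 3 0 1 3), (8, .ce 4 6 7 4 7 9), (1, .ta 6 1 2), (4, .lf 5 7 8 8 4 7), (2, .pl 0 1 6 7), (2, .am 0 6 8 9 1 1), (2, .am 6 7 8 9 1 1)]) (.leaf [(6, .lf 7 9 0 0 7 9), (2, .pl 0 1 6 7), (1, .am 6 7 8 9 1 1), (3, .rt 8 9 1 8 9 1), (3, .c4 6), (3, .lf 6 8 9 9 6 8), (1, .am 0 1 8 9 1 1), (6, .pl 0 8 7 4), (2, .am 1 7 8 9 1 1), (2, .am 0 6 8 9 1 1), (6, .lf 5 7 8 8 4 7), (6, .ce 4 6 7 4 7 9)])) (.ch 1 (.ch 6 (.leaf [(4, .ce 4 6 7 4 7 9), (2, .pl 0 9 7 4), (4, .rt 8 9 1 8 9 1), (2,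 .am 1 7 8 9 1 1), (1, .am 0 1 7 9 1 1), (4, .cf 0 1 3 0 3 7), (2, .am 4 7 8 9 1 1), (6, .lf 7 9 0 0 7 9), (3, .pl 0 1 6 7), (6, .rt 6 7 9 6 7 9), (4, .lf 5 7 8 8 4 7), (3, .am 0 6 7 9 1 1), (4, .rt 0 1 3 0 1 3)]) (.leaf [(2, .am 6 7 8 9 1 1), (9, .lf 5 7 8 8 4 7), (3, .am 0 6 7 9 1 1), (7, .pl 0 1 6 7), (3, .am 0 1 7 8 1 1), (9, .ce 4 6 7 4 7 9), (4, .am 1 7 8 9 1 1), (12, .lf 8 0 1 1 8 0), (9, .lf 7 9 0 0 7 9), (12, .lf 6 8 9 9 6 8), (3, .ce 4 6 7 4 7 0), (2, .am 0 1 8 9 1 1), (9, .ce 5 7 8 4 8 0), (4, .am 0 6 8 9 1 1), (12, .lf 4 6 7 7 4 6)]) (.leaf [(8, .ce 4 6 7 4 7 9), (2, .am 6 7 8 9 1 1), (2, .am 1 7 8 9 1 1), (1, .tb 6 1 2), (4, .lf 5 7 8 8 4 7), (2, .am 0 1 8 9 1 1), (2, .pl 0 1 6 7), (4, .pl 0 8 7 4),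 (4, .rt 0 1 3 0 1 3), (4, .lf 4 6 7 7 4 6), (4, .lf 7 9 0 0 7 9), (4, .cf 0 1 3 0 3 8), (1, .ta 6 1 2), (2, .am 0 6 8 9 1 1)]) (.leaf [(1, .am 0 1 8 9 1 1), (3, .lf 6 8 9 9 6 8), (3, .rt 8 9 1 8 9 1), (2, .am 0 6 8 9 1 1), (2, .pl 0 1 6 7), (6, .pl 0 8 7 4), (1, .am 6 7 8 9 1 1), (2, .am 1 7 8 9 1 1), (6, .lf 7 9 0 0 7 9), (3, .c4 6), (6, .ce 4 6 7 4 7 9), (6, .lf 5 7 8 8 4 7)])) (.leaf [(1, .pl 2 7 8 6), (1, .pl 0 2 6 5), (1, .pl 0 6 2 8), (1, .lf 3 5 6 6 3 5), (1, .pl 2 3 7 6), (1, .rt 2 3 5 2 3 5)]) (.ch 6 (.leaf [(2, .am 4 7 8 9 1 1), (4, .rt 0 1 3 0 1 3), (4, .lf 5 7 8 8 4 7), (3, .am 0 6 7 9 1 1), (3, .pl 0 1 6 7), (4, .ce 4 6 7 4 7 9), (2, .pl 0 9 7 4), (6, .lf 7 9 0 0 7 9), (6, .rt 6 7 9 6 7 9), (2, .am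 1 7 8 9 1 1), (1, .am 0 1 7 9 1 1), (4, .rt 8 9 1 8 9 1), (4, .cf 0 1 3 0 3 7)]) (.leaf [(2, .am 0 1 8 9 1 1), (2, .am 6 7 8 9 1 1), (12, .lf 6 8 9 9 6 8), (12, .lf 4 6 7 7 4 6), (3, .ce 4 6 7 4 7 0), (3, .am 0 6 7 9 1 1), (12, .lf 8 0 1 1 8 0), (4, .am 1 7 8 9 1 1), (9, .lf 7 9 0 0 7 9), (9, .ce 4 6 7 4 7 9), (9, .lf 5 7 8 8 5 7), (9, .ce 5 7 8 5 8 0), (7, .pl 0 1 6 7), (3, .am 0 1 7 8 1 1), (4, .am 0 6 8 9 1 1)]) (.leaf [(1, .tb 6 1 2), (4, .pl 0 8 7 4), (2, .am 0 1 8 9 1 1), (4, .lf 7 9 0 0 7 9), (8, .ce 4 6 7 4 7 9), (2, .am 0 6 8 9 1 1), (2, .am 6 7 8 9 1 1), (4, .rt 0 1 3 0 1 3), (4, .lf 4 6 7 7 4 6), (4, .lf 5 7 8 8 4 7), (2, .am 1 7 8 9 1 1), (4, .cf 0 1 3 0 3 8), (2, .pl 0 1 6 7), (1, .ta 6 1 2)]) (.leaf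 [(3, .lf 6 8 9 9 6 8), (2, .am 0 6 8 9 1 1), (1, .am 6 7 8 9 1 1), (3, .rt 8 9 1 8 9 1), (6, .lf 7 9 0 0 7 9), (6, .pl 0 8 7 4), (3, .c4 6), (6, .ce 4 6 7 4 7 9), (2, .pl 0 1 6 7), (6, .lf 5 7 8 8 4 7), (1, .am 0 1 8 9 1 1), (2, .am 1 7 8 9 1 1)])) (.ch 6 (.leaf [(2, .am 1 7 8 9 1 1), (3, .pl 0 1 6 7), (2, .am 4 7 8 9 1 1), (4, .lf 5 7 8 8 4 7), (4, .cf 0 1 3 0 3 7), (4, .rt 8 9 1 8 9 1), (6, .rt 6 7 9 6 7 9), (6, .lf 7 9 0 0 7 9), (4, .rt 0 1 3 0 1 3), (2, .pl 0 9 7 4), (3, .am 0 6 7 9 1 1), (4, .ce 4 6 7 4 7 9), (1, .am 0 1 7 9 1 1)]) (.leaf [(7, .pl 0 1 6 7), (3, .am 0 1 7 8 1 1), (4, .am 0 6 8 9 1 1), (12, .lf 8 0 1 1 8 0), (3, .am 0 6 7 9 1 1), (2, .am 6 7 8 9 1 1), (9, .lf 7 9 0 0 7 9), (9, .lf 5 7 8 8 5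 7), (12, .lf 4 6 7 7 4 6), (4, .am 1 7 8 9 1 1), (9, .ce 5 7 8 5 8 0), (12, .lf 6 8 9 9 6 8), (3, .ce 4 6 7 4 7 0), (9, .ce 4 6 7 4 7 9), (2, .am 0 1 8 9 1 1)]) (.leaf [(4, .rt 0 1 3 0 1 3), (2, .am 6 7 8 9 1 1), (4, .lf 5 7 8 8 4 7), (4, .lf 7 9 0 0 7 9), (2, .pl 0 1 6 7), (2, .am 0 6 8 9 1 1), (1, .ta 6 1 2), (8, .ce 4 6 7 4 7 9), (2, .am 0 1 8 9 1 1), (4, .lf 4 6 7 7 4 6), (1, .tb 6 1 2), (4, .cf 0 1 3 0 3 8), (4, .pl 0 8 7 4), (2, .am 1 7 8 9 1 1)]) (.leaf [(3, .c4 6), (6, .ce 4 6 7 4 7 9), (2, .am 0 6 8 9 1 1), (3, .lf 6 8 9 9 6 8), (2, .pl 0 1 6 7), (2, .am 1 7 8 9 1 1), (6, .pl 0 8 7 4), (6, .lf 5 7 8 8 4 7), (6, .lf 7 9 0 0 7 9), (1, .am 6 7 8 9 1 1), (1, .am 0 1 8 9 1 1), (3, .rt 8 9 1 8 9 1)])))) (.leaf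 [(1, .pl 0 2 6 4), (1, .lf 3 5 6 6 3 5), (1, .rt 2 3 5 2 3 5), (1, .pl 2 4 5 6), (1, .pl 2 3 7 6), (1, .pl 0 6 2 7)])) (.pr 1 2 (.leaf [(1, .pl 1 2 7 5), (1, .pl 0 1 5 4), (1, .rt 1 2 4 1 2 4), (1, .lf 2 4 5 5 2 4), (1, .pl 0 5 1 7)]) (.pr 3 2 (.ch 1 (.leaf [(1, .pl 1 2 3 5), (1, .lf 2 4 5 5 2 4), (1, .pl 0 1 5 4), (1, .rt 1 2 4 1 2 4), (1, .pl 0 5 1 3)]) (.ch 6 (.leaf [(4, .lf 5 7 8 8 4 7), (2, .am 4 7 8 9 1 1), (6, .rt 6 7 9 6 7 9), (3, .pl 0 1 6 7), (4, .cf 0 1 3 0 3 7), (4, .rt 8 9 1 8 9 1), (6, .lf 7 9 0 0 7 9), (1, .am 0 1 7 9 1 1), (4, .ce 4 6 7 4 7 9), (2, .am 1 7 8 9 1 1), (2, .pl 0 9 7 4), (3, .am 0 6 7 9 1 1), (4, .rt 0 1 3 0 1 3)]) (.leaf [(4, .am 1 7 8 9 1 1), (9, .lf 5 7 8 8 4 7), (3, .am 0 6 7 9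 1 1), (9, .lf 7 9 0 0 7 9), (3, .am 0 1 7 8 1 1), (7, .pl 0 1 6 7), (4, .am 0 6 8 9 1 1), (2, .am 0 1 8 9 1 1), (3, .ce 4 6 7 4 7 0), (2, .am 6 7 8 9 1 1), (12, .lf 8 0 1 1 8 0), (9, .ce 5 7 8 4 8 0), (12, .lf 6 8 9 9 6 8), (12, .lf 4 6 7 7 4 6), (9, .ce 4 6 7 4 7 9)]) (.leaf [(8, .ce 4 6 7 4 7 9), (4, .lf 4 6 7 7 4 6), (2, .am 1 7 8 9 1 1), (4, .rt 0 1 3 0 1 3), (2, .am 0 1 8 9 1 1), (2, .am 6 7 8 9 1 1), (1, .tb 6 1 2), (2, .pl 0 1 6 7), (2, .am 0 6 8 9 1 1), (4, .cf 0 1 3 0 3 8), (4, .pl 0 8 7 4), (4, .lf 5 7 8 8 4 7), (1, .ta 6 1 2), (4, .lf 7 9 0 0 7 9)]) (.leaf [(6, .ce 4 6 7 4 7 9), (3, .lf 6 8 9 9 6 8), (2, .pl 0 1 6 7), (1, .am 6 7 8 9 1 1), (3, .c4 6), (6, .lf 7 9 0 0 7 9), (1, .am 0 1 8 9 1 1), (3,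 .rt 8 9 1 8 9 1), (2, .am 1 7 8 9 1 1), (2, .am 0 6 8 9 1 1), (6, .lf 5 7 8 8 4 7), (6, .pl 0 8 7 4)])) (.ch 6 (.leaf [(2, .am 1 7 8 9 1 1), (6, .lf 7 9 0 0 7 9), (2, .pl 0 9 7 4), (4, .rt 0 1 3 0 1 3), (4, .rt 8 9 1 8 9 1), (3, .am 0 6 7 9 1 1), (4, .ce 4 6 7 4 7 9), (3, .pl 0 1 6 7), (1, .am 0 1 7 9 1 1), (4, .cf 0 1 3 0 3 7), (4, .lf 5 7 8 8 4 7), (6, .rt 6 7 9 6 7 9), (2, .am 4 7 8 9 1 1)]) (.leaf [(4, .am 0 6 8 9 1 1), (3, .ce 4 6 7 4 7 0), (9, .lf 7 9 0 0 7 9), (3, .am 0 6 7 9 1 1), (2, .am 6 7 8 9 1 1), (9, .ce 5 7 8 5 8 0), (12, .lf 6 8 9 9 6 8), (3, .am 0 1 7 8 1 1), (12, .lf 4 6 7 7 4 6), (4, .am 1 7 8 9 1 1), (7, .pl 0 1 6 7), (12, .lf 8 0 1 1 8 0), (9, .lf 5 7 8 8 5 7), (2, .am 0 1 8 9 1 1), (9, .ce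 4 6 7 4 7 9)]) (.leaf [(2, .am 6 7 8 9 1 1), (4, .lf 7 9 0 0 7 9), (4, .lf 5 7 8 8 4 7), (4, .cf 0 1 3 0 3 8), (2, .am 0 1 8 9 1 1), (4, .lf 4 6 7 7 4 6), (2, .am 1 7 8 9 1 1), (4, .rt 0 1 3 0 1 3), (2, .am 0 6 8 9 1 1), (1, .tb 6 1 2), (4, .pl 0 8 7 4), (2, .pl 0 1 6 7), (1, .ta 6 1 2), (8, .ce 4 6 7 4 7 9)]) (.leaf [(2, .am 1 7 8 9 1 1), (1, .am 6 7 8 9 1 1), (6, .lf 7 9 0 0 7 9), (3, .c4 6), (2, .pl 0 1 6 7), (3, .rt 8 9 1 8 9 1), (6, .lf 5 7 8 8 4 7), (6, .pl 0 8 7 4), (6, .ce 4 6 7 4 7 9), (2, .am 0 6 8 9 1 1), (1, .am 0 1 8 9 1 1), (3, .lf 6 8 9 9 6 8)])) (.ch 6 (.leaf [(4, .lf 5 7 8 8 4 7), (2, .am 4 7 8 9 1 1), (4, .cf 0 1 3 0 3 7), (1, .am 0 1 7 9 1 1), (4, .rt 8 9 1 8 9 1), (6, .rt 6 7 9 6 7 9), (4,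 .rt 0 1 3 0 1 3), (3, .pl 0 1 6 7), (2, .am 1 7 8 9 1 1), (6, .lf 7 9 0 0 7 9), (2, .pl 0 9 7 4), (3, .am 0 6 7 9 1 1), (4, .ce 4 6 7 4 7 9)]) (.leaf [(9, .lf 5 7 8 8 5 7), (3, .am 0 6 7 9 1 1), (12, .lf 8 0 1 1 8 0), (3, .ce 4 6 7 4 7 0), (4, .am 0 6 8 9 1 1), (9, .ce 5 7 8 5 8 0), (9, .ce 4 6 7 4 7 9), (4, .am 1 7 8 9 1 1), (2, .am 0 1 8 9 1 1), (12, .lf 6 8 9 9 6 8), (12, .lf 4 6 7 7 4 6), (3, .am 0 1 7 8 1 1), (9, .lf 7 9 0 0 7 9), (2, .am 6 7 8 9 1 1), (7, .pl 0 1 6 7)]) (.leaf [(4, .cf 0 1 3 0 3 8), (4, .lf 7 9 0 0 7 9), (1, .tb 6 1 2), (2, .am 1 7 8 9 1 1), (4, .pl 0 8 7 4), (1, .ta 6 1 2), (2, .am 0 6 8 9 1 1), (4, .lf 5 7 8 8 4 7), (2, .pl 0 1 6 7), (8, .ce 4 6 7 4 7 9), (4, .lf 4 6 7 7 4 6), (4, .rt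 0 1 3 0 1 3), (2, .am 0 1 8 9 1 1), (2, .am 6 7 8 9 1 1)]) (.leaf [(6, .lf 7 9 0 0 7 9), (2, .am 1 7 8 9 1 1), (6, .ce 4 6 7 4 7 9), (1, .am 0 1 8 9 1 1), (6, .pl 0 8 7 4), (2, .am 0 6 8 9 1 1), (3, .rt 8 9 1 8 9 1), (3, .c4 6), (2, .pl 0 1 6 7), (1, .am 6 7 8 9 1 1), (3, .lf 6 8 9 9 6 8), (6, .lf 5 7 8 8 4 7)]))) (.ch 6 (.leaf [(6, .rt 6 7 9 6 7 9), (2, .am 4 7 8 9 1 1), (4, .rt 0 1 3 0 1 3), (4, .cf 0 1 3 0 3 7), (2, .pl 0 9 7 4), (3, .am 0 6 7 9 1 1), (1, .am 0 1 7 9 1 1), (2, .am 1 7 8 9 1 1), (4, .lf 5 7 8 8 4 7), (4, .rt 8 9 1 8 9 1), (4, .ce 4 6 7 4 7 9), (3, .pl 0 1 6 7), (6, .lf 7 9 0 0 7 9)]) (.leaf [(9, .ce 4 6 7 4 7 9), (3, .ce 4 6 7 4 7 0), (9, .lf 5 7 8 8 4 7), (12, .lf 4 6 7 7 4 6), (3, .am 0 1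 7 8 1 1), (9, .ce 5 7 8 4 8 0), (4, .am 1 7 8 9 1 1), (3, .am 0 6 7 9 1 1), (4, .am 0 6 8 9 1 1), (2, .am 6 7 8 9 1 1), (12, .lf 8 0 1 1 8 0), (2, .am 0 1 8 9 1 1), (12, .lf 6 8 9 9 6 8), (7, .pl 0 1 6 7), (9, .lf 7 9 0 0 7 9)]) (.leaf [(1, .ta 6 1 2), (2, .am 1 7 8 9 1 1), (2, .pl 0 1 6 7), (4, .lf 7 9 0 0 7 9), (4, .rt 0 1 3 0 1 3), (2, .am 0 1 8 9 1 1), (4, .cf 0 1 3 0 3 8), (2, .am 6 7 8 9 1 1), (4, .lf 4 6 7 7 4 6), (8, .ce 4 6 7 4 7 9), (4, .lf 5 7 8 8 4 7), (4, .pl 0 8 7 4), (2, .am 0 6 8 9 1 1), (1, .tb 6 1 2)]) (.leaf [(2, .am 0 6 8 9 1 1), (6, .pl 0 8 7 4), (6, .lf 5 7 8 8 4 7), (1, .am 6 7 8 9 1 1), (2, .am 1 7 8 9 1 1), (2, .pl 0 1 6 7), (6, .lf 7 9 0 0 7 9), (6, .ce 4 6 7 4 7 9), (3, .lf 6 8 9 9 6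 8), (3, .c4 6), (3, .rt 8 9 1 8 9 1), (1, .am 0 1 8 9 1 1)]))))

def C3443655654 : Tr :=
  .pr 7 2 (.pr 9 2 (.pr 0 2 (.pr 8 2 C3443655654_2 (.leaf [(1, .pl 2 9 8 7), (1, .pl 0 3 7 9), (1, .pl 0 1 3 9), (1, .lf 8 0 1 1 8 0), (1, .rt 7 8 0 7 8 0), (1, .pl 1 9 8 2)])) (.leaf [(2, .lf 0 2 3 3 9 1), (2, .rt 7 8 0 7 0 1), (1, .rt 9 0 2 9 0 2), (2, .rt 7 8 0 7 9 0), (2, .pl 3 5 4 7), (2, .pl 1 3 7 5), (1, .lf 0 2 3 3 8 2), (1, .pl 4 9 7 6), (1, .pl 2 8 9 6), (1, .pl 3 4 8 7), (1, .rt 7 8 0 7 8 0), (1, .pl 0 9 3 4), (1, .pl 2 3 7 9), (1, .pl 0 3 7 9), (1, .pl 2 7 8 6)])) (.leaf [(1, .rt 7 8 0 7 8 0), (1, .rt 7 8 0 7 0 1), (1, .lf 9 1 2 3 8 9), (1, .lf 9 1 2 3 9 1), (1, .pl 1 3 7 8)])) (.pr 5 2 (.leaf [(1, .pl 0 7 6 5),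 (1, .rt 5 6 8 4 7 9), (2, .pl 0 9 7 4), (1, .pl 4 8 7 5), (1, .rt 5 6 8 5 8 9), (1, .pl 0 8 6 4), (1, .pl 4 9 6 5), (2, .rt 5 6 8 5 6 8), (1, .lf 7 9 0 0 7 8), (2, .lf 7 9 0 0 6 9)]) (.pr 4 2 (.leaf [(2, .rt 4 5 7 4 8 9), (1, .pl 0 2 3 8), (1, .pl 0 8 2 4), (3, .rt 4 5 7 4 5 8), (1, .pl 0 6 7 8), (2, .pl 0 5 6 8), (2, .pl 0 9 5 4), (2, .pl 3 4 8 7), (1, .pl 0 3 6 4), (2, .rt 4 5 7 4 6 7), (1, .lf 7 9 0 0 7 8), (2, .lf 7 9 0 0 6 9), (3, .lf 5 7 8 8 5 7), (1, .pl 2 8 4 6), (1, .pl 3 8 4 5)]) (.pr 6 2 (.leaf [(1, .pl 0 9 8 5), (1, .pl 4 8 7 5), (1, .pl 5 8 7 6), (1, .pl 5 9 8 6), (1, .pl 0 8 7 4), (1, .rt 6 7 9 6 7 9), (1, .lf 7 9 0 0 7 9)]) (.pr 8 2 (.pr 0 2 (.pr 9 2 C3443655654_3 (.leaf [(4, .cf 8 9 1 8 3 7), (8,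 .pl 0 9 7 4), (16, .rt 8 9 1 8 9 1), (8, .am 4 7 8 9 1 1), (2, .am 0 1 3 9 1 1), (16, .ce 4 6 7 4 7 9), (12, .lf 7 9 0 0 7 9), (1, .am 1 7 8 9 1 1), (7, .am 1 3 8 9 1 1), (3, .pl 1 3 7 8), (16, .lf 5 7 8 8 4 7), (12, .lf 9 1 2 3 9 1), (2, .am 0 1 7 9 1 1), (4, .rt 0 1 3 0 1 3)])) (.leaf [(2, .lf 5 7 8 8 4 7), (1, .lf 7 9 0 0 7 9), (1, .pl 2 3 7 8), (1, .am 4 7 8 9 1 1), (2, .rt 8 9 1 8 9 2), (1, .lf 7 9 0 2 7 9), (1, .pl 0 9 7 4), (2, .ce 4 6 7 4 7 9), (1, .am 2 3 8 9 1 1), (2, .lf 0 2 3 3 9 2)])) (.leaf [(9, .lf 7 9 0 0 7 9), (9, .ce 5 7 8 5 8 0), (3, .ce 4 6 7 4 7 0), (2, .am 6 7 8 9 1 1), (12, .lf 4 6 7 7 4 6), (4, .am 0 6 8 9 1 1), (2, .am 0 1 8 9 1 1), (4, .am 1 7 8 9 1 1), (3, .am 0 1 7 8 1 1), (12, .lf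 8 0 1 1 8 0), (9, .ce 4 6 7 4 7 9), (3, .am 0 6 7 9 1 1), (12, .lf 6 8 9 9 6 8), (9, .lf 5 7 8 8 5 7), (7, .pl 0 1 6 7)])))))

theorem ok_3443655654 : chk C3443655654 ⟨19207129937016149819070148622, [], [], [], [], []⟩ = true := by decide +kernel

end Pool.Agent.H146.TW
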