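import Pool.Agent.H292.TW.Chk3

/-!
Project TWELVE (helper221): certificate tree of one order pattern (helper146).
-/

set_option autoImplicit false
set_option maxRecDepth 100000

namespace Pool.Agent.H146.TW

open Pool.Agent.H292.TW.Chk

def C3444655554 : Tr :=
  .pr 7 2 (.pr 9 2 (.pr 0 2 (.pr 8 2 (.pr 6 2 (.leaf [(3, .am 0 1 7 8 1 1), (3, .am 0 7 8 9 1 1), (9, .rt 6 7 9 6 7 9), (1, .am 6 7 8 9 1 1), (3, .am 0 6 7 9 1 1), (9, .cf 9 0 2 9 2 7), (9, .rt 0 1 3 0 1 3), (2, .am 1 7 8 9 1 1), (5, .pl 0 1 6 7), (2, .am 0 6 8 9 1 1), (9, .rt 9 0 2 9 0 2), (9, .cf 0 1 3 0 3 8), (1, .am 0 1 8 9 1 1), (9, .rt 8 9 1 8 9 1), (9, .rt 7 8 0 7 8 0)]) (.pr 4 2 (.leaf [(2, .pl 0 2 7 9), (6, .rt 4 5 7 4 6 8), (2, .am 0 2 8 9 1 1), (3, .pl 0 9 6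 4), (2, .rt 4 5 7 4 7 8), (3, .am 4 6 8 9 1 1), (3, .rt 7 8 0 6 8 0), (1, .am 4 7 8 9 1 1), (4, .rt 0 1 3 0 2 3), (6, .lf 6 8 9 9 6 8), (4, .cf 0 1 3 0 3 8), (2, .cf 9 0 2 8 2 7), (6, .rt 9 0 2 9 0 2), (3, .rt 7 8 0 7 8 0), (1, .pl 0 9 7 4)]) (.pr 3 2 (.leaf [(1, .lf 4 6 7 7 4 6), (1, .pl 3 4 6 7), (1, .rt 3 4 6 3 4 6)]) (.pr 2 2 (.leaf [(1, .pl 0 2 6 4), (1, .pl 2 3 8 6), (1, .pl 0 6 2 9), (1, .pl 2 8 9 6), (1, .rt 2 3 5 2 3 5), (1, .lf 3 5 6 6 3 5), (1, .pl 2 4 5 6)]) (.pr 5 2 (.leaf [(1, .am 6 7 8 9 1 1), (8, .am 5 6 8 9 1 1), (2, .am 4 5 7 9 1 1), (14, .lf 6 8 9 9 6 8), (4, .lf 4 6 7 7 4 6), (14, .rt 5 6 8 5 6 8), (1, .am 0 5 8 9 1 1), (4, .lf 2 4 5 5 2 4), (4, .rt 7 8 0 7 8 0), (1, .am 5 6 7 8 1 1), (2, .pl 0 9 5 4), (4,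 .ce 2 4 5 2 5 6), (4, .cf 9 0 2 9 2 8), (1, .am 0 5 6 9 1 1), (4, .rt 9 0 2 9 0 2), (2, .am 0 6 7 8 1 1)]) (.pr 1 2 (.leaf [(1, .rt 1 2 4 1 2 4), (1, .pl 0 5 1 8), (1, .lf 2 4 5 5 2 4), (1, .pl 1 7 3 5), (1, .pl 0 1 5 4), (1, .pl 1 2 7 5), (1, .pl 1 3 8 5)]) (.ch 5 (.leaf [(4, .rt 7 8 0 7 8 0), (4, .lf 2 4 5 5 2 4), (4, .lf 4 6 7 7 4 6), (1, .am 0 5 8 9 1 1), (2, .pl 0 9 5 4), (4, .cf 9 0 2 9 3 8), (4, .ce 2 4 5 2 5 6), (2, .am 0 6 7 8 1 1), (1, .am 6 7 8 9 1 1), (2, .am 4 5 7 9 1 1), (1, .am 0 5 6 9 1 1), (14, .lf 6 8 9 9 6 8), (4, .rt 9 0 2 9 0 3), (8, .am 5 6 8 9 1 1), (1, .am 5 6 7 8 1 1), (14, .rt 5 6 8 5 6 8)]) (.leaf [(22, .am 5 7 8 9 1 1), (44, .lf 5 7 8 8 5 7), (32, .pl 0 3 7 6), (50, .cf 0 1 3 0 3 8), (46, .ce 4 6 7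 4 7 9), (9, .am 0 5 7 9 1 1), (50, .lf 6 8 9 9 6 8), (6, .am 0 6 7 8 1 1), (12, .am 0 6 8 9 1 1), (18, .lf 2 4 5 5 2 4), (12, .lf 4 6 7 7 4 5), (18, .rt 0 1 3 0 2 3), (32, .lf 3 5 6 6 3 5), (9, .pl 0 9 5 4), (52, .lf 4 6 7 7 4 6), (14, .am 5 6 7 9 1 1), (16, .am 0 7 8 9 1 1), (9, .am 4 5 7 9 1 1), (18, .pl 0 2 6 5), (2, .lf 6 8 9 9 6 7), (46, .lf 7 9 0 0 7 9)]) (.leaf [(116, .cf 0 1 3 0 3 8), (15, .pl 0 2 7 8), (64, .lf 4 6 7 7 4 6), (30, .pl 0 3 7 6), (12, .am 0 6 8 9 1 1), (8, .am 0 1 7 8 1 1), (5, .am 0 5 7 9 1 1), (30, .lf 3 5 6 6 3 5), (6, .am 0 6 7 8 1 1), (23, .am 0 7 8 9 1 1), (10, .pl 0 2 6 5), (16, .rt 8 9 1 8 9 1), (64, .lf 6 8 9 9 6 8), (5, .am 4 5 7 9 1 1), (8, .pl 0 1 6 7), (70, .rt 0 1 3 0 2 3), (30, .tb 5 1 2),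 (45, .am 0 2 8 9 1 1), (16, .rt 0 1 3 0 1 3), (38, .ce 4 6 7 4 7 8), (20, .am 5 6 7 9 1 1), (5, .pl 0 9 5 4), (16, .ce 4 6 7 4 7 9), (90, .rt 9 0 2 9 0 2), (10, .lf 2 4 5 5 2 4), (30, .cf 9 0 2 8 2 7)]) (.leaf [(8, .cf 0 1 3 0 3 8), (2, .am 0 6 7 9 1 1), (7, .ce 4 6 7 4 7 0), (12, .lf 5 7 8 8 5 7), (4, .am 0 6 8 9 1 1), (1, .am 0 7 8 9 1 1), (3, .am 4 7 8 9 1 1), (4, .am 5 6 7 9 1 1), (20, .lf 6 8 9 9 6 8), (2, .am 4 5 7 9 1 1), (5, .ce 6 8 9 4 9 0), (8, .lf 2 4 5 5 2 4), (2, .am 0 6 7 8 1 1), (12, .c4 5), (8, .pl 0 2 6 5), (6, .am 4 5 7 8 1 1), (20, .lf 4 6 7 7 4 6), (8, .rt 0 1 3 0 2 3)])))))))) (.leaf [(1, .pl 0 1 7 9), (1, .pl 2 9 8 7), (1, .pl 1 9 8 6), (1, .pl 2 8 9 6), (1, .lf 8 0 1 1 8 0), (1, .rt 7 8 0 7 8 0)])) (.leaf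 [(2, .pl 0 9 8 4), (1, .pl 2 3 8 5), (1, .pl 2 8 9 4), (1, .pl 3 5 4 9), (2, .rt 9 0 2 9 0 2), (1, .pl 3 6 4 8), (1, .pl 2 3 9 6), (2, .pl 0 8 3 4), (2, .lf 0 2 3 3 0 2), (1, .pl 5 9 8 6)])) (.leaf [(1, .rt 7 8 0 7 8 0), (1, .rt 7 8 0 7 0 1), (1, .lf 9 1 2 2 8 1), (1, .pl 1 2 7 8)])) (.pr 4 2 (.leaf [(1, .rt 4 5 7 4 5 9), (1, .lf 7 9 0 0 5 6), (1, .lf 7 9 0 0 7 9), (1, .lf 7 9 0 0 6 7), (1, .pl 0 9 5 4)]) (.pr 6 2 (.leaf [(1, .pl 0 9 3 4), (1, .pl 1 3 8 4), (2, .rt 6 7 9 6 7 9), (1, .pl 0 9 8 1), (2, .pl 0 3 7 6), (2, .lf 7 9 0 0 7 9), (1, .pl 4 9 8 6), (1, .pl 1 9 3 6), (1, .pl 0 8 3 6)]) (.pr 5 2 (.leaf [(1, .am 5 6 8 9 1 1), (2, .lf 6 8 9 9 6 8), (1, .ce 4 6 7 4 8 9), (1, .pl 0 9 6 5), (2, .rt 5 6 8 5 6 8), (1, .lf 4 6 7 7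 4 6), (2, .lf 7 9 0 0 7 9), (1, .am 0 6 7 9 1 1), (2, .lf 6 8 9 9 6 7), (1, .lf 4 6 7 8 4 6), (1, .ce 4 6 7 4 7 9)]) (.pr 3 2 (.leaf [(1, .rt 3 4 6 3 4 6), (1, .pl 1 7 3 5), (1, .pl 3 4 5 7), (1, .lf 4 6 7 7 4 6), (1, .pl 1 3 7 6)]) (.pr 2 2 (.leaf [(1, .pl 2 8 9 6), (1, .pl 2 9 5 6), (1, .lf 3 5 6 6 3 5), (1, .pl 2 3 8 6), (1, .rt 2 3 5 2 3 5)]) (.pr 0 2 (.leaf [(44, .lf 5 7 8 8 5 7), (6, .am 0 6 7 8 1 1), (14, .am 5 6 7 9 1 1), (12, .lf 4 6 7 7 4 5), (32, .pl 0 3 7 6), (9, .am 0 5 7 9 1 1), (46, .ce 4 6 7 4 7 9), (16, .am 0 7 8 9 1 1), (12, .am 0 6 8 9 1 1), (50, .cf 0 1 3 0 3 8), (18, .lf 2 4 5 5 2 4), (9, .pl 0 9 5 4), (18, .rt 0 1 3 0 2 3), (2, .lf 6 8 9 9 6 7), (50, .lf 6 8 9 9 6 8), (46, .lf 7 9 0 0 7 9), (22, .am 5 7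 8 9 1 1), (52, .lf 4 6 7 7 4 6), (18, .pl 0 2 6 5), (32, .lf 3 5 6 6 3 5), (9, .am 4 5 7 9 1 1)]) (.pr 8 2 (.leaf [(1, .pl 3 5 4 8), (1, .pl 0 8 3 4), (1, .lf 0 2 3 3 0 2), (1, .rt 8 9 1 8 0 1), (1, .pl 1 8 3 2), (1, .rt 8 9 1 8 1 2), (1, .pl 1 3 8 5)]) (.leaf [(4, .lf 4 6 7 7 4 6), (1, .am 0 6 7 8 1 1), (2, .lf 7 9 0 0 7 8), (6, .lf 8 0 1 1 8 0), (6, .lf 0 2 3 3 0 2), (4, .ce 4 6 7 4 7 9), (6, .pl 0 8 3 5), (6, .lf 2 4 5 5 2 3), (4, .lf 7 9 0 0 7 9), (6, .lf 5 7 8 8 5 7), (6, .pl 2 3 5 6), (3, .pl 0 1 6 7), (2, .am 0 6 8 9 1 1), (6, .lf 3 5 6 6 3 5), (3, .am 0 1 7 8 1 1), (2, .am 0 7 8 9 1 1), (4, .lf 6 8 9 9 6 8)]))))))))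

theorem ok_3444655554 : chk C3444655554 ⟨19207120492283184217218674702, [], [], [], [], []⟩ = true := by decide +kernel

end Pool.Agent.H146.TW
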