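import Pool.Agent.H292.TW.Chk3

/-!
Project TWELVE (helper221): certificate tree of one order pattern (helper146).
-/

set_option autoImplicit false
set_option maxRecDepth 100000

namespace Pool.Agent.H146.TW

open Pool.Agent.H292.TW.Chk

def C3445655544 : Tr :=
  .pr 7 2 (.pr 9 2 (.pr 0 2 (.pr 8 2 (.pr 4 2 (.pr 6 2 (.leaf [(12, .rt 4 5 7 4 6 8), (12, .rt 7 8 0 7 8 0), (16, .rt 6 7 9 6 7 9), (12, .cf 9 0 2 9 2 7), (4, .am 0 6 7 9 1 1), (7, .pl 0 9 6 4), (12, .rt 9 0 2 9 0 2), (16, .rt 8 9 1 8 9 1), (8, .am 6 7 8 9 1 1), (2, .am 4 6 7 8 1 1), (4, .rt 4 5 7 4 6 7), (2, .am 0 6 7 8 1 1), (16, .cf 8 9 1 8 1 6), (1, .am 0 6 8 9 1 1), (7, .am 4 6 8 9 1 1)]) (.leaf [(2, .lf 6 8 9 9 6 8), (1, .pl 0 9 7 4), (2, .rt 4 5 7 4 7 8), (1, .pl 0 9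 6 4), (1, .am 4 6 8 9 1 1), (2, .cf 9 0 2 9 2 7), (1, .am 4 7 8 9 1 1), (1, .rt 7 8 0 6 8 0), (1, .rt 7 8 0 7 8 0), (2, .rt 9 0 2 9 0 2), (2, .rt 4 5 7 4 6 8)])) (.pr 3 2 (.leaf [(1, .rt 3 4 6 3 4 6), (1, .pl 4 8 7 6), (1, .pl 1 8 3 5), (1, .pl 1 3 8 6), (1, .lf 4 6 7 7 4 6), (1, .pl 3 4 5 8)]) (.pr 2 2 (.leaf [(1, .pl 0 6 2 3), (1, .pl 2 4 5 6), (1, .rt 2 3 5 2 3 5), (1, .lf 3 5 6 6 3 5), (1, .pl 0 2 6 4)]) (.pr 1 2 (.leaf [(1, .pl 0 1 5 4), (1, .lf 2 4 5 5 2 4), (1, .pl 1 2 7 5), (1, .rt 1 2 4 1 2 4), (1, .pl 0 5 1 7)]) (.pr 6 2 (.pr 5 2 (.leaf [(22, .am 0 6 7 9 1 1), (20, .am 6 7 8 9 1 1), (5, .am 4 5 6 9 1 1), (16, .lf 4 6 7 7 4 6), (44, .rt 9 0 2 9 0 2), (20, .am 5 7 8 9 1 1), (44, .rt 5 6 8 5 6 8), (44, .rt 7 8 0 7 8 0), (11,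 .am 0 5 6 9 1 1), (16, .ce 2 4 5 2 5 6), (44, .rt 6 7 9 6 7 9), (44, .cf 9 0 2 9 2 7), (4, .am 4 6 7 8 1 1), (4, .am 4 6 7 9 1 1), (11, .pl 0 9 5 4), (44, .rt 8 9 1 8 9 1), (2, .am 5 6 8 9 1 1), (16, .lf 2 4 5 5 2 4), (10, .am 5 6 7 9 1 1), (2, .am 4 6 8 9 1 1), (44, .cf 8 9 1 8 1 6)]) (.ch 4 (.leaf [(61, .lf 5 7 8 8 5 7), (28, .am 4 5 7 8 1 1), (12, .cf 9 0 2 9 2 7), (12, .rt 9 0 2 9 0 2), (16, .ce 1 3 4 1 4 5), (10, .pl 0 9 5 4), (16, .lf 1 3 4 4 1 3), (8, .pl 3 4 7 8), (16, .lf 3 5 6 6 3 5), (4, .am 0 5 7 8 1 1), (61, .rt 4 5 7 4 5 7), (12, .rt 8 9 1 8 9 2), (6, .am 5 6 7 9 1 1), (12, .cf 9 0 2 8 2 7), (2, .am 0 7 8 9 1 1), (4, .am 4 5 6 7 1 1), (6, .am 0 5 6 7 1 1), (12, .rt 6 7 9 6 7 0), (7, .am 4 7 8 9 1 1), (12, .rt 6 7 9 6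 7 9), (8, .am 3 4 6 7 1 1), (3, .am 4 5 8 9 1 1)]) (.leaf [(21, .pl 0 9 5 4), (40, .rt 7 8 0 7 8 0), (64, .lf 5 7 8 8 5 7), (28, .am 0 6 7 8 1 1), (56, .rt 9 0 2 9 0 2), (80, .cf 9 0 2 9 2 7), (72, .lf 4 6 7 7 4 6), (112, .ce 3 5 6 3 6 8), (48, .lf 3 5 6 6 3 4), (16, .am 5 6 7 9 1 1), (24, .pl 2 9 5 6), (16, .rt 7 8 0 7 9 0), (24, .lf 2 4 5 5 2 4), (64, .lf 3 5 6 6 3 5), (32, .am 5 7 8 9 1 1), (21, .am 0 5 6 9 1 1), (3, .am 4 5 6 9 1 1), (36, .am 4 6 7 8 1 1), (14, .am 0 6 8 9 1 1), (18, .am 4 6 8 9 1 1), (16, .rt 6 7 9 6 7 9), (8, .am 6 7 8 9 1 1), (72, .lf 6 8 9 9 6 8)]) (.leaf [(24, .am 5 7 8 9 1 1), (18, .pl 2 9 5 6), (10, .lf 3 5 6 6 3 4), (36, .rt 9 0 2 9 0 2), (36, .ce 3 5 6 3 6 8), (9, .am 4 5 6 9 1 1), (48, .lf 3 5 6 6 3 5),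 (48, .lf 5 7 8 8 5 7), (36, .rt 7 8 0 7 8 0), (22, .ce 3 5 6 3 6 7), (18, .am 0 6 7 9 1 1), (9, .am 0 5 6 9 1 1), (110, .cf 9 0 2 9 2 7), (18, .lf 2 4 5 5 2 4), (18, .am 6 7 8 9 1 1), (14, .pl 1 9 7 6), (42, .am 1 7 8 9 1 1), (84, .rt 8 9 1 8 9 1), (28, .tb 4 1 2), (56, .rt 9 0 2 9 1 2), (12, .am 5 6 7 9 1 1), (28, .cf 7 8 0 7 1 6), (9, .pl 0 9 5 4)]) (.leaf [(72, .cf 9 0 2 9 2 7), (136, .lf 3 5 6 6 3 5), (1, .am 4 5 7 9 1 1), (33, .pl 0 9 5 4), (52, .am 4 6 7 8 1 1), (88, .c4 4), (64, .rt 6 7 9 6 8 9), (56, .am 5 7 8 9 1 1), (136, .lf 5 7 8 8 5 7), (42, .am 4 5 6 7 1 1), (24, .rt 6 7 9 6 7 9), (72, .rt 9 0 2 9 0 2), (12, .am 4 5 7 8 1 1), (32, .am 4 6 8 9 1 1), (12, .am 0 6 7 9 1 1), (6, .am 0 5 6 7 1 1), (72, .rt 7 8 0 7 8 0), (27,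 .am 0 5 7 9 1 1), (136, .ce 3 5 6 3 6 8), (88, .lf 4 6 7 7 4 6)]))) (.pr 5 2 (.leaf [(1, .am 0 5 6 9 1 1), (1, .am 6 7 8 9 1 1), (4, .lf 2 4 5 5 2 4), (4, .cf 9 0 2 9 2 8), (8, .am 5 6 8 9 1 1), (4, .rt 9 0 2 9 0 2), (2, .am 0 6 7 8 1 1), (2, .am 4 5 7 9 1 1), (14, .lf 6 8 9 9 6 8), (4, .lf 4 6 7 7 4 6), (1, .am 5 6 7 8 1 1), (2, .pl 0 9 5 4), (14, .rt 5 6 8 5 6 8), (4, .rt 7 8 0 7 8 0), (4, .ce 2 4 5 2 5 6), (1, .am 0 5 8 9 1 1)]) (.leaf [(2, .am 0 5 6 8 1 1), (2, .am 0 6 8 9 1 1), (2, .am 0 6 7 8 1 1), (24, .cf 9 0 2 9 2 7), (12, .am 5 6 7 8 1 1), (4, .am 4 6 8 9 1 1), (14, .rt 7 8 0 7 8 0), (16, .am 5 7 8 9 1 1), (7, .pl 0 9 5 4), (22, .lf 6 8 9 9 6 8), (10, .pl 2 9 5 6), (5, .am 0 5 7 9 1 1), (22, .lf 4 6 7 7 4 6), (8, .am 4 6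 7 8 1 1), (24, .lf 3 5 6 6 3 5), (12, .lf 3 5 6 6 3 4), (24, .lf 5 7 8 8 5 7), (10, .lf 2 4 5 5 2 4), (3, .am 4 5 7 9 1 1), (36, .ce 3 5 6 3 6 8), (14, .rt 9 0 2 9 0 2)]))))))) (.leaf [(1, .lf 8 0 1 1 8 0), (1, .pl 2 9 3 7), (1, .pl 0 1 2 8), (1, .pl 0 2 7 9), (1, .rt 7 8 0 7 8 0), (1, .pl 2 3 8 7)])) (.leaf [(1, .pl 0 9 3 5), (1, .rt 9 0 2 9 0 2), (1, .pl 2 3 9 5), (1, .lf 0 2 3 3 0 2)])) (.leaf [(1, .pl 2 3 8 7), (1, .pl 1 2 7 3), (1, .rt 7 8 0 7 8 0), (1, .lf 9 1 2 2 8 1), (1, .rt 7 8 0 7 0 1)])) (.pr 5 2 (.leaf [(1, .lf 7 9 0 0 7 8), (1, .pl 0 9 7 5), (1, .rt 5 6 8 5 7 9), (1, .lf 7 9 0 0 6 9), (1, .rt 5 6 8 4 6 8), (1, .pl 0 8 6 4)]) (.pr 4 2 (.leaf [(1, .pl 0 3 8 4), (2, .pl 0 2 7 9), (1, .rt 4 5 7 4 6 9), (1, .pl 0 2 6 4), (2,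 .rt 4 5 7 4 5 7), (1, .lf 7 9 0 0 7 9), (2, .pl 0 5 6 9), (2, .pl 0 8 5 4), (2, .lf 5 7 8 9 5 7), (1, .pl 0 7 2 4), (1, .lf 7 9 0 0 6 8), (1, .pl 0 9 3 4), (1, .rt 4 5 7 4 7 8), (2, .pl 0 6 2 9)]) (.pr 3 2 (.leaf [(1, .pl 4 8 7 6), (1, .lf 5 7 8 8 5 7), (1, .pl 3 5 6 8), (1, .pl 3 4 7 8), (1, .lf 4 6 7 7 4 6), (1, .rt 3 4 6 3 6 7), (1, .pl 3 4 5 7), (2, .rt 3 4 6 3 4 6), (1, .lf 4 6 7 7 4 5)]) (.pr 6 2 (.leaf [(1, .pl 0 9 6 4), (2, .lf 7 9 0 0 7 8), (1, .lf 5 7 8 8 5 7), (1, .lf 3 5 6 6 3 5), (1, .am 0 6 7 9 1 1), (1, .lf 5 7 8 9 4 7), (1, .lf 3 5 6 6 3 4), (2, .ce 3 5 6 3 6 8), (1, .am 0 6 7 8 1 1), (2, .lf 7 9 0 0 7 9), (1, .pl 0 8 6 5), (2, .rt 6 7 9 6 7 9)]) (.leaf [(8, .am 6 7 8 9 1 1), (4, .am 0 6 7 9 1 1), (12, .lf 5 7 8 8 5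 7), (16, .lf 6 8 9 9 6 8), (2, .am 4 6 7 8 1 1), (1, .pl 0 9 6 4), (1, .am 0 6 8 9 1 1), (4, .lf 3 5 6 6 3 4), (12, .ce 4 6 7 4 7 9), (12, .lf 3 5 6 6 3 5), (16, .lf 4 6 7 7 4 6), (16, .ce 3 5 6 3 6 8), (1, .am 4 6 8 9 1 1), (6, .am 5 6 8 9 1 1), (2, .am 0 6 7 8 1 1), (6, .pl 0 9 6 5), (12, .lf 7 9 0 0 7 9)])))))

theorem ok_3445655544 : chk C3445655544 ⟨19197449085726267458698932238, [], [], [], [], []⟩ = true := by decide +kernel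

end Pool.Agent.H146.TW
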