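import Pool.Agent.H292.TW.Chk3

/-!
Project TWELVE (helper221): certificate tree of one order pattern (helper146).
-/

set_option autoImplicit false
set_option maxRecDepth 100000

namespace Pool.Agent.H146.TW

open Pool.Agent.H292.TW.Chk

def C3454655454 : Tr :=
  .pr 4 2 (.pr 6 2 (.pr 8 2 (.pr 7 2 (.pr 5 2 (.leaf [(12, .rt 8 9 1 8 9 1), (4, .rt 8 9 1 8 0 1), (2, .am 4 6 7 8 1 1), (4, .am 4 5 7 8 1 1), (1, .pl 0 8 5 4), (1, .am 0 5 6 8 1 1), (8, .am 5 6 7 8 1 1), (1, .am 4 5 6 8 1 1), (16, .rt 5 6 8 5 6 8), (6, .pl 4 5 8 9), (2, .am 0 6 7 8 1 1), (6, .am 5 6 8 9 1 1), (12, .cf 7 8 0 7 0 5), (12, .rt 6 7 9 6 7 9), (16, .cf 8 9 1 8 1 6), (16, .rt 7 8 0 7 8 0), (12, .rt 4 5 7 4 5 7)]) (.leaf [(1, .am 4 5 7 8 1 1), (2, .rt 4 5 7 4 6 7), (1,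 .rt 6 7 9 6 7 9), (1, .am 4 6 7 8 1 1), (2, .rt 8 9 1 8 9 1), (2, .cf 8 9 1 8 1 6), (1, .pl 4 6 8 9), (1, .pl 4 5 8 9), (1, .rt 6 7 9 5 7 9), (2, .lf 5 7 8 8 5 7), (2, .rt 4 5 7 4 5 7)])) (.leaf [(1, .cf 8 9 1 8 1 6), (1, .am 4 6 8 9 1 1), (2, .lf 7 9 0 0 7 9), (1, .rt 8 9 1 8 9 1), (1, .rt 8 9 1 7 9 1), (2, .rt 4 5 7 4 6 8), (1, .cf 8 9 1 7 1 6), (1, .pl 0 9 6 4), (2, .rt 6 7 9 6 8 9), (1, .am 0 6 7 9 1 1), (2, .rt 6 7 9 6 7 9)])) (.leaf [(1, .lf 8 0 1 1 7 8), (1, .pl 1 8 7 6), (1, .rt 6 7 9 6 7 0), (1, .lf 8 0 1 1 8 0), (1, .pl 0 1 6 8)])) (.leaf [(1, .pl 0 8 3 4), (1, .rt 4 5 7 4 5 8), (1, .lf 6 8 9 9 5 7), (1, .lf 6 8 9 9 6 8), (1, .rt 4 5 7 4 6 7), (1, .pl 0 5 7 9), (1, .pl 0 7 8 9), (1, .pl 0 3 5 4), (1, .pl 4 6 7 9)])) (.pr 2 2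 (.leaf [(1, .pl 2 3 5 7), (1, .pl 2 4 6 7), (1, .lf 4 6 7 7 3 5), (1, .lf 4 6 7 7 4 6), (1, .rt 2 3 5 2 4 5), (1, .rt 2 3 5 2 3 6)]) (.pr 1 2 (.leaf [(1, .rt 1 2 4 1 2 4), (1, .lf 2 4 5 5 2 4), (1, .pl 1 2 4 5)]) (.pr 3 2 (.leaf [(1, .lf 4 6 7 7 4 6), (1, .pl 2 6 4 3), (1, .pl 1 7 2 5), (1, .pl 1 2 7 6), (1, .pl 2 4 5 7), (1, .rt 3 4 6 3 4 6)]) (.pr 7 2 (.pr 8 2 (.pr 9 2 (.pr 0 2 (.pr 6 2 (.pr 5 2 (.leaf [(14, .lf 2 4 5 5 2 4), (2, .am 0 6 8 9 1 1), (10, .am 0 6 7 8 1 1), (12, .am 6 7 8 9 1 1), (7, .am 4 5 7 9 1 1), (12, .rt 8 9 1 8 0 1), (24, .rt 8 9 1 8 9 1), (24, .rt 6 7 9 6 7 9), (6, .am 0 5 6 8 1 1), (36, .cf 8 9 1 8 1 6), (10, .pl 2 5 9 8), (24, .ce 2 4 5 2 5 7), (16, .am 5 6 7 9 1 1), (14, .lf 4 6 7 7 4 6), (10, .rt 9 0 2 9 0 2),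 (1, .am 0 5 7 9 1 1), (22, .rt 5 6 8 5 6 8), (22, .rt 7 8 0 7 8 0), (7, .pl 0 9 5 4)]) (.ch 4 (.leaf [(12, .lf 3 5 6 6 3 5), (6, .am 0 6 7 8 1 1), (32, .cf 8 9 1 8 1 6), (1, .pl 0 9 6 4), (32, .rt 6 7 9 6 7 9), (52, .rt 4 5 7 4 5 7), (48, .lf 5 7 8 8 5 7), (16, .lf 1 3 4 4 1 3), (12, .pl 0 9 5 4), (18, .am 4 6 7 8 1 1), (12, .ce 3 5 6 3 6 7), (16, .rt 9 0 2 9 0 3), (13, .am 4 6 8 9 1 1), (12, .am 0 5 6 7 1 1), (24, .am 4 5 7 8 1 1), (32, .rt 8 9 1 8 9 1), (3, .am 0 6 8 9 1 1), (16, .ce 1 3 4 1 4 5), (16, .rt 6 7 9 6 7 0), (32, .rt 4 5 7 4 6 7), (16, .pl 3 4 9 8)]) (.leaf [(80, .cf 9 0 2 9 2 8), (90, .lf 5 7 8 8 5 7), (110, .lf 2 4 5 5 2 4), (12, .am 0 5 6 7 1 1), (15, .am 0 1 7 8 1 1), (10, .am 4 5 8 9 1 1), (11, .am 0 6 7 8 1 1), (110,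 .rt 6 7 9 6 7 9), (15, .pl 0 1 6 7), (32, .pl 0 9 5 4), (30, .cf 0 1 3 0 3 8), (14, .am 4 6 7 8 1 1), (30, .rt 0 1 3 0 1 3), (28, .am 0 6 8 9 1 1), (90, .ce 3 5 6 3 6 7), (110, .ce 2 4 5 2 5 7), (30, .rt 8 9 1 8 9 1), (110, .lf 4 6 7 7 4 6), (90, .lf 3 5 6 6 3 5), (60, .am 5 6 7 9 1 1), (80, .rt 7 8 0 7 9 0), (80, .rt 9 0 2 9 0 2), (22, .am 4 6 8 9 1 1), (20, .am 0 5 7 9 1 1), (50, .am 4 5 7 8 1 1), (18, .am 4 5 6 7 1 1), (110, .lf 6 8 9 9 6 8)]) (.leaf [(250, .rt 7 8 0 7 9 0), (139, .am 4 6 8 9 1 1), (112, .am 0 6 7 8 1 1), (139, .pl 0 9 5 4), (356, .am 4 5 6 7 1 1), (225, .tb 4 1 2), (100, .ta 4 1 2), (248, .am 4 6 7 8 1 1), (250, .rt 9 0 2 9 0 2), (470, .lf 5 7 8 8 5 7), (84, .am 0 5 6 7 1 1), (525, .rt 8 9 1 8 9 1), (470, .lf 3 5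 6 6 2 5), (525, .cf 8 9 1 8 1 6), (470, .ce 2 4 5 2 6 7), (525, .lf 2 4 5 5 2 4), (80, .am 5 7 8 9 1 1), (30, .am 5 6 7 9 1 1), (55, .am 0 5 7 9 1 1), (56, .am 0 6 8 9 1 1), (250, .pl 2 5 9 8), (775, .ce 2 4 5 2 5 7), (30, .am 4 5 7 8 1 1)]) (.leaf [(5, .am 4 5 8 9 1 1), (2, .am 0 5 7 8 1 1), (8, .rt 9 0 2 9 0 2), (8, .am 5 6 7 9 1 1), (1, .am 0 5 8 9 1 1), (4, .am 5 7 8 9 1 1), (8, .cf 9 0 2 9 2 8), (8, .rt 7 8 0 7 8 0), (20, .c4 4), (30, .lf 5 7 8 8 5 7), (30, .ce 3 5 6 3 6 7), (20, .lf 4 6 7 7 4 6), (2, .am 0 6 8 9 1 1), (5, .pl 0 9 5 4), (20, .rt 6 7 9 6 7 9), (2, .am 0 5 6 8 1 1), (30, .lf 3 5 6 6 3 5), (2, .am 0 6 7 8 1 1), (10, .am 4 5 7 8 1 1)]))) (.pr 5 2 (.leaf [(8, .am 5 6 8 9 1 1), (1, .am 5 6 7 8 1 1), (4, .cf 9 0 2 9 3 8),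 (2, .pl 0 9 5 4), (1, .am 6 7 8 9 1 1), (2, .am 0 5 7 9 1 1), (1, .am 4 5 6 9 1 1), (2, .am 4 6 7 8 1 1), (1, .am 4 5 8 9 1 1), (14, .lf 6 8 9 9 6 8), (4, .lf 4 6 7 7 4 6), (4, .rt 9 0 2 9 0 3), (14, .rt 5 6 8 5 6 8), (4, .ce 2 4 5 2 5 6), (4, .lf 2 4 5 5 2 4), (4, .rt 7 8 0 7 8 0)]) (.ch 5 (.leaf [(2, .rt 7 8 0 7 8 0), (6, .lf 6 8 9 9 6 8), (6, .rt 5 6 8 5 6 8), (1, .am 0 5 7 9 1 1), (2, .am 5 6 7 8 1 1), (2, .rt 9 0 2 9 0 2), (1, .am 4 5 7 9 1 1), (1, .pl 0 9 5 4), (2, .lf 2 4 5 5 2 4), (2, .ce 2 4 5 2 5 7), (4, .am 5 6 8 9 1 1), (2, .lf 6 8 9 9 6 7), (2, .cf 9 0 2 9 2 8), (2, .lf 4 6 7 7 4 6)]) (.leaf [(91, .am 0 2 6 5 1 1), (144, .pl 0 3 7 6), (208, .lf 2 4 5 5 2 4), (78, .pl 0 9 5 4), (128, .am 5 7 8 9 1 1), (352, .cf 0 1 3 0 3 8),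 (80, .lf 4 6 7 7 4 5), (32, .am 4 5 8 9 1 1), (384, .lf 4 6 7 7 4 6), (13, .am 2 4 5 6 1 1), (256, .lf 7 9 0 0 7 9), (4, .am 0 6 7 8 1 1), (178, .am 0 6 8 9 1 1), (40, .am 4 5 6 7 1 1), (104, .pl 0 2 7 6), (224, .lf 5 7 8 8 5 7), (256, .ce 4 6 7 4 7 9), (208, .rt 0 1 3 0 2 3), (32, .am 4 5 7 9 1 1), (144, .lf 3 5 6 6 3 5), (352, .lf 6 8 9 9 6 8), (32, .lf 6 8 9 9 6 7), (13, .pl 0 2 5 4), (14, .am 4 6 8 9 1 1), (92, .am 4 6 7 8 1 1)]) (.ch 6 (.leaf [(4, .am 4 6 7 8 1 1), (42, .cf 0 1 3 0 3 8), (42, .rt 0 1 3 0 1 3), (20, .pl 0 9 5 4), (42, .am 0 6 8 9 1 1), (78, .lf 2 4 5 5 2 4), (66, .ce 2 4 5 2 6 7), (66, .rt 9 0 2 9 0 2), (48, .am 5 6 7 9 1 1), (36, .am 4 5 7 8 1 1), (21, .am 0 1 7 8 1 1), (2, .am 4 5 6 7 1 1), (42, .rt 8 9 1 8 9 1),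 (20, .am 4 5 8 9 1 1), (48, .rt 7 8 0 7 9 0), (66, .lf 3 5 6 6 2 5), (11, .am 0 6 7 8 1 1), (78, .ce 2 4 5 2 5 7), (12, .lf 5 7 8 8 5 6), (4, .am 0 5 8 9 1 1), (90, .lf 6 8 9 9 6 8), (90, .rt 6 7 9 6 7 9), (18, .ta 5 1 2), (16, .am 0 5 6 7 1 1), (21, .pl 0 1 6 7), (78, .lf 4 6 7 7 4 6), (66, .cf 9 0 2 9 2 8)]) (.leaf [(6, .pl 0 1 6 7), (14, .lf 4 6 7 7 4 6), (7, .am 0 6 8 9 1 1), (4, .ce 2 4 5 2 6 7), (14, .lf 6 8 9 9 6 8), (1, .am 0 5 7 8 1 1), (4, .lf 3 5 6 6 2 5), (2, .ce 2 4 5 2 5 7), (3, .lf 4 6 7 7 4 5), (6, .am 0 1 7 8 1 1), (6, .rt 9 0 2 9 0 3), (14, .lf 8 0 1 1 8 0), (1, .pl 0 1 5 4), (7, .tb 5 1 2), (15, .ce 4 6 7 4 7 8), (1, .am 4 5 7 8 1 1), (2, .lf 2 4 5 5 2 4), (1, .cf 8 9 1 8 1 7), (1, .pl 0 1 6 8), (1, .rt 9 0 2 9 0 2),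 (6, .cf 9 0 2 9 3 8), (4, .am 5 6 7 8 1 1), (1, .lf 1 3 4 4 1 2), (1, .pl 2 4 9 8)]) (.leaf [(1215, .ce 4 6 7 4 7 9), (1080, .lf 3 5 6 6 3 5), (3645, .lf 4 6 7 7 4 6), (634, .am 0 1 8 9 1 1), (2031, .rt 9 0 2 9 0 3), (360, .am 4 5 8 9 1 1), (1350, .ce 4 6 7 4 7 8), (53, .am 1 7 8 9 1 1), (2031, .cf 9 0 2 9 3 8), (720, .pl 0 3 7 6), (741, .ce 2 4 5 2 6 7), (360, .pl 0 3 2 6), (317, .pl 0 1 6 7), (21, .lf 3 5 6 6 2 5), (159, .ta 5 1 2), (1215, .ta 6 1 2), (624, .tb 5 1 2), (1080, .lf 2 4 5 5 2 4), (1037, .am 0 6 8 9 1 1), (264, .am 0 1 7 8 1 1), (360, .am 4 5 6 7 1 1), (360, .am 0 2 6 5 1 1), (1215, .rt 0 1 3 0 1 3), (339, .am 5 7 8 9 1 1), (406, .am 6 7 8 9 1 1), (360, .ce 2 4 5 2 5 7), (360, .pl 0 9 5 4), (381, .am 5 6 7 9 1 1), (720,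 .am 4 6 7 8 1 1), (2295, .cf 0 1 3 0 3 8)]) (.leaf [(12, .am 5 6 7 8 1 1), (106, .lf 6 8 9 9 6 8), (9, .lf 4 6 7 7 4 5), (16, .am 5 6 7 9 1 1), (6, .lf 1 3 4 4 1 3), (3, .am 2 4 5 6 1 1), (40, .tb 5 1 2), (12, .lf 1 3 4 4 1 2), (10, .am 0 5 7 8 1 1), (94, .c4 6), (16, .rt 7 8 0 7 9 0), (25, .ce 3 5 6 3 6 7), (31, .lf 3 5 6 6 3 5), (18, .pl 0 1 5 4), (76, .rt 8 9 1 8 9 1), (38, .am 0 1 7 8 1 1), (38, .pl 0 1 6 7), (21, .lf 2 4 5 5 2 4), (6, .am 4 6 7 8 1 1), (2, .rt 7 8 0 6 9 0), (132, .cf 9 0 2 9 2 8), (36, .am 0 6 8 9 1 1), (3, .pl 2 4 6 7), (6, .pl 2 4 9 8), (138, .rt 9 0 2 9 0 2), (15, .ce 2 4 5 2 5 7), (8, .am 0 5 8 9 1 1), (12, .lf 4 6 7 7 4 6), (6, .pl 3 4 6 7)])) (.leaf [(8, .am 4 6 8 9 1 1), (48, .lf 6 8 9 9 6 8), (2, .am 0 5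 6 8 1 1), (27, .c4 5), (12, .am 4 5 7 8 1 1), (4, .am 4 5 6 8 1 1), (24, .rt 0 1 3 0 2 3), (9, .am 0 7 8 9 1 1), (27, .lf 5 7 8 8 5 7), (12, .am 5 6 7 9 1 1), (9, .am 5 6 7 8 1 1), (6, .am 4 5 7 9 1 1), (24, .pl 0 2 7 5), (48, .lf 4 6 7 7 4 6), (4, .am 0 6 8 9 1 1), (3, .rt 7 8 0 7 8 0), (2, .pl 0 9 5 4), (12, .ce 4 6 7 4 7 0), (24, .lf 2 4 5 5 2 4), (24, .cf 0 1 3 0 3 8), (12, .ce 4 6 7 4 9 0)])))) (.leaf [(1, .pl 4 9 8 5), (3, .lf 0 2 3 3 0 2), (1, .pl 1 3 9 5), (1, .rt 8 9 1 8 0 1), (1, .lf 0 2 3 3 9 1), (2, .pl 3 7 5 8), (1, .pl 2 8 9 6), (3, .pl 0 8 3 5), (2, .rt 9 0 2 9 0 2), (1, .pl 2 8 9 7), (2, .pl 0 9 8 4), (1, .pl 3 4 9 8), (1, .rt 8 9 1 8 9 2), (1, .pl 3 7 4 9), (1, .pl 1 9 8 6), (3, .pl 2 3 8 7)])) (.leaf [(1, .pl 0 2 3 9),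 (1, .lf 9 1 2 2 9 1), (1, .pl 0 3 2 1), (1, .pl 1 3 8 4), (1, .pl 3 4 9 8), (1, .rt 8 9 1 8 9 1)])) (.leaf [(1, .lf 8 0 1 1 8 0), (1, .rt 7 8 0 7 8 0), (1, .pl 6 9 8 7), (1, .pl 0 1 6 8), (1, .pl 0 6 7 9)])) (.pr 6 2 (.leaf [(1, .pl 0 9 2 4), (2, .pl 2 5 4 8), (3, .pl 1 9 3 6), (1, .pl 1 7 2 4), (2, .pl 0 8 3 4), (1, .pl 5 9 8 6), (3, .pl 0 2 7 6), (1, .pl 3 5 4 9), (1, .pl 0 3 7 4), (3, .pl 1 3 8 5), (1, .pl 1 8 7 6), (3, .pl 2 6 5 3), (3, .pl 0 9 8 1), (1, .pl 0 3 2 5), (1, .pl 0 8 2 1), (4, .lf 7 9 0 0 7 9), (4, .rt 6 7 9 6 7 9)]) (.pr 0 2 (.pr 5 2 (.leaf [(3, .pl 0 9 5 4), (6, .ce 2 4 5 2 5 7), (2, .lf 4 6 7 8 4 6), (3, .am 0 5 6 9 1 1), (6, .lf 2 4 5 5 2 4), (1, .am 4 5 8 9 1 1), (4, .am 5 6 7 9 1 1), (6, .lf 7 9 0 0 6 9), (2, .am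 5 6 8 9 1 1), (6, .lf 6 8 9 9 6 7), (3, .lf 6 8 9 9 6 8), (2, .am 4 5 7 9 1 1), (3, .rt 5 6 8 5 6 8), (4, .lf 4 6 7 7 4 6), (6, .rt 5 6 8 5 6 9)]) (.leaf [(178, .am 0 6 8 9 1 1), (80, .lf 4 6 7 7 4 5), (40, .am 4 5 6 7 1 1), (13, .pl 0 2 5 4), (144, .lf 3 5 6 6 3 5), (352, .lf 6 8 9 9 6 8), (32, .am 4 5 8 9 1 1), (91, .am 0 2 6 5 1 1), (384, .lf 4 6 7 7 4 6), (14, .am 4 6 8 9 1 1), (256, .ce 4 6 7 4 7 9), (13, .am 2 4 5 6 1 1), (256, .lf 7 9 0 0 7 9), (78, .pl 0 9 5 4), (92, .am 4 6 7 8 1 1), (208, .lf 2 4 5 5 2 4), (32, .am 4 5 7 9 1 1), (128, .am 5 7 8 9 1 1), (4, .am 0 6 7 8 1 1), (32, .lf 6 8 9 9 6 7), (144, .pl 0 3 7 6), (208, .rt 0 1 3 0 2 3), (104, .pl 0 2 7 6), (224, .lf 5 7 8 8 5 7), (352, .cf 0 1 3 0 3 8)])) (.leaf [(120, .ce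 4 6 7 4 7 8), (10, .am 0 5 6 7 1 1), (4, .am 2 5 4 9 1 1), (19, .pl 3 7 9 8), (48, .lf 6 8 9 9 5 8), (120, .lf 7 9 0 0 7 9), (19, .pl 2 3 9 7), (16, .am 4 6 7 9 1 1), (30, .am 0 2 6 5 1 1), (72, .lf 6 8 9 9 6 8), (120, .lf 6 8 9 9 6 7), (8, .am 2 4 5 6 1 1), (65, .am 0 6 7 9 1 1), (101, .pl 2 3 8 9), (48, .lf 3 5 6 6 2 5), (120, .lf 0 2 3 3 9 2), (20, .am 4 5 7 9 1 1), (72, .lf 2 4 5 5 2 4), (40, .pl 0 9 5 4), (15, .am 0 6 2 9 1 1), (192, .lf 4 6 7 7 4 6), (101, .pl 2 8 6 7)])))))))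

theorem ok_3454655454 : chk C3454655454 ⟨19207115769916701347707678734, [], [], [], [], []⟩ = true := by decide +kernel

end Pool.Agent.H146.TW
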