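import Pool.Agent.H292.TW.Chk3

/-!
Project TWELVE (helper221): certificate tree of one order pattern (helper146).
-/

set_option autoImplicit false
set_option maxRecDepth 100000

namespace Pool.Agent.H146.TW

open Pool.Agent.H292.TW.Chk

def C3543654654_0 : Tr :=
  .pr 2 2 (.pr 1 2 (.leaf [(6, .am 0 6 8 9 1 1), (8, .rt 2 3 5 2 3 6), (7, .pl 0 1 6 5), (7, .pl 1 2 7 6), (8, .am 0 2 3 8 1 1), (9, .pl 1 2 5 6), (4, .pl 0 9 7 4), (4, .rt 6 7 9 6 8 9), (14, .rt 8 9 1 8 9 1), (8, .rt 5 6 8 4 6 8), (2, .am 0 2 8 9 1 1), (20, .rt 9 0 2 9 0 2), (1, .am 0 6 7 8 1 1), (20, .rt 7 8 0 7 8 0), (6, .rt 8 9 1 8 9 2), (16, .rt 1 2 4 1 2 5), (2, .rt 0 1 3 0 2 3), (4, .am 4 7 8 9 1 1), (8, .cf 9 0 2 8 3 7), (8, .pl 0 9 2 5), (8, .rt 1 2 4 1 2 4),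 (16, .rt 5 6 8 5 6 8), (14, .rt 0 1 3 0 1 3), (8, .rt 6 7 9 6 7 9), (8, .ce 4 6 7 4 7 9), (8, .pl 1 2 4 6), (16, .rt 2 3 5 2 5 6), (8, .am 2 5 9 8 1 1), (7, .am 0 1 7 8 1 1)]) (.leaf [(6, .pl 0 9 7 5), (6, .am 5 7 8 9 1 1), (4, .am 0 2 3 9 1 1), (2, .am 0 2 7 8 1 1), (16, .rt 7 8 0 7 8 0), (12, .lf 4 6 7 7 4 5), (6, .rt 2 3 5 2 3 5), (4, .am 0 2 8 9 1 1), (12, .rt 5 6 8 5 6 8), (3, .am 0 1 7 8 1 1), (3, .am 0 1 3 8 1 1), (3, .pl 1 3 7 8), (4, .cf 0 1 3 0 3 8), (16, .rt 9 0 2 9 0 2), (12, .ce 1 3 4 1 5 6), (2, .pl 2 3 7 8), (12, .rt 8 9 1 8 9 1), (2, .am 0 3 8 9 1 1), (12, .ce 4 6 7 4 7 9), (6, .rt 2 3 5 1 3 5), (6, .pl 0 2 1 5), (16, .rt 0 1 3 0 2 3)])) (.pr 1 2 (.leaf [(2, .am 1 5 4 7 1 1), (36, .rt 1 2 4 1 2 4), (11, .pl 1 2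 7 8), (1, .am 4 5 7 8 1 1), (24, .ce 2 4 5 1 5 6), (24, .rt 7 8 0 7 8 0), (16, .am 1 2 4 5 1 1), (3, .am 0 1 2 8 1 1), (8, .am 2 5 4 8 1 1), (36, .lf 2 4 5 5 2 4), (6, .am 0 2 1 5 1 1), (9, .am 0 1 7 8 1 1), (3, .am 0 5 7 8 1 1), (24, .rt 8 9 1 8 0 1), (9, .pl 0 8 5 4), (24, .rt 5 6 8 5 6 8)]) (.pr 3 2 (.ch 1 (.leaf [(13, .am 1 2 4 5 1 1), (4, .am 0 5 7 9 1 1), (2, .am 1 3 8 9 1 1), (8, .rt 5 6 8 5 6 9), (8, .rt 5 6 8 5 6 8), (30, .rt 1 2 4 1 2 4), (2, .pl 2 4 8 7), (6, .pl 0 1 5 4), (8, .rt 9 0 2 9 0 2), (22, .lf 2 4 5 5 2 4), (2, .am 0 5 3 9 1 1), (8, .rt 7 8 0 7 8 0), (4, .am 2 5 9 8 1 1), (15, .rt 3 4 6 2 4 6), (2, .am 0 1 3 9 1 1), (8, .rt 0 1 3 0 1 3), (1, .am 1 3 4 5 1 1), (2, .am 1 7 8 9 1 1), (2, .am 1 5 4 7 1 1), (1,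 .pl 1 3 5 6), (2, .pl 1 3 7 8), (15, .pl 1 2 5 6), (1, .rt 3 4 6 3 4 6), (2, .pl 1 2 7 8), (8, .rt 1 2 4 1 3 4), (8, .rt 8 9 1 8 9 1)]) (.ch 4 (.leaf [(224, .rt 6 7 9 6 7 9), (32, .am 0 5 6 9 1 1), (13, .am 0 3 8 9 1 1), (256, .rt 4 5 7 4 5 7), (32, .rt 5 6 8 5 7 8), (13, .pl 0 9 3 4), (40, .am 0 7 8 9 1 1), (78, .pl 0 9 5 4), (208, .lf 1 3 4 4 1 3), (4, .am 4 6 7 8 1 1), (92, .am 0 6 7 8 1 1), (128, .am 5 6 7 9 1 1), (352, .ce 1 3 4 1 4 6), (91, .am 3 4 9 8 1 1), (32, .am 0 5 7 9 1 1), (80, .rt 7 8 0 7 9 0), (352, .rt 5 6 8 5 6 8), (144, .rt 8 9 1 8 9 1), (14, .am 0 5 6 8 1 1), (256, .cf 7 8 0 7 0 5), (208, .rt 9 0 2 9 0 3), (384, .rt 7 8 0 7 8 0), (104, .pl 3 4 8 7), (144, .pl 1 4 8 7), (178, .am 4 5 6 8 1 1)]) (.leaf [(2, .am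 0 6 7 8 1 1), (4, .lf 4 6 7 7 4 6), (4, .ce 2 4 5 2 5 6), (2, .am 4 5 7 9 1 1), (8, .am 5 6 8 9 1 1), (1, .am 0 5 6 9 1 1), (2, .pl 0 9 5 4), (1, .am 5 6 7 8 1 1), (1, .am 0 5 8 9 1 1), (4, .rt 9 0 2 9 0 2), (10, .lf 6 8 9 9 6 8), (14, .rt 5 6 8 5 6 8), (4, .lf 2 4 5 5 2 4), (4, .lf 6 8 9 9 6 7), (1, .am 6 7 8 9 1 1), (4, .rt 7 8 0 7 8 0), (4, .cf 9 0 2 9 2 7)]) (.pr 4 3 (.leaf [(90, .am 4 5 6 8 1 1), (320, .ce 1 3 4 1 4 6), (200, .rt 4 5 8 4 5 8), (488, .rt 7 8 0 7 8 0), (144, .cf 9 0 2 8 3 7), (212, .pl 1 4 8 7), (212, .rt 8 9 1 8 9 1), (60, .ce 2 4 5 2 5 6), (70, .pl 0 9 5 4), (108, .am 3 4 9 8 1 1), (37, .am 4 7 8 9 1 1), (60, .lf 2 4 5 5 2 4), (36, .cf 0 1 3 0 3 7), (320, .rt 5 6 8 5 6 8), (200, .cf 7 8 0 7 0 5), (36, .am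 0 3 8 9 1 1), (64, .am 0 6 7 8 1 1), (288, .rt 9 0 2 9 0 3), (60, .tb 4 1 2), (108, .lf 1 3 4 4 1 3), (76, .am 0 6 7 9 1 1), (75, .pl 0 9 7 4), (32, .rt 6 7 9 6 8 9), (70, .am 0 5 6 8 1 1), (100, .am 4 5 6 7 1 1), (31, .am 0 7 8 9 1 1)]) (.leaf [(12, .am 0 5 6 8 1 1), (16, .cf 7 8 0 7 0 6), (56, .rt 7 8 0 7 8 0), (3, .am 0 2 8 9 1 1), (28, .ce 2 4 5 1 5 6), (56, .rt 5 6 8 5 6 8), (12, .pl 0 9 5 4), (40, .rt 9 0 2 9 0 2), (28, .lf 2 4 5 5 1 4), (22, .ce 1 3 4 1 4 6), (14, .am 0 6 7 8 1 1), (3, .pl 0 9 2 4), (28, .cf 8 9 1 8 1 7), (20, .lf 1 3 4 4 1 2), (20, .cf 9 0 2 8 2 7), (10, .am 0 7 8 9 1 1), (2, .pl 1 4 8 7), (10, .am 0 6 7 9 1 1), (10, .tb 4 1 2), (17, .am 2 4 9 8 1 1), (2, .pl 0 9 7 4), (18, .lf 4 7 8 8 4 7), (30, .rt 8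 9 1 8 9 1), (16, .am 4 5 6 8 1 1)])) (.leaf [(10, .cf 7 8 0 7 0 4), (24, .pl 2 4 9 7), (2, .pl 0 9 7 4), (24, .lf 1 3 4 4 1 2), (14, .cf 7 8 0 5 0 4), (8, .am 0 5 6 8 1 1), (4, .am 4 5 6 8 1 1), (9, .am 6 7 8 9 1 1), (9, .am 4 5 6 7 1 1), (24, .rt 9 0 2 9 0 2), (6, .am 0 5 7 9 1 1), (27, .c4 4), (24, .ce 1 3 4 1 4 6), (4, .am 0 6 8 9 1 1), (12, .am 5 7 8 9 1 1), (48, .rt 5 6 8 5 6 8), (48, .rt 7 8 0 7 8 0), (12, .am 0 6 7 9 1 1), (3, .lf 4 6 7 7 4 6), (2, .am 4 6 8 9 1 1), (27, .rt 6 7 9 6 7 9)])) (.ch 4 (.leaf [(13, .pl 3 4 8 7), (26, .lf 1 3 4 4 1 3), (32, .rt 5 6 8 5 7 8), (32, .am 0 5 6 9 1 1), (182, .lf 1 3 4 4 1 2), (26, .rt 9 0 2 9 0 3), (128, .am 5 6 7 9 1 1), (352, .rt 5 6 8 5 6 8), (256, .cf 7 8 0 7 0 5), (78, .pl 0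 9 5 4), (32, .am 0 5 7 9 1 1), (256, .rt 4 5 7 4 5 7), (91, .am 2 4 9 8 1 1), (144, .rt 8 9 1 8 9 1), (80, .rt 7 8 0 7 9 0), (40, .am 0 7 8 9 1 1), (144, .pl 1 4 8 7), (91, .pl 2 4 8 7), (4, .am 4 6 7 8 1 1), (224, .rt 6 7 9 6 7 9), (14, .am 0 5 6 8 1 1), (92, .am 0 6 7 8 1 1), (352, .ce 1 3 4 1 4 6), (182, .rt 9 0 2 9 0 2), (13, .pl 0 9 3 4), (13, .am 0 3 8 9 1 1), (178, .am 4 5 6 8 1 1), (384, .rt 7 8 0 7 8 0)]) (.leaf [(4, .rt 7 8 0 7 8 0), (4, .lf 4 6 7 7 4 6), (4, .cf 9 0 2 9 3 7), (8, .am 5 6 8 9 1 1), (4, .ce 2 4 5 1 5 6), (1, .am 6 7 8 9 1 1), (4, .lf 6 8 9 9 6 7), (4, .rt 9 0 2 9 0 3), (14, .rt 5 6 8 5 6 8), (2, .am 4 5 7 9 1 1), (4, .lf 2 4 5 5 1 4), (2, .pl 0 9 5 4), (1, .am 0 5 6 9 1 1), (10, .lf 6 8 9 9 6 8), (2,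 .am 0 6 7 8 1 1), (1, .am 5 6 7 8 1 1), (1, .am 0 5 8 9 1 1)]) (.pr 4 3 (.leaf [(67, .am 0 3 8 9 1 1), (108, .lf 1 3 4 4 1 3), (320, .rt 5 6 8 5 6 8), (41, .am 3 4 9 8 1 1), (32, .rt 6 7 9 6 8 9), (64, .am 0 6 7 8 1 1), (70, .am 0 5 6 8 1 1), (76, .am 0 6 7 9 1 1), (212, .pl 1 4 8 7), (60, .ce 2 4 5 2 5 6), (60, .lf 2 4 5 5 2 4), (320, .ce 1 3 4 1 4 6), (72, .cf 9 0 2 9 3 7), (488, .rt 7 8 0 7 8 0), (108, .cf 9 0 2 8 3 7), (200, .rt 4 5 8 4 5 8), (212, .rt 8 9 1 8 9 1), (67, .pl 0 9 3 4), (288, .rt 9 0 2 9 0 3), (60, .tb 4 1 2), (8, .pl 0 9 7 4), (104, .am 4 7 8 9 1 1), (100, .am 4 5 6 7 1 1), (70, .pl 0 9 5 4), (200, .cf 7 8 0 7 0 5), (90, .am 4 5 6 8 1 1)]) (.leaf [(34, .rt 9 0 2 9 0 3), (8, .cf 8 9 1 8 1 7), (17, .pl 1 4 8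 3), (56, .rt 7 8 0 7 8 0), (18, .lf 4 7 8 8 4 7), (13, .am 0 7 8 9 1 1), (10, .am 0 6 7 9 1 1), (22, .ce 1 3 4 1 4 6), (6, .cf 9 0 2 9 2 7), (12, .pl 0 9 5 4), (6, .rt 9 0 2 9 0 2), (5, .pl 0 1 7 8), (17, .am 3 4 9 8 1 1), (16, .am 4 5 6 8 1 1), (28, .ce 2 4 5 1 5 6), (12, .am 0 5 6 8 1 1), (10, .tb 4 1 2), (16, .cf 7 8 0 7 0 6), (5, .pl 0 9 1 4), (28, .lf 2 4 5 5 1 4), (14, .am 0 6 7 8 1 1), (56, .rt 5 6 8 5 6 8), (30, .rt 8 9 1 8 9 1), (34, .cf 9 0 2 8 3 7)])) (.leaf [(9, .am 4 5 6 7 1 1), (10, .cf 7 8 0 7 0 4), (2, .pl 0 9 3 4), (48, .rt 7 8 0 7 8 0), (2, .pl 0 3 7 9), (12, .am 0 6 7 9 1 1), (6, .am 0 5 7 9 1 1), (3, .lf 4 6 7 7 4 6), (22, .pl 3 4 9 7), (4, .am 4 5 6 8 1 1), (27, .rt 6 7 9 6 7 9), (24, .ce 1 3 4 1 4 6), (48,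 .rt 5 6 8 5 6 8), (27, .c4 4), (14, .cf 7 8 0 5 0 4), (2, .am 4 6 8 9 1 1), (24, .lf 1 3 4 4 1 3), (24, .rt 9 0 2 9 0 3), (8, .am 0 5 6 8 1 1), (12, .am 5 7 8 9 1 1), (4, .am 0 6 8 9 1 1), (9, .am 6 7 8 9 1 1)])) (.ch 4 (.leaf [(352, .ce 1 3 4 1 4 6), (128, .am 5 6 7 9 1 1), (91, .am 3 4 9 8 1 1), (104, .pl 3 4 8 7), (40, .am 0 7 8 9 1 1), (92, .am 0 6 7 8 1 1), (32, .am 0 5 7 9 1 1), (256, .cf 7 8 0 7 0 5), (256, .rt 4 5 7 4 5 7), (78, .pl 0 9 5 4), (208, .lf 1 3 4 4 1 3), (13, .pl 0 9 3 4), (208, .rt 9 0 2 9 0 3), (144, .pl 1 4 8 7), (224, .rt 6 7 9 6 7 9), (80, .rt 7 8 0 7 9 0), (178, .am 4 5 6 8 1 1), (144, .rt 8 9 1 8 9 1), (13, .am 0 3 8 9 1 1), (32, .rt 5 6 8 5 7 8), (32, .am 0 5 6 9 1 1), (384, .rt 7 8 0 7 8 0), (352,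 .rt 5 6 8 5 6 8), (14, .am 0 5 6 8 1 1), (4, .am 4 6 7 8 1 1)]) (.leaf [(4, .lf 6 8 9 9 6 7), (2, .pl 0 9 5 4), (10, .lf 6 8 9 9 6 8), (1, .am 4 5 8 9 1 1), (4, .rt 9 0 2 9 0 3), (8, .am 5 6 8 9 1 1), (2, .am 4 6 7 8 1 1), (4, .lf 2 4 5 5 1 4), (4, .cf 9 0 2 9 3 7), (2, .am 0 5 7 9 1 1), (1, .am 4 5 6 9 1 1), (4, .lf 4 6 7 7 4 6), (4, .rt 7 8 0 7 8 0), (1, .am 5 6 7 8 1 1), (4, .ce 2 4 5 1 5 6), (1, .am 6 7 8 9 1 1), (14, .rt 5 6 8 5 6 8)]) (.pr 4 3 (.leaf [(31, .am 0 7 8 9 1 1), (488, .rt 7 8 0 7 8 0), (100, .am 4 5 6 7 1 1), (320, .rt 5 6 8 5 6 8), (36, .pl 0 9 1 4), (70, .am 0 5 6 8 1 1), (180, .cf 9 0 2 8 2 7), (76, .am 0 6 7 9 1 1), (60, .ce 2 4 5 1 5 6), (36, .am 0 2 8 9 1 1), (90, .am 4 5 6 8 1 1), (36, .pl 0 1 2 8), (288,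 .rt 9 0 2 9 0 2), (60, .lf 2 4 5 5 1 4), (200, .cf 7 8 0 7 0 5), (176, .pl 1 4 8 7), (32, .rt 6 7 9 6 8 9), (64, .am 0 6 7 8 1 1), (200, .rt 4 5 8 4 5 8), (320, .ce 1 3 4 1 4 6), (60, .tb 4 1 2), (108, .am 2 4 9 8 1 1), (108, .lf 1 3 4 4 1 2), (39, .pl 0 9 7 4), (70, .pl 0 9 5 4), (37, .am 4 7 8 9 1 1), (212, .rt 8 9 1 8 9 1)]) (.leaf [(12, .pl 0 9 5 4), (2, .pl 0 9 7 4), (48, .cf 9 0 2 8 3 7), (3, .am 0 3 8 9 1 1), (28, .ce 2 4 5 2 5 6), (3, .pl 0 9 1 4), (18, .lf 4 7 8 8 4 7), (14, .am 0 6 7 8 1 1), (2, .pl 1 4 8 7), (16, .am 4 5 6 8 1 1), (16, .cf 7 8 0 7 0 6), (5, .rt 8 9 1 8 9 1), (17, .am 3 4 9 8 1 1), (10, .am 0 6 7 9 1 1), (56, .rt 5 6 8 5 6 8), (28, .lf 2 4 5 5 2 4), (12, .am 0 5 6 8 1 1), (10, .am 0 7 8 9 1 1), (3, .pl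 0 1 3 8), (22, .ce 1 3 4 1 4 6), (17, .lf 1 3 4 4 1 3), (10, .tb 4 1 2), (40, .rt 9 0 2 9 0 3), (25, .rt 8 9 1 8 9 3), (56, .rt 7 8 0 7 8 0)])) (.leaf [(4, .am 0 6 8 9 1 1), (9, .am 4 5 6 7 1 1), (3, .lf 4 6 7 7 4 6), (2, .pl 0 9 5 4), (48, .rt 5 6 8 5 6 8), (24, .pl 2 4 9 7), (12, .am 0 6 7 9 1 1), (12, .cf 7 8 0 7 0 4), (27, .c4 4), (6, .am 0 5 7 9 1 1), (12, .cf 7 8 0 5 0 4), (24, .lf 1 3 4 4 1 2), (4, .am 4 5 6 8 1 1), (27, .rt 6 7 9 6 7 9), (9, .am 6 7 8 9 1 1), (24, .rt 9 0 2 9 0 2), (48, .rt 7 8 0 7 8 0), (24, .ce 1 3 4 1 4 6), (12, .am 5 7 8 9 1 1), (2, .am 4 6 8 9 1 1), (8, .am 0 5 6 8 1 1)]))) (.ch 3 (.ch 4 (.leaf [(32, .rt 5 6 8 5 7 8), (352, .rt 5 6 8 5 6 8), (80, .rt 7 8 0 7 9 0), (4, .am 4 6 7 8 1 1), (208, .lf 1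 3 4 4 1 3), (13, .pl 0 9 3 4), (256, .rt 4 5 7 4 5 7), (384, .rt 7 8 0 7 8 0), (14, .am 0 5 6 8 1 1), (32, .am 0 5 6 9 1 1), (13, .am 0 3 8 9 1 1), (208, .rt 9 0 2 9 0 3), (32, .am 0 5 7 9 1 1), (40, .am 0 7 8 9 1 1), (178, .am 4 5 6 8 1 1), (352, .ce 1 3 4 1 4 6), (224, .rt 6 7 9 6 7 9), (128, .am 5 6 7 9 1 1), (91, .am 3 4 9 8 1 1), (256, .cf 7 8 0 7 0 5), (92, .am 0 6 7 8 1 1), (144, .pl 1 4 8 7), (144, .rt 8 9 1 8 9 1), (78, .pl 0 9 5 4), (104, .pl 3 4 8 7)]) (.leaf [(2, .ce 2 4 5 1 5 6), (2, .lf 6 8 9 9 6 7), (1, .am 6 7 8 9 1 1), (5, .lf 6 8 9 9 6 8), (2, .lf 4 6 7 7 4 6), (1, .pl 0 9 5 4), (4, .am 5 6 8 9 1 1), (1, .am 4 5 7 9 1 1), (2, .rt 9 0 2 9 0 3), (2, .cf 9 0 2 9 3 7), (7, .rt 5 6 8 5 6 8), (1, .am 0 5 7 9 1 1),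 (2, .lf 2 4 5 5 1 4), (2, .rt 7 8 0 7 8 0), (1, .am 5 6 7 8 1 1)]) (.pr 4 3 (.leaf [(75, .pl 0 1 7 8), (100, .am 4 5 6 7 1 1), (32, .rt 6 7 9 6 8 9), (60, .lf 2 4 5 5 2 4), (90, .am 4 5 6 8 1 1), (36, .rt 8 9 1 8 9 3), (180, .cf 9 0 2 8 3 7), (70, .am 0 5 6 8 1 1), (320, .ce 1 3 4 1 4 6), (488, .rt 7 8 0 7 8 0), (67, .am 0 7 8 9 1 1), (70, .pl 0 9 5 4), (200, .cf 7 8 0 7 0 5), (288, .rt 9 0 2 9 0 3), (144, .lf 1 3 4 4 1 3), (76, .am 0 6 7 9 1 1), (320, .rt 5 6 8 5 6 8), (101, .pl 1 4 8 7), (144, .am 3 4 9 8 1 1), (64, .am 0 6 7 8 1 1), (75, .pl 0 9 1 4), (1, .am 4 7 8 9 1 1), (176, .rt 8 9 1 8 9 1), (200, .rt 4 5 8 4 5 8), (60, .ce 2 4 5 2 5 6), (60, .tb 4 1 2)]) (.leaf [(28, .ce 2 4 5 1 5 6), (12, .pl 0 9 5 4), (7, .am 3 4 9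 8 1 1), (56, .rt 7 8 0 7 8 0), (5, .pl 0 1 7 8), (10, .am 0 6 7 9 1 1), (28, .lf 2 4 5 5 1 4), (16, .cf 7 8 0 7 0 6), (40, .rt 9 0 2 9 0 3), (12, .am 0 5 6 8 1 1), (30, .rt 8 9 1 8 9 1), (18, .lf 4 7 8 8 4 7), (10, .pl 1 4 8 7), (15, .cf 8 9 1 8 1 7), (16, .am 4 5 6 8 1 1), (13, .am 0 3 8 9 1 1), (7, .lf 1 3 4 4 1 3), (22, .ce 1 3 4 1 4 6), (56, .rt 5 6 8 5 6 8), (10, .tb 4 1 2), (20, .cf 9 0 2 8 3 7), (13, .cf 0 1 3 0 3 7), (5, .pl 0 9 1 4), (14, .am 0 6 7 8 1 1), (10, .am 4 7 8 9 1 1)])) (.leaf [(12, .am 0 6 7 9 1 1), (9, .am 4 5 6 7 1 1), (9, .am 6 7 8 9 1 1), (10, .cf 7 8 0 7 0 4), (6, .am 0 5 7 9 1 1), (12, .am 5 7 8 9 1 1), (8, .am 0 5 6 8 1 1), (2, .pl 0 2 7 9), (4, .am 0 6 8 9 1 1), (24, .rt 9 0 2 9 0 2), (14, .cf 7 8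 0 5 0 4), (22, .pl 2 4 9 7), (2, .pl 0 9 2 4), (4, .am 4 5 6 8 1 1), (48, .rt 7 8 0 7 8 0), (24, .ce 1 3 4 1 4 6), (27, .rt 6 7 9 6 7 9), (24, .lf 1 3 4 4 1 2), (27, .c4 4), (48, .rt 5 6 8 5 6 8), (2, .am 4 6 8 9 1 1), (3, .lf 4 6 7 7 4 6)])) (.leaf [(40, .ce 2 4 5 2 5 6), (40, .rt 6 7 9 6 7 9), (40, .lf 5 7 8 8 5 7), (28, .pl 1 4 8 7), (24, .cf 8 9 1 8 1 7), (40, .lf 2 4 5 5 2 4), (3, .am 4 5 6 9 1 1), (40, .am 5 7 8 9 1 1), (68, .rt 9 0 2 9 0 3), (17, .pl 0 9 5 4), (40, .lf 4 6 7 7 4 5), (20, .am 4 5 6 8 1 1), (12, .cf 9 0 2 8 3 7), (12, .am 3 4 9 8 1 1), (52, .rt 8 9 1 8 9 1), (4, .am 4 6 7 8 1 1), (40, .ce 1 3 4 1 4 6), (34, .am 0 6 7 9 1 1), (12, .lf 1 3 4 4 1 3), (17, .am 0 5 6 9 1 1), (2, .am 4 6 7 9 1 1), (12, .rt 6 7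 9 6 8 9), (68, .rt 7 8 0 7 8 0), (80, .rt 5 6 8 5 6 8), (44, .cf 9 0 2 9 3 7)]) (.leaf [(1, .pl 3 4 9 7), (1, .cf 7 8 0 7 0 5), (1, .rt 9 0 2 9 0 3), (1, .tb 3 1 2), (1, .am 4 5 6 9 1 1), (2, .rt 7 8 0 7 8 0), (1, .rt 6 7 9 6 8 9), (1, .lf 4 6 7 7 4 6), (1, .rt 8 9 1 8 9 1), (2, .ce 1 3 4 1 4 6), (1, .am 5 6 7 9 1 1), (1, .pl 0 9 1 4), (1, .lf 2 4 5 5 2 3), (1, .am 5 7 8 9 1 1), (1, .pl 0 1 7 8), (1, .lf 1 3 4 4 1 3), (1, .lf 2 4 5 5 2 4), (2, .ce 2 4 5 2 5 6)]) (.leaf [(3, .am 0 5 7 9 1 1), (18, .lf 4 6 7 7 4 5), (7, .am 4 5 7 9 1 1), (4, .lf 2 4 5 5 2 4), (16, .cf 8 9 1 8 1 7), (32, .rt 5 6 8 5 6 8), (4, .pl 0 2 6 5), (4, .pl 0 9 3 4), (24, .ce 2 4 5 1 5 6), (16, .rt 8 9 1 8 9 1), (24, .lf 2 4 5 5 1 4), (14, .rt 9 0 2 9 0 3),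 (14, .pl 3 4 9 7), (3, .pl 0 9 5 4), (16, .rt 6 7 9 6 7 9), (4, .rt 0 1 3 0 2 3), (14, .rt 7 8 0 7 8 0), (18, .c4 3), (16, .am 5 7 8 9 1 1), (10, .lf 4 6 7 7 4 6), (4, .am 0 6 7 9 1 1), (4, .am 5 6 7 9 1 1)]))))

def C3543654654_1 : Tr :=
  .ch 4 (.leaf [(1, .am 0 5 8 9 1 1), (3, .pl 0 9 5 4), (3, .am 4 5 8 9 1 1), (12, .lf 5 7 8 8 5 7), (12, .rt 4 5 7 4 5 7), (4, .cf 9 0 2 9 2 7), (2, .am 0 5 7 8 1 1), (4, .rt 7 8 0 7 9 0), (8, .rt 6 7 9 5 7 9), (4, .rt 8 9 1 8 9 2), (4, .cf 9 0 2 8 2 7), (6, .am 4 5 7 8 1 1), (4, .rt 9 0 2 9 0 2)]) (.ch 5 (.leaf [(48, .rt 7 8 0 7 8 0), (16, .am 0 6 7 8 1 1), (32, .am 3 4 9 8 1 1), (40, .rt 5 6 8 4 6 8), (13, .tb 1 1 2), (48, .rt 2 3 5 1 3 5), (8, .lf 5 7 8 9 4 5), (24, .lf 5 7 8 8 4 5), (9,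 .ta 1 1 2), (16, .pl 3 4 8 7), (18, .pl 1 3 4 6), (8, .am 0 6 8 9 1 1), (40, .pl 0 9 3 4), (16, .lf 4 6 7 7 4 5), (8, .pl 1 3 5 6), (40, .rt 0 1 3 0 1 3), (16, .rt 6 7 9 6 7 0), (24, .am 5 6 8 9 1 1), (64, .lf 6 8 9 9 6 8), (16, .cf 9 0 2 8 3 7), (64, .rt 9 0 2 9 0 3), (16, .pl 0 9 7 5), (72, .rt 5 6 8 5 6 8), (40, .pl 0 1 6 5)]) (.leaf [(1, .lf 7 9 0 0 7 9), (1, .pl 5 9 7 6), (1, .pl 0 8 7 4), (1, .rt 6 7 9 6 7 9), (1, .pl 4 9 7 5), (1, .pl 0 9 8 4)]) (.br 0 5 2 7 2 1 (.pr 5 4 (.leaf [(66, .rt 9 0 2 9 0 2), (4, .pl 0 7 3 5), (33, .am 0 2 8 9 1 1), (22, .am 0 6 7 9 1 1), (27, .lf 4 6 7 7 4 5), (15, .ce 4 6 7 4 7 8), (9, .lf 6 8 9 9 6 8), (15, .tb 5 1 2), (4, .pl 0 1 6 5), (4, .tb 1 1 2), (101, .rt 0 1 3 0 2 3), (35, .rt 6 7 9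 6 7 9), (39, .cf 0 1 3 0 3 8), (5, .am 0 5 6 7 1 1), (8, .pl 0 2 6 5), (4, .rt 0 1 3 0 1 3), (34, .am 0 2 7 8 1 1), (8, .rt 2 3 5 2 3 5), (12, .pl 0 7 3 4), (21, .rt 5 6 0 5 6 0), (50, .cf 0 1 3 0 3 7), (4, .pl 3 4 5 6), (11, .am 0 7 8 9 1 1), (26, .ex 0), (35, .rt 8 9 1 8 9 2), (8, .pl 2 3 7 6), (4, .rt 2 3 5 1 3 5)]) (.br 0 3 1 4 1 2 (.br 1 5 4 9 1 2 (.leaf [(6, .cf 0 1 3 0 3 8), (2, .ex 0), (16, .rt 0 1 3 0 2 3), (4, .rt 8 9 1 8 9 1), (8, .rt 6 7 9 5 7 9), (4, .am 0 5 7 9 1 1), (2, .am 1 3 8 4 1 1), (2, .am 0 7 8 9 1 1), (6, .am 0 2 8 9 1 1), (5, .ex 2), (4, .rt 8 9 1 8 9 2), (2, .rt 2 3 5 1 3 5), (6, .lf 4 6 7 7 4 5), (10, .cf 0 1 3 0 3 7), (12, .rt 9 0 2 9 0 2), (4, .ex 1), (2, .cf 9 0 2 8 3 7), (4, .rt 0 1 3 0 1 3), (5,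 .am 0 2 7 8 1 1), (4, .tb 5 1 2), (2, .pl 4 9 8 5), (1, .am 0 5 7 8 1 1), (6, .ce 4 6 7 4 7 8)]) (.br 1 3 4 5 1 1 (.leaf [(12, .rt 8 9 1 8 9 1), (6, .am 0 2 8 9 1 1), (4, .ce 4 6 7 4 7 8), (4, .tb 5 1 2), (8, .cf 0 1 3 0 3 8), (3, .am 0 5 7 8 1 1), (3, .am 0 2 7 8 1 1), (4, .lf 4 6 7 7 4 5), (6, .am 0 5 8 9 1 1), (12, .rt 0 1 3 0 1 3), (6, .pl 0 1 5 4), (12, .rt 6 7 9 5 7 9), (16, .cf 0 1 3 0 3 7), (6, .ex 0), (12, .rt 0 1 3 0 2 3), (3, .ex 3), (12, .rt 9 0 2 9 0 2), (6, .pl 1 3 7 5), (6, .am 0 1 7 8 1 1)]) (.br 1 6 4 7 1 1 (.pr 1 4 (.leaf [(39, .am 0 2 7 8 1 1), (78, .am 0 2 8 9 1 1), (9, .ex 1), (27, .ex 0), (52, .tb 5 1 2), (96, .rt 6 7 9 5 7 9), (70, .lf 4 6 7 7 4 5), (71, .cf 0 1 3 0 3 8), (27, .rt 1 2 6 1 2 6), (108, .rt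 8 9 1 8 9 1), (30, .am 0 7 8 9 1 1), (18, .rt 2 3 5 2 3 5), (148, .cf 0 1 3 0 3 7), (54, .am 0 1 7 8 1 1), (48, .am 0 5 7 9 1 1), (85, .ce 4 6 7 4 7 8), (18, .am 0 1 2 3 1 1), (9, .pl 1 3 7 5), (27, .pl 1 3 7 4), (108, .rt 0 1 3 0 1 3), (12, .ce 4 6 7 4 7 9), (27, .lf 4 6 7 7 4 6), (48, .ex 4), (9, .am 1 2 7 5 1 1), (156, .rt 9 0 2 9 0 2), (36, .ex 3), (129, .rt 0 1 3 0 2 3)]) (.leaf [(36, .ex 2), (192, .rt 8 9 1 8 9 1), (126, .lf 1 5 6 6 1 5), (280, .cf 0 1 3 0 3 7), (142, .ce 4 6 7 4 7 8), (180, .rt 2 3 5 1 3 5), (24, .am 0 1 8 9 1 1), (225, .ex 0), (12, .am 0 6 7 9 1 1), (36, .am 4 5 6 7 1 1), (84, .am 1 6 5 9 1 1), (243, .ex 3), (142, .lf 4 6 7 7 4 5), (63, .tb 1 1 2), (6, .am 0 1 6 5 1 1), (132, .am 0 2 8 9 1 1), (88, .tb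 5 1 2), (108, .pl 1 3 7 6), (192, .rt 6 7 9 6 7 9), (36, .am 0 7 8 9 1 1), (108, .am 0 1 7 8 1 1), (66, .am 0 2 7 8 1 1), (264, .rt 9 0 2 9 0 2), (60, .am 0 5 7 9 1 1), (9, .am 1 3 4 6 1 1), (189, .lf 4 6 7 7 4 6), (66, .ex 4), (122, .cf 0 1 3 0 3 8), (264, .rt 0 1 3 0 2 3), (381, .rt 0 1 3 0 1 3)])) (.leaf [(1, .am 0 5 7 8 1 1), (4, .tb 5 1 2), (12, .rt 8 9 1 8 9 1), (6, .am 0 1 7 8 1 1), (8, .rt 6 7 9 6 7 9), (4, .ce 4 6 7 4 7 8), (12, .rt 9 0 2 9 0 2), (3, .ex 4), (16, .cf 0 1 3 0 3 7), (4, .lf 4 6 7 7 4 5), (12, .rt 0 1 3 0 1 3), (6, .ex 0), (4, .rt 6 7 9 5 7 9), (4, .am 0 6 8 9 1 1), (12, .rt 0 1 3 0 2 3), (6, .pl 0 1 6 4), (2, .am 0 5 8 9 1 1), (6, .am 0 2 8 9 1 1), (2, .am 0 6 7 8 1 1), (3, .am 0 2 7 8 1 1), (8, .cf 0 1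 3 0 3 8)])))) (.br 0 3 2 6 1 1 (.leaf [(20, .rt 0 1 3 0 2 3), (4, .ex 2), (12, .cf 0 1 3 0 3 7), (4, .lf 4 6 7 7 4 5), (8, .rt 6 7 9 5 7 9), (3, .pl 2 3 7 6), (3, .lf 4 6 7 7 4 6), (4, .am 0 5 7 9 1 1), (3, .rt 2 3 5 2 3 6), (2, .am 0 7 8 9 1 1), (6, .am 0 2 8 9 1 1), (7, .am 0 2 7 8 1 1), (3, .ex 0), (8, .rt 8 9 1 8 9 2), (7, .ce 4 6 7 4 7 8), (4, .tb 5 1 2), (5, .cf 0 1 3 0 3 8), (12, .rt 9 0 2 9 0 2)]) (.leaf [(12, .rt 9 0 2 9 0 2), (6, .am 0 2 8 9 1 1), (24, .rt 0 1 3 0 2 3), (9, .ex 0), (9, .pl 2 3 7 6), (12, .rt 6 7 9 6 7 9), (6, .am 0 6 8 9 1 1), (4, .tb 5 1 2), (12, .rt 8 9 1 8 9 2), (8, .cf 0 1 3 0 3 8), (4, .ce 4 6 7 4 7 8), (16, .cf 0 1 3 0 3 7), (9, .am 0 2 7 8 1 1), (3, .am 0 6 7 8 1 1), (4, .lf 4 6 7 7 4 5)]))))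 (.leaf [(26, .lf 4 6 7 7 4 5), (24, .ce 4 6 7 4 7 9), (12, .am 0 2 8 9 1 1), (8, .tb 5 1 2), (18, .rt 2 3 5 2 3 5), (22, .cf 0 1 3 0 3 8), (48, .rt 0 1 3 0 2 3), (12, .am 0 7 8 9 1 1), (18, .ex 0), (2, .ce 4 6 7 4 7 8), (5, .pl 2 3 7 8), (13, .am 0 2 3 8 1 1), (24, .rt 8 9 1 8 9 2), (24, .rt 9 0 2 9 0 2), (5, .am 0 2 7 8 1 1), (8, .cf 9 0 2 8 3 7)])) (.leaf [(12, .lf 4 6 7 7 4 6), (47, .rt 6 7 9 6 7 9), (23, .am 0 6 7 9 1 1), (3, .pl 1 4 5 6), (22, .am 0 1 3 8 1 1), (11, .cf 9 0 2 8 3 7), (44, .rt 8 9 1 8 9 1), (12, .pl 3 4 8 7), (8, .rt 2 3 5 2 3 5), (25, .pl 0 1 6 5), (3, .lf 6 8 9 9 6 8), (3, .rt 7 8 0 7 9 0), (1, .am 0 3 8 9 1 1), (10, .am 0 7 8 9 1 1), (36, .c4 5), (2, .am 0 6 3 9 1 1), (33, .rt 7 8 0 7 8 0), (3, .rt 2 3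 5 1 4 5), (47, .rt 0 1 3 0 1 3), (25, .rt 2 3 5 1 3 5), (8, .pl 2 3 5 6), (3, .tb 1 1 2)])) (.ch 5 (.leaf [(2, .am 0 2 7 8 1 1), (4, .rt 2 3 5 2 3 5), (4, .am 4 7 8 9 1 1), (28, .rt 8 9 1 8 9 1), (16, .pl 0 8 3 4), (27, .rt 5 6 8 5 6 8), (9, .tb 1 1 2), (12, .rt 9 0 2 9 0 2), (12, .rt 0 1 3 0 2 3), (6, .am 0 2 8 9 1 1), (2, .pl 2 3 7 6), (4, .pl 0 2 6 5), (6, .pl 0 1 6 5), (8, .cf 9 0 2 8 3 7), (4, .tb 4 1 2), (14, .am 0 1 7 8 1 1), (23, .rt 2 3 5 1 3 5), (8, .am 3 4 9 8 1 1), (4, .ce 4 6 7 4 7 9), (12, .rt 6 7 9 6 8 9), (16, .rt 9 0 2 9 0 3), (17, .ce 1 3 4 1 5 6), (12, .pl 0 9 3 4), (27, .lf 5 7 8 8 4 5), (13, .rt 5 6 8 4 6 8), (14, .pl 1 3 7 6), (4, .cf 0 1 3 0 3 7), (10, .am 0 6 8 9 1 1), (20, .rt 0 1 3 0 1 3), (28, .rt 7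 8 0 7 8 0), (2, .pl 2 3 8 6)]) (.leaf [(1, .pl 5 9 7 6), (1, .pl 4 9 7 5), (1, .lf 7 9 0 0 7 9), (1, .rt 6 7 9 6 7 9), (1, .pl 0 9 7 4)]) (.br 0 5 2 7 2 1 (.pr 4 4 (.leaf [(2, .cf 0 1 3 0 3 8), (34, .rt 7 8 0 7 9 0), (2, .tb 5 1 2), (10, .ce 1 3 4 1 4 6), (10, .am 0 6 7 9 1 1), (16, .am 0 2 8 9 1 1), (10, .pl 0 5 6 7), (5, .pl 0 1 2 7), (46, .rt 9 0 2 9 0 2), (10, .tb 4 1 2), (11, .am 0 2 7 8 1 1), (20, .rt 4 5 9 4 5 9), (20, .pl 4 5 6 7), (16, .ex 0), (38, .rt 0 1 3 0 2 3), (36, .cf 0 1 3 0 3 7), (10, .rt 8 9 1 8 9 1), (5, .am 0 1 7 8 1 1), (10, .ce 4 6 7 4 7 8), (6, .ta 5 1 2), (6, .am 0 5 7 8 1 1), (10, .pl 0 9 1 4), (10, .pl 0 9 7 4), (6, .rt 8 9 1 8 9 2), (14, .cf 9 0 2 9 2 7)]) (.pr 5 4 (.leaf [(18, .rt 0 1 3 0 1 3), (9,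 .am 0 1 7 8 1 1), (17, .cf 0 1 3 0 3 8), (9, .am 0 6 7 9 1 1), (9, .rt 3 4 6 3 5 6), (18, .rt 6 7 9 6 7 9), (9, .pl 0 1 6 5), (9, .ex 0), (9, .am 0 2 7 8 1 1), (7, .lf 4 6 7 7 4 5), (9, .pl 1 3 7 6), (9, .rt 2 3 5 1 3 5), (25, .cf 0 1 3 0 3 7), (6, .am 0 7 8 9 1 1), (3, .ce 4 6 7 4 7 9), (15, .am 0 2 8 9 1 1), (7, .tb 5 1 2), (9, .pl 0 7 3 5), (4, .ce 4 6 7 4 7 8), (33, .rt 0 1 3 0 2 3), (30, .rt 9 0 2 9 0 2), (3, .rt 8 9 1 8 9 2), (18, .rt 8 9 1 8 9 1), (9, .rt 5 6 0 5 6 0)]) (.pr 5 3 (.leaf [(6, .pl 1 3 5 6), (3, .am 0 5 7 9 1 1), (2, .tb 5 1 2), (12, .rt 9 0 2 9 0 2), (12, .rt 5 6 9 5 6 9), (18, .rt 0 1 3 0 2 3), (3, .tb 1 1 2), (2, .cf 0 1 3 0 3 7), (3, .pl 3 4 9 7), (3, .pl 3 4 5 6), (4, .cf 0 1 3 0 3 8), (6, .am 0 2 8 9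 1 1), (6, .rt 7 8 0 7 9 0), (3, .am 0 5 3 9 1 1), (9, .rt 2 3 5 1 3 5), (2, .ce 4 6 7 4 7 8), (6, .rt 8 9 1 8 9 2), (6, .ex 0), (6, .pl 0 7 3 4), (11, .lf 4 6 7 7 4 5), (3, .ce 1 3 4 1 5 6), (6, .am 0 2 7 8 1 1)]) (.br 0 3 1 4 1 2 (.br 1 6 4 7 2 1 (.pr 1 4 (.leaf [(27, .rt 1 2 6 1 2 6), (129, .rt 0 1 3 0 2 3), (71, .cf 0 1 3 0 3 8), (156, .rt 9 0 2 9 0 2), (30, .am 0 7 8 9 1 1), (96, .rt 6 7 9 5 7 9), (36, .ex 0), (18, .am 0 1 2 3 1 1), (54, .am 0 1 7 8 1 1), (18, .rt 2 3 5 2 3 6), (36, .pl 1 3 7 4), (45, .lf 4 6 7 7 4 6), (39, .am 0 2 7 8 1 1), (48, .ex 2), (85, .ce 4 6 7 4 7 8), (9, .am 1 2 7 6 1 1), (36, .ex 1), (48, .am 0 5 7 9 1 1), (148, .cf 0 1 3 0 3 7), (78, .am 0 2 8 9 1 1), (52, .lf 4 6 7 7 4 5), (108, .rt 8 9 1 8 9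 1), (12, .ce 4 6 7 4 7 9), (52, .tb 5 1 2), (108, .rt 0 1 3 0 1 3)]) (.leaf [(48, .pl 1 3 7 4), (27, .ex 2), (96, .rt 8 9 1 8 9 1), (54, .ex 0), (3, .lf 1 3 4 6 1 2), (126, .rt 0 1 3 0 1 3), (140, .cf 0 1 3 0 3 7), (129, .rt 0 1 3 0 2 3), (24, .am 0 1 6 5 1 1), (36, .am 0 6 7 9 1 1), (3, .am 0 2 6 5 1 1), (71, .ce 4 6 7 4 7 8), (48, .am 0 1 7 8 1 1), (6, .pl 2 3 7 4), (33, .am 0 2 7 8 1 1), (54, .ex 1), (96, .rt 6 7 9 6 7 9), (48, .rt 2 3 5 1 3 5), (27, .lf 1 5 6 6 1 5), (66, .am 0 2 8 9 1 1), (18, .am 0 7 8 9 1 1), (6, .rt 2 3 5 2 3 5), (132, .rt 9 0 2 9 0 2), (12, .am 0 6 8 9 1 1), (61, .cf 0 1 3 0 3 8), (71, .lf 4 6 7 7 4 5), (44, .tb 5 1 2), (6, .am 0 6 7 8 1 1)])) (.leaf [(4, .ce 4 6 7 4 7 8), (1, .am 0 5 7 8 1 1), (2, .am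 0 6 7 8 1 1), (6, .am 0 2 8 9 1 1), (12, .rt 9 0 2 9 0 2), (3, .ex 2), (6, .pl 0 1 6 4), (12, .rt 0 1 3 0 1 3), (4, .tb 5 1 2), (8, .cf 0 1 3 0 3 8), (8, .rt 6 7 9 6 7 9), (3, .am 0 2 7 8 1 1), (12, .rt 8 9 1 8 9 1), (2, .am 0 5 8 9 1 1), (4, .lf 4 6 7 7 4 5), (12, .rt 0 1 3 0 2 3), (4, .rt 6 7 9 5 7 9), (4, .am 0 6 8 9 1 1), (6, .ex 0), (6, .am 0 1 7 8 1 1), (16, .cf 0 1 3 0 3 7)])) (.br 0 3 2 6 1 1 (.leaf [(3, .pl 2 3 7 6), (8, .rt 8 9 1 8 9 2), (4, .lf 4 6 7 7 4 5), (4, .ex 2), (3, .rt 2 3 5 2 3 6), (7, .ce 4 6 7 4 7 8), (4, .am 0 5 7 9 1 1), (3, .lf 4 6 7 7 4 6), (3, .ex 0), (8, .rt 6 7 9 5 7 9), (5, .cf 0 1 3 0 3 8), (12, .cf 0 1 3 0 3 7), (2, .am 0 7 8 9 1 1), (12, .rt 9 0 2 9 0 2), (7, .am 0 2 7 8 1 1), (20, .rt 0 1 3 0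 2 3), (4, .tb 5 1 2), (6, .am 0 2 8 9 1 1)]) (.leaf [(4, .ce 4 6 7 4 7 8), (16, .cf 0 1 3 0 3 7), (6, .am 0 2 8 9 1 1), (12, .rt 6 7 9 6 7 9), (4, .lf 4 6 7 7 4 5), (4, .tb 5 1 2), (8, .cf 0 1 3 0 3 8), (12, .rt 8 9 1 8 9 2), (9, .ex 0), (24, .rt 0 1 3 0 2 3), (9, .am 0 2 7 8 1 1), (9, .pl 2 3 7 6), (3, .am 0 6 7 8 1 1), (12, .rt 9 0 2 9 0 2), (6, .am 0 6 8 9 1 1)])))))) (.leaf [(2, .ce 4 6 7 4 7 8), (5, .pl 2 3 7 8), (26, .lf 4 6 7 7 4 5), (24, .rt 8 9 1 8 9 2), (12, .am 0 7 8 9 1 1), (8, .tb 5 1 2), (8, .cf 9 0 2 8 3 7), (24, .ce 4 6 7 4 7 9), (24, .rt 9 0 2 9 0 2), (18, .rt 2 3 5 2 3 5), (5, .am 0 2 7 8 1 1), (18, .ex 0), (13, .am 0 2 3 8 1 1), (12, .am 0 2 8 9 1 1), (48, .rt 0 1 3 0 2 3), (22, .cf 0 1 3 0 3 8)])) (.leaf [(5,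 .rt 2 3 5 1 4 5), (34, .rt 7 8 0 7 8 0), (8, .tb 4 1 2), (2, .pl 4 9 6 5), (12, .am 0 7 8 9 1 1), (1, .tb 1 1 2), (24, .rt 6 7 9 6 7 9), (2, .pl 4 7 6 5), (5, .pl 1 4 5 6), (20, .am 0 6 7 9 1 1), (21, .am 0 1 3 8 1 1), (1, .pl 1 3 7 8), (4, .lf 5 7 8 8 5 7), (2, .pl 3 4 8 7), (44, .rt 0 1 3 0 1 3), (2, .pl 1 3 7 6), (34, .c4 5), (3, .am 0 1 7 8 1 1), (2, .pl 0 9 3 4), (18, .cf 9 0 2 8 3 7), (2, .am 5 7 8 9 1 1), (20, .pl 0 1 6 5), (25, .rt 2 3 5 1 3 5), (5, .ce 1 3 4 1 5 6), (48, .rt 8 9 1 8 9 1)])) (.ch 5 (.leaf [(7, .am 0 6 7 8 1 1), (14, .tb 1 1 2), (25, .am 4 5 7 9 1 1), (12, .rt 0 1 3 0 2 3), (37, .lf 5 7 8 8 4 7), (7, .am 4 5 6 8 1 1), (86, .rt 7 8 0 7 8 0), (29, .ce 1 3 4 1 5 6), (5, .ta 1 1 2), (33, .am 0 5 7 9 1 1), (17,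 .am 3 4 9 8 1 1), (5, .am 3 4 5 6 1 1), (12, .pl 0 9 3 4), (5, .am 4 6 8 9 1 1), (24, .rt 2 3 5 1 3 5), (6, .am 0 2 8 9 1 1), (74, .rt 9 0 2 9 0 3), (30, .lf 5 7 8 8 5 7), (37, .pl 3 4 8 7), (2, .am 0 5 6 8 1 1), (10, .rt 6 7 9 6 7 9), (33, .rt 2 3 5 2 3 5), (77, .c4 4), (29, .am 5 7 8 9 1 1), (35, .pl 0 9 5 4), (5, .am 1 3 4 5 1 1), (67, .rt 5 6 8 5 6 9), (20, .am 3 5 9 8 1 1), (87, .lf 4 6 7 7 4 5), (3, .pl 0 2 6 5), (3, .pl 2 3 7 6), (30, .pl 2 3 5 6), (3, .am 0 2 7 8 1 1), (12, .rt 9 0 2 9 0 2), (86, .rt 5 6 8 5 6 8)]) (.leaf [(1, .rt 6 7 9 6 7 9), (1, .pl 0 9 7 4), (1, .pl 4 9 7 5), (1, .lf 7 9 0 0 7 9), (1, .pl 5 9 8 6), (1, .pl 5 8 7 6)]) (.br 0 3 2 5 1 2 (.leaf [(12, .rt 9 0 2 9 0 2), (1, .ce 4 6 7 4 7 8), (12, .ce 4 6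 7 4 7 9), (6, .am 0 2 8 9 1 1), (9, .pl 2 3 7 5), (24, .rt 0 1 3 0 2 3), (9, .rt 2 3 5 2 3 5), (4, .tb 5 1 2), (11, .cf 0 1 3 0 3 8), (9, .am 0 2 7 8 1 1), (13, .lf 4 6 7 7 4 5), (6, .am 0 7 8 9 1 1), (12, .rt 8 9 1 8 9 2), (4, .cf 0 1 3 0 3 7), (9, .ex 0)]) (.pr 5 3 (.leaf [(3, .am 0 5 7 9 1 1), (13, .ta 5 1 2), (22, .rt 9 0 2 9 0 3), (11, .pl 0 9 5 4), (10, .am 4 5 8 9 1 1), (42, .lf 4 6 7 7 4 5), (22, .cf 9 0 2 9 3 8), (42, .c4 4), (20, .am 4 5 7 8 1 1), (3, .tb 5 1 2), (42, .rt 5 6 9 5 6 9), (1, .am 4 5 7 9 1 1), (2, .am 5 7 8 9 1 1), (8, .am 0 5 8 9 1 1)]) (.pr 5 4 (.leaf [(164, .am 0 7 8 9 1 1), (164, .am 0 2 7 8 1 1), (404, .ta 5 1 2), (416, .cf 0 1 3 0 3 8), (208, .pl 2 3 7 5), (612, .rt 0 1 3 0 1 3), (38, .am 0 5 7 9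 1 1), (486, .am 0 2 7 9 1 1), (238, .pl 0 1 2 3), (884, .rt 6 7 9 6 7 9), (1628, .rt 9 0 2 9 0 2), (888, .ex 0), (328, .am 0 2 8 9 1 1), (442, .am 4 6 7 9 1 1), (1224, .lf 4 6 7 7 4 5), (1212, .cf 0 1 3 0 3 7), (1224, .rt 5 6 0 5 6 0), (340, .am 3 4 5 6 1 1), (884, .c4 4), (51, .tb 1 1 2), (612, .pl 0 9 3 4), (12, .lf 5 8 9 9 5 8), (374, .pl 0 1 5 4), (404, .am 5 7 8 9 1 1), (442, .pl 2 3 7 6), (170, .am 4 5 7 9 1 1), (187, .ta 1 1 2), (1628, .rt 0 1 3 0 2 3)]) (.br 0 6 1 7 1 3 (.leaf [(16, .cf 0 1 3 0 3 7), (4, .am 0 6 8 9 1 1), (4, .ce 4 6 7 4 7 8), (3, .ex 1), (2, .am 0 6 7 8 1 1), (6, .am 0 1 7 8 1 1), (6, .am 0 2 8 9 1 1), (6, .ex 0), (2, .am 0 5 8 9 1 1), (3, .am 0 2 7 8 1 1), (8, .rt 6 7 9 6 7 9), (12, .rt 0 1 3 0 1 3),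 (4, .tb 5 1 2), (4, .lf 4 6 7 7 4 5), (12, .rt 8 9 1 8 9 1), (12, .rt 0 1 3 0 2 3), (1, .am 0 5 7 8 1 1), (4, .rt 6 7 9 5 7 9), (12, .rt 9 0 2 9 0 2), (8, .cf 0 1 3 0 3 8), (3, .pl 2 3 7 5)]) (.pr 1 4 (.leaf [(10, .cf 0 1 3 0 3 8), (14, .ce 4 6 7 4 7 8), (6, .lf 4 6 7 7 4 6), (4, .rt 1 2 6 1 2 6), (8, .am 0 1 7 8 1 1), (4, .am 0 2 7 8 1 1), (3, .am 0 1 2 7 1 1), (16, .rt 0 1 3 0 1 3), (20, .rt 0 1 3 0 2 3), (12, .am 0 2 8 9 1 1), (16, .rt 6 7 9 5 7 9), (24, .rt 9 0 2 9 0 2), (8, .am 0 5 7 9 1 1), (1, .am 1 2 7 6 1 1), (2, .am 0 2 3 8 1 1), (2, .cf 9 0 2 8 3 7), (8, .pl 2 3 7 5), (8, .ex 1), (22, .cf 0 1 3 0 3 7), (16, .rt 8 9 1 8 9 1), (8, .lf 4 6 7 7 4 5), (4, .am 0 7 8 9 1 1), (8, .tb 5 1 2), (5, .ex 0), (2, .rt 2 3 5 2 3 6)])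 (.leaf [(60, .rt 8 9 1 8 9 2), (516, .rt 0 1 3 0 2 3), (144, .am 0 2 7 8 1 1), (456, .lf 4 6 7 7 4 6), (150, .pl 1 3 7 6), (150, .am 0 1 7 8 1 1), (72, .am 3 4 5 6 1 1), (144, .pl 2 3 7 6), (228, .am 0 6 8 9 1 1), (480, .pl 0 7 3 4), (336, .lf 1 5 6 6 1 5), (54, .pl 0 1 6 4), (27, .ta 1 1 2), (456, .rt 6 7 9 6 7 9), (288, .rt 2 3 5 1 3 5), (828, .rt 0 1 3 0 1 3), (111, .tb 1 1 2), (104, .ce 4 6 7 4 7 8), (104, .lf 4 6 7 7 4 5), (144, .ex 1), (352, .cf 0 1 3 0 3 8), (152, .tb 5 1 2), (300, .rt 8 9 1 8 9 1), (24, .am 4 5 6 7 1 1), (456, .rt 9 0 2 9 0 2), (114, .am 0 6 7 8 1 1), (512, .cf 0 1 3 0 3 7), (144, .am 0 1 6 5 1 1), (480, .ex 0), (228, .am 0 2 8 9 1 1), (96, .c4 4)])))))) (.leaf [(21, .cf 9 0 2 8 3 7), (41, .am 0 6 7 9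 1 1), (60, .rt 8 9 1 8 9 1), (3, .pl 0 9 3 4), (84, .rt 6 7 9 6 7 9), (12, .am 4 5 7 8 1 1), (4, .pl 0 9 5 4), (63, .rt 0 1 3 0 1 3), (27, .lf 4 6 7 7 4 6), (15, .am 0 7 8 9 1 1), (3, .ta 1 1 2), (6, .am 4 7 8 9 1 1), (30, .am 0 1 3 8 1 1), (33, .pl 0 1 6 5), (1, .am 4 6 7 9 1 1), (63, .c4 5), (63, .rt 7 8 0 7 8 0), (9, .pl 3 4 8 7), (24, .c4 4), (33, .rt 2 3 5 1 3 5), (2, .am 4 5 6 7 1 1), (6, .ce 1 3 4 1 4 5), (24, .lf 5 7 8 8 5 7), (4, .am 0 5 6 7 1 1)]))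

def C3543654654_2 : Tr :=
  .ch 1 (.ch 4 (.leaf [(36, .pl 3 4 9 7), (28, .am 4 6 7 8 1 1), (18, .am 0 1 7 8 1 1), (48, .pl 0 9 3 4), (48, .pl 1 2 4 5), (52, .rt 6 7 9 6 7 9), (96, .rt 3 4 6 3 4 6), (96, .rt 1 2 4 1 2 4), (15, .pl 0 9 5 4), (30, .pl 0 1 5 4), (6, .am 1 4 8 7 1 1), (48, .rt 2 3 5 2 3 5), (36, .rt 7 8 0 7 9 0), (204, .rt 4 5 7 4 5 7), (48, .rt 0 1 3 0 1 3), (19, .am 4 5 8 9 1 1), (44, .am 4 6 8 9 1 1), (36, .rt 6 7 9 5 7 0), (48, .rt 8 9 1 8 9 1), (9, .am 0 5 8 9 1 1), (12, .am 2 3 8 6 1 1), (92, .am 4 5 7 8 1 1), (156, .lf 5 7 8 8 5 7), (12, .pl 3 4 8 7), (96, .rt 4 5 7 4 6 7), (24, .rt 8 9 1 8 9 2), (24, .pl 1 2 7 6), (72, .rt 9 0 2 9 0 2), (56, .rt 6 7 9 5 7 9), (36, .am 2 3 9 6 1 1), (24, .pl 1 2 4 6)]) (.ch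 5 (.leaf [(11, .am 2 3 5 6 1 1), (3, .am 0 6 8 9 1 1), (16, .rt 9 0 2 9 0 3), (10, .am 0 6 7 8 1 1), (16, .rt 9 0 2 9 0 2), (4, .am 2 6 8 7 1 1), (6, .am 3 5 9 8 1 1), (2, .am 0 3 8 9 1 1), (22, .rt 7 8 0 7 8 0), (13, .am 4 6 8 9 1 1), (13, .pl 0 9 6 4), (10, .ce 5 7 8 5 9 0), (16, .pl 1 2 5 6), (8, .am 2 5 9 8 1 1), (16, .rt 1 2 4 1 2 5), (16, .rt 2 3 5 2 3 5), (2, .pl 0 3 7 8), (1, .am 2 6 5 7 1 1), (22, .rt 3 4 6 3 5 6), (28, .rt 5 6 8 5 6 8), (4, .pl 0 9 3 5), (26, .rt 5 6 8 4 6 8), (1, .pl 3 5 8 7), (32, .lf 6 8 9 9 6 8), (5, .pl 2 3 7 8)]) (.leaf [(1, .pl 4 8 7 6), (1, .pl 4 9 8 6), (1, .pl 0 8 7 4), (1, .rt 6 7 9 6 7 9), (1, .pl 0 9 8 4), (1, .lf 7 9 0 0 7 9)]) (.br 0 5 1 7 1 2 (.leaf [(6, .cf 0 1 3 0 3 8), (6, .rt 8 9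 1 8 9 1), (3, .am 0 1 7 8 1 1), (6, .cf 9 0 2 9 2 7), (4, .am 0 7 8 9 1 1), (3, .ex 0), (2, .ce 4 6 7 4 7 9), (4, .rt 6 7 9 5 7 9), (1, .am 0 5 7 8 1 1), (2, .lf 4 6 7 7 4 5), (2, .tb 5 1 2), (6, .rt 9 0 2 9 0 2), (2, .am 0 5 8 9 1 1), (6, .rt 0 1 3 0 1 3)]) (.leaf [(12, .rt 8 9 1 8 9 1), (2, .am 1 2 7 5 1 1), (6, .rt 2 3 5 2 3 5), (1, .am 1 2 3 5 1 1), (1, .pl 2 3 7 8), (6, .ex 0), (2, .pl 1 5 4 7), (4, .tb 5 1 2), (9, .rt 0 1 3 0 2 3), (1, .pl 1 5 4 3), (3, .rt 1 2 4 1 2 4), (12, .rt 9 0 2 9 0 2), (12, .ce 4 6 7 4 7 9), (1, .pl 2 3 7 4), (6, .am 0 2 8 9 1 1), (11, .cf 0 1 3 0 3 8), (1, .ce 4 6 7 4 7 8), (10, .lf 4 6 7 7 4 5), (2, .am 0 1 3 8 1 1), (4, .am 0 1 7 8 1 1), (12, .rt 0 1 3 0 1 3), (3, .am 0 2 3 8 1 1), (4, .cf 9 0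 2 8 3 7), (6, .am 0 7 8 9 1 1)])) (.leaf [(7, .am 3 6 5 9 1 1), (22, .pl 0 1 6 5), (4, .am 1 2 7 5 1 1), (10, .am 0 3 8 9 1 1), (20, .cf 9 0 2 8 3 7), (2, .am 5 6 7 9 1 1), (10, .am 0 7 8 9 1 1), (13, .am 0 6 3 9 1 1), (12, .am 0 2 3 8 1 1), (10, .pl 1 2 5 6), (60, .rt 7 8 0 7 8 0), (8, .am 0 1 3 8 1 1), (10, .am 2 3 5 6 1 1), (6, .am 0 1 2 7 1 1), (20, .am 0 1 7 8 1 1), (4, .am 1 2 3 5 1 1), (24, .rt 8 9 1 8 9 2), (24, .rt 1 2 4 1 2 5), (56, .rt 8 9 1 8 9 1), (80, .rt 6 7 9 6 7 9), (10, .pl 2 3 7 8), (56, .rt 0 1 3 0 1 3), (60, .c4 5), (36, .rt 2 3 5 2 3 5), (18, .am 0 6 7 9 1 1), (9, .pl 0 9 6 5)])) (.ch 5 (.leaf [(4, .rt 6 7 9 6 8 9), (38, .rt 7 8 0 7 8 0), (12, .rt 5 6 8 5 6 8), (6, .tb 4 1 2), (24, .rt 3 4 6 3 4 6), (13,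 .cf 9 0 2 8 3 7), (6, .ce 4 6 7 4 7 9), (10, .am 0 6 7 9 1 1), (14, .am 0 1 7 8 1 1), (6, .am 3 5 9 8 1 1), (8, .am 4 7 8 9 1 1), (2, .pl 0 7 3 4), (14, .rt 9 0 2 9 0 3), (6, .pl 0 9 3 5), (5, .cf 0 1 3 0 3 7), (14, .pl 1 2 7 6), (14, .pl 0 1 6 4), (10, .pl 1 2 4 6), (24, .rt 9 0 2 9 0 2), (28, .rt 8 9 1 8 9 1), (12, .am 2 3 9 6 1 1), (24, .rt 3 4 6 3 5 6), (3, .am 0 7 8 9 1 1), (24, .rt 2 3 5 2 3 5), (28, .rt 0 1 3 0 1 3), (30, .rt 5 6 8 4 6 8), (12, .am 2 3 5 6 1 1), (4, .am 0 6 8 9 1 1), (7, .am 3 4 9 8 1 1), (24, .rt 1 2 4 1 2 4), (15, .pl 0 9 3 4)]) (.leaf [(1, .rt 6 7 9 6 7 9), (1, .pl 0 8 7 4), (1, .lf 7 9 0 0 7 9), (1, .pl 4 8 7 6), (1, .pl 0 9 8 6)]) (.br 0 5 1 7 1 2 (.leaf [(6, .rt 9 0 2 9 0 3), (3, .am 0 1 7 8 1 1),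 (3, .ex 0), (6, .rt 0 1 3 0 1 3), (4, .am 0 7 8 9 1 1), (2, .lf 4 6 7 7 4 5), (6, .rt 8 9 1 8 9 1), (6, .cf 0 1 3 0 3 8), (2, .tb 5 1 2), (2, .am 0 5 8 9 1 1), (4, .rt 6 7 9 5 7 9), (2, .ce 4 6 7 4 7 9), (6, .cf 9 0 2 9 3 7), (1, .am 0 5 7 8 1 1)]) (.leaf [(2, .am 0 1 3 8 1 1), (12, .rt 9 0 2 9 0 2), (6, .rt 2 3 5 2 3 5), (1, .rt 1 2 4 1 2 4), (6, .am 0 2 8 9 1 1), (11, .cf 0 1 3 0 3 8), (2, .am 1 2 7 5 1 1), (6, .am 0 7 8 9 1 1), (4, .am 0 1 7 8 1 1), (4, .cf 9 0 2 8 3 7), (1, .ce 4 6 7 4 7 8), (12, .rt 8 9 1 8 9 1), (3, .am 0 2 3 8 1 1), (12, .rt 0 1 3 0 1 3), (2, .rt 1 2 4 1 2 5), (6, .ex 0), (4, .tb 5 1 2), (12, .lf 4 6 7 7 4 5), (1, .am 1 2 3 5 1 1), (1, .pl 2 3 7 8), (1, .pl 1 5 4 3), (12, .ce 4 6 7 4 7 9), (1, .pl 2 3 7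 4), (9, .rt 0 1 3 0 2 3)])) (.leaf [(32, .am 0 1 3 8 1 1), (44, .pl 0 1 6 5), (16, .am 1 2 3 5 1 1), (16, .rt 6 7 9 6 7 9), (38, .am 0 7 8 9 1 1), (36, .cf 0 1 3 0 3 9), (72, .rt 2 3 5 2 3 5), (12, .am 0 1 2 7 1 1), (33, .pl 2 3 7 8), (48, .rt 8 9 1 8 9 2), (4, .am 0 6 3 9 1 1), (112, .rt 0 1 3 0 1 3), (120, .c4 5), (36, .pl 3 4 5 6), (36, .tb 4 1 2), (120, .rt 7 8 0 7 8 0), (20, .am 2 3 5 6 1 1), (112, .rt 8 9 1 8 9 1), (21, .am 0 2 7 8 1 1), (48, .rt 1 2 4 1 2 5), (3, .am 0 2 3 8 1 1), (36, .rt 3 4 6 3 4 6), (24, .am 0 1 7 8 1 1), (40, .am 0 6 7 9 1 1), (20, .pl 1 2 5 6), (4, .cf 9 0 2 8 3 7), (2, .am 0 3 8 9 1 1)])) (.ch 5 (.leaf [(5, .am 1 2 3 9 1 1), (11, .am 3 5 4 9 1 1), (134, .rt 2 3 5 2 3 6), (18, .am 4 5 7 9 1 1), (100,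 .rt 9 0 2 9 0 3), (98, .am 1 5 4 8 1 1), (10, .am 0 1 3 9 1 1), (36, .am 1 5 4 7 1 1), (58, .am 1 2 7 9 1 1), (268, .c4 4), (27, .am 2 3 9 6 1 1), (22, .am 1 2 7 8 1 1), (7, .am 0 5 3 9 1 1), (77, .am 0 5 6 9 1 1), (18, .am 4 5 6 8 1 1), (34, .rt 0 1 3 0 1 3), (60, .am 1 7 8 9 1 1), (34, .rt 7 8 0 7 8 1), (44, .am 2 4 9 8 1 1), (170, .rt 6 7 9 6 7 9), (30, .am 0 1 7 9 1 1), (98, .rt 5 6 8 5 6 9), (46, .pl 1 2 9 6), (268, .rt 1 2 4 1 2 4), (402, .rt 5 6 8 5 6 8), (14, .am 4 6 8 9 1 1), (98, .lf 5 7 8 8 5 7), (80, .pl 2 3 7 8), (368, .rt 7 8 0 7 8 0), (80, .am 3 5 9 8 1 1), (154, .am 0 6 7 9 1 1), (3, .am 0 5 1 9 1 1), (268, .rt 9 0 2 9 0 2), (87, .pl 0 9 5 4), (54, .am 5 7 8 9 1 1), (22, .am 2 3 4 6 1 1), (98, .rt 3 4 6 3 5 6),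 (137, .pl 1 2 5 6), (16, .am 6 7 8 9 1 1)]) (.leaf [(1, .pl 4 9 8 6), (1, .pl 5 8 7 6), (1, .pl 0 9 7 4), (1, .rt 6 7 9 6 7 9), (1, .pl 4 8 7 5), (1, .lf 7 9 0 0 7 9)]) (.br 0 3 1 5 3 1 (.leaf [(9, .rt 0 1 3 0 2 3), (3, .pl 2 3 7 4), (10, .lf 4 6 7 7 4 5), (12, .rt 0 1 3 0 1 3), (12, .rt 9 0 2 9 0 2), (6, .rt 2 3 5 2 3 5), (4, .cf 0 1 3 0 3 7), (6, .ex 0), (12, .rt 8 9 1 8 9 1), (12, .ce 4 6 7 4 7 9), (3, .am 0 2 7 8 1 1), (6, .am 0 7 8 9 1 1), (3, .am 1 2 7 5 1 1), (4, .tb 5 1 2), (1, .ce 4 6 7 4 7 8), (3, .rt 1 2 4 1 2 4), (11, .cf 0 1 3 0 3 8), (6, .am 0 2 8 9 1 1), (6, .am 0 1 7 8 1 1), (3, .pl 1 5 4 3), (3, .pl 2 3 7 5)]) (.leaf [(1, .lf 4 6 7 7 4 5), (4, .rt 8 9 1 8 9 1), (4, .rt 0 1 3 0 1 3), (1, .tb 5 1 2), (2, .pl 1 3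 7 5), (2, .am 0 1 7 8 1 1), (1, .cf 0 1 3 0 3 7), (2, .am 0 5 8 9 1 1), (3, .cf 0 1 3 0 3 8), (2, .ex 0), (1, .am 0 7 8 9 1 1), (1, .am 5 7 8 9 1 1), (3, .cf 9 0 2 9 3 7), (3, .rt 6 7 9 5 7 9), (3, .rt 9 0 2 9 0 3), (1, .ce 4 6 7 4 7 9)])) (.leaf [(632, .pl 2 3 7 8), (42, .am 3 4 5 6 1 1), (297, .am 0 2 3 8 1 1), (63, .am 0 1 2 3 1 1), (438, .am 0 1 7 8 1 1), (36, .am 2 6 5 9 1 1), (1050, .rt 1 2 4 1 2 4), (84, .am 3 6 4 9 1 1), (126, .pl 0 1 5 4), (502, .lf 5 7 8 8 5 6), (1050, .rt 8 9 1 8 9 2), (281, .am 0 1 2 7 1 1), (40, .am 0 2 3 9 1 1), (1368, .rt 0 1 3 0 1 3), (124, .am 0 1 7 9 1 1), (3468, .rt 6 7 9 6 7 9), (546, .am 0 6 3 9 1 1), (336, .pl 0 1 6 5), (246, .am 1 2 8 5 1 1), (548, .lf 5 7 8 9 5 6), (376, .pl 0 9 5 4), (1368,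 .rt 2 3 5 2 3 5), (2674, .c4 5), (459, .am 0 7 8 9 1 1), (1368, .rt 8 9 1 8 9 1), (256, .lf 5 7 8 8 5 7), (126, .am 1 3 4 5 1 1), (336, .am 2 3 5 6 1 1), (1050, .c4 4), (794, .am 0 6 7 9 1 1), (88, .am 1 2 4 5 1 1), (502, .am 0 5 6 8 1 1), (44, .am 2 5 4 9 1 1), (372, .pl 1 2 5 6), (248, .am 1 5 4 9 1 1), (351, .am 0 2 7 8 1 1), (335, .am 0 3 8 9 1 1), (2674, .rt 7 8 0 7 8 0)]))) (.leaf [(4, .cf 0 1 3 0 3 7), (2, .am 0 1 7 8 1 1), (4, .cf 0 1 3 0 3 8), (2, .pl 1 3 7 6), (4, .rt 6 7 9 6 7 9), (4, .rt 9 0 2 9 0 2), (2, .am 0 6 8 9 1 1), (1, .rt 2 3 5 2 3 5), (4, .rt 0 1 3 0 1 3), (1, .pl 2 3 7 6), (1, .am 0 6 7 8 1 1), (4, .rt 8 9 1 8 9 1), (1, .am 0 2 7 8 1 1), (4, .rt 0 1 3 0 2 3), (2, .pl 0 1 6 5), (2, .rt 2 3 5 1 3 5), (4, .rt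 7 8 0 7 8 0), (2, .am 0 2 8 9 1 1), (1, .pl 0 2 6 5), (3, .lf 3 5 6 6 3 5)]) C3543654654_1 (.ch 4 (.leaf [(24, .rt 4 5 7 4 5 8), (36, .c4 1), (24, .pl 3 4 9 7), (36, .rt 8 9 1 8 9 1), (14, .pl 0 9 5 4), (6, .am 0 5 7 8 1 1), (9, .pl 1 2 5 6), (6, .am 4 5 8 9 1 1), (2, .am 2 4 5 6 1 1), (4, .am 3 4 5 6 1 1), (9, .am 6 7 8 9 1 1), (24, .rt 9 0 2 9 0 3), (3, .am 0 2 1 5 1 1), (36, .rt 3 4 6 3 4 6), (12, .am 1 4 8 7 1 1), (4, .pl 0 9 3 4), (9, .rt 6 7 9 5 7 9), (6, .am 0 1 7 8 1 1), (12, .am 4 6 8 9 1 1), (6, .am 0 6 8 9 1 1), (16, .am 2 3 5 6 1 1), (12, .lf 5 7 8 8 5 7), (5, .am 0 2 6 5 1 1), (24, .rt 7 8 0 7 8 0), (4, .am 2 3 4 5 1 1), (4, .am 0 3 2 6 1 1), (3, .am 5 7 8 9 1 1), (60, .rt 2 3 5 2 3 5), (6, .am 1 2 4 5 1 1), (18,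 .pl 1 2 7 6), (48, .rt 4 5 7 4 5 7), (27, .rt 6 7 9 6 7 9)]) (.ch 5 (.leaf [(2, .am 0 2 8 9 1 1), (1, .pl 0 2 6 5), (8, .rt 9 0 2 9 0 3), (8, .pl 2 3 5 6), (4, .rt 0 1 3 0 2 3), (1, .ce 5 7 8 5 9 0), (1, .am 0 2 7 8 1 1), (8, .rt 3 4 6 3 5 6), (4, .am 3 5 9 8 1 1), (1, .pl 2 3 7 8), (4, .rt 9 0 2 9 0 2), (3, .am 0 6 7 8 1 1), (10, .rt 5 6 8 5 6 8), (12, .lf 6 8 9 9 6 8), (8, .rt 7 8 0 7 8 0), (5, .am 4 6 8 9 1 1), (1, .am 5 6 8 9 1 1), (10, .rt 5 6 8 4 6 8), (4, .pl 0 9 3 5), (9, .rt 2 3 5 2 3 5), (3, .cf 9 0 2 8 3 7), (5, .pl 0 9 6 4), (3, .rt 6 7 9 6 7 0)]) (.leaf [(1, .pl 0 9 8 4), (1, .pl 4 9 7 5), (1, .pl 5 9 7 6), (1, .lf 7 9 0 0 7 9), (1, .pl 0 8 7 4), (1, .rt 6 7 9 6 7 9)]) (.br 0 5 2 7 2 1 (.br 0 3 5 4 1 1 (.leaf [(328,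 .cf 0 1 3 0 3 8), (27, .am 0 1 2 3 1 1), (240, .am 0 1 7 8 1 1), (168, .am 0 2 7 8 1 1), (480, .rt 8 9 1 8 9 1), (30, .am 0 2 6 5 1 1), (162, .pl 1 3 7 6), (54, .am 1 2 3 5 1 1), (144, .am 0 7 8 9 1 1), (24, .am 1 2 7 5 1 1), (135, .c4 1), (672, .rt 9 0 2 9 0 2), (192, .am 0 6 7 9 1 1), (135, .ex 0), (135, .rt 3 4 6 3 4 6), (30, .pl 1 2 7 6), (608, .cf 0 1 3 0 3 7), (96, .ce 4 6 7 4 7 9), (384, .rt 6 7 9 6 7 9), (78, .pl 0 1 6 5), (224, .tb 5 1 2), (345, .rt 0 1 3 0 1 3), (672, .rt 0 1 3 0 2 3), (192, .ex 1), (344, .ce 4 6 7 4 7 8), (216, .rt 2 3 5 2 3 5), (27, .am 0 3 6 5 1 1), (336, .am 0 2 8 9 1 1), (440, .lf 4 6 7 7 4 5)]) (.br 0 4 1 8 1 2 (.leaf [(8, .cf 0 1 3 0 3 8), (1, .am 0 5 7 8 1 1), (12, .rt 0 1 3 0 1 3), (4, .rt 6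 7 9 5 7 9), (12, .ex 0), (4, .tb 5 1 2), (12, .rt 9 0 2 9 0 2), (6, .am 0 2 8 9 1 1), (4, .lf 4 6 7 7 4 5), (3, .ex 2), (12, .rt 0 1 3 0 2 3), (16, .cf 0 1 3 0 3 7), (8, .am 0 4 7 8 1 1), (4, .ce 4 6 7 4 7 8), (8, .rt 6 7 9 4 7 9), (2, .am 0 5 8 9 1 1), (4, .am 0 4 8 9 1 1), (3, .am 0 2 7 8 1 1), (12, .rt 8 9 1 8 9 1)]) (.br 0 4 5 6 1 3 (.pr 1 3 (.leaf [(82, .cf 9 0 2 9 3 7), (6, .cf 0 1 3 0 3 7), (38, .rt 6 7 9 5 7 9), (132, .tb 5 1 2), (86, .am 0 1 7 8 1 1), (312, .rt 0 1 3 0 2 3), (396, .cf 0 1 3 0 3 8), (4, .am 0 4 2 8 1 1), (41, .am 2 3 9 4 1 1), (125, .ex 0), (2, .am 1 2 7 4 1 1), (60, .am 0 2 7 8 1 1), (41, .am 0 4 3 9 1 1), (396, .rt 9 0 2 9 0 2), (125, .pl 1 4 5 6), (19, .am 0 5 7 9 1 1), (168, .ex 1), (41, .am 2 4 9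 7 1 1), (336, .rt 0 1 3 0 1 3), (41, .am 1 2 3 4 1 1), (144, .ex 3), (220, .am 0 7 8 9 1 1), (82, .rt 2 3 5 2 3 5), (116, .am 0 2 8 9 1 1), (84, .rt 1 2 5 1 2 5), (41, .am 1 2 7 5 1 1), (80, .am 0 4 7 8 1 1), (298, .lf 4 6 7 7 4 5), (336, .rt 8 9 1 8 9 1), (82, .am 0 1 3 8 1 1), (82, .cf 9 0 2 8 3 7), (298, .ce 4 6 7 4 7 9)]) (.leaf [(1011, .ex 0), (200, .am 0 4 3 8 1 1), (199, .lf 5 7 8 0 4 5), (18, .lf 5 7 8 9 4 5), (12, .am 0 6 8 9 1 1), (423, .rt 0 1 3 0 1 3), (588, .lf 1 4 5 5 1 4), (165, .pl 1 2 5 6), (165, .c4 1), (66, .ta 5 1 2), (60, .lf 6 8 9 9 6 8), (105, .rt 3 4 6 3 5 6), (66, .rt 9 0 2 9 0 2), (32, .pl 2 3 7 8), (109, .am 0 3 6 4 1 1), (68, .am 0 4 6 7 1 1), (66, .rt 0 1 3 0 2 3), (12, .am 0 4 3 9 1 1), (342, .ex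 1), (423, .am 0 4 5 6 1 1), (70, .lf 5 7 8 8 4 5), (198, .cf 9 0 2 8 3 7), (81, .pl 0 1 6 5), (136, .lf 4 6 7 7 4 5), (6, .am 3 4 9 8 1 1), (6, .am 2 6 5 8 1 1), (24, .am 0 2 3 8 1 1), (107, .am 2 3 5 6 1 1), (126, .cf 0 1 3 0 3 8), (18, .am 2 6 5 9 1 1), (34, .am 2 6 5 7 1 1), (2, .pl 2 3 7 5), (42, .am 0 2 8 9 1 1), (34, .am 0 5 7 8 1 1), (330, .rt 2 3 5 2 3 5), (342, .pl 1 4 5 6)])) (.leaf [(24, .rt 6 7 9 6 7 9), (12, .am 0 6 7 9 1 1), (108, .rt 9 0 2 9 0 2), (3, .ex 2), (50, .rt 6 7 9 5 7 9), (24, .am 0 1 7 8 1 1), (19, .am 0 5 7 9 1 1), (12, .c4 1), (48, .rt 8 9 1 8 9 1), (54, .am 0 2 8 9 1 1), (40, .ex 3), (3, .am 0 3 8 9 1 1), (3, .am 0 4 7 9 1 1), (24, .rt 2 3 5 2 3 5), (36, .tb 5 1 2), (26, .rt 8 9 1 8 9 2), (12, .ex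 1), (6, .am 1 2 7 5 1 1), (6, .am 1 2 3 5 1 1), (6, .am 0 5 3 9 1 1), (36, .rt 0 1 3 0 1 3), (134, .rt 0 1 3 0 2 3), (48, .lf 4 6 7 7 4 5), (12, .ex 0), (60, .ce 4 6 7 4 7 8), (12, .rt 3 4 6 3 5 6), (6, .am 4 7 8 9 1 1), (34, .am 0 2 7 8 1 1), (48, .cf 0 1 3 0 3 8), (12, .pl 1 4 5 6), (3, .pl 3 5 4 7), (9, .cf 9 0 2 8 3 7), (11, .am 0 7 8 9 1 1), (12, .pl 1 3 7 6), (101, .cf 0 1 3 0 3 7), (6, .am 0 2 3 8 1 1)])))) (.leaf [(8, .cf 9 0 2 8 3 7), (24, .rt 9 0 2 9 0 2), (18, .ex 0), (24, .ce 4 6 7 4 7 9), (5, .pl 2 3 7 8), (24, .rt 8 9 1 8 9 2), (8, .tb 5 1 2), (22, .cf 0 1 3 0 3 8), (12, .am 0 7 8 9 1 1), (26, .lf 4 6 7 7 4 5), (12, .am 0 2 8 9 1 1), (13, .am 0 2 3 8 1 1), (5, .am 0 2 7 8 1 1), (18, .rt 2 3 5 2 3 5), (2, .ce 4 6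 7 4 7 8), (48, .rt 0 1 3 0 2 3)])) (.leaf [(4, .am 0 6 7 9 1 1), (8, .pl 0 2 6 5), (2, .am 0 7 8 9 1 1), (12, .rt 2 3 5 2 3 5), (3, .pl 2 3 7 8), (12, .c4 5), (2, .am 0 3 8 9 1 1), (5, .am 0 2 3 8 1 1), (4, .pl 2 3 5 6), (12, .rt 7 8 0 7 8 0), (16, .rt 0 1 3 0 2 3), (4, .cf 9 0 2 8 3 7), (4, .am 0 6 3 9 1 1), (3, .am 0 2 7 8 1 1), (16, .rt 8 9 1 8 9 2), (16, .rt 6 7 9 6 7 9)])) (.ch 5 (.leaf [(4, .rt 6 7 9 6 7 9), (4, .pl 0 8 3 5), (4, .rt 8 9 1 8 9 2), (2, .am 0 6 8 9 1 1), (4, .cf 0 1 3 0 3 7), (2, .am 0 2 8 9 1 1), (4, .rt 2 3 5 2 3 5), (8, .rt 0 1 3 0 2 3), (3, .pl 0 2 6 5), (4, .rt 3 4 6 3 5 6), (4, .rt 9 0 2 9 0 2), (3, .pl 2 3 7 6), (1, .pl 2 3 5 6), (4, .rt 7 8 0 7 8 0), (4, .rt 5 6 8 5 6 8), (3, .am 0 2 7 8 1 1), (1,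 .am 0 6 7 8 1 1)]) (.leaf [(1, .pl 5 8 7 6), (1, .pl 4 9 7 5), (1, .rt 6 7 9 6 7 9), (1, .pl 5 9 8 6), (1, .pl 0 9 7 4), (1, .lf 7 9 0 0 7 9)]) (.br 0 5 2 7 2 1 (.br 0 3 5 4 1 3 (.leaf [(68, .tb 5 1 2), (78, .am 0 1 7 8 1 1), (54, .pl 1 3 7 6), (18, .am 1 2 3 5 1 1), (45, .rt 3 4 6 3 4 6), (108, .am 0 2 8 9 1 1), (176, .cf 0 1 3 0 3 7), (60, .ex 1), (48, .am 0 7 8 9 1 1), (112, .cf 0 1 3 0 3 8), (204, .rt 9 0 2 9 0 2), (42, .am 0 6 7 9 1 1), (6, .am 0 5 7 9 1 1), (108, .rt 6 7 9 6 7 9), (156, .rt 8 9 1 8 9 1), (45, .ex 0), (6, .am 1 2 7 5 1 1), (72, .rt 2 3 5 2 3 5), (12, .am 2 6 5 9 1 1), (9, .am 0 1 2 3 1 1), (48, .ce 4 6 7 4 7 9), (54, .am 0 2 7 8 1 1), (45, .c4 1), (24, .pl 0 1 6 5), (12, .pl 1 2 7 6), (9, .am 0 3 6 5 1 1),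 (111, .rt 0 1 3 0 1 3), (92, .ce 4 6 7 4 7 8), (140, .lf 4 6 7 7 4 5), (204, .rt 0 1 3 0 2 3)]) (.br 1 3 9 4 1 2 (.leaf [(12, .rt 8 9 1 8 9 1), (1, .am 0 5 7 8 1 1), (8, .am 0 1 7 8 1 1), (8, .ex 0), (8, .cf 0 1 3 0 3 8), (8, .rt 6 7 9 4 7 9), (12, .rt 0 1 3 0 2 3), (3, .am 0 2 7 8 1 1), (8, .pl 1 3 7 4), (16, .cf 0 1 3 0 3 7), (4, .am 0 1 8 9 1 1), (12, .rt 9 0 2 9 0 2), (2, .am 0 5 8 9 1 1), (4, .lf 4 6 7 7 4 5), (4, .rt 6 7 9 5 7 9), (4, .tb 5 1 2), (4, .ce 4 6 7 4 7 8), (12, .rt 0 1 3 0 1 3), (3, .ex 2), (6, .am 0 2 8 9 1 1)]) (.br 0 3 2 6 2 1 (.br 1 5 4 8 1 3 (.pr 1 3 (.leaf [(27, .am 0 1 8 9 1 1), (84, .rt 9 0 2 9 0 2), (21, .am 0 5 7 9 1 1), (57, .rt 0 1 3 0 2 3), (81, .rt 0 1 3 0 1 3), (18, .am 1 2 3 9 1 1), (18, .rt 9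 0 2 9 0 3), (36, .ex 2), (36, .lf 5 7 8 8 4 5), (40, .ce 4 6 7 4 7 8), (24, .am 0 2 8 9 1 1), (76, .cf 0 1 3 0 3 7), (21, .ex 4), (34, .tb 5 1 2), (30, .am 0 7 8 9 1 1), (42, .rt 6 7 9 5 7 9), (54, .am 0 1 7 8 1 1), (18, .rt 2 3 5 2 3 5), (27, .rt 1 2 5 1 2 5), (36, .pl 1 3 7 4), (81, .rt 8 9 1 8 9 1), (9, .am 1 2 7 5 1 1), (36, .ex 0), (12, .am 0 2 7 8 1 1), (43, .lf 4 6 7 7 4 5), (62, .cf 0 1 3 0 3 8), (39, .ce 4 6 7 4 7 9)]) (.leaf [(7, .am 1 2 3 5 1 1), (15, .rt 9 0 2 9 0 2), (12, .am 4 5 6 7 1 1), (18, .am 2 3 8 4 1 1), (72, .ex 2), (219, .ex 0), (14, .pl 1 3 7 6), (15, .rt 7 8 0 7 9 0), (9, .am 1 2 8 4 1 1), (29, .pl 1 2 7 6), (93, .cf 0 1 3 0 3 7), (72, .cf 0 1 3 0 3 8), (29, .am 2 3 5 6 1 1), (18, .cf 9 0 2 8 3 7), (102,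 .rt 6 7 9 6 7 9), (15, .cf 9 0 2 9 2 7), (51, .am 0 6 8 9 1 1), (36, .rt 3 4 6 3 4 6), (87, .rt 8 9 1 8 9 1), (165, .rt 0 1 3 0 1 3), (35, .am 1 5 4 8 1 1), (36, .am 0 1 8 9 1 1), (126, .rt 2 3 5 2 3 5), (150, .lf 1 4 5 5 1 4), (12, .pl 4 8 7 6), (72, .rt 9 0 2 9 0 3), (72, .c4 1), (114, .lf 5 7 8 8 4 5), (35, .am 0 6 7 8 1 1), (31, .am 4 5 6 8 1 1), (24, .tb 5 1 2), (86, .pl 0 1 6 4), (43, .am 0 1 7 8 1 1), (36, .rt 3 4 6 3 5 6), (27, .am 1 2 8 5 1 1)])) (.leaf [(21, .ex 4), (24, .ex 0), (116, .cf 0 1 3 0 3 7), (108, .rt 0 1 3 0 2 3), (42, .am 0 2 8 9 1 1), (30, .pl 1 3 7 6), (3, .pl 0 1 6 5), (6, .rt 9 0 2 9 0 3), (21, .c4 1), (3, .rt 3 4 6 3 5 6), (12, .am 5 7 8 9 1 1), (60, .rt 0 1 3 0 1 3), (3, .am 1 2 3 5 1 1), (39, .am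 0 6 7 9 1 1), (81, .rt 8 9 1 8 9 1), (15, .am 0 2 6 5 1 1), (43, .cf 0 1 3 0 3 8), (6, .pl 1 2 7 6), (3, .ce 4 6 7 4 7 9), (71, .ce 4 6 7 4 7 8), (21, .am 0 2 7 8 1 1), (36, .am 0 1 7 8 1 1), (108, .rt 9 0 2 9 0 2), (36, .rt 2 3 5 2 3 5), (78, .rt 6 7 9 6 7 9), (6, .pl 0 1 6 4), (71, .lf 4 6 7 7 4 5), (18, .ex 2), (38, .tb 5 1 2), (15, .am 0 1 8 9 1 1), (12, .am 0 7 8 9 1 1), (3, .am 4 5 6 7 1 1), (6, .am 0 5 7 9 1 1), (18, .rt 3 4 6 3 4 6), (12, .am 1 2 3 9 1 1), (9, .ex 1)])) (.leaf [(9, .ex 0), (6, .am 0 2 8 9 1 1), (4, .ce 4 6 7 4 7 8), (12, .rt 8 9 1 8 9 2), (8, .cf 0 1 3 0 3 8), (6, .am 0 6 8 9 1 1), (3, .am 0 6 7 8 1 1), (12, .rt 9 0 2 9 0 2), (12, .rt 6 7 9 6 7 9), (4, .tb 5 1 2), (4, .lf 4 6 7 7 4 5), (9, .am 0 2 7 8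 1 1), (16, .cf 0 1 3 0 3 7), (24, .rt 0 1 3 0 2 3), (9, .pl 2 3 7 6)])))) (.leaf [(18, .ex 0), (5, .am 0 2 7 8 1 1), (8, .tb 5 1 2), (22, .cf 0 1 3 0 3 8), (24, .rt 9 0 2 9 0 2), (48, .rt 0 1 3 0 2 3), (2, .ce 4 6 7 4 7 8), (26, .lf 4 6 7 7 4 5), (18, .rt 2 3 5 2 3 5), (13, .am 0 2 3 8 1 1), (8, .cf 9 0 2 8 3 7), (12, .am 0 2 8 9 1 1), (24, .rt 8 9 1 8 9 2), (24, .ce 4 6 7 4 7 9), (5, .pl 2 3 7 8), (12, .am 0 7 8 9 1 1)])) (.leaf [(2, .pl 0 9 3 4), (16, .cf 9 0 2 8 3 7), (44, .rt 8 9 1 8 9 1), (39, .rt 0 1 3 0 1 3), (2, .pl 4 9 6 5), (31, .rt 7 8 0 7 8 0), (2, .pl 3 4 5 6), (4, .lf 5 7 8 8 5 7), (5, .rt 2 3 5 1 4 5), (2, .pl 3 5 8 7), (31, .c4 5), (4, .rt 3 4 6 3 4 6), (9, .tb 4 1 2), (4, .am 0 1 7 8 1 1), (5, .ce 1 3 4 1 5 6),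 (5, .pl 1 4 5 6), (17, .am 0 6 7 9 1 1), (18, .am 0 1 3 8 1 1), (1, .cf 0 1 3 0 3 9), (16, .rt 6 7 9 6 7 9), (2, .am 5 7 8 9 1 1), (4, .pl 1 3 7 6), (17, .pl 0 1 6 5), (22, .rt 2 3 5 1 3 5), (11, .am 0 7 8 9 1 1)])) (.ch 5 (.leaf [(24, .rt 0 1 3 0 2 3), (26, .am 4 6 8 9 1 1), (74, .pl 0 9 5 4), (8, .pl 0 6 1 2), (8, .am 0 1 8 9 1 1), (20, .am 0 5 6 8 1 1), (42, .pl 3 5 8 7), (72, .c4 1), (16, .am 1 7 8 9 1 1), (24, .lf 1 3 4 5 1 2), (15, .am 5 6 8 9 1 1), (51, .rt 5 6 8 5 6 9), (168, .rt 2 3 5 2 3 5), (48, .pl 1 2 5 6), (72, .am 2 3 5 6 1 1), (168, .rt 7 8 0 7 8 0), (183, .c4 4), (111, .lf 5 7 8 8 4 7), (14, .am 6 7 8 9 1 1), (72, .rt 9 0 2 9 0 3), (60, .rt 6 7 9 6 8 9), (24, .am 0 2 7 8 1 1), (48, .am 2 4 9 8 1 1), (13, .am 4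 5 6 8 1 1), (14, .am 0 6 8 9 1 1), (42, .am 0 5 7 9 1 1), (96, .rt 9 0 2 9 0 2), (168, .rt 3 4 6 3 5 6), (228, .rt 5 6 8 5 6 8), (12, .am 0 5 3 9 1 1), (24, .pl 2 3 7 6), (16, .pl 1 2 7 6), (18, .am 0 6 7 9 1 1), (24, .am 1 5 4 8 1 1), (72, .rt 6 7 9 6 7 9), (42, .am 3 5 9 8 1 1), (48, .lf 1 3 4 4 1 2)]) (.leaf [(1, .lf 7 9 0 0 7 9), (1, .pl 5 8 7 6), (1, .rt 6 7 9 6 7 9), (1, .pl 5 9 8 6), (1, .pl 0 9 7 5)]) (.leaf [(1, .rt 0 1 3 0 1 3), (2, .rt 9 0 2 9 0 3), (1, .c4 1), (1, .pl 0 3 7 8), (2, .lf 4 6 7 7 4 5), (3, .cf 0 1 3 0 3 8), (1, .tb 5 1 2), (2, .ce 4 6 7 4 7 9), (1, .rt 8 9 1 8 0 1), (1, .am 0 7 8 9 1 1), (1, .am 0 1 7 8 1 1), (1, .am 0 3 8 9 1 1), (1, .rt 2 3 5 2 3 5), (1, .pl 1 2 7 5), (1, .rt 8 9 1 8 9 1), (1, .c4 4)])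 (.leaf [(24, .am 0 1 2 7 1 1), (13, .am 4 7 8 9 1 1), (103, .lf 4 6 7 7 4 6), (12, .am 5 7 8 9 1 1), (72, .rt 0 1 3 0 1 3), (9, .am 0 5 6 9 1 1), (415, .rt 6 7 9 6 7 9), (308, .rt 7 8 0 7 8 0), (36, .am 0 2 3 8 1 1), (48, .am 1 2 8 5 1 1), (120, .c4 1), (73, .pl 0 9 5 4), (6, .am 5 6 7 9 1 1), (48, .am 0 1 7 8 1 1), (192, .rt 2 3 5 2 3 5), (2, .am 4 6 8 9 1 1), (12, .am 0 2 7 8 1 1), (146, .am 0 6 7 9 1 1), (64, .am 0 5 6 8 1 1), (116, .lf 5 7 8 8 5 7), (30, .am 4 5 6 8 1 1), (48, .pl 1 2 5 6), (80, .am 0 7 8 9 1 1), (223, .c4 4), (48, .am 2 6 5 8 1 1), (192, .rt 8 9 1 8 9 1), (58, .am 4 6 7 9 1 1), (308, .c4 5), (36, .pl 2 3 7 8)])))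

def C3543654654_3 : Tr :=
  .ch 1 (.leaf [(12, .rt 8 9 1 8 9 1), (9, .rt 7 8 0 7 8 0), (9, .rt 9 0 2 9 0 2), (7, .rt 1 2 4 1 2 4), (9, .cf 0 1 3 0 3 8), (2, .am 0 1 8 9 1 1), (9, .cf 9 0 2 9 2 7), (7, .lf 2 4 5 6 2 4), (3, .am 0 1 7 8 1 1), (7, .pl 0 1 6 4), (4, .am 0 6 8 9 1 1), (7, .pl 1 2 7 6), (4, .am 1 7 8 9 1 1), (3, .am 0 6 7 9 1 1), (12, .rt 0 1 3 0 1 3), (2, .am 6 7 8 9 1 1), (3, .cf 0 1 3 0 3 7), (12, .rt 6 7 9 6 7 9)]) (.ch 4 (.leaf [(3, .pl 0 9 5 4), (4, .rt 9 0 2 9 0 3), (12, .lf 5 7 8 8 5 7), (6, .am 4 5 7 8 1 1), (4, .cf 8 9 1 8 1 7), (12, .rt 4 5 7 4 5 7), (4, .rt 8 9 1 8 9 1), (2, .am 0 5 7 8 1 1), (4, .rt 7 8 0 7 9 0), (1, .am 0 5 8 9 1 1), (3, .am 4 5 8 9 1 1), (4, .cf 9 0 2 9 3 7), (8, .rt 6 7 9 5 7 9)]) (.ch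 5 (.leaf [(3, .am 4 5 8 9 1 1), (5, .am 6 7 8 9 1 1), (8, .lf 2 4 5 5 1 4), (4, .pl 0 9 5 4), (8, .rt 9 0 2 9 0 2), (24, .lf 6 8 9 9 6 8), (28, .rt 5 6 8 5 6 8), (2, .am 4 6 7 8 1 1), (2, .am 0 5 7 9 1 1), (4, .lf 5 7 8 8 4 7), (4, .rt 7 8 0 7 8 0), (8, .ce 1 3 4 1 5 6), (8, .cf 9 0 2 9 2 7), (4, .lf 4 6 7 7 4 6), (16, .am 5 6 8 9 1 1), (1, .am 4 5 6 9 1 1), (4, .rt 6 7 9 6 7 0), (2, .am 0 5 6 9 1 1), (1, .am 5 6 7 8 1 1)]) (.leaf [(1, .pl 0 9 7 4), (1, .lf 7 9 0 0 7 9), (1, .pl 4 9 7 6), (1, .rt 6 7 9 6 7 9)]) (.br 2 6 4 7 2 1 (.br 0 6 1 7 1 2 (.leaf [(6, .pl 0 2 6 4), (24, .am 0 1 7 8 1 1), (48, .rt 0 1 3 0 1 3), (48, .cf 9 0 2 9 2 7), (6, .lf 3 5 6 6 3 5), (48, .rt 8 9 1 8 9 1), (16, .tb 5 1 2), (6, .pl 0 3 2 6), (24, .am 0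 7 8 9 1 1), (6, .rt 0 1 3 0 2 3), (12, .am 0 6 7 8 1 1), (6, .lf 2 4 5 5 2 4), (3, .pl 0 2 5 4), (4, .ce 4 6 7 4 7 8), (10, .lf 4 6 7 7 4 5), (24, .ex 0), (24, .am 0 6 8 9 1 1), (3, .am 0 2 6 5 1 1), (3, .am 4 5 6 7 1 1), (16, .cf 0 1 3 0 3 7), (9, .ex 1), (44, .cf 0 1 3 0 3 8), (48, .rt 6 7 9 6 7 9), (48, .rt 9 0 2 9 0 2)]) (.br 2 6 4 7 1 2 (.leaf [(49, .am 0 2 6 5 1 1), (110, .rt 9 0 2 9 0 2), (72, .lf 3 5 6 6 3 5), (98, .rt 0 1 3 0 2 3), (12, .lf 5 7 8 8 5 6), (90, .rt 6 7 9 6 7 9), (10, .am 0 7 8 9 1 1), (98, .lf 2 4 5 5 2 4), (72, .pl 0 3 5 4), (110, .lf 6 8 9 9 6 8), (46, .pl 0 2 6 4), (130, .cf 0 1 3 0 3 8), (26, .am 0 5 7 8 1 1), (121, .ex 0), (72, .pl 2 6 4 3), (44, .am 0 6 7 8 1 1), (20, .ta 5 1 2), (98, .lf 4 6 7 7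 4 6), (90, .rt 7 8 0 7 9 0), (23, .am 4 5 6 7 1 1), (40, .cf 0 1 3 0 3 7), (3, .pl 0 2 5 4), (100, .am 0 6 8 9 1 1), (110, .cf 9 0 2 9 2 7)]) (.br 1 3 7 8 1 3 (.leaf [(30, .am 5 6 7 9 1 1), (20, .pl 0 2 5 4), (70, .rt 7 8 0 7 9 0), (40, .ex 0), (324, .rt 0 1 3 0 2 3), (170, .rt 9 0 2 9 0 2), (220, .rt 6 7 9 6 7 9), (2, .am 2 6 5 9 1 1), (30, .am 0 6 7 8 1 1), (16, .rt 0 1 3 0 1 3), (118, .am 0 2 7 8 1 1), (40, .tb 5 1 2), (4, .lf 2 4 5 5 2 4), (20, .cf 9 0 2 9 3 7), (100, .pl 0 2 6 4), (4, .am 0 1 8 9 1 1), (200, .cf 0 1 3 0 3 7), (16, .lf 2 4 5 5 1 4), (40, .cf 9 0 2 8 3 7), (40, .pl 1 3 7 6), (140, .cf 0 1 3 0 3 8), (20, .lf 4 6 7 7 4 6), (20, .am 0 5 7 9 1 1), (10, .am 4 6 7 8 1 1), (5, .am 4 6 8 9 1 1), (10, .ex 2), (75, .am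 0 6 8 9 1 1), (20, .lf 6 8 9 9 6 8), (5, .pl 0 9 6 4), (120, .ex 1), (2, .am 0 1 7 8 1 1), (8, .am 1 6 5 9 1 1), (150, .rt 8 9 1 8 9 2), (20, .rt 9 0 2 9 0 3), (86, .am 0 2 8 9 1 1), (40, .lf 3 5 6 6 3 5), (2, .pl 1 6 7 2)]) (.br 3 6 4 7 1 2 (.leaf [(30, .cf 9 0 2 9 2 7), (10, .am 4 5 6 7 1 1), (110, .rt 8 9 1 8 9 2), (83, .am 0 2 7 8 1 1), (4, .am 0 1 8 9 1 1), (30, .lf 3 5 6 6 3 5), (20, .pl 0 3 6 4), (30, .ex 0), (16, .lf 2 4 5 5 1 4), (10, .am 5 6 7 9 1 1), (110, .cf 0 1 3 0 3 8), (160, .rt 6 7 9 6 7 9), (56, .am 0 2 8 9 1 1), (10, .ex 3), (2, .pl 1 6 7 2), (30, .tb 5 1 2), (16, .rt 0 1 3 0 1 3), (224, .rt 0 1 3 0 2 3), (160, .cf 0 1 3 0 3 7), (20, .lf 4 6 7 7 4 6), (70, .am 0 6 8 9 1 1), (85, .pl 0 2 6 4), (35, .am 0 6 7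 8 1 1), (8, .am 1 6 5 9 1 1), (50, .rt 7 8 0 7 9 0), (2, .am 2 6 5 9 1 1), (4, .lf 2 4 5 5 2 4), (10, .am 0 5 7 9 1 1), (20, .lf 6 8 9 9 6 8), (10, .pl 0 3 5 4), (140, .rt 9 0 2 9 0 2), (2, .am 0 1 7 8 1 1), (85, .ex 2)]) (.br 0 6 1 7 1 1 (.leaf [(4, .tb 5 1 2), (12, .rt 6 7 9 6 7 9), (3, .pl 0 3 6 4), (3, .am 0 3 7 8 1 1), (6, .am 0 1 7 8 1 1), (4, .lf 4 6 7 7 4 5), (3, .am 0 6 7 8 1 1), (8, .cf 0 1 3 0 3 8), (6, .am 0 6 8 9 1 1), (6, .am 0 3 8 9 1 1), (6, .ex 0), (3, .ex 1), (4, .ce 4 6 7 4 7 8), (12, .rt 9 0 2 9 0 3), (12, .rt 0 1 3 0 1 3), (16, .cf 0 1 3 0 3 7), (12, .rt 8 9 1 8 9 1)]) (.leaf [(28, .cf 9 0 2 9 2 7), (80, .lf 4 6 7 7 4 6), (308, .rt 9 0 2 9 0 3), (60, .pl 0 3 5 4), (28, .lf 2 4 5 5 2 4), (80, .lf 6 8 9 9 6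 8), (80, .am 3 5 8 7 1 1), (26, .am 1 6 5 9 1 1), (174, .am 0 3 8 9 1 1), (20, .pl 0 9 5 4), (68, .rt 7 8 0 7 9 0), (184, .ex 1), (138, .pl 0 3 1 6), (40, .am 4 6 7 8 1 1), (308, .cf 0 1 3 0 3 7), (20, .am 4 6 8 9 1 1), (40, .am 0 5 7 8 1 1), (256, .rt 6 7 9 6 7 9), (40, .am 3 6 5 9 1 1), (80, .lf 3 5 6 6 1 5), (3, .am 1 6 8 7 1 1), (40, .am 0 5 7 9 1 1), (124, .pl 0 3 6 4), (56, .am 0 6 7 8 1 1), (80, .tb 5 1 2), (14, .pl 1 6 9 2), (264, .ex 0), (3, .pl 1 6 7 3), (101, .am 3 6 8 7 1 1), (52, .lf 2 4 5 5 1 4), (6, .am 0 1 8 9 1 1), (68, .am 0 6 8 9 1 1), (14, .am 2 6 5 9 1 1), (188, .rt 8 9 1 8 9 3), (132, .rt 0 1 3 0 1 3), (320, .cf 0 1 3 0 3 8)])))))) (.leaf [(24, .rt 0 1 3 0 2 3), (9, .pl 0 2 6 4), (8, .cf 0 1 3 0 3 8), (4,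 .tb 5 1 2), (4, .ce 4 6 7 4 7 8), (6, .am 0 2 8 9 1 1), (12, .rt 9 0 2 9 0 2), (6, .am 0 6 8 9 1 1), (4, .lf 4 6 7 7 4 5), (3, .am 0 6 7 8 1 1), (9, .ex 0), (16, .cf 0 1 3 0 3 7), (12, .rt 8 9 1 8 9 2), (9, .am 0 2 7 8 1 1), (12, .rt 6 7 9 6 7 9)])) (.leaf [(4, .lf 6 8 9 9 6 8), (2, .rt 0 1 3 0 2 3), (1, .pl 0 9 5 4), (1, .am 5 6 8 9 1 1), (2, .lf 5 7 8 8 5 6), (1, .am 5 6 7 9 1 1), (1, .am 0 6 8 9 1 1), (1, .am 0 5 7 9 1 1), (4, .rt 7 8 0 7 9 0), (2, .cf 0 1 3 0 3 8), (2, .lf 2 4 5 5 2 4), (1, .am 0 6 7 9 1 1), (4, .c4 5), (1, .am 4 5 7 9 1 1), (2, .pl 0 2 6 5), (2, .lf 6 8 9 9 5 8), (2, .lf 4 6 7 7 4 6), (4, .rt 6 7 9 6 7 9)])) (.ch 5 (.leaf [(30, .am 3 4 9 8 1 1), (80, .lf 4 6 7 7 4 5), (80, .am 5 7 8 9 1 1), (66, .am 0 6 7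 9 1 1), (148, .rt 7 8 0 7 8 0), (60, .am 4 5 6 8 1 1), (32, .rt 8 9 1 8 9 3), (52, .rt 6 7 9 6 8 9), (138, .rt 9 0 2 9 0 3), (4, .am 0 6 7 8 1 1), (100, .ce 2 4 5 2 5 6), (20, .tb 4 1 2), (10, .cf 7 8 0 7 0 6), (5, .am 4 5 6 9 1 1), (62, .cf 9 0 2 8 3 7), (80, .rt 8 9 1 8 9 1), (78, .cf 9 0 2 9 3 7), (110, .ce 1 3 4 1 4 6), (30, .lf 1 3 4 4 1 3), (200, .rt 5 6 8 5 6 8), (80, .lf 5 7 8 8 5 7), (2, .am 0 7 8 9 1 1), (35, .pl 0 9 5 4), (80, .pl 1 4 8 7), (35, .am 0 5 6 9 1 1), (100, .lf 2 4 5 5 2 4)]) (.leaf [(1, .pl 0 9 7 4), (1, .rt 6 7 9 5 7 9), (1, .pl 4 9 7 5), (1, .lf 7 9 0 0 7 9)]) (.br 0 6 3 7 2 1 (.br 0 6 2 7 1 3 (.leaf [(6, .am 0 2 8 9 1 1), (24, .rt 0 1 3 0 2 3), (12, .rt 8 9 1 8 9 2), (9, .ex 0), (6, .am 0 6 8 9 1 1),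 (9, .am 0 2 7 8 1 1), (4, .lf 4 6 7 7 4 5), (3, .am 0 6 7 8 1 1), (12, .rt 6 7 9 6 7 9), (8, .cf 0 1 3 0 3 8), (16, .cf 0 1 3 0 3 7), (4, .tb 5 1 2), (4, .ce 4 6 7 4 7 8), (12, .rt 9 0 2 9 0 2)]) (.leaf [(118, .rt 3 4 6 2 5 6), (66, .pl 0 6 5 4), (66, .am 0 5 7 8 1 1), (104, .pl 0 3 2 6), (52, .ce 4 6 7 4 7 8), (294, .cf 0 1 3 0 3 8), (102, .tb 5 1 2), (428, .rt 8 9 1 8 9 3), (222, .ex 0), (82, .rt 7 8 0 7 9 0), (214, .am 0 3 8 9 1 1), (52, .rt 3 4 6 3 5 6), (321, .ex 1), (170, .tb 4 1 2), (269, .am 0 3 7 8 1 1), (52, .am 3 5 8 7 1 1), (428, .rt 9 0 2 9 0 3), (85, .am 0 6 7 8 1 1), (732, .cf 0 1 3 0 3 7), (52, .lf 3 5 6 6 3 5), (118, .lf 2 4 5 5 2 4), (44, .am 0 7 8 9 1 1), (170, .am 0 6 8 9 1 1), (118, .rt 0 1 3 0 2 3), (40,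 .ta 5 1 2), (52, .am 4 5 6 7 1 1)])) (.leaf [(20, .cf 0 1 3 0 3 8), (35, .cf 8 9 1 8 1 7), (7, .am 0 5 6 8 1 1), (7, .am 3 4 9 8 1 1), (18, .rt 3 4 6 3 5 6), (7, .rt 3 4 6 3 4 6), (14, .rt 9 0 2 9 0 3), (28, .am 0 7 8 9 1 1), (20, .rt 0 1 3 0 2 3), (40, .rt 7 8 0 7 9 0), (65, .ex 0), (7, .pl 0 9 5 4), (35, .rt 8 9 1 8 9 1), (1, .am 4 6 7 8 1 1), (13, .am 4 5 6 8 1 1), (11, .pl 0 7 3 5), (7, .pl 3 5 8 7), (54, .cf 0 1 3 0 3 7), (25, .am 0 6 7 9 1 1), (46, .cf 9 0 2 9 2 7), (2, .lf 4 6 7 7 4 5), (25, .tb 4 1 2), (40, .lf 3 5 6 6 3 5), (46, .rt 9 0 2 9 0 2), (20, .ta 5 1 2), (20, .lf 2 4 5 5 2 4), (20, .pl 0 2 6 5), (9, .am 0 6 7 8 1 1)])) (.leaf [(3, .am 0 7 8 9 1 1), (42, .am 4 7 8 9 1 1), (100, .lf 5 7 8 8 5 7), (15, .cf 0 1 3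 0 3 7), (180, .rt 7 8 0 7 8 0), (75, .ce 1 3 4 1 5 6), (95, .am 0 6 7 9 1 1), (225, .cf 8 9 1 8 1 7), (4, .am 0 6 7 8 1 1), (15, .lf 5 7 8 8 4 7), (42, .pl 0 9 5 4), (75, .tb 4 1 2), (48, .am 4 5 6 8 1 1), (15, .rt 0 1 3 0 1 3), (90, .lf 2 4 5 5 1 4), (180, .c4 5), (2, .am 0 5 6 8 1 1), (40, .am 0 5 6 9 1 1), (15, .pl 0 1 6 5), (225, .rt 8 9 1 8 9 1), (21, .am 4 6 7 8 1 1), (80, .lf 5 7 8 9 5 7)])) (.ch 5 (.leaf [(6, .am 4 5 6 7 1 1), (2, .am 4 6 7 8 1 1), (10, .lf 5 7 8 8 5 7), (14, .rt 7 8 0 7 8 0), (6, .pl 2 4 9 7), (6, .lf 5 7 8 8 4 7), (7, .pl 0 9 5 4), (7, .am 0 5 7 9 1 1), (6, .ce 1 3 4 1 4 6), (6, .rt 9 0 2 9 0 2), (8, .rt 5 6 8 5 6 9), (8, .cf 9 0 2 9 3 7), (4, .am 4 6 8 9 1 1), (10, .lf 4 6 7 7 4 5), (14, .rt 5 6 8 5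 6 8), (8, .rt 6 7 9 6 7 9), (6, .lf 1 3 4 4 1 2), (3, .am 4 5 7 9 1 1), (8, .rt 9 0 2 9 0 3), (12, .am 5 7 8 9 1 1), (16, .c4 4)]) (.leaf [(1, .pl 4 9 8 6), (1, .pl 4 8 7 5), (1, .rt 6 7 9 6 7 9), (1, .pl 0 9 8 4), (1, .pl 5 8 7 6), (1, .lf 7 9 0 0 7 9), (1, .pl 0 8 7 4)]) (.br 3 6 4 7 1 2 (.leaf [(41, .rt 9 0 2 9 0 2), (56, .rt 6 7 9 6 7 9), (2, .tb 5 1 2), (41, .c4 4), (20, .pl 0 3 5 4), (42, .pl 0 3 6 4), (28, .am 0 6 8 9 1 1), (36, .cf 0 1 3 0 3 7), (15, .rt 7 8 0 7 9 0), (20, .am 0 5 7 8 1 1), (21, .am 4 5 6 7 1 1), (41, .lf 4 6 7 7 4 6), (62, .ex 0), (41, .cf 9 0 2 9 2 7), (20, .ta 5 1 2), (26, .cf 0 1 3 0 3 8), (62, .lf 3 5 6 6 3 5), (14, .am 0 6 7 8 1 1), (13, .am 0 7 8 9 1 1)]) (.br 3 6 4 7 1 1 (.leaf [(9, .pl 0 3 6 4),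 (4, .am 0 5 7 8 1 1), (4, .cf 0 1 3 0 3 8), (4, .am 4 5 6 7 1 1), (8, .c4 4), (12, .cf 0 1 3 0 3 7), (4, .rt 7 8 0 7 9 0), (2, .am 0 3 8 9 1 1), (4, .pl 0 3 5 4), (8, .lf 4 6 7 7 4 6), (12, .ex 0), (4, .rt 9 0 2 9 0 3), (4, .ta 5 1 2), (6, .am 0 6 8 9 1 1), (1, .ex 1), (12, .lf 3 5 6 6 3 5), (4, .cf 9 0 2 9 2 7), (12, .rt 6 7 9 6 7 9), (4, .rt 9 0 2 9 0 2), (1, .am 0 3 7 8 1 1), (3, .am 0 6 7 8 1 1)]) (.leaf [(9, .ex 0), (6, .am 0 6 8 9 1 1), (12, .rt 8 9 1 8 9 3), (16, .cf 0 1 3 0 3 7), (4, .tb 5 1 2), (9, .am 0 3 7 8 1 1), (6, .am 0 3 8 9 1 1), (4, .ce 4 6 7 4 7 8), (4, .lf 4 6 7 7 4 5), (8, .cf 0 1 3 0 3 8), (12, .rt 6 7 9 6 7 9), (12, .rt 9 0 2 9 0 3), (3, .am 0 6 7 8 1 1), (9, .pl 0 3 6 4)]))) (.leaf [(3, .pl 0 9 5 4), (8,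 .lf 5 7 8 9 5 7), (1, .am 0 5 7 9 1 1), (2, .rt 8 9 1 8 9 3), (6, .lf 4 6 7 7 4 6), (8, .c4 5), (8, .rt 7 8 0 7 8 0), (4, .am 0 6 7 9 1 1), (2, .am 0 5 6 7 1 1), (2, .cf 9 0 2 8 3 7), (3, .am 4 5 7 9 1 1), (8, .rt 6 7 9 6 7 9), (6, .c4 4)]))) (.ch 4 (.leaf [(6, .am 4 5 7 8 1 1), (12, .lf 5 7 8 8 5 7), (3, .pl 0 9 5 4), (4, .rt 9 0 2 9 0 2), (12, .rt 4 5 7 4 5 7), (4, .rt 8 9 1 8 9 1), (4, .cf 8 9 1 8 1 7), (4, .rt 7 8 0 7 9 0), (1, .am 0 5 8 9 1 1), (4, .cf 9 0 2 9 2 7), (8, .rt 6 7 9 5 7 9), (3, .am 4 5 8 9 1 1), (2, .am 0 5 7 8 1 1)]) (.ch 5 (.leaf [(16, .am 5 6 8 9 1 1), (8, .rt 9 0 2 9 0 3), (4, .lf 4 6 7 7 4 6), (2, .am 4 5 7 9 1 1), (28, .rt 5 6 8 5 6 8), (4, .rt 7 8 0 7 8 0), (8, .lf 2 4 5 5 1 4), (5, .am 6 7 8 9 1 1),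 (8, .ce 1 3 4 1 5 6), (4, .rt 6 7 9 6 7 0), (8, .cf 9 0 2 9 3 7), (4, .lf 5 7 8 8 4 7), (24, .lf 6 8 9 9 6 8), (1, .am 5 6 7 8 1 1), (2, .am 4 5 8 9 1 1), (3, .am 0 5 6 9 1 1), (4, .pl 0 9 5 4), (2, .am 0 6 7 8 1 1), (1, .am 0 5 8 9 1 1)]) (.leaf [(1, .pl 0 8 7 4), (1, .pl 0 9 8 4), (1, .pl 5 9 8 6), (1, .lf 7 9 0 0 7 9), (1, .pl 5 8 7 6), (1, .pl 4 9 7 5), (1, .rt 6 7 9 6 7 9)]) (.br 0 6 2 7 1 1 (.leaf [(9, .ex 0), (24, .rt 0 1 3 0 2 3), (12, .rt 8 9 1 8 9 2), (4, .lf 4 6 7 7 4 5), (12, .rt 6 7 9 6 7 9), (6, .am 0 6 8 9 1 1), (6, .am 0 2 8 9 1 1), (12, .rt 9 0 2 9 0 2), (8, .cf 0 1 3 0 3 8), (4, .ce 4 6 7 4 7 8), (4, .tb 5 1 2), (9, .am 0 2 7 8 1 1), (16, .cf 0 1 3 0 3 7), (3, .am 0 6 7 8 1 1)]) (.pr 2 3 (.leaf [(16, .rt 6 7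 9 6 7 9), (14, .pl 2 3 7 6), (19, .rt 0 1 3 0 1 3), (44, .ex 0), (24, .rt 9 0 2 9 0 2), (24, .cf 0 1 3 0 3 7), (19, .lf 2 4 5 6 2 4), (4, .ta 1 1 2), (8, .lf 4 6 7 7 4 5), (14, .am 0 2 7 8 1 1), (50, .lf 4 6 7 7 4 6), (12, .am 0 2 8 9 1 1), (25, .rt 2 3 6 2 3 6), (16, .rt 8 9 1 8 9 2), (59, .rt 0 1 3 0 2 3), (44, .pl 0 7 3 4), (11, .pl 0 1 2 3), (10, .cf 0 1 3 0 3 8), (8, .pl 0 1 6 4), (14, .ce 4 6 7 4 7 8), (8, .tb 5 1 2), (7, .tb 1 1 2), (8, .am 0 6 7 9 1 1), (4, .am 0 7 8 9 1 1)]) (.br 0 6 1 7 1 1 (.leaf [(6, .am 4 6 8 9 1 1), (1, .am 2 4 5 6 1 1), (8, .rt 7 8 0 7 9 0), (16, .lf 4 6 7 7 4 5), (104, .rt 0 1 3 0 1 3), (52, .am 0 1 7 8 1 1), (1, .pl 0 2 5 4), (32, .rt 0 1 3 0 2 3), (16, .lf 2 4 5 5 2 4), (40, .cf 0 1 3 0 3 7),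 (104, .rt 8 9 1 8 9 1), (24, .ex 1), (104, .rt 9 0 2 9 0 3), (52, .ex 0), (112, .rt 6 7 9 6 7 9), (104, .cf 9 0 2 9 3 7), (48, .am 0 7 8 9 1 1), (50, .am 0 6 8 9 1 1), (6, .pl 0 9 5 4), (8, .am 4 5 6 7 1 1), (12, .am 4 6 7 8 1 1), (32, .tb 5 1 2), (96, .cf 0 1 3 0 3 8), (16, .am 0 6 7 8 1 1), (16, .lf 2 5 6 6 2 5), (7, .am 0 2 6 5 1 1)]) (.br 0 6 2 7 2 1 (.leaf [(137, .rt 0 1 3 0 2 3), (80, .cf 0 1 3 0 3 8), (20, .tb 5 1 2), (47, .rt 8 9 1 8 9 2), (77, .rt 9 0 2 9 0 2), (64, .rt 6 7 9 6 7 9), (20, .lf 2 5 6 6 1 5), (20, .ex 1), (20, .lf 6 8 9 9 6 8), (46, .ex 2), (10, .am 0 5 7 8 1 1), (20, .am 2 6 5 9 1 1), (10, .pl 0 9 5 4), (46, .ex 0), (22, .am 0 6 8 9 1 1), (26, .am 2 6 8 7 1 1), (20, .lf 2 4 5 5 2 4), (45, .am 0 2 8 9 1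 1), (7, .cf 9 0 2 9 2 7), (24, .am 0 6 7 8 1 1), (77, .cf 0 1 3 0 3 7), (20, .lf 4 6 7 7 4 6), (20, .rt 0 1 3 0 1 3), (10, .am 4 5 7 9 1 1), (20, .am 2 5 8 7 1 1), (17, .rt 7 8 0 7 9 0)]) (.leaf [(320, .cf 0 1 3 0 3 7), (968, .ex 0), (160, .ta 5 1 2), (784, .lf 2 4 5 5 2 4), (720, .rt 7 8 0 7 9 0), (208, .am 4 5 7 8 1 1), (558, .am 0 6 8 9 1 1), (880, .rt 9 0 2 9 0 2), (880, .cf 9 0 2 9 2 7), (96, .lf 5 7 8 8 5 6), (880, .lf 6 8 9 9 6 8), (242, .am 4 6 8 9 1 1), (276, .am 4 6 7 8 1 1), (75, .am 2 4 5 6 1 1), (75, .pl 0 2 5 4), (317, .am 0 2 6 5 1 1), (784, .lf 4 6 7 7 4 6), (184, .am 4 5 6 7 1 1), (76, .am 0 6 7 8 1 1), (576, .lf 2 5 6 6 2 5), (720, .rt 6 7 9 6 7 9), (1040, .cf 0 1 3 0 3 8), (80, .am 0 7 8 9 1 1), (242, .pl 0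 9 5 4), (1360, .rt 0 1 3 0 2 3)]))))) (.leaf [(4, .lf 6 8 9 9 6 8), (1, .am 0 6 8 9 1 1), (1, .pl 0 9 5 4), (2, .rt 0 1 3 0 1 3), (1, .am 4 5 7 9 1 1), (4, .c4 5), (2, .lf 6 8 9 9 5 8), (1, .am 0 5 7 9 1 1), (4, .rt 7 8 0 7 9 0), (2, .lf 4 6 7 7 4 6), (1, .am 5 6 8 9 1 1), (2, .pl 0 1 6 5), (2, .lf 2 4 5 5 1 4), (1, .am 5 6 7 9 1 1), (2, .cf 0 1 3 0 3 8), (2, .lf 5 7 8 8 5 6), (1, .am 0 6 7 9 1 1), (4, .rt 6 7 9 6 7 9)])) (.ch 5 (.leaf [(35, .am 0 5 6 9 1 1), (110, .ce 1 3 4 1 4 6), (30, .am 2 4 9 8 1 1), (200, .rt 5 6 8 5 6 8), (4, .am 0 6 7 8 1 1), (78, .rt 9 0 2 9 0 3), (80, .lf 5 7 8 8 5 7), (80, .rt 8 9 1 8 9 1), (35, .pl 0 9 5 4), (5, .am 4 5 6 9 1 1), (148, .rt 7 8 0 7 8 0), (80, .lf 4 6 7 7 4 5), (20, .tb 4 1 2), (52,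 .rt 6 7 9 6 8 9), (100, .ce 2 4 5 2 5 6), (30, .lf 1 3 4 4 1 2), (32, .rt 8 9 1 8 9 2), (80, .am 5 7 8 9 1 1), (80, .pl 1 4 8 7), (60, .rt 9 0 2 9 0 2), (78, .cf 9 0 2 9 3 7), (10, .cf 7 8 0 7 0 6), (60, .am 4 5 6 8 1 1), (62, .cf 9 0 2 8 2 7), (66, .am 0 6 7 9 1 1), (2, .am 0 7 8 9 1 1), (100, .lf 2 4 5 5 2 4)]) (.leaf [(1, .rt 6 7 9 4 7 9), (1, .lf 7 9 0 0 7 9), (1, .pl 0 9 7 4)]) (.br 0 6 2 7 2 1 (.br 0 6 1 7 1 3 (.leaf [(3, .am 0 2 7 8 1 1), (3, .ex 1), (16, .cf 0 1 3 0 3 7), (8, .cf 0 1 3 0 3 8), (12, .rt 0 1 3 0 2 3), (4, .tb 5 1 2), (12, .rt 6 7 9 6 7 9), (6, .ex 0), (3, .am 0 6 7 8 1 1), (12, .rt 8 9 1 8 9 1), (12, .rt 0 1 3 0 1 3), (4, .lf 4 6 7 7 4 5), (6, .am 0 1 7 8 1 1), (12, .rt 9 0 2 9 0 2), (6, .am 0 2 8 9 1 1),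 (4, .ce 4 6 7 4 7 8), (6, .am 0 6 8 9 1 1)]) (.leaf [(16, .lf 2 4 5 5 1 4), (16, .rt 3 4 6 1 5 6), (16, .tb 4 1 2), (13, .pl 4 5 6 7), (24, .cf 0 1 3 0 3 8), (36, .rt 8 9 1 8 9 2), (27, .ex 1), (2, .am 0 7 8 9 1 1), (72, .rt 0 1 3 0 2 3), (16, .rt 0 1 3 0 1 3), (64, .cf 0 1 3 0 3 7), (12, .rt 7 8 0 7 9 0), (36, .rt 9 0 2 9 0 2), (7, .tb 5 1 2), (3, .ta 5 1 2), (18, .am 0 2 8 9 1 1), (3, .am 0 5 7 8 1 1), (16, .ex 0), (8, .am 0 6 7 8 1 1), (27, .am 0 2 7 8 1 1), (3, .pl 0 6 5 4), (16, .am 0 6 8 9 1 1)])) (.leaf [(60, .ex 0), (60, .cf 0 1 3 0 3 7), (20, .am 0 3 8 9 1 1), (10, .am 4 7 8 9 1 1), (60, .rt 3 4 6 2 5 6), (30, .rt 8 9 1 8 9 1), (20, .cf 9 0 2 8 3 7), (20, .cf 0 1 3 0 3 8), (40, .pl 4 5 6 7), (20, .am 4 5 7 8 1 1), (11,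 .pl 0 9 6 4), (60, .lf 2 4 5 5 2 4), (22, .rt 7 8 0 7 9 0), (16, .ta 4 1 2), (2, .cf 9 0 2 9 2 7), (40, .rt 9 0 2 9 0 3), (60, .rt 0 1 3 0 2 3), (30, .cf 8 9 1 8 1 7), (12, .tb 4 1 2), (20, .ta 5 1 2), (2, .rt 9 0 2 9 0 2), (11, .am 0 6 7 9 1 1), (1, .am 4 6 7 9 1 1)])) (.leaf [(15, .lf 5 7 8 8 4 7), (80, .lf 5 7 8 9 5 7), (100, .lf 5 7 8 8 5 7), (3, .am 0 7 8 9 1 1), (180, .c4 5), (225, .rt 8 9 1 8 9 1), (42, .am 4 7 8 9 1 1), (95, .am 0 6 7 9 1 1), (42, .pl 0 9 5 4), (48, .am 4 5 6 8 1 1), (75, .ce 1 3 4 1 5 6), (40, .am 0 5 6 9 1 1), (15, .rt 0 1 3 0 2 3), (75, .tb 4 1 2), (15, .pl 0 2 6 5), (21, .am 4 6 7 8 1 1), (4, .am 0 6 7 8 1 1), (2, .am 0 5 6 8 1 1), (225, .cf 8 9 1 8 1 7), (15, .cf 0 1 3 0 3 7), (15, .lf 2 4 5 5 2 4),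 (180, .rt 7 8 0 7 8 0), (75, .lf 2 4 5 5 1 4)])) (.ch 5 (.leaf [(14, .rt 5 6 8 5 6 8), (6, .ce 1 3 4 1 4 6), (6, .am 4 5 6 7 1 1), (3, .am 4 5 7 9 1 1), (6, .lf 5 7 8 8 4 7), (6, .pl 2 4 9 7), (8, .rt 6 7 9 6 7 9), (12, .am 5 7 8 9 1 1), (7, .am 0 5 7 9 1 1), (14, .rt 9 0 2 9 0 2), (16, .c4 4), (10, .lf 5 7 8 8 5 7), (8, .rt 5 6 8 5 6 9), (10, .lf 4 6 7 7 4 5), (8, .cf 9 0 2 9 2 7), (6, .lf 1 3 4 4 1 2), (7, .pl 0 9 5 4), (14, .rt 7 8 0 7 8 0), (4, .am 4 6 8 9 1 1), (2, .am 4 6 7 8 1 1)]) (.leaf [(1, .pl 4 9 8 6), (1, .lf 7 9 0 0 7 9), (1, .pl 4 8 7 6), (1, .rt 6 7 9 6 7 9), (1, .pl 0 9 7 4)]) (.br 0 6 2 7 1 1 (.leaf [(16, .cf 0 1 3 0 3 7), (9, .ex 0), (3, .am 0 6 7 8 1 1), (9, .am 0 2 7 8 1 1), (4, .tb 5 1 2), (24, .rt 0 1 3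 0 2 3), (12, .rt 8 9 1 8 9 2), (6, .am 0 2 8 9 1 1), (8, .cf 0 1 3 0 3 8), (4, .lf 4 6 7 7 4 5), (4, .ce 4 6 7 4 7 8), (12, .rt 9 0 2 9 0 2), (12, .rt 6 7 9 6 7 9), (6, .am 0 6 8 9 1 1)]) (.pr 2 3 (.leaf [(4, .ta 1 1 2), (8, .tb 5 1 2), (7, .tb 1 1 2), (14, .am 0 2 7 8 1 1), (16, .rt 6 7 9 6 7 9), (16, .rt 8 9 1 8 9 2), (59, .rt 0 1 3 0 2 3), (14, .pl 2 3 7 6), (25, .rt 2 3 6 2 3 6), (12, .am 0 2 8 9 1 1), (8, .am 0 6 7 9 1 1), (19, .rt 0 1 3 0 1 3), (24, .cf 0 1 3 0 3 7), (44, .ex 0), (50, .lf 4 6 7 7 4 6), (11, .pl 0 1 2 3), (10, .cf 0 1 3 0 3 8), (4, .am 0 7 8 9 1 1), (19, .lf 2 4 5 6 2 4), (24, .rt 9 0 2 9 0 2), (14, .ce 4 6 7 4 7 8), (44, .pl 0 7 3 4), (8, .lf 4 6 7 7 4 5), (8, .pl 0 1 6 4)]) (.leaf [(75, .rt 9 0 2 9 0 2),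 (245, .cf 0 1 3 0 3 7), (205, .lf 4 6 7 7 4 6), (130, .rt 9 0 2 9 0 3), (310, .ex 0), (43, .am 4 5 6 7 1 1), (24, .am 4 6 7 8 1 1), (78, .am 0 6 8 9 1 1), (75, .rt 7 8 0 7 9 0), (62, .am 0 5 6 7 1 1), (10, .tb 5 1 2), (100, .am 4 5 7 8 1 1), (46, .am 0 6 7 8 1 1), (65, .am 0 3 8 9 1 1), (75, .cf 9 0 2 9 2 7), (65, .cf 9 0 2 8 3 7), (62, .am 4 6 8 9 1 1), (205, .c4 4), (310, .rt 0 1 3 0 2 3), (130, .cf 0 1 3 0 3 8), (280, .rt 6 7 9 6 7 9), (100, .ta 5 1 2), (62, .pl 0 9 5 4), (310, .lf 2 5 6 6 2 5)]))) (.leaf [(1, .am 0 5 7 9 1 1), (2, .cf 8 9 1 8 1 7), (3, .pl 0 9 5 4), (6, .c4 4), (8, .c4 5), (6, .lf 4 6 7 7 4 6), (2, .am 0 5 6 7 1 1), (8, .rt 6 7 9 6 7 9), (3, .am 4 5 7 9 1 1), (8, .rt 7 8 0 7 8 0), (4, .am 0 6 7 9 1 1), (8,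 .lf 5 7 8 9 5 7), (2, .rt 8 9 1 8 9 1)]))) (.ch 4 (.leaf [(4, .rt 8 9 1 8 9 1), (3, .pl 0 9 5 4), (4, .rt 7 8 0 7 9 0), (12, .lf 5 7 8 8 5 7), (2, .am 0 5 7 8 1 1), (4, .rt 9 0 2 9 0 2), (3, .am 4 5 8 9 1 1), (1, .am 0 5 8 9 1 1), (6, .am 4 5 7 8 1 1), (4, .cf 9 0 2 9 2 7), (12, .rt 4 5 7 4 5 7), (4, .cf 8 9 1 8 1 7), (8, .rt 6 7 9 5 7 9)]) (.ch 5 (.leaf [(4, .lf 4 6 7 7 4 6), (24, .lf 6 8 9 9 6 8), (8, .cf 9 0 2 9 3 7), (2, .am 4 6 7 8 1 1), (8, .rt 9 0 2 9 0 3), (3, .am 0 5 6 9 1 1), (4, .rt 6 7 9 6 7 0), (2, .am 0 6 7 8 1 1), (4, .lf 5 7 8 8 4 7), (3, .am 4 5 8 9 1 1), (8, .lf 2 4 5 5 2 4), (28, .rt 5 6 8 5 6 8), (4, .pl 0 9 5 4), (4, .rt 7 8 0 7 8 0), (1, .am 0 5 8 9 1 1), (8, .ce 2 4 5 2 5 6), (4, .am 6 7 8 9 1 1), (1, .am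 4 5 6 9 1 1), (16, .am 5 6 8 9 1 1)]) (.leaf [(1, .rt 6 7 9 6 7 9), (1, .pl 0 8 7 4), (1, .pl 0 9 8 4), (1, .lf 7 9 0 0 7 9), (1, .pl 4 9 7 6)]) (.br 0 6 2 7 2 1 (.br 0 3 1 6 2 1 (.br 2 3 7 4 1 1 (.leaf [(36, .pl 0 3 5 4), (24, .am 0 2 6 5 1 1), (36, .pl 1 3 7 6), (132, .lf 4 6 7 7 4 5), (632, .rt 8 9 1 8 9 1), (820, .cf 0 1 3 0 3 7), (320, .lf 2 4 5 5 2 4), (444, .rt 0 1 3 0 1 3), (192, .pl 0 3 6 4), (44, .rt 3 4 6 3 5 6), (80, .ex 1), (32, .am 0 1 8 9 1 1), (247, .am 0 6 7 8 1 1), (228, .ex 0), (900, .rt 0 1 3 0 2 3), (44, .am 1 3 5 6 1 1), (96, .am 4 5 6 7 1 1), (40, .cf 9 0 2 9 3 7), (501, .ex 2), (144, .lf 6 8 9 9 6 8), (892, .rt 6 7 9 6 7 9), (332, .am 0 1 7 8 1 1), (176, .tb 5 1 2), (40, .am 1 2 3 9 1 1), (12, .am 1 2 7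 6 1 1), (672, .cf 0 1 3 0 3 8), (136, .am 1 2 7 5 1 1), (494, .am 0 6 8 9 1 1), (788, .rt 9 0 2 9 0 2), (188, .c4 1), (125, .am 0 2 7 8 1 1), (12, .am 0 5 7 9 1 1), (24, .am 1 6 5 9 1 1), (208, .cf 9 0 2 9 2 7), (250, .am 0 2 8 9 1 1), (260, .rt 7 8 0 7 9 0)]) (.pr 2 3 (.leaf [(39, .ce 4 6 7 4 7 9), (6, .pl 0 3 2 4), (86, .lf 2 4 5 5 1 4), (28, .pl 1 3 7 6), (3, .am 0 6 7 9 1 1), (2, .am 0 3 8 9 1 1), (3, .am 0 3 7 8 1 1), (11, .am 2 3 5 6 1 1), (6, .ex 0), (3, .am 2 3 7 6 1 1), (25, .pl 0 3 6 5), (24, .rt 0 1 3 0 2 3), (72, .ex 1), (2, .am 6 7 8 9 1 1), (14, .am 1 2 3 5 1 1), (22, .am 0 2 1 6 1 1), (22, .am 1 7 8 9 1 1), (6, .am 0 1 7 9 1 1), (4, .am 2 3 9 6 1 1), (36, .lf 4 6 7 7 4 6), (4, .am 2 3 8 6 1 1), (8, .am 0 2 8 9 1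 1), (122, .rt 2 3 6 2 3 6), (39, .rt 0 1 3 0 1 3), (50, .am 1 2 5 6 1 1), (8, .lf 4 6 7 7 4 5), (86, .c4 1), (5, .ce 4 6 7 4 7 8), (24, .rt 9 0 2 9 0 2), (39, .rt 8 9 1 8 9 1), (19, .cf 0 1 3 0 3 8), (8, .cf 0 1 3 0 3 7), (8, .tb 5 1 2), (5, .am 0 1 8 9 1 1)]) (.br 0 6 1 7 1 1 (.leaf [(6, .am 0 6 8 9 1 1), (4, .ce 4 6 7 4 7 8), (3, .ex 3), (3, .am 0 6 7 8 1 1), (4, .tb 5 1 2), (12, .rt 8 9 1 8 9 1), (6, .am 0 2 8 9 1 1), (12, .rt 0 1 3 0 1 3), (6, .ex 0), (6, .am 0 1 7 8 1 1), (12, .rt 9 0 2 9 0 2), (3, .am 0 2 7 8 1 1), (12, .rt 6 7 9 6 7 9), (16, .cf 0 1 3 0 3 7), (8, .cf 0 1 3 0 3 8), (4, .lf 4 6 7 7 4 5), (12, .rt 0 1 3 0 2 3)]) (.leaf [(80, .cf 0 1 3 0 3 8), (64, .rt 6 7 9 6 7 9), (20, .lf 6 8 9 9 6 8), (20, .tb 5 1 2), (10,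 .am 1 6 5 9 1 1), (17, .rt 7 8 0 7 9 0), (7, .rt 9 0 2 9 0 3), (20, .lf 2 4 5 5 1 4), (70, .rt 9 0 2 9 0 2), (17, .am 0 6 8 9 1 1), (71, .rt 0 1 3 0 1 3), (10, .am 4 5 7 8 1 1), (31, .rt 8 9 1 8 9 1), (40, .am 0 2 8 9 1 1), (5, .am 0 1 8 9 1 1), (16, .rt 8 9 1 8 9 2), (5, .pl 0 6 5 4), (18, .pl 1 6 7 2), (24, .am 0 6 7 8 1 1), (46, .ex 3), (66, .ex 0), (18, .am 1 6 8 7 1 1), (8, .am 2 6 8 7 1 1), (86, .rt 0 1 3 0 2 3), (10, .am 0 5 7 9 1 1), (77, .cf 0 1 3 0 3 7), (10, .am 2 6 5 9 1 1), (20, .am 2 5 8 7 1 1), (20, .lf 4 6 7 7 4 6), (7, .cf 9 0 2 9 3 7), (5, .pl 0 9 5 4), (20, .lf 2 5 6 6 1 5), (5, .am 4 6 8 9 1 1)])))) (.leaf [(8, .cf 0 1 3 0 3 8), (16, .cf 0 1 3 0 3 7), (3, .am 0 6 7 8 1 1), (4, .tb 5 1 2), (4, .ce 4 6 7 4 7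 8), (4, .lf 4 6 7 7 4 5), (6, .am 0 1 7 8 1 1), (12, .rt 8 9 1 8 9 1), (3, .ex 1), (6, .pl 1 3 7 6), (6, .ex 0), (12, .rt 0 1 3 0 1 3), (6, .am 0 6 8 9 1 1), (12, .rt 0 1 3 0 2 3), (12, .rt 9 0 2 9 0 2), (12, .rt 6 7 9 6 7 9), (3, .am 0 2 7 8 1 1), (6, .am 0 2 8 9 1 1)])) (.pr 2 3 (.leaf [(1, .am 0 2 6 5 1 1), (2, .lf 4 6 7 7 4 6), (1, .pl 1 2 5 6), (4, .lf 2 4 5 5 2 4), (2, .pl 0 7 3 2), (2, .rt 0 1 3 0 2 3), (2, .am 0 6 2 7 1 1), (4, .rt 2 3 6 2 3 6), (6, .ex 0), (1, .am 1 2 4 5 1 1), (1, .pl 0 7 2 4), (2, .lf 1 3 4 4 1 2), (1, .pl 0 7 5 4), (2, .c4 1)]) (.leaf [(242, .am 4 6 8 9 1 1), (576, .lf 2 5 6 6 2 5), (784, .lf 2 4 5 5 2 4), (880, .cf 9 0 2 9 2 7), (75, .am 2 4 5 6 1 1), (76, .am 0 6 7 8 1 1), (242, .pl 0 9 5 4), (80,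 .am 0 7 8 9 1 1), (720, .rt 6 7 9 6 7 9), (320, .cf 0 1 3 0 3 7), (880, .lf 6 8 9 9 6 8), (96, .lf 5 7 8 8 5 6), (75, .pl 0 2 5 4), (1360, .rt 0 1 3 0 2 3), (880, .rt 9 0 2 9 0 2), (968, .ex 0), (317, .am 0 2 6 5 1 1), (184, .am 4 5 6 7 1 1), (208, .am 4 5 7 8 1 1), (160, .ta 5 1 2), (720, .rt 7 8 0 7 9 0), (558, .am 0 6 8 9 1 1), (784, .lf 4 6 7 7 4 6), (276, .am 4 6 7 8 1 1), (1040, .cf 0 1 3 0 3 8)]))) (.leaf [(1, .am 4 5 7 9 1 1), (1, .pl 0 9 5 4), (2, .rt 0 1 3 0 2 3), (2, .lf 6 8 9 9 5 8), (1, .am 5 6 7 9 1 1), (1, .am 0 6 7 9 1 1), (2, .lf 4 6 7 7 4 6), (2, .lf 2 4 5 5 2 4), (1, .am 0 5 7 9 1 1), (2, .pl 0 2 6 5), (2, .lf 5 7 8 8 5 6), (4, .lf 6 8 9 9 6 8), (1, .am 5 6 8 9 1 1), (4, .rt 7 8 0 7 9 0), (4, .c4 5), (4, .rt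 6 7 9 6 7 9), (1, .am 0 6 8 9 1 1), (2, .cf 0 1 3 0 3 8)])) (.ch 5 (.leaf [(60, .am 4 5 6 8 1 1), (35, .am 0 5 6 9 1 1), (66, .am 0 6 7 9 1 1), (4, .am 0 6 7 8 1 1), (138, .rt 9 0 2 9 0 3), (10, .cf 7 8 0 7 0 6), (2, .cf 8 9 1 8 1 7), (148, .rt 7 8 0 7 8 0), (80, .lf 5 7 8 8 5 7), (138, .cf 9 0 2 9 3 7), (5, .am 4 5 6 9 1 1), (200, .rt 5 6 8 5 6 8), (100, .lf 2 4 5 5 2 4), (112, .rt 8 9 1 8 9 1), (52, .rt 6 7 9 6 8 9), (35, .pl 0 9 5 4), (20, .tb 4 1 2), (110, .ce 1 3 4 1 4 6), (100, .ce 2 4 5 2 5 6), (2, .am 0 7 8 9 1 1), (110, .pl 1 4 8 7), (30, .am 4 7 8 9 1 1), (80, .lf 4 6 7 7 4 5), (80, .am 5 7 8 9 1 1)]) (.leaf [(1, .lf 7 9 0 0 7 9), (1, .pl 0 8 7 5), (1, .pl 0 9 8 5), (1, .rt 6 7 9 5 7 9)]) (.br 0 6 2 7 2 1 (.br 0 6 1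 7 1 3 (.leaf [(12, .rt 0 1 3 0 2 3), (8, .cf 0 1 3 0 3 8), (6, .ex 0), (12, .rt 9 0 2 9 0 2), (4, .lf 4 6 7 7 4 5), (12, .rt 0 1 3 0 1 3), (4, .tb 5 1 2), (6, .am 0 6 8 9 1 1), (12, .rt 8 9 1 8 9 1), (3, .ex 1), (6, .am 0 2 8 9 1 1), (3, .am 0 2 7 8 1 1), (12, .rt 6 7 9 6 7 9), (3, .am 0 6 7 8 1 1), (16, .cf 0 1 3 0 3 7), (4, .ce 4 6 7 4 7 8), (6, .am 0 1 7 8 1 1)]) (.leaf [(16, .ex 0), (7, .tb 5 1 2), (2, .am 0 7 8 9 1 1), (16, .rt 0 1 3 0 1 3), (16, .rt 3 4 6 1 5 6), (13, .pl 4 5 6 7), (3, .am 0 5 7 8 1 1), (36, .rt 8 9 1 8 9 2), (72, .rt 0 1 3 0 2 3), (24, .cf 0 1 3 0 3 8), (12, .rt 7 8 0 7 9 0), (18, .am 0 2 8 9 1 1), (27, .am 0 2 7 8 1 1), (36, .rt 9 0 2 9 0 2), (3, .ta 5 1 2), (3, .pl 0 6 5 4), (16, .lf 2 4 5 5 1 4), (16,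 .tb 4 1 2), (27, .ex 1), (16, .am 0 6 8 9 1 1), (64, .cf 0 1 3 0 3 7), (8, .am 0 6 7 8 1 1)])) (.leaf [(60, .rt 3 4 6 2 5 6), (22, .rt 7 8 0 7 9 0), (20, .am 0 7 8 9 1 1), (60, .rt 0 1 3 0 2 3), (40, .cf 0 1 3 0 3 7), (60, .ex 0), (16, .ta 4 1 2), (20, .cf 0 1 3 0 3 8), (1, .am 4 6 7 9 1 1), (42, .rt 9 0 2 9 0 2), (20, .am 4 5 7 8 1 1), (30, .cf 9 0 2 8 2 7), (42, .cf 9 0 2 9 2 7), (60, .lf 2 4 5 5 2 4), (12, .tb 4 1 2), (20, .ta 5 1 2), (11, .am 0 6 7 9 1 1), (30, .rt 8 9 1 8 9 2), (10, .am 4 7 8 9 1 1), (11, .pl 0 9 6 4), (40, .pl 4 5 6 7)])) (.leaf [(225, .cf 9 0 2 8 2 7), (80, .lf 5 7 8 9 5 7), (95, .am 0 6 7 9 1 1), (180, .c4 5), (15, .rt 0 1 3 0 1 3), (180, .rt 7 8 0 7 8 0), (4, .am 0 6 7 8 1 1), (15, .lf 5 7 8 8 4 7), (21,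 .am 4 6 7 8 1 1), (42, .pl 0 9 5 4), (2, .am 0 5 6 8 1 1), (40, .am 0 5 6 9 1 1), (90, .lf 2 4 5 5 1 4), (48, .am 4 5 6 8 1 1), (15, .pl 0 1 6 5), (100, .lf 5 7 8 8 5 7), (225, .rt 8 9 1 8 9 2), (3, .am 0 7 8 9 1 1), (75, .ce 1 3 4 1 5 6), (42, .am 4 7 8 9 1 1), (15, .cf 0 1 3 0 3 7), (75, .tb 4 1 2)])) (.ch 5 (.leaf [(4, .am 4 6 8 9 1 1), (2, .am 4 6 7 8 1 1), (6, .am 4 5 6 7 1 1), (12, .am 5 7 8 9 1 1), (10, .lf 5 7 8 8 5 7), (6, .lf 1 3 4 4 1 3), (7, .am 0 5 7 9 1 1), (10, .lf 4 6 7 7 4 5), (8, .rt 6 7 9 6 7 9), (14, .rt 5 6 8 5 6 8), (6, .ce 1 3 4 1 4 6), (14, .rt 7 8 0 7 8 0), (8, .cf 9 0 2 9 3 7), (14, .rt 9 0 2 9 0 3), (6, .lf 5 7 8 8 4 7), (3, .am 4 5 7 9 1 1), (7, .pl 0 9 5 4), (6, .pl 3 4 9 7), (16, .c4 4), (8, .rt 5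 6 8 5 6 9)]) (.leaf [(1, .pl 4 9 7 5), (1, .rt 6 7 9 6 7 9), (1, .pl 0 9 7 4), (1, .pl 5 9 7 6), (1, .lf 7 9 0 0 7 9)]) (.br 0 6 2 7 1 1 (.leaf [(9, .am 0 2 7 8 1 1), (4, .tb 5 1 2), (8, .cf 0 1 3 0 3 8), (16, .cf 0 1 3 0 3 7), (3, .am 0 6 7 8 1 1), (12, .rt 6 7 9 6 7 9), (9, .ex 0), (6, .am 0 6 8 9 1 1), (4, .lf 4 6 7 7 4 5), (12, .rt 8 9 1 8 9 2), (6, .am 0 2 8 9 1 1), (4, .ce 4 6 7 4 7 8), (12, .rt 9 0 2 9 0 2), (24, .rt 0 1 3 0 2 3)]) (.pr 2 3 (.leaf [(16, .am 2 6 5 9 1 1), (86, .am 4 6 7 8 1 1), (236, .cf 0 1 3 0 3 7), (86, .pl 0 9 5 4), (600, .ex 0), (720, .rt 0 1 3 0 2 3), (4, .am 0 5 6 7 1 1), (384, .cf 0 1 3 0 3 8), (4, .am 0 7 8 9 1 1), (384, .rt 9 0 2 9 0 2), (664, .lf 1 3 4 4 1 2), (54, .pl 1 2 7 6), (872, .rt 2 3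 6 2 3 6), (8, .am 4 5 7 9 1 1), (359, .am 1 2 4 5 1 1), (268, .c4 4), (128, .tb 5 1 2), (359, .pl 1 2 5 6), (42, .pl 0 9 2 4), (80, .am 0 2 8 9 1 1), (100, .pl 0 7 3 2), (120, .am 2 4 9 8 1 1), (1000, .lf 2 4 5 5 2 4), (100, .am 2 4 8 7 1 1), (108, .rt 8 9 1 8 9 1), (128, .lf 4 6 7 7 4 5), (772, .c4 1), (54, .am 1 4 8 7 1 1), (82, .am 0 2 6 5 1 1), (172, .am 0 6 8 9 1 1), (43, .am 2 4 5 6 1 1), (376, .rt 6 7 9 6 7 9), (368, .lf 4 6 7 7 4 6)]) (.leaf [(65, .am 0 7 8 9 1 1), (205, .lf 4 6 7 7 4 6), (78, .am 0 6 8 9 1 1), (130, .cf 0 1 3 0 3 8), (310, .ex 0), (205, .rt 9 0 2 9 0 3), (62, .pl 0 9 5 4), (100, .am 4 5 7 8 1 1), (24, .am 4 6 7 8 1 1), (43, .am 4 5 6 7 1 1), (10, .tb 5 1 2), (100, .ta 5 1 2), (280, .rt 6 7 9 6 7 9), (62,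 .am 0 5 6 7 1 1), (310, .lf 2 5 6 6 2 5), (62, .am 4 6 8 9 1 1), (75, .rt 7 8 0 7 9 0), (180, .cf 0 1 3 0 3 7), (205, .c4 4), (310, .rt 0 1 3 0 2 3), (205, .cf 9 0 2 9 3 7), (46, .am 0 6 7 8 1 1)]))) (.leaf [(2, .rt 8 9 1 8 9 2), (4, .am 0 6 7 9 1 1), (2, .cf 9 0 2 8 2 7), (8, .lf 5 7 8 9 5 7), (8, .rt 7 8 0 7 8 0), (8, .rt 6 7 9 6 7 9), (2, .am 0 5 6 7 1 1), (3, .am 4 5 7 9 1 1), (8, .c4 5), (6, .lf 4 6 7 7 4 6), (1, .am 0 5 7 9 1 1), (3, .pl 0 9 5 4), (6, .c4 4)])))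

def C3543654654_4 : Tr :=
  .pr 2 2 (.leaf [(2, .am 0 6 8 9 1 1), (4, .rt 6 7 9 6 7 9), (1, .pl 2 3 7 6), (3, .lf 3 5 6 6 3 5), (4, .cf 0 1 3 0 3 7), (1, .am 0 2 7 8 1 1), (1, .rt 2 3 5 2 3 5), (4, .cf 0 1 3 0 3 8), (2, .am 0 2 8 9 1 1), (2, .rt 2 3 5 1 3 5), (2, .pl 1 3 7 6), (4, .rt 7 8 0 7 8 0), (4, .rt 9 0 2 9 0 2), (2, .am 0 1 7 8 1 1), (4, .rt 0 1 3 0 1 3), (2, .pl 0 1 6 5), (4, .rt 0 1 3 0 2 3), (1, .pl 0 2 6 5), (1, .am 0 6 7 8 1 1), (4, .rt 8 9 1 8 9 1)]) (.ch 4 (.leaf [(4, .cf 9 0 2 9 2 7), (8, .rt 6 7 9 5 7 9), (3, .pl 0 9 5 4), (6, .am 4 5 7 8 1 1), (12, .rt 4 5 7 4 5 7), (12, .lf 5 7 8 8 5 7), (4, .rt 9 0 2 9 0 2), (4, .cf 9 0 2 8 3 7), (3, .am 4 5 8 9 1 1), (4, .rt 7 8 0 7 9 0), (2, .am 0 5 7 8 1 1), (4, .rt 8 9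 1 8 9 3), (1, .am 0 5 8 9 1 1)]) (.ch 5 (.leaf [(16, .am 5 6 8 9 1 1), (2, .am 4 6 7 8 1 1), (4, .pl 0 9 5 4), (5, .am 6 7 8 9 1 1), (1, .am 4 5 6 9 1 1), (8, .rt 9 0 2 9 0 2), (8, .ce 2 4 5 2 5 6), (2, .am 0 5 6 9 1 1), (2, .am 0 5 7 9 1 1), (8, .cf 9 0 2 9 2 7), (4, .lf 4 6 7 7 4 6), (24, .lf 6 8 9 9 6 8), (3, .am 4 5 8 9 1 1), (8, .lf 2 4 5 5 2 4), (4, .rt 7 8 0 7 8 0), (1, .am 5 6 7 8 1 1), (4, .rt 6 7 9 6 7 0), (4, .lf 5 7 8 8 4 7), (28, .rt 5 6 8 5 6 8)]) (.leaf [(1, .lf 7 9 0 0 7 9), (1, .pl 5 9 8 6), (1, .pl 5 8 7 6), (1, .rt 6 7 9 6 7 9), (1, .pl 4 9 7 5), (1, .pl 0 9 7 4)]) (.br 2 6 4 7 2 1 (.br 0 6 1 7 1 2 (.leaf [(6, .lf 3 5 6 6 2 5), (24, .ex 0), (6, .lf 2 4 5 5 2 4), (48, .rt 9 0 2 9 0 3), (9, .ex 1), (12, .rt 0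 1 3 0 2 3), (3, .am 0 2 6 5 1 1), (24, .am 0 3 8 9 1 1), (4, .ce 4 6 7 4 7 8), (10, .lf 4 6 7 7 4 5), (3, .pl 0 2 5 4), (48, .rt 0 1 3 0 1 3), (3, .am 4 5 6 7 1 1), (24, .cf 9 0 2 8 3 7), (12, .am 0 6 7 8 1 1), (24, .am 0 1 7 8 1 1), (48, .rt 6 7 9 6 7 9), (6, .pl 0 2 6 4), (16, .tb 5 1 2), (48, .rt 8 9 1 8 9 1), (24, .am 0 6 8 9 1 1), (40, .cf 0 1 3 0 3 7), (44, .cf 0 1 3 0 3 8)]) (.br 2 6 4 7 1 2 (.leaf [(90, .rt 6 7 9 6 7 9), (170, .rt 0 1 3 0 2 3), (130, .cf 0 1 3 0 3 8), (44, .am 0 6 7 8 1 1), (12, .lf 5 7 8 8 5 6), (23, .am 4 5 6 7 1 1), (75, .pl 0 2 5 4), (26, .am 0 5 7 8 1 1), (121, .ex 0), (10, .am 0 7 8 9 1 1), (110, .lf 6 8 9 9 6 8), (90, .rt 7 8 0 7 9 0), (98, .lf 2 4 5 5 2 4), (72, .lf 3 5 6 6 2 5), (110, .cf 9 0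 2 9 3 7), (46, .pl 0 2 6 4), (98, .lf 4 6 7 7 4 6), (40, .cf 0 1 3 0 3 7), (49, .am 0 2 6 5 1 1), (20, .ta 5 1 2), (100, .am 0 6 8 9 1 1), (110, .rt 9 0 2 9 0 3)]) (.br 1 3 7 8 1 3 (.leaf [(40, .tb 5 1 2), (75, .am 0 6 8 9 1 1), (8, .am 1 6 5 9 1 1), (2, .am 0 1 7 8 1 1), (20, .pl 0 2 5 4), (4, .am 0 1 8 9 1 1), (120, .ex 1), (30, .am 0 6 7 8 1 1), (324, .rt 0 1 3 0 2 3), (200, .cf 0 1 3 0 3 7), (20, .am 0 5 7 9 1 1), (5, .am 4 6 8 9 1 1), (4, .lf 2 4 5 5 2 4), (2, .pl 1 6 7 2), (220, .rt 6 7 9 6 7 9), (16, .rt 0 1 3 0 1 3), (10, .am 4 6 7 8 1 1), (40, .ex 0), (150, .rt 8 9 1 8 9 2), (5, .pl 0 9 6 4), (20, .cf 9 0 2 9 2 7), (2, .am 2 6 5 9 1 1), (30, .am 5 6 7 9 1 1), (86, .am 0 2 8 9 1 1), (100, .pl 0 2 6 4), (10, .ex 2), (20,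 .lf 6 8 9 9 6 8), (20, .lf 4 6 7 7 4 6), (140, .cf 0 1 3 0 3 8), (16, .lf 2 4 5 5 1 4), (40, .pl 1 3 7 6), (40, .cf 9 0 2 8 3 7), (190, .rt 9 0 2 9 0 2), (40, .lf 3 5 6 6 3 5), (118, .am 0 2 7 8 1 1), (70, .rt 7 8 0 7 9 0)]) (.br 3 6 4 7 1 2 (.leaf [(4, .am 0 1 8 9 1 1), (10, .pl 0 2 5 4), (30, .pl 0 3 6 4), (30, .rt 9 0 2 9 0 3), (10, .am 4 5 6 7 1 1), (30, .lf 3 5 6 6 3 5), (16, .rt 0 1 3 0 1 3), (30, .ex 0), (30, .tb 5 1 2), (224, .rt 0 1 3 0 2 3), (160, .cf 0 1 3 0 3 7), (10, .am 0 5 7 9 1 1), (110, .rt 8 9 1 8 9 2), (30, .cf 9 0 2 9 3 7), (2, .am 0 1 7 8 1 1), (4, .lf 2 4 5 5 2 4), (50, .rt 7 8 0 7 9 0), (8, .am 1 6 5 9 1 1), (20, .lf 6 8 9 9 6 8), (110, .cf 0 1 3 0 3 8), (2, .am 2 6 5 9 1 1), (16, .lf 2 4 5 5 1 4), (160,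 .rt 6 7 9 6 7 9), (75, .pl 0 2 6 4), (110, .rt 9 0 2 9 0 2), (10, .am 5 6 7 9 1 1), (2, .pl 1 6 7 2), (70, .am 0 6 8 9 1 1), (56, .am 0 2 8 9 1 1), (83, .am 0 2 7 8 1 1), (85, .ex 2), (20, .lf 4 6 7 7 4 6), (10, .ex 3), (35, .am 0 6 7 8 1 1)]) (.br 0 6 1 7 1 1 (.leaf [(3, .am 0 6 7 8 1 1), (4, .ce 4 6 7 4 7 8), (12, .rt 0 1 3 0 1 3), (6, .am 0 3 8 9 1 1), (6, .ex 0), (4, .tb 5 1 2), (6, .am 0 6 8 9 1 1), (16, .cf 0 1 3 0 3 7), (12, .rt 6 7 9 6 7 9), (6, .am 0 1 7 8 1 1), (3, .am 0 3 7 8 1 1), (3, .pl 0 3 6 4), (12, .rt 8 9 1 8 9 1), (12, .rt 9 0 2 9 0 3), (4, .lf 4 6 7 7 4 5), (3, .ex 1), (8, .cf 0 1 3 0 3 8)]) (.leaf [(40, .am 0 5 7 9 1 1), (308, .rt 9 0 2 9 0 3), (20, .am 4 6 8 9 1 1), (184, .ex 1), (80, .lf 3 5 6 6 3 5), (80,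 .lf 6 8 9 9 6 8), (80, .am 3 5 8 7 1 1), (68, .am 0 6 8 9 1 1), (40, .am 3 6 5 9 1 1), (80, .lf 4 6 7 7 4 6), (96, .am 0 6 7 8 1 1), (3, .am 1 6 8 7 1 1), (20, .pl 0 3 5 4), (256, .rt 6 7 9 6 7 9), (320, .cf 0 1 3 0 3 8), (188, .rt 8 9 1 8 9 3), (164, .pl 0 3 6 4), (174, .am 0 3 8 9 1 1), (264, .ex 0), (308, .cf 0 1 3 0 3 7), (218, .pl 0 3 1 6), (52, .lf 2 4 5 5 1 4), (14, .pl 1 6 9 2), (28, .cf 9 0 2 9 2 7), (52, .rt 0 1 3 0 1 3), (80, .tb 5 1 2), (28, .lf 2 4 5 5 2 4), (3, .pl 1 6 7 3), (26, .am 1 6 5 9 1 1), (6, .am 0 1 8 9 1 1), (14, .am 2 6 5 9 1 1), (68, .rt 7 8 0 7 9 0), (20, .pl 0 9 5 4), (101, .am 3 6 8 7 1 1), (40, .am 4 5 7 8 1 1)])))))) (.leaf [(12, .rt 8 9 1 8 9 2), (4, .lf 4 6 7 7 4 5), (24, .rt 0 1 3 0 2 3), (8,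 .cf 0 1 3 0 3 8), (12, .rt 6 7 9 6 7 9), (4, .ce 4 6 7 4 7 8), (4, .tb 5 1 2), (6, .am 0 2 8 9 1 1), (9, .pl 0 2 6 4), (3, .am 0 6 7 8 1 1), (9, .ex 0), (12, .rt 9 0 2 9 0 2), (9, .am 0 2 7 8 1 1), (6, .am 0 6 8 9 1 1), (16, .cf 0 1 3 0 3 7)])) (.leaf [(1, .am 0 6 7 9 1 1), (1, .am 5 6 7 9 1 1), (2, .cf 0 1 3 0 3 8), (2, .pl 0 2 6 5), (4, .rt 6 7 9 6 7 9), (2, .lf 2 4 5 5 2 4), (1, .am 4 5 7 9 1 1), (1, .am 5 6 8 9 1 1), (1, .am 0 6 8 9 1 1), (2, .lf 5 7 8 8 5 6), (2, .lf 4 6 7 7 4 6), (4, .c4 5), (2, .lf 6 8 9 9 5 8), (1, .am 0 5 7 9 1 1), (4, .lf 6 8 9 9 6 8), (4, .rt 7 8 0 7 9 0), (1, .pl 0 9 5 4), (2, .rt 0 1 3 0 2 3)])) (.ch 5 (.leaf [(60, .rt 9 0 2 9 0 2), (35, .pl 0 9 5 4), (10, .cf 7 8 0 7 0 6), (80, .lf 5 7 8 8 5 7),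 (52, .rt 6 7 9 6 8 9), (110, .ce 1 3 4 1 4 6), (112, .rt 8 9 1 8 9 1), (30, .cf 9 0 2 8 2 7), (2, .am 0 7 8 9 1 1), (80, .am 5 7 8 9 1 1), (100, .ce 1 3 4 1 5 6), (200, .rt 5 6 8 5 6 8), (5, .am 4 5 6 9 1 1), (30, .lf 1 3 4 4 1 2), (35, .am 0 5 6 9 1 1), (78, .cf 9 0 2 9 3 7), (4, .am 0 6 7 8 1 1), (80, .pl 1 4 8 7), (78, .rt 9 0 2 9 0 3), (100, .lf 2 4 5 5 1 4), (148, .rt 7 8 0 7 8 0), (60, .am 4 5 6 8 1 1), (20, .tb 4 1 2), (66, .am 0 6 7 9 1 1), (32, .cf 8 9 1 8 1 7), (30, .am 2 4 9 8 1 1), (80, .lf 4 6 7 7 4 5)]) (.leaf [(1, .pl 0 9 7 4), (1, .lf 7 9 0 0 7 9), (1, .rt 6 7 9 6 7 9), (1, .pl 4 9 8 6), (1, .pl 4 8 7 5), (1, .pl 5 8 7 6)]) (.br 0 6 3 7 2 1 (.br 0 6 1 7 1 2 (.leaf [(4, .ce 4 6 7 4 7 8), (12, .rt 9 0 2 9 0 3), (3,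 .am 0 6 7 8 1 1), (3, .am 0 3 7 8 1 1), (3, .ex 1), (12, .rt 8 9 1 8 9 1), (6, .am 0 3 8 9 1 1), (8, .cf 0 1 3 0 3 8), (12, .rt 6 7 9 6 7 9), (6, .am 0 1 7 8 1 1), (16, .cf 0 1 3 0 3 7), (6, .am 0 6 8 9 1 1), (4, .lf 4 6 7 7 4 5), (6, .ex 0), (4, .tb 5 1 2), (12, .rt 0 1 3 0 1 3)]) (.br 1 6 4 7 1 1 (.leaf [(2, .ex 1), (4, .am 0 3 8 9 1 1), (6, .cf 0 1 3 0 3 8), (2, .am 0 6 7 8 1 1), (4, .rt 6 7 9 6 7 9), (1, .am 1 4 5 6 1 1), (6, .ex 2), (8, .rt 9 0 2 9 0 3), (6, .am 0 3 7 8 1 1), (2, .lf 2 4 5 5 1 4), (12, .cf 0 1 3 0 3 7), (2, .tb 5 1 2), (1, .am 4 5 6 7 1 1), (2, .lf 3 5 6 6 1 5), (2, .ce 1 3 4 1 4 6), (2, .rt 7 8 0 7 9 0), (8, .rt 8 9 1 8 9 3), (2, .tb 4 1 2), (2, .rt 0 1 3 0 1 3), (1, .ex 0), (4, .am 0 6 8 9 1 1)]) (.leaf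 [(153, .pl 0 3 1 6), (232, .am 0 3 7 8 1 1), (398, .ex 1), (350, .tb 4 1 2), (464, .am 0 1 7 8 1 1), (350, .ce 1 3 4 1 4 6), (88, .ce 4 6 7 4 7 8), (12, .pl 0 9 5 4), (146, .am 0 6 7 8 1 1), (12, .am 4 6 8 9 1 1), (328, .am 0 6 8 9 1 1), (1317, .cf 0 1 3 0 3 7), (928, .rt 9 0 2 9 0 3), (5, .am 0 1 8 9 1 1), (127, .rt 7 8 0 7 9 0), (464, .am 0 3 8 9 1 1), (114, .pl 1 6 4 3), (713, .cf 0 1 3 0 3 8), (136, .am 4 5 6 7 1 1), (267, .lf 3 5 6 6 3 5), (10, .am 1 6 5 9 1 1), (121, .am 0 1 6 5 1 1), (114, .pl 0 3 5 4), (835, .rt 0 1 3 0 1 3), (267, .tb 5 1 2), (923, .rt 8 9 1 8 9 1), (464, .ex 0), (114, .am 0 7 8 9 1 1), (232, .ex 2), (24, .am 4 6 7 8 1 1), (262, .lf 2 4 5 5 1 4), (5, .am 0 5 7 9 1 1)]))) (.br 0 6 2 7 2 1 (.leaf [(100,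 .ce 4 6 7 4 7 8), (580, .am 0 2 7 8 1 1), (200, .am 4 5 6 7 1 1), (372, .tb 4 1 2), (36, .am 0 5 7 9 1 1), (816, .rt 9 0 2 9 0 2), (272, .lf 2 4 5 5 1 4), (452, .cf 0 1 3 0 3 8), (72, .pl 0 6 5 4), (272, .ce 1 3 4 1 5 6), (50, .pl 1 4 7 2), (25, .am 2 4 9 8 1 1), (264, .rt 7 8 0 7 9 0), (752, .rt 8 9 1 8 9 2), (36, .am 0 5 7 8 1 1), (100, .ce 1 3 4 1 4 6), (383, .am 0 2 8 9 1 1), (630, .ex 0), (372, .am 0 6 8 9 1 1), (108, .ta 5 1 2), (472, .ex 1), (25, .pl 0 9 2 4), (1588, .cf 0 1 3 0 3 7), (472, .lf 3 5 6 6 3 5), (186, .am 0 6 7 8 1 1), (100, .rt 8 9 1 8 9 1), (1568, .rt 0 1 3 0 2 3), (148, .tb 5 1 2), (72, .am 5 7 8 9 1 1), (50, .am 1 4 8 7 1 1)]) (.leaf [(20, .tb 4 1 2), (8, .am 4 5 7 9 1 1), (19, .am 2 4 5 6 1 1), (2, .am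 4 5 6 7 1 1), (32, .cf 8 9 1 8 1 7), (16, .ta 5 1 2), (20, .ce 1 3 4 1 4 6), (32, .rt 8 9 1 8 9 1), (1, .pl 0 9 2 4), (16, .cf 0 1 3 0 3 8), (18, .rt 0 1 3 0 2 3), (18, .am 0 6 7 9 1 1), (2, .am 4 6 7 9 1 1), (18, .lf 4 6 7 7 4 5), (28, .rt 7 8 0 7 9 0), (44, .cf 9 0 2 9 2 7), (44, .rt 9 0 2 9 0 2), (30, .ex 1), (19, .ex 0), (16, .am 0 7 8 9 1 1), (9, .pl 0 9 5 4), (9, .am 0 5 6 7 1 1), (20, .lf 1 3 4 4 1 2), (38, .lf 2 4 5 5 2 4), (30, .lf 3 5 6 6 3 5), (16, .am 5 7 8 9 1 1), (32, .cf 0 1 3 0 3 7)]))) (.leaf [(75, .tb 4 1 2), (15, .lf 2 4 5 5 2 4), (100, .lf 5 7 8 8 5 7), (225, .rt 8 9 1 8 9 2), (4, .am 0 6 7 8 1 1), (75, .ce 1 3 4 1 5 6), (15, .cf 0 1 3 0 3 7), (95, .am 0 6 7 9 1 1), (42, .pl 0 9 5 4), (80, .lf 5 7 8 9 5 7),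 (48, .am 4 5 6 8 1 1), (225, .cf 9 0 2 8 2 7), (15, .lf 5 7 8 8 4 7), (75, .lf 2 4 5 5 1 4), (180, .c4 5), (3, .am 0 7 8 9 1 1), (40, .am 0 5 6 9 1 1), (42, .am 4 7 8 9 1 1), (2, .am 0 5 6 8 1 1), (15, .pl 0 2 6 5), (180, .rt 7 8 0 7 8 0), (15, .rt 0 1 3 0 2 3), (21, .am 4 6 7 8 1 1)])) (.ch 5 (.leaf [(6, .lf 5 7 8 8 4 7), (6, .pl 2 4 9 7), (2, .am 4 6 7 8 1 1), (14, .rt 5 6 8 5 6 8), (16, .c4 4), (8, .cf 9 0 2 9 2 7), (12, .am 5 7 8 9 1 1), (7, .am 0 5 7 9 1 1), (8, .rt 5 6 8 5 6 9), (4, .am 4 6 8 9 1 1), (8, .rt 6 7 9 6 7 9), (10, .lf 5 7 8 8 5 7), (7, .pl 0 9 5 4), (10, .lf 4 6 7 7 4 5), (14, .rt 9 0 2 9 0 2), (3, .am 4 5 7 9 1 1), (6, .am 4 5 6 7 1 1), (6, .ce 1 3 4 1 4 6), (6, .lf 1 3 4 4 1 2), (14, .rt 7 8 0 7 8 0)]) (.leaf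 [(1, .pl 4 9 8 5), (1, .pl 0 8 7 6), (1, .pl 5 9 8 6), (1, .rt 6 7 9 6 7 9), (1, .pl 0 9 8 4), (1, .lf 7 9 0 0 7 9)]) (.br 3 6 4 7 1 2 (.leaf [(26, .cf 0 1 3 0 3 8), (15, .rt 7 8 0 7 9 0), (41, .c4 4), (62, .ex 0), (41, .lf 4 6 7 7 4 6), (41, .rt 9 0 2 9 0 2), (20, .pl 0 3 5 4), (36, .cf 0 1 3 0 3 7), (62, .lf 3 5 6 6 3 5), (56, .rt 6 7 9 6 7 9), (14, .am 0 6 7 8 1 1), (2, .tb 5 1 2), (21, .am 4 5 6 7 1 1), (41, .cf 9 0 2 9 2 7), (20, .ta 5 1 2), (42, .pl 0 3 6 4), (28, .am 0 6 8 9 1 1), (13, .am 0 7 8 9 1 1), (20, .am 0 5 7 8 1 1)]) (.br 3 6 4 7 1 1 (.leaf [(12, .rt 6 7 9 6 7 9), (12, .cf 0 1 3 0 3 7), (4, .rt 9 0 2 9 0 3), (8, .c4 4), (4, .pl 0 3 5 4), (1, .am 0 3 7 8 1 1), (6, .am 0 6 8 9 1 1), (4, .am 0 5 7 8 1 1), (4, .ta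 5 1 2), (9, .pl 0 3 6 4), (2, .am 0 3 8 9 1 1), (4, .cf 9 0 2 9 2 7), (12, .lf 3 5 6 6 3 5), (8, .lf 4 6 7 7 4 6), (4, .cf 0 1 3 0 3 8), (1, .ex 1), (3, .am 0 6 7 8 1 1), (12, .ex 0), (4, .rt 9 0 2 9 0 2), (4, .rt 7 8 0 7 9 0), (4, .am 4 5 6 7 1 1)]) (.leaf [(12, .rt 6 7 9 6 7 9), (9, .ex 0), (3, .am 0 6 7 8 1 1), (9, .pl 0 3 6 4), (4, .lf 4 6 7 7 4 5), (8, .cf 0 1 3 0 3 8), (4, .ce 4 6 7 4 7 8), (12, .rt 8 9 1 8 9 3), (12, .rt 9 0 2 9 0 3), (9, .am 0 3 7 8 1 1), (16, .cf 0 1 3 0 3 7), (6, .am 0 6 8 9 1 1), (6, .am 0 3 8 9 1 1), (4, .tb 5 1 2)]))) (.leaf [(6, .lf 4 6 7 7 4 6), (2, .cf 9 0 2 8 2 7), (8, .rt 7 8 0 7 8 0), (3, .pl 0 9 5 4), (8, .c4 5), (8, .lf 5 7 8 9 5 7), (8, .rt 6 7 9 6 7 9), (1, .am 0 5 7 9 1 1), (3, .am 4 5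 7 9 1 1), (2, .am 0 5 6 7 1 1), (6, .c4 4), (2, .rt 8 9 1 8 9 2), (4, .am 0 6 7 9 1 1)])))

def C3543654654_5 : Tr :=
  .ch 1 (.ch 5 (.leaf [(20, .am 0 6 7 8 1 1), (5, .pl 0 9 3 5), (104, .rt 5 6 8 5 6 8), (1, .pl 1 2 4 6), (64, .lf 6 8 9 9 6 8), (31, .rt 1 2 4 1 2 5), (16, .am 2 3 5 6 1 1), (4, .rt 5 6 8 4 6 8), (34, .am 5 6 8 9 1 1), (2, .pl 0 9 6 4), (32, .rt 2 3 5 2 3 5), (20, .ce 5 7 8 5 9 0), (6, .am 2 6 8 7 1 1), (16, .am 3 5 9 8 1 1), (10, .pl 2 3 7 8), (44, .rt 7 8 0 7 8 0), (1, .rt 3 4 6 3 4 6), (10, .am 0 2 8 9 1 1), (6, .pl 3 5 8 7), (4, .am 2 6 9 7 1 1), (32, .rt 9 0 2 9 0 3), (4, .pl 0 9 7 5), (1, .am 2 3 4 6 1 1), (1, .rt 1 2 4 1 2 4), (23, .pl 0 9 6 5), (32, .rt 9 0 2 9 0 2), (2, .am 2 4 9 8 1 1), (43, .rt 3 4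 6 3 5 6), (31, .pl 1 2 5 6), (5, .am 0 3 2 6 1 1), (2, .am 5 7 8 9 1 1)]) (.ch 6 (.leaf [(1, .pl 0 9 7 4), (1, .rt 6 7 9 6 7 9), (1, .lf 7 9 0 0 7 9), (1, .pl 4 9 7 5), (1, .pl 5 9 7 6)]) (.leaf [(2, .rt 7 8 0 7 8 0), (1, .pl 0 2 7 9), (1, .pl 0 1 3 9), (2, .lf 8 0 1 1 8 0), (1, .pl 0 3 7 8), (1, .pl 1 9 8 7), (1, .pl 0 1 2 8), (1, .pl 2 9 8 3)]) (.br 0 4 1 7 3 1 (.leaf [(3, .rt 7 8 0 7 8 0), (4, .am 0 4 7 9 1 1), (10, .am 1 7 8 9 1 1), (1, .am 0 7 8 9 1 1), (6, .am 0 6 7 9 1 1), (8, .am 4 7 8 9 1 1), (6, .lf 4 6 7 7 4 6), (16, .lf 7 9 0 0 7 9), (16, .lf 5 7 8 8 4 7), (10, .ex 0), (3, .rt 8 9 1 8 0 1), (6, .lf 5 7 8 0 4 6), (15, .rt 0 1 3 0 1 3), (5, .am 0 1 8 9 1 1), (28, .ce 4 6 7 4 7 9), (12, .c3 6 1 1 0), (15, .cf 0 1 3 0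 3 8)]) (.leaf [(144, .ce 4 6 7 4 7 9), (30, .am 0 2 8 9 1 1), (39, .lf 4 6 7 7 4 5), (42, .lf 4 6 7 7 4 6), (63, .ex 0), (1, .am 1 3 8 9 1 1), (6, .lf 5 7 8 8 5 6), (39, .rt 2 3 5 2 3 5), (3, .am 0 1 3 8 1 1), (144, .rt 0 1 3 0 1 3), (78, .am 0 1 8 9 1 1), (2, .am 1 2 3 9 1 1), (150, .cf 0 1 3 0 3 8), (48, .tb 6 1 2), (39, .pl 1 2 7 5), (3, .pl 0 7 3 2), (15, .am 0 2 3 8 1 1), (83, .am 1 7 8 9 1 1), (45, .rt 0 1 3 0 2 3), (42, .pl 0 8 7 6), (22, .am 1 2 7 9 1 1), (19, .pl 2 3 7 8), (6, .ce 5 7 8 5 8 0), (108, .rt 9 0 2 9 0 2), (63, .rt 1 2 4 1 2 4), (102, .rt 7 8 0 7 8 0)])) (.br 0 4 1 7 3 1 (.leaf [(1, .ce 4 6 7 4 7 9), (2, .lf 6 8 9 9 6 7), (2, .c4 6), (1, .am 0 6 7 9 1 1), (1, .pl 0 8 7 6), (3, .lf 7 9 0 0 7 9), (1, .pl 0 4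 6 8), (2, .rt 7 8 0 7 8 0), (1, .ex 0), (1, .am 0 1 7 8 1 1), (2, .rt 8 9 1 8 0 1), (1, .lf 5 7 8 8 4 7)]) (.leaf [(5, .am 0 1 7 9 1 1), (36, .rt 9 0 2 9 0 2), (4, .pl 3 4 9 7), (2, .am 0 1 8 9 1 1), (11, .pl 0 8 3 5), (11, .rt 3 4 6 3 5 6), (15, .rt 1 2 4 1 2 4), (11, .lf 5 7 8 8 5 7), (14, .am 0 2 8 9 1 1), (11, .rt 2 3 5 2 3 6), (21, .rt 0 1 3 0 2 3), (11, .ce 4 6 7 4 7 9), (11, .pl 1 2 7 6), (7, .am 0 2 7 8 1 1), (8, .pl 1 3 7 6), (7, .pl 2 3 7 6), (4, .rt 3 4 6 3 4 6), (10, .am 1 7 8 9 1 1), (26, .rt 8 9 1 8 9 1), (10, .cf 0 1 3 0 3 8), (11, .lf 7 9 0 0 7 9), (36, .rt 7 8 0 7 8 0), (15, .ex 0), (26, .c4 6), (4, .am 0 1 7 8 1 1), (4, .am 1 2 3 9 1 1)]))) (.ch 6 (.br 0 5 1 7 1 2 (.leaf [(2, .ce 4 6 7 4 7 9), (1, .am 0 7 8 9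 1 1), (2, .am 0 5 8 9 1 1), (6, .rt 0 1 3 0 1 3), (2, .tb 5 1 2), (3, .ex 0), (6, .rt 9 0 2 9 0 3), (1, .am 0 5 7 8 1 1), (3, .am 0 3 8 9 1 1), (3, .am 0 1 7 8 1 1), (6, .rt 8 9 1 8 9 1), (6, .cf 0 1 3 0 3 8), (3, .cf 9 0 2 8 3 7), (4, .rt 6 7 9 5 7 9), (3, .cf 0 1 3 0 3 7), (2, .lf 4 6 7 7 4 5)]) (.leaf [(6, .rt 2 3 5 2 3 5), (2, .am 0 1 3 8 1 1), (12, .lf 4 6 7 7 4 5), (12, .rt 0 1 3 0 1 3), (6, .am 0 2 8 9 1 1), (4, .am 0 1 7 8 1 1), (12, .rt 9 0 2 9 0 2), (12, .ce 4 6 7 4 7 9), (3, .am 0 2 3 8 1 1), (1, .pl 1 5 4 3), (6, .am 0 7 8 9 1 1), (4, .cf 9 0 2 8 3 7), (4, .tb 5 1 2), (1, .am 1 2 3 5 1 1), (6, .ex 0), (2, .rt 1 2 4 1 2 5), (12, .rt 8 9 1 8 9 1), (9, .rt 0 1 3 0 2 3), (1, .rt 1 2 4 1 2 4), (2, .am 1 2 7 5 1 1), (1,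 .ce 4 6 7 4 7 8), (1, .pl 2 3 7 8), (1, .pl 2 3 7 4), (11, .cf 0 1 3 0 3 8)])) (.leaf [(9, .lf 8 0 1 3 8 0), (4, .tb 5 1 2), (1, .am 0 7 8 9 1 1), (2, .cf 8 9 1 8 1 7), (9, .pl 0 3 7 8), (2, .cf 9 0 2 8 2 7), (1, .lf 8 0 1 2 8 0), (2, .ce 4 6 7 4 7 9), (2, .rt 9 0 2 9 0 2), (2, .rt 8 9 1 8 9 1), (1, .am 0 2 8 9 1 1), (4, .lf 4 6 7 7 4 5), (2, .ce 4 6 7 4 7 8)]) (.br 0 3 1 6 3 1 (.leaf [(15, .am 0 2 7 8 1 1), (36, .rt 9 0 2 9 0 3), (29, .ce 4 6 7 4 7 8), (24, .am 0 7 8 9 1 1), (32, .lf 4 6 7 7 4 5), (3, .pl 1 6 4 7), (14, .cf 0 1 3 0 3 7), (24, .tb 6 1 2), (30, .ex 0), (12, .pl 1 6 4 9), (30, .am 0 2 8 9 1 1), (15, .am 1 2 7 6 1 1), (45, .rt 0 1 3 0 2 3), (72, .ce 4 6 7 4 7 9), (30, .am 0 1 7 8 1 1), (32, .tb 5 1 2), (15, .rt 1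 2 4 1 2 4), (91, .cf 0 1 3 0 3 8), (30, .pl 2 3 7 6), (12, .am 6 7 8 9 1 1), (18, .cf 9 0 2 8 3 7), (12, .pl 0 9 7 4), (60, .rt 9 0 2 9 0 2), (12, .am 0 1 8 9 1 1), (30, .rt 2 3 5 2 3 6), (18, .am 0 3 8 9 1 1), (72, .rt 0 1 3 0 1 3), (54, .lf 4 6 7 7 4 6)]) (.leaf [(2, .pl 0 3 7 9), (3, .lf 4 6 7 7 4 6), (1, .am 0 1 8 9 1 1), (1, .cf 9 0 2 9 2 7), (1, .tb 5 1 2), (1, .am 6 7 8 9 1 1), (1, .ce 4 6 7 4 7 8), (2, .ex 0), (3, .c3 6 1 1 0), (5, .cf 0 1 3 0 3 8), (2, .am 0 6 8 9 1 1), (2, .am 1 7 8 9 1 1), (1, .lf 4 6 7 7 4 5), (2, .pl 1 3 7 6), (1, .rt 9 0 2 9 0 2), (3, .ce 4 6 7 4 7 9), (2, .rt 9 0 2 9 0 3), (3, .rt 0 1 3 0 1 3)])) (.br 0 4 1 7 3 1 (.leaf [(14, .tb 5 1 2), (3, .am 0 7 8 9 1 1), (21, .am 0 3 8 9 1 1), (14, .cf 9 0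 2 8 3 7), (12, .rt 8 9 1 8 9 1), (6, .am 0 1 7 8 1 1), (42, .rt 9 0 2 9 0 3), (14, .ce 4 6 7 4 7 8), (6, .ex 0), (12, .c4 6), (6, .pl 0 4 6 7), (6, .am 0 6 7 9 1 1), (28, .cf 0 1 3 0 3 8), (7, .pl 0 3 7 8), (12, .lf 6 8 9 9 6 8), (14, .lf 4 6 7 7 4 5)]) (.leaf [(2, .rt 3 4 6 3 4 6), (27, .rt 0 1 3 0 2 3), (21, .rt 2 3 5 2 3 6), (9, .am 0 2 7 8 1 1), (31, .rt 3 4 6 3 5 6), (12, .am 1 2 3 9 1 1), (33, .rt 1 2 4 1 2 4), (33, .rt 9 0 2 9 0 3), (17, .cf 0 1 3 0 3 7), (2, .pl 0 7 3 4), (54, .rt 8 9 1 8 9 1), (33, .ex 0), (6, .am 0 1 8 9 1 1), (31, .tb 5 1 2), (60, .rt 9 0 2 9 0 2), (15, .am 0 1 7 9 1 1), (9, .pl 2 3 7 6), (18, .am 0 2 8 9 1 1), (54, .c4 6), (31, .pl 3 5 9 7), (8, .cf 0 1 3 0 3 8), (21, .pl 1 2 7 6), (14, .cf 9 0 2 9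 3 7), (30, .am 1 7 8 9 1 1), (24, .pl 1 3 7 6), (31, .ce 4 6 7 4 7 8)]))) (.leaf [(11, .pl 0 9 6 5), (120, .rt 7 8 0 7 8 0), (14, .am 2 3 5 6 1 1), (12, .am 1 2 7 5 1 1), (120, .lf 6 8 9 9 6 7), (26, .am 0 7 8 9 1 1), (28, .am 0 2 3 8 1 1), (36, .rt 1 2 4 1 2 5), (14, .am 0 1 2 7 1 1), (20, .pl 1 2 4 6), (7, .am 3 6 5 9 1 1), (20, .rt 1 2 4 1 2 4), (84, .rt 2 3 5 2 3 5), (104, .rt 0 1 3 0 1 3), (16, .am 2 6 5 7 1 1), (52, .am 0 1 7 8 1 1), (4, .am 5 6 7 9 1 1), (56, .rt 8 9 1 8 9 2), (38, .pl 0 1 6 5), (20, .cf 0 1 3 0 3 9), (28, .am 0 6 7 9 1 1), (14, .am 0 3 8 9 1 1), (42, .pl 2 3 7 8), (21, .am 0 6 3 9 1 1), (10, .pl 1 2 5 6), (140, .ce 4 6 7 4 7 9), (120, .lf 4 6 7 7 4 6), (104, .rt 8 9 1 8 9 1), (120, .c4 5), (20, .pl 4 7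 6 5)])) (.leaf [(1, .rt 2 3 5 2 3 5), (1, .pl 0 6 1 7), (1, .lf 3 5 6 6 3 5), (1, .pl 2 3 7 6), (1, .pl 2 4 5 6), (1, .pl 0 2 6 4), (1, .pl 1 9 7 2), (1, .pl 0 1 2 9)]) (.ch 5 (.leaf [(16, .lf 4 6 7 7 4 6), (24, .pl 0 9 3 4), (1, .ta 1 1 2), (8, .am 0 6 8 9 1 1), (22, .rt 2 3 5 1 3 5), (48, .rt 7 8 0 7 8 0), (16, .am 0 6 7 8 1 1), (32, .am 3 4 9 8 1 1), (22, .pl 0 1 6 5), (42, .pl 2 3 5 6), (40, .lf 5 7 8 8 4 5), (8, .pl 0 9 7 5), (32, .pl 3 4 8 7), (2, .pl 0 1 6 4), (64, .lf 6 8 9 9 6 8), (16, .ce 5 7 8 5 9 0), (24, .rt 0 1 3 0 1 3), (8, .lf 4 6 7 7 4 5), (42, .rt 2 3 5 2 3 5), (24, .am 5 6 8 9 1 1), (21, .tb 1 1 2), (8, .pl 0 9 7 4), (64, .rt 9 0 2 9 0 3), (24, .rt 5 6 8 4 6 8), (88, .rt 5 6 8 5 6 8)]) (.ch 6 (.leaf [(1, .lf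 7 9 0 0 7 9), (1, .pl 4 9 7 5), (1, .rt 6 7 9 5 7 9), (1, .pl 0 9 7 4)]) (.leaf [(1, .rt 7 8 0 7 8 0), (1, .pl 3 9 8 7), (1, .pl 0 3 7 9), (1, .lf 8 0 1 1 8 0), (1, .pl 0 1 3 8)]) (.br 0 5 1 7 3 1 (.leaf [(1, .am 0 7 8 9 1 1), (10, .ex 0), (16, .lf 7 9 0 0 7 9), (3, .rt 8 9 1 8 0 1), (16, .lf 5 7 8 8 5 7), (8, .am 5 7 8 9 1 1), (6, .lf 4 6 7 7 4 6), (15, .cf 0 1 3 0 3 8), (5, .am 0 1 8 9 1 1), (10, .am 1 7 8 9 1 1), (15, .rt 0 1 3 0 1 3), (3, .rt 7 8 0 7 8 0), (6, .lf 5 7 8 0 5 6), (6, .am 0 6 7 9 1 1), (4, .am 0 5 7 9 1 1), (28, .ce 4 6 7 4 7 9), (22, .lf 4 6 7 7 4 5), (12, .c3 6 1 1 0)]) (.leaf [(18, .ex 0), (24, .ce 4 6 7 4 7 9), (9, .am 0 1 7 8 1 1), (2, .pl 0 9 7 6), (18, .lf 4 6 7 7 4 5), (24, .rt 0 1 3 0 2 3), (2, .ce 6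 8 9 6 9 0), (16, .am 0 2 8 9 1 1), (6, .lf 4 6 7 7 4 6), (1, .am 0 1 3 8 1 1), (8, .tb 6 1 2), (10, .rt 2 3 5 1 3 5), (32, .rt 9 0 2 9 0 2), (4, .am 6 7 8 9 1 1), (30, .rt 7 8 0 7 8 0), (8, .am 0 7 8 9 1 1), (8, .lf 1 3 4 5 1 2), (32, .rt 0 1 3 0 1 3), (8, .am 0 2 3 8 1 1), (9, .pl 1 3 7 8), (8, .rt 2 3 5 2 3 5), (4, .am 0 1 8 9 1 1), (38, .cf 0 1 3 0 3 8)])) (.br 0 3 1 5 1 2 (.leaf [(1, .ex 0), (1, .am 0 2 7 9 1 1), (1, .rt 7 8 0 7 9 0), (1, .rt 2 3 5 2 3 5), (1, .c4 6), (2, .rt 9 0 2 9 0 2), (1, .rt 3 4 6 3 5 6), (1, .lf 1 3 4 5 1 2), (1, .rt 0 1 3 0 2 3), (1, .rt 7 8 0 7 8 0), (1, .pl 2 3 7 6)]) (.leaf [(4, .lf 5 7 8 8 5 7), (2, .rt 3 4 6 3 5 6), (2, .pl 1 3 7 6), (1, .am 0 5 7 9 1 1), (1, .am 0 6 7 9 1 1), (2, .am 5 7 8 9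 1 1), (1, .lf 6 8 9 9 6 8), (3, .rt 8 9 1 8 0 1), (2, .lf 4 6 7 7 4 5), (3, .ce 4 6 7 4 7 9), (2, .ex 0), (4, .c4 6), (6, .lf 7 9 0 0 7 9), (1, .pl 0 5 6 7), (1, .pl 0 8 7 4), (1, .rt 8 9 1 8 9 1), (1, .lf 5 7 8 8 4 7), (1, .lf 6 8 9 9 6 7), (2, .am 0 1 7 8 1 1), (3, .rt 7 8 0 7 8 0)]))) (.ch 6 (.br 0 5 2 7 2 1 (.pr 5 4 (.leaf [(33, .am 0 2 8 9 1 1), (85, .rt 0 1 3 0 2 3), (5, .am 0 5 6 7 1 1), (26, .ex 0), (8, .pl 1 3 7 6), (12, .pl 0 1 6 5), (39, .cf 0 1 3 0 3 8), (8, .am 0 1 7 8 1 1), (16, .pl 0 7 3 4), (35, .rt 6 7 9 6 7 9), (15, .ce 4 6 7 4 7 8), (27, .lf 4 6 7 7 4 5), (50, .cf 0 1 3 0 3 7), (22, .am 0 6 7 9 1 1), (19, .rt 8 9 1 8 9 2), (16, .rt 8 9 1 8 9 1), (15, .tb 5 1 2), (9, .lf 6 8 9 9 6 8), (12, .rt 2 3 5 1 3 5), (4,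 .tb 1 1 2), (26, .am 0 2 7 8 1 1), (20, .rt 0 1 3 0 1 3), (21, .rt 5 6 0 5 6 0), (11, .am 0 7 8 9 1 1), (4, .pl 4 7 6 5), (66, .rt 9 0 2 9 0 2)]) (.br 0 3 1 4 1 2 (.br 1 5 4 9 1 2 (.leaf [(4, .ex 1), (16, .rt 0 1 3 0 2 3), (6, .am 0 2 8 9 1 1), (2, .ex 0), (6, .lf 4 6 7 7 4 5), (6, .cf 0 1 3 0 3 8), (2, .am 1 3 8 4 1 1), (5, .ex 2), (4, .rt 0 1 3 0 1 3), (6, .ce 4 6 7 4 7 8), (2, .rt 2 3 5 1 3 5), (12, .rt 9 0 2 9 0 2), (4, .am 0 5 7 9 1 1), (1, .am 0 5 7 8 1 1), (2, .cf 9 0 2 8 3 7), (2, .am 0 7 8 9 1 1), (8, .rt 6 7 9 5 7 9), (2, .pl 4 9 8 5), (4, .rt 8 9 1 8 9 1), (4, .tb 5 1 2), (4, .rt 8 9 1 8 9 2), (10, .cf 0 1 3 0 3 7), (5, .am 0 2 7 8 1 1)]) (.br 1 6 4 7 1 1 (.pr 1 4 (.leaf [(108, .rt 0 1 3 0 1 3), (52, .tb 5 1 2), (148,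 .cf 0 1 3 0 3 7), (18, .am 0 1 2 3 1 1), (71, .cf 0 1 3 0 3 8), (48, .am 0 5 7 9 1 1), (129, .rt 0 1 3 0 2 3), (78, .am 0 2 8 9 1 1), (48, .ex 3), (39, .am 0 2 7 8 1 1), (54, .am 0 1 7 8 1 1), (36, .ex 0), (52, .lf 4 6 7 7 4 5), (108, .rt 8 9 1 8 9 1), (36, .ex 2), (96, .rt 6 7 9 5 7 9), (85, .ce 4 6 7 4 7 8), (30, .am 0 7 8 9 1 1), (36, .pl 1 3 7 4), (9, .am 1 2 7 6 1 1), (45, .lf 4 6 7 7 4 6), (18, .rt 2 3 5 2 3 6), (156, .rt 9 0 2 9 0 2), (27, .rt 1 2 6 1 2 6), (12, .ce 4 6 7 4 7 9)]) (.leaf [(24, .am 0 1 8 9 1 1), (192, .rt 8 9 1 8 9 1), (142, .ce 4 6 7 4 7 8), (280, .cf 0 1 3 0 3 7), (84, .am 1 6 5 9 1 1), (132, .am 0 2 8 9 1 1), (88, .tb 5 1 2), (36, .ex 1), (108, .pl 1 3 7 6), (142, .lf 4 6 7 7 4 5), (122, .cf 0 1 3 0 3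 8), (264, .rt 9 0 2 9 0 2), (9, .am 1 3 4 6 1 1), (243, .ex 2), (12, .am 0 6 7 9 1 1), (126, .lf 1 5 6 6 1 5), (66, .ex 3), (36, .am 0 7 8 9 1 1), (192, .rt 6 7 9 6 7 9), (66, .am 0 2 7 8 1 1), (381, .rt 0 1 3 0 1 3), (180, .rt 2 3 5 1 3 5), (108, .am 0 1 7 8 1 1), (189, .lf 4 6 7 7 4 6), (36, .am 4 5 6 7 1 1), (225, .ex 0), (6, .am 0 1 6 5 1 1), (264, .rt 0 1 3 0 2 3), (63, .tb 1 1 2), (60, .am 0 5 7 9 1 1)])) (.leaf [(3, .ex 3), (12, .rt 0 1 3 0 1 3), (16, .cf 0 1 3 0 3 7), (4, .ce 4 6 7 4 7 8), (6, .pl 0 1 6 4), (8, .rt 6 7 9 6 7 9), (4, .lf 4 6 7 7 4 5), (4, .rt 6 7 9 5 7 9), (3, .am 0 2 7 8 1 1), (8, .cf 0 1 3 0 3 8), (1, .am 0 5 7 8 1 1), (12, .rt 8 9 1 8 9 1), (4, .am 0 6 8 9 1 1), (6, .am 0 1 7 8 1 1), (6, .ex 0), (12,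 .rt 0 1 3 0 2 3), (6, .am 0 2 8 9 1 1), (12, .rt 9 0 2 9 0 2), (4, .tb 5 1 2), (2, .am 0 6 7 8 1 1), (2, .am 0 5 8 9 1 1)]))) (.br 0 3 2 6 1 1 (.leaf [(4, .tb 5 1 2), (8, .rt 8 9 1 8 9 2), (3, .ex 0), (12, .rt 9 0 2 9 0 2), (3, .lf 4 6 7 7 4 6), (6, .am 0 2 8 9 1 1), (3, .rt 2 3 5 2 3 6), (4, .ex 2), (2, .am 0 7 8 9 1 1), (12, .cf 0 1 3 0 3 7), (7, .am 0 2 7 8 1 1), (20, .rt 0 1 3 0 2 3), (7, .ce 4 6 7 4 7 8), (4, .lf 4 6 7 7 4 5), (3, .pl 2 3 7 6), (5, .cf 0 1 3 0 3 8), (8, .rt 6 7 9 5 7 9), (4, .am 0 5 7 9 1 1)]) (.leaf [(24, .rt 0 1 3 0 2 3), (4, .lf 4 6 7 7 4 5), (9, .pl 2 3 7 6), (12, .rt 9 0 2 9 0 2), (6, .am 0 2 8 9 1 1), (12, .rt 6 7 9 6 7 9), (4, .tb 5 1 2), (6, .am 0 6 8 9 1 1), (3, .am 0 6 7 8 1 1), (9, .ex 0), (9,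 .am 0 2 7 8 1 1), (12, .rt 8 9 1 8 9 2), (4, .ce 4 6 7 4 7 8), (8, .cf 0 1 3 0 3 8), (16, .cf 0 1 3 0 3 7)])))) (.leaf [(8, .tb 5 1 2), (13, .am 0 2 3 8 1 1), (18, .ex 0), (26, .lf 4 6 7 7 4 5), (24, .ce 4 6 7 4 7 9), (24, .rt 9 0 2 9 0 2), (12, .am 0 2 8 9 1 1), (24, .rt 8 9 1 8 9 2), (48, .rt 0 1 3 0 2 3), (22, .cf 0 1 3 0 3 8), (5, .am 0 2 7 8 1 1), (2, .ce 4 6 7 4 7 8), (5, .pl 2 3 7 8), (8, .cf 9 0 2 8 3 7), (12, .am 0 7 8 9 1 1), (18, .rt 2 3 5 2 3 5)])) (.leaf [(1, .am 0 7 8 9 1 1), (2, .ce 4 6 7 4 7 9), (1, .lf 8 0 1 3 8 0), (1, .am 0 3 8 9 1 1), (2, .cf 9 0 2 8 2 7), (2, .rt 8 9 1 8 9 2), (4, .lf 4 6 7 7 4 5), (2, .cf 9 0 2 8 3 7), (9, .lf 8 0 1 1 8 0), (4, .tb 5 1 2), (9, .pl 0 1 7 8), (2, .ce 4 6 7 4 7 8), (2, .rt 9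 0 2 9 0 3)]) (.br 0 6 1 7 1 2 (.leaf [(2, .am 0 6 8 9 1 1), (3, .rt 0 1 3 0 1 3), (2, .rt 9 0 2 9 0 3), (3, .lf 4 6 7 7 4 6), (1, .am 0 1 8 9 1 1), (1, .am 6 7 8 9 1 1), (1, .tb 5 1 2), (1, .ce 4 6 7 4 7 8), (1, .cf 9 0 2 9 2 7), (1, .rt 9 0 2 9 0 2), (2, .pl 0 3 7 9), (3, .c3 6 1 1 0), (2, .am 1 7 8 9 1 1), (3, .ce 4 6 7 4 7 9), (1, .lf 4 6 7 7 4 5), (5, .cf 0 1 3 0 3 8), (2, .ex 0)]) (.leaf [(96, .rt 0 1 3 0 2 3), (24, .tb 6 1 2), (24, .am 0 2 3 8 1 1), (12, .am 6 7 8 9 1 1), (38, .ce 4 6 7 4 7 8), (32, .lf 4 6 7 7 4 5), (12, .am 0 1 8 9 1 1), (11, .am 0 1 7 8 1 1), (54, .ex 0), (12, .pl 0 9 7 6), (78, .lf 4 6 7 7 4 6), (48, .am 0 2 8 9 1 1), (72, .rt 0 1 3 0 1 3), (19, .am 0 1 3 8 1 1), (11, .pl 1 3 7 8), (24, .rt 2 3 5 2 3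 6), (72, .ce 4 6 7 4 7 9), (96, .rt 9 0 2 9 0 2), (24, .am 0 7 8 9 1 1), (32, .cf 9 0 2 8 3 7), (82, .cf 0 1 3 0 3 8), (32, .tb 5 1 2), (24, .pl 0 2 1 6), (30, .rt 2 3 5 1 3 6)])) (.br 0 3 1 5 1 2 (.leaf [(3, .rt 2 3 5 2 3 5), (6, .rt 8 9 1 8 9 1), (6, .ex 0), (12, .rt 0 1 3 0 2 3), (6, .am 0 2 8 9 1 1), (3, .pl 1 3 7 6), (6, .c4 6), (3, .am 0 2 7 8 1 1), (4, .ce 4 6 7 4 7 8), (4, .cf 0 1 3 0 3 7), (3, .am 0 1 7 8 1 1), (6, .rt 3 4 6 3 5 6), (4, .tb 5 1 2), (4, .lf 4 6 7 7 4 5), (12, .rt 9 0 2 9 0 2), (3, .rt 2 3 5 1 3 5), (3, .pl 2 3 7 6), (3, .pl 0 2 1 5), (2, .cf 0 1 3 0 3 8)]) (.leaf [(3, .ex 0), (12, .cf 0 1 3 0 3 8), (2, .am 0 6 8 9 1 1), (7, .c4 6), (3, .rt 3 4 6 3 5 6), (3, .pl 0 3 7 8), (6, .cf 9 0 2 8 3 7), (3, .ce 4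 6 7 4 7 8), (3, .pl 1 3 7 6), (1, .am 0 6 7 8 1 1), (1, .pl 0 1 7 8), (3, .lf 4 6 7 7 4 5), (3, .am 0 1 7 8 1 1), (9, .am 0 3 8 9 1 1), (4, .lf 6 8 9 9 6 8), (7, .rt 8 9 1 8 9 1), (6, .tb 5 1 2), (3, .pl 0 5 6 7), (18, .rt 9 0 2 9 0 3)]))) (.leaf [(43, .lf 4 6 7 7 4 6), (9, .am 0 2 7 8 1 1), (14, .am 0 6 7 9 1 1), (5, .pl 2 4 5 6), (5, .rt 2 3 5 1 3 5), (1, .pl 2 3 5 6), (9, .pl 2 3 7 6), (8, .lf 6 8 9 9 6 8), (5, .rt 2 3 5 2 4 5), (6, .am 0 7 8 9 1 1), (18, .rt 0 1 3 0 2 3), (20, .pl 0 7 3 4), (9, .pl 0 2 6 5), (15, .rt 7 8 0 7 8 0), (18, .ce 4 6 7 4 7 9), (5, .rt 0 1 3 0 1 3), (5, .pl 0 1 6 5), (20, .c4 5), (20, .lf 6 8 9 9 6 7), (5, .ce 4 6 7 4 7 0), (18, .rt 8 9 1 8 9 2), (5, .tb 1 1 2), (3, .cf 0 1 3 0 3 8), (10, .rt 2 3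 5 2 3 5)])) (.ch 5 (.leaf [(8, .pl 2 3 5 6), (4, .am 3 5 9 8 1 1), (1, .am 0 2 7 8 1 1), (8, .rt 3 4 6 3 5 6), (4, .pl 0 9 3 5), (9, .rt 2 3 5 2 3 5), (1, .pl 0 2 6 5), (4, .rt 9 0 2 9 0 2), (2, .pl 0 9 6 5), (3, .am 0 6 7 8 1 1), (4, .ce 5 7 8 5 9 0), (8, .rt 7 8 0 7 8 0), (3, .rt 2 3 5 1 3 5), (12, .lf 6 8 9 9 6 8), (20, .rt 5 6 8 5 6 8), (8, .rt 9 0 2 9 0 3), (6, .am 5 6 8 9 1 1), (3, .pl 1 3 7 8), (3, .pl 1 7 5 6), (1, .pl 2 3 7 8), (2, .am 0 2 8 9 1 1), (4, .rt 0 1 3 0 2 3)]) (.ch 6 (.leaf [(1, .rt 6 7 9 4 7 9), (1, .lf 7 9 0 0 7 9), (1, .pl 0 9 7 4)]) (.leaf [(1, .pl 0 3 7 8), (1, .pl 0 1 2 8), (1, .pl 0 2 3 8), (1, .lf 8 0 1 1 8 0), (1, .rt 7 8 0 7 8 0)]) (.br 0 5 1 7 3 1 (.leaf [(15, .rt 0 1 3 0 1 3), (6, .am 0 6 7 9 1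 1), (16, .lf 4 6 7 7 4 5), (12, .lf 4 6 7 7 4 6), (1, .am 0 7 8 9 1 1), (8, .am 5 7 8 9 1 1), (15, .cf 0 1 3 0 3 8), (6, .pl 0 5 6 7), (12, .c3 6 1 1 0), (5, .am 0 1 8 9 1 1), (3, .rt 8 9 1 8 0 1), (28, .ce 4 6 7 4 7 9), (10, .ex 0), (16, .lf 5 7 8 8 5 7), (3, .rt 7 8 0 7 8 0), (4, .am 0 5 7 9 1 1), (10, .am 1 7 8 9 1 1), (16, .lf 7 9 0 0 7 9)]) (.leaf [(2, .pl 0 9 7 4), (1, .am 0 1 3 8 1 1), (9, .pl 1 3 7 8), (32, .rt 0 1 3 0 1 3), (4, .am 6 7 8 9 1 1), (24, .ce 4 6 7 4 7 9), (38, .cf 0 1 3 0 3 8), (2, .ce 6 8 9 6 9 0), (4, .am 0 1 8 9 1 1), (8, .rt 2 3 5 2 3 5), (32, .rt 9 0 2 9 0 2), (30, .rt 7 8 0 7 8 0), (16, .am 0 2 8 9 1 1), (4, .lf 4 6 7 7 4 6), (8, .tb 6 1 2), (18, .lf 4 6 7 7 4 5), (9, .am 0 1 7 8 1 1), (10, .rt 2 3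 5 1 3 5), (8, .am 0 2 3 8 1 1), (8, .am 0 7 8 9 1 1), (2, .lf 5 7 8 9 4 6), (8, .lf 1 3 4 5 1 2), (18, .ex 0), (24, .rt 0 1 3 0 2 3)])) (.br 0 3 1 5 1 3 (.leaf [(1, .rt 3 4 6 3 5 6), (1, .lf 1 3 4 5 1 2), (1, .rt 2 3 5 2 3 5), (1, .ex 0), (1, .am 0 2 7 9 1 1), (1, .pl 2 3 7 6), (1, .rt 7 8 0 7 9 0), (2, .rt 9 0 2 9 0 2), (1, .c4 6), (1, .rt 7 8 0 7 8 0), (1, .rt 0 1 3 0 2 3)]) (.leaf [(2, .rt 3 4 6 3 5 6), (1, .lf 6 8 9 9 6 8), (5, .lf 7 9 0 0 7 9), (1, .am 0 5 7 9 1 1), (1, .am 0 6 7 9 1 1), (1, .rt 9 0 2 9 0 3), (2, .pl 1 3 7 6), (1, .pl 0 5 6 7), (3, .rt 8 9 1 8 0 1), (2, .am 0 1 7 8 1 1), (1, .lf 6 8 9 9 6 7), (2, .am 5 7 8 9 1 1), (1, .rt 8 9 1 8 9 1), (4, .rt 7 8 0 7 8 0), (2, .lf 4 6 7 7 4 5), (4, .c4 6), (2, .ex 0), (4,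 .lf 5 7 8 8 5 7), (2, .ce 4 6 7 4 7 9), (1, .pl 0 3 7 9), (1, .cf 0 1 3 0 3 8)]))) (.ch 6 (.br 0 5 2 7 2 1 (.br 0 4 5 9 1 1 (.br 0 3 1 6 3 1 (.pr 1 3 (.leaf [(78, .am 0 2 8 9 1 1), (30, .am 0 7 8 9 1 1), (36, .pl 1 3 7 6), (45, .lf 4 6 7 7 4 6), (18, .rt 2 3 5 2 3 6), (52, .tb 5 1 2), (12, .ce 4 6 7 4 7 9), (71, .cf 0 1 3 0 3 8), (48, .am 0 5 7 9 1 1), (129, .rt 0 1 3 0 2 3), (52, .lf 4 6 7 7 4 5), (108, .rt 8 9 1 8 9 1), (39, .am 0 2 7 8 1 1), (36, .ex 0), (54, .am 0 1 7 8 1 1), (85, .ce 4 6 7 4 7 8), (156, .rt 9 0 2 9 0 2), (96, .rt 6 7 9 5 7 9), (108, .rt 0 1 3 0 1 3), (18, .am 0 1 2 3 1 1), (148, .cf 0 1 3 0 3 7), (48, .ex 2), (9, .am 1 2 7 6 1 1), (27, .rt 1 2 5 1 2 6)]) (.leaf [(72, .rt 0 1 3 0 2 3), (56, .am 0 2 8 9 1 1),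 (54, .am 0 3 2 6 1 1), (162, .ex 0), (64, .am 1 2 8 5 1 1), (54, .am 1 2 5 6 1 1), (162, .rt 3 4 6 3 5 6), (270, .rt 2 3 5 2 3 5), (24, .tb 5 1 2), (72, .rt 9 0 2 9 0 2), (27, .am 0 2 6 5 1 1), (27, .rt 2 3 5 2 3 6), (189, .lf 1 4 5 5 1 4), (132, .lf 4 6 7 7 4 5), (4, .ce 4 6 7 4 7 8), (54, .am 1 2 3 5 1 1), (32, .am 5 7 8 9 1 1), (68, .cf 0 1 3 0 3 8), (60, .ex 2), (128, .rt 0 1 3 0 1 3), (108, .am 1 3 5 6 1 1), (20, .am 0 2 7 8 1 1), (17, .am 0 2 1 5 1 1), (128, .ce 4 6 7 4 7 9), (189, .c4 1), (128, .rt 8 9 1 8 9 1), (40, .am 2 7 8 9 1 1), (24, .cf 0 1 3 0 3 7), (16, .am 0 5 7 9 1 1)])) (.leaf [(6, .pl 1 3 7 6), (4, .am 0 6 8 9 1 1), (4, .tb 5 1 2), (12, .rt 0 1 3 0 1 3), (6, .am 0 2 8 9 1 1), (12, .rt 9 0 2 9 0 2), (6, .am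 0 1 7 8 1 1), (16, .cf 0 1 3 0 3 7), (4, .rt 6 7 9 5 7 9), (6, .ex 0), (12, .rt 8 9 1 8 9 1), (3, .am 0 2 7 8 1 1), (2, .am 0 5 8 9 1 1), (3, .ex 2), (4, .ce 4 6 7 4 7 8), (8, .rt 6 7 9 6 7 9), (4, .lf 4 6 7 7 4 5), (2, .am 0 6 7 8 1 1), (1, .am 0 5 7 8 1 1), (8, .cf 0 1 3 0 3 8), (12, .rt 0 1 3 0 2 3)])) (.leaf [(42, .rt 8 9 1 8 9 1), (15, .am 0 2 7 8 1 1), (21, .am 0 1 7 8 1 1), (6, .pl 0 9 7 4), (3, .am 0 1 2 7 1 1), (60, .rt 9 0 2 9 0 2), (3, .pl 1 2 7 6), (36, .rt 6 7 9 6 7 9), (30, .am 0 2 8 9 1 1), (6, .rt 3 4 6 3 4 6), (6, .pl 0 1 6 5), (18, .am 0 6 7 9 1 1), (20, .tb 5 1 2), (32, .ce 4 6 7 4 7 8), (18, .ex 1), (12, .c4 1), (12, .pl 1 3 7 6), (3, .am 0 2 6 5 1 1), (6, .rt 3 4 6 3 5 6), (12, .ex 0), (56, .cf 0 1 3 0 3 7),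 (6, .pl 0 9 3 4), (32, .lf 4 6 7 7 4 5), (60, .rt 0 1 3 0 2 3), (6, .am 1 2 3 5 1 1), (18, .rt 2 3 5 2 3 5), (30, .rt 0 1 3 0 1 3), (6, .ce 4 6 7 4 7 9), (12, .am 0 7 8 9 1 1), (28, .cf 0 1 3 0 3 8), (3, .am 0 5 6 7 1 1)])) (.leaf [(13, .am 0 2 3 8 1 1), (22, .cf 0 1 3 0 3 8), (12, .am 0 2 8 9 1 1), (24, .rt 9 0 2 9 0 2), (24, .ce 4 6 7 4 7 9), (5, .am 0 2 7 8 1 1), (5, .pl 2 3 7 8), (18, .rt 2 3 5 2 3 5), (12, .am 0 7 8 9 1 1), (24, .rt 8 9 1 8 9 2), (2, .ce 4 6 7 4 7 8), (8, .tb 5 1 2), (48, .rt 0 1 3 0 2 3), (26, .lf 4 6 7 7 4 5), (18, .ex 0), (8, .cf 9 0 2 8 3 7)])) (.leaf [(2, .cf 8 9 1 8 1 7), (2, .ce 4 6 7 4 7 8), (9, .lf 8 0 1 1 8 0), (2, .cf 9 0 2 8 3 7), (1, .lf 8 0 1 3 8 0), (2, .rt 8 9 1 8 9 1), (4, .lf 4 6 7 7 4 5),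 (9, .pl 0 1 7 8), (2, .ce 4 6 7 4 7 9), (4, .tb 5 1 2), (1, .am 0 3 8 9 1 1), (2, .rt 9 0 2 9 0 3), (1, .am 0 7 8 9 1 1)]) (.br 0 3 1 6 2 1 (.leaf [(16, .lf 4 6 7 7 4 5), (36, .rt 0 1 3 0 1 3), (48, .rt 9 0 2 9 0 2), (19, .ce 4 6 7 4 7 8), (39, .lf 4 6 7 7 4 6), (12, .tb 6 1 2), (15, .am 0 1 7 8 1 1), (6, .pl 0 9 7 6), (15, .pl 1 3 7 6), (12, .pl 0 2 1 6), (16, .cf 0 1 3 0 3 7), (16, .tb 5 1 2), (27, .ex 0), (12, .am 0 7 8 9 1 1), (12, .am 0 2 7 8 1 1), (36, .ce 4 6 7 4 7 9), (15, .rt 2 3 5 1 3 6), (24, .am 0 2 8 9 1 1), (12, .rt 2 3 5 2 3 6), (48, .rt 0 1 3 0 2 3), (6, .am 6 7 8 9 1 1), (12, .pl 2 3 7 6), (41, .cf 0 1 3 0 3 8), (6, .am 0 1 8 9 1 1)]) (.leaf [(3, .tb 6 1 2), (27, .c3 6 1 1 0), (7, .am 1 7 8 9 1 1), (30, .lf 4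 6 7 7 4 6), (8, .pl 0 3 7 8), (36, .rt 0 1 3 0 1 3), (68, .cf 0 1 3 0 3 8), (19, .ex 0), (48, .rt 9 0 2 9 0 3), (19, .pl 1 3 7 6), (16, .tb 5 1 2), (11, .am 6 7 8 9 1 1), (19, .am 0 6 8 9 1 1), (10, .ce 4 6 7 4 7 8), (36, .ce 4 6 7 4 7 9), (12, .am 0 1 7 8 1 1), (16, .cf 9 0 2 8 3 7), (24, .am 0 3 8 9 1 1), (16, .lf 4 6 7 7 4 5), (5, .am 0 1 8 9 1 1)])) (.br 0 3 1 5 1 3 (.leaf [(4, .lf 4 6 7 7 4 5), (3, .rt 2 3 5 2 3 5), (4, .tb 5 1 2), (6, .rt 3 4 6 3 5 6), (3, .am 0 1 7 8 1 1), (3, .pl 2 3 7 6), (12, .rt 9 0 2 9 0 2), (6, .c4 6), (6, .ex 0), (3, .pl 0 2 1 5), (4, .ce 4 6 7 4 7 8), (3, .am 0 2 7 8 1 1), (6, .am 0 2 8 9 1 1), (2, .cf 0 1 3 0 3 8), (3, .pl 1 3 7 6), (12, .rt 0 1 3 0 2 3), (4, .cf 0 1 3 0 3 7), (3, .rt 2 3 5 1 3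 5), (6, .rt 8 9 1 8 9 1)]) (.leaf [(3, .lf 4 6 7 7 4 5), (3, .ex 0), (3, .pl 1 3 7 6), (9, .am 0 3 8 9 1 1), (6, .tb 5 1 2), (12, .cf 0 1 3 0 3 8), (1, .am 0 6 7 8 1 1), (2, .am 0 6 8 9 1 1), (3, .ce 4 6 7 4 7 8), (3, .pl 0 3 7 8), (18, .rt 9 0 2 9 0 3), (3, .pl 0 5 6 7), (4, .lf 6 8 9 9 6 8), (1, .pl 0 1 7 8), (7, .rt 8 9 1 8 9 1), (6, .cf 9 0 2 8 3 7), (3, .rt 3 4 6 3 5 6), (7, .c4 6), (3, .am 0 1 7 8 1 1)]))) (.leaf [(6, .lf 4 6 7 7 4 6), (5, .c4 5), (6, .ce 4 6 7 4 7 9), (2, .pl 1 3 7 8), (6, .rt 0 1 3 0 1 3), (1, .lf 6 8 9 9 6 8), (5, .lf 6 8 9 9 6 7), (1, .cf 0 1 3 0 3 8), (3, .pl 0 1 6 5), (2, .am 0 1 7 8 1 1), (2, .pl 1 3 5 6), (6, .rt 8 9 1 8 9 1), (1, .am 0 6 7 9 1 1), (2, .am 0 6 3 9 1 1), (1, .am 0 7 8 9 1 1), (1,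 .am 0 3 8 9 1 1), (5, .rt 2 3 5 1 3 5), (5, .rt 7 8 0 7 8 0), (1, .am 0 1 3 8 1 1)]))

def C3543654654_6 : Tr :=
  .ch 1 (.leaf [(1, .pl 1 2 3 5), (1, .pl 3 6 5 9), (1, .pl 0 6 1 3), (2, .lf 2 4 5 5 2 4), (1, .pl 0 1 6 4), (1, .lf 5 7 8 8 5 6), (1, .pl 1 7 9 6), (1, .pl 4 5 6 8), (2, .rt 1 2 4 1 2 4), (1, .pl 1 9 4 5), (1, .rt 3 4 6 2 5 6), (1, .pl 1 2 7 6)]) (.ch 5 (.leaf [(2, .am 4 6 7 8 1 1), (4, .rt 9 0 2 9 0 3), (4, .ce 2 4 5 2 5 6), (4, .rt 7 8 0 7 8 0), (1, .am 4 5 8 9 1 1), (1, .am 5 6 7 8 1 1), (8, .am 5 6 8 9 1 1), (4, .lf 4 6 7 7 4 6), (2, .am 0 5 7 9 1 1), (1, .am 4 5 6 9 1 1), (4, .cf 9 0 2 9 3 8), (1, .am 6 7 8 9 1 1), (14, .rt 5 6 8 5 6 8), (2, .pl 0 9 5 4), (14, .lf 6 8 9 9 6 8), (4, .lf 2 4 5 5 2 4)]) (.ch 6 (.leaf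 [(1, .lf 7 9 0 0 7 9), (1, .pl 0 9 7 5), (1, .rt 6 7 9 6 7 9), (1, .pl 5 9 7 6)]) (.leaf [(1, .rt 7 8 0 7 8 0), (1, .pl 1 9 8 2), (1, .pl 0 1 2 9), (1, .lf 8 0 1 1 8 0), (1, .pl 0 3 7 8), (1, .pl 0 2 3 8)]) (.br 0 6 3 7 3 1 (.leaf [(10, .ex 0), (15, .lf 4 6 7 7 4 6), (3, .lf 7 9 0 0 7 9), (1, .am 0 7 8 9 1 1), (16, .rt 9 0 2 9 0 3), (15, .ce 4 6 7 4 7 9), (8, .am 0 3 8 9 1 1), (3, .lf 6 8 9 9 6 7), (16, .rt 7 8 0 7 8 0), (10, .am 0 6 8 9 1 1), (5, .am 6 7 8 9 1 1), (4, .am 0 3 7 8 1 1), (6, .rt 0 1 3 0 1 3), (6, .am 0 1 7 8 1 1), (12, .c3 6 1 1 0), (28, .cf 0 1 3 0 3 8), (6, .rt 7 8 0 7 1 3)]) (.leaf [(83, .am 0 6 8 9 1 1), (78, .am 6 7 8 9 1 1), (144, .lf 4 6 7 7 4 6), (3, .am 4 6 7 9 1 1), (39, .rt 9 0 2 9 1 3), (33, .rt 0 1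 3 0 2 3), (45, .lf 4 6 7 7 4 5), (150, .ce 4 6 7 4 7 9), (39, .lf 2 4 5 5 2 4), (108, .lf 5 7 8 8 5 7), (33, .pl 0 2 6 5), (2, .am 4 5 6 8 1 1), (144, .cf 0 1 3 0 3 8), (6, .pl 0 1 6 5), (19, .pl 0 9 5 4), (48, .ta 6 1 2), (3, .pl 0 1 5 4), (63, .ex 0), (1, .am 4 6 8 9 1 1), (63, .lf 3 5 6 6 3 5), (102, .lf 7 9 0 0 7 9), (3, .pl 1 4 9 7), (39, .pl 0 3 7 9), (9, .rt 0 1 3 0 1 3), (6, .pl 1 5 9 2), (15, .am 4 5 7 9 1 1), (30, .am 5 7 8 9 1 1), (22, .am 0 5 6 8 1 1), (6, .cf 9 0 2 9 2 7)])) (.br 0 6 3 7 3 1 (.leaf [(2, .rt 7 8 0 7 8 0), (2, .c4 6), (1, .pl 0 1 3 7), (1, .am 0 1 7 8 1 1), (3, .lf 7 9 0 0 7 9), (1, .am 0 6 7 9 1 1), (1, .ce 4 6 7 4 7 9), (2, .rt 8 9 1 8 0 1), (1, .ex 0), (1, .pl 0 8 7 4), (2, .lf 6 8 9 9 6 7), (1,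 .lf 5 7 8 8 4 7)]) (.leaf [(8, .pl 0 1 6 4), (47, .lf 7 9 0 0 7 9), (26, .c4 6), (7, .pl 0 1 5 4), (15, .pl 0 8 3 4), (5, .am 0 6 7 8 1 1), (15, .lf 1 3 4 4 1 3), (11, .pl 0 1 6 5), (4, .am 4 5 6 8 1 1), (10, .am 0 6 8 9 1 1), (14, .am 5 7 8 9 1 1), (2, .am 6 7 8 9 1 1), (7, .am 0 5 7 9 1 1), (21, .lf 4 6 7 7 4 5), (36, .lf 5 7 8 8 5 7), (26, .lf 6 8 9 9 6 8), (11, .lf 2 4 5 5 1 4), (21, .ce 4 6 7 4 7 9), (15, .lf 3 5 6 6 3 5), (4, .am 0 6 7 9 1 1), (11, .lf 5 7 8 8 4 7), (15, .ex 0)]))) (.ch 6 (.br 2 6 4 7 2 1 (.br 0 6 1 7 1 2 (.leaf [(48, .rt 9 0 2 9 0 2), (6, .pl 0 3 6 4), (24, .am 0 1 7 8 1 1), (3, .pl 0 2 5 4), (6, .lf 3 5 6 6 3 5), (48, .rt 8 9 1 8 9 1), (6, .lf 2 4 5 5 2 4), (12, .am 0 6 7 8 1 1), (44, .cf 0 1 3 0 3 8),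 (16, .cf 0 1 3 0 3 7), (10, .lf 4 6 7 7 4 5), (24, .am 0 6 8 9 1 1), (16, .tb 5 1 2), (3, .am 0 2 6 5 1 1), (3, .am 4 5 6 7 1 1), (6, .pl 2 6 4 3), (48, .rt 0 1 3 0 1 3), (48, .cf 9 0 2 9 2 7), (24, .ex 0), (48, .rt 6 7 9 6 7 9), (6, .rt 0 1 3 0 2 3), (4, .ce 4 6 7 4 7 8), (9, .ex 1), (24, .am 0 7 8 9 1 1)]) (.br 2 6 4 7 1 2 (.leaf [(49, .am 0 2 6 5 1 1), (49, .pl 0 2 5 4), (98, .rt 0 1 3 0 2 3), (100, .am 0 6 8 9 1 1), (90, .rt 7 8 0 7 9 0), (110, .rt 9 0 2 9 0 3), (26, .pl 0 3 5 4), (12, .lf 5 7 8 8 5 6), (10, .am 0 7 8 9 1 1), (23, .am 4 5 6 7 1 1), (46, .pl 0 3 6 4), (72, .lf 3 5 6 6 3 5), (40, .cf 0 1 3 0 3 7), (90, .rt 6 7 9 6 7 9), (130, .cf 0 1 3 0 3 8), (44, .am 0 6 7 8 1 1), (98, .lf 2 4 5 5 2 4), (98, .lf 4 6 7 7 4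 6), (26, .am 0 5 7 8 1 1), (72, .pl 2 6 4 3), (110, .lf 6 8 9 9 6 8), (110, .cf 9 0 2 9 3 7), (121, .ex 0), (20, .ta 5 1 2)]) (.br 2 3 7 4 1 3 (.leaf [(50, .rt 7 8 0 7 9 0), (160, .cf 0 1 3 0 3 7), (4, .lf 2 4 5 5 2 4), (30, .pl 0 3 6 4), (85, .ex 1), (110, .rt 8 9 1 8 9 2), (2, .am 2 6 5 9 1 1), (16, .lf 2 4 5 5 1 4), (4, .am 0 1 8 9 1 1), (10, .am 0 5 7 9 1 1), (30, .cf 9 0 2 9 2 7), (10, .pl 0 2 5 4), (224, .rt 0 1 3 0 2 3), (10, .ex 2), (20, .lf 4 6 7 7 4 6), (70, .am 0 6 8 9 1 1), (56, .am 0 2 8 9 1 1), (2, .am 0 1 7 8 1 1), (160, .rt 6 7 9 6 7 9), (2, .pl 1 6 7 2), (30, .tb 5 1 2), (30, .pl 2 3 7 6), (10, .am 5 6 7 9 1 1), (30, .ex 0), (8, .am 1 6 5 9 1 1), (20, .lf 6 8 9 9 6 8), (10, .am 4 5 6 7 1 1), (16, .rt 0 1 3 0 1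 3), (140, .rt 9 0 2 9 0 2), (83, .am 0 2 7 8 1 1), (35, .am 0 6 7 8 1 1), (110, .cf 0 1 3 0 3 8), (75, .pl 0 2 6 4), (30, .lf 3 5 6 6 3 5)]) (.br 3 6 4 7 1 2 (.leaf [(50, .rt 7 8 0 7 9 0), (160, .rt 6 7 9 6 7 9), (20, .lf 4 6 7 7 4 6), (160, .cf 0 1 3 0 3 7), (56, .am 0 2 8 9 1 1), (16, .rt 0 1 3 0 1 3), (2, .am 0 1 7 8 1 1), (2, .pl 1 6 7 2), (10, .pl 0 3 5 4), (30, .cf 9 0 2 9 3 7), (30, .lf 3 5 6 6 3 5), (85, .ex 2), (30, .rt 9 0 2 9 0 3), (20, .pl 0 3 6 4), (83, .am 0 2 7 8 1 1), (30, .ex 0), (8, .am 1 6 5 9 1 1), (85, .pl 0 2 6 4), (35, .am 0 6 7 8 1 1), (10, .am 5 6 7 9 1 1), (110, .rt 8 9 1 8 9 2), (30, .tb 5 1 2), (10, .ex 3), (224, .rt 0 1 3 0 2 3), (70, .am 0 6 8 9 1 1), (4, .am 0 1 8 9 1 1), (10, .am 4 5 6 7 1 1), (20,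 .lf 6 8 9 9 6 8), (10, .am 0 5 7 9 1 1), (4, .lf 2 4 5 5 2 4), (2, .am 2 6 5 9 1 1), (110, .rt 9 0 2 9 0 2), (16, .lf 2 4 5 5 1 4), (110, .cf 0 1 3 0 3 8)]) (.br 0 6 1 7 1 1 (.leaf [(4, .ce 4 6 7 4 7 8), (6, .ex 0), (12, .rt 9 0 2 9 0 3), (6, .am 0 3 8 9 1 1), (4, .tb 5 1 2), (3, .am 0 6 7 8 1 1), (3, .am 0 3 7 8 1 1), (12, .rt 8 9 1 8 9 1), (3, .ex 1), (6, .am 0 6 8 9 1 1), (6, .am 0 1 7 8 1 1), (4, .lf 4 6 7 7 4 5), (3, .pl 0 3 6 4), (12, .rt 6 7 9 6 7 9), (12, .rt 0 1 3 0 1 3), (8, .cf 0 1 3 0 3 8), (16, .cf 0 1 3 0 3 7)]) (.leaf [(184, .ex 1), (80, .lf 4 6 7 7 4 6), (80, .lf 6 8 9 9 6 8), (28, .lf 2 4 5 5 2 4), (28, .cf 9 0 2 9 2 7), (174, .am 0 3 8 9 1 1), (101, .am 3 6 8 7 1 1), (26, .am 1 6 5 9 1 1), (6, .am 0 1 8 9 1 1),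 (20, .pl 0 9 6 4), (218, .pl 0 3 1 6), (256, .rt 6 7 9 6 7 9), (52, .lf 2 4 5 5 1 4), (56, .am 0 6 7 8 1 1), (80, .tb 5 1 2), (80, .pl 0 3 5 4), (320, .cf 0 1 3 0 3 8), (80, .lf 3 5 6 6 3 5), (264, .ex 0), (20, .am 4 6 8 9 1 1), (68, .am 0 6 8 9 1 1), (308, .rt 9 0 2 9 0 3), (3, .am 1 6 8 7 1 1), (308, .cf 0 1 3 0 3 7), (40, .am 0 5 7 9 1 1), (14, .am 2 6 5 9 1 1), (40, .am 4 6 7 8 1 1), (14, .pl 1 6 9 2), (3, .pl 1 6 7 3), (68, .rt 7 8 0 7 9 0), (40, .am 0 5 7 8 1 1), (80, .am 3 5 8 7 1 1), (104, .pl 0 3 6 4), (40, .am 3 6 5 9 1 1), (188, .rt 8 9 1 8 9 3), (52, .rt 0 1 3 0 1 3)])))))) (.leaf [(24, .rt 0 1 3 0 2 3), (12, .rt 9 0 2 9 0 2), (3, .am 0 6 7 8 1 1), (4, .lf 4 6 7 7 4 5), (9, .ex 0), (6, .am 0 6 8 9 1 1), (9, .pl 0 2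 6 4), (8, .cf 0 1 3 0 3 8), (4, .tb 5 1 2), (12, .rt 8 9 1 8 9 2), (4, .ce 4 6 7 4 7 8), (6, .am 0 2 8 9 1 1), (12, .rt 6 7 9 6 7 9), (9, .am 0 2 7 8 1 1), (16, .cf 0 1 3 0 3 7)])) (.leaf [(2, .cf 9 0 2 8 3 7), (1, .lf 8 0 1 3 8 0), (4, .lf 4 6 7 7 4 5), (4, .tb 5 1 2), (2, .rt 9 0 2 9 0 3), (2, .ce 4 6 7 4 7 8), (9, .lf 8 0 1 1 8 0), (1, .am 0 7 8 9 1 1), (1, .am 0 3 8 9 1 1), (9, .pl 0 1 7 8), (2, .rt 8 9 1 8 9 2), (2, .cf 9 0 2 8 2 7), (2, .ce 4 6 7 4 7 9)]) (.br 3 6 9 7 1 3 (.leaf [(155, .pl 0 2 6 5), (695, .am 0 3 8 9 1 1), (155, .rt 0 1 3 0 2 3), (310, .lf 3 5 6 6 3 5), (124, .am 4 6 7 8 1 1), (300, .c3 6 1 1 0), (55, .am 0 7 8 9 1 1), (60, .am 0 1 8 9 1 1), (120, .ta 6 1 2), (62, .pl 0 9 5 4), (1605, .cf 0 1 3 0 3 8), (60,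 .rt 0 1 3 0 1 3), (310, .ex 0), (1080, .rt 9 0 2 9 0 3), (420, .ce 4 6 7 4 7 9), (660, .lf 4 6 7 7 4 6), (93, .am 4 5 6 7 1 1), (71, .am 0 6 7 8 1 1), (360, .tb 5 1 2), (208, .am 0 6 8 9 1 1), (135, .ce 4 6 7 4 7 8), (50, .lf 4 6 7 7 4 5), (62, .am 0 5 6 7 1 1), (62, .am 4 6 8 9 1 1), (155, .lf 2 4 5 5 2 4), (360, .cf 8 9 1 8 1 7), (695, .pl 0 3 7 8)]) (.leaf [(6, .am 0 7 8 9 1 1), (3, .rt 7 8 0 7 1 3), (12, .ce 4 6 7 4 7 9), (24, .rt 9 0 2 9 0 3), (12, .lf 4 6 7 7 4 6), (6, .cf 8 9 1 8 1 7), (8, .tb 5 1 2), (12, .c3 6 1 1 0), (3, .rt 0 1 3 0 1 3), (3, .am 0 1 7 8 1 1), (18, .am 0 3 8 9 1 1), (8, .ce 4 6 7 4 7 8), (9, .am 0 3 7 8 1 1), (28, .cf 0 1 3 0 3 8), (12, .ex 0), (2, .cf 0 1 3 0 3 7), (8, .lf 4 6 7 7 4 5)])) (.br 3 6 9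 7 1 3 (.leaf [(12, .lf 4 6 7 7 4 5), (40, .lf 6 8 9 9 6 8), (72, .rt 9 0 2 9 0 3), (12, .pl 0 1 6 5), (21, .cf 9 0 2 8 3 7), (12, .cf 9 0 2 9 2 7), (18, .pl 0 1 6 4), (21, .pl 3 4 9 7), (12, .rt 9 0 2 9 0 2), (51, .cf 0 1 3 0 3 8), (33, .rt 7 8 0 7 9 0), (6, .ta 5 1 2), (15, .tb 5 1 2), (10, .am 0 6 7 8 1 1), (21, .lf 1 3 4 4 1 3), (9, .am 4 5 6 7 1 1), (30, .pl 0 3 7 9), (12, .lf 2 4 5 5 1 4), (40, .c4 6), (3, .pl 0 1 5 4), (6, .am 5 7 8 9 1 1), (21, .lf 3 5 6 6 3 5), (21, .am 0 3 8 9 1 1), (7, .rt 8 9 1 8 9 1), (20, .am 0 6 8 9 1 1), (7, .pl 0 1 7 8), (21, .ex 0), (3, .am 0 5 7 9 1 1)]) (.leaf [(2, .cf 9 0 2 8 3 7), (1, .am 0 3 7 8 1 1), (2, .ex 0), (1, .am 0 1 7 8 1 1), (2, .lf 6 8 9 9 6 8), (2, .rt 8 9 1 8 9 1), (6, .rt 9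 0 2 9 0 3), (2, .c4 6), (2, .ce 4 6 7 4 7 8), (4, .am 0 3 8 9 1 1), (2, .lf 4 6 7 7 4 5), (1, .pl 0 1 3 7), (2, .tb 5 1 2), (4, .cf 0 1 3 0 3 8)]))) (.leaf [(8, .pl 0 2 6 5), (6, .am 4 5 7 8 1 1), (12, .lf 5 7 8 8 5 7), (3, .am 4 7 8 9 1 1), (4, .am 0 6 8 9 1 1), (20, .lf 4 6 7 7 4 6), (1, .am 0 7 8 9 1 1), (8, .cf 0 1 3 0 3 8), (2, .am 0 6 7 9 1 1), (20, .lf 6 8 9 9 6 8), (2, .am 4 5 7 9 1 1), (2, .am 0 6 7 8 1 1), (7, .ce 4 6 7 4 7 0), (12, .c4 5), (5, .ce 5 7 8 4 9 0), (4, .am 5 6 7 9 1 1), (8, .rt 0 1 3 0 2 3), (8, .lf 2 4 5 5 2 4)])) (.ch 5 (.leaf [(4, .lf 4 6 7 7 4 6), (2, .am 4 6 7 8 1 1), (4, .lf 2 4 5 5 2 4), (14, .lf 6 8 9 9 6 8), (1, .am 4 5 8 9 1 1), (1, .am 0 5 8 9 1 1), (14, .rt 5 6 8 5 6 8), (4, .ce 2 4 5 2 5 6),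 (4, .cf 9 0 2 9 2 8), (1, .am 0 5 6 9 1 1), (2, .am 0 6 7 8 1 1), (4, .rt 9 0 2 9 0 2), (2, .pl 0 9 5 4), (8, .am 5 6 8 9 1 1), (4, .rt 7 8 0 7 8 0), (1, .am 4 5 6 9 1 1)]) (.ch 6 (.leaf [(1, .rt 6 7 9 5 7 9), (1, .pl 4 9 7 5), (1, .pl 0 9 7 4), (1, .lf 7 9 0 0 7 9)]) (.leaf [(1, .pl 0 1 3 9), (1, .pl 0 2 7 9), (1, .pl 2 9 8 3), (1, .pl 1 9 8 7), (1, .pl 0 3 7 8), (2, .rt 7 8 0 7 8 0), (1, .lf 8 0 1 1 8 0), (1, .lf 8 0 1 2 8 0)]) (.br 0 6 2 7 3 1 (.leaf [(3, .lf 6 8 9 9 6 7), (8, .am 0 2 8 9 1 1), (12, .c3 6 1 1 0), (6, .am 0 1 7 8 1 1), (6, .pl 0 1 2 7), (5, .am 6 7 8 9 1 1), (16, .rt 0 1 3 0 2 3), (10, .ex 0), (28, .cf 0 1 3 0 3 8), (16, .rt 7 8 0 7 8 0), (16, .rt 9 0 2 9 0 2), (12, .rt 0 1 3 0 1 3), (15, .ce 4 6 7 4 7 9), (1,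 .am 0 7 8 9 1 1), (4, .am 0 2 7 8 1 1), (3, .lf 7 9 0 0 7 9), (10, .am 0 6 8 9 1 1), (15, .lf 4 6 7 7 4 6)]) (.leaf [(16, .am 5 7 8 9 1 1), (4, .am 0 1 8 9 1 1), (8, .am 4 5 7 9 1 1), (9, .pl 0 9 6 4), (8, .pl 2 6 5 7), (6, .rt 0 1 3 0 1 3), (24, .lf 4 6 7 7 4 6), (24, .cf 0 1 3 0 3 8), (8, .am 0 7 8 9 1 1), (32, .lf 5 7 8 8 5 7), (9, .am 0 6 7 9 1 1), (2, .cf 8 9 1 8 1 7), (8, .ta 6 1 2), (8, .lf 2 4 5 5 2 4), (4, .am 6 7 8 9 1 1), (38, .ce 4 6 7 4 7 9), (1, .am 4 6 7 9 1 1), (18, .rt 0 1 3 0 2 3), (2, .pl 0 1 7 8), (18, .ex 0), (30, .lf 7 9 0 0 7 9), (32, .lf 4 6 7 7 4 5), (10, .lf 2 4 5 6 2 4)])) (.br 2 6 4 7 1 2 (.leaf [(2, .lf 5 7 8 8 5 7), (1, .lf 4 6 7 7 4 5), (1, .lf 7 9 0 0 7 8), (1, .lf 7 9 0 0 7 9), (1, .am 0 5 7 8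 1 1), (1, .c4 6), (1, .lf 1 3 4 4 1 2), (1, .lf 2 4 5 5 2 4), (1, .ex 0), (1, .pl 0 1 5 4), (1, .rt 3 4 6 2 5 6)]) (.leaf [(1, .rt 8 9 1 8 0 1), (1, .rt 8 9 1 8 9 1), (3, .lf 6 8 9 9 6 7), (4, .c4 6), (2, .lf 1 3 4 4 1 2), (2, .am 0 2 8 9 1 1), (1, .lf 6 8 9 9 6 8), (4, .lf 7 9 0 0 7 9), (5, .rt 7 8 0 7 8 0), (1, .lf 5 7 8 8 4 7), (1, .ce 4 6 7 4 7 9), (4, .rt 9 0 2 9 0 2), (2, .rt 0 1 3 0 2 3), (2, .am 0 6 7 9 1 1), (1, .am 0 2 7 8 1 1), (1, .am 0 1 7 8 1 1), (1, .pl 0 1 2 7), (1, .pl 0 8 7 4), (2, .ex 0), (2, .pl 0 1 6 4), (2, .cf 0 1 3 0 3 8)]))) (.ch 6 (.br 0 6 2 7 1 1 (.leaf [(8, .cf 0 1 3 0 3 8), (4, .ce 4 6 7 4 7 8), (9, .ex 0), (16, .cf 0 1 3 0 3 7), (3, .am 0 6 7 8 1 1), (6, .am 0 2 8 9 1 1), (9, .am 0 2 7 8 1 1), (12,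 .rt 8 9 1 8 9 2), (24, .rt 0 1 3 0 2 3), (6, .am 0 6 8 9 1 1), (4, .tb 5 1 2), (12, .rt 9 0 2 9 0 2), (12, .rt 6 7 9 6 7 9), (4, .lf 4 6 7 7 4 5)]) (.pr 2 3 (.leaf [(14, .ce 4 6 7 4 7 8), (50, .lf 4 6 7 7 4 6), (14, .pl 2 3 7 6), (44, .ex 0), (24, .rt 9 0 2 9 0 2), (4, .am 0 7 8 9 1 1), (11, .pl 0 1 2 3), (8, .pl 0 1 6 4), (16, .rt 6 7 9 6 7 9), (25, .rt 2 3 6 2 3 6), (12, .am 0 2 8 9 1 1), (8, .tb 5 1 2), (19, .rt 0 1 3 0 1 3), (4, .ta 1 1 2), (14, .am 0 2 7 8 1 1), (8, .lf 4 6 7 7 4 5), (59, .rt 0 1 3 0 2 3), (44, .pl 0 7 3 4), (8, .am 0 6 7 9 1 1), (19, .lf 2 4 5 6 2 4), (16, .rt 8 9 1 8 9 2), (10, .cf 0 1 3 0 3 8), (24, .cf 0 1 3 0 3 7), (7, .tb 1 1 2)]) (.br 0 6 1 7 1 1 (.leaf [(16, .am 0 6 7 8 1 1), (32, .rt 0 1 3 0 2 3),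 (52, .ex 0), (24, .ex 1), (96, .cf 0 1 3 0 3 8), (8, .am 4 5 6 7 1 1), (16, .lf 4 6 7 7 4 5), (32, .tb 5 1 2), (7, .am 0 2 6 5 1 1), (52, .am 0 1 7 8 1 1), (8, .rt 7 8 0 7 9 0), (50, .am 0 6 8 9 1 1), (48, .am 0 7 8 9 1 1), (104, .rt 8 9 1 8 9 1), (40, .cf 0 1 3 0 3 7), (16, .lf 2 4 5 5 2 4), (6, .pl 0 9 5 4), (16, .lf 2 5 6 6 2 5), (104, .rt 9 0 2 9 0 2), (1, .pl 0 2 5 4), (12, .am 4 6 7 8 1 1), (104, .cf 9 0 2 9 2 7), (112, .rt 6 7 9 6 7 9), (1, .am 2 4 5 6 1 1), (104, .rt 0 1 3 0 1 3), (6, .am 4 6 8 9 1 1)]) (.br 0 6 2 7 2 1 (.leaf [(80, .cf 0 1 3 0 3 8), (10, .am 4 5 7 9 1 1), (77, .cf 0 1 3 0 3 7), (64, .rt 6 7 9 6 7 9), (20, .am 2 5 8 7 1 1), (66, .ex 2), (47, .rt 8 9 1 8 9 2), (10, .am 0 5 7 8 1 1), (26, .am 2 6 8 7 1 1),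 (77, .rt 9 0 2 9 0 2), (157, .rt 0 1 3 0 2 3), (20, .lf 4 6 7 7 4 6), (20, .am 2 6 5 9 1 1), (46, .ex 0), (45, .am 0 2 8 9 1 1), (7, .cf 9 0 2 9 2 7), (10, .pl 0 9 5 4), (17, .rt 7 8 0 7 9 0), (20, .lf 2 5 6 6 2 5), (22, .am 0 6 8 9 1 1), (20, .lf 2 4 5 5 2 4), (20, .lf 6 8 9 9 6 8), (24, .am 0 6 7 8 1 1), (20, .tb 5 1 2)]) (.leaf [(317, .am 0 2 6 5 1 1), (576, .lf 2 5 6 6 2 5), (160, .rt 9 0 2 9 0 3), (242, .am 4 6 8 9 1 1), (1360, .rt 0 1 3 0 2 3), (208, .am 4 5 7 8 1 1), (96, .lf 5 7 8 8 5 6), (720, .rt 9 0 2 9 0 2), (76, .am 0 6 7 8 1 1), (1040, .cf 0 1 3 0 3 8), (80, .am 0 3 8 9 1 1), (968, .ex 0), (75, .pl 0 2 5 4), (75, .am 2 4 5 6 1 1), (242, .pl 0 9 5 4), (784, .lf 2 4 5 5 2 4), (400, .cf 0 1 3 0 3 7), (80, .cf 9 0 2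 8 3 7), (784, .lf 4 6 7 7 4 6), (558, .am 0 6 8 9 1 1), (880, .lf 6 8 9 9 6 8), (160, .ta 5 1 2), (184, .am 4 5 6 7 1 1), (720, .rt 7 8 0 7 9 0), (720, .cf 9 0 2 9 2 7), (720, .rt 6 7 9 6 7 9), (276, .am 4 6 7 8 1 1)]))))) (.leaf [(2, .cf 9 0 2 8 2 7), (2, .rt 8 9 1 8 9 3), (1, .am 0 7 8 9 1 1), (2, .rt 9 0 2 9 0 2), (1, .am 0 2 8 9 1 1), (10, .lf 8 0 1 2 8 0), (9, .pl 0 2 7 8), (2, .ce 4 6 7 4 7 9), (4, .tb 5 1 2), (2, .cf 9 0 2 8 3 7), (2, .ce 4 6 7 4 7 8), (4, .lf 4 6 7 7 4 5)]) (.br 1 6 4 7 1 1 (.leaf [(15, .pl 0 3 7 8), (15, .am 0 3 8 9 1 1), (10, .cf 8 9 1 8 1 7), (6, .lf 2 4 5 6 1 4), (6, .am 0 6 7 9 1 1), (10, .tb 5 1 2), (38, .cf 0 1 3 0 3 8), (4, .ce 4 6 7 4 7 8), (9, .am 0 7 8 9 1 1), (10, .lf 4 6 7 7 4 5), (12, .ce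 4 6 7 4 7 9), (12, .c3 6 1 1 0), (6, .ex 0), (2, .pl 0 1 7 8), (6, .pl 0 1 6 4), (8, .rt 0 1 3 0 1 3), (12, .lf 4 6 7 7 4 6), (30, .rt 9 0 2 9 0 3)]) (.leaf [(12, .tb 6 1 2), (48, .am 0 6 8 9 1 1), (66, .c3 6 1 1 0), (21, .am 0 7 8 9 1 1), (6, .am 0 1 8 9 1 1), (48, .ex 0), (102, .ce 4 6 7 4 7 9), (50, .lf 4 6 7 7 4 5), (78, .lf 4 6 7 7 4 6), (50, .tb 5 1 2), (202, .cf 0 1 3 0 3 8), (30, .am 6 7 8 9 1 1), (150, .rt 9 0 2 9 0 3), (75, .am 0 3 8 9 1 1), (48, .am 0 1 7 8 1 1), (50, .cf 9 0 2 8 3 7), (102, .rt 0 1 3 0 1 3), (25, .pl 0 3 7 8), (26, .ce 4 6 7 4 7 8), (48, .pl 0 1 6 4)])) (.br 1 6 4 7 3 1 (.leaf [(12, .pl 0 3 7 8), (9, .ex 0), (9, .rt 3 4 6 1 5 6), (18, .tb 5 1 2), (9, .pl 0 1 6 4), (45, .cf 0 1 3 0 3 8), (16, .pl 0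 1 7 8), (2, .am 0 6 8 9 1 1), (25, .c4 6), (9, .lf 2 4 5 5 1 4), (9, .rt 7 8 0 7 9 0), (9, .lf 4 6 7 7 4 5), (1, .am 0 6 7 8 1 1), (6, .am 0 6 7 9 1 1), (9, .pl 4 5 6 7), (16, .lf 6 8 9 9 6 8), (30, .am 0 3 8 9 1 1), (63, .rt 9 0 2 9 0 3), (18, .cf 9 0 2 8 3 7), (16, .rt 8 9 1 8 9 1), (3, .pl 0 3 7 9)]) (.leaf [(1, .am 0 1 8 9 1 1), (3, .lf 6 8 9 9 6 8), (2, .pl 0 1 6 4), (3, .c4 6), (2, .ce 4 6 7 4 7 8), (2, .am 1 7 8 9 1 1), (4, .pl 0 3 7 9), (6, .rt 9 0 2 9 0 3), (2, .tb 5 1 2), (2, .cf 9 0 2 9 3 7), (2, .am 0 6 8 9 1 1), (2, .lf 4 6 7 7 4 5), (2, .ex 0), (4, .cf 0 1 3 0 3 8), (3, .rt 8 9 1 8 9 1), (1, .am 6 7 8 9 1 1)]))) (.leaf [(3, .ce 5 7 8 4 8 0), (10, .lf 6 8 9 9 6 8), (6, .c4 5), (6, .lf 5 7 8 8 5 7), (1, .am 0 6 7 9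 1 1), (1, .am 4 5 7 9 1 1), (2, .am 0 7 8 9 1 1), (2, .ce 4 6 7 4 7 0), (4, .lf 2 4 5 5 2 4), (4, .rt 0 1 3 0 2 3), (1, .am 0 6 7 8 1 1), (4, .pl 0 2 6 5), (2, .am 5 6 7 9 1 1), (10, .lf 4 6 7 7 4 6), (2, .am 0 6 8 9 1 1), (4, .cf 0 1 3 0 3 8), (3, .am 4 5 7 8 1 1), (1, .ce 5 7 8 4 9 0)])) (.ch 5 (.leaf [(2, .rt 9 0 2 9 0 2), (2, .lf 4 6 7 7 4 6), (7, .lf 6 8 9 9 6 8), (1, .am 4 5 7 9 1 1), (2, .lf 2 4 5 5 2 4), (1, .am 0 5 7 9 1 1), (7, .rt 5 6 8 5 6 8), (1, .pl 0 9 5 4), (2, .cf 9 0 2 9 2 8), (2, .rt 7 8 0 7 8 0), (4, .am 5 6 8 9 1 1), (1, .am 5 6 7 8 1 1), (1, .am 6 7 8 9 1 1), (2, .ce 2 4 5 2 5 6)]) (.ch 6 (.leaf [(1, .rt 6 7 9 6 7 9), (1, .lf 7 9 0 0 7 9), (1, .pl 5 9 7 6), (1, .pl 0 9 7 5)]) (.leaf [(1, .pl 0 3 7 9), (1,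 .lf 8 0 1 1 8 0), (1, .rt 7 8 0 7 8 0), (1, .pl 0 2 3 9), (1, .pl 1 9 8 7), (1, .pl 0 1 2 9)]) (.br 0 6 2 7 3 1 (.leaf [(3, .lf 6 8 9 9 6 7), (1, .am 0 7 8 9 1 1), (16, .rt 7 8 0 7 8 0), (8, .am 0 2 8 9 1 1), (6, .rt 0 1 3 0 1 3), (15, .lf 4 6 7 7 4 6), (22, .rt 0 1 3 0 2 3), (12, .c3 6 1 1 0), (5, .am 6 7 8 9 1 1), (3, .lf 7 9 0 0 7 9), (6, .rt 7 8 0 7 1 2), (6, .am 0 1 7 8 1 1), (15, .ce 4 6 7 4 7 9), (10, .ex 0), (4, .am 0 2 7 8 1 1), (16, .rt 9 0 2 9 0 2), (28, .cf 0 1 3 0 3 8), (10, .am 0 6 8 9 1 1)]) (.leaf [(32, .lf 5 7 8 8 5 7), (2, .pl 0 1 7 8), (8, .am 0 7 8 9 1 1), (9, .pl 0 9 6 4), (24, .cf 0 1 3 0 3 8), (32, .lf 4 6 7 7 4 6), (4, .am 6 7 8 9 1 1), (8, .am 4 5 7 9 1 1), (2, .cf 8 9 1 8 1 7), (30, .lf 7 9 0 0 7 9),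 (18, .ex 0), (6, .rt 0 1 3 0 1 3), (18, .rt 0 1 3 0 2 3), (8, .ta 6 1 2), (8, .lf 2 4 5 5 2 4), (9, .am 0 6 7 9 1 1), (8, .rt 3 4 6 2 5 6), (24, .lf 4 6 7 7 4 5), (1, .am 4 6 7 9 1 1), (16, .am 5 7 8 9 1 1), (10, .lf 2 4 5 6 2 4), (4, .am 0 1 8 9 1 1), (38, .ce 4 6 7 4 7 9)])) (.br 2 6 4 7 1 3 (.leaf [(1, .pl 0 1 5 4), (1, .lf 7 9 0 0 7 8), (1, .ex 0), (1, .rt 3 4 6 2 5 6), (1, .c4 6), (1, .lf 1 3 4 4 1 2), (1, .lf 7 9 0 0 7 9), (1, .lf 4 6 7 7 4 5), (1, .lf 2 4 5 5 2 4), (1, .am 0 5 7 8 1 1), (2, .lf 5 7 8 8 5 7)]) (.leaf [(2, .am 0 2 8 9 1 1), (2, .rt 0 1 3 0 2 3), (2, .pl 0 1 6 4), (1, .pl 0 8 7 4), (1, .am 0 2 7 8 1 1), (1, .lf 6 8 9 9 6 8), (2, .am 0 6 7 9 1 1), (1, .ce 4 6 7 4 7 9), (2, .ex 0), (1, .am 0 1 7 8 1 1), (2,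 .lf 1 3 4 4 1 2), (4, .c4 6), (5, .rt 7 8 0 7 8 0), (1, .pl 0 1 2 7), (1, .lf 5 7 8 8 4 7), (1, .rt 8 9 1 8 0 1), (4, .rt 9 0 2 9 0 2), (3, .lf 6 8 9 9 6 7), (4, .lf 7 9 0 0 7 9), (1, .rt 8 9 1 8 9 1), (2, .cf 0 1 3 0 3 8)]))) (.ch 6 (.br 0 6 2 7 2 1 (.br 2 3 7 5 1 3 (.leaf [(36, .pl 0 3 6 5), (4, .lf 6 8 9 9 6 8), (210, .rt 0 1 3 0 1 3), (286, .rt 8 9 1 8 9 1), (4, .pl 0 3 2 5), (152, .am 0 1 7 8 1 1), (40, .am 1 2 7 5 1 1), (112, .ex 0), (220, .cf 0 1 3 0 3 8), (76, .lf 2 4 5 5 2 4), (197, .ex 1), (91, .am 0 6 7 8 1 1), (328, .rt 0 1 3 0 2 3), (72, .tb 5 1 2), (18, .am 0 1 8 9 1 1), (36, .am 1 2 3 9 1 1), (74, .rt 7 8 0 7 9 0), (36, .cf 9 0 2 9 3 7), (360, .rt 6 7 9 6 7 9), (90, .am 0 2 8 9 1 1), (72, .pl 1 3 7 6), (76, .c4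 1), (72, .rt 3 4 6 3 5 6), (45, .am 0 2 7 8 1 1), (40, .pl 0 1 6 5), (290, .rt 9 0 2 9 0 2), (358, .cf 0 1 3 0 3 7), (182, .am 0 6 8 9 1 1), (38, .cf 9 0 2 9 2 7)]) (.pr 2 3 (.leaf [(12, .rt 8 9 1 8 9 1), (12, .rt 6 7 9 6 7 9), (8, .cf 0 1 3 0 3 8), (6, .pl 0 1 6 5), (3, .am 0 2 7 8 1 1), (6, .rt 2 3 6 2 3 6), (4, .ce 4 6 7 4 7 8), (12, .rt 0 1 3 0 1 3), (4, .lf 4 6 7 7 4 5), (3, .am 0 6 7 8 1 1), (4, .tb 5 1 2), (6, .pl 1 2 7 6), (16, .cf 0 1 3 0 3 7), (6, .am 0 1 7 8 1 1), (3, .ex 1), (6, .am 0 2 8 9 1 1), (12, .rt 9 0 2 9 0 2), (6, .c4 1), (6, .lf 2 4 5 5 1 4), (6, .am 0 6 8 9 1 1), (12, .rt 0 1 3 0 2 3)]) (.br 1 6 5 7 3 1 (.br 2 6 4 7 1 1 (.br 0 5 1 7 2 1 (.leaf [(292, .cf 0 1 3 0 3 7), (97, .am 0 6 7 8 1 1), (194, .am 0 6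 8 9 1 1), (140, .cf 9 0 2 9 3 7), (160, .rt 8 9 1 8 9 1), (140, .rt 9 0 2 9 0 3), (108, .rt 9 0 2 9 0 2), (36, .ta 5 1 2), (196, .cf 0 1 3 0 3 8), (88, .lf 4 6 7 7 4 6), (88, .lf 6 8 9 9 6 8), (160, .rt 0 1 3 0 1 3), (80, .ex 0), (24, .tb 5 1 2), (300, .rt 6 7 9 6 7 9), (27, .am 0 2 7 8 1 1), (36, .am 0 5 7 8 1 1), (80, .am 0 1 7 8 1 1), (44, .am 0 2 6 5 1 1), (88, .lf 2 4 5 5 2 4), (54, .am 0 2 8 9 1 1), (328, .rt 0 1 3 0 2 3), (176, .pl 0 2 6 4), (132, .lf 2 5 6 6 2 5), (140, .rt 7 8 0 7 9 0), (176, .ex 1), (27, .ex 4), (88, .am 4 5 6 7 1 1)]) (.leaf [(25, .rt 7 8 0 7 9 0), (48, .ex 4), (26, .tb 5 1 2), (64, .am 0 6 8 9 1 1), (48, .ex 1), (48, .ex 0), (25, .cf 9 0 2 9 2 7), (82, .rt 6 7 9 6 7 9), (32, .am 0 6 7 8 1 1), (46,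 .lf 4 6 7 7 4 6), (48, .lf 2 4 5 5 1 4), (48, .am 2 5 8 7 1 1), (24, .lf 2 5 6 6 2 5), (103, .rt 9 0 2 9 0 2), (24, .am 0 2 6 5 1 1), (48, .rt 0 1 3 0 1 3), (159, .rt 0 1 3 0 2 3), (39, .am 0 2 8 9 1 1), (83, .cf 0 1 3 0 3 7), (48, .pl 0 2 5 4), (124, .cf 0 1 3 0 3 8), (57, .rt 8 9 1 8 9 2), (46, .lf 6 8 9 9 6 8), (2, .lf 4 6 7 7 4 5), (24, .am 0 5 7 8 1 1)])) (.leaf [(8, .cf 0 1 3 0 3 8), (9, .pl 0 2 6 4), (9, .ex 0), (12, .rt 6 7 9 6 7 9), (4, .lf 4 6 7 7 4 5), (4, .tb 5 1 2), (6, .am 0 6 8 9 1 1), (12, .rt 8 9 1 8 9 2), (3, .am 0 6 7 8 1 1), (9, .am 0 2 7 8 1 1), (16, .cf 0 1 3 0 3 7), (24, .rt 0 1 3 0 2 3), (12, .rt 9 0 2 9 0 2), (4, .ce 4 6 7 4 7 8), (6, .am 0 2 8 9 1 1)])) (.leaf [(12, .rt 9 0 2 9 0 2), (12, .rt 6 7 9 6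 7 9), (12, .rt 8 9 1 8 9 1), (8, .cf 0 1 3 0 3 8), (6, .pl 0 1 6 5), (6, .ex 0), (16, .cf 0 1 3 0 3 7), (3, .ex 2), (6, .am 0 6 8 9 1 1), (12, .rt 0 1 3 0 2 3), (4, .ce 4 6 7 4 7 8), (4, .tb 5 1 2), (6, .am 0 1 7 8 1 1), (6, .am 0 2 8 9 1 1), (3, .am 0 2 7 8 1 1), (12, .rt 0 1 3 0 1 3), (4, .lf 4 6 7 7 4 5), (3, .am 0 6 7 8 1 1)])))) (.pr 2 3 (.leaf [(1, .pl 0 7 5 4), (2, .lf 1 3 4 4 1 2), (1, .am 1 2 4 5 1 1), (4, .rt 2 3 6 2 3 6), (4, .lf 2 4 5 5 2 4), (2, .rt 0 1 3 0 2 3), (2, .pl 0 7 3 2), (1, .am 0 2 6 5 1 1), (2, .lf 4 6 7 7 4 6), (1, .pl 0 7 2 4), (6, .ex 0), (2, .am 0 6 2 7 1 1), (2, .c4 1), (1, .pl 1 2 5 6)]) (.leaf [(208, .am 4 5 7 8 1 1), (1040, .cf 0 1 3 0 3 8), (80, .cf 9 0 2 8 3 7), (75, .pl 0 2 5 4), (76, .am 0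 6 7 8 1 1), (242, .am 4 6 8 9 1 1), (880, .lf 6 8 9 9 6 8), (96, .lf 5 7 8 8 5 6), (720, .cf 9 0 2 9 2 7), (576, .lf 2 5 6 6 2 5), (720, .rt 9 0 2 9 0 2), (720, .rt 7 8 0 7 9 0), (784, .lf 4 6 7 7 4 6), (317, .am 0 2 6 5 1 1), (276, .am 4 6 7 8 1 1), (968, .ex 0), (1360, .rt 0 1 3 0 2 3), (80, .am 0 3 8 9 1 1), (242, .pl 0 9 5 4), (784, .lf 2 4 5 5 2 4), (75, .am 2 4 5 6 1 1), (720, .rt 6 7 9 6 7 9), (160, .rt 9 0 2 9 0 3), (400, .cf 0 1 3 0 3 7), (184, .am 4 5 6 7 1 1), (558, .am 0 6 8 9 1 1), (160, .ta 5 1 2)]))) (.leaf [(4, .tb 5 1 2), (2, .rt 8 9 1 8 9 1), (2, .ce 4 6 7 4 7 9), (9, .lf 8 0 1 3 8 0), (9, .pl 0 3 7 8), (4, .lf 4 6 7 7 4 5), (1, .am 0 2 8 9 1 1), (2, .rt 9 0 2 9 0 2), (2, .ce 4 6 7 4 7 8), (1, .lf 8 0 1 2 8 0),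 (2, .cf 8 9 1 8 1 7), (2, .cf 9 0 2 8 2 7), (1, .am 0 7 8 9 1 1)]) (.br 0 5 1 7 3 1 (.leaf [(10, .ce 4 6 7 4 7 8), (16, .lf 4 6 7 7 4 5), (30, .rt 9 0 2 9 0 3), (32, .cf 0 1 3 0 3 8), (6, .lf 5 7 8 0 5 6), (5, .pl 0 3 7 8), (12, .ce 4 6 7 4 7 9), (15, .am 0 3 8 9 1 1), (12, .c3 6 1 1 0), (6, .ex 0), (6, .am 0 6 7 9 1 1), (10, .tb 5 1 2), (9, .am 0 7 8 9 1 1), (10, .cf 9 0 2 8 3 7), (6, .lf 4 6 7 7 4 6), (6, .am 0 1 7 8 1 1), (12, .rt 0 1 3 0 1 3)]) (.leaf [(20, .ce 4 6 7 4 7 9), (2, .am 4 6 8 9 1 1), (2, .am 4 6 7 9 1 1), (2, .pl 0 7 5 4), (4, .pl 0 9 5 4), (6, .lf 5 7 8 0 5 6), (14, .tb 5 1 2), (20, .lf 4 6 7 7 4 5), (8, .pl 4 5 6 7), (62, .cf 0 1 3 0 3 8), (21, .am 0 3 8 9 1 1), (14, .lf 4 6 7 7 4 6), (11, .am 0 7 8 9 1 1),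 (14, .ex 0), (6, .am 0 6 8 9 1 1), (14, .lf 2 4 5 5 1 4), (27, .pl 0 3 7 8), (42, .rt 9 0 2 9 0 3), (14, .rt 0 1 3 0 1 3), (20, .c3 6 1 1 0), (4, .am 4 6 7 8 1 1), (14, .cf 8 9 1 8 1 7), (6, .rt 9 0 2 8 1 3)])) (.br 0 6 2 7 2 1 (.leaf [(4, .rt 8 9 1 8 9 1), (4, .am 0 3 8 9 1 1), (2, .am 0 2 8 9 1 1), (2, .am 0 6 8 9 1 1), (4, .lf 6 8 9 9 6 8), (1, .am 0 6 7 8 1 1), (4, .lf 4 6 7 7 4 5), (3, .ex 0), (1, .am 0 2 7 8 1 1), (4, .c4 6), (4, .cf 9 0 2 8 3 7), (2, .pl 0 1 2 7), (4, .rt 9 0 2 9 0 2), (8, .rt 9 0 2 9 0 3), (2, .am 0 1 7 8 1 1), (4, .ce 4 6 7 4 7 8), (4, .tb 5 1 2), (4, .rt 0 1 3 0 2 3), (8, .cf 0 1 3 0 3 8)]) (.leaf [(3, .pl 0 1 5 4), (3, .am 0 5 7 8 1 1), (3, .pl 0 1 6 4), (2, .am 0 6 8 9 1 1), (3, .pl 4 5 6 7), (6, .lf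 4 6 7 7 4 5), (6, .am 0 3 8 9 1 1), (6, .lf 1 3 4 4 1 2), (6, .pl 0 7 2 4), (6, .ex 0), (3, .tb 5 1 2), (6, .cf 9 0 2 9 2 7), (3, .ta 5 1 2), (6, .lf 2 4 5 5 2 4), (6, .rt 7 8 0 7 9 0), (4, .pl 0 1 7 8), (4, .rt 8 9 1 8 9 1), (12, .rt 9 0 2 9 0 3), (6, .cf 0 1 3 0 3 8), (1, .am 0 6 7 8 1 1), (10, .c4 6), (6, .cf 9 0 2 8 3 7), (6, .rt 3 4 6 2 5 6), (6, .rt 9 0 2 9 0 2), (4, .lf 6 8 9 9 6 8)]))) (.leaf [(6, .am 4 5 7 8 1 1), (1, .am 0 7 8 9 1 1), (12, .c4 5), (20, .lf 6 8 9 9 6 8), (2, .am 0 6 7 9 1 1), (3, .am 4 7 8 9 1 1), (7, .ce 4 6 7 4 7 0), (8, .rt 0 1 3 0 2 3), (4, .am 0 6 8 9 1 1), (12, .lf 5 7 8 8 5 7), (8, .lf 2 4 5 5 2 4), (2, .am 0 6 7 8 1 1), (4, .am 5 6 7 9 1 1), (8, .pl 0 2 6 5), (5, .ce 5 7 8 4 9 0), (20, .lf 4 6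 7 7 4 6), (8, .cf 0 1 3 0 3 8), (2, .am 4 5 7 9 1 1)]))

def C3543654654_7 : Tr :=
  .pr 1 2 (.pr 2 2 (.pr 3 2 (.ch 5 (.leaf [(34, .am 5 6 8 9 1 1), (29, .pl 1 2 5 6), (2, .am 5 7 8 9 1 1), (20, .am 0 6 7 8 1 1), (10, .am 0 2 8 9 1 1), (4, .rt 5 6 8 4 6 8), (1, .am 2 3 4 6 1 1), (32, .rt 9 0 2 9 0 3), (32, .rt 9 0 2 9 0 2), (3, .rt 3 4 6 3 4 6), (3, .pl 1 2 4 6), (10, .pl 2 3 7 8), (3, .rt 1 2 4 1 2 4), (32, .rt 2 3 5 2 3 5), (7, .pl 0 9 3 5), (2, .pl 0 9 3 4), (44, .rt 7 8 0 7 8 0), (25, .pl 0 9 6 5), (64, .lf 6 8 9 9 6 8), (16, .am 3 5 9 8 1 1), (20, .ce 5 7 8 5 9 0), (4, .am 2 6 9 7 1 1), (16, .am 2 3 5 6 1 1), (104, .rt 5 6 8 5 6 8), (2, .am 2 4 9 8 1 1), (29, .rt 1 2 4 1 2 5), (2, .pl 3 5 8 7), (4, .pl 0 3 7 8), (5, .am 0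 3 2 6 1 1), (41, .rt 3 4 6 3 5 6), (6, .am 2 6 8 7 1 1)]) (.ch 6 (.leaf [(1, .rt 6 7 9 6 7 9), (1, .lf 7 9 0 0 7 9), (1, .pl 4 8 7 6), (1, .pl 4 9 8 6), (1, .pl 0 9 7 4)]) (.leaf [(1, .rt 7 8 0 7 8 0), (1, .pl 0 1 2 8), (1, .pl 2 9 8 7), (1, .lf 8 0 1 1 8 0), (1, .pl 0 2 7 9)]) (.br 0 4 1 7 3 1 (.leaf [(6, .am 0 6 7 9 1 1), (28, .ce 4 6 7 4 7 9), (5, .am 0 1 8 9 1 1), (6, .lf 5 7 8 0 4 6), (15, .rt 0 1 3 0 1 3), (10, .ex 0), (15, .cf 0 1 3 0 3 8), (8, .am 4 7 8 9 1 1), (16, .lf 7 9 0 0 7 9), (4, .am 0 4 7 9 1 1), (16, .lf 5 7 8 8 4 7), (10, .am 1 7 8 9 1 1), (3, .rt 8 9 1 8 0 1), (3, .rt 7 8 0 7 8 0), (1, .am 0 7 8 9 1 1), (12, .c3 6 1 1 0), (6, .lf 4 6 7 7 4 6)]) (.leaf [(108, .rt 9 0 2 9 0 2), (2, .am 1 2 3 9 1 1), (19, .pl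 2 3 7 8), (3, .pl 2 3 7 6), (33, .pl 1 2 7 6), (3, .am 0 1 3 8 1 1), (63, .rt 1 2 4 1 2 4), (81, .lf 4 6 7 7 4 6), (83, .am 1 7 8 9 1 1), (6, .ce 5 7 8 5 8 0), (1, .am 1 3 8 9 1 1), (6, .rt 2 3 5 2 3 5), (150, .cf 0 1 3 0 3 8), (78, .am 0 1 8 9 1 1), (22, .am 1 2 7 9 1 1), (48, .tb 6 1 2), (45, .rt 0 1 3 0 2 3), (3, .pl 0 8 3 6), (6, .pl 1 2 7 5), (6, .pl 5 8 7 6), (102, .rt 7 8 0 7 8 0), (63, .ex 0), (144, .rt 0 1 3 0 1 3), (30, .am 0 2 8 9 1 1), (33, .rt 2 3 5 2 3 6), (15, .am 0 2 3 8 1 1), (144, .ce 4 6 7 4 7 9), (39, .pl 0 8 7 6)])) (.br 0 4 1 7 3 1 (.leaf [(1, .am 0 1 7 8 1 1), (1, .lf 5 7 8 8 4 7), (1, .ex 0), (1, .am 0 6 7 9 1 1), (2, .c4 6), (1, .pl 0 8 7 6), (1, .ce 4 6 7 4 7 9), (2, .lf 6 8 9 9 6 7), (3, .lf 7 9 0 0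 7 9), (2, .rt 7 8 0 7 8 0), (2, .rt 8 9 1 8 0 1), (1, .pl 0 4 6 8)]) (.leaf [(11, .pl 1 2 7 6), (7, .pl 2 3 7 6), (11, .rt 3 4 6 3 5 6), (15, .ex 0), (15, .rt 1 2 4 1 2 4), (2, .am 0 1 8 9 1 1), (36, .rt 9 0 2 9 0 2), (26, .c4 6), (10, .cf 0 1 3 0 3 8), (11, .lf 5 7 8 8 5 7), (11, .rt 2 3 5 2 3 6), (36, .rt 7 8 0 7 8 0), (4, .pl 3 4 9 7), (11, .pl 0 8 3 5), (11, .ce 4 6 7 4 7 9), (26, .rt 8 9 1 8 9 1), (4, .am 0 1 7 8 1 1), (14, .am 0 2 8 9 1 1), (4, .rt 3 4 6 3 4 6), (21, .rt 0 1 3 0 2 3), (7, .am 0 2 7 8 1 1), (10, .am 1 7 8 9 1 1), (5, .am 0 1 7 9 1 1), (11, .lf 7 9 0 0 7 9), (4, .am 1 2 3 9 1 1), (8, .pl 1 3 7 6)]))) (.ch 6 (.br 0 5 1 7 1 2 (.leaf [(3, .am 0 1 7 8 1 1), (6, .rt 9 0 2 9 0 3), (2, .lf 4 6 7 7 4 5), (1, .am 0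 5 7 8 1 1), (2, .ce 4 6 7 4 7 9), (1, .am 0 7 8 9 1 1), (2, .tb 5 1 2), (3, .cf 0 1 3 0 3 7), (4, .rt 6 7 9 5 7 9), (3, .am 0 3 8 9 1 1), (2, .am 0 5 8 9 1 1), (3, .cf 9 0 2 8 3 7), (6, .cf 0 1 3 0 3 8), (6, .rt 0 1 3 0 1 3), (6, .rt 8 9 1 8 9 1), (3, .ex 0)]) (.leaf [(4, .am 0 1 7 8 1 1), (2, .am 0 1 3 8 1 1), (3, .rt 1 2 4 1 2 5), (1, .pl 2 3 7 8), (6, .am 0 2 8 9 1 1), (12, .rt 9 0 2 9 0 2), (4, .cf 9 0 2 8 3 7), (3, .am 0 2 3 8 1 1), (9, .rt 0 1 3 0 2 3), (6, .ex 0), (12, .rt 0 1 3 0 1 3), (6, .rt 2 3 5 2 3 5), (6, .am 0 7 8 9 1 1), (13, .lf 4 6 7 7 4 5), (11, .cf 0 1 3 0 3 8), (1, .am 1 2 3 5 1 1), (12, .rt 8 9 1 8 9 1), (12, .ce 4 6 7 4 7 9), (1, .pl 2 3 7 5), (2, .am 1 2 7 5 1 1), (1, .ce 4 6 7 4 7 8), (4, .tb 5 1 2)]))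 (.leaf [(1, .am 0 3 8 9 1 1), (2, .cf 8 9 1 8 1 7), (1, .lf 8 0 1 3 8 0), (1, .am 0 7 8 9 1 1), (4, .tb 5 1 2), (4, .lf 4 6 7 7 4 5), (9, .lf 8 0 1 1 8 0), (2, .ce 4 6 7 4 7 9), (2, .cf 9 0 2 8 3 7), (9, .pl 0 1 7 8), (2, .rt 9 0 2 9 0 3), (2, .rt 8 9 1 8 9 1), (2, .ce 4 6 7 4 7 8)]) (.br 0 3 1 6 3 1 (.leaf [(12, .am 6 7 8 9 1 1), (24, .am 0 7 8 9 1 1), (32, .lf 4 6 7 7 4 5), (18, .am 0 3 8 9 1 1), (32, .tb 5 1 2), (15, .am 0 2 7 8 1 1), (14, .cf 0 1 3 0 3 7), (72, .ce 4 6 7 4 7 9), (30, .am 0 2 8 9 1 1), (54, .lf 4 6 7 7 4 6), (15, .am 1 2 7 6 1 1), (18, .cf 9 0 2 8 3 7), (45, .rt 0 1 3 0 2 3), (72, .rt 0 1 3 0 1 3), (12, .am 0 1 8 9 1 1), (30, .ex 0), (15, .pl 2 3 7 4), (30, .am 0 1 7 8 1 1), (29, .ce 4 6 7 4 7 8), (15, .pl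 2 3 7 6), (91, .cf 0 1 3 0 3 8), (60, .rt 9 0 2 9 0 2), (36, .rt 9 0 2 9 0 3), (30, .rt 2 3 5 2 3 6), (15, .rt 1 2 4 1 2 4), (12, .pl 0 9 7 6), (24, .tb 6 1 2), (15, .pl 1 6 4 3)]) (.leaf [(2, .ex 0), (2, .am 0 6 8 9 1 1), (3, .c3 6 1 1 0), (1, .cf 9 0 2 9 3 7), (1, .ce 4 6 7 4 7 8), (3, .lf 4 6 7 7 4 6), (1, .tb 5 1 2), (2, .pl 0 3 7 9), (3, .rt 9 0 2 9 0 3), (2, .am 1 7 8 9 1 1), (1, .am 6 7 8 9 1 1), (1, .am 0 1 8 9 1 1), (3, .ce 4 6 7 4 7 9), (1, .lf 4 6 7 7 4 5), (3, .rt 0 1 3 0 1 3), (5, .cf 0 1 3 0 3 8), (2, .pl 1 3 7 6)])) (.br 0 4 1 7 3 1 (.leaf [(14, .lf 4 6 7 7 4 5), (28, .cf 0 1 3 0 3 8), (14, .ce 4 6 7 4 7 8), (6, .pl 0 4 6 7), (14, .cf 9 0 2 8 3 7), (7, .pl 0 3 7 8), (21, .am 0 3 8 9 1 1), (6, .ex 0), (12, .c4 6),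 (6, .am 0 6 7 9 1 1), (12, .rt 8 9 1 8 9 1), (14, .tb 5 1 2), (6, .am 0 1 7 8 1 1), (3, .am 0 7 8 9 1 1), (12, .lf 6 8 9 9 6 8), (42, .rt 9 0 2 9 0 3)]) (.leaf [(8, .cf 0 1 3 0 3 8), (15, .am 0 1 7 9 1 1), (9, .pl 2 3 7 6), (33, .rt 1 2 4 1 2 4), (27, .rt 0 1 3 0 2 3), (18, .am 0 2 8 9 1 1), (91, .rt 9 0 2 9 0 2), (2, .rt 3 4 6 3 4 6), (6, .am 0 1 8 9 1 1), (24, .pl 1 3 7 6), (21, .pl 1 2 7 6), (2, .rt 9 0 2 9 0 3), (2, .pl 0 7 3 4), (31, .cf 9 0 2 9 2 7), (33, .ex 0), (54, .c4 6), (9, .am 0 2 7 8 1 1), (31, .tb 5 1 2), (14, .pl 3 5 9 7), (30, .am 1 7 8 9 1 1), (12, .am 1 2 3 9 1 1), (17, .pl 0 7 3 5), (31, .rt 3 4 6 3 5 6), (21, .rt 2 3 5 2 3 6), (31, .ce 4 6 7 4 7 8), (54, .rt 8 9 1 8 9 1)]))) (.leaf [(120, .lf 6 8 9 9 6 7),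 (120, .c4 5), (42, .pl 2 3 7 8), (84, .rt 2 3 5 2 3 5), (12, .am 1 2 7 5 1 1), (20, .am 0 2 3 8 1 1), (20, .lf 4 6 7 7 4 5), (8, .am 0 2 7 8 1 1), (38, .pl 0 1 6 5), (52, .am 0 1 7 8 1 1), (22, .am 2 3 5 6 1 1), (11, .am 3 6 5 9 1 1), (56, .rt 1 2 4 1 2 5), (56, .rt 8 9 1 8 9 2), (33, .am 0 6 3 9 1 1), (18, .am 0 7 8 9 1 1), (120, .lf 4 6 7 7 4 6), (104, .rt 8 9 1 8 9 1), (14, .am 0 1 2 7 1 1), (140, .ce 4 6 7 4 7 9), (8, .am 2 6 5 7 1 1), (104, .rt 0 1 3 0 1 3), (11, .pl 0 9 6 5), (30, .pl 1 2 5 6), (20, .cf 0 1 3 0 3 9), (16, .am 0 6 7 9 1 1), (22, .am 0 3 8 9 1 1), (120, .rt 7 8 0 7 8 0)])) (.leaf [(4, .pl 0 9 7 5), (1, .am 0 3 2 6 1 1), (4, .am 2 3 8 5 1 1), (6, .pl 1 5 4 7), (1, .am 0 3 8 9 1 1), (5, .pl 0 3 7 8), (13, .am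 2 3 5 6 1 1), (2, .am 0 2 8 9 1 1), (8, .rt 7 8 0 7 8 0), (1, .pl 0 3 6 5), (20, .rt 2 3 5 2 3 5), (8, .rt 9 0 2 9 0 2), (1, .am 0 7 8 9 1 1), (14, .pl 1 2 5 6), (6, .rt 1 2 4 1 2 4), (28, .lf 3 5 6 6 3 5), (6, .ce 4 6 7 4 7 9), (8, .cf 0 1 3 0 3 8), (2, .am 5 7 8 9 1 1), (8, .rt 1 2 4 1 2 5), (2, .am 2 3 9 5 1 1), (6, .rt 8 9 1 8 9 2)])) (.leaf [(1, .rt 1 2 4 1 2 4), (1, .pl 1 9 4 6), (1, .pl 3 6 5 7), (1, .lf 2 4 5 5 2 4), (1, .pl 1 2 9 6), (1, .pl 0 5 6 8), (1, .pl 0 6 5 4), (1, .pl 5 8 7 6), (1, .pl 2 6 5 3)])) (.pr 2 2 (.pr 3 2 C3543654654_5 (.leaf [(1, .pl 1 4 9 2), (1, .pl 1 3 7 6), (1, .pl 1 7 3 2), (1, .pl 1 7 4 6), (1, .pl 2 3 9 6), (2, .lf 3 5 6 6 3 5), (1, .pl 0 2 6 4), (2, .pl 2 4 5 6), (1, .pl 0 1 2 7), (2, .rt 2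 3 5 2 3 5), (1, .pl 0 6 1 9)])) (.pr 3 2 C3543654654_6 (.ch 5 (.leaf [(1, .am 0 5 8 9 1 1), (4, .lf 2 4 5 5 1 4), (2, .am 0 6 7 8 1 1), (4, .rt 7 8 0 7 8 0), (2, .pl 0 9 5 4), (2, .cf 9 0 2 9 2 7), (2, .rt 5 6 8 5 7 8), (13, .rt 5 6 8 5 6 8), (2, .rt 9 0 2 9 0 2), (4, .lf 4 6 7 7 4 6), (13, .lf 6 8 9 9 6 8), (2, .rt 9 0 2 9 0 3), (1, .am 0 5 6 9 1 1), (2, .cf 9 0 2 9 3 8), (2, .am 6 7 8 9 1 1), (4, .ce 1 3 4 1 5 6), (2, .am 4 5 7 9 1 1), (8, .am 5 6 8 9 1 1)]) (.ch 6 (.leaf [(1, .rt 6 7 9 6 7 9), (1, .lf 7 9 0 0 7 9), (1, .pl 0 9 7 5), (1, .pl 5 9 7 6)]) (.leaf [(1, .pl 0 1 2 9), (1, .rt 7 8 0 7 8 0), (1, .pl 0 3 7 8), (1, .pl 1 9 8 2), (1, .pl 0 2 3 8), (1, .lf 8 0 1 1 8 0)]) (.br 0 6 3 7 3 1 (.leaf [(10, .am 0 6 8 9 1 1), (15,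 .lf 4 6 7 7 4 6), (15, .ce 4 6 7 4 7 9), (28, .cf 0 1 3 0 3 8), (4, .am 0 3 7 8 1 1), (6, .am 0 1 7 8 1 1), (3, .lf 7 9 0 0 7 9), (12, .c3 6 1 1 0), (10, .ex 0), (3, .lf 6 8 9 9 6 7), (1, .am 0 7 8 9 1 1), (16, .rt 7 8 0 7 8 0), (6, .rt 7 8 0 7 1 3), (16, .rt 9 0 2 9 0 3), (6, .rt 0 1 3 0 1 3), (5, .am 6 7 8 9 1 1), (8, .am 0 3 8 9 1 1)]) (.leaf [(108, .lf 5 7 8 8 5 7), (144, .cf 0 1 3 0 3 8), (3, .am 4 6 7 9 1 1), (42, .pl 0 1 7 9), (48, .ta 6 1 2), (63, .lf 3 5 6 6 3 5), (102, .lf 7 9 0 0 7 9), (1, .am 4 6 8 9 1 1), (48, .rt 0 1 3 0 1 3), (3, .pl 0 7 5 4), (19, .pl 0 9 5 4), (6, .pl 0 1 6 5), (63, .ex 0), (150, .ce 4 6 7 4 7 9), (30, .am 5 7 8 9 1 1), (33, .pl 0 2 6 5), (22, .am 0 5 6 8 1 1), (78, .am 6 7 8 9 1 1), (39, .lf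 2 4 5 5 2 4), (6, .pl 1 5 9 2), (45, .lf 4 6 7 7 4 5), (15, .am 4 5 7 9 1 1), (33, .rt 0 1 3 0 2 3), (83, .am 0 6 8 9 1 1), (2, .am 4 5 6 8 1 1), (6, .cf 9 0 2 9 2 7), (144, .lf 4 6 7 7 4 6)])) (.br 0 6 3 7 3 1 (.leaf [(1, .rt 9 0 2 9 0 3), (1, .pl 0 1 3 7), (1, .cf 0 1 3 0 3 8), (1, .ex 0), (1, .am 0 1 7 8 1 1), (2, .lf 6 8 9 9 6 7), (2, .c4 6), (1, .am 0 6 7 9 1 1), (3, .rt 7 8 0 7 8 0), (2, .rt 8 9 1 8 0 1), (1, .pl 0 3 7 9), (2, .lf 7 9 0 0 7 9)]) (.leaf [(14, .am 5 7 8 9 1 1), (10, .am 0 6 8 9 1 1), (15, .ex 0), (36, .lf 7 9 0 0 7 9), (4, .am 0 6 7 9 1 1), (11, .pl 2 4 9 7), (10, .ce 4 6 7 4 7 9), (5, .am 0 6 7 8 1 1), (4, .pl 0 8 3 4), (11, .rt 7 8 0 7 8 0), (8, .pl 0 1 6 4), (36, .lf 5 7 8 8 5 7), (11, .lf 1 3 4 4 1 2),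 (7, .am 0 5 7 9 1 1), (11, .cf 0 1 3 0 3 8), (26, .lf 6 8 9 9 6 8), (4, .lf 1 3 4 4 1 3), (11, .lf 2 4 5 5 1 4), (11, .pl 0 1 6 5), (7, .pl 0 1 5 4), (15, .lf 3 5 6 6 3 5), (21, .lf 4 6 7 7 4 5), (2, .am 6 7 8 9 1 1), (4, .am 4 5 6 8 1 1), (11, .rt 9 0 2 9 0 2), (26, .c4 6)]))) (.ch 6 (.br 2 6 4 7 2 1 (.br 0 6 1 7 1 2 (.leaf [(24, .am 0 6 8 9 1 1), (48, .rt 0 1 3 0 1 3), (48, .rt 8 9 1 8 9 1), (24, .ex 0), (3, .pl 0 2 5 4), (6, .pl 0 3 6 4), (24, .am 0 1 7 8 1 1), (24, .am 0 7 8 9 1 1), (3, .am 0 2 6 5 1 1), (16, .tb 5 1 2), (6, .rt 0 1 3 0 2 3), (16, .cf 0 1 3 0 3 7), (10, .lf 4 6 7 7 4 5), (48, .rt 6 7 9 6 7 9), (9, .ex 1), (6, .lf 3 5 6 6 3 5), (48, .rt 9 0 2 9 0 2), (6, .pl 2 6 4 3), (6, .lf 2 4 5 5 2 4), (44, .cf 0 1 3 0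 3 8), (3, .am 4 5 6 7 1 1), (48, .cf 9 0 2 9 2 7), (4, .ce 4 6 7 4 7 8), (12, .am 0 6 7 8 1 1)]) (.br 2 6 4 7 1 2 (.leaf [(130, .cf 0 1 3 0 3 8), (121, .ex 0), (26, .am 0 5 7 8 1 1), (10, .am 0 7 8 9 1 1), (12, .lf 5 7 8 8 5 6), (100, .am 0 6 8 9 1 1), (98, .rt 0 1 3 0 2 3), (72, .lf 3 5 6 6 3 5), (90, .rt 7 8 0 7 9 0), (110, .cf 9 0 2 9 2 7), (40, .cf 0 1 3 0 3 7), (98, .lf 4 6 7 7 4 6), (110, .rt 9 0 2 9 0 2), (110, .lf 6 8 9 9 6 8), (49, .am 0 2 6 5 1 1), (46, .pl 0 3 6 4), (46, .pl 2 6 4 3), (23, .am 4 5 6 7 1 1), (90, .rt 6 7 9 6 7 9), (44, .am 0 6 7 8 1 1), (26, .pl 0 3 2 6), (98, .lf 2 4 5 5 2 4), (75, .pl 0 2 5 4), (20, .ta 5 1 2)]) (.br 0 2 3 7 3 1 (.br 3 6 4 7 1 2 (.leaf [(30, .lf 3 5 6 6 3 5), (4, .lf 2 4 5 5 2 4),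 (30, .cf 9 0 2 9 3 7), (30, .rt 9 0 2 9 0 3), (224, .rt 0 1 3 0 2 3), (35, .am 0 6 7 8 1 1), (10, .pl 0 2 5 4), (8, .am 1 6 5 9 1 1), (20, .lf 6 8 9 9 6 8), (30, .tb 5 1 2), (30, .pl 0 3 6 4), (83, .am 0 2 7 8 1 1), (2, .am 2 6 5 9 1 1), (10, .am 5 6 7 9 1 1), (10, .am 0 5 7 9 1 1), (10, .am 4 5 6 7 1 1), (2, .am 0 1 7 8 1 1), (20, .lf 4 6 7 7 4 6), (16, .lf 2 4 5 5 1 4), (110, .rt 8 9 1 8 9 2), (2, .pl 1 6 7 2), (4, .am 0 1 8 9 1 1), (110, .cf 0 1 3 0 3 8), (75, .pl 0 2 6 4), (10, .ex 3), (30, .ex 0), (85, .ex 2), (160, .rt 6 7 9 6 7 9), (70, .am 0 6 8 9 1 1), (110, .rt 9 0 2 9 0 2), (16, .rt 0 1 3 0 1 3), (160, .cf 0 1 3 0 3 7), (50, .rt 7 8 0 7 9 0), (56, .am 0 2 8 9 1 1)]) (.br 0 6 1 7 1 1 (.leaf [(6, .am 0 1 7 8 1 1), (8,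 .cf 0 1 3 0 3 8), (4, .ce 4 6 7 4 7 8), (3, .am 0 3 7 8 1 1), (12, .rt 8 9 1 8 9 1), (6, .am 0 6 8 9 1 1), (16, .cf 0 1 3 0 3 7), (3, .ex 1), (12, .rt 6 7 9 6 7 9), (3, .am 0 6 7 8 1 1), (12, .rt 9 0 2 9 0 3), (6, .am 0 3 8 9 1 1), (12, .rt 0 1 3 0 1 3), (4, .tb 5 1 2), (3, .pl 0 3 6 4), (4, .lf 4 6 7 7 4 5), (6, .ex 0)]) (.leaf [(40, .am 3 6 5 9 1 1), (40, .am 0 5 7 9 1 1), (80, .pl 0 3 5 4), (308, .cf 0 1 3 0 3 7), (184, .ex 1), (14, .am 2 6 5 9 1 1), (6, .am 0 1 8 9 1 1), (40, .am 4 6 7 8 1 1), (68, .am 0 6 8 9 1 1), (26, .am 1 6 5 9 1 1), (264, .ex 0), (188, .rt 8 9 1 8 9 3), (80, .lf 6 8 9 9 6 8), (308, .rt 9 0 2 9 0 3), (28, .lf 2 4 5 5 2 4), (101, .am 3 6 8 7 1 1), (320, .cf 0 1 3 0 3 8), (68, .rt 7 8 0 7 9 0), (40, .am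 0 5 7 8 1 1), (3, .am 1 6 8 7 1 1), (218, .pl 0 3 1 6), (174, .am 0 3 8 9 1 1), (104, .pl 0 3 6 4), (3, .pl 1 6 7 3), (20, .am 4 6 8 9 1 1), (80, .lf 3 5 6 6 3 5), (256, .rt 6 7 9 6 7 9), (80, .am 3 5 8 7 1 1), (14, .pl 1 6 9 2), (52, .lf 2 4 5 5 1 4), (20, .pl 0 9 6 4), (28, .cf 9 0 2 9 2 7), (80, .lf 4 6 7 7 4 6), (80, .tb 5 1 2), (56, .am 0 6 7 8 1 1), (52, .rt 0 1 3 0 1 3)]))) (.leaf [(4, .am 0 1 8 9 1 1), (140, .cf 0 1 3 0 3 8), (5, .am 4 6 8 9 1 1), (16, .rt 0 1 3 0 1 3), (20, .rt 9 0 2 9 0 3), (40, .tb 5 1 2), (220, .rt 6 7 9 6 7 9), (20, .lf 6 8 9 9 6 8), (20, .am 0 5 7 9 1 1), (40, .lf 3 5 6 6 3 5), (10, .am 4 6 7 8 1 1), (20, .cf 9 0 2 9 3 7), (30, .am 0 6 7 8 1 1), (86, .am 0 2 8 9 1 1), (2, .pl 1 6 7 2), (324, .rt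 0 1 3 0 2 3), (20, .pl 0 2 5 4), (40, .pl 2 3 7 6), (20, .lf 4 6 7 7 4 6), (118, .am 0 2 7 8 1 1), (120, .ex 1), (4, .lf 2 4 5 5 2 4), (170, .rt 9 0 2 9 0 2), (2, .am 0 1 7 8 1 1), (5, .pl 0 9 6 4), (10, .ex 2), (8, .am 1 6 5 9 1 1), (40, .ex 0), (75, .am 0 6 8 9 1 1), (30, .am 5 6 7 9 1 1), (16, .lf 2 4 5 5 1 4), (2, .am 2 6 5 9 1 1), (240, .cf 0 1 3 0 3 7), (150, .rt 8 9 1 8 9 2), (70, .rt 7 8 0 7 9 0), (100, .pl 0 2 6 4)])))) (.leaf [(16, .cf 0 1 3 0 3 7), (6, .am 0 2 8 9 1 1), (12, .rt 9 0 2 9 0 2), (4, .tb 5 1 2), (3, .am 0 6 7 8 1 1), (4, .lf 4 6 7 7 4 5), (9, .pl 0 2 6 4), (8, .cf 0 1 3 0 3 8), (12, .rt 6 7 9 6 7 9), (4, .ce 4 6 7 4 7 8), (9, .ex 0), (12, .rt 8 9 1 8 9 2), (24, .rt 0 1 3 0 2 3), (9, .am 0 2 7 8 1 1), (6,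 .am 0 6 8 9 1 1)])) (.leaf [(2, .ce 4 6 7 4 7 9), (2, .rt 9 0 2 9 0 2), (2, .rt 8 9 1 8 9 3), (1, .am 0 2 8 9 1 1), (2, .cf 9 0 2 8 2 7), (9, .pl 0 1 7 8), (2, .ce 4 6 7 4 7 8), (1, .am 0 7 8 9 1 1), (4, .lf 4 6 7 7 4 5), (1, .lf 8 0 1 2 8 0), (9, .lf 8 0 1 1 8 0), (2, .cf 9 0 2 8 3 7), (4, .tb 5 1 2)]) (.br 3 6 9 7 1 3 (.leaf [(1605, .cf 0 1 3 0 3 8), (215, .rt 0 1 3 0 1 3), (660, .lf 4 6 7 7 4 6), (120, .ta 6 1 2), (310, .lf 3 5 6 6 3 5), (71, .am 0 6 7 8 1 1), (1080, .rt 9 0 2 9 0 3), (62, .pl 0 9 5 4), (420, .ce 4 6 7 4 7 9), (360, .cf 8 9 1 8 1 7), (360, .tb 5 1 2), (695, .am 0 3 8 9 1 1), (155, .pl 0 1 6 5), (135, .ce 4 6 7 4 7 8), (208, .am 0 6 8 9 1 1), (93, .am 4 5 6 7 1 1), (695, .pl 0 3 7 8), (60, .am 0 1 8 9 1 1),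 (55, .am 0 7 8 9 1 1), (62, .am 0 5 6 7 1 1), (155, .lf 2 4 5 5 1 4), (50, .lf 4 6 7 7 4 5), (124, .am 4 6 7 8 1 1), (62, .am 4 6 8 9 1 1), (310, .ex 0), (300, .c3 6 1 1 0)]) (.leaf [(3, .rt 0 1 3 0 1 3), (3, .am 0 1 7 8 1 1), (12, .ce 4 6 7 4 7 9), (12, .lf 4 6 7 7 4 6), (24, .rt 9 0 2 9 0 3), (3, .rt 7 8 0 7 1 3), (8, .lf 4 6 7 7 4 5), (8, .ce 4 6 7 4 7 8), (6, .cf 8 9 1 8 1 7), (8, .tb 5 1 2), (12, .c3 6 1 1 0), (28, .cf 0 1 3 0 3 8), (9, .am 0 3 7 8 1 1), (2, .cf 0 1 3 0 3 7), (6, .am 0 7 8 9 1 1), (12, .ex 0), (18, .am 0 3 8 9 1 1)])) (.br 3 6 9 7 1 3 (.leaf [(21, .rt 9 0 2 9 0 2), (33, .rt 7 8 0 7 9 0), (3, .am 0 5 7 9 1 1), (15, .tb 5 1 2), (6, .am 5 7 8 9 1 1), (18, .pl 0 1 6 4), (21, .ex 0), (21, .pl 0 3 7 8), (9, .am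 4 5 6 7 1 1), (6, .ta 5 1 2), (21, .pl 2 4 9 7), (12, .lf 4 6 7 7 4 5), (40, .c4 6), (10, .am 0 6 7 8 1 1), (12, .lf 2 4 5 5 1 4), (63, .rt 9 0 2 9 0 3), (12, .pl 0 1 6 5), (33, .cf 9 0 2 9 3 7), (21, .lf 3 5 6 6 3 5), (21, .am 0 3 8 9 1 1), (40, .lf 6 8 9 9 6 8), (51, .cf 0 1 3 0 3 8), (21, .lf 1 3 4 4 1 2), (20, .am 0 6 8 9 1 1), (7, .rt 8 9 1 8 9 1), (7, .pl 0 1 7 8), (3, .pl 0 1 5 4), (9, .pl 0 3 7 9)]) (.leaf [(2, .rt 8 9 1 8 9 1), (2, .ex 0), (1, .am 0 1 7 8 1 1), (2, .ce 4 6 7 4 7 8), (2, .cf 9 0 2 8 3 7), (4, .cf 0 1 3 0 3 8), (2, .lf 6 8 9 9 6 8), (1, .am 0 3 7 8 1 1), (2, .tb 5 1 2), (6, .rt 9 0 2 9 0 3), (2, .lf 4 6 7 7 4 5), (1, .pl 0 1 3 7), (2, .c4 6), (4, .am 0 3 8 9 1 1)]))) (.leaf [(8, .lf 2 4 5 5 1 4), (20, .lf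 6 8 9 9 6 8), (20, .lf 4 6 7 7 4 6), (12, .c4 5), (1, .am 0 7 8 9 1 1), (4, .am 0 6 8 9 1 1), (4, .am 5 6 7 9 1 1), (8, .pl 0 1 6 5), (5, .ce 5 7 8 4 9 0), (12, .lf 5 7 8 8 5 7), (2, .am 4 5 7 9 1 1), (7, .ce 4 6 7 4 7 0), (6, .am 4 5 7 8 1 1), (8, .cf 0 1 3 0 3 8), (2, .am 0 6 7 9 1 1), (8, .rt 0 1 3 0 1 3), (2, .am 0 6 7 8 1 1), (3, .am 4 7 8 9 1 1)]))))

def C3543654654_8 : Tr :=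
  .ch 1 (.ch 6 (.leaf [(1, .rt 6 7 9 6 7 9), (1, .lf 7 9 0 0 7 9), (1, .pl 0 9 8 5), (1, .pl 0 8 7 5), (1, .pl 5 9 7 6)]) (.ch 7 (.leaf [(1, .pl 3 9 8 7), (1, .pl 0 1 7 9), (1, .rt 7 8 0 7 8 0), (1, .lf 8 0 1 1 8 0), (1, .pl 1 9 8 3)]) (.leaf [(16, .am 1 2 8 9 1 1), (2, .am 0 2 7 8 1 1), (28, .lf 9 1 2 2 9 1), (2, .am 1 2 7 8 1 1), (4, .lf 8 0 1 1 7 0), (1, .am 1 2 3 8 1 1), (5, .am 0 1 8 9 1 1), (8, .rt 2 3 5 2 3 6), (4, .rt 9 0 2 9 0 3), (2, .am 0 1 3 9 1 1), (1, .am 0 1 2 9 1 1), (8, .ce 5 7 8 4 8 0), (4, .pl 2 3 7 8), (8, .cf 3 4 6 2 6 1), (4, .rt 0 1 3 0 1 3), (8, .lf 5 7 8 8 4 7), (4, .lf 7 9 0 0 7 9), (24, .rt 8 9 1 8 9 1), (3, .am 2 3 8 9 1 1)]) (.br 0 3 1 5 2 1 (.br 0 6 1 7 1 2 (.leaf [(40, .ce 4 6 7 4 7 0), (4, .cf 0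 1 3 0 3 9), (48, .lf 6 8 9 9 6 8), (44, .ce 4 6 7 4 7 9), (6, .lf 4 6 7 7 4 5), (16, .ta 7 1 2), (6, .rt 1 2 4 1 2 4), (3, .am 1 2 7 5 1 1), (3, .am 0 1 2 3 1 1), (48, .lf 5 7 8 8 4 7), (24, .ex 0), (3, .pl 1 5 4 3), (6, .pl 1 3 7 5), (24, .am 0 6 7 9 1 1), (6, .rt 2 3 5 2 3 5), (10, .rt 0 1 3 0 2 3), (24, .ce 5 7 8 4 9 0), (3, .pl 2 3 7 4), (3, .pl 1 5 4 7), (48, .lf 8 0 1 1 8 0), (9, .ex 1), (48, .lf 4 6 7 7 4 6), (12, .am 0 1 7 9 1 1), (24, .am 4 7 8 9 1 1), (24, .am 1 7 8 9 1 1)]) (.br 0 3 1 5 1 2 (.leaf [(26, .am 0 2 7 9 1 1), (3, .pl 2 3 7 5), (40, .ce 4 6 7 4 7 0), (90, .lf 8 0 1 1 8 0), (100, .am 1 7 8 9 1 1), (98, .rt 0 1 3 0 1 3), (72, .rt 1 2 4 1 2 4), (110, .lf 5 7 8 8 4 7), (72, .pl 1 5 4 3), (121, .ex 0), (98, .rt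 2 3 5 2 3 5), (46, .pl 1 3 7 5), (110, .rt 8 9 1 8 9 1), (110, .ce 5 7 8 4 8 0), (10, .am 0 7 8 9 1 1), (130, .ce 4 6 7 4 7 9), (72, .pl 2 3 7 4), (44, .am 0 1 7 9 1 1), (12, .rt 9 0 2 9 1 2), (98, .lf 4 6 7 7 4 5), (90, .lf 7 9 0 0 7 8), (20, .tb 7 1 2), (23, .am 0 1 2 3 1 1), (49, .am 1 2 7 5 1 1)]) (.br 0 4 5 8 3 1 (.br 0 3 1 4 1 2 (.leaf [(70, .am 1 7 8 9 1 1), (160, .lf 8 0 1 1 8 0), (30, .ex 0), (85, .ex 2), (10, .am 0 1 2 8 1 1), (160, .ce 4 6 7 4 7 0), (224, .lf 4 6 7 7 4 5), (56, .am 5 7 8 9 1 1), (50, .lf 7 9 0 0 7 8), (2, .am 0 6 7 9 1 1), (10, .am 0 2 7 8 1 1), (10, .ex 3), (30, .ta 7 1 2), (2, .pl 0 5 6 1), (110, .lf 6 8 9 9 5 8), (16, .rt 2 3 5 2 3 6), (16, .lf 4 6 7 7 4 6), (83, .am 0 5 7 9 1 1), (8, .am 1 2 8 6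 1 1), (110, .ce 4 6 7 4 7 9), (30, .ce 5 7 8 5 8 0), (20, .rt 8 9 1 8 9 1), (2, .am 1 2 8 5 1 1), (30, .pl 1 3 7 4), (4, .am 6 7 8 9 1 1), (75, .pl 1 3 7 5), (35, .am 0 1 7 9 1 1), (30, .rt 1 2 4 1 2 4), (10, .pl 2 3 7 5), (10, .am 0 1 2 3 1 1), (4, .rt 2 3 5 2 3 5), (140, .lf 5 7 8 8 5 7), (20, .rt 0 1 3 0 1 3)]) (.br 0 6 1 7 1 1 (.leaf [(12, .lf 4 6 7 7 4 6), (12, .lf 8 0 1 1 8 0), (12, .lf 5 7 8 8 4 7), (6, .am 0 6 7 9 1 1), (8, .ce 4 6 7 4 7 9), (6, .am 4 7 8 9 1 1), (3, .am 0 1 7 9 1 1), (16, .ce 4 6 7 4 7 0), (4, .ta 7 1 2), (3, .ex 1), (4, .cf 0 1 3 0 3 9), (4, .rt 0 1 3 0 2 3), (6, .ex 0), (12, .lf 6 8 9 9 6 8), (3, .am 0 4 7 9 1 1), (6, .am 1 7 8 9 1 1), (3, .pl 1 3 7 4)]) (.leaf [(96, .am 0 1 7 9 1 1), (164, .pl 1 3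 7 4), (132, .lf 4 6 7 7 4 6), (101, .am 0 4 1 9 1 1), (80, .am 0 4 2 9 1 1), (80, .rt 0 1 3 0 1 3), (68, .am 1 7 8 9 1 1), (184, .ex 1), (28, .ce 5 7 8 5 8 0), (20, .am 1 3 8 9 1 1), (3, .pl 0 4 6 1), (80, .ta 7 1 2), (6, .am 6 7 8 9 1 1), (264, .ex 0), (308, .ce 4 6 7 4 7 0), (40, .am 0 2 3 9 1 1), (3, .am 0 6 1 9 1 1), (188, .lf 6 8 9 9 4 8), (68, .lf 7 9 0 0 7 8), (14, .pl 1 6 5 8), (256, .lf 8 0 1 1 8 0), (52, .rt 2 3 5 2 3 6), (14, .am 1 2 8 5 1 1), (320, .ce 4 6 7 4 7 9), (40, .am 0 2 7 8 1 1), (40, .am 1 2 8 4 1 1), (80, .rt 8 9 1 8 9 1), (28, .rt 2 3 5 2 3 5), (80, .rt 1 2 4 1 2 6), (308, .lf 5 7 8 8 4 7), (20, .pl 2 3 7 4), (20, .pl 2 3 7 8), (138, .pl 1 6 4 7), (26, .am 1 2 8 6 1 1), (174, .am 4 7 8 9 1 1)]))) (.leaf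 [(40, .pl 0 1 5 4), (220, .lf 8 0 1 1 8 0), (190, .lf 5 7 8 8 5 7), (5, .pl 2 3 7 8), (2, .pl 0 5 6 1), (30, .am 0 1 2 8 1 1), (8, .am 1 2 8 6 1 1), (15, .pl 2 3 7 5), (75, .am 1 7 8 9 1 1), (150, .lf 6 8 9 9 5 8), (30, .am 0 1 7 9 1 1), (324, .lf 4 6 7 7 4 5), (10, .am 0 1 3 9 1 1), (40, .ta 7 1 2), (4, .am 6 7 8 9 1 1), (20, .am 0 2 7 8 1 1), (5, .am 1 3 8 9 1 1), (16, .lf 4 6 7 7 4 6), (200, .ce 4 6 7 4 7 0), (86, .am 5 7 8 9 1 1), (20, .rt 0 1 3 0 1 3), (118, .am 0 5 7 9 1 1), (40, .rt 1 2 4 1 2 4), (105, .pl 1 3 7 5), (40, .ex 0), (16, .rt 2 3 5 2 3 6), (10, .ex 2), (2, .am 0 6 7 9 1 1), (120, .ex 1), (40, .ce 5 7 8 4 8 0), (4, .rt 2 3 5 2 3 5), (20, .rt 8 9 1 8 9 1), (20, .ce 5 7 8 5 8 0), (2, .am 1 2 8 5 1 1), (70, .lf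 7 9 0 0 7 8), (140, .ce 4 6 7 4 7 9)])))) (.leaf [(4, .ta 7 1 2), (6, .am 1 7 8 9 1 1), (6, .am 5 7 8 9 1 1), (16, .ce 4 6 7 4 7 0), (9, .ex 0), (24, .lf 4 6 7 7 4 5), (12, .lf 5 7 8 8 5 7), (4, .rt 0 1 3 0 2 3), (4, .cf 0 1 3 0 3 9), (3, .am 0 1 7 9 1 1), (9, .am 0 5 7 9 1 1), (12, .lf 6 8 9 9 5 8), (8, .ce 4 6 7 4 7 9), (9, .pl 1 3 7 5), (12, .lf 8 0 1 1 8 0)])) (.leaf [(1, .am 0 1 2 8 1 1), (2, .rt 2 3 5 2 3 6), (4, .rt 8 9 1 8 9 1), (1, .pl 2 3 7 8), (1, .am 1 2 8 9 1 1), (4, .c4 7), (2, .rt 8 9 1 8 9 2), (2, .rt 9 0 2 9 1 2), (2, .lf 4 6 7 7 4 6), (2, .ce 4 6 7 4 7 9), (2, .rt 0 1 3 0 1 3), (4, .lf 8 0 1 1 8 0), (2, .pl 1 2 7 6), (1, .am 1 7 8 9 1 1), (1, .am 0 2 3 8 1 1), (4, .lf 7 9 0 0 7 8), (1, .am 0 1 7 8 1 1), (1, .am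 0 2 7 8 1 1)])) (.ch 7 (.br 0 4 1 7 3 1 (.leaf [(8, .am 4 7 8 9 1 1), (10, .am 1 7 8 9 1 1), (12, .c3 6 1 1 0), (28, .ce 4 6 7 4 7 9), (16, .lf 5 7 8 8 4 7), (3, .rt 8 9 1 8 0 1), (6, .lf 4 6 7 7 4 6), (6, .lf 7 9 0 0 4 6), (5, .am 0 1 8 9 1 1), (1, .am 0 7 8 9 1 1), (10, .ex 0), (6, .am 0 6 7 9 1 1), (3, .rt 7 8 0 7 8 0), (15, .cf 0 1 3 0 3 8), (15, .rt 0 1 3 0 1 3), (4, .am 0 4 7 9 1 1), (16, .lf 7 9 0 0 7 9)]) (.leaf [(102, .rt 7 8 0 7 8 0), (42, .pl 0 8 7 6), (39, .pl 1 2 7 5), (2, .am 1 2 3 9 1 1), (22, .am 1 2 7 9 1 1), (108, .rt 9 0 2 9 0 2), (33, .lf 4 6 7 7 4 5), (48, .lf 4 6 7 7 4 6), (30, .am 0 2 8 9 1 1), (15, .am 0 2 3 8 1 1), (6, .pl 5 8 7 6), (45, .rt 0 1 3 0 2 3), (63, .rt 1 2 4 1 2 4), (144, .rt 0 1 3 0 1 3),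 (19, .pl 2 3 7 8), (150, .cf 0 1 3 0 3 8), (3, .pl 0 7 3 2), (78, .am 0 1 8 9 1 1), (83, .am 1 7 8 9 1 1), (48, .tb 6 1 2), (6, .ce 5 7 8 5 8 0), (3, .am 0 1 3 8 1 1), (63, .ex 0), (1, .am 1 3 8 9 1 1), (144, .ce 4 6 7 4 7 9), (39, .rt 2 3 5 2 3 5)])) (.leaf [(76, .cf 2 3 5 2 5 1), (5, .am 0 1 2 9 1 1), (56, .cf 3 4 6 3 6 1), (76, .ce 5 7 8 4 8 9), (76, .rt 0 1 3 0 1 3), (56, .lf 9 1 2 2 8 1), (38, .pl 2 3 7 8), (56, .tb 6 1 2), (19, .am 1 2 7 8 1 1), (168, .lf 9 1 2 2 9 1), (76, .rt 2 3 5 2 3 5), (28, .am 1 2 3 8 1 1), (96, .am 1 2 8 9 1 1), (76, .lf 5 7 8 8 4 7), (19, .am 2 7 8 9 1 1), (33, .am 0 1 8 9 1 1), (76, .lf 7 9 0 0 7 9), (56, .pl 0 8 3 6), (38, .am 0 1 7 9 1 1), (10, .am 0 2 3 8 1 1)]) (.br 0 4 1 8 3 1 (.leaf [(3,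 .lf 4 6 7 7 4 6), (12, .rt 0 1 3 0 1 3), (9, .am 0 4 7 9 1 1), (8, .cf 0 1 3 0 3 9), (6, .am 0 7 8 9 1 1), (8, .rt 0 1 3 0 2 3), (12, .cf 0 1 3 0 3 8), (24, .lf 5 7 8 8 4 7), (3, .lf 7 9 0 0 4 6), (18, .am 4 7 8 9 1 1), (3, .am 0 6 7 9 1 1), (8, .ta 7 1 2), (28, .ce 4 6 7 4 7 9), (12, .ex 0), (6, .ce 6 8 9 6 9 0), (12, .c3 6 1 1 0), (2, .ce 4 6 7 4 7 0)]) (.leaf [(60, .am 6 7 8 9 1 1), (93, .am 0 1 2 3 1 1), (62, .am 1 3 8 9 1 1), (660, .rt 0 1 3 0 1 3), (695, .am 4 7 8 9 1 1), (310, .ex 0), (695, .pl 0 9 7 4), (310, .rt 1 2 4 1 2 4), (55, .am 0 7 8 9 1 1), (50, .rt 0 1 3 0 2 3), (124, .am 0 1 3 9 1 1), (120, .tb 6 1 2), (208, .am 1 7 8 9 1 1), (1605, .ce 4 6 7 4 7 9), (62, .pl 2 3 7 8), (135, .cf 0 1 3 0 3 9), (62, .am 0 1 2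 7 1 1), (360, .ce 6 8 9 6 9 0), (300, .c3 6 1 1 0), (360, .ta 7 1 2), (155, .pl 1 2 7 6), (420, .cf 0 1 3 0 3 8), (155, .rt 2 3 5 2 3 6), (71, .am 0 1 7 9 1 1), (215, .lf 4 6 7 7 4 6), (1080, .lf 5 7 8 8 4 7)])) (.leaf [(4, .pl 1 2 7 6), (9, .rt 9 0 2 9 0 2), (3, .am 1 7 8 9 1 1), (9, .c4 7), (2, .pl 0 9 7 6), (8, .lf 4 6 7 7 4 6), (2, .am 0 1 2 8 1 1), (3, .am 0 1 2 9 1 1), (3, .lf 7 9 0 0 7 9), (2, .am 6 7 8 9 1 1), (1, .lf 5 7 8 8 4 6), (5, .cf 0 1 3 0 3 8), (1, .pl 0 8 7 4), (4, .am 0 2 3 8 1 1), (1, .am 0 1 7 9 1 1), (4, .rt 2 3 5 2 3 6), (9, .ce 4 6 7 4 7 9), (5, .tb 6 1 2), (4, .cf 9 0 2 8 3 7), (2, .cf 0 1 3 0 3 7), (6, .am 0 2 8 9 1 1), (15, .rt 0 1 3 0 1 3)])) (.ch 7 (.br 0 4 1 7 3 1 (.leaf [(2, .rt 7 8 0 7 8 0), (2,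 .rt 8 9 1 8 0 1), (1, .am 0 1 7 8 1 1), (1, .lf 5 7 8 8 4 7), (1, .ex 0), (2, .lf 6 8 9 9 6 7), (3, .lf 7 9 0 0 7 9), (1, .ce 4 6 7 4 7 9), (1, .pl 0 4 6 8), (1, .am 0 6 7 9 1 1), (1, .pl 0 8 7 6), (2, .c4 6)]) (.leaf [(11, .lf 7 9 0 0 7 9), (4, .pl 3 4 9 7), (15, .rt 1 2 4 1 2 4), (8, .pl 1 3 7 6), (11, .pl 1 2 7 6), (15, .rt 3 4 6 3 4 6), (14, .am 0 2 8 9 1 1), (2, .am 0 1 8 9 1 1), (11, .rt 2 3 5 2 3 6), (7, .pl 2 3 7 6), (7, .am 0 2 7 8 1 1), (4, .am 0 1 7 8 1 1), (26, .rt 8 9 1 8 9 1), (26, .c4 6), (10, .am 1 7 8 9 1 1), (36, .rt 7 8 0 7 8 0), (11, .ce 4 6 7 4 7 9), (36, .rt 9 0 2 9 0 2), (5, .am 0 1 7 9 1 1), (10, .cf 0 1 3 0 3 8), (4, .am 1 2 3 9 1 1), (15, .ex 0), (11, .lf 5 7 8 8 4 7), (21, .rt 0 1 3 0 2 3), (11, .pl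 0 8 3 4)])) (.leaf [(2, .am 0 1 3 9 1 1), (1, .am 2 3 8 9 1 1), (4, .rt 0 1 3 0 1 3), (4, .ce 5 7 8 4 8 0), (10, .rt 8 9 1 8 9 1), (4, .rt 8 9 1 8 0 1), (2, .pl 2 3 7 8), (8, .am 1 2 8 9 1 1), (4, .cf 2 3 5 2 5 1), (4, .lf 5 7 8 8 4 7), (1, .am 0 1 8 9 1 1), (4, .rt 2 3 5 2 3 5), (2, .am 0 2 7 8 1 1), (4, .lf 7 9 0 0 7 9), (14, .lf 9 1 2 2 9 1), (1, .am 0 1 2 9 1 1), (1, .am 1 2 3 8 1 1)]) (.br 0 4 1 8 3 1 (.leaf [(4, .am 4 7 8 9 1 1), (6, .lf 5 7 8 8 4 7), (1, .am 0 6 7 9 1 1), (1, .pl 0 4 6 7), (2, .ta 7 1 2), (2, .rt 8 9 1 8 9 1), (2, .rt 0 1 3 0 2 3), (2, .lf 6 8 9 9 6 8), (4, .ce 4 6 7 4 7 9), (2, .ex 0), (1, .am 0 4 7 9 1 1), (2, .cf 0 1 3 0 3 9), (2, .ce 5 7 8 4 9 0), (2, .c4 6)]) (.leaf [(40, .rt 8 9 1 8 9 1), (40, .c4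 6), (30, .pl 0 8 7 4), (10, .am 0 1 7 9 1 1), (33, .lf 7 9 0 0 7 8), (72, .lf 5 7 8 8 4 7), (51, .ce 4 6 7 4 7 9), (12, .rt 2 3 5 2 3 6), (18, .pl 1 3 7 6), (15, .ta 7 1 2), (3, .pl 2 3 7 6), (21, .rt 1 2 4 1 2 4), (21, .am 4 7 8 9 1 1), (21, .ex 0), (12, .ce 5 7 8 5 8 0), (12, .rt 0 1 3 0 2 3), (9, .am 0 1 2 3 1 1), (20, .am 1 7 8 9 1 1), (12, .lf 5 7 8 8 5 7), (12, .pl 1 2 7 6), (6, .tb 7 1 2), (21, .pl 0 8 3 4), (7, .lf 6 8 9 9 6 8), (3, .am 0 2 7 8 1 1), (6, .am 0 2 8 9 1 1), (21, .ce 5 7 8 4 9 0), (21, .rt 3 4 6 3 4 6), (7, .pl 0 9 7 6)])) (.leaf [(14, .am 1 3 8 9 1 1), (62, .pl 1 2 7 6), (2, .am 0 2 7 8 1 1), (11, .am 0 1 2 9 1 1), (124, .rt 8 9 1 8 9 1), (62, .rt 0 1 3 0 1 3), (19, .pl 2 3 7 8), (31, .am 0 2 3 9 1 1), (62,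 .rt 2 3 5 2 3 6), (94, .rt 9 0 2 9 0 2), (46, .lf 7 9 0 1 7 8), (16, .lf 7 9 0 0 7 8), (14, .am 0 1 2 8 1 1), (5, .am 0 1 7 9 1 1), (62, .c4 6), (32, .lf 7 9 0 0 7 9), (5, .am 2 3 8 9 1 1), (94, .c4 7), (11, .am 1 7 8 9 1 1), (7, .am 1 2 3 9 1 1), (17, .am 0 2 7 9 1 1)]))) (.leaf [(1, .pl 1 7 3 2), (1, .pl 0 6 1 8), (1, .pl 1 3 7 6), (1, .pl 2 4 5 6), (1, .pl 0 2 6 4), (1, .pl 1 8 7 2), (1, .rt 2 3 5 2 3 5), (1, .lf 3 5 6 6 3 5), (1, .pl 0 1 2 8), (1, .pl 1 7 8 6)]) (.ch 6 (.leaf [(1, .pl 0 8 7 4), (1, .rt 6 7 9 6 7 9), (1, .lf 7 9 0 0 7 9), (1, .pl 0 9 8 5), (1, .pl 4 8 7 5), (1, .pl 5 9 8 6), (1, .pl 5 8 7 6)]) (.ch 7 (.leaf [(1, .pl 0 1 2 9), (1, .pl 0 3 7 9), (1, .rt 7 8 0 7 8 0), (1, .pl 1 9 8 7), (1, .lf 8 0 1 1 8 0), (1,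 .pl 0 2 3 9)]) (.leaf [(1, .am 1 2 7 8 1 1), (1, .am 0 2 3 8 1 1), (8, .am 1 2 8 9 1 1), (14, .lf 9 1 2 2 9 1), (1, .am 2 3 8 9 1 1), (4, .lf 5 7 8 8 4 7), (3, .am 0 1 8 9 1 1), (1, .am 0 2 7 8 1 1), (2, .rt 9 0 2 9 0 3), (4, .cf 2 3 5 2 5 1), (12, .rt 8 9 1 8 9 1), (2, .lf 8 0 1 1 7 0), (1, .am 0 1 2 9 1 1), (4, .ce 5 7 8 4 8 0), (4, .rt 2 3 5 2 3 5), (2, .rt 0 1 3 0 1 3), (2, .pl 2 3 7 8), (2, .lf 7 9 0 0 7 9)]) (.br 0 5 1 7 1 1 (.leaf [(6, .am 5 7 8 9 1 1), (9, .am 0 5 7 9 1 1), (4, .ta 7 1 2), (6, .am 1 7 8 9 1 1), (12, .lf 8 0 1 1 8 0), (16, .ce 4 6 7 4 7 0), (4, .rt 0 1 3 0 2 3), (9, .ex 0), (12, .lf 5 7 8 8 5 7), (3, .am 0 1 7 9 1 1), (8, .ce 4 6 7 4 7 9), (12, .lf 6 8 9 9 5 8), (4, .cf 0 1 3 0 3 9), (24, .lf 4 6 7 7 4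 5)]) (.pr 1 3 (.br 0 6 1 7 1 1 (.leaf [(16, .rt 2 3 5 2 3 5), (12, .am 0 1 3 9 1 1), (8, .lf 7 9 0 0 7 8), (6, .am 1 3 8 9 1 1), (16, .rt 0 1 3 0 2 3), (104, .lf 5 7 8 8 4 7), (24, .ex 1), (16, .rt 1 2 5 1 2 5), (1, .am 1 2 3 5 1 1), (96, .ce 4 6 7 4 7 9), (7, .am 1 2 7 5 1 1), (32, .ta 7 1 2), (50, .am 1 7 8 9 1 1), (32, .lf 4 6 7 7 4 5), (1, .pl 2 3 7 5), (8, .am 0 1 2 3 1 1), (16, .am 0 1 7 9 1 1), (104, .ce 5 7 8 4 8 0), (48, .am 0 7 8 9 1 1), (104, .lf 4 6 7 7 4 6), (112, .lf 8 0 1 1 8 0), (6, .pl 2 3 7 8), (104, .lf 6 8 9 9 6 8), (52, .ex 0), (40, .ce 4 6 7 4 7 0), (52, .am 0 6 7 9 1 1)]) (.br 0 5 1 7 2 1 (.leaf [(26, .am 0 5 1 9 1 1), (20, .ta 7 1 2), (7, .ce 5 7 8 4 8 0), (70, .lf 5 7 8 8 5 7), (24, .am 0 1 7 9 1 1), (20,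 .am 0 5 2 9 1 1), (20, .rt 1 2 5 1 2 5), (20, .rt 2 3 5 2 3 5), (80, .ce 4 6 7 4 7 9), (10, .am 0 2 3 8 1 1), (10, .am 0 2 7 9 1 1), (47, .lf 6 8 9 9 5 8), (157, .lf 4 6 7 7 4 5), (20, .am 1 2 8 5 1 1), (20, .rt 8 9 1 8 9 1), (20, .rt 0 1 3 0 1 3), (46, .ex 0), (64, .lf 8 0 1 1 8 0), (77, .ce 4 6 7 4 7 0), (45, .am 5 7 8 9 1 1), (66, .ex 2), (10, .pl 2 3 7 8), (22, .am 1 7 8 9 1 1), (7, .lf 5 7 8 8 4 7), (17, .lf 7 9 0 0 7 8)]) (.leaf [(1040, .ce 4 6 7 4 7 9), (276, .am 0 1 3 9 1 1), (558, .am 1 7 8 9 1 1), (720, .lf 7 9 0 0 7 8), (1360, .lf 4 6 7 7 4 5), (880, .rt 8 9 1 8 9 1), (242, .pl 2 3 7 8), (75, .pl 2 3 7 5), (184, .am 0 1 2 3 1 1), (720, .lf 8 0 1 1 8 0), (784, .rt 2 3 5 2 3 5), (80, .am 0 7 8 9 1 1), (880, .ce 5 7 8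 5 8 0), (242, .am 1 3 8 9 1 1), (160, .tb 7 1 2), (320, .ce 4 6 7 4 7 0), (576, .rt 1 2 5 1 2 5), (76, .am 0 1 7 9 1 1), (968, .ex 0), (784, .rt 0 1 3 0 1 3), (96, .rt 9 0 2 9 1 2), (75, .am 1 2 3 5 1 1), (208, .am 0 2 3 9 1 1), (880, .lf 5 7 8 8 5 7), (317, .am 1 2 7 5 1 1)]))) (.leaf [(14, .am 0 5 7 9 1 1), (8, .pl 1 3 7 6), (8, .ta 7 1 2), (11, .pl 4 5 6 7), (44, .ex 0), (14, .pl 0 1 5 4), (7, .ta 1 1 2), (59, .lf 4 6 7 7 4 5), (8, .rt 0 1 3 0 2 3), (14, .cf 0 1 3 0 3 9), (50, .rt 0 1 3 0 1 3), (19, .lf 4 6 7 7 4 6), (12, .am 5 7 8 9 1 1), (16, .lf 6 8 9 9 5 8), (25, .lf 1 4 5 5 1 4), (24, .lf 5 7 8 8 5 7), (8, .am 0 1 7 8 1 1), (19, .rt 2 3 5 1 3 5), (4, .am 0 7 8 9 1 1), (4, .tb 1 1 2), (16, .lf 8 0 1 1 8 0), (10, .ce 4 6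 7 4 7 9), (24, .ce 4 6 7 4 7 0), (44, .pl 0 7 3 4)]))) (.leaf [(2, .pl 1 2 7 6), (1, .pl 2 3 7 8), (1, .am 0 2 7 8 1 1), (2, .rt 2 3 5 2 3 6), (1, .am 0 1 2 8 1 1), (4, .rt 8 9 1 8 9 1), (4, .lf 7 9 0 0 7 8), (1, .am 1 7 8 9 1 1), (1, .am 0 2 3 8 1 1), (4, .lf 8 0 1 1 8 0), (2, .ce 4 6 7 4 7 9), (2, .rt 9 0 2 9 1 2), (2, .rt 8 9 1 8 9 2), (1, .am 1 2 8 9 1 1), (4, .c4 7), (2, .lf 4 6 7 7 4 6), (1, .am 0 1 7 8 1 1), (2, .rt 0 1 3 0 1 3)])) (.ch 7 (.br 0 5 1 7 3 1 (.leaf [(15, .cf 0 1 3 0 3 8), (3, .rt 8 9 1 8 0 1), (10, .ex 0), (5, .am 0 1 8 9 1 1), (6, .lf 7 9 0 0 5 6), (16, .lf 7 9 0 0 7 9), (3, .rt 7 8 0 7 8 0), (6, .lf 4 6 7 7 4 6), (16, .lf 5 7 8 8 5 7), (1, .am 0 7 8 9 1 1), (10, .am 1 7 8 9 1 1), (8, .am 5 7 8 9 1 1), (4,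 .am 0 5 7 9 1 1), (22, .lf 4 6 7 7 4 5), (6, .am 0 6 7 9 1 1), (15, .rt 0 1 3 0 1 3), (28, .ce 4 6 7 4 7 9), (12, .c3 6 1 1 0)]) (.leaf [(4, .am 0 1 8 9 1 1), (8, .am 0 2 7 8 1 1), (1, .am 0 1 7 8 1 1), (30, .rt 7 8 0 7 8 0), (24, .rt 0 1 3 0 1 3), (38, .cf 0 1 3 0 3 8), (1, .pl 1 3 7 8), (32, .rt 0 1 3 0 2 3), (8, .pl 0 2 1 5), (32, .rt 9 0 2 9 0 2), (8, .rt 2 3 5 2 3 5), (8, .pl 2 3 7 8), (18, .ex 0), (18, .lf 4 6 7 7 4 5), (8, .tb 6 1 2), (6, .lf 4 6 7 7 4 6), (2, .ce 6 8 9 6 9 0), (9, .am 0 1 3 8 1 1), (4, .am 6 7 8 9 1 1), (24, .ce 4 6 7 4 7 9), (16, .am 0 2 8 9 1 1), (10, .rt 2 3 5 1 3 5), (8, .am 0 7 8 9 1 1), (2, .pl 0 9 7 6)])) (.leaf [(38, .am 0 1 7 9 1 1), (168, .lf 9 1 2 2 9 1), (28, .am 0 1 8 9 1 1), (19, .am 1 2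 7 8 1 1), (38, .pl 2 3 7 8), (76, .ce 5 7 8 4 8 9), (10, .am 0 1 3 9 1 1), (76, .cf 3 4 6 2 6 1), (76, .rt 0 1 3 0 1 3), (56, .pl 0 8 3 6), (76, .lf 7 9 0 0 7 9), (5, .am 2 3 8 9 1 1), (56, .lf 9 1 2 2 8 1), (96, .am 1 2 8 9 1 1), (56, .cf 3 4 6 3 6 1), (56, .tb 6 1 2), (76, .lf 5 7 8 8 4 7), (76, .rt 2 3 5 2 3 6), (33, .am 1 2 3 8 1 1), (19, .am 2 7 8 9 1 1)]) (.br 0 3 1 6 1 1 (.leaf [(30, .lf 5 7 8 8 4 7), (6, .pl 1 3 7 6), (10, .rt 0 1 3 0 2 3), (4, .cf 0 1 3 0 3 9), (10, .ta 7 1 2), (15, .pl 0 9 7 4), (6, .ex 0), (8, .lf 4 6 7 7 4 6), (2, .pl 0 9 7 6), (12, .cf 0 1 3 0 3 8), (12, .c3 6 1 1 0), (10, .ce 6 8 9 6 9 0), (38, .ce 4 6 7 4 7 9), (6, .rt 2 3 5 1 3 6), (12, .rt 0 1 3 0 1 3), (15, .am 4 7 8 9 1 1), (9, .am 0 7 8 9 1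 1), (6, .am 0 1 7 8 1 1)]) (.leaf [(75, .am 4 7 8 9 1 1), (102, .lf 4 6 7 7 4 6), (50, .ta 7 1 2), (50, .rt 0 1 3 0 2 3), (30, .am 0 1 8 9 1 1), (202, .ce 4 6 7 4 7 9), (66, .c3 6 1 1 0), (150, .lf 5 7 8 8 4 7), (50, .ce 5 7 8 4 9 0), (12, .ta 6 1 2), (48, .am 1 7 8 9 1 1), (48, .pl 1 3 7 6), (6, .am 6 7 8 9 1 1), (48, .ex 0), (48, .am 0 6 7 9 1 1), (102, .cf 0 1 3 0 3 8), (25, .pl 0 9 7 4), (21, .am 0 7 8 9 1 1), (78, .rt 0 1 3 0 1 3), (26, .cf 0 1 3 0 3 9)])) (.leaf [(5, .tb 6 1 2), (2, .am 4 7 8 9 1 1), (1, .pl 0 8 7 4), (4, .rt 2 3 5 2 3 6), (2, .am 0 1 2 8 1 1), (5, .cf 0 1 3 0 3 8), (1, .am 0 1 7 9 1 1), (6, .am 0 2 8 9 1 1), (3, .am 0 1 2 9 1 1), (4, .am 0 2 3 8 1 1), (4, .pl 1 2 7 6), (2, .cf 0 1 3 0 3 7), (3, .lf 7 9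 0 0 7 9), (9, .rt 9 0 2 9 0 2), (9, .ce 4 6 7 4 7 9), (3, .am 1 7 8 9 1 1), (2, .pl 0 9 7 4), (4, .cf 9 0 2 8 3 7), (4, .lf 4 6 7 7 4 6), (15, .rt 0 1 3 0 1 3), (9, .c4 7), (5, .lf 5 7 8 8 4 6)])) (.ch 7 (.br 0 3 1 5 1 2 (.leaf [(1, .am 0 2 7 9 1 1), (1, .pl 2 3 7 6), (1, .rt 7 8 0 7 8 0), (1, .rt 2 3 5 2 3 5), (1, .rt 3 4 6 3 5 6), (1, .lf 1 3 4 5 1 2), (1, .rt 0 1 3 0 2 3), (1, .c4 6), (1, .rt 7 8 0 7 9 0), (1, .ex 0), (2, .rt 9 0 2 9 0 2)]) (.leaf [(4, .lf 5 7 8 8 5 7), (3, .ce 4 6 7 4 7 9), (1, .lf 5 7 8 8 4 7), (4, .c4 6), (1, .pl 0 8 7 4), (1, .am 0 5 7 9 1 1), (1, .am 0 6 7 9 1 1), (6, .lf 7 9 0 0 7 9), (1, .pl 0 5 6 7), (2, .rt 3 4 6 3 5 6), (3, .rt 7 8 0 7 8 0), (2, .lf 4 6 7 7 4 5), (1, .rt 8 9 1 8 9 1), (1, .lf 6 8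 9 9 6 8), (3, .rt 8 9 1 8 0 1), (1, .lf 6 8 9 9 6 7), (2, .ex 0), (2, .am 5 7 8 9 1 1), (2, .pl 1 3 7 6), (2, .am 0 1 7 8 1 1)])) (.leaf [(6, .rt 8 9 1 8 9 1), (2, .rt 2 3 5 2 3 5), (2, .rt 0 1 3 0 1 3), (2, .lf 5 7 8 8 4 7), (2, .ce 5 7 8 4 8 0), (1, .pl 2 3 7 8), (2, .am 0 1 8 9 1 1), (1, .am 0 2 3 8 1 1), (6, .lf 9 1 2 2 9 1), (4, .am 1 2 8 9 1 1), (2, .lf 7 9 0 0 7 9), (2, .lf 9 1 2 2 9 0), (1, .am 0 2 7 8 1 1), (2, .cf 2 3 5 2 5 1)]) (.br 0 3 1 6 3 1 (.leaf [(16, .rt 8 9 1 8 9 1), (15, .pl 0 9 7 4), (60, .lf 5 7 8 8 4 7), (15, .ce 5 7 8 4 9 0), (3, .ce 5 7 8 5 8 0), (45, .ce 4 6 7 4 7 9), (30, .am 4 7 8 9 1 1), (9, .ex 0), (2, .am 1 7 8 9 1 1), (9, .lf 7 9 0 0 7 8), (16, .pl 0 9 7 6), (9, .rt 0 1 3 0 2 3), (9, .pl 1 3 7 6),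 (18, .ta 7 1 2), (25, .c4 6), (1, .am 0 1 7 9 1 1), (9, .pl 0 1 2 3), (16, .lf 6 8 9 9 6 8), (9, .lf 1 3 4 6 1 2), (6, .am 0 1 7 8 1 1), (3, .lf 5 7 8 8 5 7), (9, .rt 2 3 5 2 3 6)]) (.leaf [(1, .am 0 1 8 9 1 1), (2, .am 1 7 8 9 1 1), (3, .c4 6), (2, .cf 0 1 3 0 3 9), (2, .ce 5 7 8 4 8 0), (2, .rt 0 1 3 0 2 3), (3, .rt 8 9 1 8 9 1), (3, .lf 6 8 9 9 6 8), (2, .pl 1 3 7 6), (2, .ta 7 1 2), (4, .ce 4 6 7 4 7 9), (4, .pl 0 8 7 4), (6, .lf 5 7 8 8 4 7), (2, .ex 0), (2, .am 0 6 8 9 1 1), (1, .am 6 7 8 9 1 1)])) (.leaf [(16, .lf 7 9 0 0 7 8), (62, .c4 6), (11, .am 0 1 2 9 1 1), (62, .rt 0 1 3 0 1 3), (19, .pl 2 3 7 8), (31, .am 0 2 3 9 1 1), (94, .rt 9 0 2 9 0 2), (14, .am 0 1 2 8 1 1), (17, .am 0 2 7 9 1 1), (14, .am 1 3 8 9 1 1), (62,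 .rt 2 3 5 2 3 6), (2, .am 0 2 7 8 1 1), (11, .am 1 7 8 9 1 1), (46, .lf 7 9 0 1 7 8), (7, .am 1 2 3 9 1 1), (62, .pl 1 2 7 6), (5, .am 0 1 7 9 1 1), (94, .c4 7), (124, .rt 8 9 1 8 9 1), (5, .am 2 3 8 9 1 1), (32, .lf 7 9 0 0 7 9)]))) (.ch 6 (.leaf [(1, .lf 7 9 0 0 7 9), (1, .pl 5 9 7 6), (1, .pl 0 8 7 4), (1, .rt 6 7 9 6 7 9), (1, .pl 4 9 7 5), (1, .pl 0 9 8 4)]) (.ch 7 (.leaf [(1, .lf 8 0 1 1 8 0), (1, .pl 0 3 7 8), (1, .rt 7 8 0 7 8 0), (1, .pl 0 1 3 8)]) (.leaf [(2, .am 0 1 7 9 1 1), (8, .rt 2 3 5 2 3 6), (4, .rt 0 1 3 0 1 3), (4, .lf 8 0 1 1 7 0), (2, .am 2 3 8 9 1 1), (4, .pl 2 3 7 8), (28, .lf 9 1 2 2 9 1), (2, .am 0 2 3 8 1 1), (1, .am 2 7 8 9 1 1), (24, .rt 8 9 1 8 9 1), (8, .ce 5 7 8 4 8 0), (4, .rt 9 0 2 9 0 3), (3,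 .am 1 2 7 8 1 1), (8, .lf 5 7 8 8 4 7), (4, .lf 7 9 0 0 7 9), (5, .am 0 1 8 9 1 1), (8, .cf 3 4 6 2 6 1), (16, .am 1 2 8 9 1 1), (1, .am 0 1 2 9 1 1)]) (.br 0 5 1 7 2 1 (.br 0 6 1 7 1 2 (.leaf [(4, .cf 0 1 3 0 3 9), (6, .ex 0), (12, .lf 5 7 8 8 5 7), (6, .am 0 6 7 9 1 1), (12, .lf 4 6 7 7 4 6), (4, .ta 7 1 2), (3, .am 0 1 7 9 1 1), (3, .am 0 5 7 9 1 1), (8, .ce 4 6 7 4 7 9), (12, .lf 4 6 7 7 4 5), (16, .ce 4 6 7 4 7 0), (6, .am 5 7 8 9 1 1), (12, .lf 8 0 1 1 8 0), (6, .am 1 7 8 9 1 1), (3, .ex 1), (12, .lf 6 8 9 9 6 8), (4, .rt 0 1 3 0 2 3)]) (.br 0 4 5 9 3 1 (.br 0 3 5 4 3 1 (.leaf [(32, .am 0 5 2 9 1 1), (384, .ce 4 6 7 4 7 9), (270, .am 1 7 8 9 1 1), (252, .lf 4 6 7 7 4 6), (31, .am 0 5 7 9 1 1), (120, .lf 7 9 0 0 7 8), (60,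 .pl 1 3 7 5), (484, .lf 4 6 7 7 4 5), (16, .am 0 2 7 9 1 1), (116, .pl 1 3 7 6), (150, .am 5 7 8 9 1 1), (24, .am 1 2 3 6 1 1), (60, .am 1 2 3 5 1 1), (243, .ex 3), (48, .am 0 2 6 5 1 1), (160, .am 0 6 7 9 1 1), (120, .ce 5 7 8 4 8 0), (84, .c4 1), (36, .am 0 1 6 5 1 1), (60, .ex 2), (84, .rt 8 9 1 8 9 1), (300, .lf 5 7 8 8 5 7), (100, .rt 0 1 3 0 2 3), (16, .pl 1 7 3 2), (8, .pl 1 3 7 9), (184, .rt 2 3 5 2 3 5), (336, .lf 6 8 9 9 6 8), (141, .am 0 1 7 9 1 1), (84, .ex 0), (100, .ta 7 1 2), (84, .pl 3 6 4 7), (436, .ce 4 6 7 4 7 0), (8, .am 0 6 3 9 1 1), (456, .lf 8 0 1 1 8 0), (12, .am 0 5 1 9 1 1), (120, .lf 5 7 8 8 4 7)]) (.br 1 6 9 7 2 1 (.pr 1 3 (.leaf [(927, .ex 0), (918, .lf 4 6 7 7 4 6), (73, .am 3 6 9 8 1 1), (45, .am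 1 2 3 6 1 1), (120, .am 0 1 2 3 1 1), (45, .am 0 7 8 9 1 1), (153, .pl 0 5 6 1), (306, .am 5 7 8 9 1 1), (72, .tb 7 1 2), (378, .rt 0 1 3 0 1 3), (90, .am 0 2 7 8 1 1), (144, .lf 6 8 9 9 6 8), (990, .ce 4 6 7 4 7 9), (153, .am 0 6 1 9 1 1), (378, .rt 2 3 5 2 3 6), (306, .ex 4), (51, .am 0 1 2 7 1 1), (180, .ta 7 1 2), (612, .lf 4 6 7 7 4 5), (153, .am 0 5 1 9 1 1), (59, .am 2 3 9 6 1 1), (408, .am 0 1 7 9 1 1), (144, .lf 8 0 1 1 8 0), (540, .ce 4 6 7 4 7 0), (378, .rt 8 9 1 8 9 1), (17, .am 6 7 8 9 1 1), (249, .am 0 1 3 9 1 1), (81, .am 1 3 8 9 1 1), (180, .am 1 2 8 6 1 1), (612, .lf 5 7 8 8 5 7), (396, .rt 1 2 5 1 2 6), (13, .am 2 6 9 7 1 1), (154, .pl 2 3 7 8)]) (.leaf [(52, .am 1 3 9 4 1 1), (621, .rt 2 3 5 2 3 6), (70, .am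 0 1 5 4 1 1), (24, .am 0 4 7 9 1 1), (54, .ta 7 1 2), (286, .ex 1), (196, .am 1 2 9 6 1 1), (114, .am 0 3 5 4 1 1), (654, .ex 0), (162, .ce 4 6 7 4 7 9), (113, .am 1 2 9 5 1 1), (46, .am 0 4 3 9 1 1), (244, .am 1 2 7 9 1 1), (432, .lf 4 6 7 7 4 5), (999, .lf 1 4 5 5 1 4), (26, .am 1 2 3 5 1 1), (162, .lf 6 8 9 9 6 7), (216, .rt 0 1 3 0 1 3), (32, .am 0 4 5 7 1 1), (54, .rt 0 1 3 0 2 3), (432, .rt 2 3 5 2 3 5), (244, .pl 2 3 7 9), (146, .ex 3), (54, .ce 4 6 7 4 7 0), (783, .c4 1), (88, .am 1 4 9 7 1 1), (179, .am 2 6 5 9 1 1), (204, .am 1 2 5 6 1 1), (146, .am 0 5 3 9 1 1), (400, .am 1 6 5 7 1 1)])) (.leaf [(12, .ex 0), (16, .ce 4 6 7 4 7 0), (6, .am 1 7 8 9 1 1), (6, .am 5 7 8 9 1 1), (8, .ce 4 6 7 4 7 9), (12, .lf 4 6 7 7 4 5),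 (3, .ex 4), (12, .lf 5 7 8 8 5 7), (4, .rt 0 1 3 0 2 3), (3, .am 0 5 7 9 1 1), (4, .ta 7 1 2), (4, .cf 0 1 3 0 3 9), (9, .am 0 1 7 9 1 1), (12, .lf 8 0 1 1 8 0), (12, .lf 4 6 7 7 4 6), (12, .lf 6 8 9 9 6 8)]))) (.leaf [(264, .ex 1), (160, .am 1 2 8 5 1 1), (101, .am 1 2 7 5 1 1), (98, .pl 2 3 7 8), (216, .ce 5 7 8 5 8 0), (264, .am 0 5 1 9 1 1), (2, .am 1 3 8 9 1 1), (396, .am 5 7 8 9 1 1), (200, .rt 0 1 3 0 2 3), (520, .lf 6 8 9 9 6 8), (264, .c4 1), (264, .rt 8 9 1 8 9 1), (768, .lf 8 0 1 1 8 0), (464, .rt 2 3 5 2 3 5), (4, .am 1 6 5 7 1 1), (436, .am 0 1 7 9 1 1), (264, .ex 0), (3, .am 1 2 3 5 1 1), (256, .lf 4 6 7 7 4 6), (488, .ce 4 6 7 4 7 0), (96, .am 0 2 3 8 1 1), (64, .am 0 5 2 9 1 1), (592, .ex 2), (848, .lf 5 7 8 8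 5 7), (264, .ce 5 7 8 4 9 0), (864, .ce 4 6 7 4 7 9), (200, .ta 7 1 2), (354, .am 1 7 8 9 1 1), (248, .lf 7 9 0 0 7 8), (3, .pl 2 3 7 5), (32, .am 0 2 8 9 1 1), (4, .am 0 1 3 9 1 1), (260, .am 1 6 5 9 1 1), (1096, .lf 4 6 7 7 4 5)]))) (.pr 1 3 (.leaf [(320, .ce 4 6 7 4 7 0), (184, .am 0 1 2 3 1 1), (576, .rt 1 2 5 1 2 5), (880, .lf 5 7 8 8 5 7), (880, .rt 8 9 1 8 9 1), (80, .am 0 7 8 9 1 1), (75, .pl 2 3 7 5), (720, .lf 7 9 0 0 7 8), (1360, .lf 4 6 7 7 4 5), (242, .pl 2 3 7 8), (968, .ex 0), (720, .lf 8 0 1 1 8 0), (96, .rt 9 0 2 9 1 2), (76, .am 0 1 7 9 1 1), (242, .am 1 3 8 9 1 1), (160, .tb 7 1 2), (317, .am 1 2 7 5 1 1), (880, .ce 5 7 8 5 8 0), (784, .rt 0 1 3 0 1 3), (75, .am 1 2 3 5 1 1), (784, .rt 2 3 5 2 3 5), (208, .am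 0 2 3 9 1 1), (558, .am 1 7 8 9 1 1), (276, .am 0 1 3 9 1 1), (1040, .ce 4 6 7 4 7 9)]) (.leaf [(2, .am 0 5 1 7 1 1), (1, .pl 1 2 5 6), (2, .lf 4 6 7 7 4 5), (2, .c4 1), (1, .am 2 3 5 6 1 1), (2, .pl 0 7 3 1), (6, .ex 0), (4, .lf 1 4 5 5 1 4), (4, .rt 2 3 5 2 3 5), (2, .rt 0 1 3 0 1 3), (2, .rt 3 4 6 3 5 6), (1, .am 1 2 3 5 1 1), (2, .pl 0 7 5 4)]))) (.leaf [(4, .rt 8 9 1 8 9 1), (1, .am 0 2 7 8 1 1), (4, .c4 7), (1, .am 0 1 7 8 1 1), (2, .rt 2 3 5 2 3 5), (1, .am 1 2 8 9 1 1), (4, .lf 7 9 0 0 7 8), (2, .pl 1 2 7 5), (4, .lf 8 0 1 1 8 0), (1, .am 0 1 2 8 1 1), (2, .rt 9 0 2 9 1 2), (1, .am 1 7 8 9 1 1), (2, .lf 4 6 7 7 4 5), (2, .ce 4 6 7 4 7 9), (1, .pl 2 3 7 8), (2, .rt 0 1 3 0 1 3), (2, .rt 8 9 1 8 9 2), (1, .am 0 2 3 8 1 1)]))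 (.ch 7 (.br 0 5 1 7 3 1 (.leaf [(15, .rt 0 1 3 0 1 3), (12, .c3 6 1 1 0), (28, .ce 4 6 7 4 7 9), (3, .rt 8 9 1 8 0 1), (8, .am 5 7 8 9 1 1), (10, .ex 0), (22, .lf 4 6 7 7 4 5), (3, .rt 7 8 0 7 8 0), (16, .lf 5 7 8 8 5 7), (16, .lf 7 9 0 0 7 9), (10, .am 1 7 8 9 1 1), (4, .am 0 5 7 9 1 1), (15, .cf 0 1 3 0 3 8), (6, .lf 7 9 0 0 5 6), (6, .lf 4 6 7 7 4 6), (5, .am 0 1 8 9 1 1), (6, .am 0 6 7 9 1 1), (1, .am 0 7 8 9 1 1)]) (.leaf [(8, .tb 6 1 2), (8, .am 0 7 8 9 1 1), (8, .lf 1 3 4 5 1 2), (10, .rt 2 3 5 1 3 5), (4, .am 6 7 8 9 1 1), (8, .rt 2 3 5 2 3 5), (32, .rt 0 1 3 0 1 3), (8, .pl 2 3 7 8), (2, .ce 6 8 9 6 9 0), (2, .pl 0 9 7 6), (8, .am 0 2 7 8 1 1), (24, .ce 4 6 7 4 7 9), (6, .lf 4 6 7 7 4 6), (18, .lf 4 6 7 7 4 5), (38, .cf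 0 1 3 0 3 8), (9, .am 0 1 3 8 1 1), (1, .am 0 1 7 8 1 1), (32, .rt 9 0 2 9 0 2), (16, .am 0 2 8 9 1 1), (18, .ex 0), (24, .rt 0 1 3 0 2 3), (1, .pl 1 3 7 8), (30, .rt 7 8 0 7 8 0), (4, .am 0 1 8 9 1 1)])) (.leaf [(38, .ce 5 7 8 5 8 9), (38, .rt 2 3 5 2 3 6), (38, .cf 3 4 6 2 6 1), (12, .am 0 1 2 9 1 1), (28, .pl 0 8 3 6), (84, .lf 9 1 2 2 9 1), (28, .tb 6 1 2), (28, .cf 3 4 6 3 6 1), (19, .am 0 2 7 8 1 1), (19, .pl 2 3 7 8), (38, .rt 0 1 3 0 1 3), (5, .am 0 2 3 8 1 1), (48, .am 1 2 8 9 1 1), (28, .lf 9 1 2 2 8 1), (26, .am 0 1 8 9 1 1), (14, .am 1 2 3 8 1 1), (38, .lf 5 7 8 8 5 7), (38, .lf 7 9 0 0 7 9)]) (.br 0 5 1 7 3 1 (.leaf [(4, .am 4 7 8 9 1 1), (12, .c3 6 1 1 0), (4, .ce 5 7 8 5 8 0), (6, .am 5 7 8 9 1 1), (3, .am 0 1 7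 9 1 1), (4, .ce 5 7 8 4 9 0), (8, .am 0 7 8 9 1 1), (9, .ex 0), (8, .rt 0 1 3 0 2 3), (12, .rt 0 1 3 0 1 3), (16, .lf 5 7 8 8 5 7), (8, .ta 7 1 2), (28, .ce 4 6 7 4 7 9), (12, .lf 4 6 7 7 4 5), (6, .am 0 6 7 9 1 1), (6, .pl 0 5 6 7), (8, .lf 5 7 8 8 4 7), (8, .cf 0 1 3 0 3 9), (3, .am 0 5 7 9 1 1), (12, .lf 4 6 7 7 4 6), (12, .cf 0 1 3 0 3 8), (6, .am 1 7 8 9 1 1)]) (.leaf [(11, .am 0 7 8 9 1 1), (4, .am 0 1 3 9 1 1), (2, .pl 0 9 3 6), (20, .rt 0 1 3 0 1 3), (6, .lf 4 6 7 7 4 6), (62, .ce 4 6 7 4 7 9), (14, .rt 0 1 3 0 2 3), (4, .pl 1 3 7 8), (14, .ta 7 1 2), (2, .pl 1 3 7 6), (21, .am 4 7 8 9 1 1), (2, .am 1 3 8 9 1 1), (14, .lf 4 6 7 7 4 5), (20, .cf 0 1 3 0 3 8), (42, .lf 5 7 8 8 4 7), (6, .am 1 7 8 9 1 1), (14, .rt 2 3 5 1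 3 5), (2, .am 0 1 3 8 1 1), (20, .c3 6 1 1 0), (4, .pl 0 9 7 6), (14, .ce 6 8 9 6 9 0), (14, .ex 0), (21, .pl 0 9 7 4)])) (.leaf [(9, .rt 9 0 2 9 0 2), (4, .rt 2 3 5 2 3 6), (3, .cf 9 0 2 8 3 7), (3, .am 0 2 3 8 1 1), (2, .am 6 7 8 9 1 1), (1, .am 0 1 2 8 1 1), (4, .pl 1 2 7 6), (9, .ce 4 6 7 4 7 9), (5, .tb 6 1 2), (3, .cf 9 0 2 9 3 7), (3, .am 0 1 2 9 1 1), (1, .am 1 2 3 9 1 1), (3, .lf 7 9 0 0 7 9), (2, .pl 0 9 7 6), (9, .lf 4 6 7 7 4 6), (2, .am 0 1 3 9 1 1), (4, .am 1 7 8 9 1 1), (1, .pl 0 8 7 6), (5, .cf 0 1 3 0 3 8), (9, .c4 7), (5, .am 0 2 8 9 1 1), (15, .rt 0 1 3 0 1 3)])) (.ch 7 (.br 0 3 1 5 1 3 (.leaf [(1, .rt 7 8 0 7 9 0), (1, .lf 1 3 4 5 1 2), (1, .ex 0), (1, .rt 7 8 0 7 8 0), (1, .am 0 2 7 9 1 1), (1, .c4 6), (1,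 .rt 0 1 3 0 2 3), (2, .rt 9 0 2 9 0 2), (1, .rt 2 3 5 2 3 5), (1, .pl 2 3 7 6), (1, .rt 3 4 6 3 5 6)]) (.leaf [(1, .cf 0 1 3 0 3 8), (2, .am 5 7 8 9 1 1), (1, .pl 0 5 6 7), (4, .rt 7 8 0 7 8 0), (1, .lf 6 8 9 9 6 8), (1, .rt 9 0 2 9 0 3), (1, .pl 0 3 7 9), (2, .rt 3 4 6 3 5 6), (1, .am 0 5 7 9 1 1), (1, .lf 6 8 9 9 6 7), (1, .rt 8 9 1 8 9 1), (2, .ce 4 6 7 4 7 9), (4, .lf 5 7 8 8 5 7), (2, .lf 4 6 7 7 4 5), (5, .lf 7 9 0 0 7 9), (1, .am 0 6 7 9 1 1), (4, .c4 6), (3, .rt 8 9 1 8 0 1), (2, .pl 1 3 7 6), (2, .ex 0), (2, .am 0 1 7 8 1 1)])) (.leaf [(2, .pl 2 3 7 8), (4, .rt 8 9 1 8 0 1), (4, .lf 5 7 8 8 4 7), (14, .lf 9 1 2 2 9 1), (1, .am 2 7 8 9 1 1), (8, .am 1 2 8 9 1 1), (10, .rt 8 9 1 8 9 1), (4, .cf 2 3 5 2 5 1), (1, .am 1 2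 7 8 1 1), (4, .lf 7 9 0 0 7 9), (1, .am 2 3 8 9 1 1), (4, .rt 2 3 5 2 3 5), (1, .am 1 2 3 8 1 1), (4, .rt 0 1 3 0 1 3), (2, .am 0 1 3 9 1 1), (4, .ce 5 7 8 4 8 0), (2, .am 0 1 7 9 1 1)]) (.br 0 5 1 7 2 1 (.leaf [(8, .ce 4 6 7 4 7 9), (4, .cf 0 1 3 0 3 9), (4, .lf 5 7 8 8 5 7), (2, .am 1 7 8 9 1 1), (4, .rt 0 1 3 0 2 3), (4, .lf 4 6 7 7 4 5), (2, .pl 0 5 6 7), (4, .ce 5 7 8 4 9 0), (4, .rt 8 9 1 8 9 1), (4, .am 4 7 8 9 1 1), (4, .ta 7 1 2), (2, .am 5 7 8 9 1 1), (3, .ex 0), (2, .am 0 6 7 9 1 1), (4, .c4 6), (1, .am 0 5 7 9 1 1), (1, .am 0 1 7 9 1 1), (8, .lf 5 7 8 8 4 7), (4, .lf 6 8 9 9 6 8)]) (.leaf [(6, .pl 2 3 7 6), (14, .lf 5 7 8 8 4 7), (6, .lf 7 9 0 0 7 8), (4, .lf 6 8 9 9 6 8), (3, .tb 7 1 2), (1, .am 0 1 7 9 1 1), (10,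 .c4 6), (6, .rt 3 4 6 3 5 6), (2, .pl 0 7 3 5), (2, .am 1 7 8 9 1 1), (6, .rt 2 3 5 2 3 5), (4, .rt 8 9 1 8 9 1), (6, .am 4 7 8 9 1 1), (6, .rt 0 1 3 0 2 3), (3, .ta 7 1 2), (3, .am 0 2 7 9 1 1), (6, .lf 1 3 4 5 1 2), (4, .pl 5 9 7 6), (4, .pl 0 8 3 5), (2, .ce 5 7 8 4 8 0), (6, .ce 5 7 8 4 9 0), (3, .pl 0 1 2 7), (6, .ce 4 6 7 4 7 9), (4, .ce 5 7 8 5 9 0), (4, .lf 5 7 8 8 5 7), (6, .ex 0)])) (.leaf [(62, .pl 1 2 7 6), (5, .am 2 3 8 9 1 1), (19, .pl 2 3 7 8), (7, .am 1 2 3 9 1 1), (32, .lf 7 9 0 0 7 9), (94, .rt 9 0 2 9 0 2), (11, .am 1 7 8 9 1 1), (62, .rt 0 1 3 0 1 3), (14, .am 0 1 2 8 1 1), (62, .c4 6), (2, .am 0 2 7 8 1 1), (14, .am 1 3 8 9 1 1), (46, .lf 7 9 0 1 7 8), (17, .am 0 2 7 9 1 1), (31, .am 0 2 3 9 1 1), (94, .c4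 7), (124, .rt 8 9 1 8 9 1), (11, .am 0 1 2 9 1 1), (16, .lf 7 9 0 0 7 8), (5, .am 0 1 7 9 1 1), (62, .rt 2 3 5 2 3 6)])))

def C3543654654_9 : Tr :=
  .ch 1 (.leaf [(2, .rt 1 2 4 1 2 4), (1, .pl 3 6 5 7), (1, .pl 0 6 1 3), (1, .pl 0 5 1 7), (2, .lf 2 4 5 5 2 4), (1, .pl 1 2 7 6), (1, .pl 0 5 6 2), (2, .pl 0 1 5 4), (1, .pl 1 2 3 5)]) (.ch 6 (.leaf [(1, .pl 0 9 8 5), (1, .pl 0 8 7 5), (1, .pl 5 9 7 6), (1, .lf 7 9 0 0 7 9), (1, .rt 6 7 9 6 7 9)]) (.ch 7 (.leaf [(1, .pl 1 9 8 3), (1, .lf 8 0 1 1 8 0), (1, .pl 0 3 7 9), (1, .pl 0 1 3 9), (1, .pl 3 9 8 7), (1, .rt 7 8 0 7 8 0)]) (.leaf [(2, .am 0 2 8 9 1 1), (1, .lf 1 3 4 4 1 3), (10, .am 5 7 8 9 1 1), (43, .lf 1 3 4 4 1 2), (6, .pl 0 9 2 4), (23, .pl 1 2 7 8), (32, .lf 2 4 5 5 2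 4), (104, .lf 9 1 2 2 9 1), (16, .am 2 4 9 8 1 1), (32, .lf 5 7 8 8 5 7), (1, .pl 1 3 5 6), (5, .am 1 5 4 7 1 1), (6, .am 0 5 1 9 1 1), (2, .am 3 5 9 8 1 1), (32, .lf 5 7 8 8 4 7), (16, .am 1 2 4 5 1 1), (10, .pl 0 9 5 4), (20, .am 0 1 7 9 1 1), (44, .lf 7 9 0 0 7 9), (64, .rt 8 9 1 8 9 1), (34, .am 1 2 8 9 1 1), (31, .lf 3 5 6 6 2 5), (1, .am 1 3 4 5 1 1), (2, .pl 1 3 7 8), (4, .am 0 5 1 8 1 1), (5, .pl 2 4 8 7), (4, .pl 0 2 7 8), (4, .lf 9 1 2 3 9 1), (31, .pl 1 2 5 6), (20, .cf 9 0 2 8 2 7), (1, .lf 3 5 6 6 3 5)]) (.br 0 6 2 7 1 2 (.leaf [(6, .ce 5 7 8 5 8 0), (1, .am 0 2 7 9 1 1), (6, .lf 6 8 9 9 6 8), (2, .ta 7 1 2), (4, .am 0 7 8 9 1 1), (6, .lf 5 7 8 8 5 7), (6, .ce 4 6 7 4 7 9), (2, .cf 0 1 3 0 3 8), (3, .ex 0), (3, .am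 0 6 7 9 1 1), (4, .lf 8 0 1 2 8 0), (2, .am 2 7 8 9 1 1), (6, .lf 4 6 7 7 4 6), (2, .rt 0 1 3 0 2 3)]) (.leaf [(6, .am 0 7 8 9 1 1), (9, .lf 4 6 7 7 4 5), (11, .ce 4 6 7 4 7 9), (1, .cf 0 1 3 0 3 9), (4, .ta 7 1 2), (6, .am 5 7 8 9 1 1), (6, .ex 0), (3, .pl 0 3 2 6), (3, .lf 3 5 6 6 3 5), (12, .lf 5 7 8 8 5 7), (3, .am 4 5 7 9 1 1), (1, .pl 0 9 5 4), (12, .lf 6 8 9 9 6 8), (2, .am 0 2 6 5 1 1), (10, .rt 0 1 3 0 2 3), (2, .am 4 6 7 9 1 1), (1, .pl 0 2 5 4), (6, .lf 2 4 5 5 2 4), (1, .am 2 4 5 6 1 1), (12, .lf 4 6 7 7 4 6), (4, .am 0 6 7 9 1 1), (12, .cf 0 1 3 0 3 8), (4, .ce 5 7 8 4 9 0)])) (.leaf [(8, .am 0 2 6 5 1 1), (5, .am 1 2 8 4 1 1), (20, .am 0 6 7 9 1 1), (10, .am 4 7 8 9 1 1), (56, .lf 6 8 9 9 6 8), (36, .lf 2 4 5 5 2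 4), (24, .lf 3 5 6 6 2 5), (10, .am 0 7 8 9 1 1), (56, .lf 4 6 7 7 4 6), (10, .pl 1 2 5 6), (4, .am 0 1 2 8 1 1), (12, .am 4 5 7 9 1 1), (16, .am 0 1 7 8 1 1), (10, .am 1 2 4 5 1 1), (60, .lf 7 9 0 0 7 9), (4, .am 4 5 6 7 1 1), (20, .ce 5 7 8 4 9 0), (2, .am 0 5 6 7 1 1), (9, .pl 1 2 7 8), (60, .c4 7), (80, .lf 8 0 1 1 8 0), (24, .lf 6 8 9 9 5 8), (8, .am 4 6 7 9 1 1), (22, .pl 1 2 7 6), (15, .am 1 4 8 7 1 1), (10, .pl 0 9 5 4)])) (.ch 7 (.br 0 6 3 7 3 1 (.leaf [(8, .am 0 3 8 9 1 1), (15, .ce 4 6 7 4 7 9), (4, .am 0 3 7 8 1 1), (1, .am 0 7 8 9 1 1), (16, .rt 7 8 0 7 8 0), (15, .lf 4 6 7 7 4 6), (6, .rt 9 0 2 7 1 3), (3, .lf 7 9 0 0 7 9), (12, .c3 6 1 1 0), (16, .rt 9 0 2 9 0 3), (28, .cf 0 1 3 0 3 8), (10, .am 0 6 8 9 1 1), (5,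 .am 6 7 8 9 1 1), (10, .ex 0), (6, .am 0 1 7 8 1 1), (3, .lf 6 8 9 9 6 7), (6, .rt 0 1 3 0 1 3)]) (.leaf [(63, .ex 0), (42, .pl 0 3 7 9), (22, .am 0 5 6 8 1 1), (1, .am 4 6 8 9 1 1), (144, .cf 0 1 3 0 3 8), (108, .lf 5 7 8 8 5 7), (39, .pl 0 1 6 5), (144, .lf 4 6 7 7 4 6), (6, .cf 9 0 2 9 3 7), (102, .lf 7 9 0 0 7 9), (15, .am 4 5 7 9 1 1), (3, .pl 0 7 5 4), (150, .ce 4 6 7 4 7 9), (2, .am 4 5 6 8 1 1), (39, .lf 2 4 5 5 1 4), (83, .am 0 6 8 9 1 1), (48, .rt 9 0 2 9 1 3), (39, .rt 0 1 3 0 1 3), (48, .ta 6 1 2), (45, .lf 4 6 7 7 4 5), (63, .lf 3 5 6 6 3 5), (78, .am 6 7 8 9 1 1), (19, .pl 0 9 5 4), (30, .am 5 7 8 9 1 1), (3, .am 4 6 7 9 1 1)])) (.leaf [(11, .am 6 7 8 9 1 1), (18, .am 1 2 4 5 1 1), (10, .lf 5 7 8 8 4 7), (6, .am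 0 1 8 9 1 1), (25, .am 1 2 8 9 1 1), (7, .am 0 5 1 8 1 1), (36, .lf 5 7 8 8 5 7), (36, .lf 1 3 4 4 1 2), (10, .cf 9 0 2 8 3 7), (4, .am 1 4 9 7 1 1), (17, .tb 6 1 2), (9, .c3 6 1 1 0), (36, .lf 7 9 0 0 7 9), (26, .cf 9 0 2 9 3 8), (5, .am 0 5 6 8 1 1), (36, .lf 2 4 5 5 2 4), (50, .lf 9 1 2 2 9 1), (6, .am 1 5 4 8 1 1), (46, .lf 9 1 2 3 9 1), (36, .lf 3 5 6 6 3 5), (10, .am 1 3 8 9 1 1), (8, .am 1 4 9 8 1 1), (26, .lf 4 6 7 7 4 6), (8, .am 0 1 7 9 1 1), (12, .pl 0 9 5 4), (18, .pl 2 4 8 7), (5, .pl 1 3 7 6), (31, .pl 1 3 5 6), (10, .am 0 6 7 9 1 1), (7, .pl 1 2 7 8)]) (.br 1 6 4 7 3 1 (.leaf [(15, .pl 1 6 4 3), (15, .am 0 1 6 5 1 1), (45, .lf 4 6 7 7 4 5), (12, .am 0 1 8 9 1 1), (30, .am 5 7 8 9 1 1), (24, .ta 6 1 2), (30, .ex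 0), (15, .pl 0 1 5 4), (54, .rt 0 1 3 0 1 3), (72, .cf 0 1 3 0 3 8), (72, .lf 4 6 7 7 4 6), (60, .lf 5 7 8 8 5 7), (4, .ce 5 7 8 4 9 0), (32, .ta 7 1 2), (91, .ce 4 6 7 4 7 9), (32, .rt 0 1 3 0 2 3), (28, .ce 5 7 8 4 8 0), (12, .pl 0 1 7 8), (38, .am 0 7 8 9 1 1), (15, .am 0 5 7 9 1 1), (30, .am 0 6 7 9 1 1), (15, .lf 3 5 6 6 3 5), (36, .lf 5 7 8 8 4 7), (12, .am 6 7 8 9 1 1), (29, .cf 0 1 3 0 3 9), (4, .am 4 7 8 9 1 1), (15, .pl 0 3 5 4), (30, .lf 2 4 5 5 1 4)]) (.leaf [(2, .ex 0), (1, .ce 5 7 8 5 8 0), (3, .rt 0 1 3 0 1 3), (1, .am 0 1 8 9 1 1), (2, .pl 0 1 6 4), (5, .ce 4 6 7 4 7 9), (2, .am 0 6 8 9 1 1), (3, .lf 4 6 7 7 4 6), (2, .pl 0 8 7 4), (1, .am 6 7 8 9 1 1), (2, .am 1 7 8 9 1 1), (3, .c3 6 1 1 0), (1, .cf 0 1 3 0 3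 9), (1, .ta 7 1 2), (2, .lf 5 7 8 8 4 7), (1, .lf 5 7 8 8 5 7), (1, .rt 0 1 3 0 2 3), (3, .cf 0 1 3 0 3 8)])) (.leaf [(48, .lf 5 7 8 8 5 6), (36, .rt 9 0 2 9 0 3), (18, .cf 0 1 3 0 3 7), (9, .am 2 4 5 6 1 1), (3, .am 4 6 8 9 1 1), (21, .pl 1 2 5 6), (81, .rt 9 0 2 9 0 2), (108, .cf 0 1 3 0 3 8), (3, .am 0 1 2 9 1 1), (60, .lf 2 4 5 5 2 4), (3, .am 1 2 4 5 1 1), (6, .am 1 2 8 9 1 1), (34, .pl 0 9 5 4), (9, .am 0 6 8 9 1 1), (36, .pl 1 2 8 6), (72, .cf 9 0 2 8 2 7), (16, .am 0 5 6 7 1 1), (18, .am 0 3 8 9 1 1), (12, .am 4 5 7 9 1 1), (18, .cf 9 0 2 8 3 7), (108, .c3 6 1 1 0), (24, .am 5 7 8 9 1 1), (9, .lf 7 9 0 0 7 9), (6, .am 1 2 8 4 1 1), (60, .lf 4 6 7 7 4 6), (117, .c4 7), (23, .am 0 6 7 9 1 1), (2, .am 4 5 6 7 1 1), (48, .lf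 3 5 6 6 2 5), (36, .am 0 2 8 9 1 1), (18, .am 0 2 1 5 1 1), (19, .am 4 6 7 9 1 1), (24, .am 0 1 2 8 1 1), (108, .rt 0 1 3 0 1 3), (3, .am 0 7 8 9 1 1)])) (.ch 7 (.br 0 6 3 7 3 1 (.leaf [(1, .ex 0), (1, .am 0 6 7 9 1 1), (2, .rt 8 9 1 8 0 1), (3, .rt 7 8 0 7 8 0), (1, .am 0 1 7 8 1 1), (1, .rt 9 0 2 9 0 3), (1, .cf 0 1 3 0 3 8), (2, .lf 7 9 0 0 7 9), (1, .pl 0 3 7 9), (1, .pl 0 1 3 7), (2, .c4 6), (2, .lf 6 8 9 9 6 7)]) (.leaf [(11, .rt 7 8 0 7 8 0), (11, .cf 0 1 3 0 3 8), (10, .am 0 6 8 9 1 1), (2, .am 6 7 8 9 1 1), (7, .am 0 5 7 9 1 1), (26, .c4 6), (11, .lf 2 4 5 5 1 4), (11, .rt 9 0 2 9 0 3), (7, .pl 0 1 5 4), (36, .lf 5 7 8 8 5 7), (5, .am 0 6 7 8 1 1), (11, .pl 3 4 9 7), (26, .lf 6 8 9 9 6 8), (21, .lf 4 6 7 7 4 5), (4, .pl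 0 8 3 4), (10, .ce 4 6 7 4 7 9), (14, .am 5 7 8 9 1 1), (15, .lf 3 5 6 6 3 5), (8, .pl 0 1 6 4), (36, .lf 7 9 0 0 7 9), (15, .lf 1 3 4 4 1 3), (4, .am 0 6 7 9 1 1), (15, .ex 0), (4, .am 4 5 6 8 1 1), (11, .pl 0 1 6 5)])) (.leaf [(558, .lf 9 1 2 3 9 1), (72, .am 0 6 7 9 1 1), (432, .rt 8 9 1 8 9 1), (110, .am 5 7 8 9 1 1), (108, .lf 6 8 9 9 6 8), (108, .c4 6), (108, .am 0 1 7 9 1 1), (109, .am 1 2 8 9 1 1), (536, .lf 7 9 0 0 7 9), (304, .lf 5 7 8 8 5 7), (172, .am 3 4 9 8 1 1), (193, .am 1 2 4 5 1 1), (76, .pl 0 9 5 4), (96, .pl 0 2 7 8), (20, .pl 3 4 8 7), (36, .pl 1 3 7 6), (147, .pl 1 3 7 8), (36, .am 0 5 6 9 1 1), (107, .am 1 3 8 9 1 1), (344, .lf 2 4 5 5 2 4), (96, .pl 0 9 2 4), (344, .lf 1 3 4 4 1 2), (40, .am 0 5 7 9 1 1),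 (344, .lf 5 7 8 8 4 7), (304, .lf 3 5 6 6 3 5), (192, .lf 1 3 4 4 1 3), (302, .lf 9 1 2 2 9 1), (55, .pl 2 4 8 7), (268, .pl 1 3 5 6), (42, .am 2 5 9 8 1 1), (75, .am 1 5 4 7 1 1), (112, .cf 9 0 2 8 3 7)]) (.br 0 6 3 7 3 1 (.leaf [(28, .ce 4 6 7 4 7 9), (14, .ta 7 1 2), (8, .rt 0 1 3 0 2 3), (42, .lf 5 7 8 8 4 7), (6, .ex 0), (12, .lf 6 8 9 9 6 8), (6, .am 0 6 7 9 1 1), (6, .rt 9 0 2 7 2 3), (3, .am 0 7 8 9 1 1), (7, .pl 0 9 7 4), (21, .am 4 7 8 9 1 1), (14, .cf 0 1 3 0 3 9), (12, .rt 8 9 1 8 9 1), (6, .pl 0 1 2 7), (14, .ce 5 7 8 4 9 0), (6, .am 0 1 7 8 1 1), (12, .c4 6)]) (.leaf [(33, .ex 0), (30, .am 0 6 8 9 1 1), (15, .am 0 6 7 8 1 1), (31, .lf 1 3 4 4 1 2), (9, .pl 0 1 5 4), (8, .ce 4 6 7 4 7 9), (31, .cf 0 1 3 0 3 9), (17,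 .pl 0 7 2 4), (12, .am 4 5 6 8 1 1), (18, .am 5 7 8 9 1 1), (9, .am 0 5 7 9 1 1), (91, .lf 5 7 8 8 5 7), (27, .lf 4 6 7 7 4 5), (24, .pl 0 1 6 4), (21, .pl 0 1 6 5), (33, .lf 3 5 6 6 3 5), (2, .lf 1 3 4 4 1 3), (2, .pl 0 7 3 4), (31, .ta 7 1 2), (2, .lf 5 7 8 8 4 7), (54, .c4 6), (6, .am 6 7 8 9 1 1), (14, .pl 0 8 2 4), (31, .ce 5 7 8 5 8 0), (21, .lf 2 4 5 5 1 4), (54, .lf 6 8 9 9 6 8)])) (.leaf [(114, .pl 1 2 7 6), (64, .am 0 5 6 8 1 1), (24, .am 4 6 8 9 1 1), (128, .lf 5 7 8 8 4 7), (256, .c4 7), (80, .pl 0 8 5 4), (154, .am 0 6 7 9 1 1), (8, .am 1 2 9 4 1 1), (14, .am 0 1 2 9 1 1), (256, .rt 8 9 1 8 0 1), (32, .pl 0 9 5 4), (102, .am 0 1 7 8 1 1), (13, .am 0 2 6 5 1 1), (44, .am 6 7 8 9 1 1), (35, .am 0 2 1 5 1 1), (10, .am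 0 1 2 8 1 1), (128, .lf 2 4 5 5 2 4), (21, .pl 1 2 7 8), (128, .lf 5 7 8 8 5 7), (39, .pl 1 2 5 6), (12, .am 2 4 5 6 1 1), (128, .lf 3 5 6 6 2 5), (33, .am 1 7 8 9 1 1), (312, .c4 6), (312, .lf 6 8 9 9 6 8), (512, .lf 7 9 0 0 7 9), (11, .am 1 2 8 9 1 1), (4, .am 1 2 4 5 1 1), (56, .rt 8 9 1 8 9 1)]))) (.ch 6 (.leaf [(1, .pl 0 9 7 5), (1, .rt 6 7 9 6 7 9), (1, .lf 7 9 0 0 7 9), (1, .pl 5 9 7 6)]) (.ch 7 (.leaf [(1, .pl 0 1 2 8), (1, .pl 2 9 8 7), (1, .pl 0 2 3 9), (2, .lf 8 0 1 1 8 0), (2, .rt 7 8 0 7 8 0), (1, .pl 0 3 7 8), (1, .pl 0 1 7 9), (1, .pl 1 9 8 3)]) (.leaf [(40, .lf 2 4 5 6 2 4), (18, .pl 1 3 4 6), (16, .pl 0 3 7 8), (24, .rt 9 0 2 8 2 3), (16, .lf 8 0 1 1 7 0), (8, .lf 2 4 5 5 2 4), (8, .pl 1 2 4 5), (40, .pl 3 4 8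 7), (48, .lf 7 9 0 0 7 9), (32, .am 3 4 9 8 1 1), (72, .lf 9 1 2 2 9 1), (13, .ta 1 1 2), (8, .am 1 7 8 9 1 1), (9, .tb 1 1 2), (16, .pl 0 9 3 4), (16, .am 0 1 7 9 1 1), (64, .lf 5 7 8 8 4 7), (64, .rt 8 9 1 8 9 1), (40, .lf 4 6 7 7 4 6), (40, .pl 1 2 7 6), (40, .lf 9 1 2 3 9 1), (24, .rt 9 0 2 9 2 3), (16, .ce 5 7 8 4 9 0), (24, .am 1 2 8 9 1 1)]) (.br 0 5 2 7 2 1 (.pr 7 4 (.br 3 6 4 7 1 2 (.br 2 3 8 5 2 1 (.br 0 3 1 6 2 1 (.pr 1 4 (.leaf [(324, .rt 0 1 3 0 1 3), (326, .cf 0 1 3 0 3 9), (378, .ex 0), (324, .lf 2 4 5 6 2 4), (72, .am 0 7 8 9 1 1), (654, .lf 5 7 8 8 5 7), (432, .ex 2), (216, .pl 0 1 6 4), (728, .ce 4 6 7 4 7 0), (69, .am 0 1 7 9 1 1), (27, .am 0 2 7 8 1 1), (54, .ex 1), (138, .am 1 7 8 9 1 1), (15, .rt 3 4 6 3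 5 6), (162, .am 1 2 7 6 1 1), (117, .am 0 1 7 8 1 1), (39, .pl 0 5 6 3), (189, .ex 3), (849, .lf 4 6 7 7 4 6), (255, .am 0 6 7 9 1 1), (328, .ce 4 6 7 4 7 9), (54, .am 0 1 2 3 1 1), (218, .ta 7 1 2), (300, .am 5 7 8 9 1 1), (510, .lf 8 0 1 1 8 0), (639, .lf 4 6 7 7 4 5), (150, .am 0 5 7 9 1 1), (326, .rt 0 1 3 0 2 3), (510, .lf 6 8 9 9 6 8), (108, .ta 1 1 2), (216, .rt 1 2 6 1 2 6)]) (.leaf [(27, .lf 1 5 6 6 1 5), (52, .rt 0 1 3 0 2 3), (129, .lf 4 6 7 7 4 5), (18, .am 4 5 6 7 1 1), (39, .am 0 5 7 9 1 1), (45, .rt 0 1 3 0 1 3), (156, .lf 5 7 8 8 5 7), (36, .ex 0), (96, .lf 8 0 1 2 8 0), (52, .ta 7 1 2), (108, .lf 6 8 9 9 6 8), (78, .am 5 7 8 9 1 1), (54, .am 0 6 7 9 1 1), (30, .am 0 7 8 9 1 1), (36, .ex 2), (148, .ce 4 6 7 4 7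 0), (48, .am 0 2 7 8 1 1), (18, .lf 2 4 5 5 1 4), (48, .ex 3), (36, .pl 0 3 6 4), (71, .ce 4 6 7 4 7 9), (108, .lf 4 6 7 7 4 6), (9, .am 0 1 6 5 1 1), (85, .cf 0 1 3 0 3 9), (12, .cf 0 1 3 0 3 8)])) (.leaf [(3, .ex 3), (3, .am 0 5 7 9 1 1), (4, .rt 0 1 3 0 2 3), (8, .ce 4 6 7 4 7 9), (12, .lf 4 6 7 7 4 6), (2, .am 2 7 8 9 1 1), (12, .lf 4 6 7 7 4 5), (16, .ce 4 6 7 4 7 0), (1, .am 0 2 7 9 1 1), (4, .ta 7 1 2), (2, .am 0 1 7 9 1 1), (12, .lf 6 8 9 9 6 8), (6, .ex 0), (6, .am 5 7 8 9 1 1), (6, .am 0 6 7 9 1 1), (8, .lf 8 0 1 1 8 0), (6, .pl 1 3 7 6), (4, .am 1 7 8 9 1 1), (12, .lf 5 7 8 8 5 7), (4, .lf 8 0 1 2 8 0), (4, .cf 0 1 3 0 3 9)])) (.leaf [(2, .am 3 6 4 9 1 1), (2, .ex 0), (4, .lf 6 8 9 9 6 8), (5, .am 0 5 7 9 1 1), (4,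 .lf 6 8 9 9 5 8), (4, .ex 1), (12, .lf 5 7 8 8 5 7), (6, .ce 4 6 7 4 7 9), (8, .lf 8 0 1 2 8 0), (1, .am 0 2 7 9 1 1), (2, .ce 5 7 8 4 9 0), (2, .pl 2 9 8 3), (4, .lf 4 6 7 7 4 6), (2, .pl 3 6 5 4), (5, .ex 2), (2, .lf 2 4 5 5 2 4), (16, .lf 4 6 7 7 4 5), (10, .ce 4 6 7 4 7 0), (2, .am 0 7 8 9 1 1), (6, .rt 0 1 3 0 2 3), (4, .ta 7 1 2), (6, .cf 0 1 3 0 3 9), (4, .am 0 2 7 8 1 1), (6, .am 5 7 8 9 1 1)])) (.br 1 5 4 7 1 1 (.leaf [(7, .am 0 5 7 9 1 1), (6, .am 5 7 8 9 1 1), (3, .ex 0), (5, .ce 4 6 7 4 7 9), (3, .lf 2 4 5 5 1 4), (3, .pl 0 1 5 4), (4, .ex 2), (7, .cf 0 1 3 0 3 9), (12, .lf 5 7 8 8 5 7), (8, .lf 8 0 1 2 8 0), (4, .ta 7 1 2), (2, .am 0 7 8 9 1 1), (4, .am 0 2 7 8 1 1), (8, .lf 6 8 9 9 5 8), (3, .rt 0 1 3 0 1 3), (4,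 .rt 0 1 3 0 2 3), (20, .lf 4 6 7 7 4 5), (12, .ce 4 6 7 4 7 0)]) (.leaf [(12, .lf 6 8 9 9 5 8), (9, .ex 0), (6, .am 1 7 8 9 1 1), (9, .am 0 5 7 9 1 1), (9, .pl 0 1 5 4), (16, .ce 4 6 7 4 7 0), (4, .cf 0 1 3 0 3 9), (4, .rt 0 1 3 0 2 3), (4, .ta 7 1 2), (24, .lf 4 6 7 7 4 5), (12, .lf 5 7 8 8 5 7), (12, .lf 8 0 1 1 8 0), (6, .am 5 7 8 9 1 1), (8, .ce 4 6 7 4 7 9), (3, .am 0 1 7 9 1 1)]))) (.leaf [(20, .lf 4 6 7 7 4 6), (5, .am 0 1 2 7 1 1), (8, .am 0 6 7 9 1 1), (16, .pl 0 7 3 4), (15, .cf 0 1 3 0 3 9), (19, .lf 6 8 9 9 5 8), (33, .am 5 7 8 9 1 1), (35, .lf 8 0 1 1 8 0), (4, .pl 0 3 2 1), (16, .lf 6 8 9 9 6 8), (21, .lf 7 1 2 2 7 1), (12, .lf 2 4 5 6 2 4), (39, .ce 4 6 7 4 7 9), (8, .pl 0 1 6 4), (11, .am 0 7 8 9 1 1), (27, .rt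 0 1 3 0 2 3), (9, .rt 8 9 1 8 9 1), (4, .ta 1 1 2), (22, .am 0 1 7 8 1 1), (26, .ex 0), (26, .am 0 5 7 9 1 1), (85, .lf 4 6 7 7 4 5), (50, .ce 4 6 7 4 7 0), (15, .ta 7 1 2), (12, .pl 1 2 7 6), (66, .lf 5 7 8 8 5 7)])) (.leaf [(8, .ce 5 7 8 4 9 0), (18, .ex 0), (24, .cf 0 1 3 0 3 8), (12, .am 5 7 8 9 1 1), (26, .rt 0 1 3 0 2 3), (12, .am 0 7 8 9 1 1), (13, .am 4 5 7 9 1 1), (24, .lf 5 7 8 8 5 7), (8, .ta 7 1 2), (48, .lf 4 6 7 7 4 5), (22, .ce 4 6 7 4 7 9), (18, .lf 2 4 5 5 2 4), (2, .cf 0 1 3 0 3 9), (5, .am 0 5 7 9 1 1), (24, .lf 6 8 9 9 5 8), (5, .pl 0 9 5 4)])) (.leaf [(25, .lf 2 4 5 6 2 4), (10, .am 0 7 8 9 1 1), (3, .pl 1 2 3 6), (23, .am 0 1 7 8 1 1), (3, .rt 8 9 1 8 9 1), (1, .am 4 7 8 9 1 1), (47, .lf 8 0 1 1 8 0), (3,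 .lf 2 4 5 6 2 3), (3, .lf 7 9 0 0 7 8), (8, .pl 1 2 4 5), (3, .ta 1 1 2), (12, .rt 0 1 3 0 1 3), (8, .lf 2 4 5 5 2 4), (12, .pl 0 9 3 4), (44, .lf 6 8 9 9 6 8), (11, .ce 5 7 8 4 9 0), (22, .am 4 6 7 9 1 1), (25, .pl 1 2 7 6), (2, .am 1 4 8 7 1 1), (36, .c4 7), (33, .lf 7 9 0 0 7 9), (47, .lf 4 6 7 7 4 6)])) (.ch 7 (.br 0 6 2 7 3 1 (.leaf [(4, .am 0 2 7 8 1 1), (6, .am 0 1 7 8 1 1), (28, .cf 0 1 3 0 3 8), (1, .am 0 7 8 9 1 1), (15, .lf 4 6 7 7 4 6), (8, .am 0 2 8 9 1 1), (5, .am 6 7 8 9 1 1), (12, .c3 6 1 1 0), (16, .rt 0 1 3 0 2 3), (15, .ce 4 6 7 4 7 9), (16, .rt 7 8 0 7 8 0), (12, .rt 0 1 3 0 1 3), (6, .pl 0 1 2 7), (10, .ex 0), (10, .am 0 6 8 9 1 1), (3, .lf 7 9 0 0 7 9), (16, .rt 9 0 2 9 0 2), (3, .lf 6 8 9 9 6 7)]) (.leaf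 [(8, .lf 2 4 5 5 2 4), (2, .pl 0 3 7 8), (24, .lf 4 6 7 7 4 6), (8, .pl 0 9 5 4), (10, .lf 2 4 5 6 2 4), (1, .am 0 6 7 9 1 1), (16, .am 5 7 8 9 1 1), (32, .lf 4 6 7 7 4 5), (18, .rt 0 1 3 0 2 3), (4, .rt 0 1 3 0 1 3), (8, .pl 2 6 5 7), (38, .ce 4 6 7 4 7 9), (4, .am 6 7 8 9 1 1), (8, .am 0 7 8 9 1 1), (24, .cf 0 1 3 0 3 8), (2, .rt 9 0 2 8 1 3), (8, .am 0 5 7 9 1 1), (32, .lf 5 7 8 8 5 7), (9, .am 4 6 7 9 1 1), (4, .am 0 1 8 9 1 1), (30, .lf 7 9 0 0 7 9), (8, .ta 6 1 2), (18, .ex 0), (2, .cf 8 9 1 8 1 7), (1, .pl 0 9 6 4)])) (.leaf [(4, .pl 3 4 9 7), (7, .rt 9 0 2 8 2 3), (26, .lf 4 6 7 7 4 6), (15, .am 3 4 9 8 1 1), (3, .pl 3 4 9 8), (3, .cf 9 0 2 9 2 7), (6, .am 6 7 8 9 1 1), (3, .pl 0 9 6 4), (17, .pl 1 2 7 6), (7, .am 1 2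 8 9 1 1), (30, .lf 7 9 0 0 7 9), (12, .pl 0 9 3 4), (45, .lf 2 4 5 6 2 4), (3, .am 0 6 7 9 1 1), (33, .lf 5 7 8 8 4 7), (28, .pl 1 2 4 6), (12, .am 0 1 7 9 1 1), (12, .tb 6 1 2), (12, .rt 0 1 3 0 1 3), (14, .ta 1 1 2), (22, .pl 3 4 8 7), (23, .rt 9 0 2 9 2 3), (14, .lf 9 1 2 3 9 1), (52, .lf 9 1 2 2 9 1), (12, .cf 9 0 2 9 2 8), (5, .am 1 7 8 9 1 1)]) (.br 0 6 1 7 1 2 (.leaf [(1, .am 6 7 8 9 1 1), (5, .ce 4 6 7 4 7 9), (2, .ex 0), (1, .cf 0 1 3 0 3 9), (1, .am 0 1 8 9 1 1), (3, .lf 5 7 8 8 4 7), (3, .lf 4 6 7 7 4 6), (1, .rt 0 1 3 0 2 3), (3, .rt 0 1 3 0 1 3), (2, .pl 0 8 7 4), (2, .am 0 6 8 9 1 1), (3, .c3 6 1 1 0), (2, .am 1 7 8 9 1 1), (3, .cf 0 1 3 0 3 8), (1, .ce 5 7 8 4 8 0), (1, .ta 7 1 2)]) (.leaf [(96, .lf 5 7 8 8 5 7),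 (24, .rt 3 4 6 1 5 6), (11, .am 0 6 7 9 1 1), (24, .am 0 7 8 9 1 1), (19, .am 4 6 7 9 1 1), (48, .am 5 7 8 9 1 1), (32, .ta 7 1 2), (54, .ex 0), (24, .ta 6 1 2), (12, .am 0 1 8 9 1 1), (24, .am 4 5 7 9 1 1), (96, .lf 4 6 7 7 4 6), (38, .cf 0 1 3 0 3 9), (32, .rt 0 1 3 0 2 3), (72, .cf 0 1 3 0 3 8), (30, .lf 2 4 5 6 1 4), (24, .lf 2 4 5 5 1 4), (78, .rt 0 1 3 0 1 3), (82, .ce 4 6 7 4 7 9), (32, .ce 5 7 8 4 9 0), (12, .pl 0 1 7 8), (11, .pl 0 9 6 4), (72, .lf 4 6 7 7 4 5), (12, .am 6 7 8 9 1 1)])) (.leaf [(12, .am 4 6 7 9 1 1), (3, .cf 9 0 2 8 3 7), (13, .cf 9 0 2 8 2 7), (39, .lf 4 6 7 7 4 6), (5, .cf 0 1 3 0 3 7), (12, .pl 0 9 3 4), (8, .am 1 2 8 9 1 1), (21, .lf 2 4 5 6 2 4), (3, .pl 1 2 3 8), (8, .am 0 2 8 9 1 1), (36, .c3 6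 1 1 0), (36, .c4 7), (6, .am 0 6 7 9 1 1), (6, .pl 0 1 6 4), (21, .pl 1 2 7 6), (4, .am 0 1 2 9 1 1), (53, .rt 0 1 3 0 1 3), (14, .am 1 7 8 9 1 1), (36, .cf 0 1 3 0 3 8), (15, .ce 4 6 7 4 7 9), (6, .am 0 7 8 9 1 1), (7, .am 0 1 7 9 1 1), (15, .lf 7 9 0 0 7 9), (28, .rt 9 0 2 9 0 2), (3, .ta 1 1 2), (8, .rt 8 9 1 8 0 1)])) (.ch 7 (.br 2 6 4 7 1 2 (.leaf [(1, .ex 0), (1, .pl 0 1 5 4), (1, .c4 6), (1, .lf 7 9 0 0 7 9), (1, .lf 4 6 7 7 4 5), (1, .am 0 5 7 8 1 1), (1, .lf 1 3 4 4 1 2), (1, .rt 3 4 6 2 5 6), (1, .lf 7 9 0 0 7 8), (1, .lf 2 4 5 5 2 4), (2, .lf 5 7 8 8 5 7)]) (.leaf [(2, .cf 0 1 3 0 3 8), (1, .am 0 2 7 8 1 1), (2, .am 0 2 8 9 1 1), (2, .lf 1 3 4 4 1 2), (1, .lf 6 8 9 9 6 8), (1, .rt 8 9 1 8 9 1), (5, .rt 7 8 0 7 8 0),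 (2, .ex 0), (2, .rt 0 1 3 0 2 3), (2, .am 0 6 7 9 1 1), (3, .lf 6 8 9 9 6 7), (4, .lf 7 9 0 0 7 9), (1, .pl 0 8 7 4), (1, .ce 4 6 7 4 7 9), (2, .pl 0 1 6 4), (1, .pl 0 1 2 7), (1, .rt 8 9 1 8 0 1), (4, .rt 9 0 2 9 0 2), (4, .c4 6), (1, .lf 5 7 8 8 4 7), (1, .am 0 1 7 8 1 1)])) (.leaf [(39, .pl 1 2 4 5), (20, .lf 2 4 5 6 2 4), (20, .ta 1 1 2), (20, .pl 1 2 7 6), (60, .rt 8 9 1 8 9 1), (1, .pl 0 1 5 4), (28, .pl 0 9 3 4), (36, .rt 9 0 2 9 2 3), (72, .lf 5 7 8 8 4 7), (16, .pl 0 8 7 4), (16, .lf 7 9 0 0 7 8), (28, .am 3 4 9 8 1 1), (4, .lf 4 6 7 7 4 6), (24, .rt 9 0 2 8 2 3), (15, .am 0 1 7 9 1 1), (60, .lf 7 9 0 0 7 9), (28, .pl 0 3 7 8), (4, .lf 4 6 7 7 4 5), (6, .am 1 7 8 9 1 1), (24, .am 1 2 8 9 1 1), (40, .lf 2 4 5 5 2 4), (4,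 .lf 5 7 8 8 5 7), (1, .am 0 5 7 9 1 1), (1, .pl 1 2 7 5), (2, .am 5 7 8 9 1 1), (16, .c4 6), (20, .lf 9 1 2 3 9 1), (24, .pl 3 4 8 7), (84, .lf 9 1 2 2 9 1)]) (.br 2 6 4 7 1 2 (.leaf [(4, .ta 7 1 2), (2, .ce 4 6 7 4 7 9), (12, .lf 5 7 8 8 5 7), (6, .am 5 7 8 9 1 1), (4, .cf 0 1 3 0 3 9), (3, .pl 2 6 5 7), (6, .lf 6 8 9 9 6 8), (6, .c4 6), (12, .lf 4 6 7 7 4 5), (3, .pl 0 1 5 4), (3, .am 0 5 7 9 1 1), (3, .pl 0 1 6 4), (4, .ce 4 6 7 4 7 0), (3, .lf 2 4 5 5 2 4), (3, .am 0 6 7 9 1 1), (6, .lf 1 3 4 4 1 2), (3, .lf 2 4 5 6 2 4), (6, .ex 0), (4, .rt 0 1 3 0 2 3)]) (.leaf [(2, .am 1 7 8 9 1 1), (7, .lf 6 8 9 9 6 8), (18, .lf 5 7 8 8 4 7), (3, .pl 0 1 2 7), (3, .pl 0 1 6 4), (9, .am 4 7 8 9 1 1), (1, .pl 0 9 7 6), (3, .ex 0), (3, .cf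 0 1 3 0 3 9), (6, .ce 5 7 8 4 9 0), (1, .am 0 1 7 9 1 1), (7, .c4 6), (3, .lf 1 3 4 4 1 2), (3, .pl 0 9 7 4), (12, .ce 4 6 7 4 7 9), (3, .am 0 6 7 9 1 1), (4, .rt 8 9 1 8 9 1), (6, .ta 7 1 2), (3, .rt 0 1 3 0 2 3)])) (.leaf [(1, .ta 1 1 2), (7, .c4 7), (2, .pl 0 1 6 4), (3, .pl 0 8 3 4), (5, .lf 5 7 8 8 4 7), (2, .pl 0 8 6 4), (5, .pl 1 2 7 6), (5, .rt 8 9 1 8 0 1), (2, .am 0 1 7 9 1 1), (1, .am 1 2 8 9 1 1), (3, .am 1 7 8 9 1 1), (5, .lf 2 4 5 6 2 4), (1, .lf 4 6 7 7 4 6), (3, .rt 0 1 3 0 1 3), (8, .c4 6), (4, .am 0 6 7 9 1 1), (2, .rt 9 0 2 9 0 2), (12, .lf 7 9 0 0 7 9), (1, .pl 1 2 3 4), (1, .pl 2 4 8 7), (8, .lf 6 8 9 9 6 8), (3, .rt 8 9 1 8 9 1)]))) (.ch 6 (.leaf [(1, .rt 6 7 9 5 7 9), (2, .lf 7 9 0 0 7 9), (1, .rt 6 7 9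 6 7 9), (1, .pl 0 9 7 4), (1, .pl 0 9 8 6), (1, .pl 0 8 7 5), (1, .pl 4 8 7 6), (1, .pl 4 9 8 5)]) (.ch 7 (.leaf [(1, .lf 8 0 1 3 8 0), (1, .rt 7 8 0 7 8 0), (1, .pl 0 3 7 8)]) (.leaf [(3, .am 0 1 7 9 1 1), (3, .ce 5 7 8 4 9 0), (1, .pl 0 9 5 4), (1, .pl 1 2 7 5), (20, .lf 9 1 2 2 9 1), (12, .rt 8 9 1 8 9 1), (4, .lf 4 6 7 7 4 5), (8, .lf 5 7 8 8 4 7), (4, .lf 5 7 8 8 5 7), (8, .lf 7 9 0 0 7 9), (5, .pl 1 2 7 8), (6, .am 1 2 8 9 1 1), (3, .lf 8 0 1 1 7 0), (4, .am 2 4 9 8 1 1), (8, .lf 1 3 4 4 1 2), (1, .am 0 5 7 9 1 1), (8, .pl 1 2 4 5), (1, .cf 9 0 2 8 2 7), (9, .lf 2 4 5 5 2 4), (2, .am 5 7 8 9 1 1), (4, .pl 2 4 8 7)]) (.br 0 5 2 7 2 1 (.br 2 3 7 8 1 3 (.leaf [(68, .lf 6 8 9 9 6 8), (48, .lf 4 6 7 7 4 6), (45, .rt 0 1 3 0 2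 3), (20, .pl 0 1 6 4), (42, .cf 0 1 3 0 3 9), (9, .pl 1 2 7 6), (20, .c4 1), (6, .am 1 2 8 5 1 1), (48, .ce 4 6 7 4 7 9), (15, .pl 0 3 7 8), (24, .am 0 5 7 9 1 1), (20, .ex 0), (80, .ce 4 6 7 4 7 0), (9, .am 2 4 5 6 1 1), (15, .lf 1 3 4 4 1 2), (90, .lf 5 7 8 8 5 7), (19, .am 0 1 7 8 1 1), (4, .am 0 5 6 7 1 1), (1, .am 4 5 6 7 1 1), (6, .pl 0 1 6 5), (18, .cf 0 1 3 0 3 8), (30, .lf 2 4 5 5 2 4), (3, .am 2 4 8 7 1 1), (50, .lf 8 0 1 1 8 0), (30, .ta 7 1 2), (5, .am 0 1 2 7 1 1), (5, .pl 3 4 8 7), (34, .am 0 6 7 9 1 1), (90, .lf 4 6 7 7 4 5), (3, .pl 0 8 2 4), (48, .am 5 7 8 9 1 1), (20, .am 0 7 8 9 1 1), (28, .ex 1), (5, .lf 1 3 4 4 1 3)]) (.br 2 3 7 4 1 1 (.leaf [(27, .am 1 2 7 4 1 1), (480, .lf 6 8 9 9 6 8), (144, .am 0 7 8 9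 1 1), (162, .pl 0 1 6 4), (30, .am 1 2 7 5 1 1), (224, .ta 7 1 2), (336, .am 5 7 8 9 1 1), (345, .lf 4 6 7 7 4 6), (27, .am 4 5 6 7 1 1), (440, .rt 0 1 3 0 2 3), (608, .ce 4 6 7 4 7 0), (344, .cf 0 1 3 0 3 9), (54, .am 2 4 5 6 1 1), (30, .pl 0 1 6 5), (672, .lf 5 7 8 8 5 7), (328, .ce 4 6 7 4 7 9), (216, .lf 2 4 5 5 2 4), (135, .lf 1 3 4 4 1 3), (96, .cf 0 1 3 0 3 8), (135, .c4 1), (192, .am 0 1 7 8 1 1), (384, .lf 8 0 1 1 8 0), (240, .am 0 6 7 9 1 1), (24, .am 0 2 6 5 1 1), (135, .ex 0), (192, .ex 2), (78, .pl 1 2 7 6), (672, .lf 4 6 7 7 4 5), (168, .am 0 5 7 9 1 1)]) (.br 0 6 2 8 1 3 (.leaf [(3, .am 0 5 7 9 1 1), (8, .ce 4 6 7 4 7 9), (6, .am 5 7 8 9 1 1), (12, .lf 5 7 8 8 5 7), (2, .am 2 7 8 9 1 1), (4, .ta 7 1 2), (1, .am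 0 2 7 9 1 1), (4, .cf 0 1 3 0 3 9), (12, .lf 8 0 1 2 8 0), (12, .lf 4 6 7 7 4 6), (3, .ex 3), (8, .am 0 6 7 9 1 1), (8, .ex 0), (4, .rt 0 1 3 0 2 3), (16, .ce 4 6 7 4 7 0), (4, .am 6 7 8 9 1 1), (12, .lf 6 8 9 9 6 8), (12, .lf 4 6 7 7 4 5)]) (.pr 2 3 (.leaf [(3, .ex 1), (60, .am 0 5 7 9 1 1), (30, .ex 3), (213, .lf 5 7 8 8 5 7), (21, .pl 1 2 7 6), (162, .lf 6 8 9 9 6 8), (3, .ce 5 7 8 5 8 0), (54, .pl 0 1 6 5), (72, .ex 0), (91, .ce 4 6 7 4 7 9), (128, .rt 0 1 3 0 2 3), (3, .am 0 3 7 8 1 1), (27, .am 2 4 8 7 1 1), (12, .am 2 4 5 6 1 1), (122, .cf 0 1 3 0 3 9), (165, .lf 4 6 7 7 4 6), (39, .pl 0 8 2 4), (120, .am 5 7 8 9 1 1), (6, .am 0 1 3 8 1 1), (102, .am 0 6 7 9 1 1), (12, .am 4 5 6 8 1 1), (3, .am 0 1 2 3 1 1), (81, .rt 2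 3 6 2 3 6), (132, .lf 2 4 5 5 2 4), (71, .ta 7 1 2), (210, .lf 4 6 7 7 4 5), (162, .lf 8 0 1 1 8 0), (78, .c4 1), (48, .pl 0 1 6 4), (21, .am 0 1 7 8 1 1), (230, .ce 4 6 7 4 7 0), (42, .am 6 7 8 9 1 1), (75, .lf 1 3 4 4 1 2), (3, .lf 1 3 4 4 1 3), (30, .pl 0 1 5 4), (54, .am 1 2 8 5 1 1)]) (.leaf [(22, .am 0 5 6 7 1 1), (52, .ex 3), (18, .ce 5 7 8 4 9 0), (20, .am 6 7 8 9 1 1), (156, .lf 5 7 8 8 5 7), (62, .am 0 6 7 9 1 1), (21, .am 0 5 7 9 1 1), (101, .cf 0 1 3 0 3 9), (18, .am 4 5 7 9 1 1), (9, .am 0 2 6 5 1 1), (78, .am 5 7 8 9 1 1), (125, .lf 4 6 7 7 4 5), (52, .am 0 2 7 8 1 1), (52, .ta 7 1 2), (55, .ce 4 6 7 4 7 9), (104, .lf 8 0 1 2 8 0), (18, .lf 2 4 5 5 2 4), (6, .am 0 7 8 9 1 1), (138, .ce 4 6 7 4 7 0), (31, .lf 2 5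 6 6 2 5), (104, .lf 6 8 9 9 6 8), (101, .rt 0 1 3 0 2 3), (40, .ex 0), (104, .lf 4 6 7 7 4 6)]))))) (.leaf [(48, .lf 4 6 7 7 4 5), (26, .rt 0 1 3 0 2 3), (22, .ce 4 6 7 4 7 9), (18, .lf 2 4 5 5 2 4), (13, .am 4 5 7 9 1 1), (24, .lf 6 8 9 9 5 8), (24, .cf 0 1 3 0 3 8), (12, .am 0 7 8 9 1 1), (5, .am 0 5 7 9 1 1), (5, .pl 0 9 5 4), (8, .ce 5 7 8 4 9 0), (8, .ta 7 1 2), (18, .ex 0), (12, .am 5 7 8 9 1 1), (2, .cf 0 1 3 0 3 9), (24, .lf 5 7 8 8 5 7)])) (.leaf [(3, .am 0 5 7 9 1 1), (4, .lf 2 4 5 6 2 4), (4, .pl 1 2 4 6), (4, .am 0 1 7 8 1 1), (8, .pl 1 2 7 5), (5, .am 4 5 7 9 1 1), (2, .am 4 7 8 9 1 1), (16, .lf 8 0 1 1 8 0), (16, .lf 4 6 7 7 4 5), (2, .am 0 7 8 9 1 1), (3, .pl 0 9 5 4), (8, .lf 2 4 5 5 2 4), (16, .lf 6 8 9 9 5 8),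 (12, .c4 7), (12, .lf 7 9 0 0 7 9), (4, .ce 5 7 8 4 9 0), (4, .am 1 4 8 7 1 1)])) (.ch 7 (.br 0 6 2 7 3 1 (.leaf [(6, .rt 0 1 3 0 1 3), (15, .ce 4 6 7 4 7 9), (22, .rt 0 1 3 0 2 3), (28, .cf 0 1 3 0 3 8), (16, .rt 7 8 0 7 8 0), (10, .ex 0), (15, .lf 4 6 7 7 4 6), (4, .am 0 2 7 8 1 1), (1, .am 0 7 8 9 1 1), (8, .am 0 2 8 9 1 1), (16, .rt 9 0 2 9 0 2), (12, .c3 6 1 1 0), (5, .am 6 7 8 9 1 1), (10, .am 0 6 8 9 1 1), (6, .am 0 1 7 8 1 1), (3, .lf 7 9 0 0 7 9), (3, .lf 6 8 9 9 6 7), (6, .rt 9 0 2 7 1 2)]) (.leaf [(32, .lf 5 7 8 8 5 7), (8, .am 0 7 8 9 1 1), (24, .lf 4 6 7 7 4 6), (8, .am 4 5 7 9 1 1), (1, .am 4 6 7 9 1 1), (18, .ex 0), (8, .ta 6 1 2), (9, .pl 0 9 6 4), (4, .am 0 1 8 9 1 1), (6, .rt 0 1 3 0 1 3), (9, .am 0 6 7 9 1 1),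 (4, .am 6 7 8 9 1 1), (30, .lf 7 9 0 0 7 9), (38, .ce 4 6 7 4 7 9), (2, .cf 8 9 1 8 1 7), (8, .lf 2 4 5 5 2 4), (18, .rt 0 1 3 0 2 3), (10, .lf 2 4 5 6 2 4), (8, .pl 2 6 5 7), (24, .cf 0 1 3 0 3 8), (16, .am 5 7 8 9 1 1), (32, .lf 4 6 7 7 4 5), (2, .pl 0 1 7 8)])) (.leaf [(6, .am 1 2 8 9 1 1), (1, .pl 0 9 1 4), (4, .am 1 4 9 8 1 1), (1, .pl 0 9 6 4), (1, .am 0 1 7 9 1 1), (4, .lf 4 6 7 7 4 6), (4, .cf 9 0 2 9 2 8), (6, .lf 7 9 0 0 7 9), (2, .pl 0 2 7 8), (8, .lf 5 7 8 8 4 7), (1, .pl 1 2 7 6), (18, .lf 9 1 2 2 9 1), (11, .lf 2 4 5 5 2 4), (6, .lf 1 3 4 4 1 2), (11, .pl 1 2 4 5), (1, .lf 2 4 5 6 2 4), (2, .cf 9 0 2 9 2 7), (4, .tb 6 1 2), (4, .pl 2 4 8 7), (2, .am 6 7 8 9 1 1), (2, .pl 0 9 2 4), (1, .am 0 6 7 9 1 1)]) (.br 1 6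 4 7 2 1 (.leaf [(12, .pl 0 1 5 4), (12, .ta 6 1 2), (12, .lf 2 4 5 5 1 4), (6, .pl 0 1 7 8), (12, .pl 1 6 5 7), (39, .rt 0 1 3 0 1 3), (27, .ex 0), (15, .am 0 6 7 9 1 1), (24, .am 5 7 8 9 1 1), (12, .am 0 5 7 9 1 1), (6, .am 0 1 8 9 1 1), (48, .lf 4 6 7 7 4 5), (6, .am 6 7 8 9 1 1), (12, .am 0 7 8 9 1 1), (16, .ta 7 1 2), (36, .lf 4 6 7 7 4 6), (48, .lf 5 7 8 8 5 7), (16, .ce 4 6 7 4 7 0), (19, .cf 0 1 3 0 3 9), (36, .cf 0 1 3 0 3 8), (15, .lf 2 4 5 6 1 4), (16, .rt 0 1 3 0 2 3), (41, .ce 4 6 7 4 7 9), (15, .pl 0 1 6 4)]) (.leaf [(11, .am 0 1 8 9 1 1), (16, .ta 7 1 2), (12, .am 0 6 7 9 1 1), (16, .ce 5 7 8 4 9 0), (48, .lf 5 7 8 8 4 7), (27, .c3 6 1 1 0), (16, .rt 0 1 3 0 2 3), (8, .pl 0 9 7 4), (36, .cf 0 1 3 0 3 8), (19, .ex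 0), (30, .rt 0 1 3 0 1 3), (19, .pl 0 1 6 4), (19, .am 1 7 8 9 1 1), (68, .ce 4 6 7 4 7 9), (7, .am 0 6 8 9 1 1), (10, .cf 0 1 3 0 3 9), (5, .am 6 7 8 9 1 1), (36, .lf 4 6 7 7 4 6), (3, .ta 6 1 2), (24, .am 4 7 8 9 1 1)])) (.leaf [(2, .pl 1 2 7 8), (4, .cf 0 1 3 0 3 7), (12, .cf 0 1 3 0 3 8), (6, .lf 2 4 5 6 2 4), (8, .rt 9 0 2 9 0 2), (4, .am 1 2 8 9 1 1), (12, .c3 6 1 1 0), (12, .lf 4 6 7 7 4 6), (6, .lf 7 9 0 0 7 9), (12, .c4 7), (6, .pl 1 2 7 6), (4, .rt 8 9 1 8 0 1), (4, .am 0 1 7 9 1 1), (4, .am 1 7 8 9 1 1), (4, .am 0 7 8 9 1 1), (3, .am 4 6 7 9 1 1), (3, .pl 0 9 6 4), (6, .ce 4 6 7 4 7 9), (16, .rt 0 1 3 0 1 3), (3, .am 0 6 7 9 1 1), (2, .cf 9 0 2 8 2 7)])) (.ch 7 (.br 2 6 4 7 1 3 (.leaf [(1, .rt 3 4 6 2 5 6), (1, .pl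 0 1 5 4), (1, .lf 7 9 0 0 7 8), (1, .lf 7 9 0 0 7 9), (1, .am 0 5 7 8 1 1), (1, .c4 6), (1, .lf 4 6 7 7 4 5), (2, .lf 5 7 8 8 5 7), (1, .lf 2 4 5 5 2 4), (1, .lf 1 3 4 4 1 2), (1, .ex 0)]) (.leaf [(1, .lf 6 8 9 9 6 8), (3, .lf 7 9 0 0 7 9), (1, .rt 9 0 2 9 0 3), (1, .rt 8 9 1 8 0 1), (1, .pl 0 1 2 7), (3, .lf 6 8 9 9 6 7), (4, .c4 6), (4, .rt 9 0 2 9 0 2), (1, .am 0 2 7 8 1 1), (3, .cf 0 1 3 0 3 8), (2, .ex 0), (1, .pl 0 3 7 9), (1, .rt 8 9 1 8 9 1), (2, .rt 0 1 3 0 2 3), (2, .am 0 6 7 9 1 1), (6, .rt 7 8 0 7 8 0), (2, .am 0 2 8 9 1 1), (2, .pl 0 1 6 4), (1, .am 0 1 7 8 1 1), (2, .lf 1 3 4 4 1 2)])) (.leaf [(3, .lf 1 3 4 4 1 2), (1, .pl 1 2 7 6), (1, .pl 2 4 8 7), (2, .am 5 7 8 9 1 1), (1, .am 0 1 7 9 1 1), (3, .pl 1 2 4 5), (4,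 .lf 5 7 8 8 5 7), (1, .cf 9 0 2 8 2 7), (1, .c4 6), (2, .am 1 2 8 9 1 1), (2, .pl 2 4 9 7), (1, .pl 0 8 5 4), (1, .am 0 5 7 9 1 1), (1, .rt 3 4 6 2 5 6), (1, .lf 7 9 0 0 7 8), (3, .lf 4 6 7 7 4 5), (4, .lf 2 4 5 5 2 4), (3, .lf 7 9 0 0 7 9), (4, .rt 8 9 1 8 9 1), (1, .lf 5 7 8 8 4 7), (6, .lf 9 1 2 2 9 1)]) (.br 2 6 4 7 1 3 (.leaf [(4, .cf 0 1 3 0 3 9), (4, .ce 4 6 7 4 7 0), (6, .lf 1 3 4 4 1 2), (3, .lf 2 4 5 6 2 4), (3, .lf 2 4 5 5 2 4), (4, .ta 7 1 2), (6, .am 5 7 8 9 1 1), (3, .pl 0 1 5 4), (4, .rt 0 1 3 0 2 3), (3, .rt 3 4 6 2 5 6), (3, .lf 4 6 7 7 4 6), (6, .ex 0), (2, .ce 4 6 7 4 7 9), (12, .lf 5 7 8 8 5 7), (3, .am 0 5 7 9 1 1), (3, .pl 0 1 6 4), (3, .am 0 6 7 9 1 1), (6, .c4 6), (6, .lf 6 8 9 9 6 8), (9, .lf 4 6 7 7 4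 5)]) (.leaf [(9, .am 4 7 8 9 1 1), (1, .am 0 1 7 9 1 1), (3, .pl 0 1 2 7), (6, .ta 7 1 2), (6, .ce 5 7 8 4 9 0), (1, .pl 0 9 7 6), (3, .lf 1 3 4 4 1 2), (7, .c4 6), (3, .ex 0), (12, .ce 4 6 7 4 7 9), (3, .rt 0 1 3 0 2 3), (3, .cf 0 1 3 0 3 9), (18, .lf 5 7 8 8 4 7), (3, .pl 0 9 7 4), (3, .pl 0 1 6 4), (3, .am 0 6 7 9 1 1), (7, .lf 6 8 9 9 6 8), (4, .rt 8 9 1 8 9 1), (2, .am 1 7 8 9 1 1)])) (.leaf [(1, .pl 1 2 7 6), (5, .am 0 6 7 9 1 1), (5, .pl 0 8 6 4), (3, .rt 8 9 1 8 9 1), (1, .pl 1 2 7 8), (5, .lf 5 7 8 8 4 7), (5, .lf 2 4 5 6 2 4), (2, .rt 9 0 2 9 0 2), (5, .rt 8 9 1 8 0 1), (1, .am 0 1 7 9 1 1), (8, .c4 6), (1, .am 1 2 8 9 1 1), (4, .pl 1 2 8 6), (1, .am 1 7 8 9 1 1), (12, .lf 7 9 0 0 7 9), (7, .c4 7), (8, .lf 6 8 9 9 6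 8), (2, .am 6 7 8 9 1 1)])))

def C3543654654_10 : Tr :=
  .pr 1 2 (.pr 2 2 (.pr 3 2 (.ch 6 (.leaf [(1, .pl 0 9 7 5), (1, .pl 5 9 7 6), (1, .rt 6 7 9 6 7 9), (1, .lf 7 9 0 0 7 9)]) (.ch 7 (.leaf [(1, .pl 0 2 7 8), (1, .lf 8 0 1 1 8 0), (1, .rt 7 8 0 7 8 0), (1, .pl 0 1 2 8)]) (.leaf [(28, .lf 9 1 2 2 9 1), (2, .am 0 2 7 8 1 1), (5, .am 0 1 8 9 1 1), (4, .lf 8 0 1 1 7 0), (3, .am 2 3 8 9 1 1), (24, .rt 8 9 1 8 9 1), (16, .am 1 2 8 9 1 1), (8, .rt 2 3 5 2 3 6), (8, .ce 5 7 8 5 8 0), (2, .am 0 1 3 9 1 1), (8, .cf 2 3 5 2 6 1), (8, .lf 5 7 8 8 5 7), (4, .pl 2 3 7 8), (1, .am 0 1 2 9 1 1), (4, .lf 7 9 0 0 7 9), (1, .am 1 2 3 8 1 1), (4, .rt 0 1 3 0 1 3), (2, .am 1 2 7 8 1 1), (4, .rt 9 0 2 9 0 3)]) (.br 0 3 1 5 2 1 (.br 0 6 1 7 1 2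 (.leaf [(4, .cf 0 1 3 0 3 9), (6, .rt 2 3 5 2 3 5), (6, .rt 1 2 4 1 2 4), (16, .ta 7 1 2), (6, .lf 4 6 7 7 4 5), (48, .lf 6 8 9 9 6 8), (48, .lf 8 0 1 1 8 0), (48, .lf 4 6 7 7 4 6), (24, .ex 0), (24, .am 1 7 8 9 1 1), (3, .am 1 2 7 5 1 1), (48, .lf 5 7 8 8 4 7), (44, .ce 4 6 7 4 7 9), (24, .am 0 6 7 9 1 1), (48, .ce 5 7 8 4 8 0), (24, .am 0 7 8 9 1 1), (9, .ex 1), (10, .rt 0 1 3 0 2 3), (3, .am 0 1 2 3 1 1), (16, .ce 4 6 7 4 7 0), (6, .pl 1 3 7 4), (12, .am 0 1 7 9 1 1), (3, .pl 2 3 7 5), (6, .pl 1 5 4 3)]) (.br 0 3 1 5 1 2 (.leaf [(12, .rt 9 0 2 9 1 2), (100, .am 1 7 8 9 1 1), (44, .am 0 1 7 9 1 1), (98, .rt 0 1 3 0 1 3), (72, .pl 1 5 4 7), (10, .am 0 7 8 9 1 1), (26, .am 0 2 7 9 1 1), (49, .am 1 2 7 5 1 1), (110, .lf 5 7 8 8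 5 7), (40, .ce 4 6 7 4 7 0), (23, .am 0 1 2 3 1 1), (90, .lf 8 0 1 1 8 0), (110, .rt 8 9 1 8 9 1), (20, .tb 7 1 2), (90, .lf 7 9 0 0 7 8), (72, .rt 1 2 4 1 2 4), (98, .rt 2 3 5 2 3 5), (110, .ce 5 7 8 5 8 0), (98, .lf 4 6 7 7 4 5), (130, .ce 4 6 7 4 7 9), (75, .pl 2 3 7 5), (121, .ex 0), (46, .pl 1 3 7 5)]) (.br 0 3 6 4 1 2 (.leaf [(4, .pl 0 5 6 9), (2, .am 1 2 8 6 1 1), (4, .am 0 2 7 8 1 1), (4, .rt 8 9 1 8 9 1), (12, .lf 7 9 0 0 7 8), (1, .am 6 7 8 9 1 1), (17, .am 5 7 8 9 1 1), (3, .lf 6 8 9 9 6 8), (6, .ex 2), (59, .lf 4 6 7 7 4 5), (23, .pl 1 3 7 5), (6, .am 0 1 2 8 1 1), (40, .lf 8 0 1 1 8 0), (4, .rt 2 3 5 2 3 6), (19, .am 0 5 7 9 1 1), (9, .am 0 1 7 9 1 1), (28, .ce 4 6 7 4 7 9), (36, .lf 5 7 8 8 5 7), (8, .ta 7 1 2),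 (7, .lf 4 6 7 7 4 6), (4, .am 1 6 4 9 1 1), (25, .lf 6 8 9 9 5 8), (23, .ex 1), (8, .rt 1 2 4 1 2 4), (4, .ce 5 7 8 4 9 0), (4, .pl 2 3 7 4), (42, .ce 4 6 7 4 7 0), (14, .am 1 7 8 9 1 1), (4, .ex 0), (2, .ce 5 7 8 5 8 0), (4, .rt 0 1 3 0 1 3)]) (.br 0 6 1 7 1 1 (.leaf [(12, .lf 4 6 7 7 4 6), (6, .am 0 6 7 9 1 1), (4, .cf 0 1 3 0 3 9), (6, .am 1 7 8 9 1 1), (4, .ta 7 1 2), (3, .am 0 1 7 9 1 1), (12, .lf 5 7 8 8 5 7), (12, .lf 6 8 9 9 6 8), (3, .pl 1 3 7 5), (6, .am 5 7 8 9 1 1), (16, .ce 4 6 7 4 7 0), (4, .rt 0 1 3 0 2 3), (6, .ex 0), (8, .ce 4 6 7 4 7 9), (3, .ex 2), (3, .am 0 5 7 9 1 1), (12, .lf 4 6 7 7 4 5), (12, .lf 8 0 1 1 8 0)]) (.leaf [(20, .rt 2 3 5 2 3 6), (20, .am 0 5 2 9 1 1), (64, .lf 8 0 1 1 8 0), (10, .am 1 2 8 6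 1 1), (10, .am 1 2 8 5 1 1), (17, .am 1 7 8 9 1 1), (20, .ta 7 1 2), (80, .ce 4 6 7 4 7 9), (20, .rt 8 9 1 8 9 1), (5, .am 6 7 8 9 1 1), (16, .lf 6 8 9 9 5 8), (18, .pl 0 5 6 1), (77, .ce 4 6 7 4 7 0), (14, .am 0 1 7 9 1 1), (15, .pl 2 3 7 5), (5, .am 1 3 8 9 1 1), (86, .lf 4 6 7 7 4 5), (31, .lf 6 8 9 9 6 8), (18, .am 0 6 1 9 1 1), (10, .am 0 2 7 8 1 1), (66, .ex 0), (71, .lf 4 6 7 7 4 6), (10, .am 0 1 3 9 1 1), (20, .rt 1 2 4 1 2 6), (20, .rt 0 1 3 0 1 3), (46, .ex 2), (10, .am 0 2 7 9 1 1), (31, .pl 1 3 7 5), (7, .ce 5 7 8 5 8 0), (77, .lf 5 7 8 8 5 7), (17, .lf 7 9 0 0 7 8), (5, .pl 2 3 7 8), (40, .am 5 7 8 9 1 1), (8, .am 0 5 1 9 1 1)]))))) (.leaf [(16, .ce 4 6 7 4 7 0), (4, .rt 0 1 3 0 2 3), (12, .lf 8 0 1 1 8 0), (4, .cf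 0 1 3 0 3 9), (6, .am 1 7 8 9 1 1), (8, .ce 4 6 7 4 7 9), (9, .pl 1 3 7 5), (3, .am 0 1 7 9 1 1), (9, .am 0 5 7 9 1 1), (4, .ta 7 1 2), (9, .ex 0), (12, .lf 6 8 9 9 5 8), (24, .lf 4 6 7 7 4 5), (12, .lf 5 7 8 8 5 7), (6, .am 5 7 8 9 1 1)])) (.leaf [(3, .am 1 7 8 9 1 1), (6, .rt 9 0 2 9 1 2), (1, .am 1 2 8 9 1 1), (2, .rt 8 9 1 8 9 2), (1, .am 0 1 2 8 1 1), (4, .pl 1 2 7 5), (10, .rt 8 9 1 8 9 1), (6, .lf 8 0 1 1 8 0), (2, .am 1 2 7 9 1 1), (2, .lf 8 0 1 1 7 0), (2, .am 0 2 3 8 1 1), (4, .lf 4 6 7 7 4 5), (2, .pl 2 3 7 8), (6, .lf 7 9 0 0 7 8), (4, .ce 4 6 7 4 7 9), (8, .c4 7), (4, .rt 0 1 3 0 1 3), (4, .rt 2 3 5 2 3 5), (3, .am 0 1 7 8 1 1)])) (.ch 7 (.br 0 4 1 7 3 1 (.leaf [(16, .lf 7 9 0 0 7 9), (3, .rt 8 9 1 8 0 1), (15, .rt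 0 1 3 0 1 3), (16, .lf 5 7 8 8 4 7), (15, .cf 0 1 3 0 3 8), (5, .am 0 1 8 9 1 1), (1, .am 0 7 8 9 1 1), (28, .ce 4 6 7 4 7 9), (10, .am 1 7 8 9 1 1), (6, .lf 4 6 7 7 4 6), (3, .rt 7 8 0 7 8 0), (10, .ex 0), (4, .am 0 4 7 9 1 1), (6, .lf 7 9 0 0 4 6), (6, .am 0 6 7 9 1 1), (8, .am 4 7 8 9 1 1), (12, .c3 6 1 1 0)]) (.leaf [(63, .ex 0), (3, .pl 0 8 3 6), (108, .rt 9 0 2 9 0 2), (6, .pl 1 2 7 6), (15, .am 0 2 3 8 1 1), (63, .rt 1 2 4 1 2 4), (102, .rt 7 8 0 7 8 0), (144, .rt 0 1 3 0 1 3), (6, .pl 2 6 5 8), (45, .rt 0 1 3 0 2 3), (39, .lf 5 7 8 8 4 6), (150, .cf 0 1 3 0 3 8), (3, .am 0 1 3 8 1 1), (19, .pl 2 3 7 8), (33, .pl 1 2 7 5), (22, .am 1 2 7 9 1 1), (9, .lf 4 6 7 7 4 6), (6, .ce 5 7 8 5 8 0), (2, .am 1 2 3 9 1 1), (83, .am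 1 7 8 9 1 1), (144, .ce 4 6 7 4 7 9), (39, .rt 2 3 5 2 3 5), (1, .am 1 3 8 9 1 1), (39, .pl 0 8 7 4), (48, .tb 6 1 2), (3, .pl 2 3 7 6), (78, .am 0 1 8 9 1 1), (33, .lf 4 6 7 7 4 5), (30, .am 0 2 8 9 1 1)])) (.leaf [(28, .am 0 1 8 9 1 1), (5, .am 2 3 8 9 1 1), (19, .am 2 7 8 9 1 1), (38, .am 0 1 7 9 1 1), (33, .am 1 2 3 8 1 1), (168, .lf 9 1 2 2 9 1), (96, .am 1 2 8 9 1 1), (76, .ce 5 7 8 5 8 9), (76, .rt 2 3 5 2 3 6), (76, .lf 7 9 0 0 7 9), (76, .cf 2 3 5 2 6 1), (76, .rt 0 1 3 0 1 3), (56, .pl 0 8 3 6), (56, .lf 9 1 2 2 8 1), (76, .lf 5 7 8 8 5 7), (56, .cf 3 4 6 3 6 1), (19, .am 1 2 7 8 1 1), (56, .tb 6 1 2), (38, .pl 2 3 7 8), (10, .am 0 1 3 9 1 1)]) (.br 0 4 1 8 3 1 (.leaf [(12, .c3 6 1 1 0), (12, .ex 0), (12, .rt 0 1 3 0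 1 3), (24, .lf 5 7 8 8 4 7), (3, .am 0 6 7 9 1 1), (12, .cf 0 1 3 0 3 8), (6, .ce 6 8 9 6 9 0), (8, .ta 7 1 2), (8, .rt 0 1 3 0 2 3), (28, .ce 4 6 7 4 7 9), (8, .cf 0 1 3 0 3 9), (6, .am 0 7 8 9 1 1), (9, .am 0 4 7 9 1 1), (3, .lf 7 9 0 0 4 6), (2, .ce 4 6 7 4 7 0), (3, .lf 4 6 7 7 4 6), (18, .am 4 7 8 9 1 1)]) (.leaf [(62, .am 0 1 2 7 1 1), (310, .ex 0), (360, .ce 6 8 9 6 9 0), (71, .am 0 1 7 9 1 1), (155, .pl 1 2 7 6), (310, .rt 1 2 4 1 2 4), (208, .am 1 7 8 9 1 1), (62, .am 1 3 8 9 1 1), (420, .cf 0 1 3 0 3 8), (695, .pl 0 9 7 4), (60, .am 6 7 8 9 1 1), (55, .am 0 7 8 9 1 1), (695, .am 4 7 8 9 1 1), (215, .lf 4 6 7 7 4 6), (120, .tb 6 1 2), (93, .am 0 1 2 3 1 1), (300, .c3 6 1 1 0), (155, .rt 2 3 5 2 3 6), (135, .cf 0 1 3 0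 3 9), (1080, .lf 5 7 8 8 4 7), (50, .rt 0 1 3 0 2 3), (1605, .ce 4 6 7 4 7 9), (62, .pl 2 3 7 8), (124, .am 0 1 3 9 1 1), (360, .ta 7 1 2), (660, .rt 0 1 3 0 1 3)])) (.leaf [(9, .rt 9 0 2 9 0 2), (1, .am 0 1 2 8 1 1), (3, .lf 4 6 7 7 4 6), (2, .am 0 1 3 9 1 1), (3, .am 0 1 2 9 1 1), (4, .am 1 7 8 9 1 1), (3, .lf 7 9 0 0 7 9), (2, .am 6 7 8 9 1 1), (3, .am 0 2 3 8 1 1), (9, .c4 7), (3, .cf 9 0 2 9 3 7), (15, .rt 0 1 3 0 1 3), (2, .lf 5 7 8 9 4 6), (9, .ce 4 6 7 4 7 9), (5, .cf 0 1 3 0 3 8), (4, .rt 2 3 5 2 3 5), (5, .am 0 2 8 9 1 1), (2, .pl 0 9 7 4), (4, .lf 4 6 7 7 4 5), (1, .pl 0 8 7 6), (1, .am 1 2 3 9 1 1), (3, .cf 9 0 2 8 3 7), (4, .pl 1 2 7 5), (5, .tb 6 1 2)])) (.ch 7 (.br 0 4 1 7 3 1 (.leaf [(3, .lf 7 9 0 0 7 9), (1, .lf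 5 7 8 8 4 7), (1, .am 0 1 7 8 1 1), (2, .lf 6 8 9 9 6 7), (1, .ex 0), (1, .ce 4 6 7 4 7 9), (1, .pl 0 8 7 6), (2, .c4 6), (1, .am 0 6 7 9 1 1), (2, .rt 7 8 0 7 8 0), (2, .rt 8 9 1 8 0 1), (1, .pl 0 4 6 8)]) (.leaf [(11, .pl 1 2 7 6), (7, .am 0 2 7 8 1 1), (4, .pl 3 4 9 7), (15, .rt 1 2 4 1 2 4), (11, .ce 4 6 7 4 7 9), (11, .rt 2 3 5 2 3 6), (4, .am 1 2 3 9 1 1), (7, .pl 2 3 7 6), (10, .cf 0 1 3 0 3 8), (26, .rt 8 9 1 8 9 1), (26, .c4 6), (11, .lf 5 7 8 8 5 7), (11, .pl 0 8 3 5), (11, .lf 7 9 0 0 7 9), (5, .am 0 1 7 9 1 1), (14, .am 0 2 8 9 1 1), (8, .pl 1 3 7 6), (15, .ex 0), (21, .rt 0 1 3 0 2 3), (4, .rt 3 4 6 3 4 6), (36, .rt 9 0 2 9 0 2), (2, .am 0 1 8 9 1 1), (11, .rt 3 4 6 3 5 6), (36, .rt 7 8 0 7 8 0), (4, .am 0 1 7 8 1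 1), (10, .am 1 7 8 9 1 1)])) (.leaf [(1, .am 1 2 3 8 1 1), (4, .rt 2 3 5 2 3 6), (1, .am 0 1 8 9 1 1), (4, .ce 5 7 8 5 8 9), (4, .cf 2 3 5 2 6 1), (2, .am 0 2 7 8 1 1), (1, .am 2 3 8 9 1 1), (4, .lf 5 7 8 8 5 7), (4, .lf 7 9 0 0 7 9), (14, .rt 8 9 1 8 9 1), (1, .am 0 1 2 9 1 1), (2, .pl 2 3 7 8), (2, .am 0 1 3 9 1 1), (8, .am 1 2 8 9 1 1), (14, .lf 9 1 2 2 9 1), (4, .rt 0 1 3 0 1 3)]) (.br 0 4 1 8 3 1 (.leaf [(4, .am 4 7 8 9 1 1), (1, .am 0 6 7 9 1 1), (2, .rt 8 9 1 8 9 1), (2, .lf 6 8 9 9 6 8), (2, .c4 6), (2, .ce 5 7 8 4 9 0), (2, .ta 7 1 2), (2, .cf 0 1 3 0 3 9), (2, .rt 0 1 3 0 2 3), (2, .ex 0), (4, .ce 4 6 7 4 7 9), (1, .am 0 4 7 9 1 1), (6, .lf 5 7 8 8 4 7), (1, .pl 0 4 6 7)]) (.leaf [(3, .am 0 2 7 8 1 1), (51, .lf 5 7 8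 8 4 7), (7, .pl 0 9 7 6), (15, .ta 7 1 2), (21, .rt 1 2 4 1 2 4), (3, .pl 2 3 7 6), (10, .am 0 1 7 9 1 1), (12, .rt 2 3 5 2 3 6), (7, .lf 6 8 9 9 6 8), (51, .ce 4 6 7 4 7 9), (33, .lf 5 7 8 8 5 7), (21, .pl 0 9 3 4), (40, .c4 6), (6, .am 0 2 8 9 1 1), (40, .rt 8 9 1 8 9 1), (21, .ex 0), (6, .tb 7 1 2), (18, .pl 1 3 7 6), (33, .ce 5 7 8 5 8 0), (21, .rt 3 4 6 3 4 6), (9, .am 0 1 2 3 1 1), (12, .rt 0 1 3 0 2 3), (12, .pl 1 2 7 6), (33, .lf 7 9 0 0 7 8), (20, .am 1 7 8 9 1 1), (21, .am 4 7 8 9 1 1), (30, .pl 0 8 7 4)])) (.leaf [(94, .c4 7), (62, .rt 0 1 3 0 1 3), (94, .rt 9 0 2 9 0 2), (11, .am 0 1 2 9 1 1), (19, .pl 2 3 7 8), (16, .lf 7 9 0 0 7 8), (62, .c4 6), (14, .am 1 3 8 9 1 1), (17, .am 0 2 7 9 1 1), (5, .am 2 3 8 9 1 1),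 (11, .am 1 7 8 9 1 1), (32, .lf 7 9 0 0 7 9), (124, .rt 8 9 1 8 9 1), (62, .pl 1 2 7 6), (46, .lf 7 9 0 1 7 8), (31, .am 0 2 3 9 1 1), (2, .am 0 2 7 8 1 1), (14, .am 0 1 2 8 1 1), (5, .am 0 1 7 9 1 1), (62, .rt 2 3 5 2 3 6), (7, .am 1 2 3 9 1 1)]))) (.leaf [(1, .pl 0 3 7 9), (7, .rt 9 0 2 9 0 2), (8, .pl 1 2 5 6), (14, .rt 2 3 5 2 3 5), (1, .cf 9 0 2 8 3 7), (18, .lf 3 5 6 6 3 5), (2, .rt 8 9 1 8 9 2), (9, .am 2 3 5 6 1 1), (1, .rt 1 2 4 1 2 4), (2, .lf 5 7 8 8 5 7), (2, .ce 5 7 8 5 8 0), (1, .pl 1 2 4 6), (1, .ce 4 6 7 4 7 0), (1, .pl 2 3 7 4), (1, .cf 9 0 2 9 3 7), (4, .ce 5 7 8 5 9 0), (4, .am 2 3 9 5 1 1), (1, .am 0 3 8 9 1 1), (1, .pl 3 4 5 6), (2, .cf 0 1 3 0 3 9), (8, .rt 1 2 4 1 2 5), (1, .am 2 7 8 9 1 1)])) (.leaf [(1,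 .rt 1 2 4 1 2 4), (1, .lf 2 4 5 5 2 4), (1, .pl 5 8 7 6), (1, .pl 0 1 5 4), (1, .pl 1 3 7 6), (1, .pl 0 6 1 7), (1, .pl 1 2 3 6), (1, .pl 2 6 5 3), (1, .pl 3 6 5 7), (1, .pl 0 5 6 8)])) (.pr 3 2 (.pr 2 2 C3543654654_8 C3543654654_9) (.pr 2 2 (.leaf [(2, .rt 2 3 5 2 3 5), (1, .pl 0 6 2 9), (1, .pl 1 9 3 2), (1, .rt 9 0 2 8 1 2), (1, .lf 1 3 4 5 1 2), (2, .pl 0 1 6 4), (1, .pl 0 2 1 4), (1, .pl 1 5 4 2), (1, .pl 0 6 1 3), (1, .pl 1 8 7 2), (2, .pl 1 4 5 6), (1, .pl 2 3 7 6), (1, .pl 1 7 9 6), (2, .lf 3 5 6 6 3 5)]) (.ch 6 (.leaf [(1, .lf 7 9 0 0 7 9), (1, .rt 6 7 9 6 7 9), (1, .pl 4 9 8 6), (1, .pl 0 8 7 4), (1, .pl 0 9 8 4), (1, .pl 5 8 7 6), (1, .pl 4 8 7 5)]) (.ch 7 (.leaf [(1, .pl 0 3 7 9), (1, .lf 8 0 1 2 8 0), (1, .pl 0 2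 3 8), (1, .pl 3 9 8 7), (1, .rt 7 8 0 7 8 0)]) (.leaf [(19, .lf 3 5 6 6 3 5), (6, .am 3 5 9 8 1 1), (3, .am 1 3 4 5 1 1), (64, .rt 8 9 1 8 9 1), (10, .pl 0 9 5 4), (20, .am 0 1 7 9 1 1), (32, .lf 5 7 8 8 5 7), (22, .pl 1 3 7 8), (32, .lf 2 4 5 5 2 4), (32, .am 1 2 8 9 1 1), (20, .cf 9 0 2 8 2 7), (9, .pl 2 4 8 7), (6, .pl 0 9 7 4), (13, .lf 3 5 6 6 2 5), (10, .am 5 7 8 9 1 1), (25, .lf 1 3 4 4 1 2), (16, .am 3 4 9 8 1 1), (8, .am 0 5 1 9 1 1), (3, .pl 1 2 7 8), (19, .pl 1 3 5 6), (16, .am 1 2 4 5 1 1), (32, .lf 5 7 8 8 4 7), (44, .lf 9 1 2 3 9 1), (19, .lf 1 3 4 4 1 3), (13, .pl 1 2 5 6), (64, .lf 9 1 2 2 9 1), (2, .am 0 5 1 7 1 1), (44, .lf 7 9 0 0 7 9), (3, .am 1 5 4 7 1 1)]) (.br 0 6 2 7 1 2 (.leaf [(6, .ce 5 7 8 5 8 0), (3,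 .am 0 6 7 9 1 1), (4, .am 0 7 8 9 1 1), (2, .ta 7 1 2), (4, .lf 8 0 1 2 8 0), (2, .cf 0 1 3 0 3 8), (2, .am 2 7 8 9 1 1), (6, .ce 4 6 7 4 7 9), (6, .lf 5 7 8 8 5 7), (6, .lf 6 8 9 9 6 8), (3, .ex 0), (6, .lf 4 6 7 7 4 6), (2, .rt 0 1 3 0 2 3), (1, .am 0 2 7 9 1 1)]) (.leaf [(1, .am 2 4 5 6 1 1), (12, .lf 4 6 7 7 4 6), (6, .lf 2 4 5 5 2 4), (1, .pl 0 9 5 4), (11, .ce 4 6 7 4 7 9), (12, .lf 5 7 8 8 5 7), (2, .pl 0 3 2 6), (4, .ce 5 7 8 4 9 0), (1, .pl 2 6 4 3), (2, .am 4 6 7 9 1 1), (6, .am 0 7 8 9 1 1), (10, .rt 0 1 3 0 2 3), (2, .am 0 2 6 5 1 1), (4, .am 0 6 7 9 1 1), (9, .lf 4 6 7 7 4 5), (1, .cf 0 1 3 0 3 9), (3, .lf 3 5 6 6 3 5), (12, .cf 0 1 3 0 3 8), (1, .pl 0 3 5 4), (3, .am 4 5 7 9 1 1), (6, .am 5 7 8 9 1 1), (6, .ex 0),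 (4, .ta 7 1 2), (12, .lf 6 8 9 9 6 8)])) (.leaf [(10, .pl 0 9 5 4), (56, .lf 6 8 9 9 6 8), (24, .lf 6 8 9 9 5 8), (18, .am 0 1 7 8 1 1), (9, .pl 1 2 7 8), (24, .lf 3 5 6 6 2 5), (22, .pl 1 2 7 6), (7, .am 1 2 8 4 1 1), (4, .am 0 2 6 5 1 1), (20, .ce 5 7 8 4 9 0), (10, .pl 1 2 5 6), (12, .am 4 5 7 9 1 1), (8, .am 4 6 7 9 1 1), (4, .am 2 4 5 6 1 1), (2, .am 0 1 2 8 1 1), (60, .c4 7), (36, .lf 2 4 5 5 2 4), (80, .lf 8 0 1 1 8 0), (10, .am 4 7 8 9 1 1), (10, .am 1 2 4 5 1 1), (60, .lf 7 9 0 0 7 9), (10, .am 0 7 8 9 1 1), (56, .lf 4 6 7 7 4 6), (20, .am 0 6 7 9 1 1), (6, .am 0 5 6 7 1 1), (13, .am 1 4 8 7 1 1)])) (.ch 7 (.br 0 6 3 7 3 1 (.leaf [(8, .am 0 3 8 9 1 1), (12, .c3 6 1 1 0), (3, .lf 6 8 9 9 6 7), (28, .cf 0 1 3 0 3 8), (3,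 .lf 7 9 0 0 7 9), (6, .rt 0 1 3 0 1 3), (16, .rt 9 0 2 9 0 3), (15, .lf 4 6 7 7 4 6), (6, .rt 9 0 2 7 1 3), (6, .am 0 1 7 8 1 1), (10, .ex 0), (4, .am 0 3 7 8 1 1), (15, .ce 4 6 7 4 7 9), (1, .am 0 7 8 9 1 1), (5, .am 6 7 8 9 1 1), (10, .am 0 6 8 9 1 1), (16, .rt 7 8 0 7 8 0)]) (.leaf [(6, .pl 0 1 2 9), (33, .rt 0 1 3 0 2 3), (30, .am 5 7 8 9 1 1), (1, .am 4 6 8 9 1 1), (83, .am 0 6 8 9 1 1), (39, .lf 2 4 5 5 2 4), (39, .pl 0 2 6 5), (15, .am 4 5 7 9 1 1), (39, .pl 0 1 7 9), (2, .am 4 5 6 8 1 1), (144, .lf 4 6 7 7 4 6), (63, .ex 0), (102, .lf 7 9 0 0 7 9), (78, .am 6 7 8 9 1 1), (19, .pl 0 9 5 4), (150, .ce 4 6 7 4 7 9), (48, .rt 0 1 3 0 1 3), (48, .ta 6 1 2), (3, .pl 1 4 9 7), (63, .lf 3 5 6 6 3 5), (22, .am 0 5 6 8 1 1), (108,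 .lf 5 7 8 8 5 7), (45, .lf 4 6 7 7 4 5), (3, .pl 0 1 5 4), (3, .am 4 6 7 9 1 1), (144, .cf 0 1 3 0 3 8), (6, .cf 9 0 2 9 2 7)])) (.leaf [(17, .tb 6 1 2), (60, .lf 9 1 2 3 9 1), (36, .lf 5 7 8 8 5 7), (7, .am 0 5 1 8 1 1), (36, .lf 1 3 4 4 1 2), (18, .am 1 2 4 5 1 1), (8, .am 1 4 9 8 1 1), (36, .lf 2 4 5 5 2 4), (11, .am 6 7 8 9 1 1), (8, .am 0 1 7 9 1 1), (10, .lf 5 7 8 8 4 7), (6, .am 0 1 8 9 1 1), (5, .pl 1 3 7 6), (18, .am 1 2 8 9 1 1), (12, .pl 0 9 5 4), (7, .pl 1 3 7 8), (26, .lf 4 6 7 7 4 6), (10, .am 0 6 7 9 1 1), (4, .am 1 4 9 7 1 1), (6, .am 1 5 4 8 1 1), (18, .pl 2 4 8 7), (10, .cf 9 0 2 8 3 7), (36, .lf 3 5 6 6 3 5), (26, .cf 9 0 2 9 3 8), (17, .am 1 3 8 9 1 1), (31, .pl 1 3 5 6), (5, .am 0 5 6 8 1 1), (9, .c3 6 1 1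 0), (36, .lf 7 9 0 0 7 9), (36, .lf 9 1 2 2 9 1)]) (.br 1 6 4 7 3 1 (.leaf [(15, .lf 3 5 6 6 3 5), (4, .am 4 7 8 9 1 1), (29, .cf 0 1 3 0 3 9), (60, .lf 5 7 8 8 5 7), (30, .am 5 7 8 9 1 1), (3, .pl 0 3 5 4), (30, .lf 2 4 5 5 1 4), (45, .lf 4 6 7 7 4 5), (36, .lf 5 7 8 8 4 7), (54, .rt 0 1 3 0 1 3), (30, .ex 0), (15, .am 0 1 6 5 1 1), (24, .ta 6 1 2), (4, .ce 5 7 8 4 9 0), (12, .pl 0 3 7 8), (30, .am 0 6 7 9 1 1), (32, .rt 0 1 3 0 2 3), (12, .am 0 1 8 9 1 1), (72, .cf 0 1 3 0 3 8), (12, .pl 1 6 8 3), (27, .pl 0 1 5 4), (28, .ce 5 7 8 4 8 0), (15, .am 0 5 7 9 1 1), (3, .pl 1 6 4 3), (12, .am 6 7 8 9 1 1), (72, .lf 4 6 7 7 4 6), (38, .am 0 7 8 9 1 1), (91, .ce 4 6 7 4 7 9), (32, .ta 7 1 2)]) (.leaf [(1, .lf 5 7 8 8 5 7), (1, .ta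 7 1 2), (1, .am 0 1 8 9 1 1), (2, .pl 0 1 6 4), (1, .am 6 7 8 9 1 1), (1, .cf 0 1 3 0 3 9), (2, .ex 0), (5, .ce 4 6 7 4 7 9), (1, .rt 0 1 3 0 2 3), (2, .pl 0 8 7 4), (3, .rt 0 1 3 0 1 3), (2, .lf 5 7 8 8 4 7), (2, .am 0 6 8 9 1 1), (3, .lf 4 6 7 7 4 6), (2, .am 1 7 8 9 1 1), (3, .cf 0 1 3 0 3 8), (1, .ce 5 7 8 5 8 0), (3, .c3 6 1 1 0)])) (.leaf [(18, .am 0 3 8 9 1 1), (72, .cf 9 0 2 8 2 7), (24, .am 0 1 2 8 1 1), (16, .am 0 5 6 7 1 1), (81, .rt 9 0 2 9 0 2), (9, .lf 7 9 0 0 7 9), (108, .c3 6 1 1 0), (9, .am 2 4 5 6 1 1), (36, .am 0 2 8 9 1 1), (36, .rt 9 0 2 9 0 3), (108, .rt 0 1 3 0 1 3), (19, .am 4 6 7 9 1 1), (9, .am 0 6 8 9 1 1), (48, .lf 3 5 6 6 2 5), (3, .am 0 1 2 9 1 1), (6, .am 1 2 8 9 1 1), (3, .am 1 2 4 5 1 1), (18,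 .am 0 2 1 5 1 1), (2, .am 4 5 6 7 1 1), (117, .c4 7), (12, .am 4 5 7 9 1 1), (3, .am 0 7 8 9 1 1), (18, .cf 9 0 2 8 3 7), (18, .cf 0 1 3 0 3 7), (60, .lf 4 6 7 7 4 6), (21, .pl 1 2 5 6), (36, .pl 1 2 8 6), (24, .am 5 7 8 9 1 1), (3, .am 4 6 8 9 1 1), (23, .am 0 6 7 9 1 1), (34, .pl 0 9 5 4), (60, .lf 2 4 5 5 2 4), (108, .cf 0 1 3 0 3 8), (6, .am 1 2 8 4 1 1), (48, .lf 5 7 8 8 5 6)])) (.ch 7 (.br 0 6 3 7 3 1 (.leaf [(2, .rt 7 8 0 7 8 0), (1, .am 0 6 7 9 1 1), (2, .c4 6), (1, .pl 0 8 7 4), (3, .lf 7 9 0 0 7 9), (1, .lf 5 7 8 8 4 7), (1, .ex 0), (2, .rt 8 9 1 8 0 1), (2, .lf 6 8 9 9 6 7), (1, .pl 0 1 3 7), (1, .am 0 1 7 8 1 1), (1, .ce 4 6 7 4 7 9)]) (.leaf [(10, .ce 4 6 7 4 7 9), (4, .pl 0 8 3 4), (5, .am 0 6 7 8 1 1), (15, .ex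 0), (7, .pl 0 1 5 4), (4, .am 0 6 7 9 1 1), (14, .am 5 7 8 9 1 1), (10, .am 0 6 8 9 1 1), (26, .lf 6 8 9 9 6 8), (11, .pl 0 1 6 5), (8, .pl 0 1 6 4), (21, .lf 4 6 7 7 4 5), (7, .am 0 5 7 9 1 1), (4, .lf 1 3 4 4 1 3), (36, .lf 7 9 0 0 7 9), (2, .am 6 7 8 9 1 1), (4, .am 4 5 6 8 1 1), (11, .rt 7 8 0 7 8 0), (15, .lf 3 5 6 6 3 5), (11, .rt 9 0 2 9 0 2), (11, .lf 1 3 4 4 1 2), (11, .cf 0 1 3 0 3 8), (11, .pl 2 4 9 7), (11, .lf 2 4 5 5 1 4), (26, .c4 6), (36, .lf 5 7 8 8 5 7)])) (.leaf [(54, .lf 3 5 6 6 2 5), (234, .lf 1 3 4 4 1 3), (402, .lf 3 5 6 6 3 5), (188, .pl 1 2 7 8), (162, .lf 6 8 9 9 6 8), (168, .cf 9 0 2 8 3 7), (162, .c4 6), (648, .rt 8 9 1 8 9 1), (824, .lf 9 1 2 2 9 1), (516, .lf 5 7 8 8 4 7), (570, .lf 1 3 4 4 1 2),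 (466, .lf 9 1 2 3 9 1), (144, .pl 0 2 7 8), (804, .lf 7 9 0 0 7 9), (65, .pl 3 5 8 7), (144, .pl 0 9 2 4), (258, .am 1 2 4 5 1 1), (108, .am 0 6 7 9 1 1), (170, .am 3 4 9 8 1 1), (165, .am 5 7 8 9 1 1), (516, .lf 2 4 5 5 2 4), (80, .pl 2 4 8 7), (114, .pl 0 9 5 4), (162, .am 0 1 7 9 1 1), (80, .am 1 5 4 7 1 1), (88, .am 2 4 9 8 1 1), (54, .am 0 5 6 9 1 1), (60, .am 0 5 7 9 1 1), (456, .lf 5 7 8 8 5 7), (324, .am 1 2 8 9 1 1), (63, .am 3 5 9 8 1 1), (64, .am 1 3 4 5 1 1), (402, .pl 1 3 5 6), (54, .pl 1 2 7 6)]) (.br 0 6 3 7 3 1 (.leaf [(42, .lf 5 7 8 8 4 7), (14, .cf 0 1 3 0 3 9), (21, .am 4 7 8 9 1 1), (12, .rt 8 9 1 8 9 1), (14, .ta 7 1 2), (6, .am 0 1 7 8 1 1), (6, .pl 0 1 3 7), (3, .am 0 7 8 9 1 1), (14, .rt 0 1 3 0 2 3), (14,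 .ce 5 7 8 4 9 0), (28, .ce 4 6 7 4 7 9), (7, .pl 0 9 7 4), (6, .am 0 6 7 9 1 1), (6, .ex 0), (12, .lf 6 8 9 9 6 8), (12, .c4 6)]) (.leaf [(33, .ex 0), (9, .am 0 5 7 9 1 1), (60, .lf 5 7 8 8 5 7), (54, .lf 6 8 9 9 6 8), (2, .lf 1 3 4 4 1 3), (2, .pl 0 7 3 4), (9, .pl 0 1 5 4), (27, .lf 4 6 7 7 4 5), (31, .ta 7 1 2), (8, .ce 4 6 7 4 7 9), (15, .am 0 6 7 8 1 1), (31, .ce 5 7 8 4 8 0), (21, .pl 0 1 6 5), (6, .am 6 7 8 9 1 1), (14, .pl 0 8 2 4), (18, .am 5 7 8 9 1 1), (31, .cf 0 1 3 0 3 9), (17, .pl 0 7 2 4), (33, .lf 3 5 6 6 3 5), (33, .lf 5 7 8 8 4 7), (31, .lf 1 3 4 4 1 2), (54, .c4 6), (21, .lf 2 4 5 5 1 4), (24, .pl 0 1 6 4), (30, .am 0 6 8 9 1 1), (12, .am 4 5 6 8 1 1)])) (.leaf [(512, .lf 7 9 0 0 7 9), (33, .am 1 7 8 9 1 1),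 (8, .am 1 2 8 4 1 1), (154, .am 0 6 7 9 1 1), (12, .am 2 4 5 6 1 1), (24, .am 4 6 8 9 1 1), (312, .lf 6 8 9 9 6 8), (128, .lf 2 4 5 5 2 4), (256, .rt 8 9 1 8 0 1), (35, .am 0 2 1 5 1 1), (24, .pl 0 9 5 4), (312, .c4 6), (88, .pl 0 8 5 4), (128, .lf 5 7 8 8 4 7), (11, .am 1 2 8 9 1 1), (128, .lf 3 5 6 6 2 5), (44, .am 6 7 8 9 1 1), (22, .am 0 1 2 9 1 1), (2, .am 0 1 2 8 1 1), (4, .am 1 2 4 5 1 1), (114, .pl 1 2 7 6), (64, .am 0 5 6 8 1 1), (56, .rt 8 9 1 8 9 1), (256, .c4 7), (39, .pl 1 2 5 6), (13, .am 0 2 6 5 1 1), (21, .pl 1 2 7 8), (128, .lf 5 7 8 8 5 7), (102, .am 0 1 7 8 1 1)])))))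

def C3543654654_11 : Tr :=
  .ch 1 (.ch 7 (.leaf [(1, .pl 0 3 7 8), (1, .rt 7 8 0 7 8 0), (1, .pl 0 2 3 8), (1, .pl 0 1 2 8), (1, .lf 8 0 1 1 8 0)]) (.leaf [(40, .lf 8 0 1 1 8 0), (2, .am 0 1 3 8 1 1), (52, .lf 6 8 9 9 6 8), (68, .lf 5 7 8 8 4 7), (12, .ce 6 8 9 6 9 0), (40, .am 0 2 8 9 1 1), (40, .cf 3 4 6 2 6 1), (40, .cf 3 4 6 3 6 1), (80, .lf 9 1 2 2 9 1), (3, .am 1 2 3 8 1 1), (40, .rt 9 0 2 9 0 2), (40, .rt 0 1 3 0 2 3), (68, .lf 7 9 0 0 7 9), (12, .am 0 3 8 9 1 1), (40, .rt 2 3 5 2 3 6), (34, .am 0 1 7 8 1 1), (12, .lf 8 0 1 1 8 9), (68, .ce 5 7 8 4 8 0), (17, .pl 2 3 7 8), (20, .am 1 2 3 9 1 1), (4, .am 0 1 3 9 1 1), (17, .am 1 2 7 8 1 1), (40, .pl 0 9 3 6)]) (.ch 8 (.br 0 3 1 5 2 1 (.br 0 6 1 7 1 2 (.leaf [(24, .am 0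 6 7 9 1 1), (6, .lf 4 6 7 7 4 5), (3, .pl 1 3 7 4), (3, .am 1 2 7 5 1 1), (48, .lf 4 6 7 7 4 6), (3, .am 0 1 2 3 1 1), (48, .lf 6 8 9 9 6 8), (4, .cf 0 1 3 0 3 9), (6, .rt 2 3 5 2 3 5), (24, .am 0 7 8 9 1 1), (3, .pl 2 3 7 4), (24, .am 1 7 8 9 1 1), (48, .ce 5 7 8 5 8 0), (10, .rt 0 1 3 0 2 3), (44, .ce 4 6 7 4 7 9), (48, .lf 8 0 1 1 8 0), (24, .ex 0), (12, .am 0 1 7 9 1 1), (6, .pl 1 5 4 3), (48, .lf 5 7 8 8 5 7), (3, .pl 1 3 7 5), (16, .ta 7 1 2), (9, .ex 1), (16, .ce 4 6 7 4 7 0), (6, .rt 1 2 4 1 2 4)]) (.br 0 3 1 5 1 2 (.leaf [(110, .lf 5 7 8 8 4 7), (10, .am 0 7 8 9 1 1), (121, .ex 0), (110, .ce 5 7 8 4 8 0), (26, .am 0 2 7 9 1 1), (130, .ce 4 6 7 4 7 9), (44, .am 0 1 7 9 1 1), (72, .pl 1 5 4 7), (75, .pl 2 3 7 5), (72, .rt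 1 2 4 1 2 4), (110, .rt 8 9 1 8 9 1), (98, .lf 4 6 7 7 4 5), (40, .ce 4 6 7 4 7 0), (46, .pl 1 3 7 5), (49, .am 1 2 7 5 1 1), (23, .am 0 1 2 3 1 1), (90, .lf 8 0 1 1 8 0), (100, .am 1 7 8 9 1 1), (12, .rt 9 0 2 9 1 2), (90, .lf 7 9 0 0 7 8), (20, .tb 7 1 2), (98, .rt 2 3 5 2 3 5), (98, .rt 0 1 3 0 1 3)]) (.br 0 4 5 8 2 1 (.br 0 3 1 4 1 2 (.leaf [(10, .pl 2 3 7 4), (140, .lf 5 7 8 8 5 7), (2, .am 0 6 7 9 1 1), (70, .am 1 7 8 9 1 1), (4, .am 6 7 8 9 1 1), (2, .pl 0 5 6 1), (30, .ce 5 7 8 5 8 0), (30, .ta 7 1 2), (50, .lf 7 9 0 0 7 8), (56, .am 5 7 8 9 1 1), (20, .rt 8 9 1 8 9 1), (160, .lf 8 0 1 1 8 0), (8, .am 1 2 8 6 1 1), (30, .ex 0), (30, .rt 1 2 4 1 2 4), (4, .rt 2 3 5 2 3 5), (10, .am 0 1 2 8 1 1), (20, .pl 1 3 7 4), (16,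 .lf 4 6 7 7 4 6), (16, .rt 2 3 5 2 3 6), (2, .am 1 2 8 5 1 1), (10, .am 0 1 2 3 1 1), (10, .am 0 2 7 8 1 1), (85, .ex 2), (160, .ce 4 6 7 4 7 0), (10, .ex 3), (224, .lf 4 6 7 7 4 5), (20, .rt 0 1 3 0 1 3), (110, .lf 6 8 9 9 5 8), (110, .ce 4 6 7 4 7 9), (35, .am 0 1 7 9 1 1), (85, .pl 1 3 7 5), (83, .am 0 5 7 9 1 1)]) (.br 0 6 1 7 1 1 (.leaf [(3, .am 0 1 7 9 1 1), (12, .lf 6 8 9 9 6 8), (12, .lf 5 7 8 8 4 7), (4, .cf 0 1 3 0 3 9), (16, .ce 4 6 7 4 7 0), (8, .ce 4 6 7 4 7 9), (6, .ex 0), (3, .ex 1), (3, .pl 1 3 7 4), (6, .am 1 7 8 9 1 1), (12, .lf 4 6 7 7 4 6), (6, .am 4 7 8 9 1 1), (4, .rt 0 1 3 0 2 3), (12, .lf 8 0 1 1 8 0), (6, .am 0 6 7 9 1 1), (3, .am 0 4 7 9 1 1), (4, .ta 7 1 2)]) (.leaf [(40, .am 0 2 7 8 1 1), (40, .am 1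 2 8 4 1 1), (3, .am 0 6 1 9 1 1), (20, .am 1 3 8 9 1 1), (101, .am 0 4 1 9 1 1), (68, .lf 7 9 0 0 7 8), (52, .rt 2 3 5 2 3 6), (184, .ex 1), (28, .rt 2 3 5 2 3 5), (174, .am 4 7 8 9 1 1), (52, .lf 4 6 7 7 4 6), (14, .pl 1 6 5 8), (28, .ce 5 7 8 5 8 0), (56, .am 0 1 7 9 1 1), (264, .ex 0), (68, .am 1 7 8 9 1 1), (124, .pl 1 3 7 4), (320, .ce 4 6 7 4 7 9), (3, .pl 0 4 6 1), (26, .am 1 2 8 6 1 1), (218, .pl 1 6 4 7), (80, .rt 1 2 4 1 2 4), (80, .ta 7 1 2), (80, .am 0 4 2 9 1 1), (188, .lf 6 8 9 9 4 8), (308, .ce 4 6 7 4 7 0), (308, .lf 5 7 8 8 4 7), (256, .lf 8 0 1 1 8 0), (40, .am 0 2 7 9 1 1), (60, .pl 2 3 7 4), (6, .am 6 7 8 9 1 1), (80, .rt 0 1 3 0 1 3), (20, .pl 2 3 7 8), (80, .rt 8 9 1 8 9 1), (14, .am 1 2 8 5 1 1), (40, .am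 0 1 3 9 1 1)]))) (.leaf [(4, .rt 0 1 3 0 1 3), (4, .rt 2 3 5 2 3 6), (7, .lf 4 6 7 7 4 6), (1, .pl 1 3 7 8), (28, .ce 4 6 7 4 7 9), (4, .am 0 2 7 8 1 1), (59, .lf 4 6 7 7 4 5), (4, .ex 0), (17, .am 5 7 8 9 1 1), (1, .am 1 3 8 9 1 1), (4, .rt 8 9 1 8 9 1), (8, .rt 1 2 4 1 2 4), (23, .ex 1), (6, .am 0 1 2 8 1 1), (19, .pl 1 3 7 5), (38, .ce 4 6 7 4 7 0), (4, .ce 5 7 8 4 8 0), (1, .am 6 7 8 9 1 1), (7, .am 0 1 7 9 1 1), (2, .am 0 1 3 9 1 1), (2, .ce 5 7 8 5 8 0), (8, .ta 7 1 2), (2, .am 1 2 8 6 1 1), (6, .ex 2), (4, .ce 5 7 8 4 9 0), (2, .pl 1 6 5 4), (2, .am 1 6 4 9 1 1), (3, .lf 6 8 9 9 6 8), (36, .lf 5 7 8 8 5 7), (40, .lf 8 0 1 1 8 0), (19, .am 0 5 7 9 1 1), (25, .lf 6 8 9 9 5 8), (4, .pl 2 3 7 5), (2, .am 1 5 4 9 1 1), (12,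 .lf 7 9 0 0 7 8), (13, .am 1 7 8 9 1 1)])))) (.leaf [(9, .pl 1 3 7 5), (6, .am 5 7 8 9 1 1), (12, .lf 6 8 9 9 5 8), (6, .am 1 7 8 9 1 1), (3, .am 0 1 7 9 1 1), (12, .lf 8 0 1 1 8 0), (8, .ce 4 6 7 4 7 9), (4, .ta 7 1 2), (9, .ex 0), (9, .am 0 5 7 9 1 1), (4, .cf 0 1 3 0 3 9), (4, .rt 0 1 3 0 2 3), (12, .lf 5 7 8 8 5 7), (16, .ce 4 6 7 4 7 0), (24, .lf 4 6 7 7 4 5)])) (.leaf [(11, .pl 2 3 7 8), (14, .tb 7 1 2), (12, .ce 4 6 7 4 7 9), (10, .lf 8 0 1 2 7 0), (24, .lf 6 8 9 9 4 8), (11, .am 2 3 8 9 1 1), (1, .am 2 7 8 9 1 1), (36, .ce 5 7 8 4 9 0), (24, .lf 5 7 8 8 4 7), (12, .am 4 7 8 9 1 1), (2, .lf 0 2 3 3 9 2), (20, .am 0 2 3 9 1 1), (40, .lf 0 2 3 3 0 2), (24, .lf 8 0 1 2 8 0)]) (.br 0 4 1 7 2 1 (.br 0 5 1 7 1 3 (.leaf [(4, .ta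 7 1 2), (6, .am 1 7 8 9 1 1), (4, .cf 0 1 3 0 3 9), (9, .ex 0), (12, .lf 8 0 1 1 8 0), (4, .rt 0 1 3 0 2 3), (9, .am 0 5 7 9 1 1), (12, .lf 6 8 9 9 5 8), (12, .lf 5 7 8 8 5 7), (6, .am 5 7 8 9 1 1), (16, .ce 4 6 7 4 7 0), (8, .ce 4 6 7 4 7 9), (24, .lf 4 6 7 7 4 5), (3, .am 0 1 7 9 1 1)]) (.leaf [(118, .rt 2 3 5 2 3 5), (85, .am 0 1 7 9 1 1), (118, .lf 1 3 4 5 1 2), (269, .am 0 4 7 9 1 1), (294, .ce 4 6 7 4 7 9), (52, .am 0 4 2 9 1 1), (102, .ta 7 1 2), (52, .rt 1 2 4 1 2 5), (214, .am 4 7 8 9 1 1), (44, .am 0 7 8 9 1 1), (52, .cf 0 1 3 0 3 9), (82, .lf 7 9 0 0 7 8), (170, .lf 4 6 7 7 4 5), (66, .pl 1 7 3 2), (428, .lf 5 7 8 8 4 7), (222, .ex 0), (66, .am 0 2 7 9 1 1), (170, .am 1 7 8 9 1 1), (52, .lf 1 3 4 4 1 2), (52, .pl 1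 5 4 7), (40, .tb 7 1 2), (52, .am 0 1 2 3 1 1), (732, .ce 4 6 7 4 7 0), (321, .ex 1), (428, .lf 6 8 9 9 4 8), (170, .ta 8 1 2)])) (.leaf [(20, .tb 7 1 2), (35, .lf 6 8 9 9 6 8), (7, .pl 2 3 7 8), (7, .am 3 4 9 8 1 1), (7, .am 1 2 7 9 1 1), (2, .rt 0 1 3 0 2 3), (60, .lf 5 7 8 8 4 7), (7, .lf 1 3 4 4 1 3), (18, .lf 1 3 4 4 1 2), (25, .am 0 1 7 8 1 1), (20, .ce 4 6 7 4 7 9), (20, .pl 1 2 7 5), (14, .am 4 7 8 9 1 1), (13, .am 1 2 3 9 1 1), (14, .am 0 7 8 9 1 1), (25, .ta 8 1 2), (40, .lf 7 9 0 0 7 8), (21, .ce 5 7 8 4 9 0), (79, .ce 4 6 7 4 7 0), (18, .pl 0 8 2 4), (65, .ex 0), (1, .am 0 1 3 9 1 1), (35, .ce 6 8 9 6 9 0), (9, .am 0 1 7 9 1 1), (20, .rt 2 3 5 2 3 5), (20, .lf 4 6 7 7 4 5), (40, .rt 1 2 4 1 2 4)])) (.br 0 3 1 4 1 2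 (.leaf [(21, .am 0 1 2 3 1 1), (41, .c4 8), (20, .tb 7 1 2), (13, .am 0 7 8 9 1 1), (20, .pl 2 3 7 4), (28, .am 1 7 8 9 1 1), (62, .ex 0), (41, .rt 0 1 3 0 1 3), (42, .pl 1 3 7 4), (62, .rt 1 2 4 1 2 4), (36, .ce 4 6 7 4 7 0), (41, .lf 5 7 8 8 4 7), (41, .ce 5 7 8 4 8 0), (20, .am 0 2 7 9 1 1), (26, .ce 4 6 7 4 7 9), (56, .lf 8 0 1 1 8 0), (15, .lf 7 9 0 0 7 8), (14, .am 0 1 7 9 1 1), (2, .ta 7 1 2)]) (.br 0 3 1 4 1 1 (.leaf [(8, .c4 8), (4, .ce 4 6 7 4 7 9), (4, .am 0 1 2 3 1 1), (1, .am 0 4 7 9 1 1), (12, .ce 4 6 7 4 7 0), (4, .lf 5 7 8 8 4 7), (4, .lf 7 9 0 0 7 8), (12, .lf 8 0 1 1 8 0), (4, .ce 5 7 8 5 8 0), (4, .lf 5 7 8 8 5 7), (6, .am 1 7 8 9 1 1), (4, .pl 2 3 7 4), (3, .am 0 1 7 9 1 1), (2, .am 4 7 8 9 1 1), (4, .am 0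 2 7 9 1 1), (9, .pl 1 3 7 4), (4, .tb 7 1 2), (8, .rt 0 1 3 0 1 3), (12, .ex 0), (1, .ex 1), (12, .rt 1 2 4 1 2 4)]) (.leaf [(6, .am 4 7 8 9 1 1), (3, .am 0 1 7 9 1 1), (4, .cf 0 1 3 0 3 9), (12, .lf 5 7 8 8 4 7), (12, .lf 6 8 9 9 4 8), (12, .lf 8 0 1 1 8 0), (8, .ce 4 6 7 4 7 9), (9, .ex 0), (6, .am 1 7 8 9 1 1), (9, .am 0 4 7 9 1 1), (16, .ce 4 6 7 4 7 0), (9, .pl 1 3 7 4), (4, .rt 0 1 3 0 2 3), (4, .ta 7 1 2)])))) (.leaf [(10, .am 0 1 7 8 1 1), (6, .am 0 1 2 8 1 1), (8, .rt 2 3 5 2 3 5), (2, .am 0 1 3 8 1 1), (5, .pl 2 3 7 8), (10, .am 0 2 8 9 1 1), (20, .rt 9 0 2 9 0 2), (8, .cf 2 3 5 2 5 1), (1, .am 1 2 3 8 1 1), (30, .lf 6 8 9 9 5 8), (20, .lf 7 9 0 0 7 9), (8, .rt 0 1 3 0 1 3), (30, .ce 5 7 8 5 9 0), (20, .c4 7), (2, .am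 0 2 3 8 1 1), (30, .lf 8 0 1 1 8 0), (5, .am 1 2 7 8 1 1)])) (.leaf [(2, .am 6 7 8 9 1 1), (3, .am 0 6 7 9 1 1), (9, .ce 5 7 8 4 8 0), (12, .lf 4 6 7 7 4 6), (12, .lf 6 8 9 9 6 8), (4, .am 1 7 8 9 1 1), (9, .ce 4 6 7 4 7 9), (7, .rt 2 3 5 1 3 5), (12, .lf 8 0 1 1 8 0), (4, .am 0 6 8 9 1 1), (7, .pl 1 3 7 6), (7, .lf 3 5 6 6 3 5), (9, .lf 7 9 0 0 7 9), (7, .pl 0 1 6 5), (3, .ce 4 6 7 4 7 0), (3, .am 0 1 7 8 1 1), (9, .lf 5 7 8 8 4 7), (2, .am 0 1 8 9 1 1)]) (.ch 7 (.leaf [(1, .pl 0 1 2 8), (1, .rt 7 8 0 7 8 0), (1, .pl 0 2 7 8), (1, .lf 8 0 1 1 8 0)]) (.leaf [(68, .lf 7 9 0 0 7 9), (40, .cf 2 3 5 2 5 1), (40, .rt 9 0 2 9 0 2), (40, .cf 3 4 6 3 6 1), (2, .am 0 1 3 8 1 1), (52, .lf 6 8 9 9 6 8), (20, .am 1 2 3 9 1 1), (80, .lf 9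 1 2 2 9 1), (3, .am 1 2 3 8 1 1), (12, .lf 8 0 1 1 8 9), (12, .am 0 3 8 9 1 1), (12, .ce 6 8 9 6 9 0), (68, .ce 5 7 8 4 8 0), (17, .am 1 2 7 8 1 1), (40, .pl 0 9 3 6), (68, .lf 5 7 8 8 4 7), (17, .pl 2 3 7 8), (40, .rt 2 3 5 2 3 5), (4, .am 0 1 3 9 1 1), (34, .am 0 1 7 8 1 1), (40, .am 0 2 8 9 1 1), (40, .rt 0 1 3 0 2 3), (40, .lf 8 0 1 1 8 0)]) (.ch 8 (.br 0 5 1 7 1 1 (.leaf [(4, .rt 0 1 3 0 2 3), (6, .am 1 7 8 9 1 1), (12, .lf 8 0 1 1 8 0), (3, .am 0 1 7 9 1 1), (6, .am 5 7 8 9 1 1), (9, .ex 0), (12, .lf 5 7 8 8 5 7), (12, .lf 6 8 9 9 5 8), (4, .ta 7 1 2), (16, .ce 4 6 7 4 7 0), (9, .am 0 5 7 9 1 1), (8, .ce 4 6 7 4 7 9), (24, .lf 4 6 7 7 4 5), (4, .cf 0 1 3 0 3 9)]) (.pr 1 3 (.br 0 6 1 7 1 1 (.leaf [(8, .lf 5 7 8 8 5 7), (12,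 .am 0 1 3 9 1 1), (8, .lf 7 9 0 0 7 8), (8, .ce 5 7 8 5 8 0), (6, .am 1 3 8 9 1 1), (8, .am 0 1 2 3 1 1), (16, .am 0 1 7 9 1 1), (16, .rt 2 3 5 2 3 5), (6, .pl 2 3 7 8), (24, .ex 1), (104, .lf 4 6 7 7 4 6), (16, .rt 0 1 3 0 2 3), (50, .am 1 7 8 9 1 1), (112, .lf 8 0 1 1 8 0), (48, .am 4 7 8 9 1 1), (1, .pl 2 3 7 5), (96, .lf 5 7 8 8 4 7), (16, .rt 1 2 5 1 2 5), (104, .lf 6 8 9 9 6 8), (96, .ce 4 6 7 4 7 9), (1, .am 1 2 3 5 1 1), (7, .am 1 2 7 5 1 1), (52, .am 0 6 7 9 1 1), (52, .ex 0), (88, .ce 4 6 7 4 7 0), (32, .ta 7 1 2), (32, .lf 4 6 7 7 4 5), (48, .ce 5 7 8 4 9 0)]) (.br 0 5 1 7 2 1 (.leaf [(10, .am 0 2 7 8 1 1), (7, .ce 5 7 8 5 8 0), (47, .lf 6 8 9 9 5 8), (17, .lf 7 9 0 0 7 8), (5, .pl 2 3 7 5), (20, .rt 2 3 5 2 3 5), (77,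 .ce 4 6 7 4 7 0), (22, .am 1 7 8 9 1 1), (64, .lf 8 0 1 1 8 0), (5, .pl 2 3 7 8), (20, .ta 7 1 2), (10, .am 0 2 3 9 1 1), (5, .am 3 5 9 8 1 1), (157, .lf 4 6 7 7 4 5), (24, .am 0 1 7 9 1 1), (20, .rt 0 1 3 0 1 3), (20, .am 0 5 2 9 1 1), (20, .rt 8 9 1 8 9 1), (40, .am 5 7 8 9 1 1), (46, .ex 0), (20, .am 1 2 8 5 1 1), (80, .ce 4 6 7 4 7 9), (26, .am 0 5 1 9 1 1), (20, .rt 1 2 5 1 2 5), (77, .lf 5 7 8 8 5 7), (66, .ex 2)]) (.leaf [(75, .am 1 2 3 5 1 1), (208, .am 0 2 3 9 1 1), (1360, .lf 4 6 7 7 4 5), (80, .am 0 7 8 9 1 1), (880, .rt 8 9 1 8 9 1), (880, .ce 5 7 8 4 8 0), (720, .lf 8 0 1 1 8 0), (317, .am 1 2 7 5 1 1), (558, .am 1 7 8 9 1 1), (160, .tb 7 1 2), (1040, .ce 4 6 7 4 7 9), (320, .ce 4 6 7 4 7 0), (276, .am 0 1 3 9 1 1),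 (784, .rt 0 1 3 0 1 3), (968, .ex 0), (75, .pl 2 3 7 5), (720, .lf 7 9 0 0 7 8), (242, .pl 2 3 7 8), (184, .am 0 1 2 3 1 1), (242, .am 1 3 8 9 1 1), (76, .am 0 1 7 9 1 1), (784, .rt 2 3 5 2 3 5), (576, .rt 1 2 5 1 2 5), (880, .lf 5 7 8 8 4 7), (96, .rt 9 0 2 9 1 2)]))) (.leaf [(4, .tb 1 1 2), (8, .am 0 1 7 8 1 1), (19, .lf 4 6 7 7 4 6), (8, .pl 1 3 7 6), (7, .ta 1 1 2), (10, .ce 4 6 7 4 7 9), (14, .pl 0 1 5 4), (44, .ex 0), (8, .ta 7 1 2), (59, .lf 4 6 7 7 4 5), (8, .rt 0 1 3 0 2 3), (16, .lf 8 0 1 1 8 0), (12, .am 5 7 8 9 1 1), (16, .lf 6 8 9 9 5 8), (14, .cf 0 1 3 0 3 9), (25, .lf 1 4 5 5 1 4), (14, .am 0 5 7 9 1 1), (24, .ce 4 6 7 4 7 0), (19, .rt 2 3 5 1 3 5), (50, .rt 0 1 3 0 1 3), (11, .pl 4 5 6 7), (44, .pl 0 7 3 4), (24,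 .lf 5 7 8 8 5 7), (4, .am 0 7 8 9 1 1)]))) (.leaf [(1, .am 2 7 8 9 1 1), (24, .lf 5 7 8 8 4 7), (11, .pl 2 3 7 8), (12, .ce 4 6 7 4 7 9), (12, .am 4 7 8 9 1 1), (24, .ce 6 8 9 6 9 0), (12, .ce 5 7 8 4 9 0), (20, .am 0 2 3 9 1 1), (10, .lf 8 0 1 2 7 0), (24, .lf 6 8 9 9 6 8), (24, .lf 8 0 1 2 8 0), (40, .lf 0 2 3 3 0 2), (14, .tb 7 1 2), (2, .lf 0 2 3 3 9 2), (11, .am 2 3 8 9 1 1)]) (.br 0 5 1 7 2 1 (.br 0 6 1 7 1 3 (.leaf [(4, .cf 0 1 3 0 3 9), (3, .am 0 1 7 9 1 1), (6, .am 0 6 7 9 1 1), (6, .am 5 7 8 9 1 1), (4, .ta 7 1 2), (6, .ex 0), (3, .am 0 5 7 9 1 1), (12, .lf 6 8 9 9 6 8), (3, .ex 1), (4, .rt 0 1 3 0 2 3), (12, .lf 5 7 8 8 5 7), (12, .lf 4 6 7 7 4 6), (8, .ce 4 6 7 4 7 9), (16, .ce 4 6 7 4 7 0), (12, .lf 4 6 7 7 4 5),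 (12, .lf 8 0 1 1 8 0), (6, .am 1 7 8 9 1 1)]) (.leaf [(24, .ce 4 6 7 4 7 9), (18, .am 5 7 8 9 1 1), (27, .ex 1), (2, .am 0 7 8 9 1 1), (16, .lf 1 3 4 6 1 2), (3, .am 0 2 7 9 1 1), (16, .lf 4 6 7 7 4 6), (16, .ex 0), (13, .pl 0 1 2 3), (16, .ta 8 1 2), (27, .am 0 5 7 9 1 1), (8, .am 0 1 7 9 1 1), (12, .lf 7 9 0 0 7 8), (36, .lf 5 7 8 8 5 7), (7, .ta 7 1 2), (36, .lf 6 8 9 9 5 8), (64, .ce 4 6 7 4 7 0), (3, .tb 7 1 2), (3, .pl 1 7 3 2), (16, .am 1 7 8 9 1 1), (16, .rt 2 3 5 2 3 6), (72, .lf 4 6 7 7 4 5)])) (.leaf [(11, .am 0 1 7 8 1 1), (60, .ce 4 6 7 4 7 0), (30, .ce 6 8 9 6 9 0), (60, .ex 0), (40, .lf 5 7 8 8 4 7), (2, .lf 5 7 8 8 5 7), (22, .lf 7 9 0 0 7 8), (20, .ce 5 7 8 4 9 0), (10, .am 0 3 8 9 1 1), (60, .rt 2 3 5 2 3 5),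 (20, .am 4 7 8 9 1 1), (60, .lf 4 6 7 7 4 5), (40, .pl 0 1 2 3), (60, .lf 1 3 4 5 1 2), (20, .ce 4 6 7 4 7 9), (20, .tb 7 1 2), (16, .tb 8 1 2), (1, .am 0 1 3 8 1 1), (30, .lf 6 8 9 9 6 8), (2, .ce 5 7 8 5 8 0), (11, .pl 1 3 7 8), (12, .ta 8 1 2), (20, .am 0 2 3 9 1 1)])) (.br 0 5 1 7 1 1 (.leaf [(24, .lf 4 6 7 7 4 5), (12, .lf 5 7 8 8 5 7), (3, .am 0 1 7 9 1 1), (16, .ce 4 6 7 4 7 0), (9, .am 0 5 7 9 1 1), (6, .am 1 7 8 9 1 1), (4, .ta 7 1 2), (9, .ex 0), (12, .lf 8 0 1 1 8 0), (6, .am 5 7 8 9 1 1), (4, .cf 0 1 3 0 3 9), (8, .ce 4 6 7 4 7 9), (12, .lf 6 8 9 9 5 8), (4, .rt 0 1 3 0 2 3)]) (.pr 1 3 (.leaf [(310, .rt 1 2 5 1 2 5), (100, .tb 7 1 2), (62, .pl 2 3 7 8), (62, .am 0 1 2 7 1 1), (62, .am 1 3 8 9 1 1), (65, .am 0 7 8 9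 1 1), (130, .ce 4 6 7 4 7 9), (180, .ce 4 6 7 4 7 0), (78, .am 1 7 8 9 1 1), (310, .ex 0), (100, .am 0 2 3 9 1 1), (43, .am 0 1 2 3 1 1), (205, .c4 8), (205, .lf 5 7 8 8 4 7), (46, .am 0 1 7 9 1 1), (310, .lf 4 6 7 7 4 5), (205, .rt 0 1 3 0 1 3), (10, .ta 7 1 2), (24, .am 0 1 3 9 1 1), (205, .ce 5 7 8 4 8 0), (75, .lf 7 9 0 0 7 8), (280, .lf 8 0 1 1 8 0)]) (.leaf [(19, .rt 2 3 5 1 3 5), (16, .lf 8 0 1 1 8 0), (14, .cf 0 1 3 0 3 9), (14, .am 0 5 7 9 1 1), (25, .lf 1 4 5 5 1 4), (44, .ex 0), (59, .lf 4 6 7 7 4 5), (16, .lf 6 8 9 9 5 8), (8, .ta 7 1 2), (8, .am 0 1 7 8 1 1), (44, .pl 0 7 3 4), (12, .am 5 7 8 9 1 1), (4, .tb 1 1 2), (10, .ce 4 6 7 4 7 9), (8, .rt 0 1 3 0 2 3), (4, .am 0 7 8 9 1 1), (24, .lf 5 7 8 8 5 7), (7, .ta 1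 1 2), (24, .ce 4 6 7 4 7 0), (8, .pl 1 3 7 6), (50, .rt 0 1 3 0 1 3), (11, .pl 4 5 6 7), (14, .pl 0 1 5 4), (19, .lf 4 6 7 7 4 6)])))) (.leaf [(5, .am 1 2 7 8 1 1), (20, .rt 9 0 2 9 0 2), (10, .am 0 2 8 9 1 1), (20, .c4 7), (8, .rt 0 1 3 0 1 3), (30, .lf 8 0 1 1 8 0), (20, .lf 7 9 0 0 7 9), (1, .am 1 2 3 8 1 1), (8, .rt 2 3 5 2 3 5), (30, .ce 6 8 9 6 9 0), (2, .am 0 2 3 8 1 1), (30, .lf 6 8 9 9 6 8), (10, .am 0 1 7 8 1 1), (2, .am 0 1 3 8 1 1), (8, .cf 2 3 5 2 5 1), (6, .am 0 1 2 8 1 1), (5, .pl 2 3 7 8)])) (.ch 7 (.leaf [(1, .pl 0 2 3 9), (1, .pl 1 9 8 7), (1, .pl 0 1 2 9), (1, .lf 8 0 1 1 8 0), (1, .pl 0 3 7 9), (1, .rt 7 8 0 7 8 0)]) (.leaf [(68, .lf 7 9 0 0 7 9), (3, .am 1 2 3 8 1 1), (68, .lf 5 7 8 8 4 7), (17, .pl 2 3 7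 8), (52, .lf 6 8 9 9 6 8), (44, .ce 5 7 8 4 8 0), (2, .am 0 1 3 8 1 1), (40, .lf 8 0 1 1 8 0), (12, .lf 8 0 1 1 8 9), (80, .lf 9 1 2 2 9 1), (4, .am 0 1 3 9 1 1), (24, .ce 6 8 9 6 9 0), (40, .rt 2 3 5 2 3 5), (40, .rt 0 1 3 0 2 3), (40, .cf 3 4 6 3 6 1), (12, .rt 3 4 6 3 4 6), (40, .cf 2 3 5 2 5 1), (20, .am 1 2 3 9 1 1), (34, .am 0 1 7 8 1 1), (40, .rt 9 0 2 9 0 2), (40, .am 0 2 8 9 1 1), (28, .pl 0 9 3 6), (12, .am 3 4 9 8 1 1), (12, .ce 5 7 8 4 9 0), (17, .am 1 2 7 8 1 1)]) (.ch 8 (.br 0 5 1 7 2 1 (.br 0 3 5 4 1 2 (.leaf [(5, .am 0 5 7 9 1 1), (4, .am 4 5 6 9 1 1), (12, .c4 1), (52, .ce 4 6 7 4 7 0), (24, .am 0 6 7 9 1 1), (8, .lf 1 3 4 4 1 3), (18, .am 5 7 8 9 1 1), (15, .am 0 1 7 9 1 1), (44, .lf 6 8 9 9 6 8), (4, .am 0 1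 2 3 1 1), (8, .pl 1 3 7 4), (8, .am 0 2 6 5 1 1), (4, .rt 8 9 1 8 9 1), (8, .pl 1 2 7 6), (56, .lf 8 0 1 1 8 0), (12, .lf 7 9 0 0 7 8), (16, .ex 0), (48, .lf 5 7 8 8 5 7), (32, .lf 4 6 7 7 4 6), (4, .ce 5 7 8 4 9 0), (52, .lf 4 6 7 7 4 5), (30, .am 1 7 8 9 1 1), (40, .ce 4 6 7 4 7 9), (12, .ta 7 1 2), (8, .pl 0 1 6 4), (12, .rt 0 1 3 0 2 3), (12, .ce 5 7 8 5 8 0), (29, .ex 1), (16, .rt 2 3 5 2 3 5)]) (.br 1 6 4 8 3 1 (.pr 1 3 (.br 0 5 1 7 1 1 (.leaf [(9, .am 0 5 7 9 1 1), (4, .rt 0 1 3 0 2 3), (12, .lf 5 7 8 8 5 7), (16, .ce 4 6 7 4 7 0), (8, .ce 4 6 7 4 7 9), (4, .cf 0 1 3 0 3 9), (12, .lf 6 8 9 9 5 8), (6, .am 5 7 8 9 1 1), (12, .lf 8 0 1 1 8 0), (24, .lf 4 6 7 7 4 5), (3, .am 0 1 7 9 1 1), (6, .am 1 7 8 9 1 1), (4, .ta 7 1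 2), (9, .ex 0)]) (.leaf [(7, .lf 5 7 8 8 4 7), (20, .am 1 2 8 5 1 1), (10, .am 0 2 7 9 1 1), (10, .am 0 2 3 8 1 1), (20, .rt 1 2 5 1 2 5), (17, .lf 7 9 0 0 7 8), (20, .rt 8 9 1 8 9 1), (20, .ta 7 1 2), (46, .ex 3), (20, .am 0 5 2 9 1 1), (10, .pl 2 3 7 8), (64, .lf 8 0 1 1 8 0), (20, .rt 0 1 3 0 1 3), (47, .lf 6 8 9 9 5 8), (70, .lf 5 7 8 8 5 7), (77, .ce 4 6 7 4 7 0), (80, .ce 4 6 7 4 7 9), (22, .am 1 7 8 9 1 1), (45, .am 5 7 8 9 1 1), (157, .lf 4 6 7 7 4 5), (24, .am 0 1 7 9 1 1), (7, .ce 5 7 8 4 8 0), (26, .am 0 5 1 9 1 1), (66, .ex 0), (20, .rt 2 3 5 2 3 5)])) (.leaf [(6, .cf 0 1 3 0 3 9), (2, .pl 1 2 7 5), (13, .c4 1), (9, .lf 5 7 8 8 4 7), (3, .ta 7 1 2), (5, .am 0 1 7 8 1 1), (6, .am 1 6 5 8 1 1), (1, .pl 1 2 7 6), (1,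 .am 4 5 6 7 1 1), (4, .lf 4 6 7 7 4 6), (6, .rt 0 1 3 0 1 3), (2, .pl 0 1 6 4), (3, .am 1 5 4 8 1 1), (3, .ce 4 6 7 4 7 9), (3, .rt 0 1 3 0 2 3), (12, .ex 0), (2, .am 0 6 7 9 1 1), (3, .cf 0 1 3 0 3 8), (4, .am 0 7 8 9 1 1), (4, .lf 6 8 9 9 6 8), (2, .pl 1 2 7 4), (6, .am 1 2 5 6 1 1), (1, .lf 8 0 1 1 8 0), (4, .ce 4 6 7 4 7 0), (2, .am 1 2 4 5 1 1), (19, .lf 1 4 5 5 1 4), (13, .rt 2 3 5 2 3 6)])) (.leaf [(3, .ex 2), (12, .lf 4 6 7 7 4 5), (8, .ex 0), (4, .ta 7 1 2), (8, .pl 0 1 6 4), (16, .ce 4 6 7 4 7 0), (8, .am 0 6 7 9 1 1), (12, .lf 8 0 1 1 8 0), (1, .am 0 1 7 9 1 1), (12, .lf 5 7 8 8 5 7), (2, .am 1 7 8 9 1 1), (3, .am 0 5 7 9 1 1), (4, .cf 0 1 3 0 3 9), (12, .lf 4 6 7 7 4 6), (8, .ce 4 6 7 4 7 9), (6, .am 5 7 8 9 1 1),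 (4, .rt 0 1 3 0 2 3), (4, .am 6 7 8 9 1 1), (12, .lf 6 8 9 9 6 8)]))) (.pr 1 3 (.leaf [(576, .rt 1 2 5 1 2 5), (784, .rt 2 3 5 2 3 5), (720, .lf 5 7 8 8 5 7), (784, .rt 0 1 3 0 1 3), (880, .rt 8 9 1 8 9 1), (75, .pl 2 3 7 5), (720, .ce 5 7 8 5 8 0), (1360, .lf 4 6 7 7 4 5), (160, .tb 7 1 2), (242, .pl 2 3 7 8), (75, .am 1 2 3 5 1 1), (184, .am 0 1 2 3 1 1), (317, .am 1 2 7 5 1 1), (160, .lf 5 7 8 8 4 7), (96, .rt 9 0 2 9 1 2), (80, .am 4 7 8 9 1 1), (968, .ex 0), (208, .am 0 2 3 9 1 1), (242, .am 1 3 8 9 1 1), (1040, .ce 4 6 7 4 7 9), (720, .lf 8 0 1 1 8 0), (276, .am 0 1 3 9 1 1), (720, .lf 7 9 0 0 7 8), (400, .ce 4 6 7 4 7 0), (558, .am 1 7 8 9 1 1), (76, .am 0 1 7 9 1 1), (80, .ce 5 7 8 4 9 0)]) (.leaf [(4, .lf 1 4 5 5 1 4),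 (1, .pl 0 7 3 2), (1, .pl 0 7 3 5), (1, .am 1 2 7 5 1 1), (1, .pl 1 2 5 6), (2, .pl 0 7 5 4), (6, .ex 0), (2, .rt 0 1 3 0 1 3), (2, .am 0 5 1 7 1 1), (2, .lf 4 6 7 7 4 5), (1, .am 2 3 5 6 1 1), (2, .c4 1), (4, .rt 2 3 5 2 3 5), (2, .rt 3 4 6 3 5 6)]))) (.leaf [(1, .am 2 7 8 9 1 1), (12, .ce 5 7 8 4 9 0), (24, .lf 8 0 1 2 8 0), (11, .am 2 3 8 9 1 1), (2, .lf 0 2 3 3 9 2), (12, .ce 4 6 7 4 7 9), (24, .lf 6 8 9 9 6 8), (14, .tb 7 1 2), (40, .lf 0 2 3 3 0 2), (12, .am 4 7 8 9 1 1), (24, .lf 5 7 8 8 4 7), (20, .am 0 2 3 9 1 1), (10, .lf 8 0 1 2 7 0), (24, .ce 6 8 9 6 9 0), (11, .pl 2 3 7 8)]) (.br 0 5 1 7 2 1 (.br 0 6 1 7 1 3 (.leaf [(4, .ta 7 1 2), (4, .cf 0 1 3 0 3 9), (3, .am 0 1 7 9 1 1), (12, .lf 4 6 7 7 4 6), (6, .am 1 7 8 9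 1 1), (12, .lf 4 6 7 7 4 5), (6, .am 0 6 7 9 1 1), (12, .lf 6 8 9 9 6 8), (12, .lf 8 0 1 1 8 0), (3, .ex 1), (6, .ex 0), (4, .rt 0 1 3 0 2 3), (12, .lf 5 7 8 8 5 7), (3, .am 0 5 7 9 1 1), (8, .ce 4 6 7 4 7 9), (6, .am 5 7 8 9 1 1), (16, .ce 4 6 7 4 7 0)]) (.leaf [(18, .am 5 7 8 9 1 1), (27, .am 0 5 7 9 1 1), (8, .am 0 1 7 9 1 1), (72, .lf 4 6 7 7 4 5), (2, .am 0 7 8 9 1 1), (16, .am 1 7 8 9 1 1), (3, .tb 7 1 2), (64, .ce 4 6 7 4 7 0), (3, .pl 1 7 3 2), (12, .lf 7 9 0 0 7 8), (3, .am 0 2 7 9 1 1), (36, .lf 5 7 8 8 5 7), (16, .rt 2 3 5 2 3 6), (16, .lf 4 6 7 7 4 6), (24, .ce 4 6 7 4 7 9), (16, .ta 8 1 2), (16, .ex 0), (27, .ex 1), (16, .lf 1 3 4 6 1 2), (7, .ta 7 1 2), (36, .lf 6 8 9 9 5 8), (13, .pl 0 1 2 3)])) (.leaf [(16, .tb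 8 1 2), (20, .tb 7 1 2), (42, .lf 5 7 8 8 4 7), (1, .am 0 1 3 8 1 1), (11, .pl 0 1 2 7), (20, .am 0 2 3 9 1 1), (42, .ce 5 7 8 4 8 0), (40, .ce 4 6 7 4 7 0), (60, .rt 2 3 5 2 3 5), (11, .am 0 1 7 8 1 1), (20, .am 0 7 8 9 1 1), (22, .lf 7 9 0 0 7 8), (29, .pl 0 1 2 3), (60, .ex 0), (60, .lf 4 6 7 7 4 5), (10, .am 0 3 8 9 1 1), (60, .lf 1 3 4 5 1 2), (30, .ce 6 8 9 6 9 0), (11, .pl 2 3 7 8), (20, .ce 4 6 7 4 7 9), (30, .lf 6 8 9 9 6 8), (12, .ta 8 1 2)])) (.br 0 5 1 7 1 1 (.leaf [(3, .am 0 1 7 9 1 1), (4, .rt 0 1 3 0 2 3), (4, .ta 7 1 2), (16, .ce 4 6 7 4 7 0), (12, .lf 6 8 9 9 5 8), (12, .lf 5 7 8 8 5 7), (24, .lf 4 6 7 7 4 5), (8, .ce 4 6 7 4 7 9), (6, .am 1 7 8 9 1 1), (4, .cf 0 1 3 0 3 9), (9, .am 0 5 7 9 1 1), (9, .ex 0), (12,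 .lf 8 0 1 1 8 0), (6, .am 5 7 8 9 1 1)]) (.pr 1 3 (.leaf [(24, .am 0 1 3 9 1 1), (205, .lf 5 7 8 8 4 7), (310, .ex 0), (245, .ce 4 6 7 4 7 0), (310, .rt 1 2 5 1 2 5), (43, .am 0 1 2 3 1 1), (280, .lf 8 0 1 1 8 0), (62, .am 0 1 2 7 1 1), (100, .am 0 2 3 9 1 1), (78, .am 1 7 8 9 1 1), (100, .tb 7 1 2), (130, .ce 4 6 7 4 7 9), (75, .lf 7 9 0 0 7 8), (205, .c4 8), (65, .ce 5 7 8 4 9 0), (10, .ta 7 1 2), (62, .am 1 3 8 9 1 1), (46, .am 0 1 7 9 1 1), (205, .rt 0 1 3 0 1 3), (310, .lf 4 6 7 7 4 5), (65, .am 4 7 8 9 1 1), (75, .ce 5 7 8 4 8 0), (62, .pl 2 3 7 8)]) (.leaf [(600, .ex 0), (8, .am 0 2 3 8 1 1), (42, .pl 3 5 8 7), (4, .am 0 7 8 9 1 1), (268, .c4 8), (128, .ta 7 1 2), (108, .lf 6 8 9 9 6 8), (172, .am 1 7 8 9 1 1), (4, .am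 0 1 2 7 1 1), (120, .am 3 5 9 8 1 1), (43, .am 1 2 3 5 1 1), (384, .ce 4 6 7 4 7 9), (1000, .rt 2 3 5 2 3 5), (86, .am 0 1 3 9 1 1), (359, .am 2 3 5 6 1 1), (16, .am 1 2 8 5 1 1), (772, .c4 1), (359, .pl 1 2 5 6), (720, .lf 4 6 7 7 4 5), (236, .ce 4 6 7 4 7 0), (384, .lf 5 7 8 8 5 7), (54, .pl 0 1 6 5), (86, .pl 2 3 7 8), (368, .rt 0 1 3 0 1 3), (82, .am 1 2 7 5 1 1), (54, .am 0 6 3 9 1 1), (376, .lf 8 0 1 1 8 0), (80, .am 5 7 8 9 1 1), (664, .rt 3 4 6 3 5 6), (100, .pl 0 7 5 4), (872, .lf 1 4 5 5 1 4), (100, .am 0 5 3 9 1 1), (128, .rt 0 1 3 0 2 3)])))) (.leaf [(8, .am 0 1 3 9 1 1), (3, .am 0 3 8 9 1 1), (60, .lf 7 9 0 0 7 9), (10, .am 1 2 3 9 1 1), (15, .pl 2 3 7 8), (25, .cf 2 3 5 2 5 1), (25, .rt 0 1 3 0 1 3), (89, .lf 8 0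 1 1 8 0), (89, .lf 6 8 9 9 6 8), (10, .am 0 1 2 8 1 1), (20, .am 0 2 8 9 1 1), (6, .am 0 1 3 8 1 1), (60, .c4 7), (30, .am 0 1 7 8 1 1), (15, .am 1 2 7 8 1 1), (60, .rt 9 0 2 9 0 2), (6, .am 1 3 8 9 1 1), (25, .rt 2 3 5 2 3 5), (89, .ce 6 8 9 6 9 0)]))

def C3543654654_12 : Tr :=
  .ch 1 (.leaf [(1, .pl 0 1 5 4), (4, .lf 4 6 7 7 4 5), (4, .ce 4 6 7 4 7 0), (1, .lf 2 4 5 5 2 4), (2, .pl 0 1 6 4), (2, .am 5 7 8 9 1 1), (1, .pl 1 2 7 5), (4, .lf 8 0 1 1 8 0), (4, .lf 7 9 0 0 7 9), (1, .am 0 5 7 9 1 1), (4, .lf 5 7 8 8 5 7), (1, .am 0 1 7 9 1 1), (2, .am 0 6 7 9 1 1), (3, .rt 1 2 4 1 2 4), (4, .lf 4 6 7 7 4 6), (4, .ce 4 6 7 4 7 9), (2, .pl 1 2 7 6), (2, .lf 2 4 5 6 2 4), (4, .lf 6 8 9 9 6 8), (2, .am 1 7 8 9 1 1)]) (.ch 7 (.leaf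 [(1, .lf 8 0 1 1 8 0), (1, .pl 3 9 8 7), (1, .rt 7 8 0 7 8 0), (1, .pl 0 3 7 9), (1, .pl 0 2 3 8), (1, .pl 0 1 2 8)]) (.leaf [(40, .lf 9 1 2 3 9 1), (56, .lf 5 7 8 8 5 7), (28, .am 1 2 4 5 1 1), (35, .pl 1 3 5 6), (16, .pl 1 2 7 6), (5, .pl 1 3 7 6), (12, .pl 0 9 5 4), (24, .am 0 6 7 9 1 1), (8, .am 2 4 9 8 1 1), (44, .lf 9 1 2 2 9 1), (56, .lf 7 9 0 0 7 9), (14, .am 1 5 4 8 1 1), (16, .lf 3 5 6 6 2 5), (20, .am 0 3 8 9 1 1), (56, .lf 4 6 7 7 4 6), (40, .lf 3 5 6 6 3 5), (8, .pl 0 3 7 8), (21, .am 1 7 8 9 1 1), (4, .am 4 6 7 9 1 1), (12, .pl 3 4 8 7), (7, .pl 1 9 5 6), (7, .am 6 7 8 9 1 1), (28, .lf 8 0 1 1 8 9), (72, .lf 1 3 4 4 1 2), (12, .lf 1 3 4 4 1 3), (2, .am 4 5 6 8 1 1), (8, .pl 2 4 8 7), (56, .lf 2 4 5 5 2 4), (28, .cf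 0 1 3 0 3 8), (56, .lf 6 8 9 9 6 8), (28, .pl 2 4 9 7), (12, .am 0 5 6 8 1 1)]) (.ch 8 (.br 0 6 2 7 1 2 (.leaf [(3, .ex 0), (3, .ce 4 6 7 4 7 0), (6, .lf 5 7 8 8 4 7), (1, .am 0 7 8 9 1 1), (2, .ta 7 1 2), (3, .ce 5 7 8 4 9 0), (6, .lf 6 8 9 9 6 8), (2, .cf 0 1 3 0 3 8), (4, .lf 8 0 1 2 8 0), (3, .am 0 6 7 9 1 1), (2, .am 2 7 8 9 1 1), (6, .ce 4 6 7 4 7 9), (3, .am 4 7 8 9 1 1), (2, .rt 0 1 3 0 2 3), (6, .lf 4 6 7 7 4 6), (1, .am 0 2 7 9 1 1)]) (.leaf [(12, .cf 0 1 3 0 3 8), (6, .am 0 7 8 9 1 1), (2, .am 4 6 7 9 1 1), (4, .ta 7 1 2), (1, .pl 0 3 5 4), (1, .lf 3 5 6 6 3 5), (1, .pl 2 6 4 3), (12, .lf 5 7 8 8 5 7), (4, .am 0 6 7 9 1 1), (12, .rt 0 1 3 0 2 3), (12, .lf 6 8 9 9 6 8), (9, .lf 4 6 7 7 4 5), (2, .am 0 2 6 5 1 1), (6,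 .ex 0), (11, .ce 4 6 7 4 7 9), (6, .lf 2 4 5 5 2 4), (4, .ce 5 7 8 4 9 0), (1, .am 2 4 5 6 1 1), (2, .lf 3 5 6 6 2 5), (3, .am 4 5 7 9 1 1), (12, .lf 4 6 7 7 4 6), (1, .pl 0 9 5 4), (1, .cf 0 1 3 0 3 9), (6, .am 5 7 8 9 1 1)])) (.leaf [(32, .am 1 5 4 8 1 1), (70, .pl 0 9 5 4), (54, .am 4 7 8 9 1 1), (140, .tb 7 1 2), (64, .lf 5 7 8 8 5 7), (26, .am 1 5 4 9 1 1), (37, .pl 1 3 7 8), (26, .am 3 4 9 8 1 1), (128, .lf 5 7 8 8 4 7), (16, .am 1 7 8 9 1 1), (31, .lf 8 0 1 2 7 0), (70, .am 0 5 2 9 1 1), (186, .pl 1 3 5 6), (256, .lf 3 5 6 6 3 5), (54, .pl 3 4 8 7), (70, .pl 2 3 5 6), (36, .pl 0 9 3 4), (192, .lf 8 0 1 2 8 0), (244, .lf 0 2 3 3 0 1), (31, .pl 2 3 7 8), (21, .lf 8 0 1 1 7 0), (192, .lf 6 8 9 9 5 8), (140, .cf 0 1 3 0 3 9),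 (420, .lf 0 2 3 3 0 2), (223, .am 0 2 3 9 1 1), (116, .lf 1 3 4 4 1 3), (96, .am 2 3 8 9 1 1), (21, .am 0 1 3 9 1 1), (128, .lf 2 4 5 5 1 4)]) (.br 0 6 2 7 1 2 (.leaf [(6, .lf 4 6 7 7 4 6), (2, .rt 0 1 3 0 2 3), (1, .am 0 2 7 9 1 1), (2, .cf 0 1 3 0 3 8), (1, .am 0 7 8 9 1 1), (6, .lf 6 8 9 9 6 8), (4, .lf 8 0 1 2 8 0), (2, .am 2 7 8 9 1 1), (3, .am 4 7 8 9 1 1), (3, .am 0 6 7 9 1 1), (3, .ex 0), (2, .ta 7 1 2), (6, .lf 5 7 8 8 4 7), (3, .ce 4 6 7 4 7 0), (3, .ce 5 7 8 4 9 0), (6, .ce 4 6 7 4 7 9)]) (.leaf [(2, .am 0 2 6 5 1 1), (9, .lf 4 6 7 7 4 5), (4, .ce 5 7 8 4 9 0), (4, .ta 7 1 2), (11, .ce 4 6 7 4 7 9), (6, .am 0 7 8 9 1 1), (6, .ex 0), (1, .am 2 4 5 6 1 1), (1, .cf 0 1 3 0 3 9), (12, .lf 6 8 9 9 6 8), (3, .pl 0 3 2 6),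 (10, .rt 0 1 3 0 2 3), (12, .lf 4 6 7 7 4 6), (4, .am 0 6 7 9 1 1), (1, .pl 0 9 5 4), (6, .lf 2 4 5 5 2 4), (2, .am 4 6 7 9 1 1), (3, .lf 3 5 6 6 3 5), (12, .cf 0 1 3 0 3 8), (3, .am 4 5 7 9 1 1), (6, .am 5 7 8 9 1 1), (1, .pl 0 2 5 4), (12, .lf 5 7 8 8 5 7)])) (.br 2 6 4 7 3 1 (.leaf [(3, .pl 0 2 5 4), (6, .am 0 7 8 9 1 1), (6, .ex 0), (6, .lf 2 4 5 5 2 4), (11, .ce 4 6 7 4 7 9), (1, .cf 0 1 3 0 3 9), (3, .am 0 2 6 5 1 1), (10, .rt 0 1 3 0 2 3), (3, .lf 3 5 6 6 3 5), (4, .ce 4 6 7 4 7 0), (3, .am 0 5 7 9 1 1), (6, .am 5 7 8 9 1 1), (12, .cf 0 1 3 0 3 8), (3, .pl 2 6 4 3), (12, .lf 5 7 8 8 5 7), (9, .lf 4 6 7 7 4 5), (4, .ta 7 1 2), (12, .lf 4 6 7 7 4 6), (12, .lf 6 8 9 9 6 8), (6, .am 0 6 7 9 1 1), (3, .pl 0 3 5 4)]) (.leaf [(1,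 .am 0 2 8 9 1 1), (3, .lf 8 0 1 2 8 0), (3, .lf 5 7 8 8 4 7), (2, .am 2 7 8 9 1 1), (1, .am 0 7 8 9 1 1), (1, .ta 7 1 2), (1, .ce 4 6 7 4 7 0), (1, .cf 0 1 3 0 3 8), (2, .am 0 6 7 9 1 1), (1, .rt 0 1 3 0 2 3), (2, .pl 0 2 6 4), (3, .ce 4 6 7 4 7 9), (3, .ce 5 7 8 4 8 0), (4, .lf 4 6 7 7 4 6), (2, .ex 0), (4, .lf 6 8 9 9 6 8)]))) (.leaf [(10, .pl 0 9 5 4), (7, .am 1 2 8 4 1 1), (60, .lf 7 9 0 0 7 9), (10, .am 1 2 4 5 1 1), (80, .lf 8 0 1 1 8 0), (36, .lf 2 4 5 5 2 4), (13, .am 1 4 8 7 1 1), (4, .am 0 2 6 5 1 1), (56, .lf 4 6 7 7 4 6), (9, .pl 1 2 7 8), (20, .ce 5 7 8 4 9 0), (12, .am 4 5 7 9 1 1), (56, .lf 6 8 9 9 6 8), (22, .pl 1 2 7 6), (24, .lf 3 5 6 6 2 5), (4, .am 2 4 5 6 1 1), (20, .am 0 6 7 9 1 1), (2, .am 0 1 2 8 1 1),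 (24, .lf 6 8 9 9 5 8), (60, .c4 7), (8, .am 4 6 7 9 1 1), (10, .am 0 7 8 9 1 1), (6, .am 0 5 6 7 1 1), (18, .am 0 1 7 8 1 1), (10, .pl 1 2 5 6), (10, .am 4 7 8 9 1 1)])) (.ch 7 (.leaf [(1, .pl 0 1 2 9), (1, .pl 0 2 3 9), (1, .pl 0 3 7 9), (1, .lf 8 0 1 1 8 0), (1, .rt 7 8 0 7 8 0), (1, .pl 1 9 8 7)]) (.leaf [(6, .lf 2 4 5 5 2 4), (8, .lf 5 7 8 8 4 7), (4, .am 0 5 7 9 1 1), (8, .lf 4 6 7 7 4 5), (9, .lf 9 1 2 2 9 1), (4, .am 1 7 8 9 1 1), (4, .lf 8 0 1 1 8 0), (8, .lf 6 8 9 9 5 8), (4, .lf 8 0 1 1 8 9), (4, .pl 0 1 5 4), (3, .lf 2 4 5 6 2 4), (4, .pl 3 4 9 7), (4, .pl 1 2 7 5), (2, .pl 1 2 4 5), (8, .lf 7 9 0 0 7 9), (3, .cf 3 4 6 2 6 1), (4, .am 3 4 9 8 1 1), (4, .pl 3 4 8 7), (4, .ce 5 7 8 4 9 0), (3, .lf 9 1 2 3 9 1), (3, .ta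 1 1 2), (9, .rt 9 0 2 9 2 3)]) (.ch 8 (.br 0 5 2 7 2 1 (.pr 7 4 (.br 3 6 4 7 1 2 (.br 2 3 8 6 2 1 (.br 0 6 1 7 1 3 (.leaf [(3, .ex 3), (2, .am 2 7 8 9 1 1), (12, .lf 5 7 8 8 5 7), (2, .am 0 1 7 9 1 1), (3, .am 0 5 7 9 1 1), (12, .lf 6 8 9 9 6 8), (1, .am 0 2 7 9 1 1), (16, .ce 4 6 7 4 7 0), (8, .lf 8 0 1 1 8 0), (12, .lf 4 6 7 7 4 5), (4, .cf 0 1 3 0 3 9), (6, .am 0 6 7 9 1 1), (6, .am 5 7 8 9 1 1), (6, .ex 0), (4, .rt 0 1 3 0 2 3), (4, .ta 7 1 2), (4, .lf 8 0 1 2 8 0), (4, .am 1 7 8 9 1 1), (12, .lf 4 6 7 7 4 6), (8, .ce 4 6 7 4 7 9)]) (.pr 1 4 (.leaf [(162, .am 1 2 7 6 1 1), (654, .lf 5 7 8 8 5 7), (326, .cf 0 1 3 0 3 9), (216, .pl 0 1 6 4), (728, .ce 4 6 7 4 7 0), (117, .am 0 1 7 8 1 1), (72, .am 0 7 8 9 1 1), (834, .lf 4 6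 7 7 4 6), (378, .ex 0), (326, .rt 0 1 3 0 2 3), (218, .ta 7 1 2), (24, .pl 0 5 6 8), (189, .ex 3), (30, .pl 5 9 8 6), (324, .lf 2 4 5 6 2 4), (54, .ex 1), (510, .lf 8 0 1 1 8 0), (654, .lf 4 6 7 7 4 5), (324, .rt 0 1 3 0 1 3), (165, .am 0 5 7 9 1 1), (240, .am 0 6 7 9 1 1), (510, .lf 6 8 9 9 6 8), (138, .am 1 7 8 9 1 1), (27, .am 0 2 7 8 1 1), (328, .ce 4 6 7 4 7 9), (54, .am 0 1 2 3 1 1), (54, .ex 2), (108, .ta 1 1 2), (300, .am 5 7 8 9 1 1), (69, .am 0 1 7 9 1 1), (216, .rt 1 2 6 1 2 6), (378, .pl 0 7 3 4)]) (.leaf [(2, .ce 5 7 8 4 9 0), (10, .ce 4 6 7 4 7 9), (6, .rt 0 1 3 0 1 3), (5, .ex 0), (2, .lf 2 4 5 5 1 4), (2, .am 4 5 7 9 1 1), (8, .ex 3), (22, .ce 4 6 7 4 7 0), (8, .rt 0 1 3 0 2 3), (12, .am 5 7 8 9 1 1), (8, .am 0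 6 7 9 1 1), (16, .lf 8 0 1 2 8 0), (1, .am 0 1 6 5 1 1), (20, .lf 4 6 7 7 4 5), (4, .lf 1 5 6 6 1 5), (16, .lf 4 6 7 7 4 6), (24, .lf 5 7 8 8 5 7), (4, .am 0 7 8 9 1 1), (3, .am 0 5 6 7 1 1), (8, .ta 7 1 2), (8, .am 0 2 7 8 1 1), (14, .cf 0 1 3 0 3 9), (16, .lf 6 8 9 9 6 8), (4, .am 0 5 7 9 1 1)]))) (.leaf [(6, .rt 0 1 3 0 2 3), (2, .am 3 6 4 9 1 1), (2, .ce 5 7 8 4 9 0), (4, .lf 4 6 7 7 4 6), (5, .am 0 5 7 9 1 1), (5, .ex 2), (2, .pl 2 9 8 3), (4, .lf 6 8 9 9 6 8), (2, .ex 0), (4, .ex 1), (6, .am 5 7 8 9 1 1), (4, .lf 6 8 9 9 5 8), (4, .am 0 2 7 8 1 1), (4, .ta 7 1 2), (1, .am 0 2 7 9 1 1), (16, .lf 4 6 7 7 4 5), (6, .ce 4 6 7 4 7 9), (6, .cf 0 1 3 0 3 9), (12, .lf 5 7 8 8 5 7), (10, .ce 4 6 7 4 7 0), (2, .am 0 7 8 9 1 1), (8,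 .lf 8 0 1 2 8 0), (2, .lf 2 4 5 6 2 4)])) (.br 1 5 4 7 1 1 (.leaf [(3, .lf 2 4 5 5 1 4), (6, .am 5 7 8 9 1 1), (7, .am 0 5 7 9 1 1), (12, .ce 4 6 7 4 7 0), (8, .lf 6 8 9 9 5 8), (4, .am 0 2 7 8 1 1), (20, .lf 4 6 7 7 4 5), (3, .ex 0), (7, .cf 0 1 3 0 3 9), (3, .rt 0 1 3 0 1 3), (12, .lf 5 7 8 8 5 7), (5, .ce 4 6 7 4 7 9), (3, .pl 0 1 5 4), (4, .rt 0 1 3 0 2 3), (8, .lf 8 0 1 2 8 0), (4, .ex 2), (4, .ta 7 1 2), (2, .am 0 7 8 9 1 1)]) (.leaf [(4, .rt 0 1 3 0 2 3), (24, .lf 4 6 7 7 4 5), (16, .ce 4 6 7 4 7 0), (6, .am 5 7 8 9 1 1), (12, .lf 8 0 1 1 8 0), (3, .am 0 1 7 9 1 1), (6, .am 1 7 8 9 1 1), (4, .ta 7 1 2), (12, .lf 6 8 9 9 5 8), (9, .ex 0), (12, .lf 5 7 8 8 5 7), (4, .cf 0 1 3 0 3 9), (8, .ce 4 6 7 4 7 9), (9, .am 0 5 7 9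 1 1), (9, .pl 0 1 5 4)]))) (.leaf [(11, .am 0 7 8 9 1 1), (8, .am 0 6 7 9 1 1), (19, .lf 6 8 9 9 5 8), (39, .ce 4 6 7 4 7 9), (12, .lf 2 4 5 6 2 4), (21, .lf 7 1 2 2 7 1), (16, .lf 6 8 9 9 6 8), (85, .lf 4 6 7 7 4 5), (66, .lf 5 7 8 8 5 7), (20, .lf 4 6 7 7 4 6), (12, .pl 1 2 7 6), (27, .rt 0 1 3 0 2 3), (22, .am 0 1 7 8 1 1), (33, .am 5 7 8 9 1 1), (5, .am 0 1 2 7 1 1), (15, .cf 0 1 3 0 3 9), (26, .ex 0), (16, .pl 0 7 3 4), (4, .pl 0 3 2 1), (50, .ce 4 6 7 4 7 0), (26, .am 0 5 7 9 1 1), (4, .ta 1 1 2), (9, .rt 8 9 1 8 9 1), (35, .lf 8 0 1 1 8 0), (8, .pl 0 1 6 4), (15, .ta 7 1 2)])) (.leaf [(48, .lf 4 6 7 7 4 5), (5, .am 0 5 7 9 1 1), (24, .lf 5 7 8 8 5 7), (5, .pl 0 9 5 4), (13, .am 4 5 7 9 1 1), (18, .ex 0), (22, .ce 4 6 7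 4 7 9), (12, .am 5 7 8 9 1 1), (8, .ce 5 7 8 4 9 0), (18, .lf 2 4 5 5 2 4), (26, .rt 0 1 3 0 2 3), (24, .cf 0 1 3 0 3 8), (12, .am 0 7 8 9 1 1), (2, .cf 0 1 3 0 3 9), (24, .lf 6 8 9 9 5 8), (8, .ta 7 1 2)])) (.leaf [(40, .lf 0 2 3 3 0 2), (11, .pl 2 3 7 8), (24, .lf 6 8 9 9 4 8), (12, .am 4 7 8 9 1 1), (2, .lf 0 2 3 3 9 2), (36, .ce 5 7 8 4 9 0), (11, .am 2 3 8 9 1 1), (20, .am 0 2 3 9 1 1), (14, .tb 7 1 2), (12, .ce 4 6 7 4 7 9), (24, .lf 8 0 1 2 8 0), (10, .lf 8 0 1 2 7 0), (1, .am 2 7 8 9 1 1), (24, .lf 5 7 8 8 4 7)]) (.br 0 5 2 7 2 1 (.pr 8 3 (.pr 7 4 (.br 3 6 4 7 1 2 (.br 0 3 1 6 1 1 (.pr 1 4 (.leaf [(12, .am 6 7 8 9 1 1), (108, .rt 1 2 6 1 2 6), (106, .ce 4 6 7 4 7 9), (144, .lf 2 4 5 6 2 4), (162, .rt 0 1 3 0 1 3), (216,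 .ex 1), (60, .am 0 5 7 9 1 1), (120, .am 5 7 8 9 1 1), (168, .lf 6 8 9 9 6 8), (54, .pl 1 2 3 6), (42, .ex 2), (18, .lf 2 4 5 5 2 4), (21, .am 1 2 7 6 1 1), (248, .ce 4 6 7 4 7 0), (60, .am 0 1 7 8 1 1), (134, .cf 0 1 3 0 3 9), (54, .ta 1 1 2), (90, .pl 0 1 6 4), (24, .am 1 2 8 6 1 1), (134, .rt 0 1 3 0 2 3), (240, .lf 4 6 7 7 4 5), (36, .am 0 7 8 9 1 1), (9, .pl 1 6 5 7), (162, .ex 0), (12, .am 0 2 7 8 1 1), (330, .lf 4 6 7 7 4 6), (90, .am 0 6 7 9 1 1), (168, .lf 8 0 1 1 8 0), (9, .am 1 2 7 5 1 1), (80, .ta 7 1 2), (240, .lf 5 7 8 8 5 7), (18, .pl 0 1 5 4)]) (.leaf [(9, .am 0 1 6 5 1 1), (108, .lf 4 6 7 7 4 6), (78, .am 5 7 8 9 1 1), (52, .rt 0 1 3 0 2 3), (36, .ex 1), (30, .am 0 7 8 9 1 1), (129, .lf 4 6 7 7 4 5), (148, .ce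 4 6 7 4 7 0), (36, .pl 0 3 6 4), (36, .ex 0), (45, .rt 0 1 3 0 1 3), (18, .am 4 5 6 7 1 1), (52, .ta 7 1 2), (18, .lf 2 4 5 5 1 4), (54, .am 0 6 7 9 1 1), (71, .ce 4 6 7 4 7 9), (48, .am 0 2 7 8 1 1), (12, .cf 0 1 3 0 3 8), (39, .am 0 5 7 9 1 1), (156, .lf 5 7 8 8 5 7), (48, .ex 2), (85, .cf 0 1 3 0 3 9), (96, .lf 8 0 1 2 8 0), (108, .lf 6 8 9 9 6 8), (27, .lf 1 5 6 6 1 5)])) (.leaf [(4, .cf 0 1 3 0 3 9), (4, .rt 0 1 3 0 2 3), (12, .lf 4 6 7 7 4 6), (6, .am 5 7 8 9 1 1), (3, .ex 2), (6, .am 0 6 7 9 1 1), (4, .lf 8 0 1 2 8 0), (12, .lf 5 7 8 8 5 7), (8, .ce 4 6 7 4 7 9), (1, .am 0 2 7 9 1 1), (12, .lf 6 8 9 9 6 8), (4, .am 1 7 8 9 1 1), (2, .am 2 7 8 9 1 1), (2, .am 0 1 7 9 1 1), (4, .ta 7 1 2), (16, .ce 4 6 7 4 7 0), (12, .lf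 4 6 7 7 4 5), (8, .lf 8 0 1 1 8 0), (6, .ex 0), (3, .am 0 5 7 9 1 1), (6, .pl 1 3 7 6)])) (.br 1 5 4 7 1 1 (.leaf [(4, .ta 7 1 2), (12, .lf 5 7 8 8 5 7), (4, .am 0 2 7 8 1 1), (8, .lf 6 8 9 9 5 8), (7, .am 0 5 7 9 1 1), (12, .ce 4 6 7 4 7 0), (3, .ex 0), (8, .lf 8 0 1 2 8 0), (3, .lf 2 4 5 5 1 4), (4, .ex 2), (3, .pl 0 1 5 4), (20, .lf 4 6 7 7 4 5), (7, .cf 0 1 3 0 3 9), (3, .rt 0 1 3 0 1 3), (2, .am 0 7 8 9 1 1), (5, .ce 4 6 7 4 7 9), (4, .rt 0 1 3 0 2 3), (6, .am 5 7 8 9 1 1)]) (.leaf [(6, .am 1 7 8 9 1 1), (16, .ce 4 6 7 4 7 0), (4, .ta 7 1 2), (9, .ex 0), (6, .am 5 7 8 9 1 1), (24, .lf 4 6 7 7 4 5), (12, .lf 8 0 1 1 8 0), (9, .am 0 5 7 9 1 1), (12, .lf 5 7 8 8 5 7), (4, .rt 0 1 3 0 2 3), (8, .ce 4 6 7 4 7 9), (9, .pl 0 1 5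 4), (3, .am 0 1 7 9 1 1), (4, .cf 0 1 3 0 3 9), (12, .lf 6 8 9 9 5 8)]))) (.leaf [(9, .pl 1 2 7 6), (18, .lf 4 6 7 7 4 6), (6, .am 0 7 8 9 1 1), (18, .lf 6 8 9 9 6 8), (9, .am 0 5 7 9 1 1), (7, .rt 0 1 3 0 2 3), (9, .pl 0 7 2 4), (3, .lf 6 8 9 9 5 8), (9, .lf 1 3 4 4 1 2), (3, .cf 0 1 3 0 3 8), (18, .lf 8 0 1 1 8 0), (25, .ce 4 6 7 4 7 0), (9, .pl 0 1 6 4), (33, .lf 4 6 7 7 4 5), (9, .am 0 1 7 8 1 1), (9, .ex 0), (9, .lf 7 1 2 2 7 1), (7, .ta 7 1 2), (4, .cf 0 1 3 0 3 9), (17, .ce 4 6 7 4 7 9), (9, .lf 2 4 5 6 2 4), (9, .am 0 6 7 9 1 1), (15, .am 5 7 8 9 1 1), (30, .lf 5 7 8 8 5 7)])) (.leaf [(6, .lf 7 9 0 0 7 8), (6, .ex 0), (3, .am 2 4 8 7 1 1), (9, .lf 2 4 5 6 2 4), (2, .cf 0 1 3 0 3 9), (3, .ta 1 1 2), (18, .lf 4 6 7 7 4 5),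 (12, .lf 5 7 8 8 5 7), (3, .am 0 2 7 8 1 1), (6, .pl 1 2 4 6), (6, .lf 6 8 9 9 5 8), (2, .ce 4 6 7 4 7 0), (2, .ta 7 1 2), (6, .pl 0 7 3 4), (11, .rt 0 1 3 0 2 3), (3, .cf 3 4 6 2 6 1), (6, .am 0 5 7 9 1 1), (3, .pl 0 8 3 4), (3, .pl 1 2 3 4), (4, .ce 4 6 7 4 7 9), (12, .lf 8 1 2 2 8 1), (6, .am 5 7 8 9 1 1)])) (.leaf [(12, .am 0 7 8 9 1 1), (24, .lf 5 7 8 8 5 7), (24, .cf 0 1 3 0 3 8), (12, .am 5 7 8 9 1 1), (24, .lf 6 8 9 9 5 8), (8, .ce 5 7 8 4 9 0), (18, .lf 2 4 5 5 2 4), (26, .rt 0 1 3 0 2 3), (18, .ex 0), (5, .pl 0 9 5 4), (8, .ta 7 1 2), (5, .am 0 5 7 9 1 1), (48, .lf 4 6 7 7 4 5), (2, .cf 0 1 3 0 3 9), (22, .ce 4 6 7 4 7 9), (13, .am 4 5 7 9 1 1)])) (.br 2 5 4 7 1 2 (.leaf [(9, .ex 0), (12, .lf 6 8 9 9 5 8), (12, .cf 0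 1 3 0 3 8), (4, .ce 4 6 7 4 7 0), (1, .cf 0 1 3 0 3 9), (11, .ce 4 6 7 4 7 9), (9, .pl 0 2 5 4), (24, .lf 4 6 7 7 4 5), (6, .am 0 7 8 9 1 1), (6, .am 5 7 8 9 1 1), (12, .lf 5 7 8 8 5 7), (13, .rt 0 1 3 0 2 3), (4, .ta 7 1 2), (9, .lf 2 4 5 5 2 4), (9, .am 0 5 7 9 1 1)]) (.pr 8 3 (.br 1 6 4 7 3 1 (.pr 1 4 (.leaf [(24, .am 1 2 7 6 1 1), (6, .am 0 1 7 9 1 1), (6, .lf 2 4 5 5 2 4), (18, .am 0 7 8 9 1 1), (6, .pl 0 1 5 4), (3, .am 1 2 7 5 1 1), (96, .lf 8 0 1 1 8 0), (12, .am 1 7 8 9 1 1), (48, .pl 0 1 6 4), (44, .ta 7 1 2), (54, .ex 0), (27, .ex 1), (123, .lf 4 6 7 7 4 6), (48, .lf 2 4 5 6 2 4), (96, .lf 6 8 9 9 6 8), (71, .rt 0 1 3 0 2 3), (3, .pl 1 6 5 7), (27, .rt 1 2 6 1 2 6), (71, .cf 0 1 3 0 3 9), (132, .lf 4 6 7 7 4 5), (36,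 .am 0 1 7 8 1 1), (66, .am 5 7 8 9 1 1), (27, .pl 0 2 5 4), (48, .am 0 6 7 9 1 1), (33, .am 0 5 7 9 1 1), (132, .lf 5 7 8 8 5 7), (61, .ce 4 6 7 4 7 9), (140, .ce 4 6 7 4 7 0)]) (.leaf [(16, .lf 8 0 1 2 8 0), (8, .am 0 2 7 8 1 1), (2, .pl 0 2 5 4), (16, .lf 6 8 9 9 6 8), (5, .pl 0 1 5 4), (14, .cf 0 1 3 0 3 9), (5, .ex 0), (2, .lf 2 4 5 5 1 4), (12, .am 5 7 8 9 1 1), (8, .am 0 6 7 9 1 1), (6, .pl 0 2 6 4), (10, .ce 4 6 7 4 7 9), (4, .lf 1 5 6 6 1 5), (6, .am 0 5 7 9 1 1), (4, .am 0 7 8 9 1 1), (8, .ex 1), (24, .ce 4 6 7 4 7 0), (3, .am 4 5 6 7 1 1), (1, .am 0 1 6 5 1 1), (20, .lf 4 6 7 7 4 5), (6, .rt 0 1 3 0 1 3), (8, .rt 0 1 3 0 2 3), (8, .ta 7 1 2), (16, .lf 4 6 7 7 4 6), (24, .lf 5 7 8 8 5 7)])) (.leaf [(6, .ex 0), (1, .am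 0 2 7 9 1 1), (4, .cf 0 1 3 0 3 9), (4, .lf 8 0 1 2 8 0), (3, .ex 1), (6, .am 0 6 7 9 1 1), (2, .am 0 1 7 9 1 1), (6, .pl 0 1 6 4), (12, .lf 5 7 8 8 5 7), (16, .ce 4 6 7 4 7 0), (12, .lf 4 6 7 7 4 5), (3, .pl 0 2 5 4), (4, .ta 7 1 2), (8, .ce 4 6 7 4 7 9), (12, .lf 6 8 9 9 6 8), (6, .am 5 7 8 9 1 1), (3, .am 0 5 7 9 1 1), (12, .lf 4 6 7 7 4 6), (8, .lf 8 0 1 1 8 0), (2, .am 2 7 8 9 1 1), (4, .rt 0 1 3 0 2 3), (4, .am 1 7 8 9 1 1)])) (.leaf [(1, .am 0 2 3 8 1 1), (2, .am 0 2 8 9 1 1), (20, .am 0 2 3 9 1 1), (3, .ta 7 1 2), (42, .c4 8), (42, .rt 0 1 3 0 2 3), (3, .am 0 2 7 8 1 1), (13, .tb 7 1 2), (22, .lf 5 7 8 8 4 7), (10, .am 2 3 8 9 1 1), (22, .ce 5 7 8 4 8 9), (42, .lf 8 1 2 2 8 1), (11, .pl 2 3 7 8), (8, .am 2 7 8 9 1 1)]))))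 (.leaf [(4, .pl 1 2 4 6), (8, .pl 1 2 7 6), (12, .lf 7 9 0 0 7 9), (16, .lf 4 6 7 7 4 6), (16, .lf 8 0 1 1 8 0), (16, .lf 6 8 9 9 6 8), (3, .am 0 6 7 9 1 1), (12, .c4 7), (12, .lf 2 4 5 6 2 4), (2, .am 0 7 8 9 1 1), (4, .am 0 1 7 8 1 1), (5, .am 4 6 7 9 1 1), (3, .pl 0 9 6 4), (4, .ce 5 7 8 4 9 0), (2, .am 4 7 8 9 1 1), (4, .am 1 4 8 7 1 1)])) (.ch 7 (.leaf [(1, .rt 7 8 0 7 8 0), (1, .lf 8 0 1 1 8 0), (1, .pl 0 1 3 8), (1, .pl 0 3 7 8)]) (.leaf [(4, .lf 6 8 9 9 6 8), (1, .pl 1 2 4 5), (1, .pl 0 1 5 4), (2, .lf 2 4 5 6 2 4), (4, .lf 8 0 1 1 8 0), (2, .pl 0 1 6 4), (2, .am 5 7 8 9 1 1), (4, .lf 5 7 8 8 5 7), (4, .lf 7 9 0 0 7 9), (1, .pl 1 2 7 5), (4, .lf 9 1 2 2 9 1), (4, .lf 1 3 4 4 1 2), (1, .am 0 5 7 9 1 1), (1, .am 0 1 7 9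 1 1), (2, .am 0 6 7 9 1 1), (4, .pl 2 4 9 7), (4, .lf 4 6 7 7 4 5), (2, .pl 1 2 7 6), (4, .ce 4 6 7 4 7 0), (2, .am 1 7 8 9 1 1), (4, .lf 4 6 7 7 4 6), (2, .lf 2 4 5 5 2 4)]) (.ch 8 (.br 0 5 2 7 2 1 (.br 2 3 7 8 2 1 (.leaf [(32, .cf 0 1 3 0 3 9), (6, .pl 3 4 8 7), (12, .am 0 7 8 9 1 1), (6, .cf 0 1 3 0 3 8), (32, .rt 0 1 3 0 2 3), (60, .lf 4 6 7 7 4 5), (21, .am 0 6 7 9 1 1), (3, .am 0 5 6 7 1 1), (6, .am 2 4 5 6 1 1), (6, .pl 1 2 7 6), (56, .ce 4 6 7 4 7 0), (28, .ce 4 6 7 4 7 9), (18, .lf 2 4 5 5 2 4), (18, .am 0 1 7 8 1 1), (3, .pl 0 1 6 5), (12, .c4 1), (12, .ex 0), (20, .ta 7 1 2), (12, .pl 0 1 6 4), (3, .am 1 2 7 5 1 1), (15, .am 0 5 7 9 1 1), (6, .lf 1 3 4 4 1 3), (18, .ex 1), (30, .am 5 7 8 9 1 1), (36, .lf 8 0 1 1 8 0),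 (42, .lf 6 8 9 9 6 8), (3, .am 0 1 2 7 1 1), (60, .lf 5 7 8 8 5 7), (30, .lf 4 6 7 7 4 6), (6, .lf 1 3 4 4 1 2), (6, .pl 0 3 7 8)]) (.pr 2 3 (.leaf [(4, .lf 8 0 1 2 8 0), (8, .ce 4 6 7 4 7 9), (4, .rt 0 1 3 0 2 3), (6, .lf 2 4 5 5 1 4), (12, .lf 4 6 7 7 4 5), (16, .ce 4 6 7 4 7 0), (2, .am 2 7 8 9 1 1), (3, .am 0 5 7 9 1 1), (6, .pl 0 1 6 5), (4, .cf 0 1 3 0 3 9), (6, .rt 2 3 6 2 3 6), (4, .am 1 7 8 9 1 1), (2, .am 0 1 7 9 1 1), (1, .am 0 2 7 9 1 1), (6, .pl 1 2 7 6), (12, .lf 5 7 8 8 5 7), (4, .ta 7 1 2), (3, .ex 1), (6, .c4 1), (12, .lf 6 8 9 9 6 8), (6, .am 0 6 7 9 1 1), (6, .am 5 7 8 9 1 1), (8, .lf 8 0 1 1 8 0), (12, .lf 4 6 7 7 4 6)]) (.br 2 6 4 7 3 1 (.leaf [(36, .pl 0 2 6 4), (148, .ce 4 6 7 4 7 0), (71, .ce 4 6 7 4 7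 9), (18, .am 4 5 6 7 1 1), (78, .am 5 7 8 9 1 1), (30, .am 0 7 8 9 1 1), (129, .lf 4 6 7 7 4 5), (12, .cf 0 1 3 0 3 8), (18, .lf 2 4 5 5 2 4), (54, .am 0 6 7 9 1 1), (96, .lf 8 0 1 2 8 0), (52, .ta 7 1 2), (48, .am 0 2 7 8 1 1), (48, .ex 2), (108, .lf 6 8 9 9 6 8), (36, .ex 0), (27, .lf 2 5 6 6 2 5), (156, .lf 5 7 8 8 5 7), (9, .am 0 2 6 5 1 1), (85, .cf 0 1 3 0 3 9), (39, .am 0 5 7 9 1 1), (108, .lf 4 6 7 7 4 6), (97, .rt 0 1 3 0 2 3)]) (.leaf [(6, .am 0 6 7 9 1 1), (3, .am 0 2 7 9 1 1), (3, .am 0 5 7 9 1 1), (6, .pl 0 2 6 4), (4, .rt 0 1 3 0 2 3), (12, .lf 6 8 9 9 6 8), (12, .lf 8 0 1 2 8 0), (4, .ta 7 1 2), (6, .ex 0), (16, .ce 4 6 7 4 7 0), (12, .lf 5 7 8 8 5 7), (6, .am 2 7 8 9 1 1), (6, .am 5 7 8 9 1 1), (8, .ce 4 6 7 4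 7 9), (3, .ex 2), (12, .lf 4 6 7 7 4 5), (12, .lf 4 6 7 7 4 6), (4, .cf 0 1 3 0 3 9)])))) (.leaf [(24, .lf 6 8 9 9 5 8), (22, .ce 4 6 7 4 7 9), (48, .lf 4 6 7 7 4 5), (13, .am 4 5 7 9 1 1), (12, .am 5 7 8 9 1 1), (8, .ce 5 7 8 4 9 0), (18, .ex 0), (5, .am 0 5 7 9 1 1), (18, .lf 2 4 5 5 2 4), (24, .lf 5 7 8 8 5 7), (8, .ta 7 1 2), (24, .cf 0 1 3 0 3 8), (2, .cf 0 1 3 0 3 9), (12, .am 0 7 8 9 1 1), (5, .pl 0 9 5 4), (26, .rt 0 1 3 0 2 3)])) (.leaf [(896, .lf 8 0 1 1 8 0), (192, .lf 5 7 8 8 5 7), (224, .am 2 3 8 9 1 1), (1536, .lf 1 3 4 4 1 3), (2688, .lf 2 4 5 5 2 4), (1344, .lf 6 8 9 9 6 8), (48, .am 2 5 4 9 1 1), (999, .pl 2 3 7 8), (1536, .c4 1), (672, .am 0 6 3 9 1 1), (432, .am 2 3 5 6 1 1), (192, .rt 3 4 6 3 5 6), (552, .lf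 0 2 3 3 9 2), (276, .am 1 7 8 9 1 1), (624, .pl 0 9 3 4), (96, .am 3 5 9 8 1 1), (552, .tb 7 1 2), (172, .am 1 3 8 9 1 1), (198, .am 1 2 3 5 1 1), (69, .pl 3 4 8 7), (768, .am 1 2 4 5 1 1), (432, .pl 1 2 5 6), (448, .lf 8 0 1 2 8 0), (69, .am 2 5 4 7 1 1), (138, .am 1 2 7 5 1 1), (3792, .lf 0 2 3 3 0 2), (576, .am 3 4 9 8 1 1), (672, .pl 0 1 6 5), (267, .am 2 3 4 5 1 1), (792, .lf 8 0 1 2 7 0), (1152, .lf 5 7 8 8 4 7), (224, .am 0 1 3 9 1 1), (688, .am 0 2 3 9 1 1)]) (.br 0 5 2 7 2 1 (.br 0 2 3 7 1 2 (.br 0 6 2 7 1 3 (.leaf [(4, .rt 0 1 3 0 2 3), (6, .ex 0), (12, .lf 5 7 8 8 5 7), (12, .lf 8 0 1 2 8 0), (12, .lf 4 6 7 7 4 6), (12, .lf 6 8 9 9 6 8), (3, .ex 2), (12, .lf 4 6 7 7 4 5), (3, .am 0 2 7 9 1 1), (6, .am 0 6 7 9 1 1),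 (16, .ce 4 6 7 4 7 0), (8, .ce 4 6 7 4 7 9), (4, .ta 7 1 2), (6, .am 2 7 8 9 1 1), (4, .cf 0 1 3 0 3 9), (6, .am 5 7 8 9 1 1), (3, .am 0 5 7 9 1 1)]) (.pr 2 3 (.leaf [(244, .lf 4 6 7 7 4 6), (192, .lf 6 8 9 9 6 8), (49, .am 0 1 2 3 1 1), (49, .am 2 4 5 6 1 1), (7, .am 1 2 4 5 1 1), (44, .cf 0 1 3 0 3 9), (148, .ce 4 6 7 4 7 9), (56, .c4 1), (192, .lf 5 7 8 8 5 7), (56, .pl 0 7 2 4), (112, .lf 1 3 4 4 1 2), (64, .rt 0 1 3 0 2 3), (108, .rt 2 3 6 2 3 6), (48, .am 0 5 7 9 1 1), (98, .pl 0 1 6 4), (48, .ex 2), (112, .lf 2 4 5 5 2 4), (64, .ta 7 1 2), (42, .am 0 1 3 7 1 1), (28, .am 0 1 7 9 1 1), (7, .pl 0 1 6 5), (48, .ex 1), (40, .am 0 7 8 9 1 1), (24, .cf 0 1 3 0 3 8), (232, .ce 4 6 7 4 7 0), (96, .am 0 6 7 9 1 1), (3, .am 0 3 2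 6 1 1), (56, .am 1 7 8 9 1 1), (56, .ta 8 1 2), (6, .am 0 6 3 7 1 1), (96, .am 5 7 8 9 1 1), (192, .lf 4 6 7 7 4 5), (160, .ex 0)]) (.leaf [(1, .am 0 2 6 5 1 1), (14, .rt 0 1 3 0 2 3), (8, .ex 2), (4, .am 4 6 7 9 1 1), (8, .ta 7 1 2), (16, .lf 4 6 7 7 4 6), (4, .am 0 6 7 9 1 1), (24, .lf 5 7 8 8 5 7), (5, .ex 0), (14, .cf 0 1 3 0 3 9), (2, .am 4 5 6 7 1 1), (1, .am 0 5 6 7 1 1), (16, .lf 6 8 9 9 6 8), (4, .ce 5 7 8 4 9 0), (2, .lf 2 4 5 5 2 4), (12, .am 5 7 8 9 1 1), (6, .am 0 5 7 9 1 1), (8, .am 0 2 7 8 1 1), (20, .ce 4 6 7 4 7 0), (10, .ce 4 6 7 4 7 9), (4, .am 0 7 8 9 1 1), (16, .lf 8 0 1 2 8 0), (4, .lf 2 5 6 6 2 5), (20, .lf 4 6 7 7 4 5)]))) (.leaf [(222, .am 0 7 8 9 1 1), (39, .am 0 1 2 3 1 1), (248, .rt 0 1 3 0 2 3), (227,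 .cf 0 1 3 0 3 9), (445, .ce 4 6 7 4 7 9), (192, .ex 0), (102, .am 2 4 5 6 1 1), (114, .am 0 1 7 8 1 1), (228, .lf 2 4 5 5 2 4), (530, .ce 4 6 7 4 7 0), (168, .am 0 5 7 9 1 1), (224, .ta 7 1 2), (27, .pl 0 1 6 5), (114, .pl 1 2 7 6), (672, .lf 4 6 7 7 4 5), (78, .ta 8 1 2), (192, .ex 1), (204, .pl 0 1 6 4), (405, .lf 4 6 7 7 4 6), (558, .lf 6 8 9 9 6 8), (12, .am 0 2 6 5 1 1), (27, .lf 2 4 5 5 1 4), (252, .cf 0 1 3 0 3 8), (102, .pl 0 7 2 4), (204, .lf 1 3 4 4 1 2), (279, .am 0 6 7 9 1 1), (72, .lf 8 0 1 1 8 0), (12, .am 0 5 6 7 1 1), (672, .lf 5 7 8 8 5 7), (153, .c4 1), (336, .am 5 7 8 9 1 1)])) (.leaf [(5, .am 0 5 7 9 1 1), (18, .lf 2 4 5 5 2 4), (24, .lf 6 8 9 9 5 8), (12, .am 5 7 8 9 1 1), (5, .pl 0 9 5 4), (48, .lf 4 6 7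 7 4 5), (2, .cf 0 1 3 0 3 9), (18, .ex 0), (22, .ce 4 6 7 4 7 9), (8, .ta 7 1 2), (8, .ce 5 7 8 4 9 0), (24, .lf 5 7 8 8 5 7), (24, .cf 0 1 3 0 3 8), (13, .am 4 5 7 9 1 1), (26, .rt 0 1 3 0 2 3), (12, .am 0 7 8 9 1 1)])) (.leaf [(1, .rt 0 1 3 0 2 3), (1, .lf 6 8 9 9 6 8), (1, .rt 0 1 3 0 1 3), (1, .pl 0 9 7 4), (2, .lf 5 7 8 8 4 7), (1, .c4 1), (3, .ce 4 6 7 4 7 9), (1, .lf 4 6 7 7 4 6), (1, .lf 6 8 9 9 6 7), (1, .am 0 6 7 9 1 1), (1, .am 4 7 8 9 1 1), (1, .pl 0 1 6 5), (1, .ta 7 1 2), (1, .am 0 7 8 9 1 1), (1, .c4 8), (1, .lf 2 4 5 5 1 4), (2, .cf 0 1 3 0 3 8)])) (.leaf [(4, .am 0 1 7 8 1 1), (5, .am 4 5 7 9 1 1), (3, .am 0 5 7 9 1 1), (16, .lf 6 8 9 9 5 8), (12, .lf 2 4 5 5 2 4), (4, .am 1 4 8 7 1 1), (12, .lf 7 9 0 0 7 9),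 (16, .lf 4 6 7 7 4 5), (8, .pl 1 2 7 5), (12, .c4 7), (2, .am 4 7 8 9 1 1), (2, .am 0 7 8 9 1 1), (3, .pl 0 9 5 4), (4, .pl 1 2 4 5), (16, .lf 8 0 1 1 8 0), (4, .ce 5 7 8 4 9 0)]))

def C3543654654_13 : Tr :=
  .pr 1 2 (.pr 3 2 (.pr 2 2 (.ch 7 (.leaf [(2, .lf 8 0 1 1 8 0), (2, .rt 7 8 0 7 8 0), (1, .pl 0 1 7 9), (1, .pl 1 9 8 3), (1, .pl 0 3 7 8), (1, .pl 2 9 8 7), (1, .pl 0 2 3 9), (1, .pl 0 1 2 8)]) (.leaf [(28, .pl 0 9 3 6), (80, .lf 9 1 2 2 9 1), (3, .am 1 2 3 8 1 1), (40, .cf 3 4 6 3 6 1), (4, .am 0 1 3 9 1 1), (44, .ce 5 7 8 4 8 0), (40, .rt 2 3 5 2 3 6), (24, .lf 6 8 9 9 4 8), (17, .am 1 2 7 8 1 1), (40, .cf 3 4 6 2 6 1), (20, .am 1 2 3 9 1 1), (40, .rt 9 0 2 9 0 2), (17, .pl 2 3 7 8), (40, .rt 0 1 3 0 2 3), (68, .lf 7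 9 0 0 7 9), (68, .lf 5 7 8 8 4 7), (12, .rt 3 4 6 3 4 6), (34, .am 0 1 7 8 1 1), (36, .ce 5 7 8 4 9 0), (40, .am 0 2 8 9 1 1), (12, .lf 8 0 1 1 8 9), (2, .am 0 1 3 8 1 1), (12, .am 3 4 9 8 1 1), (28, .lf 6 8 9 9 6 8), (40, .lf 8 0 1 1 8 0)]) (.ch 8 (.br 0 3 1 5 2 1 (.br 0 6 1 7 1 2 (.leaf [(16, .ta 7 1 2), (3, .am 1 2 7 5 1 1), (6, .pl 1 3 7 5), (48, .lf 5 7 8 8 5 7), (6, .lf 4 6 7 7 4 5), (3, .pl 1 5 4 7), (24, .am 1 7 8 9 1 1), (6, .rt 1 2 4 1 2 4), (16, .ce 4 6 7 4 7 0), (4, .cf 0 1 3 0 3 9), (3, .am 0 1 2 3 1 1), (12, .am 0 1 7 9 1 1), (48, .lf 8 0 1 1 8 0), (24, .ex 0), (9, .ex 1), (10, .rt 0 1 3 0 2 3), (48, .ce 5 7 8 5 8 0), (48, .lf 6 8 9 9 6 8), (48, .lf 4 6 7 7 4 6), (24, .am 0 7 8 9 1 1), (6, .rt 2 3 5 2 3 5), (3, .pl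 1 5 4 3), (24, .am 0 6 7 9 1 1), (44, .ce 4 6 7 4 7 9), (3, .pl 2 3 7 4)]) (.br 0 3 1 5 1 2 (.leaf [(100, .am 1 7 8 9 1 1), (49, .am 1 2 7 5 1 1), (3, .pl 2 3 7 5), (130, .ce 4 6 7 4 7 9), (46, .pl 1 3 7 5), (98, .rt 0 1 3 0 1 3), (98, .lf 4 6 7 7 4 5), (20, .tb 7 1 2), (98, .rt 2 3 5 2 3 5), (23, .am 0 1 2 3 1 1), (40, .ce 4 6 7 4 7 0), (72, .rt 1 2 4 1 2 4), (90, .lf 7 9 0 0 7 8), (72, .pl 1 5 4 3), (44, .am 0 1 7 9 1 1), (110, .ce 5 7 8 4 8 0), (10, .am 0 7 8 9 1 1), (110, .rt 8 9 1 8 9 1), (72, .pl 2 3 7 4), (121, .ex 0), (90, .lf 8 0 1 1 8 0), (26, .am 0 2 7 9 1 1), (110, .lf 5 7 8 8 4 7), (12, .rt 9 0 2 9 1 2)]) (.br 0 4 5 9 3 1 (.br 0 3 1 4 1 2 (.leaf [(50, .lf 7 9 0 0 7 8), (56, .am 5 7 8 9 1 1), (110, .lf 6 8 9 9 5 8),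 (70, .am 1 7 8 9 1 1), (160, .ce 4 6 7 4 7 0), (4, .am 6 7 8 9 1 1), (16, .lf 4 6 7 7 4 6), (16, .rt 2 3 5 2 3 6), (30, .ta 7 1 2), (20, .rt 8 9 1 8 9 1), (4, .rt 2 3 5 2 3 5), (110, .lf 5 7 8 8 5 7), (10, .am 0 2 7 8 1 1), (2, .am 0 6 7 9 1 1), (110, .ce 4 6 7 4 7 9), (160, .lf 8 0 1 1 8 0), (10, .ex 3), (224, .lf 4 6 7 7 4 5), (83, .am 0 5 7 9 1 1), (30, .ce 5 7 8 4 8 0), (75, .pl 1 3 7 5), (10, .am 0 1 2 8 1 1), (30, .lf 5 7 8 8 4 7), (8, .am 1 2 8 6 1 1), (2, .am 1 2 8 5 1 1), (30, .pl 1 3 7 4), (85, .ex 2), (30, .ex 0), (30, .rt 1 2 4 1 2 4), (10, .am 0 1 2 3 1 1), (2, .pl 0 5 6 1), (20, .rt 0 1 3 0 1 3), (10, .pl 2 3 7 5), (35, .am 0 1 7 9 1 1)]) (.br 0 6 1 7 1 1 (.leaf [(3, .ex 1), (6, .am 0 6 7 9 1 1), (6, .am 1 7 8 9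 1 1), (3, .am 0 1 7 9 1 1), (16, .ce 4 6 7 4 7 0), (12, .lf 8 0 1 1 8 0), (12, .lf 6 8 9 9 6 8), (3, .pl 1 3 7 4), (8, .ce 4 6 7 4 7 9), (6, .ex 0), (12, .lf 5 7 8 8 4 7), (4, .cf 0 1 3 0 3 9), (3, .am 0 4 7 9 1 1), (12, .lf 4 6 7 7 4 6), (4, .ta 7 1 2), (4, .rt 0 1 3 0 2 3), (6, .am 4 7 8 9 1 1)]) (.leaf [(308, .ce 4 6 7 4 7 0), (40, .am 0 2 7 8 1 1), (96, .am 0 1 7 9 1 1), (80, .ta 7 1 2), (188, .lf 6 8 9 9 4 8), (20, .pl 2 3 7 8), (52, .rt 2 3 5 2 3 6), (49, .lf 4 6 7 7 4 6), (3, .lf 7 9 0 0 4 6), (14, .am 1 2 8 5 1 1), (26, .am 1 2 8 6 1 1), (14, .pl 1 6 5 8), (6, .am 6 7 8 9 1 1), (308, .lf 5 7 8 8 4 7), (3, .am 0 6 1 9 1 1), (20, .am 1 3 8 9 1 1), (40, .am 0 2 3 9 1 1), (68, .am 1 7 8 9 1 1), (164, .pl 1 3 7 4), (40, .am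 1 2 8 4 1 1), (80, .rt 1 2 4 1 2 4), (68, .lf 7 9 0 0 7 8), (20, .pl 2 3 7 4), (80, .rt 0 1 3 0 1 3), (264, .ex 0), (174, .am 4 7 8 9 1 1), (256, .lf 8 0 1 1 8 0), (320, .ce 4 6 7 4 7 9), (101, .am 0 4 1 9 1 1), (28, .ce 5 7 8 5 8 0), (184, .ex 1), (28, .rt 2 3 5 2 3 5), (80, .am 0 4 2 9 1 1), (221, .pl 1 6 4 7), (80, .rt 8 9 1 8 9 1)]))) (.leaf [(220, .lf 8 0 1 1 8 0), (100, .pl 1 3 7 5), (4, .am 6 7 8 9 1 1), (2, .pl 0 5 6 1), (30, .am 0 1 7 9 1 1), (190, .lf 5 7 8 8 5 7), (4, .rt 2 3 5 2 3 5), (20, .ce 5 7 8 5 8 0), (40, .ex 0), (2, .am 0 6 7 9 1 1), (16, .rt 2 3 5 2 3 6), (20, .rt 8 9 1 8 9 1), (10, .ex 2), (70, .lf 7 9 0 0 7 8), (40, .ce 5 7 8 4 9 0), (2, .am 1 2 8 5 1 1), (324, .lf 4 6 7 7 4 5), (150, .lf 6 8 9 9 5 8), (20,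 .rt 0 1 3 0 1 3), (8, .am 1 2 8 6 1 1), (5, .am 1 3 8 9 1 1), (20, .am 0 2 7 8 1 1), (10, .am 0 1 3 9 1 1), (40, .ta 7 1 2), (16, .lf 4 6 7 7 4 6), (140, .ce 4 6 7 4 7 9), (75, .am 1 7 8 9 1 1), (120, .ex 1), (118, .am 0 5 7 9 1 1), (200, .ce 4 6 7 4 7 0), (20, .pl 2 3 7 5), (86, .am 5 7 8 9 1 1), (30, .am 0 1 2 8 1 1), (5, .pl 1 3 7 8), (40, .rt 1 2 4 1 2 4), (40, .pl 0 1 5 4)])))) (.leaf [(9, .pl 1 3 7 5), (16, .ce 4 6 7 4 7 0), (4, .ta 7 1 2), (6, .am 1 7 8 9 1 1), (8, .ce 4 6 7 4 7 9), (12, .lf 5 7 8 8 5 7), (6, .am 5 7 8 9 1 1), (12, .lf 6 8 9 9 5 8), (9, .am 0 5 7 9 1 1), (4, .rt 0 1 3 0 2 3), (3, .am 0 1 7 9 1 1), (12, .lf 8 0 1 1 8 0), (24, .lf 4 6 7 7 4 5), (4, .cf 0 1 3 0 3 9), (9, .ex 0)])) (.leaf [(40, .lf 0 2 3 3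 0 2), (24, .ce 6 8 9 6 9 0), (20, .am 0 2 3 9 1 1), (24, .lf 5 7 8 8 4 7), (10, .lf 8 0 1 2 7 0), (12, .ce 4 6 7 4 7 9), (24, .lf 8 0 1 2 8 0), (12, .am 4 7 8 9 1 1), (12, .ce 5 7 8 4 9 0), (14, .tb 7 1 2), (1, .am 2 7 8 9 1 1), (11, .am 2 3 8 9 1 1), (2, .lf 0 2 3 3 9 2), (11, .pl 2 3 7 8), (24, .lf 6 8 9 9 6 8)]) (.br 0 4 1 7 2 1 (.br 0 6 1 7 1 2 (.leaf [(6, .am 4 7 8 9 1 1), (8, .ce 4 6 7 4 7 9), (4, .rt 0 1 3 0 2 3), (6, .am 0 6 7 9 1 1), (12, .lf 6 8 9 9 6 8), (4, .ta 7 1 2), (6, .am 1 7 8 9 1 1), (12, .lf 4 6 7 7 4 6), (3, .ex 1), (3, .am 0 4 7 9 1 1), (4, .cf 0 1 3 0 3 9), (16, .ce 4 6 7 4 7 0), (12, .lf 8 0 1 1 8 0), (3, .am 0 1 7 9 1 1), (6, .ex 0), (12, .lf 5 7 8 8 4 7)]) (.br 0 3 1 6 1 1 (.leaf [(12, .ce 4 6 7 4 7 0),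 (2, .rt 2 3 5 2 3 6), (1, .am 0 1 2 3 1 1), (2, .ta 8 1 2), (4, .am 4 7 8 9 1 1), (4, .lf 8 0 1 1 8 0), (1, .am 1 2 3 6 1 1), (2, .lf 7 9 0 0 7 8), (1, .ex 0), (2, .lf 4 6 7 7 4 6), (6, .ce 4 6 7 4 7 9), (6, .ex 2), (2, .am 0 1 7 9 1 1), (6, .am 0 4 7 9 1 1), (2, .ta 7 1 2), (2, .ex 1), (8, .lf 5 7 8 8 4 7), (8, .lf 6 8 9 9 4 8), (2, .rt 1 2 4 1 2 6), (2, .cf 3 4 6 3 6 1), (4, .am 1 7 8 9 1 1)]) (.leaf [(146, .am 0 1 7 9 1 1), (923, .lf 6 8 9 9 6 8), (713, .ce 4 6 7 4 7 9), (114, .am 0 7 8 9 1 1), (12, .pl 2 3 7 8), (262, .rt 2 3 5 2 3 6), (232, .am 0 4 7 9 1 1), (12, .am 1 3 8 9 1 1), (267, .pl 1 6 4 7), (88, .cf 0 1 3 0 3 9), (464, .am 4 7 8 9 1 1), (350, .cf 3 4 6 3 6 1), (5, .am 6 7 8 9 1 1), (267, .ta 7 1 2), (5, .am 0 2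 7 8 1 1), (350, .ta 8 1 2), (1317, .ce 4 6 7 4 7 0), (398, .ex 1), (136, .am 0 1 2 3 1 1), (127, .lf 7 9 0 0 7 8), (464, .am 0 6 7 9 1 1), (464, .ex 0), (835, .lf 4 6 7 7 4 6), (114, .pl 2 3 7 6), (24, .am 0 1 3 9 1 1), (10, .am 1 2 8 6 1 1), (232, .ex 2), (328, .am 1 7 8 9 1 1), (267, .rt 1 2 4 1 2 4), (928, .lf 5 7 8 8 4 7), (121, .am 1 2 7 6 1 1)]))) (.br 0 5 1 7 2 1 (.leaf [(452, .ce 4 6 7 4 7 9), (472, .ex 1), (100, .lf 6 8 9 9 6 8), (108, .tb 7 1 2), (36, .am 0 2 7 8 1 1), (148, .ta 7 1 2), (100, .cf 0 1 3 0 3 9), (816, .lf 5 7 8 8 5 7), (472, .rt 1 2 4 1 2 4), (25, .am 3 5 9 8 1 1), (372, .am 1 7 8 9 1 1), (1588, .ce 4 6 7 4 7 0), (72, .pl 1 7 3 2), (580, .am 0 5 7 9 1 1), (752, .lf 6 8 9 9 5 8), (186, .am 0 1 7 9 1 1),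 (383, .am 5 7 8 9 1 1), (50, .pl 0 5 6 3), (372, .ta 8 1 2), (272, .rt 2 3 5 2 3 5), (200, .am 0 1 2 3 1 1), (50, .am 0 6 3 9 1 1), (72, .am 0 2 8 9 1 1), (1568, .lf 4 6 7 7 4 5), (100, .cf 3 4 6 3 6 1), (272, .cf 2 3 5 2 5 1), (264, .lf 7 9 0 0 7 8), (36, .am 0 2 7 9 1 1), (25, .pl 3 5 8 7), (630, .ex 0)]) (.leaf [(1, .pl 3 5 8 7), (8, .am 0 2 3 8 1 1), (19, .ex 0), (16, .tb 7 1 2), (9, .pl 2 3 7 8), (28, .lf 7 9 0 0 7 8), (30, .ex 1), (44, .ce 5 7 8 5 8 0), (2, .am 0 1 2 3 1 1), (32, .lf 6 8 9 9 4 8), (20, .ta 8 1 2), (30, .rt 1 2 4 1 2 4), (18, .rt 0 1 3 0 2 3), (16, .am 0 7 8 9 1 1), (18, .am 0 1 7 8 1 1), (9, .am 0 1 2 7 1 1), (16, .am 0 2 8 9 1 1), (18, .lf 4 6 7 7 4 5), (16, .ce 4 6 7 4 7 9), (19, .am 1 2 3 5 1 1), (20,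 .rt 3 4 6 3 5 6), (2, .am 0 1 3 8 1 1), (20, .cf 3 4 6 3 6 1), (44, .lf 5 7 8 8 5 7), (32, .ce 4 6 7 4 7 0), (32, .ce 5 7 8 4 9 0), (38, .rt 2 3 5 2 3 5)]))) (.br 0 3 1 4 1 2 (.leaf [(20, .tb 7 1 2), (20, .pl 2 3 7 4), (62, .ex 0), (21, .am 0 1 2 3 1 1), (28, .am 1 7 8 9 1 1), (14, .am 0 1 7 9 1 1), (62, .rt 1 2 4 1 2 4), (42, .pl 1 3 7 4), (26, .ce 4 6 7 4 7 9), (41, .c4 8), (2, .ta 7 1 2), (56, .lf 8 0 1 1 8 0), (20, .am 0 2 7 9 1 1), (13, .am 0 7 8 9 1 1), (41, .rt 0 1 3 0 1 3), (41, .lf 5 7 8 8 5 7), (41, .ce 5 7 8 5 8 0), (15, .lf 7 9 0 0 7 8), (36, .ce 4 6 7 4 7 0)]) (.br 0 3 1 4 1 1 (.leaf [(1, .ex 1), (8, .c4 8), (4, .lf 5 7 8 8 5 7), (2, .am 4 7 8 9 1 1), (4, .am 0 1 2 3 1 1), (3, .am 0 1 7 9 1 1), (12, .rt 1 2 4 1 2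 4), (4, .lf 7 9 0 0 7 8), (9, .pl 1 3 7 4), (12, .ex 0), (4, .ce 5 7 8 5 8 0), (4, .lf 5 7 8 8 4 7), (12, .lf 8 0 1 1 8 0), (12, .ce 4 6 7 4 7 0), (1, .am 0 4 7 9 1 1), (4, .ce 4 6 7 4 7 9), (4, .am 0 2 7 9 1 1), (4, .pl 2 3 7 4), (6, .am 1 7 8 9 1 1), (4, .tb 7 1 2), (8, .rt 0 1 3 0 1 3)]) (.leaf [(9, .pl 1 3 7 4), (12, .lf 5 7 8 8 4 7), (4, .rt 0 1 3 0 2 3), (9, .ex 0), (6, .am 4 7 8 9 1 1), (16, .ce 4 6 7 4 7 0), (4, .cf 0 1 3 0 3 9), (3, .am 0 1 7 9 1 1), (6, .am 1 7 8 9 1 1), (12, .lf 6 8 9 9 4 8), (12, .lf 8 0 1 1 8 0), (8, .ce 4 6 7 4 7 9), (4, .ta 7 1 2), (9, .am 0 4 7 9 1 1)])))) (.leaf [(5, .am 1 2 7 8 1 1), (10, .am 0 2 8 9 1 1), (6, .am 0 1 2 8 1 1), (30, .lf 8 0 1 1 8 0), (20, .rt 9 0 2 9 0 2), (10, .am 0 1 7 8 1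 1), (20, .lf 7 9 0 0 7 9), (30, .ce 5 7 8 4 9 0), (1, .am 1 2 3 8 1 1), (20, .c4 7), (30, .lf 6 8 9 9 4 8), (2, .am 0 2 3 8 1 1), (8, .rt 0 1 3 0 1 3), (5, .pl 2 3 7 8), (2, .am 0 1 3 8 1 1), (8, .cf 2 3 5 2 5 1), (8, .rt 2 3 5 2 3 5)])) (.leaf [(2, .am 1 7 8 9 1 1), (1, .lf 2 4 5 5 2 4), (4, .lf 4 6 7 7 4 6), (1, .pl 0 1 5 4), (2, .am 0 6 7 9 1 1), (4, .lf 6 8 9 9 6 8), (4, .lf 4 6 7 7 4 5), (2, .lf 2 4 5 6 2 4), (4, .lf 8 0 1 1 8 0), (2, .pl 1 2 7 6), (4, .ce 4 6 7 4 7 9), (1, .am 0 5 7 9 1 1), (3, .rt 1 2 4 1 2 4), (1, .pl 1 2 7 5), (2, .pl 0 1 6 4), (4, .lf 5 7 8 8 5 7), (4, .lf 7 9 0 0 7 9), (1, .am 0 1 7 9 1 1), (4, .ce 4 6 7 4 7 0), (2, .am 5 7 8 9 1 1)])) (.leaf [(7, .rt 1 2 4 1 3 5), (6, .am 0 6 7 9 1 1), (4, .am 6 7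 8 9 1 1), (18, .lf 5 7 8 8 5 7), (18, .ce 4 6 7 4 7 9), (4, .am 0 1 8 9 1 1), (18, .ce 5 7 8 5 8 0), (24, .lf 4 6 7 7 4 6), (8, .am 1 7 8 9 1 1), (8, .am 0 6 8 9 1 1), (24, .lf 8 0 1 1 8 0), (24, .lf 6 8 9 9 6 8), (7, .pl 0 1 6 5), (18, .lf 7 9 0 0 7 9), (7, .lf 3 5 6 6 2 5), (7, .pl 1 3 7 6), (6, .am 0 1 7 8 1 1), (7, .rt 1 2 4 1 2 4), (6, .ce 4 6 7 4 7 0), (7, .lf 3 5 6 6 3 4), (7, .pl 1 2 7 6), (7, .pl 0 1 6 4)])) (.pr 3 2 (.pr 2 2 C3543654654_11 C3543654654_12) (.pr 2 2 (.leaf [(9, .ce 4 6 7 4 7 9), (9, .ce 5 7 8 5 8 0), (2, .am 6 7 8 9 1 1), (12, .lf 6 8 9 9 6 8), (3, .ce 4 6 7 4 7 0), (3, .am 0 1 7 8 1 1), (7, .lf 3 5 6 6 3 5), (7, .rt 2 3 5 1 3 5), (9, .lf 7 9 0 0 7 9), (4, .am 0 6 8 9 1 1), (12, .lf 8 0 1 1 8 0), (7, .pl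 0 1 6 5), (9, .lf 5 7 8 8 5 7), (7, .pl 1 3 7 6), (12, .lf 4 6 7 7 4 6), (3, .am 0 6 7 9 1 1), (2, .am 0 1 8 9 1 1), (4, .am 1 7 8 9 1 1)]) (.ch 7 (.leaf [(1, .rt 7 8 0 7 8 0), (1, .pl 0 1 3 8), (1, .lf 8 0 1 1 8 0), (1, .pl 0 3 7 8)]) (.leaf [(56, .lf 5 7 8 8 5 7), (4, .am 4 6 7 9 1 1), (7, .pl 1 9 5 6), (35, .pl 1 3 5 6), (8, .am 2 4 9 8 1 1), (28, .lf 8 0 1 1 8 9), (20, .am 0 3 8 9 1 1), (56, .lf 1 3 4 4 1 2), (16, .pl 3 4 9 7), (28, .lf 9 1 2 2 9 1), (28, .cf 0 1 3 0 3 8), (28, .lf 1 3 4 4 1 3), (21, .am 1 7 8 9 1 1), (24, .am 0 6 7 9 1 1), (21, .pl 1 3 7 6), (12, .pl 3 4 8 7), (12, .pl 0 9 5 4), (56, .lf 9 1 2 3 9 1), (8, .pl 0 3 7 8), (56, .lf 7 9 0 0 7 9), (14, .am 1 5 4 8 1 1), (56, .lf 3 5 6 6 3 5), (56, .lf 4 6 7 7 4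 6), (56, .lf 2 4 5 5 2 4), (56, .lf 6 8 9 9 6 8), (12, .pl 2 4 9 7), (2, .am 4 5 6 8 1 1), (12, .am 0 5 6 8 1 1), (8, .pl 2 4 8 7), (28, .am 1 2 4 5 1 1), (7, .am 6 7 8 9 1 1)]) (.ch 8 (.br 0 6 2 7 1 2 (.leaf [(2, .ta 7 1 2), (4, .lf 8 0 1 2 8 0), (6, .ce 4 6 7 4 7 9), (6, .lf 5 7 8 8 5 7), (2, .rt 0 1 3 0 2 3), (4, .am 0 7 8 9 1 1), (6, .ce 5 7 8 5 8 0), (6, .lf 4 6 7 7 4 6), (3, .ex 0), (3, .am 0 6 7 9 1 1), (2, .cf 0 1 3 0 3 8), (1, .am 0 2 7 9 1 1), (2, .am 2 7 8 9 1 1), (6, .lf 6 8 9 9 6 8)]) (.leaf [(1, .am 2 4 5 6 1 1), (12, .cf 0 1 3 0 3 8), (2, .am 0 2 6 5 1 1), (6, .lf 2 4 5 5 2 4), (9, .lf 4 6 7 7 4 5), (1, .pl 0 2 5 4), (6, .ex 0), (3, .lf 3 5 6 6 2 5), (1, .pl 0 9 5 4), (12, .lf 4 6 7 7 4 6), (12, .lf 5 7 8 8 5 7),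 (6, .am 5 7 8 9 1 1), (4, .ta 7 1 2), (4, .am 0 6 7 9 1 1), (13, .rt 0 1 3 0 2 3), (6, .am 0 7 8 9 1 1), (11, .ce 4 6 7 4 7 9), (3, .am 4 5 7 9 1 1), (12, .lf 6 8 9 9 6 8), (1, .cf 0 1 3 0 3 9), (2, .am 4 6 7 9 1 1), (4, .ce 5 7 8 4 9 0)])) (.leaf [(96, .lf 6 8 9 9 5 8), (19, .am 4 7 8 9 1 1), (13, .am 3 4 9 8 1 1), (93, .pl 1 3 5 6), (26, .pl 2 3 7 8), (64, .lf 5 7 8 8 4 7), (7, .am 1 3 8 9 1 1), (122, .lf 0 2 3 3 0 1), (8, .pl 1 3 7 8), (26, .lf 8 0 1 2 7 0), (14, .am 0 1 3 9 1 1), (70, .tb 7 1 2), (32, .lf 5 7 8 8 5 7), (210, .lf 0 2 3 3 0 2), (82, .lf 8 0 1 2 8 0), (8, .am 1 5 4 7 1 1), (128, .lf 3 5 6 6 3 5), (14, .lf 8 0 1 1 8 0), (108, .am 0 2 3 9 1 1), (35, .am 0 5 2 9 1 1), (27, .pl 3 4 8 7), (41, .am 2 3 8 9 1 1), (35,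 .pl 0 9 5 4), (18, .pl 0 9 3 4), (21, .am 1 5 4 9 1 1), (70, .cf 0 1 3 0 3 9), (16, .am 5 7 8 9 1 1), (35, .pl 2 3 5 6), (58, .lf 1 3 4 4 1 3), (64, .lf 2 4 5 5 1 4)]) (.br 0 6 2 7 1 2 (.leaf [(6, .lf 5 7 8 8 5 7), (6, .ce 4 6 7 4 7 9), (2, .ta 7 1 2), (2, .rt 0 1 3 0 2 3), (3, .am 0 6 7 9 1 1), (4, .lf 8 0 1 2 8 0), (6, .ce 5 7 8 5 8 0), (2, .cf 0 1 3 0 3 8), (2, .am 2 7 8 9 1 1), (6, .lf 6 8 9 9 6 8), (4, .am 0 7 8 9 1 1), (1, .am 0 2 7 9 1 1), (3, .ex 0), (6, .lf 4 6 7 7 4 6)]) (.leaf [(11, .ce 4 6 7 4 7 9), (1, .pl 0 9 5 4), (2, .am 4 6 7 9 1 1), (1, .cf 0 1 3 0 3 9), (1, .am 2 4 5 6 1 1), (6, .am 5 7 8 9 1 1), (2, .am 0 2 6 5 1 1), (6, .ex 0), (12, .lf 5 7 8 8 5 7), (4, .ta 7 1 2), (6, .am 0 7 8 9 1 1), (6, .lf 2 4 5 5 2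 4), (3, .lf 3 5 6 6 2 5), (9, .lf 4 6 7 7 4 5), (1, .pl 0 2 5 4), (12, .cf 0 1 3 0 3 8), (13, .rt 0 1 3 0 2 3), (12, .lf 6 8 9 9 6 8), (12, .lf 4 6 7 7 4 6), (4, .am 0 6 7 9 1 1), (4, .ce 5 7 8 4 9 0), (3, .am 4 5 7 9 1 1)])) (.br 2 6 4 7 3 1 (.leaf [(6, .lf 2 4 5 5 2 4), (4, .ce 4 6 7 4 7 0), (12, .lf 6 8 9 9 6 8), (6, .am 0 6 7 9 1 1), (3, .am 0 5 7 9 1 1), (13, .rt 0 1 3 0 2 3), (1, .cf 0 1 3 0 3 9), (12, .lf 4 6 7 7 4 6), (4, .ta 7 1 2), (11, .ce 4 6 7 4 7 9), (9, .lf 4 6 7 7 4 5), (6, .am 5 7 8 9 1 1), (12, .lf 5 7 8 8 5 7), (6, .pl 0 2 5 4), (6, .ex 0), (3, .lf 3 5 6 6 2 5), (3, .am 0 2 6 5 1 1), (6, .am 0 7 8 9 1 1), (12, .cf 0 1 3 0 3 8)]) (.leaf [(2, .pl 0 2 6 4), (1, .ta 7 1 2), (4, .lf 4 6 7 7 4 6), (1, .rt 0 1 3 0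 2 3), (2, .am 0 6 7 9 1 1), (1, .am 0 7 8 9 1 1), (3, .ce 5 7 8 5 8 0), (1, .ce 4 6 7 4 7 0), (4, .lf 6 8 9 9 6 8), (2, .ex 0), (1, .cf 0 1 3 0 3 8), (1, .am 0 2 8 9 1 1), (3, .lf 5 7 8 8 5 7), (3, .ce 4 6 7 4 7 9), (2, .am 2 7 8 9 1 1), (3, .lf 8 0 1 2 8 0)]))) (.leaf [(9, .pl 1 2 7 8), (36, .lf 2 4 5 5 2 4), (20, .ce 5 7 8 4 9 0), (20, .am 0 6 7 9 1 1), (80, .lf 8 0 1 1 8 0), (4, .am 0 2 6 5 1 1), (2, .am 0 1 2 8 1 1), (8, .am 4 6 7 9 1 1), (7, .am 1 2 8 4 1 1), (56, .lf 4 6 7 7 4 6), (6, .am 0 5 6 7 1 1), (10, .am 1 2 4 5 1 1), (10, .am 4 7 8 9 1 1), (18, .am 0 1 7 8 1 1), (10, .pl 0 9 5 4), (4, .am 2 4 5 6 1 1), (60, .lf 7 9 0 0 7 9), (12, .am 4 5 7 9 1 1), (24, .lf 3 5 6 6 2 5), (24, .lf 6 8 9 9 5 8), (60, .c4 7), (56, .lf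 6 8 9 9 6 8), (10, .am 0 7 8 9 1 1), (10, .pl 1 2 5 6), (13, .am 1 4 8 7 1 1), (22, .pl 1 2 7 6)]))))

def C3543654654_14 : Tr :=
  .pr 2 2 (.pr 3 2 (.pr 1 2 (.ch 8 (.leaf [(2, .lf 5 7 8 8 4 7), (7, .lf 9 1 2 2 9 1), (1, .am 0 1 2 9 1 1), (1, .am 0 2 7 8 1 1), (2, .lf 7 9 0 0 7 9), (2, .ce 5 7 8 4 8 9), (1, .am 0 2 3 8 1 1), (2, .rt 2 3 5 2 3 6), (1, .pl 2 3 7 8), (1, .am 0 1 8 9 1 1), (2, .rt 0 1 3 0 1 3), (7, .rt 8 9 1 8 9 1), (2, .cf 2 3 5 2 6 1), (4, .am 1 2 8 9 1 1)]) (.leaf [(13, .pl 3 5 8 7), (128, .am 0 1 2 8 1 1), (208, .rt 3 4 6 3 5 6), (178, .am 1 2 3 9 1 1), (352, .lf 9 1 2 2 9 1), (352, .cf 3 4 6 3 6 1), (92, .am 0 1 7 9 1 1), (144, .lf 6 8 9 9 6 8), (13, .am 5 7 8 9 1 1), (4, .am 0 1 3 9 1 1), (104, .pl 0 9 3 5),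 (91, .am 3 5 9 8 1 1), (78, .pl 2 3 7 8), (32, .am 0 2 7 8 1 1), (40, .am 0 7 8 9 1 1), (144, .pl 0 9 3 6), (384, .lf 7 9 0 0 7 9), (14, .am 1 2 7 9 1 1), (32, .lf 9 1 2 2 9 0), (208, .lf 5 7 8 8 5 7), (32, .am 1 2 7 8 1 1), (80, .lf 7 9 0 0 7 8), (256, .lf 0 2 3 3 0 2), (256, .ce 7 9 0 7 0 2), (224, .lf 8 0 1 1 8 0)]) (.ch 9 (.leaf [(2, .ce 4 6 7 4 7 0), (60, .am 1 2 3 9 1 1), (66, .am 0 1 7 8 1 1), (10, .ce 7 9 0 7 0 1), (200, .lf 9 1 2 2 9 1), (80, .rt 9 0 2 9 0 2), (80, .rt 0 1 3 0 2 3), (35, .am 1 2 7 8 1 1), (148, .lf 7 9 0 0 7 9), (100, .rt 2 3 5 2 3 5), (5, .am 1 2 3 8 1 1), (62, .ce 5 7 8 4 9 0), (35, .pl 2 3 7 8), (80, .pl 0 9 3 6), (110, .cf 3 4 6 3 6 1), (74, .ce 5 7 8 4 8 0), (4, .am 0 1 7 9 1 1), (30, .am 3 4 9 8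 1 1), (112, .lf 6 8 9 9 6 8), (2, .am 4 7 8 9 1 1), (100, .cf 2 3 5 2 5 1), (2, .ce 6 8 9 6 9 0), (52, .lf 8 0 1 1 8 9), (138, .lf 5 7 8 8 4 7), (80, .am 0 2 8 9 1 1), (20, .ta 8 1 2), (30, .pl 3 6 4 9)]) (.pr 9 3 (.leaf [(14, .am 0 1 7 9 1 1), (12, .pl 2 3 7 8), (5, .pl 3 6 8 7), (30, .lf 6 8 9 9 6 8), (10, .ta 8 1 2), (12, .am 1 2 7 9 1 1), (17, .am 0 3 8 9 1 1), (22, .cf 3 4 6 3 6 1), (28, .cf 2 3 5 2 6 1), (28, .rt 2 3 5 2 3 6), (18, .rt 9 0 3 9 0 3), (16, .am 1 2 3 9 1 1), (56, .lf 9 1 2 2 9 1), (17, .pl 0 9 3 6), (40, .lf 5 7 8 8 4 7), (16, .ce 7 9 0 7 0 1), (56, .lf 7 9 0 0 7 9), (40, .ce 5 7 8 4 8 0), (13, .am 0 7 8 9 1 1), (8, .ce 6 8 9 6 9 0), (10, .am 0 1 7 8 1 1), (5, .pl 0 9 7 6)]) (.leaf [(31, .pl 3 4 8 7), (32,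 .lf 8 0 1 1 8 9), (76, .am 0 1 7 8 1 1), (70, .am 1 2 7 9 1 1), (36, .pl 4 9 7 6), (64, .am 0 1 7 9 1 1), (8, .pl 0 9 7 6), (60, .rt 2 3 5 2 3 5), (168, .pl 0 9 3 6), (100, .am 0 1 2 3 1 1), (320, .lf 9 1 2 2 9 1), (200, .lf 9 2 3 3 9 2), (44, .pl 3 6 8 7), (60, .ta 8 1 2), (488, .lf 7 9 0 0 7 9), (90, .am 1 2 3 9 1 1), (320, .cf 3 4 6 3 6 1), (60, .cf 2 3 5 2 5 1), (77, .am 3 4 9 8 1 1), (70, .pl 2 3 7 8), (180, .ce 5 7 8 4 9 0), (67, .am 4 7 8 9 1 1), (200, .ce 7 9 0 7 0 2), (68, .am 0 3 8 9 1 1), (108, .rt 3 4 6 3 4 6), (212, .lf 6 8 9 9 6 8), (288, .lf 5 7 8 8 4 7)])) (.leaf [(262, .pl 2 5 4 9), (75, .ce 4 6 7 4 7 0), (300, .am 0 1 7 9 1 1), (75, .pl 2 5 4 7), (150, .pl 2 3 7 8), (150, .rt 3 4 6 3 4 6), (128, .am 0 2 8 9 1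 1), (128, .lf 6 8 9 9 5 8), (59, .am 3 5 9 8 1 1), (396, .ce 7 9 0 7 0 2), (91, .am 3 4 9 8 1 1), (353, .ce 5 7 8 4 9 0), (342, .ce 7 9 0 7 0 1), (172, .am 0 1 2 8 1 1), (268, .am 1 2 3 9 1 1), (182, .lf 5 7 8 8 4 7), (59, .pl 2 5 4 3), (1188, .lf 7 9 0 0 7 9), (396, .ta 9 1 2), (300, .lf 6 8 9 9 6 8), (150, .am 1 2 7 8 1 1), (90, .am 0 1 2 3 1 1), (300, .pl 0 9 3 6), (450, .cf 3 4 6 3 6 1), (268, .lf 5 7 8 8 5 7), (508, .rt 2 3 5 2 3 6), (75, .am 5 7 8 9 1 1), (396, .cf 2 3 5 2 5 1), (97, .ta 8 1 2), (32, .am 0 1 3 9 1 1), (137, .tb 8 1 2), (75, .am 0 7 8 9 1 1), (508, .cf 2 3 5 2 6 1)]) (.leaf [(31, .lf 7 9 0 0 7 9), (18, .ta 8 1 2), (52, .cf 2 3 5 2 5 1), (10, .am 1 2 3 8 1 1), (1, .am 0 1 3 8 1 1), (53, .c4 9), (22, .pl 3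 4 8 7), (13, .ce 5 7 8 4 8 0), (42, .am 0 2 8 9 1 1), (44, .lf 5 7 8 8 4 7), (22, .lf 4 6 7 7 4 5), (31, .pl 0 8 3 4), (11, .am 0 2 3 8 1 1), (84, .lf 9 1 2 2 9 1), (42, .lf 6 8 9 9 4 8), (22, .pl 1 2 7 5), (22, .am 0 1 7 8 1 1), (42, .ce 5 7 8 4 9 0), (53, .rt 0 1 3 0 2 3), (13, .lf 7 9 0 0 7 8), (74, .rt 2 3 5 2 3 5), (1, .tb 8 1 2)])) (.leaf [(8, .am 1 2 7 9 1 1), (9, .am 0 1 8 9 1 1), (22, .rt 3 4 6 3 5 6), (10, .ce 7 9 0 7 0 3), (4, .am 1 2 3 9 1 1), (48, .lf 7 9 0 0 7 9), (14, .ce 7 9 0 7 2 3), (27, .lf 8 0 1 1 8 0), (2, .pl 0 8 7 4), (2, .am 1 3 8 9 1 1), (12, .am 0 2 8 9 1 1), (22, .lf 5 7 8 8 5 7), (6, .am 0 2 7 8 1 1), (2, .lf 5 7 8 8 4 7), (27, .c4 8), (4, .am 1 7 8 9 1 1), (2, .pl 3 4 8 7), (24, .cf 3 4 6 3 6 1), (48,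 .lf 9 1 2 2 9 1), (9, .am 0 1 2 3 1 1), (12, .am 0 1 7 8 1 1), (2, .rt 3 4 6 3 4 6), (3, .rt 0 1 3 0 1 3), (22, .pl 0 8 3 5)])) (.ch 1 (.ch 8 (.leaf [(1, .am 0 1 2 9 1 1), (4, .am 1 2 8 9 1 1), (7, .lf 9 1 2 2 9 1), (2, .rt 2 3 5 2 3 6), (2, .cf 2 3 5 2 6 1), (2, .rt 8 9 1 8 0 1), (2, .lf 5 7 8 8 4 7), (1, .am 0 1 8 9 1 1), (5, .rt 8 9 1 8 9 1), (2, .rt 0 1 3 0 1 3), (2, .lf 7 9 0 0 7 9), (1, .pl 2 3 7 8), (1, .am 0 2 3 8 1 1), (2, .ce 5 7 8 4 8 0), (1, .am 0 2 7 8 1 1)]) (.leaf [(78, .pl 2 3 7 8), (256, .ce 7 9 0 7 0 2), (13, .pl 3 5 8 7), (40, .am 0 7 8 9 1 1), (208, .lf 5 7 8 8 5 7), (352, .cf 3 4 6 3 6 1), (32, .am 1 2 7 8 1 1), (384, .lf 7 9 0 0 7 9), (128, .am 0 1 2 8 1 1), (144, .pl 0 9 3 6), (32, .am 0 2 7 8 1 1), (144,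 .lf 6 8 9 9 6 8), (13, .am 5 7 8 9 1 1), (92, .am 0 1 7 9 1 1), (208, .rt 3 4 6 3 5 6), (352, .lf 9 1 2 2 9 1), (178, .am 1 2 3 9 1 1), (224, .lf 8 0 1 1 8 0), (256, .lf 0 2 3 3 0 2), (4, .am 0 1 3 9 1 1), (80, .lf 7 9 0 0 7 8), (104, .pl 0 9 3 5), (91, .am 3 5 9 8 1 1), (32, .lf 9 1 2 2 9 0), (14, .am 1 2 7 9 1 1)]) (.pr 9 3 (.leaf [(56, .lf 9 1 2 2 9 1), (12, .am 1 2 7 9 1 1), (17, .am 0 3 8 9 1 1), (22, .lf 6 8 9 9 6 8), (5, .pl 0 3 7 8), (14, .am 0 1 7 9 1 1), (56, .lf 7 9 0 0 7 9), (16, .am 1 2 3 9 1 1), (10, .am 0 1 7 8 1 1), (40, .ce 5 7 8 5 8 0), (10, .ta 8 1 2), (8, .lf 6 8 9 9 4 8), (28, .cf 2 3 5 2 6 1), (16, .ce 7 9 0 7 0 1), (40, .lf 5 7 8 8 5 7), (22, .cf 3 4 6 3 6 1), (12, .pl 2 3 7 8), (13, .am 0 7 8 9 1 1), (22,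 .pl 0 9 3 6), (28, .rt 2 3 5 2 3 6), (18, .rt 9 0 3 9 0 3), (8, .ce 5 7 8 4 9 0)]) (.leaf [(108, .rt 3 4 6 3 5 6), (70, .am 1 2 7 9 1 1), (72, .ce 5 7 8 5 8 0), (212, .pl 0 9 3 6), (488, .lf 7 9 0 0 7 9), (60, .ta 8 1 2), (100, .am 0 1 2 3 1 1), (320, .lf 9 1 2 2 9 1), (64, .am 0 1 7 9 1 1), (75, .pl 0 3 7 8), (108, .am 3 5 9 8 1 1), (70, .pl 2 3 7 8), (60, .rt 2 3 5 2 3 6), (76, .am 0 1 7 8 1 1), (67, .am 0 7 8 9 1 1), (108, .ce 5 7 8 5 9 0), (200, .ce 7 9 0 7 0 2), (90, .am 1 2 3 9 1 1), (288, .lf 5 7 8 8 5 7), (60, .cf 2 3 5 2 6 1), (212, .lf 6 8 9 9 6 8), (32, .lf 8 0 1 1 8 9), (320, .cf 3 4 6 3 6 1), (37, .am 0 3 8 9 1 1), (200, .lf 9 2 3 3 9 2)])) (.leaf [(3, .rt 0 1 3 0 1 3), (2, .lf 5 7 8 8 5 7), (27, .lf 8 0 1 1 8 0),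 (12, .am 0 2 8 9 1 1), (2, .pl 0 8 7 5), (10, .ce 7 9 0 7 0 3), (24, .cf 3 4 6 3 6 1), (4, .am 1 7 8 9 1 1), (2, .am 1 3 8 9 1 1), (4, .am 1 2 3 9 1 1), (22, .lf 5 7 8 8 4 7), (48, .lf 7 9 0 0 7 9), (9, .am 0 1 2 3 1 1), (14, .ce 7 9 0 7 2 3), (6, .am 0 2 7 8 1 1), (22, .pl 0 8 3 4), (2, .rt 3 4 6 3 5 6), (12, .am 0 1 7 8 1 1), (48, .lf 9 1 2 2 9 1), (22, .rt 3 4 6 3 4 6), (27, .c4 8), (2, .pl 3 5 8 7), (8, .am 1 2 7 9 1 1), (9, .am 0 1 8 9 1 1)])) (.leaf [(2, .am 2 4 9 8 1 1), (4, .am 0 2 7 8 1 1), (2, .am 0 2 8 9 1 1), (30, .lf 3 5 6 6 3 5), (22, .rt 2 3 5 2 3 5), (1, .pl 0 9 6 5), (14, .pl 1 2 5 6), (11, .am 2 3 5 6 1 1), (8, .lf 4 6 7 7 4 6), (2, .pl 1 2 4 6), (8, .lf 9 1 2 2 9 1), (3, .pl 0 9 3 5), (8, .lf 7 9 0 0 7 9), (2,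 .pl 0 9 6 4), (2, .am 2 4 8 7 1 1), (2, .am 2 3 4 6 1 1), (8, .lf 9 1 2 2 8 1), (4, .am 5 6 8 9 1 1), (2, .am 4 6 7 8 1 1), (2, .lf 1 3 4 4 1 3), (8, .lf 5 7 8 8 5 7), (8, .lf 3 5 6 6 3 4), (8, .lf 6 8 9 9 6 8), (6, .pl 2 3 7 6), (14, .lf 1 3 4 5 1 3), (3, .am 0 3 2 6 1 1)]) (.ch 8 (.leaf [(1, .am 1 2 3 8 1 1), (2, .am 0 1 7 9 1 1), (4, .lf 5 7 8 8 5 7), (4, .ce 5 7 8 5 8 9), (1, .am 1 2 7 8 1 1), (1, .am 2 3 8 9 1 1), (8, .am 1 2 8 9 1 1), (4, .rt 0 1 3 0 1 3), (4, .lf 7 9 0 0 7 9), (2, .am 0 1 3 9 1 1), (14, .rt 8 9 1 8 9 1), (14, .lf 9 1 2 2 9 1), (4, .rt 2 3 5 2 3 5), (4, .cf 2 3 5 2 5 1), (2, .pl 2 3 7 8), (1, .am 2 7 8 9 1 1)]) (.leaf [(91, .pl 0 9 3 5), (4, .am 0 1 3 9 1 1), (182, .lf 5 7 8 8 5 7), (384, .lf 7 9 0 0 7 9),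 (352, .cf 3 4 6 3 6 1), (256, .ce 7 9 0 7 0 2), (128, .am 0 1 2 8 1 1), (80, .lf 7 9 0 0 7 8), (144, .pl 0 9 3 6), (178, .am 1 2 3 9 1 1), (13, .pl 3 4 8 7), (78, .pl 2 3 7 8), (26, .lf 5 7 8 8 4 7), (256, .lf 0 2 3 3 0 2), (92, .am 0 1 7 9 1 1), (32, .lf 9 1 2 2 9 0), (14, .am 1 2 7 9 1 1), (352, .lf 9 1 2 2 9 1), (26, .rt 3 4 6 3 4 6), (40, .am 0 7 8 9 1 1), (182, .rt 3 4 6 3 5 6), (32, .am 0 2 7 8 1 1), (13, .am 4 7 8 9 1 1), (91, .am 3 5 9 8 1 1), (144, .lf 6 8 9 9 6 8), (32, .am 1 2 7 8 1 1), (224, .lf 8 0 1 1 8 0), (13, .pl 0 9 3 4)]) (.pr 9 3 (.leaf [(10, .ta 8 1 2), (10, .am 0 1 7 8 1 1), (16, .ce 7 9 0 7 0 1), (22, .cf 3 4 6 3 6 1), (12, .pl 2 3 7 8), (48, .ce 5 7 8 5 9 0), (56, .lf 9 1 2 2 9 1), (10, .am 0 7 8 9 1 1),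 (56, .lf 7 9 0 0 7 9), (2, .pl 0 9 7 6), (28, .rt 2 3 5 2 3 5), (25, .lf 6 8 9 9 5 8), (17, .am 3 5 9 8 1 1), (28, .cf 2 3 5 2 5 1), (18, .rt 9 0 3 9 0 3), (12, .am 1 2 7 9 1 1), (40, .lf 5 7 8 8 5 7), (3, .am 5 7 8 9 1 1), (14, .am 0 1 7 9 1 1), (5, .lf 6 8 9 9 6 8), (5, .pl 3 6 8 7), (17, .rt 3 4 6 3 5 6), (3, .pl 5 9 7 6), (16, .am 1 2 3 9 1 1)]) (.leaf [(67, .am 0 7 8 9 1 1), (70, .am 1 2 7 9 1 1), (75, .pl 3 6 8 7), (200, .lf 9 2 3 3 9 2), (144, .rt 3 4 6 3 5 6), (144, .am 3 5 9 8 1 1), (144, .ce 5 7 8 5 9 0), (488, .lf 7 9 0 0 7 9), (60, .cf 2 3 5 2 5 1), (320, .cf 3 4 6 3 6 1), (212, .lf 6 8 9 9 6 8), (100, .am 0 1 2 3 1 1), (75, .pl 0 9 7 6), (90, .am 1 2 3 9 1 1), (320, .lf 9 1 2 2 9 1), (1, .am 0 3 8 9 1 1), (70, .pl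 2 3 7 8), (76, .am 0 1 7 8 1 1), (60, .ta 8 1 2), (64, .am 0 1 7 9 1 1), (288, .lf 5 7 8 8 5 7), (36, .ce 6 8 9 6 9 0), (101, .pl 0 9 3 6), (32, .lf 8 0 1 1 8 9), (60, .rt 2 3 5 2 3 5), (200, .ce 7 9 0 7 0 2)])) (.leaf [(9, .am 0 1 8 9 1 1), (24, .rt 3 4 6 3 5 6), (3, .rt 0 1 3 0 1 3), (2, .am 1 3 8 9 1 1), (10, .ce 7 9 0 7 0 3), (48, .lf 9 1 2 2 9 1), (2, .pl 0 8 7 5), (9, .am 0 1 2 3 1 1), (48, .lf 7 9 0 0 7 9), (8, .am 1 2 7 9 1 1), (4, .am 1 7 8 9 1 1), (12, .am 0 2 8 9 1 1), (14, .ce 7 9 0 7 2 3), (12, .am 0 1 7 8 1 1), (2, .pl 3 5 8 7), (22, .pl 0 8 3 5), (6, .am 0 2 7 8 1 1), (4, .am 1 2 3 9 1 1), (27, .c4 8), (24, .cf 3 4 6 3 6 1), (24, .lf 5 7 8 8 5 7), (27, .lf 8 0 1 1 8 0)])) (.ch 8 (.leaf [(2, .rt 0 1 3 0 1 3), (5,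 .rt 8 9 1 8 9 1), (1, .am 0 2 7 8 1 1), (1, .am 0 1 2 9 1 1), (1, .pl 2 3 7 8), (2, .rt 2 3 5 2 3 6), (2, .ce 5 7 8 4 8 0), (1, .am 0 2 3 8 1 1), (1, .am 0 1 8 9 1 1), (4, .am 1 2 8 9 1 1), (2, .lf 5 7 8 8 4 7), (2, .lf 7 9 0 0 7 9), (7, .lf 9 1 2 2 9 1), (2, .rt 8 9 1 8 0 1), (2, .cf 2 3 5 2 6 1)]) (.leaf [(80, .lf 7 9 0 0 7 8), (256, .lf 0 2 3 3 0 2), (144, .pl 0 9 3 6), (178, .am 1 2 3 9 1 1), (144, .lf 6 8 9 9 6 8), (13, .am 4 7 8 9 1 1), (384, .lf 7 9 0 0 7 9), (128, .am 0 1 2 8 1 1), (224, .lf 8 0 1 1 8 0), (91, .am 3 4 9 8 1 1), (352, .lf 9 1 2 2 9 1), (4, .am 0 1 3 9 1 1), (352, .cf 3 4 6 3 6 1), (32, .am 0 2 7 8 1 1), (208, .lf 5 7 8 8 4 7), (40, .am 0 7 8 9 1 1), (208, .rt 3 4 6 3 4 6), (32, .am 1 2 7 8 1 1), (32, .lf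 9 1 2 2 9 0), (92, .am 0 1 7 9 1 1), (78, .pl 2 3 7 8), (104, .pl 0 9 3 4), (14, .am 1 2 7 9 1 1), (13, .pl 3 4 8 7), (256, .ce 7 9 0 7 0 2)]) (.pr 9 3 (.leaf [(5, .am 4 7 8 9 1 1), (5, .pl 4 9 7 6), (40, .lf 5 7 8 8 4 7), (16, .am 1 2 3 9 1 1), (2, .pl 0 9 3 6), (8, .am 0 7 8 9 1 1), (28, .cf 2 3 5 2 5 1), (2, .am 0 3 8 9 1 1), (18, .rt 9 0 3 9 0 3), (12, .pl 2 3 7 8), (22, .cf 3 4 6 3 6 1), (10, .ta 8 1 2), (56, .lf 7 9 0 0 7 9), (48, .ce 5 7 8 4 9 0), (22, .lf 6 8 9 9 6 8), (16, .ce 7 9 0 7 0 1), (5, .pl 3 6 8 7), (8, .lf 6 8 9 9 4 8), (15, .am 3 4 9 8 1 1), (12, .am 1 2 7 9 1 1), (10, .am 0 1 7 8 1 1), (14, .am 0 1 7 9 1 1), (28, .rt 2 3 5 2 3 5), (15, .pl 3 6 4 9), (56, .lf 9 1 2 2 9 1)]) (.leaf [(8, .pl 0 3 7 8), (64, .am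 0 1 7 9 1 1), (67, .am 5 7 8 9 1 1), (76, .am 0 1 7 8 1 1), (70, .pl 2 3 7 8), (68, .am 0 3 8 9 1 1), (488, .lf 7 9 0 0 7 9), (32, .lf 8 0 1 1 8 9), (320, .cf 3 4 6 3 6 1), (200, .lf 9 2 3 3 9 2), (200, .ce 7 9 0 7 0 2), (100, .am 0 1 2 3 1 1), (36, .pl 5 9 7 6), (36, .pl 3 6 8 7), (90, .am 1 2 3 9 1 1), (60, .ta 8 1 2), (288, .lf 5 7 8 8 5 7), (180, .ce 5 7 8 5 9 0), (320, .lf 9 1 2 2 9 1), (212, .lf 6 8 9 9 6 8), (31, .pl 3 5 8 7), (60, .cf 2 3 5 2 5 1), (77, .am 3 5 9 8 1 1), (176, .pl 0 9 3 6), (70, .am 1 2 7 9 1 1), (108, .rt 3 4 6 3 5 6), (60, .rt 2 3 5 2 3 5)])) (.leaf [(14, .ce 7 9 0 7 2 3), (12, .am 0 1 7 8 1 1), (3, .rt 0 1 3 0 1 3), (4, .am 1 2 3 9 1 1), (10, .ce 7 9 0 7 0 3), (2, .pl 0 3 7 8), (2, .am 1 3 8 9 1 1),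 (27, .c4 8), (24, .cf 3 4 6 3 6 1), (48, .lf 7 9 0 0 7 9), (24, .lf 5 7 8 8 4 7), (4, .am 1 7 8 9 1 1), (9, .am 0 1 8 9 1 1), (24, .rt 3 4 6 3 4 6), (24, .pl 0 8 3 4), (27, .lf 8 0 1 1 8 0), (6, .am 0 2 7 8 1 1), (12, .am 0 2 8 9 1 1), (8, .am 1 2 7 9 1 1), (48, .lf 9 1 2 2 9 1), (9, .am 0 1 2 3 1 1)])))) (.leaf [(11, .pl 2 3 7 9), (2, .am 2 6 5 7 1 1), (3, .am 0 2 3 9 1 1), (8, .am 3 6 5 9 1 1), (24, .lf 9 1 2 2 9 1), (36, .rt 2 3 5 2 3 5), (9, .pl 0 9 6 5), (24, .lf 6 8 9 9 6 7), (24, .lf 7 9 0 0 7 9), (3, .am 0 6 7 9 1 1), (24, .cf 2 3 5 2 6 1), (16, .am 2 3 5 6 1 1), (6, .am 0 3 2 6 1 1), (9, .am 0 2 7 9 1 1), (36, .lf 3 5 6 6 3 5), (1, .am 5 6 7 9 1 1)])) (.pr 1 2 (.leaf [(3, .rt 1 2 4 1 2 4), (4, .ce 4 6 7 4 7 9), (2, .am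 1 7 8 9 1 1), (4, .lf 4 6 7 7 4 6), (4, .lf 6 8 9 9 6 8), (2, .pl 1 2 7 6), (1, .pl 1 2 7 5), (4, .ce 4 6 7 4 7 0), (4, .lf 5 7 8 8 5 7), (1, .pl 0 1 5 4), (4, .lf 8 0 1 1 8 0), (1, .am 0 5 7 9 1 1), (1, .am 0 1 7 9 1 1), (1, .lf 2 4 5 5 2 4), (4, .lf 4 6 7 7 4 5), (4, .lf 7 9 0 0 7 9), (2, .lf 2 4 5 6 2 4), (2, .pl 0 1 6 4), (2, .am 5 7 8 9 1 1), (2, .am 0 6 7 9 1 1)]) (.leaf [(1, .pl 0 1 5 4), (2, .am 5 7 8 9 1 1), (4, .lf 4 6 7 7 4 5), (4, .lf 9 1 2 2 9 1), (2, .am 1 7 8 9 1 1), (1, .pl 1 2 7 5), (2, .pl 1 2 7 6), (4, .lf 5 7 8 8 5 7), (4, .lf 4 6 7 7 4 6), (4, .ce 4 6 7 4 7 0), (4, .lf 6 8 9 9 6 8), (4, .lf 1 3 4 4 1 2), (4, .lf 8 0 1 1 8 0), (1, .am 0 5 7 9 1 1), (1, .pl 1 2 4 6), (1, .lf 2 4 5 5 2 4), (2, .am 0 6 7 9 1 1),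 (4, .lf 7 9 0 0 7 9), (1, .am 0 1 7 9 1 1), (2, .pl 0 1 6 4), (3, .lf 2 4 5 6 2 4), (4, .pl 2 4 9 7)]))

def C3543654654 : Tr :=
  .pr 7 2 (.pr 9 2 (.pr 0 2 (.pr 8 2 (.pr 5 2 (.pr 6 2 (.pr 4 2 (.pr 1 2 (.leaf [(4, .am 3 4 5 6 1 1), (41, .pl 3 6 8 7), (18, .am 0 6 8 9 1 1), (8, .rt 9 0 2 9 0 2), (2, .am 0 1 2 8 1 1), (4, .am 0 2 8 9 1 1), (108, .rt 5 6 8 5 6 8), (72, .rt 6 7 9 6 7 9), (8, .am 3 5 4 8 1 1), (63, .pl 1 3 5 6), (45, .cf 9 0 2 8 3 7), (20, .am 0 3 8 9 1 1), (180, .rt 7 8 0 7 8 0), (12, .am 3 4 9 8 1 1), (64, .rt 9 0 2 9 0 3), (72, .rt 8 9 1 8 9 1), (6, .am 0 1 7 8 1 1), (28, .am 0 1 3 8 1 1), (99, .rt 4 5 7 4 5 7), (5, .am 4 5 6 7 1 1), (72, .rt 0 1 3 0 1 3), (18, .am 4 6 8 9 1 1), (91, .rt 1 2 4 1 3 5), (36, .pl 0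 1 6 5), (108, .cf 7 8 0 7 0 6), (8, .rt 1 2 4 1 2 5), (30, .am 0 5 7 8 1 1), (52, .am 4 5 7 8 1 1), (6, .pl 1 2 7 8), (18, .am 0 6 3 8 1 1), (30, .pl 0 9 5 4), (72, .rt 5 6 8 5 7 8)]) (.leaf [(91, .am 3 4 9 8 1 1), (208, .lf 1 3 4 4 1 3), (208, .rt 9 0 2 9 0 3), (32, .rt 5 6 8 5 7 8), (352, .rt 5 6 8 5 6 8), (144, .pl 1 4 8 7), (13, .am 0 3 8 9 1 1), (14, .am 0 5 6 8 1 1), (104, .pl 3 4 8 7), (352, .ce 1 3 4 1 4 6), (256, .cf 7 8 0 7 0 5), (178, .am 4 5 6 8 1 1), (32, .am 0 5 7 9 1 1), (32, .am 0 5 6 9 1 1), (80, .rt 7 8 0 7 9 0), (256, .rt 4 5 7 4 5 7), (40, .am 0 7 8 9 1 1), (384, .rt 7 8 0 7 8 0), (4, .am 4 6 7 8 1 1), (128, .am 5 6 7 9 1 1), (224, .rt 6 7 9 6 7 9), (13, .pl 0 9 3 4), (92, .am 0 6 7 8 1 1), (144, .rt 8 9 1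 8 9 1), (78, .pl 0 9 5 4)])) C3543654654_0) (.leaf [(1, .pl 0 9 6 5), (1, .rt 7 8 0 7 8 0), (1, .am 5 6 8 9 1 1), (2, .lf 6 8 9 9 6 8), (2, .cf 0 1 3 0 3 8), (2, .rt 9 0 2 9 0 3), (1, .pl 0 3 7 8), (2, .rt 5 6 8 5 6 8), (1, .am 0 3 8 9 1 1), (1, .rt 7 8 0 6 8 0)])) (.pr 4 2 (.leaf [(1, .lf 5 7 8 8 5 7), (1, .pl 0 5 3 9), (1, .pl 0 2 7 9), (1, .lf 5 7 8 9 5 7), (1, .pl 0 6 2 8), (1, .pl 0 5 6 8), (2, .pl 0 7 1 4), (1, .pl 0 3 7 8), (2, .rt 4 5 7 4 5 7), (1, .pl 2 9 8 3), (2, .pl 0 1 5 4)]) (.pr 6 2 (.pr 1 2 (.pr 2 2 (.pr 3 2 (.ch 4 (.leaf [(30, .pl 0 1 5 4), (72, .pl 1 2 4 6), (48, .rt 0 1 3 0 1 3), (36, .rt 6 7 9 5 7 0), (24, .rt 8 9 1 8 9 2), (12, .pl 3 4 8 7), (144, .rt 4 5 7 4 6 7), (52, .rt 6 7 9 6 7 9), (48, .pl 0 9 3 4),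 (36, .am 2 3 9 6 1 1), (12, .am 2 3 8 6 1 1), (56, .rt 6 7 9 5 7 9), (96, .rt 1 2 4 1 2 4), (6, .am 1 4 8 7 1 1), (28, .am 4 6 7 8 1 1), (96, .rt 3 4 6 3 4 6), (92, .am 4 5 7 8 1 1), (9, .am 0 5 8 9 1 1), (44, .am 4 6 8 9 1 1), (36, .rt 7 8 0 7 9 0), (24, .pl 1 2 7 6), (156, .rt 4 5 7 4 5 7), (18, .am 0 1 7 8 1 1), (15, .pl 0 9 5 4), (72, .rt 9 0 2 9 0 2), (19, .am 4 5 8 9 1 1), (36, .pl 3 4 9 7), (156, .lf 5 7 8 8 5 7), (48, .rt 2 3 5 2 3 6), (48, .rt 8 9 1 8 9 1)]) (.ch 5 (.leaf [(4, .am 2 6 8 7 1 1), (32, .lf 6 8 9 9 6 8), (16, .rt 1 2 4 1 2 4), (10, .ce 5 7 8 4 9 0), (3, .am 0 2 8 9 1 1), (22, .rt 7 8 0 7 8 0), (8, .am 2 3 5 6 1 1), (16, .rt 9 0 2 9 0 3), (1, .pl 3 4 8 7), (1, .am 2 6 4 7 1 1), (16, .rt 3 4 6 3 5 6), (2, .pl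 0 3 7 8), (3, .am 2 3 4 6 1 1), (10, .am 0 6 7 8 1 1), (5, .am 2 4 9 8 1 1), (10, .pl 0 9 6 4), (5, .pl 2 3 7 8), (8, .rt 5 6 8 5 6 8), (6, .rt 3 4 6 3 4 6), (16, .pl 1 2 4 6), (4, .am 3 5 9 8 1 1), (16, .rt 9 0 2 9 0 2), (2, .am 0 3 8 9 1 1), (3, .pl 0 9 2 4), (46, .rt 5 6 8 4 6 8), (4, .pl 0 9 3 5), (16, .rt 2 3 5 2 3 5), (16, .am 4 6 8 9 1 1), (2, .am 3 4 9 8 1 1)]) (.leaf [(1, .pl 0 9 7 4), (1, .pl 4 8 7 5), (1, .rt 6 7 9 6 7 9), (2, .lf 7 9 0 0 7 9), (1, .pl 4 9 8 6), (1, .pl 0 9 8 5), (1, .pl 0 8 7 6), (1, .rt 6 7 9 5 7 9)]) (.br 0 5 1 7 1 2 (.leaf [(2, .lf 4 6 7 7 4 5), (3, .am 0 1 7 8 1 1), (2, .am 0 5 8 9 1 1), (3, .ex 0), (6, .cf 0 1 3 0 3 8), (6, .cf 9 0 2 9 2 7), (4, .am 0 7 8 9 1 1), (1, .am 0 5 7 8 1 1), (6, .rt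 0 1 3 0 1 3), (6, .rt 8 9 1 8 9 1), (6, .rt 9 0 2 9 0 2), (2, .tb 5 1 2), (2, .ce 4 6 7 4 7 9), (4, .rt 6 7 9 5 7 9)]) (.leaf [(12, .ce 4 6 7 4 7 9), (12, .rt 8 9 1 8 9 1), (6, .am 0 7 8 9 1 1), (9, .rt 0 1 3 0 2 3), (4, .am 0 1 7 8 1 1), (6, .ex 0), (2, .am 0 1 3 8 1 1), (1, .pl 2 3 7 8), (1, .pl 2 3 7 5), (13, .lf 4 6 7 7 4 5), (4, .cf 9 0 2 8 3 7), (11, .cf 0 1 3 0 3 8), (4, .tb 5 1 2), (3, .am 0 2 3 8 1 1), (2, .am 1 2 7 5 1 1), (1, .am 1 2 3 5 1 1), (12, .rt 9 0 2 9 0 2), (12, .rt 0 1 3 0 1 3), (1, .ce 4 6 7 4 7 8), (6, .rt 2 3 5 2 3 5), (3, .rt 1 2 4 1 2 5), (6, .am 0 2 8 9 1 1)])) (.leaf [(10, .pl 2 3 7 8), (60, .rt 7 8 0 7 8 0), (20, .cf 9 0 2 8 3 7), (56, .rt 8 9 1 8 9 1), (5, .am 3 6 5 9 1 1), (10, .am 0 3 8 9 1 1),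 (36, .rt 2 3 5 2 3 5), (10, .am 0 7 8 9 1 1), (4, .am 0 1 2 3 1 1), (4, .am 5 6 7 9 1 1), (15, .am 0 6 3 9 1 1), (8, .am 1 2 7 5 1 1), (10, .am 2 3 5 6 1 1), (60, .c4 5), (22, .pl 0 1 6 5), (12, .am 0 2 3 8 1 1), (10, .pl 1 2 5 6), (24, .rt 1 2 4 1 2 5), (80, .rt 6 7 9 6 7 9), (24, .rt 8 9 1 8 9 2), (56, .rt 0 1 3 0 1 3), (2, .am 0 1 2 7 1 1), (16, .am 0 6 7 9 1 1), (8, .am 0 1 3 8 1 1), (9, .pl 0 9 6 5), (20, .am 0 1 7 8 1 1)])) (.ch 5 (.leaf [(3, .am 0 7 8 9 1 1), (28, .rt 0 1 3 0 1 3), (24, .rt 9 0 2 9 0 2), (14, .pl 1 2 7 6), (6, .am 3 5 9 8 1 1), (7, .am 3 4 9 8 1 1), (28, .rt 8 9 1 8 9 1), (10, .am 0 6 7 9 1 1), (4, .rt 6 7 9 6 8 9), (38, .rt 7 8 0 7 8 0), (30, .rt 5 6 8 4 6 8), (24, .rt 2 3 5 2 3 5), (10, .pl 1 2 4 6),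 (14, .pl 0 1 6 4), (14, .am 0 1 7 8 1 1), (4, .am 0 6 8 9 1 1), (24, .rt 3 4 6 3 4 6), (8, .am 4 7 8 9 1 1), (12, .rt 5 6 8 5 6 8), (2, .pl 3 4 8 7), (11, .cf 9 0 2 8 3 7), (24, .rt 1 2 4 1 2 4), (6, .tb 4 1 2), (14, .rt 9 0 2 9 0 3), (12, .am 2 3 9 6 1 1), (6, .ce 4 6 7 4 7 9), (12, .am 2 3 5 6 1 1), (7, .cf 0 1 3 0 3 7), (6, .pl 0 9 3 5), (15, .pl 0 9 3 4), (24, .rt 3 4 6 3 5 6)]) (.leaf [(1, .lf 7 9 0 0 7 9), (1, .pl 0 9 7 4), (1, .pl 4 9 7 5), (1, .rt 6 7 9 6 7 9), (1, .pl 5 8 7 6), (1, .pl 5 9 8 6)]) (.br 0 5 1 7 1 2 (.leaf [(6, .rt 0 1 3 0 1 3), (6, .cf 9 0 2 9 2 7), (4, .rt 6 7 9 5 7 9), (2, .ce 4 6 7 4 7 9), (6, .cf 0 1 3 0 3 8), (3, .ex 0), (4, .am 0 7 8 9 1 1), (6, .rt 9 0 2 9 0 2), (2, .lf 4 6 7 7 4 5), (2, .tb 5 1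 2), (6, .rt 8 9 1 8 9 1), (1, .am 0 5 7 8 1 1), (3, .am 0 1 7 8 1 1), (2, .am 0 5 8 9 1 1)]) (.leaf [(6, .ex 0), (11, .cf 0 1 3 0 3 8), (13, .lf 4 6 7 7 4 5), (9, .rt 0 1 3 0 2 3), (3, .rt 1 2 4 1 2 5), (1, .am 1 2 3 5 1 1), (4, .cf 9 0 2 8 3 7), (3, .am 0 2 3 8 1 1), (6, .am 0 7 8 9 1 1), (12, .rt 8 9 1 8 9 1), (2, .am 0 1 3 8 1 1), (12, .rt 9 0 2 9 0 2), (1, .pl 2 3 7 8), (1, .pl 2 3 7 5), (12, .ce 4 6 7 4 7 9), (4, .tb 5 1 2), (6, .am 0 2 8 9 1 1), (2, .am 1 2 7 5 1 1), (4, .am 0 1 7 8 1 1), (12, .rt 0 1 3 0 1 3), (1, .ce 4 6 7 4 7 8), (6, .rt 2 3 5 2 3 5)])) (.leaf [(72, .tb 4 1 2), (21, .pl 3 4 8 7), (40, .am 2 3 5 6 1 1), (40, .pl 1 2 5 6), (22, .am 0 1 3 8 1 1), (45, .pl 2 3 7 8), (8, .cf 9 0 2 8 3 7), (240, .c4 5), (72,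 .cf 0 1 3 0 3 9), (144, .rt 2 3 5 2 3 5), (240, .rt 7 8 0 7 8 0), (21, .am 1 2 7 5 1 1), (51, .pl 3 4 5 6), (48, .am 0 2 3 8 1 1), (96, .rt 1 2 4 1 2 5), (21, .pl 4 7 6 5), (4, .am 0 3 8 9 1 1), (96, .rt 8 9 1 8 9 2), (32, .rt 6 7 9 6 7 9), (72, .rt 3 4 6 3 4 6), (88, .pl 0 1 6 5), (90, .am 0 1 7 8 1 1), (224, .rt 8 9 1 8 9 1), (24, .am 0 1 2 7 1 1), (224, .rt 0 1 3 0 1 3), (11, .am 1 2 3 5 1 1), (80, .am 0 6 7 9 1 1), (8, .am 0 6 3 9 1 1), (76, .am 0 7 8 9 1 1)])) (.ch 5 (.leaf [(97, .am 3 5 9 8 1 1), (2, .am 1 2 3 9 1 1), (34, .am 1 2 7 9 1 1), (4, .am 0 1 3 9 1 1), (10, .am 0 2 8 9 1 1), (408, .rt 5 6 8 5 6 8), (8, .rt 8 9 1 8 9 1), (120, .rt 3 4 6 3 5 6), (136, .rt 2 3 5 2 3 6), (60, .am 2 3 9 6 1 1), (8, .rt 0 1 3 0 1 3),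 (154, .am 0 6 7 9 1 1), (105, .pl 0 9 5 4), (23, .pl 3 5 8 7), (4, .am 0 5 1 8 1 1), (24, .am 1 2 9 5 1 1), (34, .am 0 1 7 9 1 1), (280, .rt 9 0 2 9 0 2), (35, .am 2 5 4 9 1 1), (88, .am 0 5 6 9 1 1), (408, .rt 7 8 0 7 8 0), (70, .am 2 4 9 8 1 1), (140, .am 1 5 4 8 1 1), (24, .am 1 2 7 8 1 1), (88, .am 1 7 8 9 1 1), (13, .am 0 5 2 9 1 1), (280, .rt 1 2 4 1 2 4), (128, .rt 5 6 8 5 6 9), (120, .lf 5 7 8 8 5 7), (280, .c4 4), (168, .pl 1 2 5 6), (23, .am 5 7 8 9 1 1), (128, .rt 9 0 2 9 0 3), (22, .pl 0 6 1 2), (74, .pl 2 3 7 8), (6, .pl 1 2 7 6), (16, .am 0 2 7 8 1 1), (160, .rt 6 7 9 6 7 9)]) (.leaf [(1, .pl 0 8 7 6), (1, .rt 6 7 9 6 7 9), (1, .pl 4 9 8 6), (1, .pl 0 9 8 5), (2, .lf 7 9 0 0 7 9), (1, .pl 0 9 7 4), (1, .rt 6 7 9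 5 7 9), (1, .pl 4 8 7 5)]) (.br 0 3 1 5 3 1 (.leaf [(10, .lf 4 6 7 7 4 5), (12, .rt 0 1 3 0 1 3), (12, .rt 9 0 2 9 0 2), (12, .rt 8 9 1 8 9 1), (3, .am 1 2 7 5 1 1), (6, .am 0 2 8 9 1 1), (4, .cf 0 1 3 0 3 7), (3, .pl 1 5 4 3), (9, .rt 0 1 3 0 2 3), (6, .rt 2 3 5 2 3 5), (6, .ex 0), (4, .tb 5 1 2), (1, .ce 4 6 7 4 7 8), (11, .cf 0 1 3 0 3 8), (3, .rt 1 2 4 1 2 4), (3, .pl 2 3 7 4), (6, .am 0 7 8 9 1 1), (3, .am 0 2 7 8 1 1), (12, .ce 4 6 7 4 7 9), (6, .am 0 1 7 8 1 1), (3, .pl 2 3 7 5)]) (.leaf [(4, .rt 0 1 3 0 1 3), (4, .rt 8 9 1 8 9 1), (1, .am 5 7 8 9 1 1), (1, .cf 0 1 3 0 3 7), (1, .tb 5 1 2), (2, .ex 0), (3, .rt 9 0 2 9 0 2), (1, .am 0 7 8 9 1 1), (2, .pl 1 3 7 5), (1, .lf 4 6 7 7 4 5), (1, .ce 4 6 7 4 7 9), (3, .rt 6 7 9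 5 7 9), (2, .am 0 1 7 8 1 1), (3, .cf 9 0 2 9 2 7), (3, .cf 0 1 3 0 3 8), (2, .am 0 5 8 9 1 1)])) (.leaf [(164, .am 0 5 6 8 1 1), (472, .rt 2 3 5 2 3 5), (1200, .rt 6 7 9 6 7 9), (144, .am 0 1 7 8 1 1), (180, .lf 5 7 8 8 5 6), (130, .am 0 7 8 9 1 1), (81, .am 0 2 3 8 1 1), (88, .lf 5 7 8 8 5 7), (12, .am 0 2 3 9 1 1), (924, .c4 5), (28, .am 3 6 4 9 1 1), (8, .am 2 6 5 9 1 1), (196, .am 0 6 3 9 1 1), (4, .am 4 6 7 9 1 1), (40, .am 0 1 3 9 1 1), (472, .rt 8 9 1 8 9 1), (48, .am 0 1 2 3 1 1), (219, .pl 2 3 7 8), (364, .rt 8 9 1 8 9 2), (138, .am 0 3 8 9 1 1), (16, .am 4 5 6 8 1 1), (32, .am 1 2 4 5 1 1), (56, .am 1 3 4 5 1 1), (147, .am 0 2 7 8 1 1), (184, .lf 5 7 8 9 5 6), (364, .c4 4), (140, .pl 0 1 6 5), (28, .pl 0 1 5 4), (92,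 .am 1 2 8 5 1 1), (364, .rt 1 2 4 1 2 4), (80, .am 1 5 4 9 1 1), (16, .am 2 5 4 9 1 1), (72, .am 0 1 2 7 1 1), (272, .am 0 6 7 9 1 1), (112, .am 2 3 5 6 1 1), (924, .rt 7 8 0 7 8 0), (8, .am 4 7 8 9 1 1), (120, .pl 1 2 5 6), (136, .pl 0 9 5 4), (472, .rt 0 1 3 0 1 3)]))) (.leaf [(3, .ce 5 7 8 5 8 0), (3, .am 2 3 8 5 1 1), (5, .am 0 3 2 6 1 1), (4, .am 0 2 7 8 1 1), (8, .rt 6 7 9 6 7 9), (9, .rt 7 8 0 7 8 0), (8, .rt 8 9 1 8 9 2), (20, .rt 1 2 4 1 2 5), (3, .cf 9 0 2 8 3 7), (4, .pl 2 3 7 6), (15, .am 2 3 5 6 1 1), (27, .rt 2 3 5 2 3 5), (2, .am 0 7 8 9 1 1), (4, .am 0 6 7 9 1 1), (6, .am 0 2 8 9 1 1), (20, .pl 1 2 5 6), (12, .rt 9 0 2 9 0 2), (5, .cf 0 1 3 0 3 7), (44, .lf 3 5 6 6 3 5), (9, .pl 0 3 6 5), (9, .cf 0 1 3 0 3 8)]))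 (.leaf [(7, .pl 0 1 6 4), (12, .rt 0 1 3 0 1 3), (4, .am 1 7 8 9 1 1), (3, .am 0 6 7 9 1 1), (12, .rt 6 7 9 6 7 9), (12, .rt 8 9 1 8 9 1), (3, .cf 0 1 3 0 3 7), (7, .rt 1 2 4 1 2 4), (7, .pl 1 2 7 6), (3, .am 0 1 7 8 1 1), (9, .cf 9 0 2 9 3 7), (2, .am 6 7 8 9 1 1), (7, .lf 2 4 5 6 2 4), (2, .am 0 1 8 9 1 1), (9, .rt 7 8 0 7 8 0), (4, .am 0 6 8 9 1 1), (9, .rt 9 0 2 9 0 3), (9, .cf 0 1 3 0 3 8)])) (.pr 3 2 (.pr 2 2 C3543654654_2 C3543654654_3) C3543654654_4)) C3543654654_7))) (.leaf [(1, .pl 1 9 8 7), (1, .rt 7 8 0 7 8 0), (1, .pl 0 1 2 9), (1, .pl 0 3 7 9), (1, .pl 0 2 3 9), (1, .lf 8 0 1 1 8 0)])) (.leaf [(1, .pl 1 9 3 2), (1, .rt 9 0 2 9 0 2), (2, .lf 0 2 3 3 8 9), (2, .rt 7 8 0 7 8 0), (1, .pl 1 8 9 5), (1, .rt 7 8 0 7 0 1),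 (1, .pl 2 3 8 6), (2, .lf 0 2 3 3 9 0), (1, .pl 1 3 7 8), (2, .lf 0 2 3 3 0 2), (1, .rt 9 0 2 8 1 2), (1, .pl 0 8 7 6), (1, .pl 0 9 8 5), (1, .pl 3 6 8 7)])) (.leaf [(2, .rt 7 8 0 7 8 1), (1, .pl 1 2 7 6), (2, .lf 9 1 2 2 9 1), (1, .pl 0 7 3 1), (3, .pl 3 9 8 7), (1, .pl 0 3 2 6), (1, .pl 1 2 3 8), (2, .lf 9 1 2 3 8 9), (1, .pl 3 6 9 7), (1, .lf 9 1 2 2 8 0), (2, .pl 0 2 7 9), (1, .rt 7 8 0 7 8 0)])) (.pr 5 2 (.leaf [(2, .rt 5 6 8 5 8 9), (1, .pl 0 3 6 4), (1, .pl 0 1 6 5), (1, .pl 4 9 6 5), (1, .pl 0 2 1 4), (2, .lf 7 9 0 0 7 9), (1, .pl 1 5 4 3), (1, .pl 0 9 3 5), (2, .rt 5 6 8 5 6 8), (1, .pl 0 9 2 4), (2, .lf 7 9 0 0 6 7)]) (.pr 4 2 (.leaf [(1, .pl 3 9 4 5), (1, .pl 2 8 9 5), (2, .rt 4 5 7 4 5 7), (1, .pl 2 9 8 7), (1, .pl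 4 5 6 8), (1, .pl 4 6 7 9), (1, .pl 3 8 9 6), (2, .lf 5 7 8 8 5 7), (1, .pl 3 4 8 7)]) (.pr 6 2 (.leaf [(1, .pl 4 9 7 5), (1, .pl 5 8 7 6), (1, .pl 0 8 7 4), (1, .lf 7 9 0 0 7 9), (1, .pl 0 9 8 4), (1, .pl 5 9 8 6), (1, .rt 6 7 9 6 7 9)]) (.pr 9 2 (.pr 0 2 (.pr 8 2 C3543654654_10 C3543654654_13) (.leaf [(1, .pl 0 9 3 4), (1, .pl 1 3 7 4), (1, .lf 0 2 3 3 0 2), (1, .pl 1 7 3 2), (1, .pl 2 7 9 4), (1, .rt 9 0 2 9 0 2)])) (.pr 8 2 (.leaf [(1, .am 1 3 8 9 1 1), (2, .lf 9 1 2 3 9 1), (1, .lf 7 9 0 1 7 9), (2, .lf 5 7 8 8 4 7), (1, .lf 7 9 0 0 7 9), (1, .pl 1 3 7 8), (1, .am 4 7 8 9 1 1), (2, .rt 8 9 1 8 9 1), (2, .ce 4 6 7 4 7 9), (1, .pl 0 9 7 4)]) (.pr 0 2 C3543654654_14 (.pr 3 2 (.leaf [(40, .am 0 7 8 9 1 1), (14, .am 1 2 7 9 1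 1), (4, .am 0 1 3 9 1 1), (104, .pl 0 9 3 5), (78, .pl 2 3 7 8), (208, .rt 3 4 6 3 5 6), (80, .lf 7 9 0 0 7 8), (256, .lf 0 2 3 3 0 2), (178, .am 1 2 3 9 1 1), (352, .cf 3 4 6 3 6 1), (224, .lf 8 0 1 1 8 0), (384, .lf 7 9 0 0 7 9), (32, .lf 9 1 2 2 9 0), (91, .am 3 5 9 8 1 1), (13, .pl 3 5 8 7), (208, .lf 5 7 8 8 5 7), (144, .lf 6 8 9 9 6 8), (13, .am 5 7 8 9 1 1), (144, .pl 0 9 3 6), (92, .am 0 1 7 9 1 1), (32, .am 1 2 7 8 1 1), (32, .am 0 2 7 8 1 1), (352, .lf 9 1 2 2 9 1), (128, .am 0 1 2 8 1 1), (256, .ce 7 9 0 7 0 2)]) (.leaf [(24, .am 5 7 8 9 1 1), (45, .ce 5 7 8 5 9 0), (4, .am 1 2 3 5 1 1), (9, .pl 1 2 7 6), (108, .ce 7 9 0 7 0 1), (36, .pl 0 9 6 4), (12, .am 5 6 7 9 1 1), (180, .lf 7 9 0 0 7 9), (72, .lf 9 1 2 2 9 0),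 (36, .pl 1 2 8 6), (9, .pl 1 2 4 6), (30, .pl 2 3 7 8), (11, .pl 0 9 6 5), (8, .am 2 3 9 5 1 1), (6, .am 0 6 7 9 1 1), (72, .lf 5 7 8 8 5 7), (18, .am 1 3 8 9 1 1), (27, .lf 3 5 6 6 2 5), (4, .pl 1 2 5 6), (9, .am 1 4 9 7 1 1), (72, .lf 6 8 9 9 6 8), (18, .am 6 7 8 9 1 1), (12, .am 3 5 9 8 1 1), (72, .lf 3 5 6 6 2 4), (72, .lf 8 0 1 1 8 0), (41, .pl 0 6 1 2), (108, .lf 9 1 2 2 9 1), (52, .am 0 2 3 9 1 1), (27, .am 4 6 7 9 1 1), (72, .lf 4 6 7 7 4 6), (5, .am 0 1 2 3 1 1), (99, .lf 0 2 3 3 0 2), (30, .am 0 2 7 9 1 1)]))))))))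

theorem ok_3543654654 : chk C3543654654 ⟨19207129934710306809856520206, [], [], [], [], []⟩ = true := by decide +kernel

end Pool.Agent.H146.TW
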