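import Pool.Agent.H292.TW.Chk3

/-!
Project TWELVE (helper221): certificate tree of one order pattern (helper146).
-/

set_option autoImplicit false
set_option maxRecDepth 100000

namespace Pool.Agent.H146.TW

open Pool.Agent.H292.TW.Chk

def C3544654554_0 : Tr :=
  .pr 5 2 (.pr 6 2 (.pr 4 2 (.pr 1 2 (.leaf [(55, .pl 1 2 7 8), (11, .cf 9 0 2 8 2 7), (28, .am 2 4 9 8 1 1), (14, .am 1 2 8 4 1 1), (88, .cf 7 8 0 7 0 6), (77, .rt 4 5 7 4 5 7), (132, .rt 7 8 0 7 8 0), (44, .pl 1 7 5 6), (4, .am 0 5 1 7 1 1), (16, .am 0 2 8 9 1 1), (44, .rt 8 9 1 8 9 1), (44, .rt 5 6 8 5 7 8), (42, .am 4 5 7 8 1 1), (28, .pl 0 9 5 4), (8, .am 0 1 2 8 1 1), (44, .rt 6 7 9 6 7 9), (7, .am 1 5 4 7 1 1), (24, .am 0 5 7 8 1 1), (44, .pl 1 9 5 6), (44, .rt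 9 0 2 9 0 2), (88, .rt 5 6 8 5 6 8), (44, .rt 9 0 2 9 1 2), (77, .rt 1 2 4 1 2 5)]) (.leaf [(128, .am 5 6 7 9 1 1), (91, .am 2 4 9 8 1 1), (32, .am 0 5 6 9 1 1), (92, .am 0 6 7 8 1 1), (14, .am 0 5 6 8 1 1), (4, .am 4 6 7 8 1 1), (208, .lf 1 3 4 4 1 2), (144, .pl 1 4 8 7), (352, .rt 5 6 8 5 6 8), (256, .cf 7 8 0 7 0 5), (104, .pl 2 4 8 7), (224, .rt 6 7 9 6 7 9), (13, .am 0 2 8 9 1 1), (256, .rt 4 5 7 4 5 7), (78, .pl 0 9 5 4), (32, .rt 5 6 8 5 7 8), (80, .rt 7 8 0 7 9 0), (178, .am 4 5 6 8 1 1), (352, .ce 1 3 4 1 4 6), (13, .pl 0 9 2 4), (384, .rt 7 8 0 7 8 0), (32, .am 0 5 7 9 1 1), (40, .am 0 7 8 9 1 1), (144, .rt 8 9 1 8 9 1), (208, .rt 9 0 2 9 0 2)])) (.pr 3 2 (.leaf [(1, .lf 4 6 7 7 4 6), (1, .rt 3 4 6 3 4 6), (1, .pl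 3 4 5 7), (1, .pl 3 5 6 7)]) (.pr 2 2 (.leaf [(2, .am 0 6 7 9 1 1), (4, .am 0 7 8 9 1 1), (7, .lf 3 5 6 6 3 5), (8, .cf 0 1 3 0 3 8), (2, .rt 0 1 3 0 2 3), (1, .pl 0 2 6 5), (6, .pl 0 1 6 5), (8, .rt 9 0 2 9 0 2), (1, .pl 2 3 8 6), (6, .cf 9 0 2 9 2 7), (6, .pl 1 3 8 6), (1, .rt 2 3 5 2 3 5), (6, .rt 8 9 1 8 9 1), (1, .am 0 2 8 9 1 1), (1, .am 0 6 8 9 1 1), (4, .am 0 6 7 8 1 1), (6, .rt 2 3 5 1 3 5), (8, .rt 7 8 0 7 8 0), (6, .rt 6 7 9 6 7 9), (6, .rt 0 1 3 0 1 3)]) (.pr 1 2 (.leaf [(8, .am 2 5 4 8 1 1), (24, .rt 8 9 1 8 0 1), (9, .am 0 1 7 8 1 1), (36, .rt 1 2 4 1 2 4), (16, .am 1 2 4 5 1 1), (24, .ce 2 4 5 1 5 6), (3, .am 0 1 2 8 1 1), (36, .lf 2 4 5 5 2 4), (9, .pl 0 8 5 4), (6, .am 0 2 1 5 1 1), (3, .am 0 5 7 8 1 1), (1,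 .am 4 5 7 8 1 1), (24, .rt 7 8 0 7 8 0), (2, .am 1 5 4 7 1 1), (24, .rt 5 6 8 5 6 8), (11, .pl 1 2 7 8)]) (.ch 3 (.leaf [(1, .lf 4 6 7 7 4 6), (1, .rt 3 4 6 3 4 6), (1, .pl 3 4 6 7)]) (.leaf [(80, .rt 5 6 8 5 6 8), (4, .am 4 6 7 8 1 1), (2, .am 4 6 7 9 1 1), (40, .ce 1 3 4 1 4 6), (68, .rt 9 0 2 9 0 2), (40, .lf 4 6 7 7 4 5), (17, .am 0 5 6 9 1 1), (12, .cf 8 9 1 8 1 7), (3, .am 4 5 6 9 1 1), (40, .lf 5 7 8 8 5 7), (34, .am 0 6 7 9 1 1), (20, .am 4 5 6 8 1 1), (40, .am 5 7 8 9 1 1), (40, .pl 1 4 8 7), (12, .rt 6 7 9 6 8 9), (40, .lf 2 4 5 5 2 4), (12, .am 4 7 8 9 1 1), (17, .pl 0 9 5 4), (40, .rt 6 7 9 6 7 9), (52, .rt 8 9 1 8 9 1), (40, .ce 2 4 5 2 5 6), (68, .rt 7 8 0 7 8 0), (68, .cf 9 0 2 9 2 7)]) (.leaf [(34, .lf 1 3 4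 4 1 2), (42, .lf 4 6 7 7 4 6), (5, .pl 0 2 7 8), (35, .cf 7 8 0 7 0 5), (4, .pl 2 4 9 7), (30, .am 4 5 6 8 1 1), (5, .pl 0 9 2 4), (49, .lf 2 4 5 5 1 4), (49, .ce 2 4 5 1 5 6), (76, .rt 7 8 0 7 8 0), (29, .pl 0 9 1 4), (14, .am 5 7 8 9 1 1), (35, .pl 3 4 5 7), (29, .pl 0 1 7 8), (24, .am 5 6 7 9 1 1), (29, .rt 6 7 9 6 8 9), (98, .ce 1 3 4 1 4 6), (35, .lf 1 3 4 4 1 3), (10, .pl 2 4 8 7), (35, .tb 3 1 2), (15, .am 2 4 9 8 1 1), (18, .am 5 6 7 8 1 1), (29, .rt 8 9 1 8 9 1), (34, .rt 9 0 2 9 0 2), (19, .am 4 5 6 9 1 1), (7, .cf 7 8 0 7 0 4)]) (.leaf [(9, .lf 4 6 7 7 4 5), (8, .rt 6 7 9 6 7 9), (2, .am 4 6 7 9 1 1), (16, .rt 5 6 8 5 6 8), (9, .rt 0 1 3 0 2 3), (14, .lf 2 4 5 5 2 4), (8, .cf 8 9 1 8 1 7), (2, .am 0 6 8 9 1 1), (2,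 .am 4 6 7 8 1 1), (8, .rt 8 9 1 8 9 1), (6, .am 5 7 8 9 1 1), (3, .am 4 5 7 9 1 1), (2, .am 4 5 6 8 1 1), (7, .rt 7 8 0 7 8 0), (4, .pl 0 8 3 4), (5, .pl 0 9 3 4), (9, .c4 3), (7, .pl 0 2 7 9), (7, .rt 9 0 2 9 0 2), (12, .ce 2 4 5 2 5 6), (5, .lf 4 6 7 7 4 6), (2, .pl 0 2 6 5)])))))) (.leaf [(2, .cf 0 1 3 0 3 8), (1, .am 0 2 8 9 1 1), (2, .rt 5 6 8 4 6 8), (1, .pl 0 2 7 8), (1, .rt 7 8 0 6 8 0), (2, .lf 6 8 9 9 6 8), (1, .am 4 6 8 9 1 1), (2, .rt 9 0 2 9 0 2), (1, .rt 7 8 0 7 8 0), (2, .rt 0 1 3 0 2 3), (1, .pl 0 9 6 4)])) (.pr 4 2 (.leaf [(1, .pl 0 5 7 9), (1, .pl 1 8 9 5), (1, .pl 0 5 6 8), (2, .rt 4 5 7 4 5 7), (1, .pl 6 9 8 7), (1, .pl 1 4 8 7), (2, .pl 0 6 5 4), (1, .pl 0 6 1 9), (1, .pl 0 2 1 4), (1, .pl 0 7 2 4), (2,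 .pl 0 1 6 4), (2, .lf 5 7 8 8 5 7)]) (.pr 3 2 (.leaf [(1, .rt 3 4 6 3 4 6), (1, .pl 3 4 5 7), (1, .lf 4 6 7 7 4 6), (1, .pl 3 5 6 7)]) (.pr 2 2 (.leaf [(2, .pl 2 3 8 6), (1, .pl 0 6 2 9), (1, .pl 1 5 9 2), (2, .pl 1 9 8 2), (1, .pl 1 3 9 6), (2, .pl 0 2 1 4), (2, .pl 1 8 4 6), (1, .pl 0 1 2 3), (3, .lf 3 5 6 6 3 5), (1, .pl 0 1 6 5), (2, .pl 2 4 5 6), (3, .rt 2 3 5 2 3 5)]) (.pr 1 2 (.leaf [(3, .lf 5 7 8 8 5 7), (4, .rt 1 2 4 1 3 4), (1, .lf 5 7 8 8 5 6), (4, .lf 3 5 6 6 3 5), (1, .ce 4 6 7 4 7 9), (4, .rt 1 2 4 1 2 4), (1, .am 4 7 8 9 1 1), (1, .cf 9 0 2 9 2 7), (3, .pl 1 3 5 6), (2, .cf 9 0 2 8 2 7), (1, .rt 8 9 1 8 9 1), (6, .lf 2 4 5 5 2 4), (2, .am 2 5 4 8 1 1), (4, .am 1 2 4 5 1 1), (1, .ce 2 4 5 1 5 6), (1, .pl 1 3 8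 6), (1, .ce 5 7 8 4 9 0), (1, .rt 9 0 2 9 0 2)]) (.pr 6 2 (.ch 4 (.leaf [(36, .am 4 5 7 8 1 1), (84, .lf 5 7 8 8 5 7), (14, .am 0 6 7 8 1 1), (12, .am 0 5 6 7 1 1), (21, .lf 3 5 6 6 3 5), (18, .pl 0 9 5 4), (28, .cf 9 0 2 9 2 7), (18, .am 4 6 8 9 1 1), (28, .rt 8 9 1 8 9 1), (56, .rt 6 7 9 6 7 9), (10, .am 0 6 8 9 1 1), (28, .rt 7 8 0 7 9 0), (9, .am 4 5 6 7 1 1), (21, .ce 3 5 6 3 6 7), (28, .rt 9 0 2 9 0 2), (63, .rt 4 5 7 4 5 7), (28, .cf 8 9 1 8 1 7), (6, .am 0 5 7 8 1 1)]) (.ch 5 (.leaf [(16, .am 5 6 8 9 1 1), (4, .lf 5 7 8 8 4 7), (1, .am 4 5 6 9 1 1), (28, .rt 5 6 8 5 6 8), (24, .lf 6 8 9 9 6 8), (3, .am 4 5 8 9 1 1), (8, .ce 2 4 5 1 5 6), (2, .am 0 6 7 8 1 1), (4, .lf 4 6 7 7 4 6), (4, .am 6 7 8 9 1 1), (8, .lf 2 4 5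 5 1 4), (8, .rt 9 0 2 9 0 2), (4, .rt 7 8 0 7 8 0), (4, .pl 0 9 5 4), (3, .am 0 5 6 9 1 1), (4, .rt 6 7 9 6 7 0), (8, .cf 9 0 2 9 2 7), (2, .am 4 6 7 8 1 1), (1, .am 0 5 8 9 1 1)]) (.leaf [(14, .am 0 5 6 9 1 1), (105, .rt 6 7 9 6 7 9), (1, .am 6 7 8 9 1 1), (12, .lf 6 8 9 9 5 8), (16, .pl 0 9 5 4), (56, .am 0 6 7 9 1 1), (16, .am 5 7 8 9 1 1), (8, .am 4 5 6 7 1 1), (24, .rt 0 1 3 0 1 3), (48, .lf 3 5 6 6 3 5), (36, .cf 0 1 3 0 3 8), (105, .lf 7 9 0 0 7 9), (24, .lf 6 8 9 9 6 8), (19, .am 0 7 8 9 1 1), (12, .pl 0 3 7 6), (36, .ce 3 5 6 3 6 7), (24, .lf 2 4 5 5 1 4), (24, .pl 0 1 6 5), (16, .am 4 6 7 9 1 1), (36, .lf 5 7 8 8 5 7), (2, .am 0 5 6 8 1 1), (24, .lf 4 6 7 7 4 6)]) (.leaf [(236, .cf 0 1 3 0 3 8), (186, .rt 6 7 9 6 7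 9), (122, .pl 0 2 6 5), (186, .rt 7 8 0 7 9 0), (46, .ta 5 1 2), (84, .am 5 6 7 9 1 1), (122, .lf 4 6 7 7 4 6), (206, .lf 3 5 6 6 3 5), (41, .am 0 5 7 9 1 1), (168, .rt 0 1 3 0 2 3), (138, .ce 3 5 6 3 6 7), (190, .lf 6 8 9 9 6 8), (80, .am 4 5 7 8 1 1), (41, .pl 0 9 5 4), (140, .cf 9 0 2 9 2 7), (104, .am 0 6 8 9 1 1), (46, .cf 9 0 2 8 2 7), (1, .am 4 5 7 9 1 1), (40, .am 4 7 8 9 1 1), (122, .lf 2 4 5 5 2 4), (68, .lf 5 7 8 8 5 6), (68, .pl 0 3 7 6), (232, .rt 9 0 2 9 0 2), (18, .am 0 6 7 8 1 1), (46, .am 0 2 8 9 1 1)]) (.leaf [(10, .lf 6 8 9 9 6 8), (4, .lf 2 4 5 5 2 4), (4, .cf 0 1 3 0 3 8), (4, .lf 4 6 7 7 4 6), (4, .rt 0 1 3 0 2 3), (3, .am 0 6 7 9 1 1), (6, .lf 5 7 8 8 5 6), (1, .am 5 6 7 9 1 1), (8, .c4 5), (6, .rt 7 8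 0 7 9 0), (2, .rt 6 7 9 6 7 0), (1, .am 5 6 8 9 1 1), (4, .pl 0 2 6 5), (2, .am 4 5 7 9 1 1), (2, .lf 6 8 9 9 5 8), (6, .rt 6 7 9 6 7 9), (2, .am 0 5 6 8 1 1), (2, .pl 0 9 5 4), (3, .am 0 6 8 9 1 1)])) (.ch 5 (.leaf [(60, .am 4 5 6 8 1 1), (190, .rt 5 6 8 5 6 8), (2, .rt 8 9 1 8 9 2), (5, .am 4 5 6 9 1 1), (138, .rt 9 0 2 9 0 2), (110, .rt 8 9 1 8 9 1), (100, .lf 2 4 5 5 1 4), (52, .rt 6 7 9 6 8 9), (80, .lf 4 6 7 7 4 5), (10, .ce 3 5 6 3 6 7), (30, .pl 1 4 8 2), (100, .ce 2 4 5 1 5 6), (4, .am 0 6 7 8 1 1), (10, .lf 3 5 6 6 3 5), (80, .am 5 7 8 9 1 1), (2, .am 0 7 8 9 1 1), (35, .am 0 5 6 9 1 1), (138, .rt 7 8 0 7 8 0), (20, .tb 4 1 2), (66, .am 0 6 7 9 1 1), (78, .cf 9 0 2 9 2 7), (62, .cf 9 0 2 8 2 7), (30, .am 2 4 9 8 1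 1), (110, .ce 1 3 4 1 4 6), (90, .lf 5 7 8 8 5 7), (35, .pl 0 9 5 4), (80, .pl 1 4 8 7)]) (.leaf [(5, .pl 0 1 6 5), (14, .pl 0 9 5 4), (5, .rt 0 1 3 0 1 3), (25, .am 0 6 7 9 1 1), (5, .lf 2 4 5 5 1 4), (11, .am 0 7 8 9 1 1), (16, .am 4 5 6 8 1 1), (8, .am 0 6 7 8 1 1), (25, .rt 8 9 1 8 9 1), (55, .lf 7 9 0 0 7 9), (25, .cf 8 9 1 8 1 7), (60, .lf 5 7 8 8 5 7), (14, .am 4 7 8 9 1 1), (25, .ce 2 4 5 2 5 6), (14, .am 0 5 6 8 1 1), (5, .lf 5 7 8 8 4 7), (25, .tb 4 1 2), (7, .am 4 6 7 8 1 1), (25, .lf 2 4 5 5 2 4), (60, .ce 3 5 6 3 6 7), (60, .lf 3 5 6 6 3 5), (5, .cf 0 1 3 0 3 9)]) (.leaf [(2, .am 0 5 7 9 1 1), (16, .am 0 5 6 8 1 1), (40, .tb 4 1 2), (18, .pl 0 9 5 4), (40, .ce 2 4 5 2 5 6), (63, .cf 8 9 1 8 1 7), (6, .pl 0 2 6 5),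 (57, .rt 7 8 0 7 9 0), (20, .am 5 6 7 9 1 1), (63, .rt 8 9 1 8 9 1), (6, .lf 4 6 7 7 4 5), (6, .rt 0 1 3 0 2 3), (72, .ce 3 5 6 3 6 7), (93, .cf 9 0 2 9 2 7), (46, .lf 2 4 5 5 2 4), (102, .lf 3 5 6 6 3 5), (36, .ta 5 1 2), (20, .am 4 5 6 8 1 1), (8, .am 4 5 7 9 1 1), (93, .rt 9 0 2 9 0 2), (10, .am 4 7 8 9 1 1), (36, .cf 0 1 3 0 3 8), (53, .am 0 7 8 9 1 1), (20, .am 0 6 7 9 1 1), (18, .am 0 6 7 8 1 1), (30, .pl 0 3 7 6)]) (.leaf [(14, .am 0 5 6 8 1 1), (8, .am 0 6 7 8 1 1), (5, .rt 0 1 3 0 1 3), (14, .pl 0 9 5 4), (5, .ce 3 5 6 3 6 7), (7, .am 4 6 7 8 1 1), (55, .rt 7 8 0 7 8 0), (25, .lf 2 4 5 5 2 4), (5, .lf 2 4 5 5 1 4), (16, .am 4 5 6 8 1 1), (80, .cf 8 9 1 8 1 7), (5, .pl 0 1 6 5), (14, .am 4 7 8 9 1 1), (11, .am 0 7 8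 9 1 1), (25, .am 0 6 7 9 1 1), (80, .rt 8 9 1 8 9 1), (25, .tb 4 1 2), (60, .lf 5 7 8 8 5 7), (55, .c4 5), (5, .cf 0 1 3 0 3 9), (5, .lf 5 7 8 8 4 7), (5, .lf 3 5 6 6 3 5), (25, .ce 2 4 5 2 5 6)])) (.leaf [(304, .lf 3 5 6 6 3 5), (66, .am 4 5 6 7 1 1), (208, .lf 4 6 7 7 4 6), (68, .am 4 6 8 9 1 1), (184, .ce 3 5 6 3 6 7), (69, .pl 0 9 5 4), (1, .am 4 5 7 9 1 1), (120, .pl 0 3 7 6), (208, .c4 4), (72, .am 4 5 7 8 1 1), (48, .rt 7 8 0 7 9 0), (168, .rt 9 0 2 9 0 2), (120, .rt 7 8 0 7 8 0), (120, .cf 0 1 3 0 3 8), (64, .am 4 6 7 8 1 1), (60, .am 0 6 8 9 1 1), (80, .am 5 7 8 9 1 1), (304, .lf 5 7 8 8 5 7), (39, .am 0 5 7 9 1 1), (30, .am 0 5 6 7 1 1), (256, .rt 6 7 9 6 7 9), (168, .cf 9 0 2 9 2 7)])) (.ch 5 (.leaf [(10, .lf 6 8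 9 9 6 8), (2, .pl 0 9 5 4), (14, .rt 5 6 8 5 6 8), (4, .lf 4 6 7 7 4 6), (1, .am 6 7 8 9 1 1), (1, .am 0 5 8 9 1 1), (1, .am 0 5 6 9 1 1), (4, .ce 2 4 5 1 5 6), (1, .am 5 6 7 8 1 1), (4, .rt 7 8 0 7 8 0), (4, .lf 6 8 9 9 6 7), (8, .am 5 6 8 9 1 1), (4, .cf 9 0 2 9 2 7), (4, .lf 2 4 5 5 1 4), (4, .rt 9 0 2 9 0 2), (2, .am 0 6 7 8 1 1), (2, .am 4 5 7 9 1 1)]) (.leaf [(18, .pl 0 2 6 5), (32, .pl 0 3 7 6), (9, .am 0 5 6 8 1 1), (46, .lf 7 9 0 0 7 9), (18, .lf 2 4 5 5 2 4), (46, .ce 4 6 7 4 7 9), (18, .rt 0 1 3 0 2 3), (2, .lf 6 8 9 9 6 7), (13, .am 5 7 8 9 1 1), (50, .cf 0 1 3 0 3 8), (9, .am 4 5 7 9 1 1), (5, .am 5 6 7 9 1 1), (52, .lf 4 6 7 7 4 6), (32, .lf 3 5 6 6 3 5), (21, .am 0 6 8 9 1 1), (50, .lf 6 8 9 9 6 8), (16, .am 0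 7 8 9 1 1), (9, .pl 0 9 5 4), (44, .lf 5 7 8 8 5 7), (15, .am 0 6 7 8 1 1), (12, .lf 4 6 7 7 4 5)]) (.leaf [(132, .rt 0 1 3 0 2 3), (1, .pl 0 2 7 8), (316, .cf 0 1 3 0 3 8), (262, .rt 9 0 2 9 0 2), (36, .am 0 6 8 9 1 1), (16, .am 4 5 7 8 1 1), (130, .cf 9 0 2 8 2 7), (76, .am 5 6 7 9 1 1), (18, .am 0 6 7 8 1 1), (170, .ce 4 6 7 4 7 8), (16, .ta 5 1 2), (130, .lf 3 5 6 6 3 5), (54, .rt 0 1 3 0 1 3), (8, .am 4 7 8 9 1 1), (54, .lf 2 4 5 5 1 4), (23, .am 0 5 7 9 1 1), (224, .lf 4 6 7 7 4 6), (130, .pl 0 3 7 6), (131, .am 0 2 8 9 1 1), (49, .am 0 7 8 9 1 1), (82, .tb 5 1 2), (23, .pl 0 9 5 4), (54, .pl 0 1 6 5), (224, .lf 6 8 9 9 6 8), (15, .am 4 5 7 9 1 1)]) (.leaf [(20, .lf 6 8 9 9 6 8), (12, .lf 5 7 8 8 5 7), (6, .am 4 5 7 8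 1 1), (7, .ce 4 6 7 4 7 0), (12, .c4 5), (3, .am 4 7 8 9 1 1), (2, .am 0 6 7 8 1 1), (20, .lf 4 6 7 7 4 6), (8, .pl 0 1 6 5), (2, .am 0 6 7 9 1 1), (8, .lf 2 4 5 5 1 4), (5, .ce 5 7 8 4 9 0), (4, .am 0 6 8 9 1 1), (2, .am 4 5 7 9 1 1), (4, .am 5 6 7 9 1 1), (8, .cf 0 1 3 0 3 8), (8, .rt 0 1 3 0 1 3), (1, .am 0 7 8 9 1 1)])))))))

def C3544654554 : Tr :=
  .pr 9 2 (.pr 0 2 (.pr 7 2 (.pr 8 2 C3544654554_0 (.leaf [(1, .lf 8 0 1 1 8 0), (1, .rt 7 8 0 7 8 0), (1, .pl 1 9 8 7), (1, .pl 0 1 2 9), (1, .pl 0 2 7 9)])) (.pr 5 2 (.leaf [(1, .pl 0 1 6 5), (1, .pl 1 5 4 7), (1, .pl 0 9 2 4), (1, .rt 5 6 8 5 6 8), (1, .pl 4 9 7 5), (1, .pl 0 2 1 4), (1, .lf 7 9 0 0 6 9), (1, .rt 5 6 8 5 8 9)]) (.pr 4 2 (.leaf [(1, .lf 5 7 8 8 5 7), (1, .lf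 7 9 0 0 6 8), (1, .pl 0 2 7 9), (1, .pl 0 8 7 4), (2, .pl 0 3 5 4), (2, .rt 4 5 7 4 8 9), (3, .rt 4 5 7 4 7 8), (2, .lf 7 9 0 0 7 9), (2, .pl 0 9 3 4), (1, .pl 6 9 8 7), (1, .lf 5 7 8 9 5 6), (2, .rt 4 5 7 4 5 7), (1, .pl 0 5 6 8), (1, .pl 0 5 2 9)]) (.pr 6 2 (.leaf [(1, .pl 0 8 3 6), (1, .rt 6 7 9 6 7 9), (1, .pl 0 9 8 5), (1, .pl 0 3 7 4), (1, .pl 5 9 8 6), (1, .pl 3 4 6 7), (1, .lf 7 9 0 0 7 9)]) (.pr 3 2 (.leaf [(1, .rt 3 4 6 3 4 6), (1, .pl 3 4 6 7), (1, .lf 4 6 7 7 4 6)]) (.pr 2 2 (.leaf [(1, .pl 1 9 8 2), (1, .pl 0 6 1 8), (1, .rt 2 3 5 2 3 5), (1, .pl 1 3 9 6), (1, .rt 2 3 5 1 3 5), (1, .pl 2 9 5 6), (1, .pl 0 1 6 4), (1, .pl 2 3 8 6), (1, .pl 1 4 5 6), (2, .lf 3 5 6 6 3 5)]) (.leaf [(18, .pl 0 2 6 5), (9, .am 0 5 6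 8 1 1), (46, .lf 7 9 0 0 7 9), (13, .am 5 7 8 9 1 1), (32, .pl 0 3 7 6), (16, .am 0 7 8 9 1 1), (46, .ce 4 6 7 4 7 9), (5, .am 5 6 7 9 1 1), (18, .rt 0 1 3 0 2 3), (50, .lf 6 8 9 9 6 8), (15, .am 0 6 7 8 1 1), (50, .cf 0 1 3 0 3 8), (18, .lf 2 4 5 5 2 4), (21, .am 0 6 8 9 1 1), (9, .am 4 5 7 9 1 1), (44, .lf 5 7 8 8 5 7), (12, .lf 4 6 7 7 4 5), (52, .lf 4 6 7 7 4 6), (9, .pl 0 9 5 4), (2, .lf 6 8 9 9 6 7), (32, .lf 3 5 6 6 3 5)]))))))) (.leaf [(1, .pl 1 8 9 5), (1, .pl 2 3 8 6), (1, .rt 9 0 2 8 0 2), (1, .pl 0 9 3 5), (1, .rt 9 0 2 9 0 2), (1, .pl 3 6 5 8), (1, .pl 1 9 3 2), (2, .lf 0 2 3 3 0 2), (1, .pl 0 8 3 1)])) (.pr 7 2 (.leaf [(1, .pl 1 2 7 9), (1, .rt 7 8 0 7 0 1), (1, .rt 7 8 0 7 9 0), (1, .lf 9 1 2 2 9 1)]) (.pr 5 2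 (.leaf [(1, .pl 0 9 7 4), (1, .pl 1 4 5 6), (1, .pl 0 3 2 4), (2, .rt 5 6 8 5 6 8), (1, .rt 5 6 8 5 8 9), (1, .pl 4 8 7 5), (1, .pl 1 5 4 3), (1, .pl 0 9 3 5), (1, .lf 7 9 0 0 7 8), (2, .lf 7 9 0 0 6 9), (1, .pl 0 2 6 5), (1, .pl 2 5 4 7), (1, .pl 0 8 6 4), (1, .rt 5 6 8 4 7 9)]) (.pr 4 2 (.leaf [(1, .lf 9 1 2 2 9 1), (1, .pl 1 2 4 5), (2, .lf 5 7 8 9 5 7), (1, .ce 7 9 0 7 0 1), (1, .lf 7 9 0 0 7 9), (1, .am 4 5 7 9 1 1), (1, .pl 0 9 1 4), (1, .pl 2 5 9 7), (2, .rt 4 5 7 4 5 7)]) (.pr 6 2 (.leaf [(1, .pl 3 4 5 7), (1, .pl 5 9 8 6), (2, .lf 7 9 0 0 7 9), (1, .pl 0 8 7 4), (1, .pl 3 6 4 9), (1, .pl 0 3 7 6), (2, .rt 6 7 9 6 7 9), (1, .pl 0 9 8 4), (1, .pl 0 9 3 5), (1, .pl 5 8 7 6)]) (.pr 8 2 (.leaf [(1, .pl 1 2 7 8), (1, .pl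 0 9 7 4), (2, .lf 5 7 8 8 4 7), (2, .ce 4 6 7 4 7 9), (2, .rt 8 9 1 8 9 1), (1, .lf 7 9 0 1 7 9), (1, .am 1 2 8 9 1 1), (1, .am 4 7 8 9 1 1), (1, .lf 7 9 0 0 7 9), (2, .lf 9 1 2 2 9 1)]) (.pr 3 2 (.leaf [(1, .rt 3 4 6 3 4 6), (1, .pl 3 4 5 7), (1, .pl 3 5 6 7), (1, .lf 4 6 7 7 4 6)]) (.pr 1 2 (.leaf [(12, .lf 4 6 7 7 4 6), (7, .rt 1 2 4 1 2 5), (7, .lf 3 5 6 6 2 5), (9, .lf 5 7 8 8 5 7), (3, .am 0 1 7 8 1 1), (9, .ce 5 7 8 5 8 0), (3, .am 0 6 7 9 1 1), (7, .pl 0 1 6 5), (12, .lf 6 8 9 9 6 8), (4, .am 1 7 8 9 1 1), (2, .am 6 7 8 9 1 1), (2, .am 0 1 8 9 1 1), (12, .lf 8 0 1 1 8 0), (3, .ce 4 6 7 4 7 0), (7, .pl 1 2 7 6), (9, .ce 4 6 7 4 7 9), (9, .lf 7 9 0 0 7 9), (4, .am 0 6 8 9 1 1)]) (.leaf [(1, .am 1 7 8 9 1 1), (1, .am 4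 7 8 9 1 1), (6, .lf 1 3 4 4 1 2), (4, .lf 8 0 1 1 8 9), (6, .lf 5 7 8 8 5 7), (3, .ce 5 7 8 5 9 0), (1, .pl 0 1 6 4), (4, .am 0 6 7 9 1 1), (8, .lf 6 8 9 9 6 8), (9, .lf 3 5 6 6 2 4), (3, .lf 1 3 4 5 1 2), (4, .lf 8 0 1 1 8 0), (3, .am 2 5 9 8 1 1), (3, .lf 3 5 6 6 3 5), (1, .ce 5 7 8 4 9 0), (6, .pl 2 4 8 7), (3, .pl 3 4 6 7), (3, .lf 1 3 4 4 1 3), (3, .am 1 2 8 9 1 1), (1, .pl 1 2 7 6), (3, .pl 0 1 6 5), (8, .lf 7 9 0 0 7 9), (12, .lf 9 1 2 2 9 1), (8, .lf 4 6 7 7 4 6), (8, .pl 1 2 4 6), (2, .lf 5 7 8 8 4 7)]))))))))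

theorem ok_3544654554 : chk C3544654554 ⟨19207120489977341208005046286, [], [], [], [], []⟩ = true := by decide +kernel

end Pool.Agent.H146.TW
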