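import Pool.Agent.H292.TW.Chk3

/-!
Project TWELVE (helper221): certificate tree of one order pattern (helper146).
-/

set_option autoImplicit false
set_option maxRecDepth 100000

namespace Pool.Agent.H146.TW

open Pool.Agent.H292.TW.Chk

def C4444455555 : Tr :=
  .pr 7 2 (.pr 9 2 (.pr 1 2 (.pr 0 2 (.pr 8 2 (.leaf [(9, .rt 0 1 3 0 1 3), (3, .am 1 2 8 9 1 1), (2, .am 0 1 7 9 1 1), (9, .cf 1 2 4 1 4 9), (2, .am 0 2 8 9 1 1), (5, .pl 1 2 7 8), (1, .am 0 7 8 9 1 1), (1, .am 0 1 2 9 1 1), (3, .am 0 1 8 9 1 1), (9, .rt 7 8 0 7 8 0), (9, .rt 9 0 2 9 0 2), (3, .am 0 1 7 8 1 1), (9, .rt 8 9 1 8 9 1), (9, .rt 1 2 4 1 2 4), (9, .cf 0 1 3 0 3 8)]) (.leaf [(2, .cf 1 2 4 1 4 9), (1, .am 0 1 7 9 1 1), (2, .rt 1 2 4 1 2 4), (1, .rt 9 0 2 8 0 2), (2, .rt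 7 8 0 7 8 0), (1, .rt 9 0 2 9 0 2), (1, .pl 1 2 7 9), (1, .pl 1 2 7 8), (1, .am 0 1 7 8 1 1), (2, .lf 8 0 1 1 8 0), (2, .rt 7 8 0 7 9 0)])) (.leaf [(1, .pl 1 4 9 5), (1, .pl 2 3 4 5), (1, .lf 0 2 3 3 0 2), (1, .pl 2 4 9 6), (1, .pl 1 9 4 6), (1, .rt 9 0 2 9 0 2), (1, .pl 0 9 3 5)])) (.leaf [(1, .pl 3 4 9 7), (1, .rt 9 0 2 9 0 2), (1, .pl 0 9 4 5), (1, .lf 1 3 4 4 0 3), (1, .pl 4 6 5 9), (1, .pl 4 7 6 9), (1, .rt 9 0 2 9 2 3)])) (.leaf [(1, .lf 9 1 2 2 8 1), (1, .pl 2 4 8 7), (1, .rt 7 8 0 7 8 0), (1, .lf 9 1 2 2 9 0), (1, .rt 7 8 0 7 9 1), (1, .pl 1 2 7 4), (1, .pl 0 2 7 9)])) (.pr 5 2 (.leaf [(1, .pl 0 3 7 5), (1, .lf 7 9 0 0 7 8), (1, .rt 5 6 8 5 7 9), (1, .pl 0 9 6 5), (1, .rt 5 6 8 5 6 8), (1, .lf 7 9 0 0 6 9), (1, .pl 0 8 3 5)]) (.pr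 4 2 (.leaf [(1, .rt 4 5 7 4 5 7), (1, .pl 2 8 4 5), (1, .lf 5 7 8 8 5 7), (1, .pl 2 4 8 7)]) (.pr 6 2 (.leaf [(1, .pl 0 9 4 1), (1, .pl 0 3 7 1), (2, .rt 6 7 9 6 7 9), (2, .lf 7 9 0 0 7 9), (1, .pl 0 9 3 5), (1, .pl 1 7 9 5), (1, .pl 1 8 4 5), (2, .pl 1 9 8 6), (1, .pl 1 3 8 5), (1, .pl 0 4 7 5), (2, .pl 1 8 7 6)]) (.pr 3 2 (.leaf [(1, .pl 0 3 7 5), (1, .rt 3 4 6 3 4 6), (1, .pl 3 5 6 7), (1, .lf 4 6 7 7 4 6), (1, .pl 0 7 3 4)]) (.pr 2 2 (.leaf [(1, .pl 2 8 4 6), (1, .pl 2 9 5 6), (1, .pl 2 4 9 6), (1, .lf 3 5 6 6 3 5), (1, .rt 2 3 5 2 3 5), (1, .pl 2 3 8 6)]) (.pr 1 2 (.leaf [(1, .pl 1 3 8 5), (1, .pl 1 8 4 5), (1, .lf 2 4 5 5 2 4), (1, .pl 1 7 3 5), (1, .rt 1 2 4 1 2 4), (1, .pl 1 2 7 5)]) (.pr 0 2 (.leaf [(1, .pl 0 1 6 3), (2, .rt 0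 1 3 0 1 3), (1, .lf 4 6 7 7 4 6), (2, .lf 1 3 4 4 1 3), (1, .lf 7 9 0 0 6 9), (1, .cf 0 1 3 0 4 9), (1, .am 0 1 3 4 1 1), (1, .pl 3 4 6 7)]) (.leaf [(4, .pl 0 3 7 6), (7, .lf 3 5 6 6 3 5), (7, .lf 5 7 8 8 5 7), (3, .pl 3 4 9 7), (7, .lf 1 3 4 4 0 3), (5, .ce 4 6 7 4 7 8), (3, .pl 0 3 8 9), (3, .pl 0 9 4 5), (3, .pl 0 8 6 5), (2, .am 5 7 8 9 1 1), (3, .am 0 6 7 9 1 1), (1, .am 5 6 7 9 1 1), (8, .lf 4 6 7 7 4 6), (10, .lf 7 9 0 0 7 9), (5, .lf 6 8 9 9 6 8), (3, .lf 0 2 3 3 9 2), (7, .lf 0 2 3 3 9 0), (3, .lf 6 8 9 9 6 7), (3, .lf 2 4 5 5 2 4), (4, .pl 0 9 4 3), (3, .pl 2 3 5 6)]))))))))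

theorem ok_4444455555 : chk C4444455555 ⟨39014161120848704566139613214, [], [], [], [], []⟩ = true := by decide +kernel

end Pool.Agent.H146.TW
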