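import Pool.Agent.H292.TW.Chk3

/-!
Project TWELVE (helper221): certificate tree of one order pattern (helper146).
-/

set_option autoImplicit false
set_option maxRecDepth 100000

namespace Pool.Agent.H146.TW

open Pool.Agent.H292.TW.Chk

def C4454455455 : Tr :=
  .pr 6 2 (.pr 8 2 (.pr 0 2 (.pr 9 2 (.pr 7 2 (.pr 1 2 (.pr 2 2 (.pr 3 2 (.leaf [(1, .rt 8 9 1 8 9 1), (2, .rt 6 7 9 6 7 9), (1, .pl 0 1 6 8), (1, .pl 3 6 9 8), (2, .rt 2 3 5 2 3 6), (1, .rt 7 8 0 7 9 0), (1, .rt 0 1 3 0 1 3), (1, .pl 2 3 9 7), (1, .rt 9 0 2 9 0 2), (1, .am 0 6 3 9 1 1), (1, .pl 2 3 6 7), (2, .rt 3 4 6 3 6 7), (1, .rt 0 1 3 0 2 3), (1, .pl 0 2 7 6)]) (.leaf [(2, .rt 6 7 9 6 7 0), (2, .rt 6 7 9 6 7 9), (2, .pl 2 3 8 9), (2, .pl 0 9 6 5), (1, .am 2 3 9 5 1 1),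 (4, .ce 3 5 6 2 6 7), (1, .am 3 6 5 9 1 1), (4, .am 2 3 5 6 1 1), (2, .rt 9 0 2 9 0 2), (2, .rt 8 9 1 8 9 2), (7, .rt 2 3 5 2 3 5), (7, .lf 3 5 6 6 3 5)])) (.leaf [(1, .rt 1 2 4 1 2 4), (1, .lf 2 4 5 5 2 4), (1, .pl 1 2 3 5), (1, .pl 1 8 4 5), (1, .pl 1 3 8 5)])) (.leaf [(1, .pl 0 6 7 9), (1, .pl 0 2 3 9), (1, .pl 3 4 9 7), (1, .pl 0 9 4 7), (1, .pl 2 4 9 6), (1, .lf 1 3 4 4 0 2), (1, .rt 0 1 3 0 1 3), (1, .pl 0 7 2 9), (1, .rt 9 0 2 9 0 2), (1, .lf 1 3 4 4 1 3), (1, .pl 0 1 6 4)])) (.leaf [(2, .rt 6 7 9 6 8 9), (1, .rt 8 9 1 8 9 1), (2, .lf 7 9 0 0 7 9), (1, .pl 0 1 6 8), (2, .rt 6 7 9 6 7 9), (1, .am 0 6 7 9 1 1), (2, .cf 0 1 3 0 3 8), (2, .rt 0 1 3 0 1 3), (1, .pl 0 1 6 7), (1, .am 0 6 8 9 1 1), (1, .rt 8 9 1 7 9 1)])) (.leaf [(1,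 .pl 1 2 8 5), (1, .pl 0 3 8 9), (1, .pl 2 5 9 3), (1, .pl 0 8 3 5), (1, .lf 9 1 2 2 9 1), (1, .rt 8 9 1 8 9 1)])) (.leaf [(1, .pl 0 8 3 5), (1, .pl 1 3 8 5), (1, .rt 8 9 1 8 1 2), (1, .pl 1 8 3 2), (1, .lf 0 2 3 3 0 2), (1, .rt 8 9 1 8 0 1)])) (.leaf [(1, .rt 6 7 9 6 8 9), (1, .lf 8 0 1 1 7 9), (1, .rt 6 7 9 6 7 9), (1, .lf 8 0 1 1 8 0), (1, .rt 6 7 9 6 9 0), (1, .pl 0 1 6 7), (1, .pl 1 4 8 6), (1, .pl 1 9 4 6)])) (.pr 5 2 (.leaf [(1, .lf 6 8 9 9 6 8), (1, .rt 5 6 8 5 6 8), (1, .pl 2 9 5 7), (1, .pl 2 5 9 8), (1, .pl 5 6 7 9)]) (.pr 4 2 (.leaf [(1, .lf 5 7 8 8 5 7), (1, .rt 4 5 7 4 5 7), (1, .pl 4 6 7 8), (1, .pl 4 5 6 8)]) (.pr 3 2 (.leaf [(1, .lf 4 6 7 7 4 6), (1, .pl 2 4 5 7), (1, .pl 2 5 4 3), (1, .rt 3 4 6 3 4 6), (1, .pl 3 5 6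 7)]) (.pr 2 2 (.leaf [(1, .lf 4 6 7 7 4 6), (2, .lf 3 5 6 6 3 5), (1, .pl 2 3 6 7), (1, .am 2 3 5 6 1 1), (1, .ce 4 6 7 4 7 8), (1, .pl 3 7 9 8), (2, .rt 2 3 5 2 3 5), (1, .lf 6 8 9 9 6 8), (1, .pl 3 9 5 6)]) (.pr 1 2 (.leaf [(1, .pl 1 3 8 5), (1, .lf 2 4 5 5 2 4), (1, .pl 1 2 3 5), (1, .pl 1 8 4 5), (1, .rt 1 2 4 1 2 4)]) (.pr 0 2 (.leaf [(1, .rt 0 1 3 0 1 3), (1, .pl 1 9 4 6), (1, .pl 3 4 9 6), (1, .pl 0 1 7 9), (1, .pl 0 7 2 9), (1, .pl 0 2 3 9), (1, .lf 1 3 4 4 1 3)]) (.pr 8 2 (.leaf [(1, .pl 2 3 8 7), (1, .pl 1 3 8 5), (1, .pl 1 8 3 7), (1, .pl 3 5 9 8), (1, .lf 0 2 3 3 9 2), (1, .rt 8 9 1 8 9 2)]) (.leaf [(4, .am 4 5 6 7 1 1), (18, .lf 5 7 8 8 5 6), (4, .am 2 3 4 5 1 1), (24, .pl 1 3 8 9), (24, .lf 2 4 5 5 2 4), (8, .am 3 4 5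 7 1 1), (6, .lf 0 2 3 3 9 2), (18, .lf 0 2 3 3 9 1), (24, .lf 4 6 7 7 4 6), (24, .lf 8 0 1 1 8 9), (3, .pl 1 9 8 6), (3, .pl 0 1 6 7), (14, .pl 2 3 6 7), (8, .am 2 4 5 6 1 1), (24, .lf 6 8 9 9 6 8), (15, .pl 0 1 6 8), (21, .pl 1 9 4 6), (3, .am 1 4 3 7 1 1), (18, .pl 0 8 3 5), (18, .lf 0 2 3 3 0 2), (18, .lf 3 5 6 6 3 5), (6, .am 2 3 5 6 1 1), (18, .lf 1 3 4 4 1 3), (3, .am 3 4 6 7 1 1), (18, .lf 6 8 9 0 6 8), (18, .lf 8 0 1 1 8 0)]))))))))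

theorem ok_4454455455 : chk C4454455455 ⟨39014156398482221696628617246, [], [], [], [], []⟩ = true := by decide +kernel

end Pool.Agent.H146.TW
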