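import Pool.Agent.H292.TW.Chk3

/-!
Project TWELVE (helper221): certificate tree of one order pattern (helper146).
-/

set_option autoImplicit false
set_option maxRecDepth 100000

namespace Pool.Agent.H146.TW

open Pool.Agent.H292.TW.Chk

def C4543354665 : Tr :=
  .pr 9 2 (.pr 1 2 (.pr 3 2 (.pr 0 2 (.pr 2 2 (.pr 7 2 (.pr 8 2 (.leaf [(9, .cf 3 4 6 2 6 1), (4, .am 0 1 2 8 1 1), (20, .cf 1 2 4 1 4 8), (20, .rt 9 0 2 9 0 2), (2, .am 0 2 3 8 1 1), (24, .rt 0 1 3 0 1 3), (20, .rt 7 8 0 7 8 0), (4, .am 1 7 8 9 1 1), (15, .rt 8 9 1 8 9 1), (20, .rt 1 2 4 1 2 4), (7, .pl 2 3 7 8), (15, .rt 1 2 4 1 3 4), (6, .am 0 2 8 9 1 1), (4, .am 0 1 7 9 1 1), (10, .am 0 1 3 9 1 1), (4, .am 1 2 7 9 1 1), (15, .cf 1 2 4 1 4 9), (5, .am 1 3 8 9 1 1), (3, .am 1 2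 7 8 1 1), (6, .am 0 1 7 8 1 1), (9, .rt 2 3 5 2 3 6)]) (.leaf [(24, .rt 7 8 0 7 9 0), (3, .am 1 2 3 8 1 1), (12, .rt 0 1 3 0 1 3), (8, .rt 9 0 2 8 0 2), (1, .am 1 2 7 8 1 1), (6, .pl 2 3 7 9), (8, .am 0 1 7 8 1 1), (8, .am 1 2 7 9 1 1), (6, .am 0 1 3 9 1 1), (16, .rt 9 0 2 9 0 2), (24, .cf 1 2 4 1 4 9), (12, .rt 7 8 0 7 8 0), (24, .rt 1 2 4 1 2 4), (10, .am 0 1 7 9 1 1), (3, .pl 2 3 7 8), (12, .rt 2 3 5 2 3 5), (12, .cf 2 3 5 2 5 1), (12, .lf 8 0 1 1 8 0)])) (.pr 6 2 (.leaf [(1, .lf 7 9 0 0 7 9), (1, .pl 0 9 8 6), (1, .pl 0 8 4 6), (1, .rt 6 7 9 6 7 9), (1, .pl 0 4 7 6)]) (.pr 5 2 (.leaf [(2, .am 4 6 5 9 1 1), (24, .rt 9 0 2 9 0 2), (8, .am 2 6 5 8 1 1), (9, .pl 1 2 5 6), (3, .am 1 2 4 5 1 1), (6, .am 1 5 9 8 1 1), (11, .pl 2 4 8 9), (24,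 .rt 2 3 5 2 4 5), (36, .rt 5 6 8 5 6 8), (9, .am 1 2 4 9 1 1), (1, .am 2 4 5 6 1 1), (24, .ce 6 8 9 5 9 0), (16, .am 5 6 8 9 1 1), (24, .rt 1 2 4 1 2 4), (3, .am 1 2 8 9 1 1), (36, .lf 6 8 9 9 6 8)]) (.pr 8 2 (.leaf [(13, .am 2 3 4 6 1 1), (32, .am 0 3 4 9 1 1), (384, .rt 1 2 4 1 2 4), (91, .am 2 3 8 6 1 1), (78, .pl 3 4 8 9), (80, .rt 1 2 4 1 3 4), (32, .rt 9 0 2 9 1 2), (256, .rt 8 9 1 8 9 1), (208, .rt 3 4 6 3 4 6), (40, .am 1 2 3 4 1 1), (256, .cf 1 2 4 1 4 9), (352, .rt 9 0 2 9 0 2), (224, .rt 0 1 3 0 1 3), (128, .am 0 1 3 9 1 1), (32, .am 1 3 4 9 1 1), (144, .pl 1 2 8 5), (14, .am 0 2 4 9 1 1), (92, .am 0 1 2 4 1 1), (178, .am 0 2 8 9 1 1), (352, .ce 5 7 8 5 8 0), (104, .pl 1 2 8 6), (208, .lf 5 7 8 8 5 6), (4, .am 0 1 2 8 1 1), (144,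 .rt 2 3 5 2 3 5), (13, .pl 3 4 8 6)]) (.pr 4 2 (.ch 7 (.leaf [(9, .pl 2 3 7 8), (32, .cf 1 2 4 1 4 8), (6, .am 0 1 3 8 1 1), (9, .am 1 2 7 8 1 1), (16, .ce 6 8 9 6 9 0), (12, .rt 0 1 3 0 1 3), (32, .rt 1 2 4 1 2 4), (8, .am 0 1 2 8 1 1), (18, .am 0 1 7 8 1 1), (36, .rt 7 8 0 7 8 0), (16, .lf 6 8 9 9 6 8), (16, .am 0 2 8 9 1 1), (32, .rt 9 0 2 9 0 2), (12, .cf 3 4 6 2 6 1), (20, .lf 8 0 1 1 8 0), (12, .rt 2 3 5 2 3 6), (3, .am 1 2 3 8 1 1)]) (.leaf [(52, .am 0 2 8 9 1 1), (58, .ce 6 8 9 5 9 0), (36, .rt 0 1 3 0 2 3), (60, .lf 5 7 8 8 5 7), (6, .pl 3 4 8 9), (60, .rt 9 0 2 9 0 2), (6, .am 0 1 3 8 1 1), (60, .lf 9 1 2 2 9 1), (15, .am 1 2 3 8 1 1), (38, .cf 3 4 6 2 6 1), (8, .am 1 2 3 9 1 1), (15, .pl 2 3 7 8), (4, .am 0 1 3 9 1 1), (38, .rt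 2 3 5 2 3 6), (6, .am 0 3 4 9 1 1), (30, .am 0 1 7 8 1 1), (60, .lf 7 9 0 0 7 9), (12, .am 0 1 3 4 1 1), (24, .rt 1 2 4 1 2 4), (8, .am 0 1 2 8 1 1), (2, .rt 0 1 3 0 1 3), (60, .ce 5 7 8 5 8 0), (58, .lf 8 0 1 1 8 0), (58, .lf 6 8 9 9 5 8), (15, .am 1 2 7 8 1 1), (24, .rt 3 4 6 3 4 6), (24, .cf 3 4 6 3 6 1)]) (.leaf [(1190, .lf 6 8 9 9 6 8), (296, .pl 2 3 7 8), (241, .am 0 3 8 9 1 1), (1190, .lf 8 0 1 1 8 0), (358, .am 0 1 3 9 1 1), (110, .pl 1 2 8 6), (190, .ta 7 1 2), (1190, .ce 6 8 9 6 9 0), (55, .am 0 3 4 9 1 1), (234, .am 1 2 3 9 1 1), (804, .am 0 7 8 9 1 1), (2050, .ce 5 7 8 5 8 0), (220, .rt 3 4 6 3 4 6), (55, .pl 3 4 8 9), (1190, .cf 1 2 4 1 4 9), (1190, .lf 5 7 8 8 5 7), (502, .am 0 1 7 9 1 1), (1410, .rt 1 2 4 1 2 4), (90, .am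 0 1 7 8 1 1), (620, .tb 7 1 2), (640, .pl 1 2 8 5), (110, .am 0 1 3 4 1 1), (110, .am 2 3 8 6 1 1), (296, .am 1 2 7 9 1 1), (640, .rt 2 3 5 2 3 5), (220, .lf 5 7 8 8 5 6), (130, .am 0 1 2 8 1 1), (90, .am 0 2 8 9 1 1), (640, .rt 0 1 3 0 2 3)]) (.leaf [(1, .am 1 2 3 8 1 1), (2, .am 0 1 3 8 1 1), (5, .pl 2 3 7 8), (2, .am 0 2 3 8 1 1), (8, .rt 2 3 5 2 3 5), (8, .rt 0 1 3 0 1 3), (8, .cf 2 3 5 2 5 1), (6, .am 0 1 2 8 1 1), (30, .lf 8 0 1 1 8 0), (20, .rt 9 0 2 9 0 2), (30, .lf 6 8 9 9 6 8), (10, .am 0 2 8 9 1 1), (30, .ce 6 8 9 6 9 0), (20, .c4 7), (5, .am 1 2 7 8 1 1), (20, .lf 7 9 0 0 7 9), (10, .am 0 1 7 8 1 1)])) (.ch 7 (.leaf [(32, .cf 1 2 4 1 4 8), (12, .am 0 2 8 9 1 1), (32, .rt 9 0 2 9 0 2), (3, .am 0 3 8 9 1 1), (9, .pl 2 3 7 8),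 (2, .am 0 1 3 9 1 1), (4, .am 1 2 3 9 1 1), (15, .ce 6 8 9 6 9 0), (15, .lf 6 8 9 9 6 8), (13, .cf 2 3 5 2 5 1), (9, .am 1 2 7 8 1 1), (6, .am 0 1 3 8 1 1), (19, .lf 8 0 1 1 8 0), (6, .am 0 1 2 8 1 1), (13, .rt 2 3 5 2 3 5), (32, .rt 1 2 4 1 2 4), (18, .am 0 1 7 8 1 1), (13, .rt 0 1 3 0 1 3), (36, .rt 7 8 0 7 8 0)]) (.leaf [(15, .am 0 3 4 9 1 1), (38, .lf 6 8 9 9 5 8), (60, .rt 1 2 4 1 2 4), (52, .am 1 2 3 9 1 1), (8, .am 0 1 3 9 1 1), (15, .am 0 3 8 9 1 1), (6, .am 0 1 3 8 1 1), (6, .am 1 2 7 8 1 1), (4, .am 0 1 2 8 1 1), (30, .am 0 1 3 4 1 1), (58, .rt 2 3 5 2 3 6), (12, .am 0 1 7 8 1 1), (60, .cf 3 4 6 3 6 1), (2, .lf 8 0 1 1 8 0), (60, .rt 3 4 6 3 4 6), (8, .am 0 2 8 9 1 1), (38, .ce 6 8 9 5 9 0), (58, .cf 3 4 6 2 6 1), (24, .lf 7 9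 0 0 7 9), (15, .pl 3 4 8 9), (24, .lf 5 7 8 8 5 7), (24, .ce 5 7 8 5 8 0), (60, .lf 9 1 2 2 9 1), (60, .rt 9 0 2 9 0 2), (6, .pl 2 3 7 8), (58, .rt 0 1 3 0 1 3), (36, .lf 8 0 1 1 8 9)]) (.leaf [(1190, .cf 1 2 4 1 4 9), (234, .am 1 2 3 9 1 1), (804, .am 0 7 8 9 1 1), (620, .tb 7 1 2), (190, .ta 7 1 2), (358, .am 0 1 3 9 1 1), (1410, .rt 1 2 4 1 2 4), (640, .rt 2 3 5 2 3 5), (110, .pl 1 2 8 6), (55, .pl 3 4 8 9), (1190, .ce 6 8 9 6 9 0), (640, .pl 1 2 8 5), (55, .am 0 3 4 9 1 1), (296, .pl 2 3 7 8), (220, .rt 3 4 6 3 4 6), (90, .am 0 2 8 9 1 1), (296, .am 1 2 7 9 1 1), (1190, .lf 5 7 8 8 5 7), (1190, .lf 6 8 9 9 6 8), (90, .am 0 1 7 8 1 1), (130, .am 0 1 2 8 1 1), (1190, .lf 8 0 1 1 8 0), (640, .rt 0 1 3 0 2 3), (110, .am 0 1 3 4 1 1), (220,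 .lf 5 7 8 8 5 6), (241, .am 0 3 8 9 1 1), (110, .am 2 3 8 6 1 1), (2050, .ce 5 7 8 5 8 0), (502, .am 0 1 7 9 1 1)]) (.leaf [(10, .am 0 1 2 8 1 1), (89, .ce 6 8 9 6 9 0), (25, .rt 0 1 3 0 1 3), (25, .cf 2 3 5 2 5 1), (60, .rt 9 0 2 9 0 2), (3, .am 0 3 8 9 1 1), (10, .am 1 2 3 9 1 1), (8, .am 0 1 3 9 1 1), (15, .pl 2 3 7 8), (6, .am 1 3 8 9 1 1), (60, .lf 7 9 0 0 7 9), (20, .am 0 2 8 9 1 1), (15, .am 1 2 7 8 1 1), (6, .am 0 1 3 8 1 1), (89, .lf 6 8 9 9 6 8), (60, .c4 7), (89, .lf 8 0 1 1 8 0), (25, .rt 2 3 5 2 3 5), (30, .am 0 1 7 8 1 1)]))))))) (.leaf [(1, .pl 2 6 5 7), (1, .rt 1 2 4 1 2 4), (1, .pl 1 2 7 6), (1, .lf 2 4 5 5 2 4), (1, .pl 1 7 4 5)])) (.leaf [(2, .lf 0 2 3 3 0 2), (2, .cf 3 4 6 3 6 1), (1, .rt 1 2 4 0 2 4), (2, .rt 3 4 6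 3 4 6), (1, .am 1 2 3 9 1 1), (1, .pl 0 9 4 3), (1, .am 0 2 3 9 1 1), (2, .rt 9 0 2 9 0 2), (1, .pl 1 9 4 3), (2, .rt 9 0 2 9 1 2), (1, .rt 1 2 4 1 2 4)])) (.leaf [(1, .rt 1 2 4 1 4 5), (1, .rt 1 2 4 1 2 4), (1, .pl 0 6 1 9), (1, .pl 0 1 6 5), (1, .pl 1 7 4 6), (1, .pl 1 3 9 6), (1, .pl 1 2 7 6), (1, .lf 3 5 6 6 2 5), (1, .rt 1 2 4 1 3 4), (1, .lf 3 5 6 6 3 4)])) (.leaf [(1, .rt 9 0 2 9 0 2), (1, .lf 1 3 4 4 0 3), (1, .rt 9 0 2 9 2 3), (1, .pl 0 9 4 3)])) (.pr 7 2 (.leaf [(1, .pl 3 9 8 7), (1, .pl 0 7 2 1), (1, .pl 0 2 7 9), (1, .rt 7 8 0 7 8 1), (1, .lf 9 1 2 2 9 1), (1, .lf 9 1 2 3 8 9)]) (.pr 5 2 (.leaf [(1, .rt 5 6 8 5 6 9), (1, .pl 0 3 6 5), (1, .pl 0 9 7 5), (1, .lf 7 9 0 0 6 8), (1, .rt 5 6 8 5 7 8), (1, .lf 7 9 0 0 7 9), (1, .pl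 0 8 3 5)]) (.pr 8 2 (.leaf [(1, .am 0 3 8 9 1 1), (2, .lf 9 1 2 3 9 0), (1, .pl 1 2 7 8), (2, .lf 9 1 2 2 9 1), (2, .ce 5 7 8 5 8 0), (1, .lf 7 9 0 1 7 9), (2, .lf 5 7 8 8 5 7), (1, .am 1 2 8 9 1 1), (2, .rt 8 9 1 8 9 1), (1, .pl 0 3 7 8), (1, .lf 7 9 0 0 7 9)]) (.pr 6 2 (.leaf [(1, .pl 0 9 8 5), (1, .rt 6 7 9 6 7 9), (1, .pl 5 9 8 6), (1, .pl 0 8 7 6), (1, .lf 7 9 0 0 7 9)]) (.pr 1 2 (.pr 2 2 (.pr 3 2 (.pr 0 2 (.pr 4 2 (.ch 8 (.leaf [(6, .rt 8 9 1 8 9 1), (1, .pl 2 3 7 8), (2, .rt 2 3 5 2 3 5), (2, .lf 7 9 0 0 7 9), (2, .cf 2 3 5 2 5 1), (2, .lf 9 1 2 2 9 0), (1, .am 0 2 3 8 1 1), (2, .am 0 1 8 9 1 1), (1, .am 0 2 7 8 1 1), (2, .lf 5 7 8 8 5 7), (2, .ce 5 7 8 5 8 0), (4, .am 1 2 8 9 1 1), (6, .lf 9 1 2 2 9 1), (2, .rt 0 1 3 0 1 3)]) (.leaf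 [(128, .am 0 1 2 8 1 1), (40, .am 0 7 8 9 1 1), (144, .pl 0 9 3 6), (384, .lf 7 9 0 0 7 9), (224, .lf 8 0 1 1 8 0), (14, .am 1 2 7 9 1 1), (13, .pl 3 5 8 7), (256, .lf 0 2 3 3 0 2), (208, .rt 3 4 6 3 5 6), (80, .lf 7 9 0 0 7 8), (78, .pl 2 3 7 8), (352, .lf 9 1 2 2 9 1), (4, .am 0 1 3 9 1 1), (352, .cf 3 4 6 3 6 1), (32, .lf 9 1 2 2 9 0), (32, .am 0 2 7 8 1 1), (208, .lf 5 7 8 8 5 7), (178, .am 1 2 3 9 1 1), (256, .ce 7 9 0 7 0 2), (91, .am 3 5 9 8 1 1), (13, .am 5 7 8 9 1 1), (144, .lf 6 8 9 9 6 8), (92, .am 0 1 7 9 1 1), (32, .am 1 2 7 8 1 1), (104, .pl 0 9 3 5)]) (.ch 9 (.leaf [(110, .am 0 1 3 4 1 1), (300, .rt 9 0 2 9 0 2), (148, .lf 8 0 1 1 8 9), (80, .rt 0 1 3 0 2 3), (73, .am 0 3 8 9 1 1), (152, .lf 7 9 0 0 7 9), (300, .lf 9 1 2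 2 9 1), (208, .lf 6 8 9 9 5 8), (18, .am 0 1 3 8 1 1), (76, .am 0 1 7 8 1 1), (38, .pl 2 3 7 8), (260, .rt 2 3 5 2 3 5), (152, .ce 5 7 8 5 8 0), (80, .am 0 2 8 9 1 1), (208, .ce 5 7 8 5 9 0), (220, .am 1 2 3 9 1 1), (2, .am 1 2 3 8 1 1), (38, .am 1 2 7 8 1 1), (60, .tb 8 1 2), (220, .rt 1 2 4 1 2 4), (260, .cf 2 3 5 2 5 1), (55, .am 0 3 4 9 1 1), (220, .rt 3 4 6 3 4 6), (55, .pl 3 4 8 9), (220, .cf 3 4 6 3 6 1), (152, .lf 5 7 8 8 5 7), (36, .am 0 1 3 9 1 1)]) (.leaf [(17, .tb 8 1 2), (8, .am 0 3 4 9 1 1), (1, .ta 8 1 2), (2, .am 0 1 2 3 1 1), (20, .cf 2 3 5 2 5 1), (40, .lf 9 1 2 2 9 1), (8, .pl 3 4 8 9), (4, .am 0 2 8 9 1 1), (20, .lf 6 8 9 9 6 8), (40, .lf 7 9 0 0 7 9), (40, .ce 7 9 0 7 0 1), (16, .am 0 1 3 4 1 1), (20, .rt 2 3 5 2 3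 5), (16, .am 1 2 3 9 1 1), (6, .am 0 1 3 8 1 1), (32, .lf 1 3 4 4 1 3), (20, .ce 6 8 9 6 9 0), (8, .am 0 1 8 9 1 1), (2, .am 1 2 3 8 1 1)]) (.leaf [(97, .am 0 2 8 9 1 1), (159, .am 0 1 2 4 1 1), (181, .lf 6 8 9 9 5 8), (181, .ce 5 7 8 5 9 0), (363, .cf 3 4 6 3 6 1), (84, .am 0 3 4 9 1 1), (84, .am 1 2 3 8 1 1), (29, .ta 8 1 2), (71, .am 0 1 2 8 1 1), (127, .am 0 1 3 9 1 1), (489, .lf 7 9 0 0 7 9), (9, .am 0 1 3 4 1 1), (84, .pl 3 4 8 9), (138, .ta 9 1 2), (363, .ce 7 9 0 7 0 2), (311, .cf 2 3 5 2 6 1), (363, .rt 3 4 6 3 4 6), (186, .am 1 2 3 4 1 1), (126, .ce 7 9 0 7 0 1), (94, .tb 8 1 2), (75, .tb 9 1 2), (41, .am 1 2 3 9 1 1), (311, .rt 2 3 5 2 3 6)]) (.leaf [(1, .ta 8 1 2), (16, .am 0 1 3 4 1 1), (17, .tb 8 1 2), (16, .am 1 2 3 9 1 1),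 (32, .rt 1 2 4 1 2 4), (40, .lf 9 1 2 2 9 1), (2, .am 0 1 2 3 1 1), (6, .am 0 1 3 8 1 1), (8, .am 0 1 8 9 1 1), (4, .am 0 2 8 9 1 1), (32, .c4 9), (8, .am 0 3 4 9 1 1), (8, .pl 3 4 8 9), (52, .rt 2 3 5 2 3 6), (8, .lf 7 9 0 0 7 9), (2, .am 1 2 3 8 1 1), (8, .ce 7 9 0 7 0 1), (52, .cf 2 3 5 2 6 1), (20, .ce 6 8 9 6 9 0), (20, .lf 6 8 9 9 6 8)])) (.leaf [(27, .c4 8), (24, .lf 5 7 8 8 5 7), (27, .lf 8 0 1 1 8 0), (3, .rt 0 1 3 0 1 3), (48, .lf 9 1 2 2 9 1), (2, .pl 0 3 7 8), (48, .lf 7 9 0 0 7 9), (9, .am 0 1 8 9 1 1), (4, .am 1 2 3 9 1 1), (12, .am 0 1 7 8 1 1), (14, .ce 9 1 2 7 2 3), (10, .ce 7 9 0 7 0 3), (24, .rt 3 4 6 3 5 6), (12, .am 0 2 8 9 1 1), (9, .am 0 1 2 3 1 1), (6, .am 0 2 7 8 1 1), (24, .cf 3 4 6 3 6 1), (2, .am 1 3 8 9 1 1),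 (8, .am 1 2 7 9 1 1), (24, .pl 0 8 3 5), (4, .am 1 7 8 9 1 1)])) (.ch 8 (.leaf [(2, .am 0 2 3 8 1 1), (4, .ce 5 7 8 5 8 0), (2, .pl 2 3 7 8), (4, .lf 7 9 0 0 7 9), (4, .cf 2 3 5 2 6 1), (1, .am 0 1 2 9 1 1), (1, .am 0 1 8 9 1 1), (4, .rt 2 3 5 2 3 6), (1, .am 1 2 7 8 1 1), (1, .am 2 7 8 9 1 1), (4, .rt 8 9 1 8 0 1), (14, .lf 9 1 2 2 9 1), (4, .rt 0 1 3 0 1 3), (2, .am 0 1 7 9 1 1), (8, .am 1 2 8 9 1 1), (10, .rt 8 9 1 8 9 1), (4, .lf 5 7 8 8 5 7)]) (.leaf [(40, .am 0 7 8 9 1 1), (224, .lf 8 0 1 1 8 0), (128, .am 0 1 2 8 1 1), (384, .lf 7 9 0 0 7 9), (4, .am 0 1 3 9 1 1), (91, .am 3 5 9 8 1 1), (13, .am 5 7 8 9 1 1), (178, .am 1 2 3 9 1 1), (78, .pl 2 3 7 8), (352, .cf 3 4 6 3 6 1), (256, .ce 7 9 0 7 0 2), (104, .pl 0 9 3 5), (208, .rt 3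 4 6 3 5 6), (208, .lf 5 7 8 8 5 7), (32, .am 1 2 7 8 1 1), (256, .lf 0 2 3 3 0 2), (144, .lf 6 8 9 9 6 8), (13, .pl 3 5 8 7), (144, .pl 0 9 3 6), (32, .lf 9 1 2 2 9 0), (32, .am 0 2 7 8 1 1), (80, .lf 7 9 0 0 7 8), (352, .lf 9 1 2 2 9 1), (92, .am 0 1 7 9 1 1), (14, .am 1 2 7 9 1 1)]) (.ch 9 (.leaf [(208, .lf 6 8 9 9 5 8), (208, .ce 5 7 8 5 9 0), (55, .am 0 3 4 9 1 1), (38, .am 1 2 7 8 1 1), (152, .lf 7 9 0 0 7 9), (2, .am 1 2 3 8 1 1), (38, .pl 2 3 7 8), (60, .tb 8 1 2), (148, .lf 8 0 1 1 8 9), (260, .rt 2 3 5 2 3 5), (220, .cf 3 4 6 3 6 1), (300, .lf 9 1 2 2 9 1), (76, .am 0 1 7 8 1 1), (260, .cf 2 3 5 2 5 1), (220, .rt 3 4 6 3 4 6), (152, .ce 5 7 8 5 8 0), (36, .am 0 1 3 9 1 1), (80, .rt 0 1 3 0 2 3), (80, .am 0 2 8 9 1 1), (73, .am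 0 3 8 9 1 1), (110, .am 0 1 3 4 1 1), (55, .pl 3 4 8 9), (220, .rt 1 2 4 1 2 4), (152, .lf 5 7 8 8 5 7), (300, .rt 9 0 2 9 0 2), (18, .am 0 1 3 8 1 1), (220, .am 1 2 3 9 1 1)]) (.leaf [(20, .am 1 2 3 9 1 1), (16, .am 0 1 3 4 1 1), (6, .am 0 1 3 8 1 1), (32, .lf 1 3 4 4 1 3), (40, .lf 7 9 0 0 7 9), (20, .cf 2 3 5 2 5 1), (1, .ta 8 1 2), (10, .am 0 1 8 9 1 1), (20, .rt 2 3 5 2 3 5), (20, .lf 6 8 9 9 5 8), (20, .ce 5 7 8 5 9 0), (40, .lf 9 1 2 2 9 1), (8, .pl 3 4 8 9), (8, .am 0 3 4 9 1 1), (2, .am 0 3 8 9 1 1), (40, .ce 7 9 0 7 0 1), (17, .tb 8 1 2)]) (.leaf [(181, .lf 6 8 9 9 6 8), (186, .am 1 2 3 4 1 1), (138, .ta 9 1 2), (84, .pl 3 4 8 9), (71, .am 0 1 2 8 1 1), (363, .cf 3 4 6 3 6 1), (363, .rt 3 4 6 3 4 6), (84, .am 0 3 4 9 1 1), (75,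 .tb 9 1 2), (29, .ta 8 1 2), (159, .am 0 1 2 4 1 1), (97, .am 0 2 8 9 1 1), (9, .am 0 1 3 4 1 1), (126, .ce 7 9 0 7 0 1), (311, .rt 2 3 5 2 3 6), (489, .lf 7 9 0 0 7 9), (311, .cf 2 3 5 2 6 1), (127, .am 0 1 3 9 1 1), (94, .tb 8 1 2), (84, .am 1 2 3 8 1 1), (41, .am 1 2 3 9 1 1), (363, .ce 7 9 0 7 0 2), (181, .ce 6 8 9 6 9 0)]) (.leaf [(32, .c4 9), (2, .am 1 2 3 8 1 1), (40, .lf 9 1 2 2 9 1), (52, .rt 2 3 5 2 3 5), (8, .am 0 3 4 9 1 1), (8, .ce 7 9 0 7 0 1), (16, .am 1 2 3 9 1 1), (2, .am 0 1 2 3 1 1), (16, .am 0 1 3 4 1 1), (8, .pl 3 4 8 9), (20, .ce 5 7 8 5 9 0), (1, .ta 8 1 2), (8, .lf 7 9 0 0 7 9), (4, .am 0 2 8 9 1 1), (8, .am 0 1 8 9 1 1), (6, .am 0 1 3 8 1 1), (52, .cf 2 3 5 2 5 1), (17, .tb 8 1 2), (32, .rt 1 2 4 1 2 4), (20, .lf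 6 8 9 9 5 8)])) (.leaf [(2, .am 1 3 8 9 1 1), (27, .lf 8 0 1 1 8 0), (2, .pl 0 8 7 5), (24, .rt 3 4 6 3 5 6), (4, .am 1 7 8 9 1 1), (4, .am 1 2 3 9 1 1), (10, .ce 7 9 0 7 0 3), (27, .c4 8), (12, .am 0 1 7 8 1 1), (2, .pl 3 5 8 7), (6, .am 0 2 7 8 1 1), (22, .pl 0 8 3 5), (9, .am 0 1 2 3 1 1), (12, .am 0 2 8 9 1 1), (14, .ce 9 1 2 7 2 3), (48, .lf 7 9 0 0 7 9), (8, .am 1 2 7 9 1 1), (48, .lf 9 1 2 2 9 1), (24, .cf 3 4 6 3 6 1), (9, .am 0 1 8 9 1 1), (24, .lf 5 7 8 8 5 7), (3, .rt 0 1 3 0 1 3)]))) (.leaf [(352, .lf 9 1 2 2 9 1), (91, .am 3 5 9 8 1 1), (352, .cf 3 4 6 3 6 1), (208, .lf 5 7 8 8 5 7), (256, .lf 0 2 3 3 0 2), (224, .lf 8 0 1 1 8 0), (4, .am 0 1 3 9 1 1), (78, .pl 2 3 7 8), (32, .am 1 2 7 8 1 1), (13, .am 5 7 8 9 1 1), (104, .pl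 0 9 3 5), (178, .am 1 2 3 9 1 1), (256, .ce 7 9 0 7 0 2), (92, .am 0 1 7 9 1 1), (80, .lf 7 9 0 0 7 8), (13, .pl 3 5 8 7), (32, .lf 9 1 2 2 9 0), (32, .am 0 2 7 8 1 1), (144, .pl 0 9 3 6), (40, .am 0 7 8 9 1 1), (208, .rt 3 4 6 3 5 6), (384, .lf 7 9 0 0 7 9), (144, .lf 6 8 9 9 6 8), (14, .am 1 2 7 9 1 1), (128, .am 0 1 2 8 1 1)])) (.leaf [(24, .lf 6 8 9 9 6 7), (2, .am 0 3 2 6 1 1), (3, .am 0 2 7 9 1 1), (24, .lf 9 1 2 2 9 1), (1, .am 0 2 3 9 1 1), (3, .am 5 6 7 9 1 1), (8, .am 2 3 9 5 1 1), (9, .am 0 6 7 9 1 1), (11, .pl 0 9 6 5), (24, .cf 2 3 5 2 6 1), (16, .am 2 3 5 6 1 1), (36, .lf 3 5 6 6 3 5), (24, .lf 7 9 0 0 7 9), (36, .rt 2 3 5 2 3 5), (6, .am 2 6 5 7 1 1), (9, .pl 2 3 7 9)])) (.leaf [(1, .pl 1 2 7 6), (1, .pl 1 2 3 5), (1, .lf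 2 4 5 6 2 4), (1, .pl 1 3 4 6), (1, .lf 2 4 5 5 2 4), (1, .pl 1 7 4 5), (1, .pl 3 6 5 7), (2, .rt 1 2 4 1 2 4)])) (.pr 0 2 (.leaf [(6, .pl 3 4 8 9), (8, .lf 9 1 2 3 9 1), (12, .rt 0 1 3 0 1 3), (5, .am 0 2 4 9 1 1), (12, .lf 6 8 9 9 6 8), (24, .lf 7 9 0 0 7 9), (16, .lf 9 1 2 2 9 1), (12, .ce 6 8 9 6 9 0), (6, .am 0 1 3 8 1 1), (4, .am 0 3 4 9 1 1), (2, .am 0 1 3 4 1 1), (3, .pl 2 4 8 9), (12, .lf 1 3 4 4 1 3), (3, .am 0 2 8 9 1 1), (16, .am 0 1 2 4 1 1), (24, .lf 1 3 4 4 1 2), (12, .lf 8 0 1 1 8 0), (24, .ce 7 9 0 7 0 2)]) (.leaf [(8, .am 0 1 3 9 1 1), (4, .am 1 3 4 9 1 1), (10, .am 1 2 3 9 1 1), (2, .am 1 3 8 9 1 1), (9, .lf 6 8 9 9 6 8), (15, .lf 0 2 3 3 0 2), (9, .ce 6 8 9 6 9 0), (5, .am 0 2 3 8 1 1), (6, .am 0 1 3 4 1 1), (15, .ce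 7 9 0 7 0 2), (15, .lf 7 9 0 0 7 8), (7, .pl 3 4 8 9), (20, .lf 1 3 4 4 1 3), (24, .lf 8 0 1 1 8 0), (20, .ce 7 9 0 7 0 3), (20, .lf 9 1 2 2 9 1), (10, .am 0 1 2 8 1 1), (20, .lf 7 9 0 0 7 9), (3, .am 0 3 4 9 1 1)])))))))

theorem ok_4543354665 : chk C4543354665 ⟨39033513376389379750596046878, [], [], [], [], []⟩ = true := by decide +kernel

end Pool.Agent.H146.TW
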