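import Pool.Agent.H292.TW.Chk3

/-!
Project TWELVE (helper221): certificate tree of one order pattern (helper146).
-/

set_option autoImplicit false
set_option maxRecDepth 100000

namespace Pool.Agent.H146.TW

open Pool.Agent.H292.TW.Chk

def C4545454545 : Tr :=
  .pr 1 2 (.pr 3 2 (.pr 5 2 (.pr 7 2 (.pr 8 2 (.leaf [(1, .cf 7 8 0 7 0 5), (1, .rt 5 6 8 4 6 8), (1, .pl 2 6 8 7), (1, .pl 0 8 7 5), (1, .rt 1 2 4 1 2 4), (2, .rt 7 8 0 7 8 0), (1, .pl 1 2 4 6), (1, .rt 3 4 6 3 4 6), (1, .am 3 5 6 7 1 1), (1, .rt 8 9 1 8 0 2), (1, .rt 3 4 6 3 5 6), (1, .pl 3 4 7 8), (1, .rt 5 6 8 5 6 8)]) (.leaf [(1, .pl 0 3 8 7), (1, .rt 3 4 6 3 4 7), (1, .pl 0 1 3 4), (1, .ce 8 0 1 7 1 2), (2, .lf 8 0 1 1 8 0), (1, .rt 1 2 4 1 2 4), (2, .rt 7 8 0 7 8 0), (1, .am 0 1 7 8 1 1)]))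 (.leaf [(1, .lf 7 9 0 0 7 9), (1, .rt 5 6 8 5 6 8), (1, .pl 0 9 6 5), (1, .rt 5 6 8 5 8 9), (1, .lf 7 9 0 0 6 7)])) (.leaf [(1, .rt 3 4 6 3 4 6), (1, .pl 0 3 8 5), (1, .lf 5 7 8 8 5 7), (1, .pl 3 5 7 8), (1, .lf 5 7 8 8 4 5), (1, .pl 0 8 3 4), (1, .rt 3 4 6 3 6 7)])) (.leaf [(1, .rt 1 2 4 1 3 4), (1, .lf 3 5 6 6 2 4), (1, .lf 3 5 6 6 3 5), (1, .rt 1 2 4 1 2 5), (1, .pl 1 3 4 6), (1, .pl 1 7 5 6), (1, .pl 1 2 7 6)])) (.pr 9 2 (.leaf [(1, .rt 9 0 2 9 0 2), (1, .lf 1 3 4 4 0 3), (1, .pl 4 8 7 9), (1, .rt 9 0 2 9 2 3), (1, .pl 4 7 6 9), (1, .pl 3 4 9 8), (1, .pl 0 9 4 6)]) (.pr 7 2 (.leaf [(1, .pl 2 4 8 7), (1, .lf 9 1 2 2 9 1), (1, .lf 9 1 2 2 8 0), (1, .pl 1 2 7 4), (1, .rt 7 8 0 7 8 1), (1, .rt 7 8 0 7 9 0), (1, .pl 0 2 7 9)]) (.pr 5 2 (.leaf [(1, .lf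 7 9 0 0 7 8), (1, .rt 5 6 8 5 6 8), (1, .lf 7 9 0 0 7 9), (1, .rt 5 6 8 5 7 9), (1, .lf 7 9 0 0 6 7), (1, .pl 0 8 7 5), (1, .pl 0 9 6 5)]) (.pr 3 2 (.leaf [(1, .pl 3 4 9 8), (1, .lf 5 7 8 8 5 7), (1, .rt 3 4 6 3 4 7), (2, .pl 3 5 6 8), (1, .pl 3 6 7 8), (1, .lf 5 7 8 8 4 6), (1, .pl 3 9 5 8), (1, .rt 3 4 6 3 5 6)]) (.leaf [(144, .lf 5 7 8 8 5 7), (2, .am 0 2 8 9 1 1), (144, .lf 3 5 6 6 3 5), (10, .am 0 1 7 9 1 1), (70, .pl 0 9 6 5), (1, .am 1 2 3 9 1 1), (20, .pl 0 6 1 7), (36, .pl 0 9 4 3), (12, .am 0 1 7 4 1 1), (40, .pl 2 6 3 7), (144, .lf 1 3 4 4 1 3), (13, .pl 0 4 1 5), (11, .am 0 1 2 4 1 1), (8, .am 5 7 8 9 1 1), (8, .am 4 5 6 8 1 1), (44, .pl 4 8 5 9), (12, .am 2 3 9 6 1 1), (4, .am 3 5 6 7 1 1), (90, .pl 3 4 7 8), (10, .am 2 3 4 6 1 1), (4, .am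 0 6 7 8 1 1), (9, .am 1 2 4 5 1 1), (38, .am 1 5 4 8 1 1), (144, .lf 7 9 0 0 7 9), (2, .am 1 3 4 5 1 1), (6, .am 0 6 7 9 1 1), (40, .am 0 3 7 6 1 1), (18, .am 2 5 9 8 1 1), (20, .am 0 2 3 9 1 1), (62, .pl 1 2 5 6), (144, .lf 9 1 2 2 9 1), (42, .pl 1 2 7 8), (6, .am 3 4 6 7 1 1), (3, .pl 2 8 3 9), (19, .am 1 2 8 9 1 1)])))))

theorem ok_4545454545 : chk C4545454545 ⟨39004489711985944798406242334, [], [], [], [], []⟩ = true := by decide +kernel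

end Pool.Agent.H146.TW
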